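import Pool.Agent.Lib.MP_355270_an.CB.StmB
import Pool.Agent.Lib.MP_355270_an.CB.StmR

open Filter Topology
open scoped ENNReal

namespace Pool.Agent.Lib.MP_355270_an.CB

theorem approx_transpose {I : Type} [Fintype I] (G : Matrix I I ℝ) (K : ℝ)
    (hG : OPle K G) (y : I → ℝ) : ∑ b, (∑ a, y a * G a b) ^ 2 ≤ K ^ 2 * ∑ a, y a ^ 2 := by
  obtain ⟨z, hz⟩ : ∃ z : I → ℝ, z = fun b => ∑ a, y a * G a b := ⟨_, rfl⟩
  have e1 : ∑ b, (∑ a, y a * G a b) ^ 2 = ∑ b, z b ^ 2 := by rw [hz]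
  have e2 : ∑ b, z b ^ 2 = ∑ a, y a * G.mulVec z a := by
    calc ∑ b, z b ^ 2 = ∑ b, (∑ a, y a * G a b) * z b := by
          refine Finset.sum_congr rfl fun b _ => ?_
          rw [sq]
          conv_lhs => rw [hz]
          rw [hz]
      _ = ∑ b, ∑ a, y a * G a b * z b := by
          refine Finset.sum_congr rfl fun b _ => ?_
          rw [Finset.sum_mul]
      _ = ∑ a, ∑ b, y a * G a b * z b := Finset.sum_comm
      _ = ∑ a, y a * G.mulVec z a := by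
          refine Finset.sum_congr rfl fun a _ => ?_
          rw [Matrix.mulVec, dotProduct, Finset.mul_sum]
          refine Finset.sum_congr rfl fun b _ => ?_
          ring
  have e3 := Finset.sum_mul_sq_le_sq_mul_sq Finset.univ y (G.mulVec z)
  have e4 := hG z
  have e5 : 0 ≤ ∑ b, z b ^ 2 := Finset.sum_nonneg fun _ _ => sq_nonneg _
  have e6 : 0 ≤ ∑ a, y a ^ 2 := Finset.sum_nonneg fun _ _ => sq_nonneg _
  rw [e1]
  rw [← e2] at e3
  have e7 : (∑ b, z b ^ 2) ^ 2 ≤ (K ^ 2 * ∑ a, y a ^ 2) * ∑ b, z b ^ 2 := by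
    calc (∑ b, z b ^ 2) ^ 2 ≤ (∑ a, y a ^ 2) * ∑ a, (G.mulVec z a) ^ 2 := e3
      _ ≤ (∑ a, y a ^ 2) * (K ^ 2 * ∑ b, z b ^ 2) := mul_le_mul_of_nonneg_left e4 e6
      _ = _ := by ring
  rcases e5.eq_or_lt with h | h
  · rw [← h]
    positivity
  · rw [sq] at e7
    exact le_of_mul_le_mul_right e7 h

theorem approx_HS_mul {I : Type} [Fintype I] (E G : Matrix I I ℝ) (K : ℝ)
    (hG : OPle K G) : HS2 (E * G) ≤ K ^ 2 * HS2 E := by
  unfold HS2
  rw [Finset.mul_sum]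
  refine Finset.sum_le_sum fun a _ => ?_
  have h := approx_transpose G K hG (E a)
  refine le_trans (le_of_eq ?_) h
  refine Finset.sum_congr rfl fun b _ => ?_
  rw [Matrix.mul_apply]

theorem approx_three (K x y z : ℝ) (hK : 1 ≤ K) :
    (x + y + z) ^ 2 ≤ (2 + K) * (x ^ 2 + K⁻¹ * y ^ 2 + z ^ 2) := by
  have hK0 : 0 < K := by linarith
  have h : (2 + K) * (x ^ 2 + K⁻¹ * y ^ 2 + z ^ 2) - (x + y + z) ^ 2 =
      K⁻¹ * (K * (x - z) ^ 2 + (y - K * x) ^ 2 + (y - K * z) ^ 2) := by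
    field_simp
    ring
  have h2 : 0 ≤ K⁻¹ * (K * (x - z) ^ 2 + (y - K * x) ^ 2 + (y - K * z) ^ 2) := by positivity
  linarith

theorem approx_HS_three {I : Type} [Fintype I] (X Y Z : Matrix I I ℝ) (K : ℝ) (hK : 1 ≤ K) :
    HS2 (X + Y + Z) ≤ (2 + K) * (HS2 X + K⁻¹ * HS2 Y + HS2 Z) := by
  unfold HS2
  calc ∑ a, ∑ b, (X + Y + Z) a b ^ 2
      ≤ ∑ a, ∑ b, (2 + K) * (X a b ^ 2 + K⁻¹ * Y a b ^ 2 + Z a b ^ 2) := by
        refine Finset.sum_le_sum fun a _ => Finset.sum_le_sum fun b _ => ?_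
        rw [Matrix.add_apply, Matrix.add_apply]
        exact approx_three K _ _ _ hK
    _ = _ := by
        simp only [← Finset.mul_sum, Finset.sum_add_distrib]

theorem approx_main {I : Type} [Fintype I] (A H U W H' U' W' G S : Matrix I I ℝ)
    (K1 η : ℝ) (hK1 : 1 ≤ K1) (hη : 0 ≤ η) (hS : OPle 1 S) (hG : OPle K1 G)
    (hA : A = H + U * G + W * S)
    (h0 : HS2 (H - H') ≤ η) (h1 : HS2 (U - U') ≤ η) (h2 : HS2 (W - W') ≤ η) :
    HS2 (A - (H' + U' * G + W' * S)) ≤ (2 + K1) ^ 2 * η := by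
  have e : A - (H' + U' * G + W' * S) = (H - H') + (U - U') * G + (W - W') * S := by
    rw [hA, sub_mul, sub_mul]
    abel
  rw [e]
  have hK0 : 0 < K1 := by linarith
  have g1 := approx_HS_mul (U - U') G K1 hG
  have g2 := approx_HS_mul (W - W') S 1 hS
  have g3 := approx_HS_three (H - H') ((U - U') * G) ((W - W') * S) K1 hK1
  have g4 : HS2 ((U - U') * G) ≤ K1 ^ 2 * η := g1.trans (mul_le_mul_of_nonneg_left h1 (by positivity))
  have g5 : HS2 ((W - W') * S) ≤ η := by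
    rw [one_pow, one_mul] at g2
    exact g2.trans h2
  have g6 : K1⁻¹ * HS2 ((U - U') * G) ≤ K1 * η := by
    calc K1⁻¹ * HS2 ((U - U') * G) ≤ K1⁻¹ * (K1 ^ 2 * η) := mul_le_mul_of_nonneg_left g4 (by positivity)
      _ = K1 * η := by field_simp
  calc _ ≤ (2 + K1) * (HS2 (H - H') + K1⁻¹ * HS2 ((U - U') * G) + HS2 ((W - W') * S)) := g3
    _ ≤ (2 + K1) * (η + K1 * η + η) := by
        apply mul_le_mul_of_nonneg_left _ (by positivity)
        linarith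
    _ = (2 + K1) ^ 2 * η := by ring

theorem approx_rows (h1 : S_dual) (s C : ℝ) (hs : 1 < s) (hC : 0 ≤ C) (I : Type) [Fintype I]
    [DecidableEq I] (G S A : Matrix I I ℝ)
    (hA : ∀ x : I → ℝ, ∑ a, |(A.mulVec x) a| ^ s ≤ C ^ s * Qs s G S x) :
    ∃ H U W : Matrix I I ℝ, A = H + U * G + W * S ∧
      (∀ a, ∑ i, |H a i| ^ (s / (s - 1)) ≤ C ^ (s / (s - 1))) ∧
      (∀ a, ∑ i, |U a i| ^ (s / (s - 1)) ≤ C ^ (s / (s - 1))) ∧
      (∀ a, ∑ i, |W a i| ^ (s / (s - 1)) ≤ C ^ (s / (s - 1))) := by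
  have key : ∀ a : I, ∃ h u w : I → ℝ, (∀ i, A a i = h i + ∑ b, u b * G b i + ∑ b, w b * S b i) ∧
      (∑ a, |h a| ^ (s / (s - 1)) ≤ C ^ (s / (s - 1))) ∧
      (∑ a, |u a| ^ (s / (s - 1)) ≤ C ^ (s / (s - 1))) ∧
      (∑ a, |w a| ^ (s / (s - 1)) ≤ C ^ (s / (s - 1))) := by
    intro a
    apply h1 s C hs hC I G S (A a)
    intro x
    refine le_trans ?_ (hA x)
    have e : ∑ i, A a i * x i = A.mulVec x a := rfl
    rw [e]
    exact Finset.single_le_sum (f := fun a => |(A.mulVec x) a| ^ s)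
      (fun i _ => Real.rpow_nonneg (abs_nonneg _) _) (Finset.mem_univ a)
  choose H U W h3 h4 h5 h6 using key
  refine ⟨H, U, W, ?_, h4, h5, h6⟩
  ext a i
  rw [Matrix.add_apply, Matrix.add_apply, Matrix.mul_apply, Matrix.mul_apply]
  exact h3 a i

theorem p_approx (h1 : S_dual) (h2 : S_sparse) : S_approx := by
  intro s C η hs2 hs4 hC hη
  have hs1 : 0 < s - 1 := by linarith
  have hp1 : 1 < s / (s - 1) := by
    rw [lt_div_iff₀ hs1]
    linarith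
  have hp2 : s / (s - 1) < 2 := by
    rw [div_lt_iff₀ hs1]
    linarith
  obtain ⟨K, L, β, hL, hβ⟩ := h2 (s / (s - 1)) C η hp1 hp2 hC hη
  refine ⟨K, L, β, hL, ?_⟩
  intro K1 hK1 I _ _ _ S g g' M hS hG hM
  have hC0 : 0 ≤ C := by linarith
  obtain ⟨H, U, W, hA, hH, hU, hW⟩ := approx_rows h1 s C (by linarith) hC0 I (Gm g) S M hM.1
  obtain ⟨H', U', W', hA', hH', hU', hW'⟩ := approx_rows h1 s C (by linarith) hC0 I (Gm g) S (Gm g' * M) hM.2
  -- the codes of the rows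
  have code : ∀ X : Matrix I I ℝ, (∀ a, ∑ i, |X a i| ^ (s / (s - 1)) ≤ C ^ (s / (s - 1))) →
      ∃ c : I → Fin K → I × Fin L, HS2 (X - cm β c) ≤ η * Fintype.card I ∧
        ∀ a, (∀ i, |cm β c a i| ≤ C) ∧ (∑ i, |cm β c a i| ≤ K * C) ∧
          (Finset.univ.filter fun i => cm β c a i ≠ 0).card ≤ K := by
    intro X hX
    choose c hc using fun a => hβ I (X a) (hX a)
    refine ⟨c, ?_, fun a => ⟨(hc a).2.1, (hc a).2.2.1, (hc a).2.2.2⟩⟩
    unfold HS2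
    calc ∑ a, ∑ b, (X - cm β c) a b ^ 2 ≤ ∑ a : I, η := Finset.sum_le_sum fun a _ => (hc a).1
      _ = η * Fintype.card I := by
        rw [Finset.sum_const, nsmul_eq_mul, mul_comm]
        rfl
  obtain ⟨c0, a0, b0⟩ := code H hH
  obtain ⟨c1, a1, b1⟩ := code U hU
  obtain ⟨c2, a2, b2⟩ := code W hW
  obtain ⟨c3, a3, b3⟩ := code H' hH'
  obtain ⟨c4, a4, b4⟩ := code U' hU'
  obtain ⟨c5, a5, b5⟩ := code W' hW'
  have hη' : 0 ≤ η * Fintype.card I := by positivity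
  refine ⟨![c0, c1, c2, c3, c4, c5], ?_, ?_, ?_⟩
  · intro q
    fin_cases q
    · exact b0
    · exact b1
    · exact b2
    · exact b3
    · exact b4
    · exact b5
  · have h := approx_main M H U W (cm β c0) (cm β c1) (cm β c2) (Gm g) S K1 _ hK1 hη' hS hG hA a0 a1 a2
    rw [mul_assoc]
    exact h
  · have h := approx_main (Gm g' * M) H' U' W' (cm β c3) (cm β c4) (cm β c5) (Gm g) S K1 _ hK1 hη' hS hG hA' a3 a4 a5
    rw [mul_assoc]
    exact h

end Pool.Agent.Lib.MP_355270_an.CB
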