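import Pool.Agent.Lib.MP_355270_an.CB.StmB

open Filter Topology
open scoped ENNReal

namespace Pool.Agent.Lib.MP_355270_an.CB

theorem p_avg : S_avg := by
  intro ι _ _ a r s K C R ha hr hs hK hC h1 h2
  have hk : (0 : ℝ) < Fintype.card ι := by exact_mod_cast Fintype.card_pos
  set k : ℝ := (Fintype.card ι : ℝ) with hkdef
  have hr0 : 0 < r := by linarith
  set S : ℝ := ∑ b, a b ^ r with hS
  have hS0 : 0 ≤ S := Finset.sum_nonneg fun b _ => Real.rpow_nonneg (ha b) _
  have hA0 : 0 ≤ (1 / k) * ∑ b, a b :=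
    mul_nonneg (by positivity) (Finset.sum_nonneg fun b _ => ha b)
  have h3 : ((1 / k) * ∑ b, a b) ^ r ≤ (1 / k) * S := by
    have := Real.rpow_arith_mean_le_arith_mean_rpow Finset.univ (fun _ : ι => 1 / k) a
      (fun _ _ => by positivity)
      (by rw [Finset.sum_const, Finset.card_univ, nsmul_eq_mul, ← hkdef]; field_simp)
      (fun i _ => ha i) hr
    rw [← Finset.mul_sum, ← Finset.mul_sum] at this
    exact this
  have h4 : (1 / k) * ∑ b, a b ≤ ((1 / k) * S) ^ (1 / r) := by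
    have := Real.rpow_le_rpow (Real.rpow_nonneg hA0 _) h3 (by positivity : 0 ≤ 1 / r)
    rwa [← Real.rpow_mul hA0, mul_one_div_cancel hr0.ne', Real.rpow_one] at this
  have h5 : ((1 / k) * S) ^ (1 / r) = S ^ (1 / r) * k ^ (-(1 / r)) := by
    rw [Real.mul_rpow (by positivity) hS0, Real.rpow_neg hk.le, one_div k, Real.inv_rpow hk.le,
      mul_comm]
  have h6 : S ^ (1 / r) ≤ K * C * (10 * k) ^ (1 / s) := by
    have e1 : S ^ (1 / r) = (S ^ (3 / r)) ^ (1 / 3 : ℝ) := by
      rw [← Real.rpow_mul hS0]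
      congr 1
      field_simp
    have hT0 : 0 ≤ K * C * (10 * k) ^ (1 / s) := by positivity
    have e2 : K ^ 3 * (C ^ 3 * (10 * k) ^ (3 / s)) = (K * C * (10 * k) ^ (1 / s)) ^ (3 : ℝ) := by
      rw [Real.mul_rpow (x := K * C) (by positivity) (by positivity), Real.mul_rpow hK hC,
        ← Real.rpow_mul (x := 10 * k) (by positivity)]
      have e3 : 1 / s * 3 = 3 / s := by ring
      rw [e3]
      have e4 : ∀ x : ℝ, x ^ (3 : ℝ) = x ^ 3 := fun x => by
        rw [← Real.rpow_natCast, Nat.cast_ofNat]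
      rw [e4, e4]
      ring
    have h7 : S ^ (3 / r) ≤ (K * C * (10 * k) ^ (1 / s)) ^ (3 : ℝ) := by
      rw [← e2]
      exact h1.trans (mul_le_mul_of_nonneg_left h2 (by positivity))
    rw [e1]
    have h8 := Real.rpow_le_rpow (Real.rpow_nonneg hS0 _) h7 (by norm_num : (0:ℝ) ≤ 1 / 3)
    refine h8.trans (le_of_eq ?_)
    rw [← Real.rpow_mul hT0]
    norm_num
  calc (1 / k) * ∑ b, a b ≤ ((1 / k) * S) ^ (1 / r) := h4
    _ = S ^ (1 / r) * k ^ (-(1 / r)) := h5
    _ ≤ K * C * (10 * k) ^ (1 / s) * k ^ (-(1 / r)) :=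
        mul_le_mul_of_nonneg_right h6 (Real.rpow_nonneg hk.le _)

end Pool.Agent.Lib.MP_355270_an.CB
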