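import Pool.Agent.Lib.MP_355270_an.CB.StmB

open Filter Topology
open scoped ENNReal

namespace Pool.Agent.Lib.MP_355270_an.CB

theorem bessel_ineq {J G : Type} [Fintype J] [Fintype G] [DecidableEq J] (ν : ℝ) (hν : 0 < ν)
    (u : J → G → ℝ) (e : G → ℝ) (hu : ∀ j j', ∑ g, u j g * u j' g = if j = j' then ν else 0) :
    ∑ j, (∑ g, u j g / ν * e g) ^ 2 ≤ (∑ g, e g ^ 2) / ν := by
  set c : J → ℝ := fun j => ∑ g, u j g / ν * e g with hc
  have hc' : ∀ j, ∑ g, u j g * e g = ν * c j := by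
    intro j
    rw [hc, Finset.mul_sum]
    refine Finset.sum_congr rfl fun g _ => ?_
    field_simp
  have h0 : 0 ≤ ∑ g, (e g - ∑ j, c j * u j g) ^ 2 := Finset.sum_nonneg fun _ _ => sq_nonneg _
  have h1 : ∑ g, (e g - ∑ j, c j * u j g) ^ 2 = ∑ g, e g ^ 2 - ν * ∑ j, c j ^ 2 := by
    have e1 : ∀ g, (e g - ∑ j, c j * u j g) ^ 2 =
        e g ^ 2 - 2 * (∑ j, c j * (u j g * e g)) + ∑ j, ∑ j', c j * c j' * (u j g * u j' g) := by
      intro g
      have e2 : (∑ j, c j * u j g) ^ 2 = ∑ j, ∑ j', c j * c j' * (u j g * u j' g) := by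
        rw [sq, Finset.sum_mul_sum]
        refine Finset.sum_congr rfl fun j _ => Finset.sum_congr rfl fun j' _ => ?_
        ring
      have e3 : (∑ j, c j * (u j g * e g)) = (∑ j, c j * u j g) * e g := by
        rw [Finset.sum_mul]
        refine Finset.sum_congr rfl fun j _ => ?_
        ring
      rw [e3, ← e2]
      ring
    simp_rw [e1]
    rw [Finset.sum_add_distrib, Finset.sum_sub_distrib, ← Finset.mul_sum, Finset.sum_comm]
    have e4 : ∑ j, ∑ g, c j * (u j g * e g) = ν * ∑ j, c j ^ 2 := by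
      rw [Finset.mul_sum]
      refine Finset.sum_congr rfl fun j _ => ?_
      rw [← Finset.mul_sum, hc' j]
      ring
    have e5 : ∑ g, ∑ j, ∑ j', c j * c j' * (u j g * u j' g) = ν * ∑ j, c j ^ 2 := by
      rw [Finset.sum_comm, Finset.mul_sum]
      refine Finset.sum_congr rfl fun j _ => ?_
      rw [Finset.sum_comm]
      have e6 : ∀ j', ∑ g, c j * c j' * (u j g * u j' g) = if j = j' then ν * (c j * c j') else 0 := by
        intro j'
        rw [← Finset.mul_sum, hu]
        split_ifs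
        · ring
        · ring
      simp_rw [e6]
      rw [Finset.sum_ite_eq Finset.univ j (fun j' => ν * (c j * c j'))]
      rw [if_pos (Finset.mem_univ j)]
      ring
    rw [e4, e5]
    ring
  rw [h1] at h0
  rw [le_div_iff₀ hν]
  linarith

theorem bessel_pm (x M : ℝ) (hx : 0 ≤ x) (hM : 0 < M) : x ^ 2 ≤ 2 / 3 * (x ^ 3 / M) + M ^ 2 / 3 := by
  have h : 0 ≤ (x - M) ^ 2 * (2 * x + M) := by positivity
  have h2 : 2 / 3 * (x ^ 3 / M) + M ^ 2 / 3 - x ^ 2 = (x - M) ^ 2 * (2 * x + M) / (3 * M) := by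
    field_simp
    ring
  have h3 : 0 ≤ (x - M) ^ 2 * (2 * x + M) / (3 * M) := by positivity
  linarith

theorem p_bessel (h1 : S_evnorm) : S_bessel := by
  intro κ d t f
  have hν : 0 < nu κ t := by
    unfold nu
    positivity
  have hu : ∀ j j' : Fin (κ + t) → Bool, ∑ g, (sg (d.σ t j) * walsh (d.a t j) g) * (sg (d.σ t j') * walsh (d.a t j') g) =
      if j = j' then nu κ t else 0 := by
    intro j j'
    have e1 : ∀ g, (sg (d.σ t j) * walsh (d.a t j) g) * (sg (d.σ t j') * walsh (d.a t j') g) =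
        (sg (d.σ t j) * sg (d.σ t j')) * (walsh (d.a t j) g * walsh (d.a t j') g) := by
      intro g
      ring
    simp_rw [e1]
    rw [← Finset.mul_sum, walsh_orth]
    by_cases h : j = j'
    · subst h
      rw [if_pos rfl, if_pos rfl, sg_mul_self, one_mul]
      rfl
    · rw [if_neg (fun h' => h (d.ha t h')), if_neg h, mul_zero]
  have hb := bessel_ineq (nu κ t) hν (fun (j : Fin (κ + t) → Bool) g => sg (d.σ t j) * walsh (d.a t j) g)
    (fun g => ev κ t g f) hu
  have hFa : ∀ j, d.Fa t j f = ∑ g, sg (d.σ t j) * walsh (d.a t j) g / nu κ t * ev κ t g f := by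
    intro j
    unfold DD.Fa
    rw [ContinuousLinearMap.sum_apply]
    rfl
  simp_rw [hFa]
  refine hb.trans ?_
  have hE := h1 κ t f
  rcases eq_or_lt_of_le (norm_nonneg f) with h0 | h0
  · have hf : f = 0 := norm_eq_zero.mp h0.symm
    rw [hf]
    simp
  · rw [div_le_iff₀ hν] at hE
    rw [div_le_iff₀ hν]
    have hs : ∑ g, (ev κ t g f) ^ 2 ≤ ∑ g : Fin (κ + t + 2) → Bool, (2 / 3 * (|ev κ t g f| ^ 3 / ‖f‖) + ‖f‖ ^ 2 / 3) := by
      refine Finset.sum_le_sum fun g _ => ?_
      rw [← sq_abs]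
      exact bessel_pm _ _ (abs_nonneg _) h0
    refine hs.trans ?_
    rw [Finset.sum_add_distrib, ← Finset.mul_sum, ← Finset.sum_div, Finset.sum_const, nsmul_eq_mul]
    have hcard : ((Finset.univ : Finset (Fin (κ + t + 2) → Bool)).card : ℝ) = nu κ t := by
      rw [Finset.card_univ, Fintype.card_fun, Fintype.card_fin, Fintype.card_bool]
      unfold nu
      push_cast
      rfl
    rw [hcard]
    have h4 : (∑ g, |ev κ t g f| ^ 3) / ‖f‖ ≤ ‖f‖ ^ 2 * nu κ t := by
      rw [div_le_iff₀ h0]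
      calc _ ≤ ‖f‖ ^ 3 * nu κ t := hE
        _ = ‖f‖ ^ 2 * nu κ t * ‖f‖ := by ring
    nlinarith

end Pool.Agent.Lib.MP_355270_an.CB
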