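import Pool.Agent.Lib.MP_355270_an.CB.StmB

open Filter Topology
open scoped ENNReal

namespace Pool.Agent.Lib.MP_355270_an.CB

theorem beta_q : (2 : ℝ) ^ (-(1 : ℝ) / 6) ≤ 9 / 10 := by
  have h0 : (0 : ℝ) ≤ (2 : ℝ) ^ (-(1 : ℝ) / 6) := by positivity
  have h1 : ((2 : ℝ) ^ (-(1 : ℝ) / 6)) ^ 6 = 1 / 2 := by
    rw [← Real.rpow_natCast, ← Real.rpow_mul (by norm_num)]
    norm_num
  by_contra hlt
  push Not at hlt
  have h2 := pow_lt_pow_left₀ hlt (by norm_num) (by norm_num : (6 : ℕ) ≠ 0)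
  rw [h1] at h2
  norm_num at h2

theorem beta_term (κ t : ℕ) : (2 : ℝ) ^ (-((κ + t : ℕ) : ℝ) / 6) =
    (2 : ℝ) ^ (-(κ : ℝ) / 6) * ((2 : ℝ) ^ (-(1 : ℝ) / 6)) ^ t := by
  rw [← Real.rpow_natCast, ← Real.rpow_mul (by norm_num), ← Real.rpow_add (by norm_num)]
  congr 1
  push_cast
  ring

theorem beta_geom (q : ℝ) (hq0 : 0 ≤ q) (hq : q ≤ 9 / 10) (n : ℕ) :
    ∑ t ∈ Finset.range n, q ^ t ≤ 10 := by
  have h : ∑ t ∈ Finset.range n, q ^ t ≤ (1 - q ^ n) / (1 - q) := by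
    rw [geom_sum_eq (by linarith), ← neg_div_neg_eq]
    simp
  refine h.trans ?_
  rw [div_le_iff₀ (by linarith)]
  have := pow_nonneg hq0 n
  linarith

theorem beta_sum (b : ℕ → ℝ) (c : ℕ → ℝ) (h : ∀ t, |b (t + 1) - b t| ≤ c t) (n : ℕ) :
    |b 0| ≤ |b n| + ∑ t ∈ Finset.range n, c t := by
  induction n with
  | zero => simp
  | succ n ih =>
    rw [Finset.sum_range_succ]
    have h1 := h n
    have h2 : |b n| ≤ |b (n + 1)| + |b (n + 1) - b n| := by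
      have := abs_sub_abs_le_abs_sub (b n) (b (n + 1))
      rw [abs_sub_comm] at this
      linarith
    linarith

theorem p_beta (h1 : S_beta0) (h2 : S_betastep) : S_beta := by
  intro κ d T hT
  have ht := h1 κ d T hT
  have hs := h2 κ d T
  set q : ℝ := (2 : ℝ) ^ (-(1 : ℝ) / 6) with hq
  have hq0 : 0 ≤ q := by positivity
  set A : ℝ := (2 : ℝ) ^ (-(κ : ℝ) / 6) with hA
  have hA0 : 0 ≤ A := by positivity
  have key : ∀ n : ℕ, |d.beta T 0| ≤ |d.beta T n| + 50 * A * ‖T‖ := by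
    intro n
    have h := beta_sum (d.beta T) _ hs n
    have e : ∑ t ∈ Finset.range n, 5 * (2 : ℝ) ^ (-((κ + t : ℕ) : ℝ) / 6) * ‖T‖ =
        5 * A * ‖T‖ * ∑ t ∈ Finset.range n, q ^ t := by
      rw [Finset.mul_sum]
      refine Finset.sum_congr rfl fun t _ => ?_
      rw [beta_term]
      ring
    rw [e] at h
    have hg := beta_geom q hq0 beta_q n
    have hc : 0 ≤ 5 * A * ‖T‖ := by positivity
    have := mul_le_mul_of_nonneg_left hg hc
    linarith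
  have hlim : Tendsto (fun n => |d.beta T n| + 50 * A * ‖T‖) atTop (𝓝 (|0| + 50 * A * ‖T‖)) :=
    (ht.abs).add_const _
  rw [abs_zero, zero_add] at hlim
  exact ge_of_tendsto' hlim key

end Pool.Agent.Lib.MP_355270_an.CB
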