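import Pool.Agent.Lib.MP_355270_an.CB.StmB

open Filter Topology
open scoped ENNReal

namespace Pool.Agent.Lib.MP_355270_an.CB

/-- Rank one operators. -/
theorem beta0_rank1 (h1 : S_bessel) (h2 : S_enorm) (κ : ℕ) (d : DD κ) (φ : d.V →L[ℝ] ℝ) (y : d.V) :
    Tendsto (fun t => (1 / 2 ^ (κ + t)) * ∑ j, φ (d.eV t j) * d.Fa t j (y : L3 κ)) atTop (𝓝 (0 : ℝ)) := by
  have hsq : Tendsto (fun t => ((1 / 2 ^ (κ + t)) * ∑ j, φ (d.eV t j) * d.Fa t j (y : L3 κ)) ^ 2)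
      atTop (𝓝 (0 : ℝ)) := by
    have hb : ∀ t, ((1 / 2 ^ (κ + t)) * ∑ j, φ (d.eV t j) * d.Fa t j (y : L3 κ)) ^ 2 ≤
        (4 * ‖φ‖ ^ 2 * ‖y‖ ^ 2) * (1 / 2) ^ t := by
      intro t
      have hN : (0 : ℝ) < 2 ^ (κ + t) := by positivity
      have c1 := Finset.sum_mul_sq_le_sq_mul_sq Finset.univ (fun j => φ (d.eV t j))
        (fun j => d.Fa t j (y : L3 κ))
      have c2 : ∑ j : Fin (κ + t) → Bool, (φ (d.eV t j)) ^ 2 ≤ 2 ^ (κ + t) * (4 * ‖φ‖ ^ 2) := by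
        have c3 : ∀ j ∈ (Finset.univ : Finset (Fin (κ + t) → Bool)), (φ (d.eV t j)) ^ 2 ≤ 4 * ‖φ‖ ^ 2 := by
          intro j _
          have c4 : |φ (d.eV t j)| ≤ ‖φ‖ * 2 := by
            refine (φ.le_opNorm _).trans (mul_le_mul_of_nonneg_left ?_ (by positivity))
            exact (h2 κ d).2 t j
          rw [← sq_abs]
          calc |φ (d.eV t j)| ^ 2 ≤ (‖φ‖ * 2) ^ 2 := pow_le_pow_left₀ (abs_nonneg _) c4 2
            _ = 4 * ‖φ‖ ^ 2 := by ring
        refine (Finset.sum_le_card_nsmul _ _ _ c3).trans (le_of_eq ?_)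
        rw [Finset.card_univ, Fintype.card_fun, Fintype.card_fin, Fintype.card_bool, nsmul_eq_mul]
        push_cast
        rfl
      have c5 : ∑ j, (d.Fa t j (y : L3 κ)) ^ 2 ≤ ‖y‖ ^ 2 := h1 κ d t (y : L3 κ)
      have c6 : (∑ j, φ (d.eV t j) * d.Fa t j (y : L3 κ)) ^ 2 ≤ (2 ^ (κ + t) * (4 * ‖φ‖ ^ 2)) * ‖y‖ ^ 2 :=
        c1.trans (mul_le_mul c2 c5 (Finset.sum_nonneg fun _ _ => sq_nonneg _) (by positivity))
      rw [mul_pow]
      calc (1 / 2 ^ (κ + t)) ^ 2 * (∑ j, φ (d.eV t j) * d.Fa t j (y : L3 κ)) ^ 2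
          ≤ (1 / 2 ^ (κ + t)) ^ 2 * ((2 ^ (κ + t) * (4 * ‖φ‖ ^ 2)) * ‖y‖ ^ 2) :=
            mul_le_mul_of_nonneg_left c6 (by positivity)
        _ = (4 * ‖φ‖ ^ 2 * ‖y‖ ^ 2) * (1 / 2 ^ (κ + t)) := by
            field_simp
        _ ≤ (4 * ‖φ‖ ^ 2 * ‖y‖ ^ 2) * (1 / 2) ^ t := by
            refine mul_le_mul_of_nonneg_left ?_ (by positivity)
            rw [one_div_pow]
            refine one_div_le_one_div_of_le (by positivity) ?_
            exact pow_le_pow_right₀ (by norm_num) (by omega)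
    have hlim : Tendsto (fun t : ℕ => (4 * ‖φ‖ ^ 2 * ‖y‖ ^ 2) * (1 / 2 : ℝ) ^ t) atTop (𝓝 0) := by
      have := (tendsto_pow_atTop_nhds_zero_of_lt_one (r := (1 / 2 : ℝ)) (by norm_num) (by norm_num)).const_mul
        (4 * ‖φ‖ ^ 2 * ‖y‖ ^ 2)
      rwa [mul_zero] at this
    exact squeeze_zero (fun _ => sq_nonneg _) hb hlim
  have h3 := hsq.sqrt
  rw [Real.sqrt_zero] at h3
  rw [tendsto_zero_iff_abs_tendsto_zero]
  refine h3.congr fun t => ?_
  rw [Real.sqrt_sq_eq_abs]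
  rfl

theorem p_beta0 (h1 : S_bessel) (h2 : S_enorm) : S_beta0 := by
  intro κ d T hT
  haveI : FiniteDimensional ℝ T.toLinearMap.range := hT
  let b := Module.finBasis ℝ T.toLinearMap.range
  let T' : d.V →L[ℝ] T.toLinearMap.range :=
    T.codRestrict T.toLinearMap.range (fun x => LinearMap.mem_range_self T.toLinearMap x)
  let f : Fin (Module.finrank ℝ T.toLinearMap.range) → (d.V →L[ℝ] ℝ) := fun i =>
    (LinearMap.toContinuousLinearMap (b.coord i)).comp T'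
  have hrep : ∀ x, T x = ∑ i, f i x • ((b i : T.toLinearMap.range) : d.V) := by
    intro x
    have h3 := b.sum_repr (T' x)
    have h4 : ((∑ i, b.repr (T' x) i • b i : T.toLinearMap.range) : d.V) = T x := by
      rw [h3]
      rfl
    rw [← h4, Submodule.coe_sum]
    rfl
  have hbeta : d.beta T = fun t => ∑ i, (1 / 2 ^ (κ + t)) * ∑ j, f i (d.eV t j) *
      d.Fa t j (((b i : T.toLinearMap.range) : d.V) : L3 κ) := by
    funext t
    unfold DD.beta
    rw [← Finset.mul_sum, Finset.sum_comm]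
    congr 1
    refine Finset.sum_congr rfl fun j _ => ?_
    rw [hrep, Submodule.coe_sum, map_sum]
    refine Finset.sum_congr rfl fun i _ => ?_
    rw [Submodule.coe_smul, map_smul, smul_eq_mul]
  rw [hbeta]
  have h5 := tendsto_finsetSum (Finset.univ : Finset (Fin (Module.finrank ℝ T.toLinearMap.range)))
    (fun i _ => beta0_rank1 h1 h2 κ d (f i) ((b i : T.toLinearMap.range) : d.V))
  rw [Finset.sum_const_zero] at h5
  exact h5

end Pool.Agent.Lib.MP_355270_an.CB
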