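import Pool.Agent.Lib.MP_355270_an.CB.StmB

open Filter Topology
open scoped ENNReal

namespace Pool.Agent.Lib.MP_355270_an.CB

theorem p_betaid (h1 : S_FaFb) : S_betaid := by
  intro κ d T t
  have e1 : d.beta T (t + 1) = (1 / 2 ^ (κ + t + 1)) * ∑ j : Fin (κ + t + 1) → Bool,
      ∑ g, walsh (d.b t j) g / nu κ t * ev κ t g ((T (d.eV (t + 1) j) : d.V) : L3 κ) := by
    unfold DD.beta
    congr 1
    refine Finset.sum_congr rfl fun j _ => ?_
    rw [h1 κ d t j (T (d.eV (t + 1) j))]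
    unfold DD.Fb
    rw [ContinuousLinearMap.sum_apply]
    rfl
  have e2 : d.beta T t = (1 / 2 ^ (κ + t)) * ∑ j : Fin (κ + t) → Bool,
      ∑ g, sg (d.σ t j) * walsh (d.a t j) g / nu κ t * ev κ t g ((T (d.eV t j) : d.V) : L3 κ) := by
    unfold DD.beta
    congr 1
    refine Finset.sum_congr rfl fun j _ => ?_
    unfold DD.Fa
    rw [ContinuousLinearMap.sum_apply]
    rfl
  have e3 : ∀ g, ev κ t g ((T (d.Ph t g) : d.V) : L3 κ) =
      ∑ j : Fin (κ + t + 1) → Bool, walsh (d.b t j) g * ev κ t g ((T (d.eV (t + 1) j) : d.V) : L3 κ) -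
      2 * ∑ j : Fin (κ + t) → Bool, (sg (d.σ t j) * walsh (d.a t j) g) *
        ev κ t g ((T (d.eV t j) : d.V) : L3 κ) := by
    intro g
    unfold DD.Ph
    rw [map_sub, map_smul, map_sum, map_sum, Submodule.coe_sub, Submodule.coe_smul, Submodule.coe_sum,
      Submodule.coe_sum, map_sub, map_smul, map_sum, map_sum, smul_eq_mul]
    congr 1
    · refine Finset.sum_congr rfl fun j _ => ?_
      rw [map_smul, Submodule.coe_smul, map_smul, smul_eq_mul]
    · congr 1
      refine Finset.sum_congr rfl fun j _ => ?_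
      rw [map_smul, Submodule.coe_smul, map_smul, smul_eq_mul]
  have hν : nu κ t ≠ 0 := by
    unfold nu
    positivity
  rw [e1, e2]
  simp_rw [e3]
  rw [Finset.sum_sub_distrib, ← Finset.mul_sum]
  have s1 : ∑ g, ∑ j : Fin (κ + t + 1) → Bool, walsh (d.b t j) g * ev κ t g ((T (d.eV (t + 1) j) : d.V) : L3 κ) =
      nu κ t * ∑ j : Fin (κ + t + 1) → Bool,
        ∑ g, walsh (d.b t j) g / nu κ t * ev κ t g ((T (d.eV (t + 1) j) : d.V) : L3 κ) := by
    rw [Finset.sum_comm, Finset.mul_sum]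
    refine Finset.sum_congr rfl fun j _ => ?_
    rw [Finset.mul_sum]
    refine Finset.sum_congr rfl fun g _ => ?_
    field_simp
  have s2 : ∑ g, ∑ j : Fin (κ + t) → Bool, (sg (d.σ t j) * walsh (d.a t j) g) *
        ev κ t g ((T (d.eV t j) : d.V) : L3 κ) =
      nu κ t * ∑ j : Fin (κ + t) → Bool,
        ∑ g, sg (d.σ t j) * walsh (d.a t j) g / nu κ t * ev κ t g ((T (d.eV t j) : d.V) : L3 κ) := by
    rw [Finset.sum_comm, Finset.mul_sum]
    refine Finset.sum_congr rfl fun j _ => ?_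
    rw [Finset.mul_sum]
    refine Finset.sum_congr rfl fun g _ => ?_
    field_simp
  rw [s1, s2, pow_succ]
  field_simp

end Pool.Agent.Lib.MP_355270_an.CB
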