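import Pool.Agent.Lib.MP_355270_an.CB.StmB

open Filter Topology
open scoped ENNReal

namespace Pool.Agent.Lib.MP_355270_an.CB

theorem betastep_ev (h3 : S_evnorm) {κ : ℕ} (t : ℕ) (g : Fin (κ + t + 2) → Bool) (f : L3 κ) {c : ℝ}
    (hc0 : 0 ≤ c) (hc : c ^ 3 = nu κ t) : |ev κ t g f| ≤ c * ‖f‖ := by
  have hnu : 0 < nu κ t := by
    unfold nu
    positivity
  have h := h3 κ t f
  rw [div_le_iff₀ hnu] at h
  have h1 : |ev κ t g f| ^ 3 ≤ ∑ g, |ev κ t g f| ^ 3 :=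
    Finset.single_le_sum (f := fun g => |ev κ t g f| ^ 3) (fun i _ => by positivity) (Finset.mem_univ g)
  refine le_of_pow_le_pow_left₀ (n := 3) (by norm_num) (by positivity) ?_
  rw [mul_pow, hc]
  linarith

theorem p_betastep (h1 : S_betaid) (h2 : S_Phnorm) (h3 : S_evnorm) : S_betastep := by
  intro κ d T t
  have hnu : 0 < nu κ t := by
    unfold nu
    positivity
  set q : ℝ := (2 : ℝ) ^ (κ + t) with hq
  have hq0 : 0 < q := by positivity
  set y : ℝ := Real.sqrt q with hy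
  have hy0 : 0 < y := Real.sqrt_pos.2 hq0
  have hyq : y ^ 2 = q := Real.sq_sqrt hq0.le
  have hnuq : nu κ t = 4 * q := by
    unfold nu
    rw [hq, pow_add _ (κ + t) 2]
    ring
  have hq32 : q ^ (3 / 2 : ℝ) = q * y := by
    rw [show (3 / 2 : ℝ) = 1 + 1 / 2 by norm_num, Real.rpow_add hq0, Real.rpow_one, hy, Real.sqrt_eq_rpow]
  obtain ⟨c, hc0, hc⟩ : ∃ c : ℝ, 0 ≤ c ∧ c ^ 3 = nu κ t := by
    refine ⟨nu κ t ^ (1 / 3 : ℝ), by positivity, ?_⟩
    rw [← Real.rpow_natCast, ← Real.rpow_mul hnu.le]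
    norm_num
  -- the average of the norms
  set M : ℝ := (1 / nu κ t) * ∑ g, ‖d.Ph t g‖ with hM
  have hM0 : 0 ≤ M := by positivity
  have hM3 : M ^ 3 ≤ 216 * (q * y) := by
    have h := Real.pow_arith_mean_le_arith_mean_pow (Finset.univ : Finset (Fin (κ + t + 2) → Bool))
      (fun _ => 1 / nu κ t) (fun g => ‖d.Ph t g‖) (fun _ _ => by positivity) (by
        rw [Finset.sum_const, Finset.card_univ, nsmul_eq_mul]
        unfold nu
        simp) (fun _ _ => norm_nonneg _) 3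
    rw [← Finset.mul_sum, ← Finset.mul_sum] at h
    refine h.trans ((h2 κ d t).trans ?_)
    rw [← hq, hq32]
  have hX : |d.beta T (t + 1) - d.beta T t| ≤ (1 / (2 * q)) * (c * ‖T‖ * M) := by
    rw [h1 κ d T t, abs_mul, abs_mul]
    have e1 : |(1 : ℝ) / 2 ^ (κ + t + 1)| = 1 / (2 * q) := by
      rw [abs_of_pos (by positivity), pow_succ, hq]
      ring
    have e2 : |(1 : ℝ) / nu κ t| = 1 / nu κ t := abs_of_pos (by positivity)
    rw [e1, e2]
    refine mul_le_mul_of_nonneg_left ?_ (by positivity)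
    have h4 : |∑ g, ev κ t g ((T (d.Ph t g) : d.V) : L3 κ)| ≤ ∑ g, c * ‖T‖ * ‖d.Ph t g‖ := by
      refine (Finset.abs_sum_le_sum_abs _ _).trans (Finset.sum_le_sum fun g _ => ?_)
      refine (betastep_ev h3 t g _ hc0 hc).trans ?_
      rw [mul_assoc]
      exact mul_le_mul_of_nonneg_left (T.le_opNorm _) hc0
    rw [← Finset.mul_sum] at h4
    calc 1 / nu κ t * |∑ g, ev κ t g ((T (d.Ph t g) : d.V) : L3 κ)|
        ≤ 1 / nu κ t * (c * ‖T‖ * ∑ g, ‖d.Ph t g‖) := mul_le_mul_of_nonneg_left h4 (by positivity)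
      _ = c * ‖T‖ * M := by
          rw [hM]
          ring
  have hr : ((2 : ℝ) ^ (-((κ + t : ℕ) : ℝ) / 6)) ^ 3 * y = 1 := by
    rw [hy, Real.sqrt_eq_rpow, hq, ← Real.rpow_natCast, ← Real.rpow_natCast, ← Real.rpow_mul (by norm_num),
      ← Real.rpow_mul (by norm_num), ← Real.rpow_add (by norm_num)]
    have : -((κ + t : ℕ) : ℝ) / 6 * ((3 : ℕ) : ℝ) + ((κ + t : ℕ) : ℝ) * (1 / 2) = 0 := by
      push_cast
      ring
    rw [this, Real.rpow_zero]
  set r : ℝ := (2 : ℝ) ^ (-((κ + t : ℕ) : ℝ) / 6) with hrdef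
  have hr0 : 0 < r := by positivity
  refine le_of_pow_le_pow_left₀ (n := 3) (by norm_num) (by positivity) ?_
  calc |d.beta T (t + 1) - d.beta T t| ^ 3 ≤ ((1 / (2 * q)) * (c * ‖T‖ * M)) ^ 3 :=
        pow_le_pow_left₀ (abs_nonneg _) hX 3
    _ = (1 / (2 * q)) ^ 3 * (c ^ 3 * ‖T‖ ^ 3 * M ^ 3) := by ring
    _ ≤ (1 / (2 * q)) ^ 3 * (c ^ 3 * ‖T‖ ^ 3 * (216 * (q * y))) := by gcongr
    _ = 108 * ‖T‖ ^ 3 * (1 / y) := by
        rw [hc, hnuq, ← hyq]
        field_simp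
        ring
    _ ≤ (5 * r * ‖T‖) ^ 3 := by
        have e : 1 / y = r ^ 3 := by
          rw [eq_comm, eq_div_iff hy0.ne']
          exact hr
        rw [e]
        have : 0 ≤ ‖T‖ ^ 3 * r ^ 3 := by positivity
        nlinarith

end Pool.Agent.Lib.MP_355270_an.CB
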