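import Pool.Agent.Lib.MP_355270_an.CB.StmB

open Filter Topology
open scoped ENNReal

namespace Pool.Agent.Lib.MP_355270_an.CB

theorem bior_evA (h1 : S_evgl) {κ : ℕ} (d : DD κ) (t : ℕ) (g : Fin (κ + t + 2) → Bool)
    (j : Fin (κ + t) → Bool) : ev κ t g (d.e t j) = sg (d.σ t j) * walsh (d.a t j) g := by
  cases t with
  | zero => exact (h1 κ 0 0 _).1 g
  | succ s =>
    show ev κ (s + 1) g (gl κ (s + 1) _ + gl κ s _) = _
    rw [map_add, (h1 κ (s + 1) 0 _).1 g, (h1 κ s (s + 1) _).2 (by omega) g, add_zero]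

theorem bior_evB (h1 : S_evgl) {κ : ℕ} (d : DD κ) (t : ℕ) (g : Fin (κ + t + 2) → Bool)
    (j : Fin (κ + (t + 1)) → Bool) : ev κ t g (d.e (t + 1) j) = walsh (d.b t j) g := by
  show ev κ t g (gl κ (t + 1) _ + gl κ t _) = _
  rw [map_add, (h1 κ (t + 1) t _).2 (by omega) g, (h1 κ t 0 _).1 g, zero_add]

theorem bior_evC (h1 : S_evgl) {κ : ℕ} (d : DD κ) (t : ℕ) (g : Fin (κ + t + 2) → Bool) (t' : ℕ)
    (j : Fin (κ + t') → Bool) (ht : t' ≠ t) (ht' : t' ≠ t + 1) : ev κ t g (d.e t' j) = 0 := by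
  cases t' with
  | zero => exact (h1 κ 0 t _).2 ht g
  | succ s =>
    show ev κ t g (gl κ (s + 1) _ + gl κ s _) = _
    rw [map_add, (h1 κ (s + 1) t _).2 ht g, (h1 κ s t _).2 (by omega) g, add_zero]

theorem bior_Fa {κ : ℕ} (d : DD κ) (t : ℕ) (j : Fin (κ + t) → Bool) (f : L3 κ) :
    d.Fa t j f = ∑ g, (sg (d.σ t j) * walsh (d.a t j) g / nu κ t) * ev κ t g f := by
  unfold DD.Fa
  rw [sum_apply]
  rfl

theorem bior_Fb {κ : ℕ} (d : DD κ) (t : ℕ) (j : Fin (κ + t + 1) → Bool) (f : L3 κ) :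
    d.Fb t j f = ∑ g, (walsh (d.b t j) g / nu κ t) * ev κ t g f := by
  unfold DD.Fb
  rw [sum_apply]
  rfl

/-- orthogonality with weights -/
theorem bior_orth {κ t : ℕ} (x y : Fin (κ + t + 2) → Bool) (c c' : ℝ) :
    ∑ g, (c * walsh x g / nu κ t) * (c' * walsh y g) = if x = y then c * c' else 0 := by
  have h0 : nu κ t ≠ 0 := by
    unfold nu
    positivity
  have h : ∀ g, (c * walsh x g / nu κ t) * (c' * walsh y g) = (c * c' / nu κ t) * (walsh x g * walsh y g) := by
    intro g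
    ring
  simp_rw [h]
  rw [← Finset.mul_sum, walsh_orth]
  split_ifs
  · unfold nu at *
    field_simp
  · rw [mul_zero]

theorem p_bior (h1 : S_evgl) : S_bior := by
  intro κ d t
  refine ⟨fun j j' => ?_, fun j j' => ?_, fun j t' j' ht => ?_, fun j t' j' ht => ?_⟩
  · rw [bior_Fa]
    simp_rw [bior_evA h1]
    rw [bior_orth]
    by_cases hj : j = j'
    · rw [if_pos (by rw [hj]), if_pos hj, hj, sg_mul_self]
    · rw [if_neg fun h => hj (d.ha t h), if_neg hj]
  · rw [bior_Fb]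
    simp_rw [bior_evB h1]
    have := bior_orth (κ := κ) (t := t) (d.b t j) (d.b t j') 1 1
    simp only [one_mul] at this
    rw [this]
    by_cases hj : j = j'
    · rw [if_pos (by rw [hj]), if_pos hj]
    · rw [if_neg fun h => hj (d.hb t h), if_neg hj]
  · rw [bior_Fa]
    by_cases ht' : t' = t + 1
    · subst ht'
      simp_rw [bior_evB h1]
      have := bior_orth (κ := κ) (t := t) (d.a t j) (d.b t j') (sg (d.σ t j)) 1
      simp only [one_mul] at this
      rw [this, if_neg (d.hab t j j')]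
    · simp_rw [bior_evC h1 d t _ t' j' ht ht', mul_zero]
      exact Finset.sum_const_zero
  · rw [bior_Fb]
    by_cases ht' : t' = t
    · subst ht'
      simp_rw [bior_evA h1]
      have := bior_orth (κ := κ) (t := t') (d.b t' j) (d.a t' j') 1 (sg (d.σ t' j'))
      simp only [one_mul] at this
      rw [this, if_neg fun h => d.hab t' j' j h.symm]
    · simp_rw [bior_evC h1 d t _ t' j' ht' ht, mul_zero]
      exact Finset.sum_const_zero

end Pool.Agent.Lib.MP_355270_an.CB
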