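import Pool.Agent.Lib.MP_355270_an.CB.StmU

open Filter Topology
open scoped ENNReal

namespace Pool.Agent.Lib.MP_355270_an.CB

theorem block_two_pow : Tendsto (fun κ : ℕ => (2 : ℝ) ^ κ) atTop atTop :=
  tendsto_pow_atTop_atTop_of_one_lt one_lt_two

theorem block_lim0 {y : ℝ} (hy : y < 0) :
    Tendsto (fun κ : ℕ => ((2 : ℝ) ^ κ) ^ y) atTop (𝓝 0) := by
  have h := (tendsto_rpow_neg_atTop (neg_pos.2 hy)).comp block_two_pow
  simpa only [neg_neg, Function.comp_def] using h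

theorem block_lim1 {s r : ℝ} (hr : 0 < r) (hrs : r < s) :
    Tendsto (fun κ : ℕ => (10 * (2 : ℝ) ^ κ) ^ (1 / s) * ((2 : ℝ) ^ κ) ^ (-(1 / r))) atTop
      (𝓝 0) := by
  have h1 : 1 / s - 1 / r < 0 := by
    have := one_div_lt_one_div_of_lt hr hrs
    linarith
  have h2 := (block_lim0 h1).const_mul ((10 : ℝ) ^ (1 / s))
  rw [mul_zero] at h2
  refine h2.congr fun κ => ?_
  have h3 : (0 : ℝ) < 2 ^ κ := by positivity
  rw [Real.mul_rpow (by norm_num) h3.le, mul_assoc, ← Real.rpow_add h3]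
  rfl

theorem block_lim2 {s : ℝ} (hs : 2 < s) :
    Tendsto (fun κ : ℕ => (2 * ((2 : ℝ) ^ κ) ^ (1 - s / 2)) ^ (1 / s)) atTop (𝓝 0) := by
  have h1 : Tendsto (fun κ : ℕ => 2 * ((2 : ℝ) ^ κ) ^ (1 - s / 2)) atTop (𝓝 0) := by
    have h2 := (block_lim0 (y := 1 - s / 2) (by linarith)).const_mul (2 : ℝ)
    rwa [mul_zero] at h2
  have h3 := h1.rpow_const (p := 1 / s) (Or.inr (by positivity))
  rwa [Real.zero_rpow (by positivity)] at h3

theorem block_six (κ : ℕ) : (2 : ℝ) ^ (-(κ : ℝ) / 6) = ((2 : ℝ) ^ κ) ^ (-(1 / 6) : ℝ) := by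
  rw [← Real.rpow_natCast, ← Real.rpow_mul (by norm_num)]
  congr 1
  ring

theorem block_OP (κ : ℕ) : OPle 1 (Sw κ) := by
  intro x
  have h1 : (Sw κ).transpose = Sw κ := by
    ext a b
    rw [Matrix.transpose_apply, Sw_symm]
  have h2 : ∀ y : (Fin κ → Bool) → ℝ, ∑ a, y a ^ 2 = dotProduct y y := by
    intro y
    unfold dotProduct
    exact Finset.sum_congr rfl fun a _ => sq (y a)
  rw [h2, h2, one_pow, one_mul, Matrix.dotProduct_mulVec, ← Matrix.mulVec_transpose, h1,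
    Sw_mulVec_mulVec]

theorem block_card (κ : ℕ) : ((Fintype.card (Fin κ → Bool) : ℕ) : ℝ) = (2 : ℝ) ^ κ := by
  rw [Fintype.card_fun, Fintype.card_bool, Fintype.card_fin]
  push_cast
  rfl

/-- The choice of `κ`. -/
theorem block_choice (s : ℝ) (N : ℕ) (ε K r ρ c : ℝ) (k0 : ℕ) (hs3 : 3 < s) (hN : 2 ≤ N)
    (hε : 0 < ε) (hr : 3 ≤ r) (hrs : r < s) (hc : 0 < c) :
    ∃ κ : ℕ, k0 ≤ 2 ^ κ ∧
      (10 * (2 : ℝ) ^ κ) ^ (1 / s) * ((2 : ℝ) ^ κ) ^ (-(1 / 3 : ℝ)) ≤ ε / (2 * c) ∧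
      4 * ((2 : ℝ) ^ κ) ^ (1 - s / 2) ≤ 1 / (N : ℝ) ∧
      (2 * ((2 : ℝ) ^ κ) ^ (1 - s / 2)) ^ (1 / s) + 50 * (2 : ℝ) ^ (-(κ : ℝ) / 6) / ρ +
        (N + 1) * ((2 : ℝ) ^ κ) ^ (1 / s - 1 / 2) ≤ ε / 2 ∧
      K * ((10 * (2 : ℝ) ^ κ) ^ (1 / s) * ((2 : ℝ) ^ κ) ^ (-(1 / r))) ≤ ε := by
  have e1 : ∀ᶠ κ : ℕ in atTop, (k0 : ℝ) ≤ (2 : ℝ) ^ κ :=
    block_two_pow.eventually_ge_atTop _
  have e2 : ∀ᶠ κ : ℕ in atTop,
      (10 * (2 : ℝ) ^ κ) ^ (1 / s) * ((2 : ℝ) ^ κ) ^ (-(1 / 3 : ℝ)) ≤ ε / (2 * c) :=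
    (block_lim1 (by norm_num) hs3).eventually_le_const (by positivity)
  have hNpos : (0 : ℝ) < N := by
    have : (2 : ℝ) ≤ N := by exact_mod_cast hN
    linarith
  have e3 : ∀ᶠ κ : ℕ in atTop, 4 * ((2 : ℝ) ^ κ) ^ (1 - s / 2) ≤ 1 / (N : ℝ) := by
    have h2 := (block_lim0 (y := 1 - s / 2) (by linarith)).const_mul (4 : ℝ)
    rw [mul_zero] at h2
    exact h2.eventually_le_const (by positivity)
  have e4 : ∀ᶠ κ : ℕ in atTop,
      (2 * ((2 : ℝ) ^ κ) ^ (1 - s / 2)) ^ (1 / s) + 50 * (2 : ℝ) ^ (-(κ : ℝ) / 6) / ρ +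
        (N + 1) * ((2 : ℝ) ^ κ) ^ (1 / s - 1 / 2) ≤ ε / 2 := by
    have h1 := block_lim2 (s := s) (by linarith)
    have h2 : Tendsto (fun κ : ℕ => 50 * (2 : ℝ) ^ (-(κ : ℝ) / 6) / ρ) atTop (𝓝 0) := by
      have h3 := ((block_lim0 (y := -(1 / 6)) (by norm_num)).const_mul (50 : ℝ)).div_const ρ
      rw [mul_zero, zero_div] at h3
      refine h3.congr fun κ => ?_
      rw [block_six]
    have h4 : Tendsto (fun κ : ℕ => ((N : ℝ) + 1) * ((2 : ℝ) ^ κ) ^ (1 / s - 1 / 2)) atTop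
        (𝓝 0) := by
      have h5 : 1 / s - 1 / 2 < 0 := by
        have := one_div_lt_one_div_of_lt (by norm_num : (0 : ℝ) < 2) (by linarith : (2 : ℝ) < s)
        linarith
      have h6 := (block_lim0 h5).const_mul ((N : ℝ) + 1)
      rwa [mul_zero] at h6
    have h7 := (h1.add h2).add h4
    rw [add_zero, add_zero] at h7
    exact h7.eventually_le_const (by positivity)
  have e5 : ∀ᶠ κ : ℕ in atTop,
      K * ((10 * (2 : ℝ) ^ κ) ^ (1 / s) * ((2 : ℝ) ^ κ) ^ (-(1 / r))) ≤ ε := by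
    have h1 := (block_lim1 (by linarith : 0 < r) hrs).const_mul K
    rw [mul_zero] at h1
    exact h1.eventually_le_const hε
  obtain ⟨κ, h1, h2, h3, h4, h5⟩ := (e1.and (e2.and (e3.and (e4.and e5)))).exists
  exact ⟨κ, by exact_mod_cast h1, h2, h3, h4, h5⟩

theorem p_block (h1 : S_rigid) (h2 : S_davie) (h3 : S_Uv) (h4 : S_UD) (h5 : S_Ucomp) (h6 : S_UE) (h7 : S_UC1) (h8 : S_UC2) (h9 : S_UC3) (h10 : S_UR4) (h11 : S_UR5) : S_block := by
  intro s N ε K r hs3 hs4 hN hε hK hr hrs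
  have hN2 : (2 : ℝ) ≤ N := by exact_mod_cast hN
  have hNpos : (0 : ℝ) < N := by linarith
  obtain ⟨ρ, hρ0, hρ1, hρε⟩ : ∃ ρ : ℝ, 0 < ρ ∧ ρ ≤ 1 ∧ ρ ≤ ε / (8 * (N + 1)) :=
    ⟨min 1 (ε / (8 * (N + 1))), lt_min one_pos (by positivity), min_le_left _ _, min_le_right _ _⟩
  obtain ⟨C1, hC1⟩ : ∃ C1 : ℝ, C1 = 4 * N * (1 + 1 / ρ) := ⟨_, rfl⟩
  have hC11 : 1 ≤ C1 := by
    have h12 : 0 < 1 / ρ := by positivity
    have h13 : 0 < N * (1 / ρ) := by positivity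
    rw [hC1]
    nlinarith
  obtain ⟨c, hc⟩ : ∃ c : ℝ, c = 3 * (N + 1) ^ 2 * (C1 + 7) / ρ ^ 2 := ⟨_, rfl⟩
  have hcpos : 0 < c := by
    rw [hc]
    have : 0 < C1 + 7 := by linarith
    positivity
  obtain ⟨e, he0, he1, heε⟩ : ∃ e : ℝ, 0 < e ∧ e ≤ 1 ∧ e ≤ ε / (2 * c) :=
    ⟨min 1 (ε / (2 * c)), lt_min one_pos (by positivity), min_le_left _ _, min_le_right _ _⟩
  obtain ⟨k0, hk0⟩ := h1 s C1 (e ^ 2) N (by linarith) hs4 hC11 (by positivity)
  obtain ⟨κ, hκ0, hκ1, hκ2, hκ3, hκ4⟩ :=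
    block_choice s N ε K r ρ c k0 hs3 hN hε hr hrs hcpos
  obtain ⟨g, hg⟩ := hk0 (Fin κ → Bool) (by
    rw [Fintype.card_fun, Fintype.card_bool, Fintype.card_fin]
    exact hκ0) (Sw κ) (block_OP κ)
  obtain ⟨Dv⟩ := h2 κ
  let P : BP := ⟨κ, N, s, ρ, Dv, g, hs3, hs4, hρ0, hρ1, by omega⟩
  have hcard : ((Fintype.card P.I : ℕ) : ℝ) = P.k := block_card κ
  have hrig : P.RigP (e ^ 2) := by
    intro n n' M hM
    have hM' : Bdd s C1 (Sw κ) (g n) (g n') M := by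
      rw [hC1]
      exact hM
    have h12 := hg n n' M hM'
    rw [block_card] at h12
    exact h12
  have hcomp : CompleteSpace P.UT := h5 P
  obtain ⟨D, hD1, hD2, hD3⟩ := h4 P
  obtain ⟨hv1, hv2, hv3⟩ := h3 P
  obtain ⟨hE1, hE2, hE3, hE4⟩ := h6 P
  have hclose : ∀ n a, n < N → ‖(P.vv n a : P.UT) - (P.vv (n + 1) a : P.UT)‖ ≤
      (2 / (N : ℝ)) ^ (1 / 4 : ℝ) := by
    intro n a hn
    refine (hv2 n a hn).trans ?_
    have h12 : (1 / (N : ℝ) + 4 * ((2 : ℝ) ^ κ) ^ (1 - s / 2)) ^ (1 / s) ≤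
        (2 / (N : ℝ)) ^ (1 / s) := by
      refine Real.rpow_le_rpow (by positivity) ?_ (by positivity)
      have h13 : (2 : ℝ) / N = 1 / N + 1 / N := by ring
      rw [h13]
      linarith
    refine h12.trans ?_
    refine Real.rpow_le_rpow_of_exponent_ge (by positivity) ?_ ?_
    · rw [div_le_one hNpos]
      exact hN2
    · exact one_div_le_one_div_of_le (by linarith) hs4
  have hfr : ∀ T : P.UT →L[ℝ] P.UT, FR T →
      ‖av P.Xi (fun a => T (P.vv N a : P.UT))‖ ≤ ε * ‖T‖ := by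
    intro T hT
    refine (h10 P T hT).trans (mul_le_mul_of_nonneg_right ?_ (norm_nonneg T))
    show (2 * ((2 : ℝ) ^ κ) ^ (1 - s / 2)) ^ (1 / s) + ρ + 50 * (2 : ℝ) ^ (-(κ : ℝ) / 6) / ρ +
      (N + 1) * (((2 : ℝ) ^ κ) ^ (1 / s - 1 / 2) + 2 * ρ) ≤ ε
    have h12 : ρ * (8 * (N + 1)) ≤ ε := by
      rwa [le_div_iff₀ (by positivity)] at hρε
    nlinarith
  have hmul : ∀ n (A : P.UT →L[ℝ] P.UT) (B : P.Hd →L[ℝ] P.UT), n ≤ N →
      ‖av P.Xi (fun a => A (B (P.vv n a))) -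
        av P.Xi (fun a => A (P.vv n a : P.UT)) * av P.Xi (fun a => B (P.vv n a))‖ ≤
      ε * ‖A‖ * ‖B‖ := by
    intro n A B hn
    refine (h11 P (e ^ 2) (by positivity) (by nlinarith) hrig n A B hn).trans ?_
    refine mul_le_mul_of_nonneg_right ?_ (norm_nonneg B)
    refine mul_le_mul_of_nonneg_right ?_ (norm_nonneg A)
    have h12 : (3 * ((P.N : ℝ) + 1) ^ 2 * (P.C1 + 7) / P.ρ ^ 2) = c := by
      rw [hc, hC1]
      rfl
    have h13 : Real.sqrt (e ^ 2) = e := Real.sqrt_sq he0.le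
    have h14 : P.qk ≤ ε / (2 * c) := hκ1
    rw [h12, h13]
    have h15 : c * (e + P.qk) ≤ c * (ε / (2 * c) + ε / (2 * c)) :=
      mul_le_mul_of_nonneg_left (by linarith) hcpos.le
    refine h15.trans (le_of_eq ?_)
    field_simp
    ring
  have heig : ∀ n a, n ≤ N → D (P.vv n a : P.UT) = ((n : ℝ) / (N : ℝ)) • (P.vv n a : P.UT) := by
    intro n a hn
    refine BP.ext ?_ ?_
    · funext m
      rw [hD1, BP.hd_smul]
      show (((m : ℕ) : ℝ) / (N : ℝ)) • (Pi.single (⟨min n N, _⟩ : Fin (N + 1))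
        (Pi.single a (1 : ℝ)) : Fin (N + 1) → P.I → ℝ) m =
        ((n : ℝ) / (N : ℝ)) • (Pi.single (⟨min n N, _⟩ : Fin (N + 1))
        (Pi.single a (1 : ℝ)) : Fin (N + 1) → P.I → ℝ) m
      by_cases hm : m = (⟨min n N, Nat.lt_succ_of_le (min_le_right n N)⟩ : Fin (N + 1))
      · have h12 : (m : ℕ) = n := by
          rw [hm]
          exact min_eq_left hn
        rw [h12]
      · rw [Pi.single_eq_of_ne hm, smul_zero, smul_zero]
    · rw [hD2, BP.vp_smul]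
      show (0 : P.Dv.V) = ((n : ℝ) / (N : ℝ)) • (0 : P.Dv.V)
      rw [smul_zero]
  have hXi : ∀ a, ‖P.Xi a‖ ≤ 1 := by
    intro a
    refine ContinuousLinearMap.opNorm_le_bound _ zero_le_one fun u => ?_
    rw [one_mul, Real.norm_eq_abs]
    exact BP.abs_co_le u (0, Fin.last P.N, a)
  refine ⟨{ U := P.UT
            ι := P.I
            F := P.Hd
            v := P.vv
            Ξ := P.Xi
            D := D
            E := P.Es
            mono := hE1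
            fin := hE2
            dense := hE3
            hFE := hE4
            hDE := fun j x hx => by
              show BP.vp (D x) ∈ P.Dv.Vs j
              rw [hD2]
              exact hx
            hDF := fun x => by
              rw [BP.mem_Hd, BP.vp_sub, hD2, sub_self]
            hD := hD3
            hv := hv1
            hΞ := hXi
            hone := fun n a hn => hv3 n a hn
            heig := heig
            hclose := hclose
            hfr := hfr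
            hmul := hmul
            hC1 := fun n hn => by
              rw [hcard]
              exact h7 P n hn
            hC2 := h8 P
            hC3 := h9 P }, ?_⟩
  show K * (10 * ((Fintype.card P.I : ℕ) : ℝ)) ^ (1 / s) *
    ((Fintype.card P.I : ℕ) : ℝ) ^ (-(1 / r)) ≤ ε
  rw [hcard, mul_assoc]
  exact hκ4

end Pool.Agent.Lib.MP_355270_an.CB
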