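import Pool.Agent.Lib.MP_355270_an.CB.StmB

open Filter Topology
open scoped ENNReal

namespace Pool.Agent.Lib.MP_355270_an.CB

/-- Hilbert spaces have `CT 3 1`. -/
theorem CTfin_hilbert (h1 : S_jensen) (h2 : S_rad2) (H : Type) [NormedAddCommGroup H]
    [InnerProductSpace ℝ H] : CT H 3 1 := by
  intro m y
  set X : (Fin m → Bool) → H := fun θ => ∑ b, sg (θ b) • y b with hX
  have hj := h1 (Fin m) (fun θ => ‖X θ‖) 2 3 (fun θ => norm_nonneg _) (by norm_num) (by norm_num)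
  have hr := h2 H (Fin m) y
  have e2 : (rad fun θ => ‖X θ‖ ^ (2 : ℝ)) = ∑ b, ‖y b‖ ^ 2 := by
    rw [← hr]
    congr 1
    funext θ
    exact Real.rpow_two _
  have e3 : (rad fun θ => ‖X θ‖ ^ (3 : ℝ)) = rad fun θ => ‖X θ‖ ^ 3 := by
    congr 1
    funext θ
    rw [← Real.rpow_natCast]
    norm_num
  rw [e2, e3] at hj
  have hA : 0 ≤ ∑ b, ‖y b‖ ^ 2 := by positivity
  have hB : 0 ≤ rad fun θ => ‖X θ‖ ^ 3 := by
    unfold rad
    positivity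
  -- the square root of the sum of squares
  set R : ℝ := Real.sqrt (∑ b, ‖y b‖ ^ 2) with hR
  have hR0 : 0 ≤ R := Real.sqrt_nonneg _
  have hR2 : R ^ 2 = ∑ b, ‖y b‖ ^ 2 := Real.sq_sqrt hA
  have hb : ∀ b, ‖y b‖ ≤ R := by
    intro b
    refine Real.le_sqrt_of_sq_le ?_
    exact Finset.single_le_sum (f := fun b => ‖y b‖ ^ 2) (fun b _ => by positivity)
      (Finset.mem_univ b)
  have h3 : ∑ b, ‖y b‖ ^ 3 ≤ R ^ 3 := by
    calc ∑ b, ‖y b‖ ^ 3 ≤ ∑ b, R * ‖y b‖ ^ 2 := by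
          refine Finset.sum_le_sum fun b _ => ?_
          have := hb b
          have h0 := norm_nonneg (y b)
          calc ‖y b‖ ^ 3 = ‖y b‖ * ‖y b‖ ^ 2 := by ring
            _ ≤ R * ‖y b‖ ^ 2 := by gcongr
      _ = R ^ 3 := by rw [← Finset.mul_sum, ← hR2]; ring
  have h4 : R ^ 3 ≤ rad fun θ => ‖X θ‖ ^ 3 := by
    rw [← hR2] at hj
    have h5 : (R ^ 2) ^ (3 / 2 : ℝ) ≤ ((rad fun θ => ‖X θ‖ ^ 3) ^ (2 / 3 : ℝ)) ^ (3 / 2 : ℝ) :=
      Real.rpow_le_rpow (by positivity) hj (by norm_num)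
    rw [← Real.rpow_mul hB, ← Real.rpow_natCast R 2, ← Real.rpow_mul hR0] at h5
    norm_num at h5
    exact h5
  have e4 : (∑ b, ‖y b‖ ^ (3 : ℝ)) ^ (3 / 3 : ℝ) = ∑ b, ‖y b‖ ^ 3 := by
    rw [div_self (by norm_num), Real.rpow_one]
    refine Finset.sum_congr rfl fun b _ => ?_
    rw [← Real.rpow_natCast]
    norm_num
  rw [e4, one_pow, one_mul]
  exact h3.trans h4

theorem p_CTfin (h1 : S_jensen) (h2 : S_rad2) (h3 : S_CTemb) : S_CTfin := by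
  intro Y _ _ _
  let e : Y ≃L[ℝ] EuclideanSpace ℝ (Fin (Module.finrank ℝ Y)) :=
    ContinuousLinearEquiv.ofFinrankEq (by simp)
  have hH := CTfin_hilbert h1 h2 (EuclideanSpace ℝ (Fin (Module.finrank ℝ Y)))
  set C : ℝ := ‖(e : Y →L[ℝ] EuclideanSpace ℝ (Fin (Module.finrank ℝ Y)))‖ + 1 with hC
  set D : ℝ := ‖(e.symm : EuclideanSpace ℝ (Fin (Module.finrank ℝ Y)) →L[ℝ] Y)‖ + 1 with hD
  have hC1 : 1 ≤ C := by
    rw [hC]
    linarith [norm_nonneg (e : Y →L[ℝ] EuclideanSpace ℝ (Fin (Module.finrank ℝ Y)))]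
  have hD1 : 1 ≤ D := by
    rw [hD]
    linarith [norm_nonneg (e.symm : EuclideanSpace ℝ (Fin (Module.finrank ℝ Y)) →L[ℝ] Y)]
  have hup : ∀ y, ‖e.toLinearEquiv.toLinearMap y‖ ≤ C * ‖y‖ := by
    intro y
    have h := (e : Y →L[ℝ] EuclideanSpace ℝ (Fin (Module.finrank ℝ Y))).le_opNorm y
    have h0 := norm_nonneg y
    calc ‖e.toLinearEquiv.toLinearMap y‖
        = ‖(e : Y →L[ℝ] EuclideanSpace ℝ (Fin (Module.finrank ℝ Y))) y‖ := rfl
      _ ≤ ‖(e : Y →L[ℝ] EuclideanSpace ℝ (Fin (Module.finrank ℝ Y)))‖ * ‖y‖ := h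
      _ ≤ C * ‖y‖ := by
          rw [hC]
          nlinarith
  have hlow : ∀ y, D⁻¹ * ‖y‖ ≤ ‖e.toLinearEquiv.toLinearMap y‖ := by
    intro y
    have h := (e.symm : EuclideanSpace ℝ (Fin (Module.finrank ℝ Y)) →L[ℝ] Y).le_opNorm (e y)
    have h' : ‖y‖ ≤ ‖(e.symm : EuclideanSpace ℝ (Fin (Module.finrank ℝ Y)) →L[ℝ] Y)‖ *
        ‖e y‖ := by
      simpa using h
    have h0 := norm_nonneg (e y)
    rw [inv_mul_le_iff₀ (by linarith)]
    calc ‖y‖ ≤ _ := h'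
      _ ≤ D * ‖e y‖ := by
          rw [hD]
          nlinarith
  refine ⟨1 * C / D⁻¹, ?_, h3 Y _ e.toLinearEquiv.toLinearMap D⁻¹ C 3 1 (by positivity)
    (by linarith) (by norm_num) (by norm_num) hlow hup hH⟩
  rw [one_mul, div_inv_eq_mul]
  nlinarith

end Pool.Agent.Lib.MP_355270_an.CB
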