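import Pool.Agent.Lib.MP_355270_an.CB.StmB

open Filter Topology
open scoped ENNReal

namespace Pool.Agent.Lib.MP_355270_an.CB

theorem CTl3_scalar (h1 : S_jensen) (h2 : S_rad2) (m : ℕ) (c : Fin m → ℝ) :
    ∑ b, |c b| ^ 3 ≤ rad (fun θ : Fin m → Bool => |∑ b, sg (θ b) * c b| ^ 3) := by
  have hJ := h1 (Fin m) (fun θ : Fin m → Bool => |∑ b, sg (θ b) * c b|) 2 3
    (fun θ => abs_nonneg _) (by norm_num) (by norm_num)
  have hR := h2 ℝ (Fin m) c
  have e1 : rad (fun θ : Fin m → Bool => |∑ b, sg (θ b) * c b| ^ (2 : ℝ)) = ∑ b, c b ^ 2 := by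
    have : (fun θ : Fin m → Bool => |∑ b, sg (θ b) * c b| ^ (2 : ℝ)) =
        fun θ : Fin m → Bool => ‖∑ i, sg (θ i) • c i‖ ^ 2 := by
      funext θ
      rw [Real.rpow_two]
      rfl
    rw [this, hR]
    refine Finset.sum_congr rfl fun b _ => ?_
    rw [Real.norm_eq_abs, sq_abs]
  have e2 : (fun θ : Fin m → Bool => |∑ b, sg (θ b) * c b| ^ (3 : ℝ)) =
      fun θ : Fin m → Bool => |∑ b, sg (θ b) * c b| ^ 3 := by
    funext θ
    rw [← Real.rpow_natCast]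
    norm_num
  rw [e1, e2] at hJ
  set R : ℝ := rad (fun θ : Fin m → Bool => |∑ b, sg (θ b) * c b| ^ 3) with hRdef
  set A : ℝ := ∑ b, c b ^ 2 with hA
  have hR0 : 0 ≤ R := by
    rw [hRdef]
    unfold rad
    exact div_nonneg (Finset.sum_nonneg fun θ _ => by positivity) (by positivity)
  have hA0 : 0 ≤ A := Finset.sum_nonneg fun b _ => sq_nonneg _
  have h3 : A ^ 3 ≤ R ^ 2 := by
    have h4 := pow_le_pow_left₀ hA0 hJ 3
    have h5 : (R ^ ((2 : ℝ) / 3)) ^ 3 = R ^ 2 := by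
      rw [← Real.rpow_natCast (R ^ ((2 : ℝ) / 3)), ← Real.rpow_mul hR0]
      norm_num
    rwa [h5] at h4
  have h6 : ∑ b, |c b| ^ 3 ≤ A * Real.sqrt A := by
    rw [hA, Finset.sum_mul]
    refine Finset.sum_le_sum fun b _ => ?_
    have h7 : |c b| ≤ Real.sqrt (∑ b, c b ^ 2) := by
      refine Real.abs_le_sqrt ?_
      exact Finset.single_le_sum (f := fun b => c b ^ 2) (fun b _ => sq_nonneg _)
        (Finset.mem_univ b)
    calc |c b| ^ 3 = c b ^ 2 * |c b| := by rw [← sq_abs (c b)]; ring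
      _ ≤ c b ^ 2 * Real.sqrt (∑ b, c b ^ 2) := mul_le_mul_of_nonneg_left h7 (sq_nonneg _)
  refine h6.trans ?_
  refine le_of_sq_le_sq ?_ hR0
  calc (A * Real.sqrt A) ^ 2 = A ^ 2 * (Real.sqrt A) ^ 2 := by ring
    _ = A ^ 3 := by rw [Real.sq_sqrt hA0]; ring
    _ ≤ R ^ 2 := h3

theorem CTl3_norm {Ω : Type} (f : lp (fun _ : Ω => ℝ) 3) :
    ‖f‖ ^ 3 = ∑' ω, |f ω| ^ 3 ∧ Summable fun ω => |f ω| ^ 3 := by
  have h3 : (3 : ℝ≥0∞).toReal = 3 := by norm_num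
  have h0 : 0 < (3 : ℝ≥0∞).toReal := by rw [h3]; norm_num
  have e : ∀ x : ℝ, x ^ ((3 : ℝ≥0∞).toReal) = x ^ 3 := by
    intro x
    rw [h3, ← Real.rpow_natCast]
    norm_num
  constructor
  · have h := lp.norm_rpow_eq_tsum h0 f
    rw [e] at h
    rw [h]
    refine tsum_congr fun ω => ?_
    rw [e, Real.norm_eq_abs]
  · have h := (lp.memℓp f).summable h0
    refine h.congr fun ω => ?_
    rw [e, Real.norm_eq_abs]

theorem p_CTl3 (h1 : S_jensen) (h2 : S_rad2) : S_CTl3 := by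
  intro Ω m y
  have e1 : ∀ b, ‖y b‖ ^ (3 : ℝ) = ‖y b‖ ^ 3 := by
    intro b
    rw [← Real.rpow_natCast]
    norm_num
  have e2 : (3 : ℝ) / 3 = 1 := by norm_num
  rw [e2, Real.rpow_one, one_pow, one_mul, Finset.sum_congr rfl fun b _ => e1 b]
  have hL : ∑ b, ‖y b‖ ^ 3 = ∑' ω, ∑ b, |y b ω| ^ 3 := by
    rw [Summable.tsum_finsetSum fun b _ => (CTl3_norm (y b)).2]
    exact Finset.sum_congr rfl fun b _ => (CTl3_norm (y b)).1
  have hco : ∀ (θ : Fin m → Bool) (ω : Ω), (∑ b, sg (θ b) • y b : lp (fun _ : Ω => ℝ) 3) ω =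
      ∑ b, sg (θ b) * y b ω := by
    intro θ ω
    rw [lp.coeFn_sum, Finset.sum_apply]
    rfl
  have hN : ∀ θ : Fin m → Bool, ‖∑ b, sg (θ b) • y b‖ ^ 3 =
      ∑' ω, |∑ b, sg (θ b) * y b ω| ^ 3 := by
    intro θ
    rw [(CTl3_norm (∑ b, sg (θ b) • y b)).1]
    exact tsum_congr fun ω => by rw [hco]
  have hS : ∀ θ : Fin m → Bool, Summable fun ω => |∑ b, sg (θ b) * y b ω| ^ 3 := by
    intro θ
    refine (CTl3_norm (∑ b, sg (θ b) • y b)).2.congr fun ω => ?_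
    rw [hco]
  have hRr : rad (fun θ : Fin m → Bool => ‖∑ b, sg (θ b) • y b‖ ^ 3) =
      ∑' ω, rad (fun θ : Fin m → Bool => |∑ b, sg (θ b) * y b ω| ^ 3) := by
    unfold rad
    rw [tsum_div_const, Summable.tsum_finsetSum fun θ _ => hS θ]
    congr 1
    exact Finset.sum_congr rfl fun θ _ => hN θ
  rw [hL, hRr]
  refine Summable.tsum_le_tsum (fun ω => CTl3_scalar h1 h2 m fun b => y b ω) ?_ ?_
  · exact summable_sum fun b _ => (CTl3_norm (y b)).2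
  · unfold rad
    exact (summable_sum fun θ _ => hS θ).div_const _

end Pool.Agent.Lib.MP_355270_an.CB
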