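import Pool.Agent.Lib.MP_355270_an.CB.StmB

open Filter Topology
open scoped ENNReal

namespace Pool.Agent.Lib.MP_355270_an.CB

/-- Minkowski's inequality for finite sums of nonnegative vectors. -/
theorem CTlp_minkowski {ι β : Type} [DecidableEq ι] [Fintype β] (t : ℝ) (ht : 1 ≤ t)
    (f : ι → β → ℝ) (hf : ∀ i b, 0 ≤ f i b) (s : Finset ι) :
    (∑ b, (∑ i ∈ s, f i b) ^ t) ^ (1 / t) ≤ ∑ i ∈ s, (∑ b, f i b ^ t) ^ (1 / t) := by
  have ht0 : 0 < t := by linarith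
  induction s using Finset.induction_on with
  | empty =>
    simp only [Finset.sum_empty]
    rw [Finset.sum_congr rfl (fun b _ => Real.zero_rpow ht0.ne')]
    rw [Finset.sum_const_zero, Real.zero_rpow (by positivity)]
  | insert i s his ih =>
    rw [Finset.sum_insert his]
    have h1 : ∀ b, (∑ j ∈ insert i s, f j b) = f i b + ∑ j ∈ s, f j b := fun b =>
      Finset.sum_insert his
    simp_rw [h1]
    calc (∑ b, (f i b + ∑ j ∈ s, f j b) ^ t) ^ (1 / t)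
        ≤ (∑ b, f i b ^ t) ^ (1 / t) + (∑ b, (∑ j ∈ s, f j b) ^ t) ^ (1 / t) :=
          Real.Lp_add_le_of_nonneg Finset.univ ht (fun b _ => hf i b)
            (fun b _ => Finset.sum_nonneg fun j _ => hf j b)
      _ ≤ _ := by gcongr

/-- `‖f‖ ^ 3` is the sum of the cubes of the norms of the coordinates. -/
theorem CTlp_hasSum {U : ℕ → Type} [∀ i, NormedAddCommGroup (U i)] (f : lp U 3) :
    HasSum (fun i => ‖f i‖ ^ 3) (‖f‖ ^ 3) := by
  have h := lp.hasSum_norm (p := 3) (by norm_num) f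
  have e : (3 : ℝ≥0∞).toReal = ((3 : ℕ) : ℝ) := by norm_num
  rw [e] at h
  simpa only [Real.rpow_natCast] using h

theorem CTlp_sum_le {U : ℕ → Type} [∀ i, NormedAddCommGroup (U i)] (f : lp U 3)
    (s : Finset ℕ) : ∑ i ∈ s, ‖f i‖ ^ 3 ≤ ‖f‖ ^ 3 :=
  sum_le_hasSum s (fun i _ => by positivity) (CTlp_hasSum f)

theorem CTlp_rad_sum {ι : Type} [Fintype ι] [DecidableEq ι] (s : Finset ℕ)
    (f : ℕ → (ι → Bool) → ℝ) :
    ∑ i ∈ s, rad (f i) = rad fun θ => ∑ i ∈ s, f i θ := by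
  unfold rad
  rw [← Finset.sum_div, Finset.sum_comm]

theorem CTlp_rad_mono {ι : Type} [Fintype ι] [DecidableEq ι] {f g : (ι → Bool) → ℝ}
    (h : ∀ θ, f θ ≤ g θ) : rad f ≤ rad g := by
  unfold rad
  have := Finset.sum_le_sum (s := (Finset.univ : Finset (ι → Bool))) (fun θ _ => h θ)
  gcongr

theorem CTlp_fin (U : ℕ → Type) [∀ i, NormedAddCommGroup (U i)] [∀ i, NormedSpace ℝ (U i)]
    (r K : ℝ) (i0 : ℕ) (hr : 3 ≤ r) (hK : 0 ≤ K) (hCT : ∀ i, i ≠ i0 → CT (U i) r K)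
    (m : ℕ) (y : Fin m → lp U 3) (hy : ∀ b, y b i0 = 0) (s : Finset ℕ) :
    (∑ b, (∑ i ∈ s, ‖y b i‖ ^ 3) ^ (r / 3)) ^ (3 / r) ≤
      K ^ 3 * rad fun θ : Fin m → Bool => ‖∑ b, sg (θ b) • y b‖ ^ 3 := by
  have hr0 : 0 < r := by linarith
  have ht : 1 ≤ r / 3 := by
    rw [le_div_iff₀ (by norm_num)]
    linarith
  have h1 := CTlp_minkowski (r / 3) ht (fun (i : ℕ) (b : Fin m) => ‖y b i‖ ^ 3)
    (fun i b => by positivity) s
  rw [one_div_div] at h1
  refine h1.trans ?_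
  -- each coordinate
  have h2 : ∀ i, (∑ b, (‖y b i‖ ^ 3) ^ (r / 3)) ^ (3 / r) ≤
      K ^ 3 * rad fun θ : Fin m → Bool => ‖∑ b, sg (θ b) • y b i‖ ^ 3 := by
    intro i
    have e : ∀ b, (‖y b i‖ ^ 3) ^ (r / 3) = ‖y b i‖ ^ r := by
      intro b
      rw [← Real.rpow_natCast ‖y b i‖ 3, ← Real.rpow_mul (norm_nonneg _)]
      congr 1
      push_cast
      field_simp
    simp_rw [e]
    by_cases hi : i = i0
    · subst hi
      have h0 : ∑ b, ‖y b i‖ ^ r = 0 := by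
        refine Finset.sum_eq_zero fun b _ => ?_
        rw [hy b, norm_zero, Real.zero_rpow hr0.ne']
      rw [h0, Real.zero_rpow (by positivity)]
      refine mul_nonneg (by positivity) ?_
      unfold rad
      positivity
    · exact hCT i hi m fun b => y b i
  calc ∑ i ∈ s, (∑ b, (‖y b i‖ ^ 3) ^ (r / 3)) ^ (3 / r)
      ≤ ∑ i ∈ s, K ^ 3 * rad (fun θ : Fin m → Bool => ‖∑ b, sg (θ b) • y b i‖ ^ 3) :=
        Finset.sum_le_sum fun i _ => h2 i
    _ = K ^ 3 * rad (fun θ : Fin m → Bool => ∑ i ∈ s, ‖∑ b, sg (θ b) • y b i‖ ^ 3) := by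
        rw [← Finset.mul_sum, CTlp_rad_sum]
    _ ≤ K ^ 3 * rad fun θ : Fin m → Bool => ‖∑ b, sg (θ b) • y b‖ ^ 3 := by
        refine mul_le_mul_of_nonneg_left ?_ (by positivity)
        refine CTlp_rad_mono fun θ => ?_
        refine le_trans (le_of_eq ?_) (CTlp_sum_le (∑ b, sg (θ b) • y b) s)
        refine Finset.sum_congr rfl fun i _ => ?_
        congr 2
        rw [lp.coeFn_sum, Finset.sum_apply]
        rfl

theorem p_CTlp : S_CTlp := by
  intro U _ _ r K i0 hr hK hCT m y hy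
  have hr0 : 0 < r := by linarith
  have e : ∀ b, ‖y b‖ ^ r = (‖y b‖ ^ 3) ^ (r / 3) := by
    intro b
    rw [← Real.rpow_natCast ‖y b‖ 3, ← Real.rpow_mul (norm_nonneg _)]
    congr 1
    push_cast
    field_simp
  simp_rw [e]
  have hlim : Tendsto (fun s : Finset ℕ => (∑ b, (∑ i ∈ s, ‖y b i‖ ^ 3) ^ (r / 3)) ^ (3 / r))
      atTop (𝓝 ((∑ b, (‖y b‖ ^ 3) ^ (r / 3)) ^ (3 / r))) := by
    refine Tendsto.rpow_const ?_ (Or.inr (by positivity))
    refine tendsto_finset_sum _ fun b _ => ?_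
    exact Tendsto.rpow_const (CTlp_hasSum (y b)) (Or.inr (by positivity))
  exact le_of_tendsto' hlim fun s => CTlp_fin U r K i0 hr hK hCT m y hy s

end Pool.Agent.Lib.MP_355270_an.CB
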