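import Pool.Agent.Lib.MP_355270_an.CB.StmB

open Filter Topology
open scoped ENNReal

namespace Pool.Agent.Lib.MP_355270_an.CB

/-- superadditivity of powers -/
theorem CTls_super {ι : Type} (T : Finset ι) (a : ι → ℝ) (ha : ∀ b, 0 ≤ a b) {r : ℝ} (hr : 1 ≤ r) :
    ∑ b ∈ T, a b ^ r ≤ (∑ b ∈ T, a b) ^ r := by
  classical
  induction T using Finset.induction_on with
  | empty => simp [Real.zero_rpow (by linarith : r ≠ 0)]
  | insert i T hi ih =>
    rw [Finset.sum_insert hi, Finset.sum_insert hi]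
    refine le_trans (add_le_add le_rfl ih) ?_
    exact Real.add_rpow_le_rpow_add (ha i) (Finset.sum_nonneg fun b _ => ha b) hr

/-- Minkowski's inequality for finitely many nonnegative functions -/
theorem CTls_mink {P Θ : Type} [Fintype P] [Fintype Θ] (f : Θ → P → ℝ) (hf : ∀ θ p, 0 ≤ f θ p) {t : ℝ}
    (ht : 1 ≤ t) : (∑ p, (∑ θ, f θ p) ^ t) ^ (1 / t) ≤ ∑ θ, (∑ p, f θ p ^ t) ^ (1 / t) := by
  have hft : Fact (1 ≤ ENNReal.ofReal t) :=
    ⟨by rw [← ENNReal.ofReal_one]; exact ENNReal.ofReal_le_ofReal ht⟩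
  have ht0 : 0 < t := by linarith
  have htr : (ENNReal.ofReal t).toReal = t := ENNReal.toReal_ofReal ht0.le
  have h := norm_sum_le (Finset.univ : Finset Θ)
    (fun θ => (WithLp.toLp (ENNReal.ofReal t) (f θ) : PiLp (ENNReal.ofReal t) (fun _ : P => ℝ)))
  have e1 : ‖∑ θ, (WithLp.toLp (ENNReal.ofReal t) (f θ) : PiLp (ENNReal.ofReal t) (fun _ : P => ℝ))‖ =
      (∑ p, (∑ θ, f θ p) ^ t) ^ (1 / t) := by
    rw [PiLp.norm_eq_sum (by rw [htr]; exact ht0), htr]
    congr 1
    refine Finset.sum_congr rfl fun p _ => ?_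
    have : (∑ θ, (WithLp.toLp (ENNReal.ofReal t) (f θ) : PiLp (ENNReal.ofReal t) (fun _ : P => ℝ))) p =
        ∑ θ, f θ p := by
      simp
    rw [this, Real.norm_of_nonneg (Finset.sum_nonneg fun θ _ => hf θ p)]
  have e2 : ∀ θ, ‖(WithLp.toLp (ENNReal.ofReal t) (f θ) : PiLp (ENNReal.ofReal t) (fun _ : P => ℝ))‖ =
      (∑ p, f θ p ^ t) ^ (1 / t) := by
    intro θ
    rw [PiLp.norm_eq_sum (by rw [htr]; exact ht0), htr]
    congr 1
    refine Finset.sum_congr rfl fun p _ => ?_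
    rw [Real.norm_of_nonneg (hf θ p)]
  rw [e1] at h
  simp_rw [e2] at h
  exact h

theorem p_CTls (h1 : S_jensen) (h2 : S_rad2) : S_CTls := by
  intro P _ s _ hs m y
  have hs0 : 0 < s := by linarith
  have hsr : (ENNReal.ofReal s).toReal = s := ENNReal.toReal_ofReal hs0.le
  set t : ℝ := s / 3 with ht
  have ht1 : 1 ≤ t := by
    rw [ht]
    linarith
  have ht0 : 0 < t := by linarith
  have h3t : 3 * t = s := by
    rw [ht]
    ring
  have hst : 3 / s = 1 / t := by
    rw [ht]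
    field_simp
  set X : (Fin m → Bool) → P → ℝ := fun θ p => ∑ b, sg (θ b) * y b p with hX
  -- norms
  have hn : ∀ z : PiLp (ENNReal.ofReal s) (fun _ : P => ℝ), ‖z‖ ^ s = ∑ p, |z p| ^ s := by
    intro z
    rw [PiLp.norm_eq_sum (by rw [hsr]; exact hs0), hsr, ← Real.rpow_mul (Finset.sum_nonneg fun p _ => by positivity),
      one_div, inv_mul_cancel₀ hs0.ne', Real.rpow_one]
    rfl
  have hn3 : ∀ z : PiLp (ENNReal.ofReal s) (fun _ : P => ℝ), ‖z‖ ^ 3 = (∑ p, (|z p| ^ 3) ^ t) ^ (1 / t) := by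
    intro z
    have e : ∑ p, (|z p| ^ 3) ^ t = ‖z‖ ^ s := by
      rw [hn z]
      refine Finset.sum_congr rfl fun p _ => ?_
      rw [← Real.rpow_natCast, ← Real.rpow_mul (abs_nonneg _)]
      congr 1
    rw [e, ← Real.rpow_mul (norm_nonneg _), ← Real.rpow_natCast]
    congr 1
    rw [ht]
    push_cast
    field_simp
  have hXp : ∀ θ p, (∑ b, sg (θ b) • y b : PiLp (ENNReal.ofReal s) (fun _ : P => ℝ)) p = X θ p := by
    intro θ p
    simp [hX]
  -- the left side
  have hL : ∑ b, ‖y b‖ ^ s ≤ ∑ p, (rad fun θ => |X θ p| ^ 3) ^ t := by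
    have e1 : ∑ b, ‖y b‖ ^ s = ∑ p, ∑ b, |y b p| ^ s := by
      rw [Finset.sum_comm]
      exact Finset.sum_congr rfl fun b _ => hn (y b)
    rw [e1]
    refine Finset.sum_le_sum fun p _ => ?_
    have a1 : ∑ b, |y b p| ^ s = ∑ b, (|y b p| ^ 2) ^ (s / 2) := by
      refine Finset.sum_congr rfl fun b _ => ?_
      rw [← Real.rpow_natCast, ← Real.rpow_mul (abs_nonneg _)]
      congr 1
      push_cast
      ring
    have a2 := CTls_super (Finset.univ : Finset (Fin m)) (fun b => |y b p| ^ 2) (fun b => by positivity)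
      (r := s / 2) (by linarith)
    have a3 : rad (fun θ => |X θ p| ^ (2 : ℝ)) = ∑ b, |y b p| ^ 2 := by
      have := h2 ℝ (Fin m) (fun b => y b p)
      simp only [smul_eq_mul, Real.norm_eq_abs] at this
      rw [← this]
      congr 1
      funext θ
      rw [← Real.rpow_natCast]
      norm_num [hX]
    have a4 := h1 (Fin m) (fun θ => |X θ p|) 2 3 (fun θ => abs_nonneg _) (by norm_num) (by norm_num)
    rw [a3] at a4
    have a5 : (rad fun θ => |X θ p| ^ (3 : ℝ)) = rad fun θ => |X θ p| ^ 3 := by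
      congr 1
      funext θ
      rw [← Real.rpow_natCast]
      norm_num
    rw [a5] at a4
    have hR0 : 0 ≤ rad fun θ => |X θ p| ^ 3 := by
      unfold rad
      positivity
    rw [a1]
    refine a2.trans ?_
    calc (∑ b, |y b p| ^ 2) ^ (s / 2) ≤ ((rad fun θ => |X θ p| ^ 3) ^ (2 / 3 : ℝ)) ^ (s / 2) := by
          refine Real.rpow_le_rpow (Finset.sum_nonneg fun b _ => by positivity) a4 (by linarith)
      _ = (rad fun θ => |X θ p| ^ 3) ^ t := by
          rw [← Real.rpow_mul hR0]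
          congr 1
          rw [ht]
          ring
  -- Minkowski
  have hM := CTls_mink (fun (θ : Fin m → Bool) p => |X θ p| ^ 3) (fun θ p => by positivity) ht1
  have hc : (0 : ℝ) < 2 ^ Fintype.card (Fin m) := by positivity
  have e2 : ∑ p, (rad fun θ => |X θ p| ^ 3) ^ t =
      (1 / 2 ^ Fintype.card (Fin m)) ^ t * ∑ p, (∑ θ, |X θ p| ^ 3) ^ t := by
    rw [Finset.mul_sum]
    refine Finset.sum_congr rfl fun p _ => ?_
    unfold rad
    rw [← Real.mul_rpow (by positivity) (Finset.sum_nonneg fun θ _ => by positivity)]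
    congr 1
    ring
  have e3 : (∑ p, (rad fun θ => |X θ p| ^ 3) ^ t) ^ (1 / t) =
      (1 / 2 ^ Fintype.card (Fin m)) * (∑ p, (∑ θ, |X θ p| ^ 3) ^ t) ^ (1 / t) := by
    rw [e2, Real.mul_rpow (by positivity) (Finset.sum_nonneg fun p _ => by positivity),
      ← Real.rpow_mul (by positivity), mul_one_div_cancel ht0.ne', Real.rpow_one]
  rw [one_pow, one_mul, hst]
  calc (∑ b, ‖y b‖ ^ s) ^ (1 / t) ≤ (∑ p, (rad fun θ => |X θ p| ^ 3) ^ t) ^ (1 / t) :=
        Real.rpow_le_rpow (Finset.sum_nonneg fun b _ => by positivity) hL (by positivity)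
    _ = (1 / 2 ^ Fintype.card (Fin m)) * (∑ p, (∑ θ, |X θ p| ^ 3) ^ t) ^ (1 / t) := e3
    _ ≤ (1 / 2 ^ Fintype.card (Fin m)) * ∑ θ, (∑ p, (|X θ p| ^ 3) ^ t) ^ (1 / t) :=
        mul_le_mul_of_nonneg_left hM (by positivity)
    _ = rad fun θ : Fin m → Bool => ‖∑ b, sg (θ b) • y b‖ ^ 3 := by
        unfold rad
        rw [one_div_mul_eq_div]
        congr 1
        refine Finset.sum_congr rfl fun θ _ => ?_
        show _ = ‖∑ b, sg (θ b) • y b‖ ^ 3
        rw [hn3]
        simp_rw [hXp]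

end Pool.Agent.Lib.MP_355270_an.CB
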