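import Pool.Agent.Lib.MP_355270_an.CB.StmB

open Filter Topology
open scoped ENNReal

namespace Pool.Agent.Lib.MP_355270_an.CB

theorem CTmono_sum {ι : Type} (t : Finset ι) (a : ι → ℝ) (ha : ∀ b, 0 ≤ a b) {s r : ℝ}
    (hs : 0 < s) (hsr : s ≤ r) :
    (∑ b ∈ t, a b ^ r) ^ (3 / r) ≤ (∑ b ∈ t, a b ^ s) ^ (3 / s) := by
  have hr : 0 < r := lt_of_lt_of_le hs hsr
  have hS : 0 ≤ ∑ b ∈ t, a b ^ s := Finset.sum_nonneg fun b _ => Real.rpow_nonneg (ha b) s
  set A : ℝ := (∑ b ∈ t, a b ^ s) ^ (1 / s) with hA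
  have hA0 : 0 ≤ A := Real.rpow_nonneg hS _
  have hAs : A ^ s = ∑ b ∈ t, a b ^ s := by
    rw [hA, ← Real.rpow_mul hS, one_div_mul_cancel hs.ne', Real.rpow_one]
  have hle : ∀ b ∈ t, a b ≤ A := by
    intro b hb
    have h1 : a b ^ s ≤ A ^ s := by
      rw [hAs]
      exact Finset.single_le_sum (f := fun b => a b ^ s)
        (fun c _ => Real.rpow_nonneg (ha c) s) hb
    exact (Real.rpow_le_rpow_iff (ha b) hA0 hs).1 h1
  have h2 : ∑ b ∈ t, a b ^ r ≤ A ^ r := by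
    have h3 : ∀ b ∈ t, a b ^ r ≤ a b ^ s * A ^ (r - s) := by
      intro b hb
      have h4 : a b ^ r = a b ^ s * a b ^ (r - s) := by
        rw [← Real.rpow_add_of_nonneg (ha b) hs.le (sub_nonneg.2 hsr), add_sub_cancel]
      rw [h4]
      exact mul_le_mul_of_nonneg_left
        (Real.rpow_le_rpow (ha b) (hle b hb) (sub_nonneg.2 hsr)) (Real.rpow_nonneg (ha b) s)
    refine (Finset.sum_le_sum h3).trans ?_
    rw [← Finset.sum_mul, ← hAs, ← Real.rpow_add_of_nonneg hA0 hs.le (sub_nonneg.2 hsr),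
      add_sub_cancel]
  have h5 : (∑ b ∈ t, a b ^ r) ^ (3 / r) ≤ (A ^ r) ^ (3 / r) :=
    Real.rpow_le_rpow (Finset.sum_nonneg fun b _ => Real.rpow_nonneg (ha b) r) h2 (by positivity)
  have h6 : (A ^ r) ^ (3 / r) = (∑ b ∈ t, a b ^ s) ^ (3 / s) := by
    rw [← Real.rpow_mul hA0, mul_div_cancel₀ _ hr.ne', ← hAs, ← Real.rpow_mul hA0,
      mul_div_cancel₀ _ hs.ne']
  exact h5.trans h6.le

theorem p_CTmono : S_CTmono := by
  intro Y _ _ s r K K' hs hsr hK hKK' h m y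
  refine (CTmono_sum Finset.univ (fun b => ‖y b‖) (fun b => norm_nonneg _) hs hsr).trans ?_
  refine (h m y).trans ?_
  refine mul_le_mul_of_nonneg_right (pow_le_pow_left₀ hK hKK' 3) ?_
  unfold rad
  positivity

end Pool.Agent.Lib.MP_355270_an.CB
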