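import Pool.Agent.Lib.MP_355270_an.CB.StmB

open Filter Topology
open scoped ENNReal

namespace Pool.Agent.Lib.MP_355270_an.CB

theorem CTprod_rad_mono {ι : Type} [Fintype ι] [DecidableEq ι] {f g : (ι → Bool) → ℝ}
    (h : ∀ θ, f θ ≤ g θ) : rad f ≤ rad g := by
  unfold rad
  exact div_le_div_of_nonneg_right (Finset.sum_le_sum fun θ _ => h θ) (by positivity)

theorem CTprod_rad_nonneg {ι : Type} [Fintype ι] [DecidableEq ι] {f : (ι → Bool) → ℝ}
    (h : ∀ θ, 0 ≤ f θ) : 0 ≤ rad f := by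
  unfold rad
  exact div_nonneg (Finset.sum_nonneg fun θ _ => h θ) (by positivity)

theorem p_CTprod : S_CTprod := by
  intro Y Z _ _ _ _ r K hr hK hY hZ m w
  have hr0 : 0 < r := by linarith
  have h1 := hY m (fun b => (w b).1)
  have h2 := hZ m (fun b => (w b).2)
  set A : ℝ := ∑ b, ‖(w b).1‖ ^ r with hA
  set B : ℝ := ∑ b, ‖(w b).2‖ ^ r with hB
  have hA0 : 0 ≤ A := Finset.sum_nonneg fun _ _ => by positivity
  have hB0 : 0 ≤ B := Finset.sum_nonneg fun _ _ => by positivity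
  have hs : ∑ b, ‖w b‖ ^ r ≤ A + B := by
    rw [hA, hB, ← Finset.sum_add_distrib]
    refine Finset.sum_le_sum fun b _ => ?_
    have e1 : 0 ≤ ‖(w b).1‖ ^ r := by positivity
    have e2 : 0 ≤ ‖(w b).2‖ ^ r := by positivity
    rw [Prod.norm_def]
    rcases max_cases ‖(w b).1‖ ‖(w b).2‖ with h | h
    · rw [h.1]
      linarith
    · rw [h.1]
      linarith
  have hs0 : 0 ≤ ∑ b, ‖w b‖ ^ r := Finset.sum_nonneg fun _ _ => by positivity
  have h3 : (∑ b, ‖w b‖ ^ r) ^ (3 / r) ≤ A ^ (3 / r) + B ^ (3 / r) := by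
    refine (Real.rpow_le_rpow hs0 hs (by positivity)).trans ?_
    exact Real.rpow_add_le_add_rpow hA0 hB0 (by positivity) (by rw [div_le_one hr0]; exact hr)
  set X : ℝ := rad fun θ : Fin m → Bool => ‖∑ b, sg (θ b) • w b‖ ^ 3 with hX
  have hX0 : 0 ≤ X := CTprod_rad_nonneg fun θ => by positivity
  have h4 : (rad fun θ : Fin m → Bool => ‖∑ b, sg (θ b) • (w b).1‖ ^ 3) ≤ X := by
    refine CTprod_rad_mono fun θ => pow_le_pow_left₀ (norm_nonneg _) ?_ 3
    have : ∑ b, sg (θ b) • (w b).1 = (∑ b, sg (θ b) • w b).1 := by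
      rw [Prod.fst_sum]
      rfl
    rw [this]
    exact norm_fst_le _
  have h5 : (rad fun θ : Fin m → Bool => ‖∑ b, sg (θ b) • (w b).2‖ ^ 3) ≤ X := by
    refine CTprod_rad_mono fun θ => pow_le_pow_left₀ (norm_nonneg _) ?_ 3
    have : ∑ b, sg (θ b) • (w b).2 = (∑ b, sg (θ b) • w b).2 := by
      rw [Prod.snd_sum]
      rfl
    rw [this]
    exact norm_snd_le _
  have hK3 : 0 ≤ K ^ 3 := by positivity
  have h6 := mul_le_mul_of_nonneg_left h4 hK3
  have h7 := mul_le_mul_of_nonneg_left h5 hK3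
  have h8 : 0 ≤ K ^ 3 * X := mul_nonneg hK3 hX0
  calc (∑ b, ‖w b‖ ^ r) ^ (3 / r) ≤ A ^ (3 / r) + B ^ (3 / r) := h3
    _ ≤ K ^ 3 * X + K ^ 3 * X := add_le_add (h1.trans h6) (h2.trans h7)
    _ ≤ (2 * K) ^ 3 * X := by nlinarith

end Pool.Agent.Lib.MP_355270_an.CB
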