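import Pool.Agent.Lib.MP_355270_an.CB.StmB

open Filter Topology
open scoped ENNReal

namespace Pool.Agent.Lib.MP_355270_an.CB

theorem p_CTre : S_CTre := by
  intro Y _ _ r K h ι _ _ y
  have e := Fintype.equivFin ι
  have h1 := h (Fintype.card ι) (fun b => y (e.symm b))
  have e1 : ∑ b, ‖y (e.symm b)‖ ^ r = ∑ b, ‖y b‖ ^ r := Equiv.sum_comp e.symm (fun b => ‖y b‖ ^ r)
  have e2 : (rad fun θ : Fin (Fintype.card ι) → Bool => ‖∑ b, sg (θ b) • y (e.symm b)‖ ^ 3) =
      rad fun θ : ι → Bool => ‖∑ b, sg (θ b) • y b‖ ^ 3 := by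
    unfold rad
    rw [Fintype.card_fin]
    congr 1
    refine Fintype.sum_equiv (Equiv.arrowCongr e.symm (Equiv.refl Bool)) _ _ fun θ => ?_
    congr 2
    rw [← Equiv.sum_comp e]
    refine Finset.sum_congr rfl fun b _ => ?_
    simp
  rw [e1, e2] at h1
  exact h1

end Pool.Agent.Lib.MP_355270_an.CB
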