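import Pool.Agent.Lib.MP_355270_an.CB.StmB

open Filter Topology
open scoped ENNReal

namespace Pool.Agent.Lib.MP_355270_an.CB

theorem p_CTsub : S_CTsub := by
  intro Y _ _ r K Z h m y
  have h1 := h m (fun b => (y b : Y))
  have h2 : ∀ θ : Fin m → Bool, ‖∑ b, sg (θ b) • (y b : Y)‖ = ‖∑ b, sg (θ b) • y b‖ := by
    intro θ
    have e : (∑ b, sg (θ b) • (y b : Y)) = ((∑ b, sg (θ b) • y b : Z) : Y) := by
      simp
    rw [e]
    rfl
  have h3 : ∀ b, ‖(y b : Y)‖ = ‖y b‖ := fun b => rfl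
  simp only [h2, h3] at h1
  exact h1

end Pool.Agent.Lib.MP_355270_an.CB
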