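import Pool.Agent.Lib.MP_355270_an.CB.StmC

open Filter Topology
open scoped ENNReal

namespace Pool.Agent.Lib.MP_355270_an.CB

open Cx

theorem CxAsys_I (𝕜 : Type) [RCLike 𝕜] : ‖(RCLike.I : 𝕜)‖ ≤ 1 := by
  by_cases h : (RCLike.I : 𝕜) = 0
  · rw [h, norm_zero]
    exact zero_le_one
  · rw [RCLike.norm_I_of_ne_zero h]

theorem CxAsys_fin (h1 : S_CxJ) (𝕜 : Type) [RCLike 𝕜] (W : Type) [NormedAddCommGroup W]
    [NormedSpace ℝ W] (E : Submodule ℝ W) (hE : FiniteDimensional ℝ E) :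
    FiniteDimensional 𝕜 (sub 𝕜 E) := by
  obtain ⟨-, hadd, hsmul, hdec, -⟩ := h1 𝕜 W
  have hfg : E.FG := Module.Finite.iff_fg.1 hE
  obtain ⟨S, hS⟩ := hfg
  have hJ : ∀ x ∈ E, (J x : Cx 𝕜 W) ∈ Submodule.span 𝕜 ((fun x : W => (J x : Cx 𝕜 W)) '' (S : Set W)) := by
    intro x hx
    rw [← hS] at hx
    induction hx using Submodule.span_induction with
    | mem x hx => exact Submodule.subset_span ⟨x, hx, rfl⟩
    | zero =>
      have h0 := hsmul 0 0
      rw [zero_smul, RCLike.ofReal_zero, zero_smul] at h0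
      rw [h0]
      exact Submodule.zero_mem _
    | add x y _ _ hx hy =>
      rw [hadd]
      exact Submodule.add_mem _ hx hy
    | smul r x _ hx =>
      rw [hsmul]
      exact Submodule.smul_mem _ _ hx
  have hle : sub 𝕜 E ≤ Submodule.span 𝕜 ((fun x : W => (J x : Cx 𝕜 W)) '' (S : Set W)) := by
    intro f hf
    rw [hdec f]
    exact Submodule.sub_mem _ (hJ _ (hf 1)) (Submodule.smul_mem _ _ (hJ _ (hf RCLike.I)))
  have hfin : FiniteDimensional 𝕜
      (Submodule.span 𝕜 ((fun x : W => (J x : Cx 𝕜 W)) '' (S : Set W))) :=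
    FiniteDimensional.span_of_finite 𝕜 (S.finite_toSet.image _)
  exact Submodule.finiteDimensional_of_le hle

theorem p_CxAsys (h1 : S_CxJ) : S_CxAsys := by
  intro 𝕜 _ W _ _ V D Dc hA hD
  obtain ⟨hnorm, hadd, hsmul, hdec, -⟩ := h1 𝕜 W
  have hneg : ∀ x : W, (J (-x) : Cx 𝕜 W) = -J x := by
    intro x
    have := hsmul (-1) x
    rw [neg_one_smul] at this
    rw [this]
    simp
  have hsub : ∀ x y : W, (J (x - y) : Cx 𝕜 W) = J x - J y := by
    intro x y
    rw [sub_eq_add_neg, hadd, hneg, sub_eq_add_neg]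
  have hmono : Monotone (fun j => sub 𝕜 (V j)) := fun i j hij f hf z => hA.mono hij (hf z)
  refine ⟨hmono, fun j => CxAsys_fin h1 𝕜 W (V j) (hA.fin j), ?_, ?_⟩
  · rw [Metric.dense_iff]
    intro f r hr
    have hd := Metric.dense_iff.1 hA.dense
    obtain ⟨x, hx1, hx2⟩ := hd (ap f 1) (r / 2) (half_pos hr)
    obtain ⟨y, hy1, hy2⟩ := hd (ap f RCLike.I) (r / 2) (half_pos hr)
    rw [Set.mem_iUnion] at hx2 hy2
    obtain ⟨i, hi⟩ := hx2
    obtain ⟨j, hj⟩ := hy2
    refine ⟨J x - (RCLike.I : 𝕜) • J y, ?_, ?_⟩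
    · rw [Metric.mem_ball, dist_comm, dist_eq_norm]
      rw [Metric.mem_ball, dist_comm, dist_eq_norm] at hx1 hy1
      have e : f - (J x - (RCLike.I : 𝕜) • J y) =
          J (ap f 1 - x) - (RCLike.I : 𝕜) • J (ap f RCLike.I - y) := by
        rw [hsub, hsub]
        conv_lhs => rw [hdec f]
        rw [smul_sub]
        abel
      rw [e]
      calc ‖(J (ap f 1 - x) : Cx 𝕜 W) - (RCLike.I : 𝕜) • J (ap f RCLike.I - y)‖
          ≤ ‖(J (ap f 1 - x) : Cx 𝕜 W)‖ + ‖(RCLike.I : 𝕜) • (J (ap f RCLike.I - y) : Cx 𝕜 W)‖ :=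
            norm_sub_le _ _
        _ = ‖ap f 1 - x‖ + ‖(RCLike.I : 𝕜)‖ * ‖ap f RCLike.I - y‖ := by
            rw [norm_smul, hnorm, hnorm]
        _ ≤ ‖ap f 1 - x‖ + 1 * ‖ap f RCLike.I - y‖ := by
            gcongr
            exact CxAsys_I 𝕜
        _ < r / 2 + 1 * (r / 2) := by
            rw [one_mul, one_mul]
            exact add_lt_add hx1 hy1
        _ = r := by ring
    · rw [Set.mem_iUnion]
      refine ⟨max i j, ?_⟩
      exact Submodule.sub_mem _ (J_mem (hA.mono (le_max_left i j) hi))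
        (Submodule.smul_mem _ _ (J_mem (hA.mono (le_max_right i j) hj)))
  · intro j f hf z
    rw [hD]
    exact hA.inv j _ (hf z)

end Pool.Agent.Lib.MP_355270_an.CB
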