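import Pool.Agent.Lib.MP_355270_an.CB.StmC

open Filter Topology
open scoped ENNReal

namespace Pool.Agent.Lib.MP_355270_an.CB

open Cx

theorem CxDec_aux (h1 : S_CxJ) (𝕜 : Type) [RCLike 𝕜] (W : Type) [NormedAddCommGroup W]
    [NormedSpace ℝ W] (E : Submodule ℝ W) (T : sub 𝕜 E →L[𝕜] Cx 𝕜 W) (z : 𝕜) (hz : ‖z‖ ≤ 1) :
    ∃ T1 : E →L[ℝ] W, ‖T1‖ ≤ ‖T‖ ∧ ∀ x : E, T1 x = ap (T ⟨J (x : W), J_mem x.2⟩) z := by
  obtain ⟨hn, ha, hs, -, hz'⟩ := h1 𝕜 W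
  let L : E →ₗ[ℝ] W :=
    { toFun := fun x => ap (T ⟨J (x : W), J_mem x.2⟩) z
      map_add' := fun x y => by
        have e : (⟨J ((x + y : E) : W), J_mem (x + y).2⟩ : sub 𝕜 E) =
            ⟨J (x : W), J_mem x.2⟩ + ⟨J (y : W), J_mem y.2⟩ := Subtype.ext (ha x y)
        rw [e, map_add]
        rfl
      map_smul' := fun r x => by
        have e : (⟨J ((r • x : E) : W), J_mem (r • x).2⟩ : sub 𝕜 E) =
            (r : 𝕜) • ⟨J (x : W), J_mem x.2⟩ := Subtype.ext (hs r x)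
        rw [e, map_smul, ap_smul]
        have e2 : (r : 𝕜) * z = r • z := (RCLike.real_smul_eq_coe_mul r z).symm
        rw [e2, map_smul]
        rfl }
  have hb : ∀ x, ‖L x‖ ≤ ‖T‖ * ‖x‖ := by
    intro x
    have h2 : ‖L x‖ ≤ ‖T ⟨J (x : W), J_mem x.2⟩‖ * ‖z‖ := hz' _ _
    have h3 : ‖T ⟨J (x : W), J_mem x.2⟩‖ ≤ ‖T‖ * ‖x‖ := by
      refine (T.le_opNorm _).trans ?_
      have : ‖(⟨J (x : W), J_mem x.2⟩ : sub 𝕜 E)‖ = ‖x‖ := hn x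
      rw [this]
    calc ‖L x‖ ≤ ‖T ⟨J (x : W), J_mem x.2⟩‖ * ‖z‖ := h2
      _ ≤ ‖T ⟨J (x : W), J_mem x.2⟩‖ * 1 := mul_le_mul_of_nonneg_left hz (norm_nonneg _)
      _ ≤ ‖T‖ * ‖x‖ := by rw [mul_one]; exact h3
  have h0 : 0 ≤ ‖T‖ := T.opNorm_nonneg
  exact ⟨L.mkContinuous ‖T‖ hb, L.mkContinuous_norm_le h0 hb, fun x => rfl⟩

theorem p_CxDec (h1 : S_CxJ) : S_CxDec := by
  intro 𝕜 _ W _ _ E T
  obtain ⟨T1, hT1, e1⟩ := CxDec_aux h1 𝕜 W E T 1 (by rw [norm_one])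
  have hI : ‖(RCLike.I : 𝕜)‖ ≤ 1 := by
    by_cases h : (RCLike.I : 𝕜) = 0
    · rw [h, norm_zero]
      exact zero_le_one
    · rw [RCLike.norm_I_of_ne_zero h]
  obtain ⟨T2, hT2, e2⟩ := CxDec_aux h1 𝕜 W E T RCLike.I hI
  refine ⟨T1, T2, hT1, hT2, fun x => ?_⟩
  rw [e1, e2]
  exact (h1 𝕜 W).2.2.2.1 _

end Pool.Agent.Lib.MP_355270_an.CB
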