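import Pool.Agent.Lib.MP_355270_an.CB.StmC

open Filter Topology
open scoped ENNReal

namespace Pool.Agent.Lib.MP_355270_an.CB

open Cx

section CxFrames

variable {𝕜 : Type} [RCLike 𝕜] {W : Type} [NormedAddCommGroup W] [NormedSpace ℝ W]

theorem CxFrames_Jsub (x y : W) : (J (x - y) : Cx 𝕜 W) = J x - J y :=
  Cx.ext fun z => by
    rw [ap_J, ap_sub, sub_apply, ap_J, ap_J, smul_sub]

theorem CxFrames_normJ (h1 : S_CxJ) (x : W) : ‖(J x : Cx 𝕜 W)‖ = ‖x‖ := (h1 𝕜 W).1 x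

theorem CxFrames_normI : ‖(RCLike.I : 𝕜)‖ ≤ 1 := by
  by_cases h : (RCLike.I : 𝕜) = 0
  · rw [h, norm_zero]
    norm_num
  · rw [RCLike.norm_I_of_ne_zero h]

/-- the extension of a functional, on real vectors -/
theorem CxFrames_XiJ (Ξ : W →L[ℝ] ℝ) (Ξc : Cx 𝕜 W →L[𝕜] 𝕜)
    (h : ∀ f, Ξc f = (Ξ (ap f 1) : 𝕜) - RCLike.I * (Ξ (ap f RCLike.I) : 𝕜)) (x : W) :
    Ξc (J x) = (Ξ x : 𝕜) := by
  rw [h, ap_J, ap_J, RCLike.I_re, zero_smul, map_zero, RCLike.ofReal_zero, mul_zero, sub_zero,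
    RCLike.one_re, one_smul]

theorem CxFrames_XiJJ (Ξ : W →L[ℝ] ℝ) (Ξc : Cx 𝕜 W →L[𝕜] 𝕜)
    (h : ∀ f, Ξc f = (Ξ (ap f 1) : 𝕜) - RCLike.I * (Ξ (ap f RCLike.I) : 𝕜)) (x y : W) :
    Ξc (J x - (RCLike.I : 𝕜) • J y) = (Ξ x : 𝕜) - RCLike.I * (Ξ y : 𝕜) := by
  rw [map_sub, map_smul, CxFrames_XiJ Ξ Ξc h, CxFrames_XiJ Ξ Ξc h, smul_eq_mul]

variable {ι : Type} [Fintype ι]

theorem CxFrames_av (Ξ : ι → W →L[ℝ] ℝ) (Ξc : ι → Cx 𝕜 W →L[𝕜] 𝕜)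
    (h : ∀ a f, Ξc a f = (Ξ a (ap f 1) : 𝕜) - RCLike.I * (Ξ a (ap f RCLike.I) : 𝕜))
    (x y : ι → W) (f : ι → Cx 𝕜 W) (hf : ∀ a, f a = J (x a) - (RCLike.I : 𝕜) • J (y a)) :
    av Ξc f = ((av Ξ x : ℝ) : 𝕜) - RCLike.I * ((av Ξ y : ℝ) : 𝕜) := by
  unfold av
  have e : ∀ a, Ξc a (f a) = (Ξ a (x a) : 𝕜) - RCLike.I * (Ξ a (y a) : 𝕜) := fun a => by
    rw [hf a, CxFrames_XiJJ (Ξ a) (Ξc a) (h a)]
  rw [Finset.sum_congr rfl fun a _ => e a, Finset.sum_sub_distrib, ← Finset.mul_sum]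
  push_cast
  ring

theorem CxFrames_two (X Y : ℝ) (e : ℝ) (hX : ‖X‖ ≤ e) (hY : ‖Y‖ ≤ e) :
    ‖(X : 𝕜) - RCLike.I * (Y : 𝕜)‖ ≤ 2 * e := by
  have hI : ‖(RCLike.I : 𝕜)‖ ≤ 1 := CxFrames_normI
  have h0 : 0 ≤ e := (norm_nonneg _).trans hX
  calc ‖(X : 𝕜) - RCLike.I * (Y : 𝕜)‖ ≤ ‖(X : 𝕜)‖ + ‖RCLike.I * (Y : 𝕜)‖ := norm_sub_le _ _
    _ ≤ e + 1 * e := by
        refine add_le_add ?_ ?_
        · rw [RCLike.norm_ofReal]
          exact hX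
        · rw [norm_mul]
          refine mul_le_mul hI ?_ (norm_nonneg _) zero_le_one
          rw [RCLike.norm_ofReal]
          exact hY
    _ = 2 * e := by ring

theorem CxFrames_four (X Y Z U : ℝ) (e : ℝ) (hX : ‖X‖ ≤ e) (hY : ‖Y‖ ≤ e) (hZ : ‖Z‖ ≤ e)
    (hU : ‖U‖ ≤ e) :
    ‖((X : 𝕜) - RCLike.I * (Y : 𝕜)) - RCLike.I * ((Z : 𝕜) - RCLike.I * (U : 𝕜))‖ ≤ 4 * e := by
  have hI : ‖(RCLike.I : 𝕜)‖ ≤ 1 := CxFrames_normI
  have h0 : 0 ≤ e := (norm_nonneg _).trans hX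
  refine (norm_sub_le _ _).trans ?_
  rw [norm_mul]
  have h1 := CxFrames_two (𝕜 := 𝕜) X Y e hX hY
  have h2 := CxFrames_two (𝕜 := 𝕜) Z U e hZ hU
  have h3 : ‖(RCLike.I : 𝕜)‖ * ‖(Z : 𝕜) - RCLike.I * (U : 𝕜)‖ ≤ 1 * (2 * e) :=
    mul_le_mul hI h2 (norm_nonneg _) zero_le_one
  linarith

theorem CxFrames_up (y : ℕ → W) (S : Finset ℕ) (c : ℕ → 𝕜) (hc : ∀ i, ‖c i‖ ≤ 1)
    (hy : ∀ d : ℕ → ℝ, (∀ i, ‖d i‖ ≤ 1) → ‖∑ i ∈ S, d i • y i‖ ^ 3 ≤ 8 * (S.card : ℝ)) :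
    ‖∑ i ∈ S, c i • (J (y i) : Cx 𝕜 W)‖ ^ 3 ≤ 8 * (S.card : ℝ) := by
  set f : Cx 𝕜 W := ∑ i ∈ S, c i • (J (y i) : Cx 𝕜 W) with hf
  have hap : ∀ z, ap f z = ∑ i ∈ S, RCLike.re (c i * z) • y i := by
    intro z
    have : ∀ T : Finset ℕ, ap (∑ i ∈ T, c i • (J (y i) : Cx 𝕜 W)) z =
        ∑ i ∈ T, RCLike.re (c i * z) • y i := by
      intro T
      induction T using Finset.induction_on with
      | empty => simp
      | insert a T ha ih =>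
        rw [Finset.sum_insert ha, Finset.sum_insert ha, ap_add, add_apply, ih,
          ap_smul, ap_J]
    exact this S
  set M : ℝ := (8 * (S.card : ℝ)) ^ (1 / 3 : ℝ) with hM
  have h8 : 0 ≤ 8 * (S.card : ℝ) := by positivity
  have hM0 : 0 ≤ M := Real.rpow_nonneg h8 _
  have hM3 : M ^ 3 = 8 * (S.card : ℝ) := by
    rw [hM, ← Real.rpow_natCast, ← Real.rpow_mul h8]
    norm_num
  have key : ∀ u : 𝕜, ‖u‖ ≤ 1 → ‖ap f u‖ ≤ M := by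
    intro u hu
    rw [hap]
    have h := hy (fun i => RCLike.re (c i * u)) fun i => by
      rw [Real.norm_eq_abs]
      refine (RCLike.abs_re_le_norm _).trans ?_
      rw [norm_mul]
      exact mul_le_one₀ (hc i) (norm_nonneg _) hu
    rw [← hM3] at h
    exact le_of_pow_le_pow_left₀ (by norm_num) hM0 h
  have hnorm : ‖f‖ ≤ M := by
    rw [← norm_ap f]
    refine ContinuousLinearMap.opNorm_le_bound _ hM0 fun z => ?_
    by_cases hz : z = 0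
    · rw [hz, map_zero, norm_zero, norm_zero, mul_zero]
    · have hz' : 0 < ‖z‖ := norm_pos_iff.2 hz
      have h := key ((‖z‖⁻¹ : ℝ) • z) (by
        rw [norm_smul, norm_inv, norm_norm, inv_mul_cancel₀ hz'.ne'])
      rw [map_smul, norm_smul, norm_inv, norm_norm, inv_mul_le_iff₀ hz'] at h
      linarith
  calc ‖f‖ ^ 3 ≤ M ^ 3 := pow_le_pow_left₀ (norm_nonneg _) hnorm 3
    _ = 8 * (S.card : ℝ) := hM3

end CxFrames

theorem CxFrames_le (e a b a' b' : ℝ) (he : 0 ≤ e) (ha : a ≤ a') (hb : b ≤ b') (hb0 : 0 ≤ b)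
    (ha' : 0 ≤ a') : e * a * b ≤ e * a' * b' :=
  mul_le_mul (mul_le_mul_of_nonneg_left ha he) hb hb0 (mul_nonneg he ha')

theorem p_CxFrames (h1 : S_CxJ) (h2 : S_CxXi) (h3 : S_CxDec) (h4 : S_CxDecW) : S_CxFrames := by
  intro 𝕜 _ W _ _ V D Dc hDc hfr
  obtain ⟨P⟩ := hfr
  have hX : ∀ i (a : P.ι i), ∃ Ξc : Cx 𝕜 W →L[𝕜] 𝕜,
      (∀ f, Ξc f = (P.Ξ i a (ap f 1) : 𝕜) - RCLike.I * (P.Ξ i a (ap f RCLike.I) : 𝕜)) ∧
        ‖Ξc‖ ≤ ‖P.Ξ i a‖ := fun i a => h2 𝕜 W (P.Ξ i a)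
  choose Ξc hΞc hΞn using hX
  have hε4 : Tendsto (fun i => 4 * P.ε i) atTop (𝓝 0) := by
    have := P.hε.const_mul 4
    rwa [mul_zero] at this
  refine ⟨{
    N := P.N
    ι := P.ι
    fin := P.fin
    F := fun i => sub 𝕜 (P.F i)
    jj := P.jj
    v := fun i n a => ⟨J (P.v i n a : W), J_mem (P.v i n a).2⟩
    Ξ := Ξc
    ν := P.ν
    ε := fun i => 4 * P.ε i
    hN := P.hN
    ne := P.ne
    hF := fun i f hf z => P.hF i (hf z)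
    hv := ?_
    hΞ := fun i a => (hΞn i a).trans (P.hΞ i a)
    hone := ?_
    heig := ?_
    hclose := ?_
    hε0 := fun i => mul_nonneg (by norm_num) (P.hε0 i)
    hν := P.hν
    hε := hε4
    hfr := ?_
    hmul := ?_
    hup := ?_ }⟩
  · intro i n a
    show ‖(J (P.v i n a : W) : Cx 𝕜 W)‖ ≤ 2
    rw [CxFrames_normJ h1]
    exact P.hv i n a
  · intro i n a hn
    show Ξc i a (J (P.v i n a : W)) = 1
    rw [CxFrames_XiJ (P.Ξ i a) (Ξc i a) (hΞc i a), P.hone i n a hn, RCLike.ofReal_one]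
  · intro i n a hn
    show Dc (J (P.v i n a : W)) = ((n : 𝕜) / (P.N i : 𝕜)) • (J (P.v i n a : W) : Cx 𝕜 W)
    have e : ((n : 𝕜) / (P.N i : 𝕜)) = (((n : ℝ) / (P.N i : ℝ) : ℝ) : 𝕜) := by push_cast; rfl
    rw [e, ← (h1 𝕜 W).2.2.1, ← P.heig i n a hn]
    refine Cx.ext fun z => ?_
    rw [hDc, ap_J, ap_J, map_smul]
  · intro i n a hn
    show ‖(J (P.v i n a : W) : Cx 𝕜 W) - J (P.v i (n + 1) a : W)‖ ≤ P.ν i
    rw [← CxFrames_Jsub, CxFrames_normJ h1]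
    exact P.hclose i n a hn
  · intro i T hT
    obtain ⟨T1, T2, hT1, hT2, hFR, hTJ⟩ := h4 𝕜 W T
    obtain ⟨hF1, hF2⟩ := hFR hT
    show ‖av (Ξc i) (fun a => T (J (P.v i (P.N i) a : W)))‖ ≤ 4 * P.ε i * ‖T‖
    rw [CxFrames_av (P.Ξ i) (Ξc i) (hΞc i) (fun a => T1 (P.v i (P.N i) a : W))
      (fun a => T2 (P.v i (P.N i) a : W)) _ fun a => hTJ _]
    have a1 := (P.hfr i T1 hF1).trans (mul_le_mul_of_nonneg_left hT1 (P.hε0 i))
    have a2 := (P.hfr i T2 hF2).trans (mul_le_mul_of_nonneg_left hT2 (P.hε0 i))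
    refine (CxFrames_two _ _ _ a1 a2).trans ?_
    have : 0 ≤ P.ε i * ‖T‖ := mul_nonneg (P.hε0 i) (norm_nonneg _)
    linarith
  · intro i n A B hn
    obtain ⟨A1, A2, hA1, hA2, -, hAJ⟩ := h4 𝕜 W A
    obtain ⟨B1, B2, hB1, hB2, hBJ⟩ := h3 𝕜 W (P.F i) B
    show ‖av (Ξc i) (fun a => A (B ⟨J (P.v i n a : W), J_mem (P.v i n a).2⟩)) -
      av (Ξc i) (fun a => A (J (P.v i n a : W))) *
        av (Ξc i) (fun a => B ⟨J (P.v i n a : W), J_mem (P.v i n a).2⟩)‖ ≤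
          4 * P.ε i * ‖A‖ * ‖B‖
    have e1 := CxFrames_av (P.Ξ i) (Ξc i) (hΞc i) (fun a => A1 (P.v i n a : W))
      (fun a => A2 (P.v i n a : W)) (fun a => A (J (P.v i n a : W))) fun a => hAJ _
    have e2 := CxFrames_av (P.Ξ i) (Ξc i) (hΞc i) (fun a => B1 (P.v i n a))
      (fun a => B2 (P.v i n a)) (fun a => B ⟨J (P.v i n a : W), J_mem (P.v i n a).2⟩)
      fun a => hBJ _
    have e3 := CxFrames_av (P.Ξ i) (Ξc i) (hΞc i) (fun a => A1 (B1 (P.v i n a)))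
      (fun a => A2 (B1 (P.v i n a))) (fun a => A (J (B1 (P.v i n a)))) fun a => hAJ _
    have e4 := CxFrames_av (P.Ξ i) (Ξc i) (hΞc i) (fun a => A1 (B2 (P.v i n a)))
      (fun a => A2 (B2 (P.v i n a))) (fun a => A (J (B2 (P.v i n a)))) fun a => hAJ _
    have e5 : av (Ξc i) (fun a => A (B ⟨J (P.v i n a : W), J_mem (P.v i n a).2⟩)) =
        av (Ξc i) (fun a => A (J (B1 (P.v i n a)))) -
          RCLike.I * av (Ξc i) (fun a => A (J (B2 (P.v i n a)))) := by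
      unfold av
      have : ∀ a, Ξc i a (A (B ⟨J (P.v i n a : W), J_mem (P.v i n a).2⟩)) =
          Ξc i a (A (J (B1 (P.v i n a)))) - RCLike.I * Ξc i a (A (J (B2 (P.v i n a)))) := by
        intro a
        rw [hBJ, map_sub, map_smul, map_sub, map_smul, smul_eq_mul]
      rw [Finset.sum_congr rfl fun a _ => this a, Finset.sum_sub_distrib, ← Finset.mul_sum]
      ring
    rw [e5, e3, e4, e1, e2]
    have b11 := (P.hmul i n A1 B1 hn).trans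
      (CxFrames_le _ _ _ _ _ (P.hε0 i) hA1 hB1 (norm_nonneg B1) (norm_nonneg A))
    have b21 := (P.hmul i n A2 B1 hn).trans
      (CxFrames_le _ _ _ _ _ (P.hε0 i) hA2 hB1 (norm_nonneg B1) (norm_nonneg A))
    have b12 := (P.hmul i n A1 B2 hn).trans
      (CxFrames_le _ _ _ _ _ (P.hε0 i) hA1 hB2 (norm_nonneg B2) (norm_nonneg A))
    have b22 := (P.hmul i n A2 B2 hn).trans
      (CxFrames_le _ _ _ _ _ (P.hε0 i) hA2 hB2 (norm_nonneg B2) (norm_nonneg A))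
    have key := CxFrames_four (𝕜 := 𝕜) _ _ _ _ _ b11 b21 b12 b22
    refine (le_of_eq ?_).trans (key.trans (le_of_eq (by ring)))
    congr 1
    push_cast
    ring
  · intro x hx S c hc
    have hx' : ∀ i, ∃ y : W, x i = J y ∧ ∃ n a, n ≤ P.N i ∧ y = (P.v i n a : W) := by
      intro i
      obtain ⟨n, a, hn, h⟩ := hx i
      exact ⟨(P.v i n a : W), h, n, a, hn, rfl⟩
    choose y hxy hy using hx'
    have e : (∑ i ∈ S, c i • x i) = ∑ i ∈ S, c i • (J (y i) : Cx 𝕜 W) :=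
      Finset.sum_congr rfl fun i _ => by rw [hxy i]
    rw [e]
    exact CxFrames_up y S c hc fun d hd => P.hup y hy S d hd

end Pool.Agent.Lib.MP_355270_an.CB
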