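import Pool.Agent.Lib.MP_355270_an.CB.StmC

open Filter Topology
open scoped ENNReal

namespace Pool.Agent.Lib.MP_355270_an.CB

open Cx

theorem CxG_norm_I (𝕜 : Type) [RCLike 𝕜] : ‖(RCLike.I : 𝕜)‖ ≤ 1 := by
  by_cases h : (RCLike.I : 𝕜) = 0
  · rw [h, norm_zero]
    exact zero_le_one
  · exact (RCLike.norm_I_of_ne_zero h).le

theorem CxG_norm_le (h1 : S_CxJ) {𝕜 : Type} [RCLike 𝕜] {W : Type} [NormedAddCommGroup W]
    [NormedSpace ℝ W] (f : Cx 𝕜 W) : ‖f‖ ≤ ‖ap f 1‖ + ‖ap f RCLike.I‖ := by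
  obtain ⟨hJ, _, _, hdec, _⟩ := h1 𝕜 W
  calc ‖f‖ = ‖J (ap f 1) - (RCLike.I : 𝕜) • J (ap f RCLike.I)‖ := by rw [← hdec f]
    _ ≤ ‖(J (ap f 1) : Cx 𝕜 W)‖ + ‖(RCLike.I : 𝕜) • (J (ap f RCLike.I) : Cx 𝕜 W)‖ :=
        norm_sub_le _ _
    _ ≤ ‖ap f 1‖ + ‖ap f RCLike.I‖ := by
        rw [hJ, norm_smul, hJ]
        have := mul_le_mul_of_nonneg_right (CxG_norm_I 𝕜) (norm_nonneg (ap f RCLike.I))
        linarith

theorem p_CxG (h1 : S_CxJ) (h2 : S_CxOp) : S_CxG := by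
  intro 𝕜 _ W _ _ V D Dc hDc G C hG hV hm hcomm hlim
  choose Gc hGc hGn using fun i => h2 𝕜 W (G i)
  refine ⟨Gc, fun i => (hGn i).trans (hG i), ?_, ?_, ?_, ?_⟩
  · intro i j x hx z
    rw [hGc]
    exact hV i j _ (hx z)
  · intro i
    obtain ⟨m, hm'⟩ := hm i
    refine ⟨m, fun x z => ?_⟩
    rw [hGc]
    exact hm' _
  · intro i x
    refine Cx.ext fun z => ?_
    rw [hDc, hGc, hGc, hDc, hcomm]
  · intro f
    have hz : ∀ z : 𝕜, Tendsto (fun i => ‖ap (Gc i f - (f - Dc f)) z‖) atTop (𝓝 0) := by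
      intro z
      have h3 := tendsto_iff_norm_sub_tendsto_zero.1 (hlim (ap f z))
      refine h3.congr fun i => ?_
      rw [ap_sub, ap_sub, sub_apply, sub_apply, hGc, hDc]
    rw [tendsto_iff_norm_sub_tendsto_zero]
    have h4 := (hz 1).add (hz RCLike.I)
    rw [add_zero] at h4
    exact squeeze_zero (fun i => norm_nonneg _) (fun i => CxG_norm_le h1 _) h4

end Pool.Agent.Lib.MP_355270_an.CB
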