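import Pool.Agent.Lib.MP_355270_an.CB.StmC

open Filter Topology
open scoped ENNReal

namespace Pool.Agent.Lib.MP_355270_an.CB

open Cx

theorem p_CxJ : S_CxJ := by
  intro 𝕜 _ W _ _
  have hle : ∀ (f : Cx 𝕜 W) (z : 𝕜), ‖ap f z‖ ≤ ‖f‖ * ‖z‖ := by
    intro f z
    rw [← norm_ap]
    exact (ap f).le_opNorm z
  refine ⟨fun x => le_antisymm ?_ ?_, fun x y => ?_, fun r x => ?_, fun f => ?_, hle⟩
  · rw [← norm_ap]
    refine ContinuousLinearMap.opNorm_le_bound _ (norm_nonneg _) fun z => ?_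
    rw [ap_J, norm_smul, mul_comm, Real.norm_eq_abs]
    exact mul_le_mul_of_nonneg_left (RCLike.abs_re_le_norm z) (norm_nonneg _)
  · have h := hle (J x : Cx 𝕜 W) 1
    rw [ap_J, RCLike.one_re, one_smul, norm_one, mul_one] at h
    exact h
  · refine ext fun z => ?_
    rw [ap_add, add_apply, ap_J, ap_J, ap_J, smul_add]
  · refine ext fun z => ?_
    rw [ap_smul, ap_J, ap_J, RCLike.re_ofReal_mul, smul_smul, mul_comm]
  · refine ext fun z => ?_
    have h1 : RCLike.re ((RCLike.I : 𝕜) * z) = - RCLike.im z :=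
      RCLike.I_mul_re z
    have h2 : z = (RCLike.re z : ℝ) • (1 : 𝕜) + (RCLike.im z : ℝ) • (RCLike.I : 𝕜) := by
      rw [RCLike.real_smul_eq_coe_mul, RCLike.real_smul_eq_coe_mul, mul_one]
      exact (RCLike.re_add_im z).symm
    have h3 : ap f z = RCLike.re z • ap f 1 + RCLike.im z • ap f RCLike.I := by
      conv_lhs => rw [h2]
      rw [map_add, map_smul, map_smul]
    have h4 : ap (J (ap f 1) - (RCLike.I : 𝕜) • J (ap f RCLike.I) : Cx 𝕜 W) z =
        ap (J (ap f 1) : Cx 𝕜 W) z - ap ((RCLike.I : 𝕜) • J (ap f RCLike.I) : Cx 𝕜 W) z := rfl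
    rw [h4, ap_smul, ap_J, ap_J, h1, h3, neg_smul, sub_neg_eq_add]

end Pool.Agent.Lib.MP_355270_an.CB
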