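import Pool.Agent.Lib.MP_355270_an.CB.StmC

open Filter Topology
open scoped ENNReal

namespace Pool.Agent.Lib.MP_355270_an.CB

theorem p_CxOp : S_CxOp := by
  intro 𝕜 _ W _ _ T
  refine ⟨LinearMap.mkContinuous
    { toFun := fun f => Cx.of (T.comp (Cx.ap f))
      map_add' := fun f g => Cx.ext fun z => by simp
      map_smul' := fun c f => Cx.ext fun z => by simp } ‖T‖ (fun f => ?_), fun f z => rfl, ?_⟩
  · show ‖Cx.of (T.comp (Cx.ap f))‖ ≤ ‖T‖ * ‖f‖
    rw [← Cx.norm_ap, ← Cx.norm_ap f, Cx.ap_of]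
    exact T.opNorm_comp_le _
  · exact LinearMap.mkContinuous_norm_le _ (norm_nonneg _) _

end Pool.Agent.Lib.MP_355270_an.CB
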