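import Pool.Agent.Lib.MP_355270_an.CB.StmC

open Filter Topology
open scoped ENNReal

namespace Pool.Agent.Lib.MP_355270_an.CB

open Cx

theorem CxXi_split {𝕜 : Type} [RCLike 𝕜] {W : Type} [NormedAddCommGroup W] [NormedSpace ℝ W]
    (f : Cx 𝕜 W) (z : 𝕜) :
    ap f z = RCLike.re z • ap f 1 + RCLike.im z • ap f RCLike.I := by
  rw [← map_smul, ← map_smul, ← map_add]
  congr 1
  rw [RCLike.real_smul_eq_coe_mul, RCLike.real_smul_eq_coe_mul, mul_one, RCLike.re_add_im]

theorem p_CxXi (h1 : S_CxJ) : S_CxXi := by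
  intro 𝕜 _ W _ _ Ξ
  obtain ⟨-, -, -, -, hz'⟩ := h1 𝕜 W
  let L : Cx 𝕜 W →ₗ[𝕜] 𝕜 :=
    { toFun := fun f => (Ξ (ap f 1) : 𝕜) - RCLike.I * (Ξ (ap f RCLike.I) : 𝕜)
      map_add' := fun f g => by
        simp only [ap_add, add_apply, map_add]
        ring
      map_smul' := fun c f => by
        simp only [ap_smul, mul_one, RingHom.id_apply, smul_eq_mul]
        rcases RCLike.I_mul_I_ax (K := 𝕜) with hI | hI
        · have hc : c = (RCLike.re c : 𝕜) := by
            conv_lhs => rw [← RCLike.re_add_im c, hI, mul_zero, add_zero]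
          rw [hI, zero_mul, zero_mul, sub_zero, sub_zero, CxXi_split f c, hI, map_zero, smul_zero,
            add_zero, map_smul, smul_eq_mul, RCLike.ofReal_mul, ← hc]
        · have e : c * RCLike.I = ((-RCLike.im c : ℝ) : 𝕜) + (RCLike.re c : 𝕜) * RCLike.I := by
            conv_lhs => rw [← RCLike.re_add_im c, add_mul, mul_assoc, hI]
            rw [RCLike.ofReal_neg]
            ring
          have e2 : ap f (c * RCLike.I) =
              RCLike.re c • ap f RCLike.I - RCLike.im c • ap f 1 := by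
            rw [e, map_add]
            have e3 : ((-RCLike.im c : ℝ) : 𝕜) = (-RCLike.im c) • (1 : 𝕜) := by
              rw [RCLike.real_smul_eq_coe_mul, mul_one]
            have e4 : (RCLike.re c : 𝕜) * RCLike.I = RCLike.re c • RCLike.I :=
              (RCLike.real_smul_eq_coe_mul _ _).symm
            rw [e3, e4, map_smul, map_smul, neg_smul]
            abel
          rw [e2, CxXi_split f c, map_add, map_sub, map_smul, map_smul, map_smul, map_smul]
          simp only [smul_eq_mul, RCLike.ofReal_add, RCLike.ofReal_sub, RCLike.ofReal_mul]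
          conv_rhs => rw [← RCLike.re_add_im c]
          linear_combination ((RCLike.im c : 𝕜) * (Ξ (ap f RCLike.I) : 𝕜)) * hI }
  have hL : ∀ f, L f = (Ξ (ap f 1) : 𝕜) - RCLike.I * (Ξ (ap f RCLike.I) : 𝕜) := fun f => rfl
  have hre : ∀ f, RCLike.re (L f) = Ξ (ap f 1) := by
    intro f
    rw [hL, map_sub, RCLike.ofReal_re, RCLike.mul_re, RCLike.I_re, RCLike.ofReal_im]
    ring
  have hb : ∀ f, ‖L f‖ ≤ ‖Ξ‖ * ‖f‖ := by
    intro f
    by_cases h0 : L f = 0
    · rw [h0, norm_zero]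
      positivity
    have hp : 0 < ‖L f‖ := norm_pos_iff.2 h0
    set u : 𝕜 := (starRingEnd 𝕜) (L f) / (‖L f‖ : 𝕜) with hu
    have hun : ‖u‖ = 1 := by
      rw [hu, norm_div, RCLike.norm_conj, RCLike.norm_ofReal, abs_norm, div_self hp.ne']
    have huz : u * L f = (‖L f‖ : 𝕜) := by
      have hne : (‖L f‖ : 𝕜) ≠ 0 := RCLike.ofReal_ne_zero.2 hp.ne'
      rw [hu, div_mul_eq_mul_div, div_eq_iff hne, RCLike.conj_mul]
      ring
    have h2 : RCLike.re (L (u • f)) = ‖L f‖ := by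
      rw [map_smul, smul_eq_mul, huz, RCLike.ofReal_re]
    rw [hre, ap_smul, mul_one] at h2
    calc ‖L f‖ = Ξ (ap f u) := h2.symm
      _ ≤ ‖Ξ (ap f u)‖ := le_abs_self _
      _ ≤ ‖Ξ‖ * ‖ap f u‖ := Ξ.le_opNorm _
      _ ≤ ‖Ξ‖ * (‖f‖ * ‖u‖) := mul_le_mul_of_nonneg_left (hz' f u) (norm_nonneg _)
      _ = ‖Ξ‖ * ‖f‖ := by rw [hun, mul_one]
  exact ⟨L.mkContinuous ‖Ξ‖ hb, fun f => rfl, L.mkContinuous_norm_le (norm_nonneg _) hb⟩

end Pool.Agent.Lib.MP_355270_an.CB
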