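import Pool.Agent.Lib.MP_355270_an.CB.StmB

open Filter Topology
open scoped ENNReal

namespace Pool.Agent.Lib.MP_355270_an.CB

theorem DD_card (n : ℕ) : Fintype.card (Fin n → Bool) = 2 ^ n := by
  simp

theorem DD_abs_sq {m m' : ℕ} (a g : Fin m → Bool) (b h : Fin m' → Bool) :
    (walsh a g * walsh b h) ^ 2 = 1 := by
  rw [mul_pow, walsh_sq, walsh_sq, one_mul]

theorem p_DD (h1 : S_F1) (h2 : S_signs) : S_DD := by
  intro κ
  have H1 : ∀ t : ℕ, ∃ (a : (Fin (κ + t) → Bool) → (Fin (κ + t + 2) → Bool))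
      (b : (Fin (κ + t + 1) → Bool) → (Fin (κ + t + 2) → Bool)), Function.Injective a ∧
      Function.Injective b ∧ (∀ i j, a i ≠ b j) ∧
      ∑ g : Fin (κ + t + 2) → Bool, ∑ h : Fin (κ + t + 2) → Bool,
      (∑ j, walsh (b j) g * walsh (b j) h - 2 * ∑ j, walsh (a j) g * walsh (a j) h) ^ 4 ≤
      1024 * 4 ^ (κ + t) * (2 ^ (κ + t + 2) * 2 ^ (κ + t + 2)) := by
    intro t
    obtain ⟨a, b, ha, hb, hab, hF⟩ := h1 (Fin (κ + t) → Bool) (Fin (κ + t + 1) → Bool)
      (Fin (κ + t + 2) → Bool) ((Fin (κ + t + 2) → Bool) × (Fin (κ + t + 2) → Bool))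
      (fun c x => walsh c x.1 * walsh c x.2)
      (by rw [DD_card, DD_card]; ring) (by rw [DD_card, DD_card]; ring)
      (fun c x => by rw [abs_mul, abs_walsh, abs_walsh, one_mul])
    refine ⟨a, b, ha, hb, hab, ?_⟩
    rw [Fintype.sum_prod_type] at hF
    refine hF.trans (le_of_eq ?_)
    rw [Fintype.card_prod, DD_card, DD_card]
    push_cast
    have : ((2 : ℝ) ^ (κ + t)) ^ 2 = 4 ^ (κ + t) := by
      rw [← pow_mul, mul_comm (κ + t) 2, pow_mul]; norm_num
    rw [this]
  choose a b ha hb hab hF1 using H1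
  have H2 : ∀ t : ℕ, ∃ σ : (Fin (κ + t + 1) → Bool) → Bool,
      ∑ g : Fin (κ + (t + 1) + 2) → Bool, ∑ h : Fin (κ + t + 2) → Bool,
      (∑ j : Fin (κ + t + 1) → Bool, sg (σ j) * walsh (a (t + 1) j) g * walsh (b t j) h) ^ 4
      ≤ 3 * 4 ^ (κ + t + 1) * (2 ^ (κ + (t + 1) + 2) * 2 ^ (κ + t + 2)) := by
    intro t
    obtain ⟨σ, hσ⟩ := h2 (Fin (κ + t + 1) → Bool)
      ((Fin (κ + (t + 1) + 2) → Bool) × (Fin (κ + t + 2) → Bool))
      (fun j x => walsh (a (t + 1) j) x.1 * walsh (b t j) x.2)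
    refine ⟨σ, ?_⟩
    rw [Fintype.sum_prod_type] at hσ
    refine le_trans (le_of_eq ?_) (hσ.trans (le_of_eq ?_))
    · refine Finset.sum_congr rfl fun g _ => Finset.sum_congr rfl fun h _ => ?_
      congr 1
      exact Finset.sum_congr rfl fun j _ => mul_assoc _ _ _
    · have e : ∀ x : (Fin (κ + (t + 1) + 2) → Bool) × (Fin (κ + t + 2) → Bool),
          3 * (∑ j : Fin (κ + t + 1) → Bool,
            (walsh (a (t + 1) j) x.1 * walsh (b t j) x.2) ^ 2) ^ 2 = 3 * 4 ^ (κ + t + 1) := by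
        intro x
        have e1 : ∀ j : Fin (κ + t + 1) → Bool,
            (walsh (a (t + 1) j) x.1 * walsh (b t j) x.2) ^ 2 = 1 := fun j => DD_abs_sq _ _ _ _
        rw [Finset.sum_congr rfl fun j _ => e1 j, Finset.sum_const, Finset.card_univ, DD_card,
          nsmul_eq_mul, mul_one]
        push_cast
        congr 1
        rw [← pow_mul, mul_comm (κ + t + 1) 2, pow_mul]; norm_num
      rw [Finset.sum_congr rfl fun x _ => e x, Finset.sum_const, Finset.card_univ,
        Fintype.card_prod, DD_card, DD_card, nsmul_eq_mul]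
      push_cast
      ring
  choose σ' hσ' using H2
  obtain ⟨σ0, hσ0⟩ : ∃ σ0 : (Fin κ → Bool) → Bool, ∑ i : Fin κ → Bool,
      ∑ g : Fin (κ + 0 + 2) → Bool,
      (∑ j : Fin κ → Bool, sg (σ0 j) * Sw κ i j * walsh (a 0 j) g) ^ 4 ≤
      3 * (2 ^ κ * 2 ^ (κ + 2)) := by
    obtain ⟨σ, hσ⟩ := h2 (Fin κ → Bool)
      ((Fin κ → Bool) × (Fin (κ + 0 + 2) → Bool))
      (fun j x => Sw κ x.1 j * walsh (a 0 j) x.2)
    refine ⟨σ, ?_⟩
    rw [Fintype.sum_prod_type] at hσ
    refine le_trans (le_of_eq ?_) (hσ.trans (le_of_eq ?_))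
    · refine Finset.sum_congr rfl fun g _ => Finset.sum_congr rfl fun h _ => ?_
      congr 1
      exact Finset.sum_congr rfl fun j _ => mul_assoc _ _ _
    · have e : ∀ x : (Fin κ → Bool) × (Fin (κ + 0 + 2) → Bool),
          3 * (∑ j : Fin κ → Bool, (Sw κ x.1 j * walsh (a 0 j) x.2) ^ 2) ^ 2 = (3 : ℝ) := by
        intro x
        have e1 : ∀ j : Fin κ → Bool, (Sw κ x.1 j * walsh (a 0 j) x.2) ^ 2 =
            Sw κ x.1 j * Sw κ j x.1 := by
          intro j
          rw [mul_pow, walsh_sq, mul_one, Sw_symm κ j x.1, sq]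
        have e2 : ∑ j : Fin κ → Bool, Sw κ x.1 j * Sw κ j x.1 = 1 := by
          have := congrFun (congrFun (Sw_mul_self κ) x.1) x.1
          rw [Matrix.mul_apply, Matrix.one_apply_eq] at this
          exact this
        rw [Finset.sum_congr rfl fun j _ => e1 j, e2]
        norm_num
      rw [Finset.sum_congr rfl fun x _ => e x, Finset.sum_const, Finset.card_univ,
        Fintype.card_prod, DD_card, DD_card, nsmul_eq_mul]
      push_cast
      ring
  exact ⟨{ a := a
           b := b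
           σ := fun t => match t with
             | 0 => σ0
             | t + 1 => σ' t
           ha := ha
           hb := hb
           hab := hab
           F1 := hF1
           F2 := hσ'
           F3 := hσ0 }⟩

end Pool.Agent.Lib.MP_355270_an.CB
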