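import Pool.Agent.Lib.MP_355270_an.CB.StmB

open Filter Topology
open scoped ENNReal

namespace Pool.Agent.Lib.MP_355270_an.CB

theorem davie_mono {κ : ℕ} (d : DD κ) : Monotone d.Sp := by
  intro m n hmn
  refine Submodule.span_mono ?_
  rintro x ⟨t, ht, j, rfl⟩
  exact ⟨t, ht.trans hmn, j, rfl⟩

theorem davie_fin {κ : ℕ} (d : DD κ) (n : ℕ) : FiniteDimensional ℝ (d.Sp n) := by
  have hf : {x | ∃ t, t ≤ n ∧ ∃ j, x = d.e t j}.Finite := by
    have h1 : {x | ∃ t, t ≤ n ∧ ∃ j, x = d.e t j} =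
        ⋃ t ∈ Finset.range (n + 1), Set.range (fun j => d.e t j) := by
      ext x
      simp only [Set.mem_ofPred_eq, Finset.mem_range, Set.mem_iUnion, Set.mem_range, exists_prop]
      constructor
      · rintro ⟨t, ht, j, hx⟩
        exact ⟨t, by omega, j, hx.symm⟩
      · rintro ⟨t, ht, j, hx⟩
        exact ⟨t, by omega, j, hx.symm⟩
    rw [h1]
    exact Set.Finite.biUnion (Finset.finite_toSet _) fun t _ => Set.finite_range _
  exact FiniteDimensional.span_of_finite ℝ hf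

theorem davie_mem {κ : ℕ} (d : DD κ) {x : L3 κ} (hx : x ∈ Submodule.span ℝ {x | ∃ t j, x = d.e t j}) :
    ∃ n, x ∈ d.Sp n := by
  induction hx using Submodule.span_induction with
  | mem x hx =>
    obtain ⟨t, j, rfl⟩ := hx
    exact ⟨t, Submodule.subset_span ⟨t, le_rfl, j, rfl⟩⟩
  | zero => exact ⟨0, (d.Sp 0).zero_mem⟩
  | add x y _ _ hx hy =>
    obtain ⟨m, hm⟩ := hx
    obtain ⟨n, hn⟩ := hy
    exact ⟨max m n, (d.Sp _).add_mem (davie_mono d (le_max_left m n) hm) (davie_mono d (le_max_right m n) hn)⟩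
  | smul c x _ hx =>
    obtain ⟨m, hm⟩ := hx
    exact ⟨m, (d.Sp m).smul_mem c hm⟩

theorem davie_dense {κ : ℕ} (d : DD κ) :
    Dense (⋃ j, (Submodule.comap d.V.subtype (d.Sp j) : Set d.V)) := by
  rw [Metric.dense_iff]
  intro x r hr
  have hx : (x : L3 κ) ∈ closure (Submodule.span ℝ {x | ∃ t j, x = d.e t j} : Set (L3 κ)) := x.2
  obtain ⟨y, hy, hxy⟩ := Metric.mem_closure_iff.1 hx r hr
  obtain ⟨n, hn⟩ := davie_mem d hy
  refine ⟨⟨y, Submodule.le_topologicalClosure _ hy⟩, ?_, ?_⟩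
  · rw [Metric.mem_ball, dist_comm]
    exact hxy
  · exact Set.mem_iUnion.2 ⟨n, hn⟩

theorem davie_fin' {κ : ℕ} (d : DD κ) (n : ℕ) :
    FiniteDimensional ℝ (Submodule.comap d.V.subtype (d.Sp n)) := by
  have := davie_fin d n
  let f : Submodule.comap d.V.subtype (d.Sp n) →ₗ[ℝ] d.Sp n :=
    { toFun := fun x => ⟨((x : d.V) : L3 κ), x.2⟩
      map_add' := fun x y => rfl
      map_smul' := fun c x => rfl }
  refine FiniteDimensional.of_injective f ?_
  intro x y hxy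
  have : ((x : d.V) : L3 κ) = ((y : d.V) : L3 κ) := congrArg (fun z : d.Sp n => (z : L3 κ)) hxy
  exact Subtype.ext (Subtype.ext this)

theorem p_davie (h1 : S_DD) (h2 : S_bior) (h3 : S_bessel) (h4 : S_enorm) (h5 : S_beta) (h6 : S_hS) (h7 : S_CTl3) (h8 : S_CTsub) (_h9 : S_FaFb) : S_davie := by
  intro κ
  obtain ⟨d⟩ := h1 κ
  have hc : CompleteSpace d.V := by
    unfold DD.V
    infer_instance
  refine ⟨{ V := d.V, e := fun j => d.eV 0 j, F := fun a => (d.Fa 0 a).comp d.V.subtypeL, Vs := fun n => Submodule.comap d.V.subtype (d.Sp n), mono := ?_, fin := davie_fin' d, dense := davie_dense d, hF := ?_, hF2 := ?_, he := ?_, htr := ?_, hS := ?_, hCT := ?_ }⟩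
  · intro m n hmn
    exact Submodule.comap_mono (davie_mono d hmn)
  · intro a b
    exact (h2 κ d 0).1 a b
  · intro y
    exact h3 κ d 0 (y : L3 κ)
  · intro a
    exact (h4 κ d).1 a
  · intro T hT
    exact h5 κ d T hT
  · exact h6 κ d
  · exact h8 _ 3 1 d.V (h7 (Om κ))

end Pool.Agent.Lib.MP_355270_an.CB
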