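import Pool.Agent.Lib.MP_355270_an.CB.StmB
import Pool.Agent.Lib.MP_355270_an.CB.StmR

open Filter Topology
open scoped ENNReal

namespace Pool.Agent.Lib.MP_355270_an.CB

theorem diag_HS2_mul {I : Type} [Fintype I] [DecidableEq I] {K1 : ℝ} {G : Matrix I I ℝ}
    (hG : OPle K1 G) (X : Matrix I I ℝ) : HS2 (G * X) ≤ K1 ^ 2 * HS2 X := by
  unfold HS2
  rw [Finset.sum_comm, Finset.sum_comm (f := fun a b => X a b ^ 2), Finset.mul_sum]
  refine Finset.sum_le_sum fun b _ => ?_
  exact hG (fun a => X a b)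

theorem diag_HS2_prod {I : Type} [Fintype I] (A : Matrix I I ℝ) :
    HS2 A = ∑ p : I × I, A p.1 p.2 ^ 2 := by
  unfold HS2
  rw [Fintype.sum_prod_type]

theorem diag_HS2_nonneg {I : Type} [Fintype I] (A : Matrix I I ℝ) : 0 ≤ HS2 A :=
  Finset.sum_nonneg fun _ _ => Finset.sum_nonneg fun _ _ => sq_nonneg _

theorem diag_HS2_add {I : Type} [Fintype I] (A B : Matrix I I ℝ) :
    HS2 (A + B) ≤ (Real.sqrt (HS2 A) + Real.sqrt (HS2 B)) ^ 2 := by
  have h1 := Real.sum_mul_le_sqrt_mul_sqrt (Finset.univ : Finset (I × I))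
    (fun p => A p.1 p.2) (fun p => B p.1 p.2)
  rw [← diag_HS2_prod, ← diag_HS2_prod] at h1
  have h2 : HS2 (A + B) = HS2 A + 2 * ∑ p : I × I, A p.1 p.2 * B p.1 p.2 + HS2 B := by
    rw [diag_HS2_prod, diag_HS2_prod, diag_HS2_prod, Finset.mul_sum, ← Finset.sum_add_distrib,
      ← Finset.sum_add_distrib]
    refine Finset.sum_congr rfl fun p _ => ?_
    rw [Matrix.add_apply]
    ring
  have h3 := Real.sq_sqrt (diag_HS2_nonneg A)
  have h4 := Real.sq_sqrt (diag_HS2_nonneg B)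
  rw [h2]
  nlinarith

theorem diag_HS2_add_le {I : Type} [Fintype I] (A B : Matrix I I ℝ) {x y t : ℝ} (hx : 0 ≤ x)
    (hy : 0 ≤ y) (ht : 0 ≤ t) (hA : HS2 A ≤ x ^ 2 * t) (hB : HS2 B ≤ y ^ 2 * t) :
    HS2 (A + B) ≤ (x + y) ^ 2 * t := by
  have h1 : Real.sqrt (HS2 A) ≤ x * Real.sqrt t := by
    rw [← Real.sqrt_sq hx, ← Real.sqrt_mul (sq_nonneg x)]
    exact Real.sqrt_le_sqrt hA
  have h2 : Real.sqrt (HS2 B) ≤ y * Real.sqrt t := by
    rw [← Real.sqrt_sq hy, ← Real.sqrt_mul (sq_nonneg y)]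
    exact Real.sqrt_le_sqrt hB
  refine (diag_HS2_add A B).trans ?_
  have h3 := Real.sq_sqrt ht
  have h4 : (Real.sqrt (HS2 A) + Real.sqrt (HS2 B)) ^ 2 ≤ ((x + y) * Real.sqrt t) ^ 2 := by
    refine pow_le_pow_left₀ (by positivity) ?_ 2
    nlinarith
  rw [mul_pow, h3] at h4
  exact h4

theorem diag_HS2_neg {I : Type} [Fintype I] (A : Matrix I I ℝ) : HS2 (-A) = HS2 A := by
  unfold HS2
  refine Finset.sum_congr rfl fun a _ => Finset.sum_congr rfl fun b _ => ?_
  rw [Matrix.neg_apply, neg_sq]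

/-- `Mp` and `Tp` depend only on the rows of `g` outside `J`. -/
theorem diag_dep {I : Type} [Fintype I] [DecidableEq I] {K L : ℕ} (β : Fin L → ℝ)
    (c : Codes I K L) (S : Matrix I I ℝ) (J : Finset I) (g g' : I → I → Bool)
    (h : ∀ a, a ∉ J → g a = g' a) :
    Mp β c (Gm g) S J = Mp β c (Gm g') S J ∧ Tp β c (Gm g) S J = Tp β c (Gm g') S J := by
  have h1 : ∀ q ∈ Jᶜ, ∀ b, Gm g q b = Gm g' q b := by
    intro q hq b
    unfold Gm
    rw [h q (Finset.mem_compl.1 hq)]
  constructor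
  · funext a b
    unfold Mp
    rw [Finset.sum_congr rfl fun q hq => by rw [h1 q hq b]]
  · funext a b
    unfold Tp
    rw [Finset.sum_congr rfl fun q hq => by rw [h1 q hq b]]

/-- The vector identity. -/
theorem diag_vec {I : Type} [Fintype I] [DecidableEq I] [Nonempty I] (g : I → I → Bool)
    (X T : Matrix I I ℝ) (l : ℝ) (a : I) :
    ‖∑ i, sg (g a i) • rowE (X - l • (1 : Matrix I I ℝ)) i -
        Real.sqrt (Fintype.card I) • rowE T a‖ ^ 2 =
      Fintype.card I * ∑ b, ((Gm g * X) a b - l * Gm g a b - T a b) ^ 2 := by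
  have hk : (0 : ℝ) < Fintype.card I := by exact_mod_cast Fintype.card_pos
  have hs : 0 < Real.sqrt (Fintype.card I) := Real.sqrt_pos.2 hk
  have hs2 : Real.sqrt (Fintype.card I) ^ 2 = (Fintype.card I : ℝ) := Real.sq_sqrt hk.le
  rw [EuclideanSpace.norm_sq_eq, Finset.mul_sum]
  refine Finset.sum_congr rfl fun b _ => ?_
  rw [Real.norm_eq_abs, sq_abs]
  have h1 : (∑ i, sg (g a i) • rowE (X - l • (1 : Matrix I I ℝ)) i -
      Real.sqrt (Fintype.card I) • rowE T a) b =
      ∑ i, sg (g a i) * (X i b - l * (1 : Matrix I I ℝ) i b) -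
        Real.sqrt (Fintype.card I) * T a b := by
    simp [rowE]
  have h2 : ∑ i, sg (g a i) * (X i b - l * (1 : Matrix I I ℝ) i b) =
      Real.sqrt (Fintype.card I) * ((Gm g * X) a b - l * Gm g a b) := by
    rw [Matrix.mul_apply]
    have h3 : ∀ i, sg (g a i) = Real.sqrt (Fintype.card I) * Gm g a i := by
      intro i
      unfold Gm
      field_simp
    simp_rw [h3, mul_sub, Finset.sum_sub_distrib]
    congr 1
    · rw [Finset.mul_sum]
      refine Finset.sum_congr rfl fun i _ => ?_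
      ring
    · simp [Matrix.one_apply]
      ring
  rw [h1, h2, ← mul_sub, mul_pow, hs2]

open Classical in
/-- The sets of small rows. -/
noncomputable def diag_Sm {I : Type} [Fintype I] [DecidableEq I] {K L : ℕ} (β : Fin L → ℝ)
    (c : Codes I K L) (S : Matrix I I ℝ) (d : ℕ) (e B : ℝ) (J : Finset I) (g : I → I → Bool)
    (a : I) : Finset (I → Bool) :=
  if Greedy (rowE (Mp β c (Gm g) S J - cm β (c 4) a a • (1 : Matrix I I ℝ))) d e then
    Finset.univ.filter fun r => ‖∑ i, sg (r i) •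
      rowE (Mp β c (Gm g) S J - cm β (c 4) a a • (1 : Matrix I I ℝ)) i -
        Real.sqrt (Fintype.card I) • rowE (Tp β c (Gm g) S J) a‖ ^ 2 ≤ B
  else ∅

theorem p_diag (h1 : S_far) (h2 : S_approx) (h3 : S_smallball) (h4 : S_rowcount2) (h5 : S_numeric) (h6 : S_diagJ) : S_diag := by
  classical
  intro s C K1 ε hs hs4 hC hK1 hε
  obtain ⟨c0, hc0, hc01, hfar⟩ := h1 s C K1 ε hs hs4 hC hK1 hε
  set η1 : ℝ := min (ε * c0 / 864) (ε / 256) with hη1
  have hη1pos : 0 < η1 := by
    rw [hη1]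
    exact lt_min (by positivity) (by positivity)
  have hη1a : η1 ≤ ε * c0 / 864 := min_le_left _ _
  have hη1b : η1 ≤ ε / 256 := min_le_right _ _
  set η : ℝ := η1 / ((1 + K1) ^ 2 * (2 + K1) ^ 2) with hη
  have hηpos : 0 < η := by positivity
  have hηe : (1 + K1) ^ 2 * (2 + K1) ^ 2 * η = η1 := by
    rw [hη]
    field_simp
  have hηb : (2 + K1) ^ 2 * η ≤ ε / 256 := by
    have h7 : (2 + K1) ^ 2 * η ≤ (1 + K1) ^ 2 * (2 + K1) ^ 2 * η := by
      have h8 : 1 ≤ (1 + K1) ^ 2 := by nlinarith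
      have h9 : 0 ≤ (2 + K1) ^ 2 * η := by positivity
      nlinarith
    linarith
  obtain ⟨K, L, β, hL, happ⟩ := h2 s C η hs hs4 hC hηpos
  obtain ⟨δ, hδ, hδ1, hdJ⟩ := h6 K C K1 η1 hC hK1 hη1pos
  obtain ⟨k0, hnum⟩ := h5 K L (c0 * δ / 4) (by positivity)
  refine ⟨max k0 (⌈2 / δ⌉₊), ?_⟩
  intro I _ _ _ hcard S hS
  have hk0 : k0 ≤ Fintype.card I := (le_max_left _ _).trans hcard
  have hk1 : 2 / δ ≤ (Fintype.card I : ℝ) := by
    have h7 : ⌈2 / δ⌉₊ ≤ Fintype.card I := (le_max_right _ _).trans hcard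
    exact (Nat.le_ceil _).trans (by exact_mod_cast h7)
  have hn := hnum (Fintype.card I) hk0
  have hkpos : (0 : ℝ) < Fintype.card I := by exact_mod_cast Fintype.card_pos
  set k : ℕ := Fintype.card I with hk
  set d : ℕ := ⌈c0 * k⌉₊ with hd
  have hd1 : c0 * k ≤ d := Nat.le_ceil _
  have hd2 : (d : ℝ) ≤ c0 * k + 1 := (Nat.ceil_lt_add_one (by positivity)).le
  set B : ℝ := 9 * η1 * k with hB
  set f : ℕ := ⌊δ * k⌋₊ with hf
  have hfl : δ * k / 2 ≤ (f : ℝ) := by
    have h7 : δ * k < (f : ℝ) + 1 := Nat.lt_floor_add_one _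
    have h8 : 2 ≤ δ * k := by
      rw [div_le_iff₀ hδ] at hk1
      linarith
    linarith
  -- the small sets are small
  have hXc : ((Fintype.card (I → Bool) : ℕ) : ℝ) = (2 : ℝ) ^ k := by
    rw [Fintype.card_fun, Fintype.card_bool]
    push_cast
    rfl
  have hsmall : ∀ (c : Codes I K L) (J : Finset I) (g : I → I → Bool) (a : I),
      ((diag_Sm β c S d (ε / 8) B J g a).card : ℝ) ≤
        (Fintype.card (I → Bool) : ℝ) * (2 : ℝ) ^ (-((d : ℝ) / 2)) := by
    intro c J g a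
    rw [hXc]
    unfold diag_Sm
    split_ifs with hg
    · have h7 := h3 I (EuclideanSpace ℝ I)
        (rowE (Mp β c (Gm g) S J - cm β (c 4) a a • (1 : Matrix I I ℝ))) d (ε / 8) B
        (Real.sqrt (Fintype.card I) • rowE (Tp β c (Gm g) S J) a) (by positivity) hg (by
          rw [hB]
          have h8 : 12 * (9 * η1 * k) ≤ 12 * (9 * (ε * c0 / 864) * k) := by
            have : 0 ≤ (k : ℝ) := hkpos.le
            nlinarith
          have h9 : 12 * (9 * (ε * c0 / 864) * k) = ε / 8 * (c0 * k) := by ring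
          have h10 : ε / 8 * (c0 * k) ≤ ε / 8 * d := mul_le_mul_of_nonneg_left hd1 (by positivity)
          linarith)
      rw [Nat.card_eq_fintype_card, Fintype.card_subtype] at h7
      refine h7.trans (le_of_eq ?_)
      rw [← Real.rpow_natCast, ← Real.rpow_add two_pos]
      congr 1
    · rw [Finset.card_empty, Nat.cast_zero]
      positivity
  -- dependence
  have hdep : ∀ (c : Codes I K L) (J : Finset I) (g g' : I → I → Bool),
      (∀ a, a ∉ J → g a = g' a) →
      diag_Sm β c S d (ε / 8) B J g = diag_Sm β c S d (ε / 8) B J g' := by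
    intro c J g g' hgg
    obtain ⟨h7, h8⟩ := diag_dep β c S J g g' hgg
    funext a
    unfold diag_Sm
    rw [h7, h8]
  -- the count for a fixed code and a fixed set
  set T : Codes I K L × Finset I → Finset (I → I → Bool) := fun p =>
    Finset.univ.filter fun g => p.2.card = f ∧ ∀ a ∈ p.2, g a ∈ diag_Sm β p.1 S d (ε / 8) B p.2 g a
    with hT
  set W : ℝ := ((2 : ℝ) ^ k) ^ k * (2 : ℝ) ^ (-((d : ℝ) / 2 * f)) with hW
  have hTc : ∀ p, ((T p).card : ℝ) ≤ W := by
    intro p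
    by_cases hp : p.2.card = f
    · have h7 := h4 I (I → Bool) ((d : ℝ) / 2) p.2 (diag_Sm β p.1 S d (ε / 8) B p.2)
        (by positivity) (hdep p.1 p.2) (hsmall p.1 p.2)
      rw [Nat.card_eq_fintype_card, Fintype.card_subtype, hXc, hp] at h7
      refine le_trans ?_ h7
      refine Nat.cast_le.2 (Finset.card_le_card ?_)
      intro g hg
      rw [hT, Finset.mem_filter] at hg
      rw [Finset.mem_filter]
      exact ⟨hg.1, hg.2.2⟩
    · have h7 : T p = ∅ := by
        rw [hT]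
        refine Finset.filter_eq_empty_iff.2 fun g _ hg => hp hg.1
      rw [h7, Finset.card_empty, Nat.cast_zero]
      positivity
  -- the bad matrices
  set Bad : Finset (I → I → Bool) := Finset.univ.filter fun g => OPle K1 (Gm g) ∧
    ∃ M, Bdd s C S g g M ∧ ∀ c : ℝ, ε * Fintype.card I < HS2 (M - c • (1 : Matrix I I ℝ)) with hBad
  have hsub : Bad ⊆ Finset.univ.biUnion T := by
    intro g hg
    rw [hBad, Finset.mem_filter] at hg
    obtain ⟨-, hop, M, hM, hMc⟩ := hg
    obtain ⟨c, hc, ha1, ha2⟩ := happ K1 hK1 I S g g M hS hop hM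
    have h7 : HS2 (Gm g * Mo β c (Gm g) S - Ro β c (Gm g) S) ≤ η1 * Fintype.card I := by
      have h8 : Gm g * Mo β c (Gm g) S - Ro β c (Gm g) S =
          Gm g * (-(M - Mo β c (Gm g) S)) + (Gm g * M - Ro β c (Gm g) S) := by
        rw [neg_sub, Matrix.mul_sub]
        abel
      rw [h8]
      have h9 : HS2 (Gm g * (-(M - Mo β c (Gm g) S))) ≤
          (K1 * (2 + K1)) ^ 2 * (η * Fintype.card I) := by
        refine (diag_HS2_mul hop _).trans ?_
        rw [diag_HS2_neg, mul_pow, mul_assoc (K1 ^ 2)]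
        refine mul_le_mul_of_nonneg_left ?_ (sq_nonneg _)
        rw [← mul_assoc]
        exact ha1
      have h10 : HS2 (Gm g * M - Ro β c (Gm g) S) ≤ (2 + K1) ^ 2 * (η * Fintype.card I) := by
        rw [← mul_assoc]
        exact ha2
      refine (diag_HS2_add_le _ _ (by positivity) (by positivity) (by positivity) h9 h10).trans
        (le_of_eq ?_)
      rw [← hηe]
      ring
    obtain ⟨J, hJ, hJ1, hJ2⟩ := hdJ I L β c S g hc hop h7
    rw [Finset.mem_biUnion]
    refine ⟨(c, J), Finset.mem_univ _, ?_⟩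
    rw [hT, Finset.mem_filter]
    refine ⟨Finset.mem_univ _, hJ, fun a ha => ?_⟩
    have h11 : HS2 (M - Mp β c (Gm g) S J) ≤ ε / 64 * Fintype.card I := by
      have h12 : M - Mp β c (Gm g) S J =
          (M - Mo β c (Gm g) S) + (Mo β c (Gm g) S - Mp β c (Gm g) S J) := by
        abel
      rw [h12]
      have h13 : HS2 (M - Mo β c (Gm g) S) ≤ 1 ^ 2 * (ε / 256 * Fintype.card I) := by
        refine ha1.trans ?_
        rw [one_pow, one_mul]
        exact mul_le_mul_of_nonneg_right hηb hkpos.le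
      have h14 : HS2 (Mo β c (Gm g) S - Mp β c (Gm g) S J) ≤
          1 ^ 2 * (ε / 256 * Fintype.card I) := by
        refine hJ2.trans ?_
        rw [one_pow, one_mul]
        exact mul_le_mul_of_nonneg_right hη1b hkpos.le
      refine (diag_HS2_add_le _ _ zero_le_one zero_le_one (by positivity) h13 h14).trans
        (le_of_eq ?_)
      ring
    have h15 : Greedy (rowE (Mp β c (Gm g) S J - cm β (c 4) a a • (1 : Matrix I I ℝ))) d (ε / 8) :=
      hfar I S g M (Mp β c (Gm g) S J) (cm β (c 4) a a) hS hop hM.1 ((hc 4 a).1 a) h11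
        (hMc _) d hd2
    unfold diag_Sm
    rw [if_pos h15, Finset.mem_filter]
    refine ⟨Finset.mem_univ _, ?_⟩
    rw [diag_vec, hB]
    have h16 := hJ1 a ha
    have h17 : (k : ℝ) * ∑ b, ((Gm g * Mp β c (Gm g) S J) a b - cm β (c 4) a a * Gm g a b -
        Tp β c (Gm g) S J a b) ^ 2 ≤ k * (9 * η1) := mul_le_mul_of_nonneg_left h16 hkpos.le
    linarith
  have hbad : ((Bad.card : ℕ) : ℝ) ≤ (Fintype.card (Codes I K L × Finset I) : ℝ) * W := by
    have h7 : Bad.card ≤ ∑ p, (T p).card := (Finset.card_le_card hsub).trans Finset.card_biUnion_le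
    have h8 : ((∑ p, (T p).card : ℕ) : ℝ) ≤ ∑ _p : Codes I K L × Finset I, W := by
      push_cast
      exact Finset.sum_le_sum fun p _ => hTc p
    rw [Finset.sum_const, nsmul_eq_mul, Finset.card_univ] at h8
    exact (Nat.cast_le.2 h7).trans h8
  have hcodes : (Fintype.card (Codes I K L × Finset I) : ℝ) =
      ((k * L : ℕ) : ℝ) ^ (6 * K * k) * 2 ^ k := by
    rw [Fintype.card_prod, Fintype.card_finset]
    have h7 : Fintype.card (Codes I K L) = (k * L) ^ (6 * K * k) := by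
      unfold Codes
      rw [Fintype.card_fun, Fintype.card_fun, Fintype.card_fun, Fintype.card_prod,
        Fintype.card_fin, Fintype.card_fin, Fintype.card_fin, ← pow_mul, ← pow_mul]
      congr 1
      ring
    rw [h7]
    push_cast
    rfl
  rw [Nat.card_eq_fintype_card, Fintype.card_subtype]
  have hfin : (Bad.card : ℝ) * 2 ^ k ≤ 2 ^ (k ^ 2) := by
    have h7 : (Bad.card : ℝ) * 2 ^ k ≤
        ((k * L : ℕ) : ℝ) ^ (6 * K * k) * 2 ^ k * W * 2 ^ k := by
      rw [← hcodes]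
      exact mul_le_mul_of_nonneg_right hbad (by positivity)
    refine h7.trans ?_
    have h8 : ((k * L : ℕ) : ℝ) ^ (6 * K * k) * 2 ^ k * 2 ^ k ≤
        (2 : ℝ) ^ ((d : ℝ) / 2 * f) := by
      have h9 : ((k * L : ℕ) : ℝ) ^ (6 * K * k) * 2 ^ k * 2 ^ k ≤
          ((k * L : ℕ) : ℝ) ^ (6 * K * k) * 2 ^ (4 * k) := by
        rw [mul_assoc, ← pow_add]
        refine mul_le_mul_of_nonneg_left ?_ (by positivity)
        exact pow_le_pow_right₀ (by norm_num) (by omega)
      refine h9.trans (hn.trans ?_)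
      refine Real.rpow_le_rpow_of_exponent_le (by norm_num) ?_
      have h10 : c0 * δ / 4 * (k : ℝ) ^ 2 = (c0 * k) / 2 * (δ * k / 2) := by ring
      rw [h10]
      exact mul_le_mul (by linarith) hfl (by positivity) (by positivity)
    have h9 : ((k * L : ℕ) : ℝ) ^ (6 * K * k) * 2 ^ k * W * 2 ^ k =
        ((k * L : ℕ) : ℝ) ^ (6 * K * k) * 2 ^ k * 2 ^ k * W := by ring
    rw [h9]
    have hWpos : 0 ≤ W := by positivity
    refine (mul_le_mul_of_nonneg_right h8 hWpos).trans (le_of_eq ?_)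
    rw [hW, mul_comm, mul_assoc, ← Real.rpow_add two_pos]
    rw [show -((d : ℝ) / 2 * f) + (d : ℝ) / 2 * f = 0 by ring, Real.rpow_zero, mul_one, ← pow_mul,
      sq]
  exact hfin

end Pool.Agent.Lib.MP_355270_an.CB
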