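import Pool.Agent.Lib.MP_355270_an.CB.StmB
import Pool.Agent.Lib.MP_355270_an.CB.StmR

open Filter Topology
open scoped ENNReal

namespace Pool.Agent.Lib.MP_355270_an.CB

/-- The transpose has the same operator norm. -/
theorem diagJ_tr {I : Type} [Fintype I] [DecidableEq I] {K1 : ℝ} {G : Matrix I I ℝ}
    (h : OPle K1 G) (w : I → ℝ) :
    ∑ b, (∑ q, w q * G q b) ^ 2 ≤ K1 ^ 2 * ∑ q, w q ^ 2 := by
  set z : I → ℝ := fun b => ∑ q, w q * G q b with hz
  have h1 : ∑ b, z b ^ 2 = ∑ q, w q * (G.mulVec z) q := by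
    calc ∑ b, z b ^ 2 = ∑ b, ∑ q, w q * G q b * z b := by
          refine Finset.sum_congr rfl fun b _ => ?_
          rw [sq, ← Finset.sum_mul]
      _ = ∑ q, ∑ b, w q * G q b * z b := Finset.sum_comm
      _ = ∑ q, w q * (G.mulVec z) q := by
          refine Finset.sum_congr rfl fun q _ => ?_
          simp only [Matrix.mulVec, dotProduct, Finset.mul_sum]
          refine Finset.sum_congr rfl fun b _ => ?_
          ring
  have h2 := Finset.sum_mul_sq_le_sq_mul_sq Finset.univ w (G.mulVec z)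
  rw [← h1] at h2
  have h3 := h z
  have hw : 0 ≤ ∑ q, w q ^ 2 := Finset.sum_nonneg fun _ _ => sq_nonneg _
  have hzz : 0 ≤ ∑ b, z b ^ 2 := Finset.sum_nonneg fun _ _ => sq_nonneg _
  have h4 : (∑ b, z b ^ 2) ^ 2 ≤ (∑ q, w q ^ 2) * (K1 ^ 2 * ∑ b, z b ^ 2) :=
    h2.trans (mul_le_mul_of_nonneg_left h3 hw)
  rcases hzz.eq_or_lt with h5 | h5
  · rw [← h5]
    positivity
  · refine le_of_mul_le_mul_right ?_ h5
    calc (∑ b, z b ^ 2) * ∑ b, z b ^ 2 = (∑ b, z b ^ 2) ^ 2 := by ring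
      _ ≤ (∑ q, w q ^ 2) * (K1 ^ 2 * ∑ b, z b ^ 2) := h4
      _ = K1 ^ 2 * (∑ q, w q ^ 2) * ∑ b, z b ^ 2 := by ring

/-- Markov. -/
theorem diagJ_markov {I : Type} [Fintype I] [DecidableEq I] (f : I → ℝ) (hf : ∀ a, 0 ≤ f a)
    (T : ℝ) (hT : 0 < T) (h : ∑ a, f a ≤ T * Fintype.card I) :
    4 * ((Finset.univ.filter fun a => 4 * T < f a).card : ℝ) ≤ Fintype.card I := by
  have h1 : ((Finset.univ.filter fun a => 4 * T < f a).card : ℝ) * (4 * T) ≤
      ∑ a ∈ Finset.univ.filter (fun a => 4 * T < f a), f a := by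
    rw [← nsmul_eq_mul]
    apply Finset.card_nsmul_le_sum
    intro a ha
    exact (Finset.mem_filter.1 ha).2.le
  have h2 : ∑ a ∈ Finset.univ.filter (fun a => 4 * T < f a), f a ≤ ∑ a, f a :=
    Finset.sum_le_sum_of_subset_of_nonneg (Finset.filter_subset _ _) fun a _ _ => hf a
  have h3 : (4 * ((Finset.univ.filter fun a => 4 * T < f a).card : ℝ)) * T ≤
      Fintype.card I * T := by linarith
  exact le_of_mul_le_mul_right h3 hT

theorem diagJ_sq_sub (x y : ℝ) : (x - y) ^ 2 ≤ 3 / 2 * x ^ 2 + 3 * y ^ 2 := by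
  nlinarith [sq_nonneg (x + 2 * y)]

theorem diagJ_abs_Gm {I : Type} [Fintype I] [DecidableEq I] (g : I → I → Bool) (a b : I) :
    |Gm g a b| = 1 / Real.sqrt (Fintype.card I) := by
  unfold Gm
  rw [abs_div, abs_sg, abs_of_nonneg (Real.sqrt_nonneg _)]

theorem p_diagJ (h1 : S_indep) : S_diagJ := by
  classical
  intro K C K1 η1 hC hK1 hη1
  have hK0 : (0 : ℝ) ≤ K := Nat.cast_nonneg K
  set D : ℝ := 4 * ((K + 1) * C) with hD
  have hDpos : 0 < D := by positivity
  set δ : ℝ := min (1 / (2 * (2 * K + 1))) (η1 / (K1 ^ 2 * D ^ 2)) with hδ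
  have hδpos : 0 < δ := by
    rw [hδ, lt_min_iff]
    constructor <;> positivity
  have hδ1 : δ ≤ 1 / (2 * (2 * K + 1)) := min_le_left _ _
  have hδ2 : K1 ^ 2 * (δ * D ^ 2) ≤ η1 := by
    have h2 : δ ≤ η1 / (K1 ^ 2 * D ^ 2) := min_le_right _ _
    rw [le_div_iff₀ (by positivity)] at h2
    linarith
  refine ⟨δ, hδpos, ?_, ?_⟩
  · refine hδ1.trans ?_
    rw [div_le_one (by positivity)]
    linarith
  intro I _ _ _ L β c S g hgood hop hH
  set k : ℝ := ((Fintype.card I : ℕ) : ℝ) with hk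
  have hkpos : 0 < k := by
    rw [hk]
    exact_mod_cast Fintype.card_pos
  set G := Gm g with hG
  set u := cm β (c 1) with hu
  set v := cm β (c 4) with hv
  set err : I → ℝ := fun a => ∑ b, ((G * Mo β c G S - Ro β c G S) a b) ^ 2 with herr
  set cs : I → ℝ := fun q => ∑ a, |u a q| with hcs
  have hm1 := diagJ_markov err (fun a => Finset.sum_nonneg fun _ _ => sq_nonneg _) η1 hη1 hH
  have hm2 : 4 * ((Finset.univ.filter fun q => 4 * ((K + 1) * C) < cs q).card : ℝ) ≤
      Fintype.card I := by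
    refine diagJ_markov cs (fun a => Finset.sum_nonneg fun _ _ => abs_nonneg _) ((K + 1) * C)
      (by positivity) ?_
    rw [hcs, Finset.sum_comm]
    calc ∑ a, ∑ q, |u a q| ≤ ∑ _a : I, (K : ℝ) * C :=
          Finset.sum_le_sum fun a _ => (hgood 1 a).2.1
      _ = k * (K * C) := by rw [Finset.sum_const, Finset.card_univ, nsmul_eq_mul]
      _ ≤ (K + 1) * C * k := by nlinarith
  set B1 := Finset.univ.filter fun a => 4 * η1 < err a with hB1
  set B2 := Finset.univ.filter fun q => 4 * ((K + 1) * C) < cs q with hB2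
  set A : Finset I := (B1 ∪ B2)ᶜ with hA
  have hAcard : k ≤ 2 * (A.card : ℝ) := by
    have h2 : (B1 ∪ B2).card + A.card = Fintype.card I := Finset.card_add_card_compl _
    have h3 : (B1 ∪ B2).card ≤ B1.card + B2.card := Finset.card_union_le _ _
    have h2' : ((B1 ∪ B2).card : ℝ) + A.card = k := by rw [hk]; exact_mod_cast h2
    have h3' : ((B1 ∪ B2).card : ℝ) ≤ B1.card + B2.card := by exact_mod_cast h3
    rw [← hk] at hm1 hm2
    linarith
  obtain ⟨J0, hJ0A, hJ0card, hJ0ind⟩ := h1 I (fun a => Finset.univ.filter fun q => v a q ≠ 0) K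
    (fun a => (hgood 4 a).2.2) A
  have hJ0c : δ * k ≤ J0.card := by
    have h2 : (A.card : ℝ) ≤ (2 * K + 1) * J0.card := by exact_mod_cast hJ0card
    have h3 : δ * (2 * (2 * K + 1)) ≤ 1 := by
      rwa [le_div_iff₀ (by positivity)] at hδ1
    have h4 : δ * k ≤ δ * (2 * ((2 * K + 1) * J0.card)) :=
      mul_le_mul_of_nonneg_left (by linarith) hδpos.le
    have h5 : δ * (2 * (2 * K + 1)) * J0.card ≤ 1 * J0.card :=
      mul_le_mul_of_nonneg_right h3 (Nat.cast_nonneg _)
    linarith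
  have hfl : ⌊δ * k⌋₊ ≤ J0.card := Nat.floor_le_of_le hJ0c
  obtain ⟨J, hJJ0, hJcard⟩ := Finset.exists_subset_card_eq hfl
  have hJk : (J.card : ℝ) ≤ δ * k := by
    rw [hJcard]
    exact Nat.floor_le (by positivity)
  have hJA : ∀ a ∈ J, err a ≤ 4 * η1 ∧ cs a ≤ D := by
    intro a ha
    have h2 := hJ0A (hJJ0 ha)
    rw [hA, Finset.mem_compl, Finset.mem_union, not_or] at h2
    constructor
    · by_contra h3
      exact h2.1 (Finset.mem_filter.2 ⟨Finset.mem_univ _, not_le.1 h3⟩)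
    · by_contra h3
      exact h2.2 (Finset.mem_filter.2 ⟨Finset.mem_univ _, not_le.1 h3⟩)
  -- the difference `Mo - Mp`
  have hE : ∀ a b, (Mo β c G S) a b - (Mp β c G S J) a b = ∑ q ∈ J, u a q * G q b := by
    intro a b
    have h2 : (u * G) a b = ∑ q ∈ J, u a q * G q b + ∑ q ∈ Jᶜ, u a q * G q b := by
      rw [Matrix.mul_apply, Finset.sum_add_sum_compl]
    have h3 : (Mo β c G S) a b = cm β (c 0) a b + (u * G) a b + (cm β (c 2) * S) a b := rfl
    have h4 : (Mp β c G S J) a b = cm β (c 0) a b + (cm β (c 2) * S) a b +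
      ∑ q ∈ Jᶜ, u a q * G q b := rfl
    rw [h3, h4, h2]
    ring
  have hT : ∀ a b, (Ro β c G S) a b - (Tp β c G S J) a b = ∑ q ∈ J, v a q * G q b := by
    intro a b
    have h2 : (v * G) a b = ∑ q ∈ J, v a q * G q b + ∑ q ∈ Jᶜ, v a q * G q b := by
      rw [Matrix.mul_apply, Finset.sum_add_sum_compl]
    have h3 : (Ro β c G S) a b = cm β (c 3) a b + (v * G) a b + (cm β (c 5) * S) a b := rfl
    have h4 : (Tp β c G S J) a b = cm β (c 3) a b + (cm β (c 5) * S) a b +
      ∑ q ∈ Jᶜ, v a q * G q b := rfl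
    rw [h3, h4, h2]
    ring
  have hrow : ∀ x : I → ℝ, ∑ b, (∑ q ∈ J, x q * G q b) ^ 2 ≤ K1 ^ 2 * ∑ q ∈ J, x q ^ 2 := by
    intro x
    have h2 := diagJ_tr hop (fun q => if q ∈ J then x q else 0)
    have h3 : ∀ b, ∑ q, (if q ∈ J then x q else 0) * G q b = ∑ q ∈ J, x q * G q b := by
      intro b
      simp only [ite_mul, zero_mul]
      rw [Finset.sum_ite_mem, Finset.univ_inter]
    have h4 : ∑ q, (if q ∈ J then x q else 0) ^ 2 = ∑ q ∈ J, x q ^ 2 := by
      simp only [ite_pow, ne_eq, OfNat.ofNat_ne_zero, not_false_eq_true, zero_pow]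
      rw [Finset.sum_ite_mem, Finset.univ_inter]
    rw [h4] at h2
    refine le_trans (le_of_eq ?_) h2
    refine Finset.sum_congr rfl fun b _ => ?_
    rw [h3 b]
  refine ⟨J, hJcard, ?_, ?_⟩
  · intro a ha
    -- the product `G E`
    have hGE : ∀ b, (G * Mo β c G S) a b - (G * Mp β c G S J) a b =
        ∑ q ∈ J, (∑ i, G a i * u i q) * G q b := by
      intro b
      rw [Matrix.mul_apply, Matrix.mul_apply, ← Finset.sum_sub_distrib]
      have h2 : ∀ i, G a i * (Mo β c G S) i b - G a i * (Mp β c G S J) i b =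
          ∑ q ∈ J, G a i * u i q * G q b := by
        intro i
        rw [← mul_sub, hE, Finset.mul_sum]
        refine Finset.sum_congr rfl fun q _ => ?_
        ring
      rw [Finset.sum_congr rfl fun i _ => h2 i, Finset.sum_comm]
      refine Finset.sum_congr rfl fun q _ => ?_
      rw [Finset.sum_mul]
    have hTa : ∀ b, (Ro β c G S) a b - (Tp β c G S J) a b = v a a * G a b := by
      intro b
      rw [hT, Finset.sum_eq_single a]
      · intro q hq hqa
        have h2 := hJ0ind a (hJJ0 ha) q (hJJ0 hq) (Ne.symm hqa)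
        have h3 : v a q = 0 := by
          by_contra h4
          exact h2 (Finset.mem_filter.2 ⟨Finset.mem_univ _, h4⟩)
        rw [h3, zero_mul]
      · intro h2
        exact absurd ha h2
    have hval : ∀ b, (G * Mp β c G S J) a b - v a a * G a b - (Tp β c G S J) a b =
        (G * Mo β c G S - Ro β c G S) a b - ∑ q ∈ J, (∑ i, G a i * u i q) * G q b := by
      intro b
      rw [← hGE b, ← hTa b, Matrix.sub_apply]
      ring
    have h2 : ∑ b, ((G * Mp β c G S J) a b - v a a * G a b - (Tp β c G S J) a b) ^ 2 ≤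
        3 / 2 * err a + 3 * ∑ b, (∑ q ∈ J, (∑ i, G a i * u i q) * G q b) ^ 2 := by
      rw [herr, Finset.mul_sum, Finset.mul_sum, ← Finset.sum_add_distrib]
      refine Finset.sum_le_sum fun b _ => ?_
      rw [hval b]
      exact diagJ_sq_sub _ _
    have h3 := hrow (fun q => ∑ i, G a i * u i q)
    have h4 : ∑ q ∈ J, (∑ i, G a i * u i q) ^ 2 ≤ δ * D ^ 2 := by
      have h5 : ∀ q ∈ J, (∑ i, G a i * u i q) ^ 2 ≤ D ^ 2 / k := by
        intro q hq
        have h6 : |∑ i, G a i * u i q| ≤ D / Real.sqrt k := by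
          calc |∑ i, G a i * u i q| ≤ ∑ i, |G a i * u i q| := Finset.abs_sum_le_sum_abs _ _
            _ = ∑ i, (1 / Real.sqrt k) * |u i q| := by
                refine Finset.sum_congr rfl fun i _ => ?_
                rw [abs_mul, hG, diagJ_abs_Gm]
            _ = cs q / Real.sqrt k := by
                rw [← Finset.mul_sum, hcs]
                ring
            _ ≤ D / Real.sqrt k :=
                div_le_div_of_nonneg_right (hJA q hq).2 (Real.sqrt_nonneg _)
        have h7 := pow_le_pow_left₀ (abs_nonneg _) h6 2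
        rw [sq_abs, div_pow, Real.sq_sqrt hkpos.le] at h7
        exact h7
      calc ∑ q ∈ J, (∑ i, G a i * u i q) ^ 2 ≤ ∑ _q ∈ J, D ^ 2 / k := Finset.sum_le_sum h5
        _ = J.card * (D ^ 2 / k) := by rw [Finset.sum_const, nsmul_eq_mul]
        _ ≤ δ * k * (D ^ 2 / k) := mul_le_mul_of_nonneg_right hJk (by positivity)
        _ = δ * D ^ 2 := by field_simp
    have h5 : K1 ^ 2 * ∑ q ∈ J, (∑ i, G a i * u i q) ^ 2 ≤ η1 :=
      (mul_le_mul_of_nonneg_left h4 (by positivity)).trans hδ2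
    have h6 := (hJA a ha).1
    linarith
  · unfold HS2
    calc ∑ a, ∑ b, ((Mo β c G S - Mp β c G S J) a b) ^ 2
        ≤ ∑ a, K1 ^ 2 * ∑ q ∈ J, u a q ^ 2 := by
          refine Finset.sum_le_sum fun a _ => ?_
          refine le_trans (le_of_eq ?_) (hrow (fun q => u a q))
          refine Finset.sum_congr rfl fun b _ => ?_
          rw [Matrix.sub_apply, hE]
      _ = K1 ^ 2 * ∑ q ∈ J, ∑ a, u a q ^ 2 := by
          rw [← Finset.mul_sum, Finset.sum_comm]
      _ ≤ K1 ^ 2 * ∑ _q ∈ J, D ^ 2 := by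
          refine mul_le_mul_of_nonneg_left (Finset.sum_le_sum fun q hq => ?_) (by positivity)
          have h2 : ∑ a, u a q ^ 2 ≤ (cs q) ^ 2 := by
            have h3 := Finset.sum_sq_le_sq_sum_of_nonneg (s := Finset.univ) (f := fun a => |u a q|)
              (fun a _ => abs_nonneg _)
            simpa only [sq_abs] using h3
          refine h2.trans (pow_le_pow_left₀ ?_ (hJA q hq).2 2)
          exact Finset.sum_nonneg fun _ _ => abs_nonneg _
      _ = K1 ^ 2 * (J.card * D ^ 2) := by rw [Finset.sum_const, nsmul_eq_mul]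
      _ ≤ K1 ^ 2 * (δ * k * D ^ 2) := by
          refine mul_le_mul_of_nonneg_left (mul_le_mul_of_nonneg_right hJk ?_) ?_ <;> positivity
      _ = K1 ^ 2 * (δ * D ^ 2) * k := by ring
      _ ≤ η1 * k := mul_le_mul_of_nonneg_right hδ2 hkpos.le

end Pool.Agent.Lib.MP_355270_an.CB
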