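import Pool.Agent.Lib.MP_355270_an.CB.StmB
import Pool.Agent.Lib.MP_355270_an.CB.StmR

open Filter Topology
open scoped ENNReal

namespace Pool.Agent.Lib.MP_355270_an.CB

theorem dual_coord {J : Type} [Fintype J] (s C : ℝ) (hs : 1 < s) (hC : 0 ≤ C) (c : J → ℝ)
    (h : ∀ y : J → ℝ, ∑ q, y q * c q ≤ C * (∑ q, |y q| ^ s) ^ (1 / s)) :
    ∑ q, |c q| ^ (s / (s - 1)) ≤ C ^ (s / (s - 1)) := by
  have hs1 : 0 < s - 1 := by linarith
  have hs0 : 0 < s := by linarith
  set p : ℝ := s / (s - 1) with hp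
  have hp0 : 0 < p := div_pos hs0 hs1
  have hp1 : (p - 1) * s = p := by
    rw [hp]
    field_simp
    ring
  have hps : 1 / s + 1 / p = 1 := by
    rw [hp]
    field_simp
    ring
  set T : ℝ := ∑ q, |c q| ^ p with hT
  have hT0 : 0 ≤ T := Finset.sum_nonneg fun q _ => Real.rpow_nonneg (abs_nonneg _) _
  have h1 := h (fun q => if c q = 0 then 0 else (|c q| / c q) * |c q| ^ (p - 1))
  have e1 : ∑ q, (if c q = 0 then 0 else (|c q| / c q) * |c q| ^ (p - 1)) * c q = T := by
    refine Finset.sum_congr rfl fun q _ => ?_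
    split_ifs with hq
    · rw [hq, abs_zero, Real.zero_rpow hp0.ne', zero_mul]
    · have hq' : 0 < |c q| := abs_pos.2 hq
      rw [mul_right_comm, div_mul_cancel₀ _ hq]
      nth_rewrite 1 [← Real.rpow_one |c q|]
      rw [← Real.rpow_add hq']
      congr 1
      ring
  have e2 : ∑ q, |if c q = 0 then 0 else (|c q| / c q) * |c q| ^ (p - 1)| ^ s = T := by
    refine Finset.sum_congr rfl fun q _ => ?_
    split_ifs with hq
    · rw [hq, abs_zero, Real.zero_rpow hs0.ne', Real.zero_rpow hp0.ne']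
    · have hq' : 0 < |c q| := abs_pos.2 hq
      rw [abs_mul, abs_div, abs_abs, div_self hq'.ne', one_mul,
        abs_of_nonneg (Real.rpow_nonneg (abs_nonneg _) _), ← Real.rpow_mul (abs_nonneg _), hp1]
  rw [e1, e2] at h1
  rcases hT0.eq_or_lt with h0 | h0
  · rw [← h0]
    exact Real.rpow_nonneg hC _
  · have h2 : T = T ^ (1 / p) * T ^ (1 / s) := by
      rw [← Real.rpow_add h0, add_comm, hps, Real.rpow_one]
    have h3 : T ^ (1 / p) ≤ C := by
      have h4 : T ^ (1 / p) * T ^ (1 / s) ≤ C * T ^ (1 / s) := by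
        rw [← h2]
        exact h1
      exact le_of_mul_le_mul_right h4 (Real.rpow_pos_of_pos h0 _)
    calc T = (T ^ (1 / p)) ^ p := by
          rw [← Real.rpow_mul hT0, one_div, inv_mul_cancel₀ hp0.ne', Real.rpow_one]
      _ ≤ C ^ p := Real.rpow_le_rpow (Real.rpow_nonneg hT0 _) h3 hp0.le

theorem dual_ext {J : Type} [Fintype J] {V : Type} [AddCommGroup V] [Module ℝ V] (s C : ℝ)
    (hs : 1 < s) (hC : 0 ≤ C) (Φ : V →ₗ[ℝ] (J → ℝ)) (hΦ : Function.Injective Φ) (f : V →ₗ[ℝ] ℝ)
    (hf : ∀ x, f x ≤ C * (∑ q, |Φ x q| ^ s) ^ (1 / s)) :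
    ∃ g : (J → ℝ) →ₗ[ℝ] ℝ, (∀ x, g (Φ x) = f x) ∧
      ∀ y : J → ℝ, g y ≤ C * (∑ q, |y q| ^ s) ^ (1 / s) := by
  have hs0 : 0 < s := by linarith
  let F : (J → ℝ) →ₗ.[ℝ] ℝ :=
    { domain := LinearMap.range Φ
      toFun := f ∘ₗ (LinearEquiv.ofInjective Φ hΦ).symm.toLinearMap }
  have hF : ∀ x, F ⟨Φ x, LinearMap.mem_range_self Φ x⟩ = f x := by
    intro x
    show f ((LinearEquiv.ofInjective Φ hΦ).symm ⟨Φ x, LinearMap.mem_range_self Φ x⟩) = f x
    congr 1
    rw [LinearEquiv.symm_apply_eq]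
    rfl
  obtain ⟨g, hg1, hg2⟩ := exists_extension_of_le_sublinear F
    (fun y => C * (∑ q, |y q| ^ s) ^ (1 / s)) (by
      intro c hc x
      have : ∑ q, |(c • x) q| ^ s = c ^ s * ∑ q, |x q| ^ s := by
        rw [Finset.mul_sum]
        refine Finset.sum_congr rfl fun q _ => ?_
        rw [Pi.smul_apply, smul_eq_mul, abs_mul, abs_of_pos hc,
          Real.mul_rpow hc.le (abs_nonneg _)]
      simp only [this]
      rw [Real.mul_rpow (Real.rpow_nonneg hc.le _)
        (Finset.sum_nonneg fun q _ => Real.rpow_nonneg (abs_nonneg _) _), ← Real.rpow_mul hc.le,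
        mul_one_div, div_self hs0.ne', Real.rpow_one]
      ring) (by
      intro x y
      rw [← mul_add]
      refine mul_le_mul_of_nonneg_left ?_ hC
      exact Real.Lp_add_le Finset.univ x y hs.le) (by
      rintro ⟨_, x, rfl⟩
      exact (hF x).trans_le (hf x))
  exact ⟨g, fun x => (hg1 ⟨Φ x, LinearMap.mem_range_self Φ x⟩).trans (hF x), hg2⟩

theorem p_dual : S_dual := by
  intro s C hs hC I _ _ G S φ hφ
  have hs0 : 0 < s := by linarith
  let Φ : (I → ℝ) →ₗ[ℝ] (I ⊕ (I ⊕ I) → ℝ) :=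
    { toFun := fun x => Sum.elim x (Sum.elim (G.mulVec x) (S.mulVec x))
      map_add' := by
        intro x y
        funext q
        rcases q with q | q | q
        · rfl
        · simp [Matrix.mulVec_add]
        · simp [Matrix.mulVec_add]
      map_smul' := by
        intro c x
        funext q
        rcases q with q | q | q
        · rfl
        · simp [Matrix.mulVec_smul]
        · simp [Matrix.mulVec_smul] }
  have hΦ1 : ∀ x a, Φ x (Sum.inl a) = x a := fun _ _ => rfl
  have hΦ2 : ∀ x a, Φ x (Sum.inr (Sum.inl a)) = (G.mulVec x) a := fun _ _ => rfl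
  have hΦ3 : ∀ x a, Φ x (Sum.inr (Sum.inr a)) = (S.mulVec x) a := fun _ _ => rfl
  have hinj : Function.Injective Φ := by
    intro x y hxy
    funext a
    rw [← hΦ1 x a, hxy, hΦ1]
  let f : (I → ℝ) →ₗ[ℝ] ℝ :=
    { toFun := fun x => ∑ a, φ a * x a
      map_add' := by
        intro x y
        simp [mul_add, Finset.sum_add_distrib]
      map_smul' := by
        intro c x
        simp only [Pi.smul_apply, smul_eq_mul, RingHom.id_apply, Finset.mul_sum]
        exact Finset.sum_congr rfl fun q _ => by ring }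
  have hf : ∀ x, f x = ∑ a, φ a * x a := fun _ => rfl
  have hQ : ∀ x, ∑ q, |Φ x q| ^ s = Qs s G S x := by
    intro x
    rw [Fintype.sum_sum_type, Fintype.sum_sum_type]
    simp only [hΦ1, hΦ2, hΦ3]
    unfold Qs
    ring
  have hQ0 : ∀ x, 0 ≤ Qs s G S x := by
    intro x
    rw [← hQ]
    exact Finset.sum_nonneg fun q _ => Real.rpow_nonneg (abs_nonneg _) _
  obtain ⟨g, hg1, hg2⟩ := dual_ext s C hs hC Φ hinj f (by
    intro x
    rw [hf, hQ]
    refine (le_abs_self _).trans ?_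
    have h1 := Real.rpow_le_rpow (Real.rpow_nonneg (abs_nonneg _) _) (hφ x)
      (one_div_pos.2 hs0).le
    rw [← Real.rpow_mul (abs_nonneg _), mul_one_div, div_self hs0.ne', Real.rpow_one,
      Real.mul_rpow (Real.rpow_nonneg hC _) (hQ0 x), ← Real.rpow_mul hC, mul_one_div,
      div_self hs0.ne', Real.rpow_one] at h1
    exact h1)
  have hgc : ∀ y : I ⊕ (I ⊕ I) → ℝ, g y = ∑ q, y q * g (Pi.single q 1) := by
    intro y
    rw [LinearMap.pi_apply_eq_sum_univ g y]
    refine Finset.sum_congr rfl fun q _ => ?_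
    rw [smul_eq_mul]
    congr 2
    funext r
    simp [Pi.single_apply, eq_comm]
  have hc := dual_coord s C hs hC (fun q => g (Pi.single q 1)) (by
    intro y
    rw [← hgc y]
    exact hg2 y)
  rw [Fintype.sum_sum_type, Fintype.sum_sum_type] at hc
  have n1 : ∀ c : I → ℝ, 0 ≤ ∑ a, |c a| ^ (s / (s - 1)) := fun c =>
    Finset.sum_nonneg fun q _ => Real.rpow_nonneg (abs_nonneg _) _
  have m1 := n1 (fun a => g (Pi.single (Sum.inl a) 1))
  have m2 := n1 (fun a => g (Pi.single (Sum.inr (Sum.inl a)) 1))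
  have m3 := n1 (fun a => g (Pi.single (Sum.inr (Sum.inr a)) 1))
  refine ⟨fun a => g (Pi.single (Sum.inl a) 1), fun a => g (Pi.single (Sum.inr (Sum.inl a)) 1),
    fun a => g (Pi.single (Sum.inr (Sum.inr a)) 1), ?_, by linarith, by linarith, by linarith⟩
  intro a
  have h1 := hg1 (Pi.single a 1)
  rw [hgc, Fintype.sum_sum_type, Fintype.sum_sum_type] at h1
  simp only [hΦ1, hΦ2, hΦ3, hf] at h1
  have e1 : ∑ b, φ b * (Pi.single a (1 : ℝ) : I → ℝ) b = φ a := by
    rw [Finset.sum_eq_single a]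
    · simp
    · intro b _ hb
      simp [hb]
    · intro h
      exact absurd (Finset.mem_univ _) h
  have e2 : ∑ b, (Pi.single a (1 : ℝ) : I → ℝ) b * g (Pi.single (Sum.inl b) 1) =
      g (Pi.single (Sum.inl a) 1) := by
    rw [Finset.sum_eq_single a]
    · simp
    · intro b _ hb
      simp [hb]
    · intro h
      exact absurd (Finset.mem_univ _) h
  rw [e1, e2] at h1
  rw [← h1]
  simp only [Matrix.mulVec_single_one, Matrix.col_apply]
  rw [add_assoc]
  congr 2
  · exact Finset.sum_congr rfl fun b _ => mul_comm _ _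
  · exact Finset.sum_congr rfl fun b _ => mul_comm _ _

end Pool.Agent.Lib.MP_355270_an.CB
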