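import Pool.Agent.Lib.MP_355270_an.CB.StmB

open Filter Topology
open scoped ENNReal

namespace Pool.Agent.Lib.MP_355270_an.CB

theorem evgl_ev (κ t : ℕ) (g : Fin (κ + t + 2) → Bool) (f : L3 κ) :
    ev κ t g f = nu κ t ^ (1 / 3 : ℝ) * f ⟨t, g⟩ := rfl

theorem evgl_gl (κ t : ℕ) (φ : (Fin (κ + t + 2) → Bool) → ℝ) (ω : Om κ) :
    (gl κ t φ) ω = ∑ g, (lp.single 3 (⟨t, g⟩ : Om κ) (nu κ t ^ (-(1 / 3 : ℝ)) * φ g) : L3 κ) ω := by
  unfold gl
  rw [lp.coeFn_sum, Finset.sum_apply]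

theorem p_evgl : S_evgl := by
  intro κ t t' φ
  refine ⟨fun g => ?_, fun hne g => ?_⟩
  · rw [evgl_ev, evgl_gl, Finset.sum_eq_single g]
    · rw [lp.single_apply_self, ← mul_assoc, ← Real.rpow_add (by unfold nu; positivity)]
      norm_num
    · intro g' _ hg'
      rw [lp.single_apply_ne]
      intro h
      apply hg'
      have := (Sigma.mk.inj_iff.1 h).2
      exact (eq_of_heq this).symm
    · intro h
      exact absurd (Finset.mem_univ g) h
  · rw [evgl_ev, evgl_gl, Finset.sum_eq_zero, mul_zero]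
    intro g' _
    rw [lp.single_apply_ne]
    intro h
    exact hne (Sigma.mk.inj_iff.1 h).1.symm

end Pool.Agent.Lib.MP_355270_an.CB
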