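import Pool.Agent.Lib.MP_355270_an.CB.StmB

open Filter Topology
open scoped ENNReal

namespace Pool.Agent.Lib.MP_355270_an.CB

theorem evnorm_cube (κ t : ℕ) (f : L3 κ) (g : Fin (κ + t + 2) → Bool) :
    |ev κ t g f| ^ 3 = nu κ t * |(f : ∀ _ : Om κ, ℝ) ⟨t, g⟩| ^ 3 := by
  have hnu : 0 < nu κ t := by unfold nu; positivity
  have h1 : ev κ t g f = nu κ t ^ (1 / 3 : ℝ) * (f : ∀ _ : Om κ, ℝ) ⟨t, g⟩ := rfl
  rw [h1, abs_mul, mul_pow, abs_of_pos (Real.rpow_pos_of_pos hnu _), ← Real.rpow_natCast,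
    ← Real.rpow_mul hnu.le]
  norm_num

theorem p_evnorm : S_evnorm := by
  intro κ t f
  have hnu : 0 < nu κ t := by unfold nu; positivity
  simp only [evnorm_cube]
  rw [← Finset.mul_sum, mul_div_assoc, mul_div_cancel₀ _ hnu.ne']
  have h3 : (3 : ℝ≥0∞).toReal = 3 := by norm_num
  have hinj : Function.Injective (fun g : Fin (κ + t + 2) → Bool => (⟨t, g⟩ : Om κ)) := by
    intro g g' hg
    simpa using hg
  have h := lp.sum_rpow_le_norm_rpow (p := 3) (by rw [h3]; norm_num) f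
    (Finset.univ.map ⟨fun g : Fin (κ + t + 2) → Bool => (⟨t, g⟩ : Om κ), hinj⟩)
  rw [Finset.sum_map, h3] at h
  have e : ∀ x : ℝ, x ^ (3 : ℝ) = x ^ 3 := fun x => by
    rw [← Real.rpow_natCast]
    norm_num
  rw [e] at h
  refine le_trans (le_of_eq ?_) h
  refine Finset.sum_congr rfl fun g _ => ?_
  rw [e]
  rfl

end Pool.Agent.Lib.MP_355270_an.CB
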