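import Pool.Agent.Lib.MP_355270_an.CB.StmB
import Pool.Agent.Lib.MP_355270_an.CB.StmR

open Filter Topology
open scoped ENNReal

namespace Pool.Agent.Lib.MP_355270_an.CB

/-- Pythagoras for a vector of `D` and an arbitrary vector. -/
theorem expmom_pyth {H : Type} [NormedAddCommGroup H] [InnerProductSpace ℝ H]
    (D : Submodule ℝ H) [D.HasOrthogonalProjection] (x u : H) (hx : x ∈ D) :
    ‖x - u‖ ^ 2 = ‖x - D.starProjection u‖ ^ 2 + ‖u - D.starProjection u‖ ^ 2 := by
  have h1 : x - u = (x - D.starProjection u) - (u - D.starProjection u) := by abel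
  have h2 : inner ℝ (x - D.starProjection u) (u - D.starProjection u) = 0 := by
    have h3 : x - D.starProjection u ∈ D := D.sub_mem hx (D.starProjection_apply_mem u)
    rw [real_inner_comm]
    exact D.starProjection_inner_eq_zero u _ h3
  rw [h1, @norm_sub_sq_real, h2]
  ring

/-- Of two vectors at distance at least `2 sqrt η` one is long. -/
theorem expmom_two {H : Type} [NormedAddCommGroup H] [InnerProductSpace ℝ H] (a b : H) (η : ℝ)
    (hη : 0 < η) (h : 4 * η ≤ ‖a - b‖ ^ 2) :
    Real.exp (-(2 / η) * ‖a‖ ^ 2) + Real.exp (-(2 / η) * ‖b‖ ^ 2) ≤ 1 + Real.exp (-2) := by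
  have h1 : ‖a - b‖ ≤ ‖a‖ + ‖b‖ := norm_sub_le a b
  have h2 : 4 * η ≤ (‖a‖ + ‖b‖) ^ 2 := h.trans (by gcongr)
  have h3 : η ≤ ‖a‖ ^ 2 ∨ η ≤ ‖b‖ ^ 2 := by
    by_contra hcon
    push Not at hcon
    nlinarith [sq_nonneg (‖a‖ - ‖b‖)]
  have hle : ∀ c : ℝ, η ≤ c → Real.exp (-(2 / η) * c) ≤ Real.exp (-2) := by
    intro c hc
    apply Real.exp_le_exp.2
    have h5 : (2 / η) * c ≥ (2 / η) * η := mul_le_mul_of_nonneg_left hc (by positivity)
    have h6 : (2 / η) * η = 2 := by field_simp
    linarith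
  have hle2 : ∀ c : H, Real.exp (-(2 / η) * ‖c‖ ^ 2) ≤ 1 := by
    intro c
    apply Real.exp_le_one_iff.2
    have : 0 ≤ (2 / η) * ‖c‖ ^ 2 := by positivity
    linarith
  rcases h3 with h3 | h3
  · have := hle _ h3
    have := hle2 b
    linarith
  · have := hle _ h3
    have := hle2 a
    linarith

theorem p_expmom : S_expmom := by
  intro H _ _ d
  induction d with
  | zero =>
    intro m η hη _ t
    rw [pow_zero, Fintype.sum_unique]
    apply Real.exp_le_one_iff.2
    rw [neg_mul]
    exact neg_nonpos.2 (by positivity)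
  | succ d ih =>
    intro m η hη hm t
    have hfin : ({x | ∃ l : Fin (d + 1), l < Fin.last d ∧ x = m l} : Set H).Finite :=
      (Set.finite_range m).subset (by rintro x ⟨l, -, rfl⟩; exact ⟨l, rfl⟩)
    obtain ⟨D, hD⟩ : ∃ D : Submodule ℝ H,
      D = Submodule.span ℝ {x | ∃ l : Fin (d + 1), l < Fin.last d ∧ x = m l} := ⟨_, rfl⟩
    have hDfin : FiniteDimensional ℝ D := by
      rw [hD]
      exact FiniteDimensional.span_of_finite ℝ hfin
    -- the induction hypothesis
    have hm' : ∀ j : Fin d, ∀ y ∈ Submodule.span ℝ {x | ∃ l : Fin d, l < j ∧ x = m l.castSucc},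
        η ≤ ‖m j.castSucc - y‖ ^ 2 := by
      intro j y hy
      refine hm j.castSucc y (Submodule.span_mono ?_ hy)
      rintro x ⟨l, hl, rfl⟩
      exact ⟨l.castSucc, Fin.castSucc_lt_castSucc_iff.2 hl, rfl⟩
    have ih' := ih (fun j => m j.castSucc) η hη hm'
    have hX : ∀ θ : Fin d → Bool, ∑ j, sg (θ j) • m j.castSucc ∈ D := by
      intro θ
      refine D.sum_mem fun j _ => D.smul_mem _ ?_
      rw [hD]
      exact Submodule.subset_span ⟨j.castSucc, Fin.castSucc_lt_last j, rfl⟩
    -- splitting the last sign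
    have hsplit : ∑ θ : Fin (d + 1) → Bool, Real.exp (-(2 / η) * ‖∑ j, sg (θ j) • m j - t‖ ^ 2) =
        ∑ b : Bool, ∑ θ : Fin d → Bool,
          Real.exp (-(2 / η) * ‖∑ j, sg (θ j) • m j.castSucc - (t - sg b • m (Fin.last d))‖ ^ 2) := by
      rw [← Fintype.sum_prod_type', ← (Fin.snocEquiv (fun _ : Fin (d + 1) => Bool)).sum_comp]
      refine Finset.sum_congr rfl fun p _ => ?_
      have : ∑ j, sg ((Fin.snocEquiv (fun _ : Fin (d + 1) => Bool)) p j) • m j - t =
          ∑ j, sg (p.2 j) • m j.castSucc - (t - sg p.1 • m (Fin.last d)) := by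
        rw [Fin.sum_univ_castSucc]
        simp only [Fin.snocEquiv_apply, Fin.snoc_castSucc, Fin.snoc_last]
        abel
      rw [this]
    have hb : ∀ b : Bool, ∑ θ : Fin d → Bool,
          Real.exp (-(2 / η) * ‖∑ j, sg (θ j) • m j.castSucc - (t - sg b • m (Fin.last d))‖ ^ 2) ≤
        (1 + Real.exp (-2)) ^ d * Real.exp (-(2 / η) *
          ‖(t - sg b • m (Fin.last d)) - D.starProjection (t - sg b • m (Fin.last d))‖ ^ 2) := by
      intro b
      have h1 : ∀ θ : Fin d → Bool,
          Real.exp (-(2 / η) * ‖∑ j, sg (θ j) • m j.castSucc - (t - sg b • m (Fin.last d))‖ ^ 2) =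
          Real.exp (-(2 / η) * ‖∑ j, sg (θ j) • m j.castSucc -
            D.starProjection (t - sg b • m (Fin.last d))‖ ^ 2) *
          Real.exp (-(2 / η) *
          ‖(t - sg b • m (Fin.last d)) - D.starProjection (t - sg b • m (Fin.last d))‖ ^ 2) := by
        intro θ
        rw [← Real.exp_add, expmom_pyth D _ _ (hX θ)]
        congr 1
        ring
      rw [Finset.sum_congr rfl fun θ _ => h1 θ, ← Finset.sum_mul]
      exact mul_le_mul_of_nonneg_right (ih' _) (Real.exp_pos _).le
    rw [hsplit]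
    refine (Finset.sum_le_sum fun b _ => hb b).trans ?_
    rw [← Finset.mul_sum, pow_succ]
    refine mul_le_mul_of_nonneg_left ?_ (by positivity)
    rw [Fintype.sum_bool]
    refine expmom_two _ _ η hη ?_
    have h2 : (t - sg true • m (Fin.last d)) - D.starProjection (t - sg true • m (Fin.last d)) -
        ((t - sg false • m (Fin.last d)) - D.starProjection (t - sg false • m (Fin.last d))) =
        (-2 : ℝ) • (m (Fin.last d) - D.starProjection (m (Fin.last d))) := by
      simp only [sg_true, sg_false, map_sub, map_smul]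
      module
    rw [h2, norm_smul, mul_pow]
    have h3 := hm (Fin.last d) (D.starProjection (m (Fin.last d)))
      (by rw [← hD]; exact D.starProjection_apply_mem _)
    have h4 : ‖(-2 : ℝ)‖ ^ 2 = 4 := by norm_num
    rw [h4]
    linarith

end Pool.Agent.Lib.MP_355270_an.CB
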