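import Pool.Agent.Lib.MP_355270_an.CB.StmB

open Filter Topology
open scoped ENNReal

namespace Pool.Agent.Lib.MP_355270_an.CB

private def F1_s (c : Bool) : Fin 4 := if c then 1 else 2

private theorem F1_s_ne (c : Bool) : F1_s c ≠ 0 := by
  cases c <;> decide

private theorem F1_s_inj : Function.Injective F1_s := by
  intro c c' h
  revert h
  cases c <;> cases c' <;> decide

theorem p_F1 (h1 : S_mom4) : S_F1 := by
  intro I I2 Γ X _ _ _ _ _ _ w hΓ hI2 hw
  have e1 : Fintype.card (I × Fin 4) = Fintype.card Γ := by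
    rw [Fintype.card_prod, Fintype.card_fin, hΓ]; ring
  have e2 : Fintype.card (I × Bool) = Fintype.card I2 := by
    rw [Fintype.card_prod, Fintype.card_bool, hI2]; ring
  let φ : I × Fin 4 ≃ Γ := Fintype.equivOfCardEq e1
  let ψ : I × Bool ≃ I2 := Fintype.equivOfCardEq e2
  -- the functions
  let f : X → I → Fin 4 → ℝ := fun x i u =>
    w (φ (i, u + 1)) x + w (φ (i, u + 2)) x - 2 * w (φ (i, u)) x
  have hf : ∀ x i u, |f x i u| ≤ 4 := by
    intro x i u
    have b1 := abs_le.mp (hw (φ (i, u + 1)) x)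
    have b2 := abs_le.mp (hw (φ (i, u + 2)) x)
    have b3 := abs_le.mp (hw (φ (i, u)) x)
    rw [abs_le]
    constructor
    · show -4 ≤ w (φ (i, u + 1)) x + w (φ (i, u + 2)) x - 2 * w (φ (i, u)) x
      linarith [b1.1, b2.1, b3.2]
    · show w (φ (i, u + 1)) x + w (φ (i, u + 2)) x - 2 * w (φ (i, u)) x ≤ 4
      linarith [b1.2, b2.2, b3.1]
  have hf0 : ∀ x i, ∑ u, f x i u = 0 := by
    intro x i
    have s1 : ∑ u : Fin 4, w (φ (i, u + 1)) x = ∑ u : Fin 4, w (φ (i, u)) x :=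
      Equiv.sum_comp (Equiv.addRight (1 : Fin 4)) (fun u => w (φ (i, u)) x)
    have s2 : ∑ u : Fin 4, w (φ (i, u + 2)) x = ∑ u : Fin 4, w (φ (i, u)) x :=
      Equiv.sum_comp (Equiv.addRight (2 : Fin 4)) (fun u => w (φ (i, u)) x)
    show ∑ u : Fin 4, (w (φ (i, u + 1)) x + w (φ (i, u + 2)) x - 2 * w (φ (i, u)) x) = 0
    rw [Finset.sum_sub_distrib, Finset.sum_add_distrib, s1, s2, ← Finset.mul_sum]
    ring
  -- averaging
  have havg : ∑ ρ : I → Fin 4, ∑ x, (∑ i, f x i (ρ i)) ^ 4 ≤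
      ∑ _ρ : I → Fin 4, 1024 * (Fintype.card I : ℝ) ^ 2 * (Fintype.card X : ℝ) := by
    rw [Finset.sum_comm]
    calc ∑ x, ∑ ρ : I → Fin 4, (∑ i, f x i (ρ i)) ^ 4
        ≤ ∑ _x : X, (Fintype.card (I → Fin 4) : ℝ) * (4 * (Fintype.card I : ℝ) ^ 2 * 4 ^ 4) :=
          Finset.sum_le_sum fun x _ => h1 I (Fin 4) (f x) 4 (hf x) (hf0 x)
      _ = ∑ _ρ : I → Fin 4, 1024 * (Fintype.card I : ℝ) ^ 2 * (Fintype.card X : ℝ) := by
          rw [Finset.sum_const, Finset.sum_const, Finset.card_univ, Finset.card_univ,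
            nsmul_eq_mul, nsmul_eq_mul]
          ring
  obtain ⟨ρ, -, hρ⟩ := Finset.exists_le_of_sum_le
    (Finset.univ_nonempty (α := I → Fin 4)) havg
  let a : I → Γ := fun i => φ (i, ρ i)
  let b : I2 → Γ := fun j => φ ((ψ.symm j).1, ρ (ψ.symm j).1 + F1_s (ψ.symm j).2)
  refine ⟨a, b, ?_, ?_, ?_, ?_⟩
  · intro i i' h
    have h2 := φ.injective h
    exact (Prod.mk.inj h2).1
  · intro j j' h
    have h2 := Prod.mk.inj (φ.injective h)
    obtain ⟨h3, h4⟩ := h2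
    apply ψ.symm.injective
    rw [h3] at h4
    exact Prod.ext h3 (F1_s_inj (add_left_cancel h4))
  · intro i j h
    have h2 := Prod.mk.inj (φ.injective h)
    obtain ⟨h3, h4⟩ := h2
    rw [← h3] at h4
    exact F1_s_ne _ (left_eq_add.mp h4)
  · have hsum : ∀ x, ∑ j, w (b j) x - 2 * ∑ j, w (a j) x = ∑ i, f x i (ρ i) := by
      intro x
      have s1 : ∑ j, w (b j) x = ∑ q : I × Bool, w (φ (q.1, ρ q.1 + F1_s q.2)) x :=
        Equiv.sum_comp ψ.symm (fun q : I × Bool => w (φ (q.1, ρ q.1 + F1_s q.2)) x)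
      rw [s1, Fintype.sum_prod_type, Finset.mul_sum, ← Finset.sum_sub_distrib]
      refine Finset.sum_congr rfl fun i _ => ?_
      rw [Fintype.sum_bool]
      rfl
    calc ∑ x, (∑ j, w (b j) x - 2 * ∑ j, w (a j) x) ^ 4
        = ∑ x, (∑ i, f x i (ρ i)) ^ 4 := Finset.sum_congr rfl fun x _ => by rw [hsum x]
      _ ≤ _ := hρ

end Pool.Agent.Lib.MP_355270_an.CB
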