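import Pool.Agent.Lib.MP_355270_an.CB.StmB

open Filter Topology
open scoped ENNReal

namespace Pool.Agent.Lib.MP_355270_an.CB

theorem p_FaFb (h1 : S_bior) : S_FaFb := by
  intro κ d t j f
  have hle : d.V ≤ LinearMap.ker ((d.Fa (t + 1) j - d.Fb t j : L3 κ →L[ℝ] ℝ) : L3 κ →ₗ[ℝ] ℝ) := by
    refine Submodule.topologicalClosure_minimal _ ?_ (ContinuousLinearMap.isClosed_ker _)
    rw [Submodule.span_le]
    rintro x ⟨t', j', rfl⟩
    show d.Fa (t + 1) j (d.e t' j') - d.Fb t j (d.e t' j') = 0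
    obtain ⟨a1, -, a3, -⟩ := h1 κ d (t + 1)
    obtain ⟨-, b2, -, b4⟩ := h1 κ d t
    by_cases ht : t' = t + 1
    · subst ht
      have e1 := a1 j j'
      have e2 := b2 j j'
      rw [e1, e2, sub_self]
    · rw [a3 j t' j' ht, b4 j t' j' ht, sub_self]
  have := hle f.2
  exact sub_eq_zero.mp this

end Pool.Agent.Lib.MP_355270_an.CB
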