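import Pool.Agent.Lib.MP_355270_an.CB.StmB
import Pool.Agent.Lib.MP_355270_an.CB.StmR

open Filter Topology
open scoped ENNReal

namespace Pool.Agent.Lib.MP_355270_an.CB

private theorem far_dist {H : Type} [NormedAddCommGroup H] [InnerProductSpace ℝ H]
    (D : Submodule ℝ H) [FiniteDimensional ℝ D] {r : ℕ} (b : OrthonormalBasis (Fin r) ℝ D)
    (v y : H) (hy : y ∈ D) (η : ℝ) (h : ‖v - y‖ ^ 2 < η) :
    ‖v‖ ^ 2 ≤ η + ∑ j, (inner ℝ ((b j : D) : H) v) ^ 2 := by
  set p : D := D.orthogonalProjectionOnto v with hp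
  have hpv : (p : H) = D.starProjection v := rfl
  have h0 : ∀ z ∈ D, inner ℝ (v - (p : H)) z = 0 := fun z hz => by
    rw [hpv]
    exact D.starProjection_inner_eq_zero v z hz
  have h1 : ‖v - y‖ ^ 2 = ‖v - (p : H)‖ ^ 2 + ‖(p : H) - y‖ ^ 2 := by
    have e : v - y = (v - (p : H)) + ((p : H) - y) := by abel
    rw [e, norm_add_sq_real, h0 _ (D.sub_mem p.2 hy)]
    ring
  have h2 : ‖v‖ ^ 2 = ‖v - (p : H)‖ ^ 2 + ‖(p : H)‖ ^ 2 := by
    have e : v = (v - (p : H)) + (p : H) := by abel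
    conv_lhs => rw [e, norm_add_sq_real, h0 _ p.2]
    ring
  have h3 : ‖(p : H)‖ ^ 2 = ∑ j, (inner ℝ ((b j : D) : H) v) ^ 2 := by
    have e := b.sum_sq_norm_inner_right p
    have e2 : ‖(p : H)‖ = ‖p‖ := rfl
    rw [e2, ← e]
    refine Finset.sum_congr rfl fun j _ => ?_
    rw [Submodule.inner_orthogonalProjectionOnto_eq_of_mem_left, Real.norm_eq_abs, sq_abs]
  have h4 : 0 ≤ ‖(p : H) - y‖ ^ 2 := by positivity
  rw [h2, h3]
  linarith

section

variable {I : Type} [Fintype I]

private theorem far_row (N : Matrix I I ℝ) : HS2 N = ∑ a, ‖rowE N a‖ ^ 2 := by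
  unfold HS2
  refine Finset.sum_congr rfl fun a _ => ?_
  rw [EuclideanSpace.norm_sq_eq]
  refine Finset.sum_congr rfl fun b _ => ?_
  rw [Real.norm_eq_abs, sq_abs]
  rfl

private theorem far_inner (N : Matrix I I ℝ) (f : EuclideanSpace ℝ I) (a : I) :
    inner ℝ f (rowE N a) = N.mulVec (fun i => f i) a := by
  rw [PiLp.inner_apply]
  unfold Matrix.mulVec dotProduct
  refine Finset.sum_congr rfl fun i _ => ?_
  simp [rowE]

end

theorem p_far (h1 : S_greedy) (h2 : S_mass) : S_far := by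
  intro s C K1 ε hs hs4 hC hK1 hε
  have hs0 : 0 < s := by linarith
  set A : ℝ := ε / (192 * (2 + K1 ^ 2) * C ^ 2) with hA
  have hCpos : 0 < C := by linarith
  have hApos : 0 < A := by positivity
  refine ⟨min 1 (min (A ^ (s / 2)) (ε / (64 * C ^ 2))), ?_, min_le_left _ _, ?_⟩
  · exact lt_min zero_lt_one (lt_min (Real.rpow_pos_of_pos hApos _) (by positivity))
  intro I _ _ _ S g M M' c hS hG hM hc hMM hfar d hd
  by_contra hgr
  have hk : (0 : ℝ) < Fintype.card I := by exact_mod_cast Fintype.card_pos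
  obtain ⟨D, hDfin, hDr, hDist⟩ := (h1 I (EuclideanSpace ℝ I) (rowE (M' - c • (1 : Matrix I I ℝ)))
    d (ε / 8) (by positivity)).resolve_left hgr
  set b := stdOrthonormalBasis ℝ D with hb
  set r := Module.finrank ℝ D with hr
  have hrk : (r : ℝ) ≤ min 1 (min (A ^ (s / 2)) (ε / (64 * C ^ 2))) * Fintype.card I := by
    have : (r : ℝ) + 1 ≤ d := by exact_mod_cast hDr
    linarith
  set F : Fin r → I → ℝ := fun j i => ((b j : D) : EuclideanSpace ℝ I) i with hF
  have horth : ∀ j l, ∑ a, F j a * F l a = if j = l then 1 else 0 := by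
    intro j l
    have e := orthonormal_iff_ite.mp b.orthonormal j l
    rw [← e, Submodule.coe_inner, PiLp.inner_apply]
    refine Finset.sum_congr rfl fun i _ => ?_
    simp [hF, mul_comm]
  have hmass := h2 s C K1 hs hs4 hCpos.le (by linarith) I S g M hS hG hM r F horth
  -- the three pieces
  have hX : ∑ j, ∑ a, (M.mulVec (F j) a) ^ 2 ≤ ε / 64 * Fintype.card I := by
    refine hmass.trans ?_
    have e1 : ((r : ℝ) / Fintype.card I) ^ (2 / s) ≤ A := by
      have e2 : (r : ℝ) / Fintype.card I ≤ A ^ (s / 2) := by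
        rw [div_le_iff₀ hk]
        exact hrk.trans (mul_le_mul_of_nonneg_right
          ((min_le_right _ _).trans (min_le_left _ _)) hk.le)
      calc ((r : ℝ) / Fintype.card I) ^ (2 / s) ≤ (A ^ (s / 2)) ^ (2 / s) :=
            Real.rpow_le_rpow (by positivity) e2 (by positivity)
        _ = A := by
            rw [← Real.rpow_mul hApos.le]
            have : s / 2 * (2 / s) = 1 := by field_simp
            rw [this, Real.rpow_one]
    calc 3 * (2 + K1 ^ 2) * C ^ 2 * Fintype.card I * ((r : ℝ) / Fintype.card I) ^ (2 / s)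
        ≤ 3 * (2 + K1 ^ 2) * C ^ 2 * Fintype.card I * A :=
          mul_le_mul_of_nonneg_left e1 (by positivity)
      _ = ε / 64 * Fintype.card I := by
          rw [hA]
          field_simp
          norm_num
  have hY : ∑ j, ∑ a, ((M - M').mulVec (F j) a) ^ 2 ≤ ε / 64 * Fintype.card I := by
    refine le_trans ?_ hMM
    rw [Finset.sum_comm, far_row]
    refine Finset.sum_le_sum fun a _ => ?_
    have e := Orthonormal.sum_inner_products_le (s := Finset.univ) (rowE (M - M') a)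
      (b.orthonormal.comp_linearIsometry D.subtypeₗᵢ)
    refine le_trans (le_of_eq ?_) e
    refine Finset.sum_congr rfl fun j _ => ?_
    rw [Real.norm_eq_abs, sq_abs]
    exact congrArg (fun t : ℝ => t ^ 2)
      (far_inner (M - M') ((b j : D) : EuclideanSpace ℝ I) a).symm
  have hZ : ∑ j, ∑ a, (c * F j a) ^ 2 ≤ ε / 64 * Fintype.card I := by
    have e1 : ∀ j, ∑ a, (c * F j a) ^ 2 = c ^ 2 := by
      intro j
      have e2 := horth j j
      rw [if_pos rfl] at e2
      calc ∑ a, (c * F j a) ^ 2 = c ^ 2 * ∑ a, F j a * F j a := by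
            rw [Finset.mul_sum]
            exact Finset.sum_congr rfl fun a _ => by ring
        _ = c ^ 2 := by rw [e2, mul_one]
    simp_rw [e1]
    rw [Finset.sum_const, Finset.card_univ, Fintype.card_fin, nsmul_eq_mul]
    have e3 : c ^ 2 ≤ C ^ 2 := by
      rw [← sq_abs c]
      exact pow_le_pow_left₀ (abs_nonneg _) hc 2
    have e4 : (r : ℝ) ≤ ε / (64 * C ^ 2) * Fintype.card I :=
      hrk.trans (mul_le_mul_of_nonneg_right
          ((min_le_right _ _).trans (min_le_right _ _)) hk.le)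
    calc (r : ℝ) * c ^ 2 ≤ (ε / (64 * C ^ 2) * Fintype.card I) * C ^ 2 :=
          mul_le_mul e4 e3 (sq_nonneg _) (by positivity)
      _ = ε / 64 * Fintype.card I := by
          field_simp
  set N : Matrix I I ℝ := M' - c • (1 : Matrix I I ℝ) with hN
  have hNF : ∀ j a, N.mulVec (F j) a =
      M.mulVec (F j) a - (M - M').mulVec (F j) a - c * F j a := by
    intro j a
    rw [hN, Matrix.sub_mulVec, Matrix.sub_mulVec, Matrix.smul_mulVec, Matrix.one_mulVec]
    simp only [Pi.sub_apply, Pi.smul_apply, smul_eq_mul]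
    ring
  have hW : ∑ j, ∑ a, (N.mulVec (F j) a) ^ 2 ≤ 9 * (ε / 64 * Fintype.card I) := by
    have e1 : ∀ j a, (N.mulVec (F j) a) ^ 2 ≤ 3 * (M.mulVec (F j) a) ^ 2 +
        3 * ((M - M').mulVec (F j) a) ^ 2 + 3 * (c * F j a) ^ 2 := by
      intro j a
      rw [hNF]
      nlinarith [sq_nonneg (M.mulVec (F j) a + (M - M').mulVec (F j) a),
        sq_nonneg (M.mulVec (F j) a + c * F j a),
        sq_nonneg ((M - M').mulVec (F j) a - c * F j a)]
    calc ∑ j, ∑ a, (N.mulVec (F j) a) ^ 2 ≤ ∑ j, ∑ a, (3 * (M.mulVec (F j) a) ^ 2 +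
        3 * ((M - M').mulVec (F j) a) ^ 2 + 3 * (c * F j a) ^ 2) :=
          Finset.sum_le_sum fun j _ => Finset.sum_le_sum fun a _ => e1 j a
      _ = 3 * ∑ j, ∑ a, (M.mulVec (F j) a) ^ 2 + 3 * ∑ j, ∑ a, ((M - M').mulVec (F j) a) ^ 2 +
          3 * ∑ j, ∑ a, (c * F j a) ^ 2 := by
          simp only [Finset.sum_add_distrib, Finset.mul_sum]
      _ ≤ 9 * (ε / 64 * Fintype.card I) := by linarith
  have hHS : HS2 N ≤ ε / 8 * Fintype.card I + 9 * (ε / 64 * Fintype.card I) := by
    rw [far_row]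
    have e1 : ∀ a, ‖rowE N a‖ ^ 2 ≤ ε / 8 + ∑ j, (N.mulVec (F j) a) ^ 2 := by
      intro a
      obtain ⟨y, hy, hya⟩ := hDist a
      have e := far_dist D b (rowE N a) y hy (ε / 8) hya
      refine e.trans (le_of_eq (congrArg (fun t : ℝ => ε / 8 + t) ?_))
      refine Finset.sum_congr rfl fun j _ => ?_
      rw [far_inner]
    calc ∑ a, ‖rowE N a‖ ^ 2 ≤ ∑ a, (ε / 8 + ∑ j, (N.mulVec (F j) a) ^ 2) :=
          Finset.sum_le_sum fun a _ => e1 a
      _ = ε / 8 * Fintype.card I + ∑ j, ∑ a, (N.mulVec (F j) a) ^ 2 := by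
          rw [Finset.sum_add_distrib, Finset.sum_const, Finset.card_univ, nsmul_eq_mul, mul_comm,
            Finset.sum_comm]
      _ ≤ _ := by linarith
  have hlast : HS2 (M - c • (1 : Matrix I I ℝ)) ≤ 2 * HS2 N + 2 * HS2 (M - M') := by
    unfold HS2
    rw [Finset.mul_sum, Finset.mul_sum, ← Finset.sum_add_distrib]
    refine Finset.sum_le_sum fun a _ => ?_
    rw [Finset.mul_sum, Finset.mul_sum, ← Finset.sum_add_distrib]
    refine Finset.sum_le_sum fun b _ => ?_
    have e : (M - c • (1 : Matrix I I ℝ)) a b = N a b + (M - M') a b := by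
      rw [hN]
      simp only [Matrix.sub_apply]
      ring
    rw [e]
    nlinarith [sq_nonneg (N a b - (M - M') a b)]
  have hεk : 0 < ε * Fintype.card I := by positivity
  linarith

end Pool.Agent.Lib.MP_355270_an.CB
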