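import Pool.Agent.Lib.MP_355270_an.CB.StmA

open Filter Topology

namespace Pool.Agent.Lib.MP_355270_an.CB

/-- a sequence which is constant after `M` is a finite sum of sequences `cs j u` -/
theorem AB_const {W : Type*} [NormedAddCommGroup W] (M : ℕ) : ∀ y : ℕ → W, (∀ j, M ≤ j → y j = y M) →
    JBd y (∑ j ∈ Finset.range (M + 1), ‖inc y id j‖) := by
  induction M with
  | zero =>
    intro y hy
    have e : y = cs 0 (y 0) := by
      funext j
      unfold cs
      rw [if_pos (Nat.zero_le j)]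
      exact hy j (Nat.zero_le j)
    have h := JBd.cs 0 (y 0)
    rw [← e] at h
    simpa using h
  | succ M ih =>
    intro y hy
    have h1 := ih (fun j => y (min j M)) (fun j hj => by
      simp only [min_self]
      rw [min_eq_right hj])
    have h2 := JBd.cs (M + 1) (y (M + 1) - y M)
    have e : y = (fun j => y (min j M)) + cs (M + 1) (y (M + 1) - y M) := by
      funext j
      rw [Pi.add_apply]
      unfold cs
      by_cases hj : M + 1 ≤ j
      · rw [if_pos hj, min_eq_right (by omega), hy j hj]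
        abel
      · rw [if_neg hj, min_eq_left (by omega), add_zero]
    rw [e]
    refine (h1.add h2).mono (le_of_eq ?_)
    rw [← e, Finset.sum_range_succ _ (M + 1)]
    congr 1
    refine Finset.sum_congr rfl fun j hj => ?_
    rw [Finset.mem_range] at hj
    cases j with
    | zero => simp
    | succ j =>
      simp only [inc_succ, id]
      rw [min_eq_left (by omega), min_eq_left (by omega)]

theorem AB_fr {𝕜 : Type} [RCLike 𝕜] {X Y : Type*} [NormedAddCommGroup X] [NormedSpace 𝕜 X]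
    [NormedAddCommGroup Y] [NormedSpace 𝕜 Y] {S T : X →L[𝕜] Y} (hS : FR S) (hT : FR T) : FR (S + T) := by
  unfold FR at *
  have h : (S + T).toLinearMap.range ≤ S.toLinearMap.range ⊔ T.toLinearMap.range := by
    rintro _ ⟨x, rfl⟩
    exact Submodule.add_mem_sup ⟨x, rfl⟩ ⟨x, rfl⟩
  exact Submodule.finiteDimensional_of_le h

theorem p_AB : S_AB := by
  intro hT1 hT2 hdX hTV 𝕜 _ W _ _ V D h G C hGC hGV hGm hDG hGt
  choose m0 hm0 using hGm
  set m : ℕ → ℕ := fun i => max (m0 i) i with hm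
  have hGm' : ∀ i x, G i x ∈ V (m i) := fun i x => h.mono (le_max_left _ _) (hm0 i x)
  choose T1 f1 f2 f3 f4 using fun i => hT1 𝕜 W V D h (m i)
  choose T2 g1 g2 g3 g4 using fun i => hT2 𝕜 W V D h (m i) (G i) (hGV i) (hGm' i) (hDG i)
  have hC0 : 0 ≤ C := (norm_nonneg _).trans (hGC 0)
  have hbd : ∀ i, ‖T1 i + T2 i‖ ≤ ‖D‖ + 1 + C := fun i =>
    ((T1 i).opNorm_add_le (T2 i)).trans (add_le_add (f2 i) ((g2 i).trans (hGC i)))
  refine ⟨fun i => T1 i + T2 i, fun i => AB_fr (f1 i) (g1 i), ?_⟩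
  -- the error operators
  set E : ℕ → W →L[𝕜] W := fun i => D + G i - ContinuousLinearMap.id 𝕜 W with hE
  have hE0 : ∀ u : W, Tendsto (fun i => ‖E i u‖) atTop (𝓝 0) := by
    intro u
    have h1 : Tendsto (fun i => D u + G i u - u) atTop (𝓝 (D u + (u - D u) - u)) :=
      ((hGt u).const_add (D u)).sub_const u
    have h2 : D u + (u - D u) - u = 0 := by abel
    rw [h2] at h1
    have h3 := h1.norm
    rw [norm_zero] at h3
    exact h3
  -- convergence on the dense set
  have hdense : ∀ x : XS V D, (∃ M, x.1.2 ∈ V M ∧ ∀ j, M ≤ j → x.1.1.val j = D x.1.2) →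
      Tendsto (fun i => ‖(T1 i + T2 i) x - x‖) atTop (𝓝 0) := by
    rintro x ⟨M, hM1, hM2⟩
    have hsum : Tendsto (fun i => (∑ j ∈ Finset.range (M + 1), ‖E i (inc x.1.1.val id j)‖) + ‖E i x.1.2‖)
        atTop (𝓝 ((∑ j ∈ Finset.range (M + 1), (0 : ℝ)) + 0)) :=
      (tendsto_finsetSum _ fun j _ => hE0 _).add (hE0 _)
    rw [Finset.sum_const_zero, add_zero] at hsum
    refine squeeze_zero' (Eventually.of_forall fun i => norm_nonneg _) ?_ hsum
    filter_upwards [eventually_ge_atTop M] with i hi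
    have hmi : M ≤ m i := hi.trans (le_max_right _ _)
    have e1 : ∀ j, ((T1 i + T2 i) x - x).1.1.val j = E i (x.1.1.val j) := by
      intro j
      have a1 : ((T1 i + T2 i) x - x).1.1.val j =
          (T1 i x).1.1.val j + (T2 i x).1.1.val j - x.1.1.val j := rfl
      rw [a1, f3, g3]
      have a2 : E i (x.1.1.val j) = D (x.1.1.val j) + G i (x.1.1.val j) - x.1.1.val j := rfl
      rw [a2]
      by_cases hj : j ≤ m i
      · rw [if_pos hj, min_eq_left hj]
      · rw [if_neg hj, min_eq_right (by omega), hM2 j (by omega), hM2 (m i) hmi]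
    have e2 : ((T1 i + T2 i) x - x).1.2 = E i x.1.2 := by
      have a1 : ((T1 i + T2 i) x - x).1.2 = (T1 i x).1.2 + (T2 i x).1.2 - x.1.2 := rfl
      rw [a1, f4, g4, hM2 (m i) hmi]
      rfl
    have e3 : ‖((T1 i + T2 i) x - x).1.1‖ ≤ ∑ j ∈ Finset.range (M + 1), ‖E i (inc x.1.1.val id j)‖ := by
      refine JS.norm_le_of_jbd ?_
      have hc := AB_const M (((T1 i + T2 i) x - x).1.1.val) (fun j hj => by
        rw [e1, e1, hM2 j hj, hM2 M le_rfl])
      refine hc.mono (le_of_eq ?_)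
      refine Finset.sum_congr rfl fun j _ => ?_
      cases j with
      | zero => rw [inc_zero, inc_zero, e1]
      | succ j => rw [inc_succ, inc_succ, e1, e1, map_sub]
    have e4 : ‖((T1 i + T2 i) x - x).1.2‖ ≤ ‖E i x.1.2‖ := by rw [e2]
    have n0 : 0 ≤ ∑ j ∈ Finset.range (M + 1), ‖E i (inc x.1.1.val id j)‖ :=
      Finset.sum_nonneg fun _ _ => norm_nonneg _
    have n1 : ‖(T1 i + T2 i) x - x‖ =
        max ‖((T1 i + T2 i) x - x).1.1‖ ‖((T1 i + T2 i) x - x).1.2‖ := rfl
    rw [n1]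
    refine max_le ?_ ?_
    · linarith [norm_nonneg (E i x.1.2)]
    · linarith
  have hD := hdX hTV 𝕜 W V D h
  intro x
  rw [tendsto_iff_norm_sub_tendsto_zero, Metric.tendsto_atTop]
  intro ε hε
  set K := ‖D‖ + 1 + C + 1 with hK
  have hK0 : 0 < K := by positivity
  obtain ⟨y, hy, hxy⟩ := Metric.dense_iff.1 hD x (ε / (2 * K)) (by positivity)
  obtain ⟨N, hN⟩ := Metric.tendsto_atTop.1 (hdense y hxy) (ε / 2) (by positivity)
  refine ⟨N, fun i hi => ?_⟩
  have h1 := hN i hi
  rw [Real.dist_eq, sub_zero, abs_norm] at h1 ⊢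
  rw [Metric.mem_ball, dist_comm, dist_eq_norm] at hy
  have e : (T1 i + T2 i) x - x = (T1 i + T2 i) (x - y) + ((T1 i + T2 i) y - y) - (x - y) := by
    rw [map_sub]
    abel
  rw [e]
  have b1 := norm_sub_le ((T1 i + T2 i) (x - y) + ((T1 i + T2 i) y - y)) (x - y)
  have b2 := norm_add_le ((T1 i + T2 i) (x - y)) ((T1 i + T2 i) y - y)
  have b3 : ‖(T1 i + T2 i) (x - y)‖ ≤ (‖D‖ + 1 + C) * ‖x - y‖ := by
    refine ((T1 i + T2 i).le_opNorm _).trans ?_
    exact mul_le_mul_of_nonneg_right (hbd i) (norm_nonneg _)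
  have b4 : K * ‖x - y‖ < ε / 2 := by
    calc K * ‖x - y‖ < K * (ε / (2 * K)) := mul_lt_mul_of_pos_left hy hK0
      _ = ε / 2 := by field_simp
  have b5 : K * ‖x - y‖ = (‖D‖ + 1 + C) * ‖x - y‖ + ‖x - y‖ := by rw [hK]; ring
  linarith

end Pool.Agent.Lib.MP_355270_an.CB
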