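import Pool.Agent.Lib.MP_355270_an.CB.StmA

open Filter Topology

namespace Pool.Agent.Lib.MP_355270_an.CB

theorem arith_frac {𝕜 : Type} [RCLike 𝕜] {n N : ℕ} (h : n ≤ N) :
    ‖((n : 𝕜) / (N : 𝕜))‖ ≤ 1 := by
  rw [norm_div, RCLike.norm_natCast, RCLike.norm_natCast]
  exact div_le_one_of_le₀ (by exact_mod_cast h) (Nat.cast_nonneg _)

theorem p_arith : S_arith := by
  intro 𝕜 _ N β t hN h1 h2 h3 h4
  have hN0 : (N : 𝕜) ≠ 0 := by
    rw [Nat.cast_ne_zero]
    omega
  have key : ∀ k, k ≤ N → 3 / 4 ≤ ‖β (N - k)‖ := by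
    intro k
    induction k with
    | zero =>
      intro _
      rw [Nat.sub_zero]
      have h5 := h1 N le_rfl
      rw [div_self hN0, one_mul] at h5
      have h6 : β N = 1 - t N := eq_sub_of_add_eq h5
      rw [h6]
      have h7 := norm_sub_norm_le (1 : 𝕜) (t N)
      rw [norm_one] at h7
      linarith
    | succ k ih =>
      intro hk
      have h5 := ih (by omega)
      obtain ⟨n, hn⟩ : ∃ n, n = N - (k + 1) := ⟨_, rfl⟩
      have hn1 : N - k = n + 1 := by omega
      rw [hn1] at h5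
      rw [← hn]
      have hnN : n < N := by omega
      have h6 := h4 n hnN
      have h7 : ‖β (n + 1)‖ - ‖β n‖ ≤ ‖β n - β (n + 1)‖ := by
        rw [norm_sub_rev]
        exact norm_sub_norm_le _ _
      have h8 : 1 / 2 ≤ ‖β n‖ := by linarith
      have h9 := h3 n hnN.le
      rw [norm_mul] at h9
      have h10 : ‖t n‖ ≤ 1 / 8 := by
        nlinarith [norm_nonneg (t n)]
      have h11 : (n : 𝕜) / (N : 𝕜) * β n = 1 - t n := eq_sub_of_add_eq (h1 n hnN.le)
      have h12 : 7 / 8 ≤ ‖(n : 𝕜) / (N : 𝕜) * β n‖ := by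
        rw [h11]
        have h7 := norm_sub_norm_le (1 : 𝕜) (t n)
        rw [norm_one] at h7
        linarith
      have h13 : ‖(n : 𝕜) / (N : 𝕜) * β n‖ ≤ ‖β n‖ := by
        rw [norm_mul]
        exact mul_le_of_le_one_left (norm_nonneg _) (arith_frac hnN.le)
      linarith
  have h5 := key N le_rfl
  rw [Nat.sub_self] at h5
  have h6 := h1 0 (Nat.zero_le _)
  rw [Nat.cast_zero, zero_div, zero_mul, zero_add] at h6
  have h7 := h3 0 (Nat.zero_le _)
  rw [h6, one_mul] at h7
  linarith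

end Pool.Agent.Lib.MP_355270_an.CB
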