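import Pool.Agent.Lib.MP_355270_an.CB.StmA

open Filter Topology

namespace Pool.Agent.Lib.MP_355270_an.CB

private theorem blocks_sq {W : Type*} [NormedAddCommGroup W] (s : Finset ℕ) (w : ℕ → W)
    (T : Finset ℕ) (hT : T ⊆ s) (hcard : T.card ≤ 2) (h0 : ∀ i ∈ s, i ∉ T → w i = 0) :
    ‖∑ i ∈ s, w i‖ ^ 2 ≤ 2 * ∑ i ∈ s, ‖w i‖ ^ 2 := by
  have h1 : ∑ i ∈ s, w i = ∑ i ∈ T, w i := (Finset.sum_subset hT h0).symm
  have h2 : ∑ i ∈ T, ‖w i‖ ^ 2 ≤ ∑ i ∈ s, ‖w i‖ ^ 2 :=
    Finset.sum_le_sum_of_subset_of_nonneg hT fun i _ _ => by positivity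
  have h3 : (∑ i ∈ T, ‖w i‖) ^ 2 ≤ (T.card : ℝ) * ∑ i ∈ T, ‖w i‖ ^ 2 :=
    sq_sum_le_card_mul_sum_sq
  have h4 : ‖∑ i ∈ T, w i‖ ^ 2 ≤ (∑ i ∈ T, ‖w i‖) ^ 2 :=
    pow_le_pow_left₀ (norm_nonneg _) (norm_sum_le _ _) 2
  have h5 : (T.card : ℝ) ≤ 2 := by exact_mod_cast hcard
  have h6 : 0 ≤ ∑ i ∈ T, ‖w i‖ ^ 2 := Finset.sum_nonneg fun i _ => by positivity
  rw [h1]
  calc ‖∑ i ∈ T, w i‖ ^ 2 ≤ (∑ i ∈ T, ‖w i‖) ^ 2 := h4
    _ ≤ (T.card : ℝ) * ∑ i ∈ T, ‖w i‖ ^ 2 := h3
    _ ≤ 2 * ∑ i ∈ T, ‖w i‖ ^ 2 := mul_le_mul_of_nonneg_right h5 h6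
    _ ≤ 2 * ∑ i ∈ s, ‖w i‖ ^ 2 := by linarith

theorem p_blocks : S_blocks := by
  classical
  intro 𝕜 _ W _ _ V r u a b hab hba hu hn
  have ha : StrictMono a := strictMono_nat_of_lt_succ fun i => (hab i).trans_lt (hba i)
  have huniq : ∀ i j p, (u i).val p ≠ 0 → (u j).val p ≠ 0 → i = j := by
    have key : ∀ i j p, i < j → (u i).val p ≠ 0 → (u j).val p ≠ 0 → False := by
      intro i j p hij hi hj
      have h1 : p ≤ b i := by
        by_contra hc
        exact hi (hu i p (Or.inr (not_le.mp hc)))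
      have h2 : a j ≤ p := by
        by_contra hc
        exact hj (hu j p (Or.inl (not_le.mp hc)))
      have h3 : a (i + 1) ≤ a j := ha.monotone hij
      have h4 := hba i
      omega
    intro i j p hi hj
    rcases lt_trichotomy i j with h | h | h
    · exact (key i j p h hi hj).elim
    · exact h
    · exact (key j i p h hj hi).elim
  have hval : ∀ j, (∑ i ∈ Finset.range r, u i).val j = ∑ i ∈ Finset.range r, (u i).val j := by
    intro j
    have := map_sum (JS.coord V j) u (Finset.range r)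
    simpa only [JS.coord_apply] using this
  have hinc : ∀ (k : ℕ → ℕ) (l : ℕ), inc (∑ i ∈ Finset.range r, u i).val k l
      = ∑ i ∈ Finset.range r, inc (u i).val k l := by
    intro k l
    cases l with
    | zero => simp only [inc_zero, hval]
    | succ l => simp only [inc_succ, hval, Finset.sum_sub_distrib]
  have hC : (0 : ℝ) ≤ 2 * r := by positivity
  have hle : ‖∑ i ∈ Finset.range r, u i‖ ≤ Real.sqrt (2 * r) := by
    rw [JS.norm_le_iff _ (Real.sqrt_nonneg _)]
    intro R k hk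
    rw [Real.sq_sqrt hC]
    have h1 : ∀ l, ‖inc (∑ i ∈ Finset.range r, u i).val k l‖ ^ 2
        ≤ 2 * ∑ i ∈ Finset.range r, ‖inc (u i).val k l‖ ^ 2 := by
      intro l
      rw [hinc]
      have hsub : ∀ p, ((Finset.range r).filter fun i => (u i).val p ≠ 0).card ≤ 1 := by
        intro p
        rw [Finset.card_le_one]
        intro x hx y hy
        rw [Finset.mem_filter] at hx hy
        exact huniq x y p hx.2 hy.2
      cases l with
      | zero =>
        refine blocks_sq _ _ ((Finset.range r).filter fun i => (u i).val (k 0) ≠ 0)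
          (Finset.filter_subset _ _) ((hsub _).trans one_le_two) ?_
        intro i hi hiT
        rw [Finset.mem_filter, not_and, not_not] at hiT
        rw [inc_zero]
        exact hiT hi
      | succ l =>
        refine blocks_sq _ _ (((Finset.range r).filter fun i => (u i).val (k l) ≠ 0) ∪
          ((Finset.range r).filter fun i => (u i).val (k (l + 1)) ≠ 0))
          (Finset.union_subset (Finset.filter_subset _ _) (Finset.filter_subset _ _))
          ((Finset.card_union_le _ _).trans (add_le_add (hsub _) (hsub _))) ?_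
        intro i hi hiT
        rw [Finset.mem_union, not_or, Finset.mem_filter, Finset.mem_filter, not_and, not_not,
          not_and, not_not] at hiT
        rw [inc_succ, hiT.1 hi, hiT.2 hi, sub_zero]
    unfold pv
    calc ∑ l ∈ Finset.range (R + 1), ‖inc (∑ i ∈ Finset.range r, u i).val k l‖ ^ 2
        ≤ ∑ l ∈ Finset.range (R + 1), 2 * ∑ i ∈ Finset.range r, ‖inc (u i).val k l‖ ^ 2 :=
          Finset.sum_le_sum fun l _ => h1 l
      _ = 2 * ∑ i ∈ Finset.range r, pv (u i).val R k := by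
          rw [← Finset.mul_sum, Finset.sum_comm]
          rfl
      _ ≤ 2 * ∑ i ∈ Finset.range r, (1 : ℝ) := by
          refine mul_le_mul_of_nonneg_left (Finset.sum_le_sum fun i _ => ?_) (by norm_num)
          refine ((u i).pv_le R k hk).trans ?_
          exact pow_le_one₀ (norm_nonneg _) (hn i)
      _ = 2 * r := by simp
  calc ‖∑ i ∈ Finset.range r, u i‖ ^ 2 ≤ Real.sqrt (2 * r) ^ 2 :=
        pow_le_pow_left₀ (norm_nonneg _) hle 2
    _ = 2 * r := Real.sq_sqrt hC

end Pool.Agent.Lib.MP_355270_an.CB
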