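import Pool.Agent.Lib.MP_355270_an.CB.StmA

open Filter Topology

namespace Pool.Agent.Lib.MP_355270_an.CB

theorem p_closed : S_closed := by
  intro 𝕜 _ W _ _ V D
  refine isClosed_of_closure_subset fun x hx => ?_
  show Tendsto x.1.val atTop (𝓝 (D x.2))
  rw [Metric.mem_closure_iff] at hx
  rw [Metric.tendsto_atTop]
  intro ε hε
  have hD : 0 < 1 + ‖D‖ := by positivity
  obtain ⟨y, hy, hxy⟩ := hx (ε / (3 * (1 + ‖D‖))) (by positivity)
  have hy' : Tendsto y.1.val atTop (𝓝 (D y.2)) := hy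
  rw [Metric.tendsto_atTop] at hy'
  obtain ⟨N, hN⟩ := hy' (ε / 3) (by positivity)
  refine ⟨N, fun j hj => ?_⟩
  have h1 : dist (x.1.val j) (y.1.val j) ≤ dist x y := by
    rw [dist_eq_norm, dist_eq_norm]
    calc ‖x.1.val j - y.1.val j‖ = ‖(x.1 - y.1).val j‖ := rfl
      _ ≤ ‖x.1 - y.1‖ := (x.1 - y.1).norm_val_le j
      _ ≤ ‖x - y‖ := norm_fst_le (x - y)
  have h2 : dist (D y.2) (D x.2) ≤ ‖D‖ * dist x y := by
    rw [dist_eq_norm, dist_eq_norm, ← map_sub]
    refine (D.le_opNorm _).trans (mul_le_mul_of_nonneg_left ?_ (norm_nonneg _))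
    rw [norm_sub_rev]
    exact norm_snd_le (x - y)
  have h3 := hN j hj
  have h4 : dist (x.1.val j) (D x.2) ≤
      dist (x.1.val j) (y.1.val j) + dist (y.1.val j) (D y.2) + dist (D y.2) (D x.2) :=
    dist_triangle4 _ _ _ _
  have h5 : (1 + ‖D‖) * dist x y < ε / 3 := by
    have h6 := mul_lt_mul_of_pos_left hxy hD
    have h7 : (1 + ‖D‖) * (ε / (3 * (1 + ‖D‖))) = ε / 3 := by
      field_simp
    rwa [h7] at h6
  nlinarith

end Pool.Agent.Lib.MP_355270_an.CB
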