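import Pool.Agent.Lib.MP_355270_an.CB.StmA

open Filter Topology

namespace Pool.Agent.Lib.MP_355270_an.CB

theorem complete_inc {W : Type} [NormedAddCommGroup W] {y : ℕ → ℕ → W} {z : ℕ → W}
    (h : ∀ j, Tendsto (fun n => y n j) atTop (𝓝 (z j))) (k : ℕ → ℕ) (i : ℕ) :
    Tendsto (fun n => inc (y n) k i) atTop (𝓝 (inc z k i)) := by
  cases i with
  | zero => exact h (k 0)
  | succ i => exact (h (k (i + 1))).sub (h (k i))

theorem complete_pv {W : Type} [NormedAddCommGroup W] {y : ℕ → ℕ → W} {z : ℕ → W}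
    (h : ∀ j, Tendsto (fun n => y n j) atTop (𝓝 (z j))) (r : ℕ) (k : ℕ → ℕ) :
    Tendsto (fun n => pv (y n) r k) atTop (𝓝 (pv z r k)) := by
  unfold pv
  refine tendsto_finsetSum _ fun i _ => ?_
  exact ((complete_inc h k i).norm).pow 2

theorem p_complete : S_complete := by
  intro 𝕜 _ W _ _ _ V hV
  refine Metric.complete_of_cauchySeq_tendsto fun x hx => ?_
  have hx' : ∀ ε > 0, ∃ N, ∀ m ≥ N, ∀ n ≥ N, ‖x m - x n‖ < ε := by
    intro ε hε
    obtain ⟨N, hN⟩ := Metric.cauchySeq_iff.1 hx ε hε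
    refine ⟨N, fun m hm n hn => ?_⟩
    rw [← dist_eq_norm]
    exact hN m hm n hn
  have hcj : ∀ j, CauchySeq (fun n => (x n).val j) := by
    intro j
    rw [Metric.cauchySeq_iff]
    intro ε hε
    obtain ⟨N, hN⟩ := hx' ε hε
    refine ⟨N, fun m hm n hn => ?_⟩
    rw [dist_eq_norm]
    exact lt_of_le_of_lt (JS.norm_val_le (x m - x n) j) (hN m hm n hn)
  choose z hz using fun j => cauchySeq_tendsto_of_complete (hcj j)
  have hzV : ∀ j, z j ∈ V j := by
    intro j
    have := hV j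
    exact (V j).closed_of_finiteDimensional.mem_of_tendsto (hz j)
      (Eventually.of_forall fun n => (x n).mem j)
  have key : ∀ ε > 0, ∃ N, ∀ n ≥ N, JBd (z - (x n).val) ε := by
    intro ε hε
    obtain ⟨N, hN⟩ := hx' ε hε
    refine ⟨N, fun n hn => ⟨hε.le, fun r k hk => ?_⟩⟩
    have h1 : ∀ j, Tendsto (fun m => ((x m).val - (x n).val) j) atTop
        (𝓝 ((z - (x n).val) j)) := fun j => (hz j).sub tendsto_const_nhds
    refine le_of_tendsto (complete_pv h1 r k) ?_
    filter_upwards [eventually_ge_atTop N] with m hm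
    have h2 := JS.pv_le (x m - x n) r k hk
    have h3 := hN m hm n hn
    refine h2.trans (pow_le_pow_left₀ (norm_nonneg _) h3.le 2)
  obtain ⟨N, hN⟩ := key 1 one_pos
  have hzb : JBd z (‖x N‖ + 1) := by
    have h1 := (x N).jbd.add (hN N le_rfl)
    have e : (x N).val + (z - (x N).val) = z := by abel
    rwa [e] at h1
  refine ⟨JS.mk z hzV ⟨_, hzb⟩, ?_⟩
  rw [Metric.tendsto_atTop]
  intro ε hε
  obtain ⟨N', hN'⟩ := key (ε / 2) (half_pos hε)
  refine ⟨N', fun n hn => ?_⟩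
  rw [dist_comm, dist_eq_norm]
  refine lt_of_le_of_lt (JS.norm_le_of_jbd (C := ε / 2) ?_) (half_lt_self hε)
  exact hN' n hn

end Pool.Agent.Lib.MP_355270_an.CB
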