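import Pool.Agent.Lib.MP_355270_an.CB.StmA

open Filter Topology

namespace Pool.Agent.Lib.MP_355270_an.CB

theorem p_completeX : S_completeX := by
  intro hc hcl 𝕜 _ W _ _ _ V D hV
  have : CompleteSpace (JS V) := hc 𝕜 W V hV
  exact (hcl 𝕜 W V D).completeSpace_coe

end Pool.Agent.Lib.MP_355270_an.CB
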