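import Pool.Agent.Lib.MP_355270_an.CB.StmA

open Filter Topology

namespace Pool.Agent.Lib.MP_355270_an.CB

section core

variable {𝕜 : Type} [RCLike 𝕜] {W : Type} [NormedAddCommGroup W] [NormedSpace 𝕜 W]
variable {ι : Type} [Fintype ι]

theorem core_av_norm_le [Nonempty ι] (Ξ : ι → W →L[𝕜] 𝕜) (hΞ : ∀ a, ‖Ξ a‖ ≤ 1) (x : ι → W)
    (c : ℝ) (hx : ∀ a, ‖x a‖ ≤ c) : ‖av Ξ x‖ ≤ c := by
  unfold av
  have hcard : (0 : ℝ) < (Fintype.card ι : ℝ) := by exact_mod_cast Fintype.card_pos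
  have h1 : ‖∑ a, Ξ a (x a)‖ ≤ (Fintype.card ι : ℝ) * c := by
    refine (norm_sum_le _ _).trans ?_
    calc ∑ a, ‖Ξ a (x a)‖ ≤ ∑ _a : ι, c := by
          refine Finset.sum_le_sum fun a _ => ?_
          calc ‖Ξ a (x a)‖ ≤ ‖Ξ a‖ * ‖x a‖ := (Ξ a).le_opNorm _
            _ ≤ 1 * ‖x a‖ := mul_le_mul_of_nonneg_right (hΞ a) (norm_nonneg _)
            _ ≤ c := by rw [one_mul]; exact hx a
      _ = (Fintype.card ι : ℝ) * c := by
          rw [Finset.sum_const, nsmul_eq_mul, Finset.card_univ]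
  rw [norm_mul, norm_inv, RCLike.norm_natCast]
  calc ((Fintype.card ι : ℝ))⁻¹ * ‖∑ a, Ξ a (x a)‖
      ≤ ((Fintype.card ι : ℝ))⁻¹ * ((Fintype.card ι : ℝ) * c) :=
        mul_le_mul_of_nonneg_left h1 (inv_nonneg.2 hcard.le)
    _ = c := by rw [← mul_assoc, inv_mul_cancel₀ hcard.ne', one_mul]

theorem core_av_add (Ξ : ι → W →L[𝕜] 𝕜) (x y : ι → W) :
    av Ξ (fun a => x a + y a) = av Ξ x + av Ξ y := by
  unfold av
  simp only [map_add, Finset.sum_add_distrib, mul_add]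

theorem core_av_sub (Ξ : ι → W →L[𝕜] 𝕜) (x y : ι → W) :
    av Ξ (fun a => x a - y a) = av Ξ x - av Ξ y := by
  unfold av
  simp only [map_sub, Finset.sum_sub_distrib, mul_sub]

theorem core_av_smul (Ξ : ι → W →L[𝕜] 𝕜) (c : 𝕜) (x : ι → W) :
    av Ξ (fun a => c • x a) = c * av Ξ x := by
  unfold av
  simp only [map_smul, smul_eq_mul, ← Finset.mul_sum]
  ring

theorem core_av_tendsto {α : Type} {l : Filter α} (Ξ : ι → W →L[𝕜] 𝕜) (f : α → ι → W)
    (y : ι → W) (h : ∀ a, Tendsto (fun n => f n a) l (𝓝 (y a))) :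
    Tendsto (fun n => av Ξ (f n)) l (𝓝 (av Ξ y)) := by
  unfold av
  refine Tendsto.const_mul _ (tendsto_finsetSum _ fun a _ => ?_)
  exact ((Ξ a).continuous.tendsto _).comp (h a)

theorem core_av_one [Nonempty ι] (Ξ : ι → W →L[𝕜] 𝕜) (x : ι → W) (h : ∀ a, Ξ a (x a) = 1) :
    av Ξ x = 1 := by
  unfold av
  have hcard : (Fintype.card ι : 𝕜) ≠ 0 := by
    exact_mod_cast Fintype.card_ne_zero
  simp only [h]
  rw [Finset.sum_const, nsmul_eq_mul, mul_one, Finset.card_univ, inv_mul_cancel₀ hcard]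

theorem core_lim (u : ℕ → 𝕜) (c : ℝ) (hu : ∀ l, ‖u l‖ ≤ c) :
    ∃ y : 𝕜, Tendsto u (hyperfilter ℕ : Filter ℕ) (𝓝 y) := by
  have hK : IsCompact (Metric.closedBall (0 : 𝕜) c) := isCompact_closedBall 0 c
  have hle : ((hyperfilter ℕ).map u : Filter 𝕜) ≤ 𝓟 (Metric.closedBall (0 : 𝕜) c) := by
    rw [le_principal_iff]
    refine mem_map.2 (univ_mem' fun l => ?_)
    simpa using hu l
  obtain ⟨y, -, hy⟩ := hK.ultrafilter_le_nhds ((hyperfilter ℕ).map u) hle
  exact ⟨y, hy⟩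

end core

theorem p_core : S_core := by
  intro harith 𝕜 _ W _ _ _ V D h Fr i C δ D0 τ b hC hτF hτ hb hE1 hE2 hδ hε1 hε2 hν
  -- the vectors
  set x : ℕ → Fr.ι i → V (Fr.jj i) := fun n a => ⟨(Fr.v i n a : W), Fr.hF i (Fr.v i n a).2⟩
    with hx
  have hxn : ∀ n a, ‖x n a‖ ≤ 2 := fun n a => Fr.hv i n a
  set βl : ℕ → ℕ → 𝕜 := fun n l => av (Fr.Ξ i) (fun a => b l (x n a)) with hβl
  set tl : ℕ → ℕ → 𝕜 := fun n l => av (Fr.Ξ i) (fun a => τ l (Fr.v i n a : W)) with htl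
  have hβb : ∀ n l, ‖βl n l‖ ≤ C * 2 := by
    intro n l
    refine core_av_norm_le _ (Fr.hΞ i) _ _ fun a => ?_
    calc ‖b l (x n a)‖ ≤ ‖b l‖ * ‖x n a‖ := (b l).le_opNorm _
      _ ≤ C * 2 := mul_le_mul (hb l) (hxn n a) (norm_nonneg _) hC
  have htb : ∀ n l, ‖tl n l‖ ≤ C * 2 := by
    intro n l
    refine core_av_norm_le _ (Fr.hΞ i) _ _ fun a => ?_
    calc ‖τ l (Fr.v i n a : W)‖ ≤ ‖τ l‖ * ‖(Fr.v i n a : W)‖ := (τ l).le_opNorm _
      _ ≤ C * 2 := mul_le_mul (hτ l) (Fr.hv i n a) (norm_nonneg _) hC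
  choose β hβ using fun n => core_lim (βl n) _ (hβb n)
  choose t ht using fun n => core_lim (tl n) _ (htb n)
  have hhyp : (hyperfilter ℕ : Filter ℕ) ≤ atTop := Nat.hyperfilter_le_atTop
  refine harith 𝕜 (Fr.N i) β t (Fr.hN i) ?_ ?_ ?_ ?_
  · -- the relation `(n / N) β + t = 1`
    intro n hn
    have e1 : ∀ l, ((n : 𝕜) / (Fr.N i : 𝕜)) * βl n l + tl n l =
        av (Fr.Ξ i) (fun a => b l ⟨D (x n a : W), h.inv _ _ (x n a).2⟩ + τ l (x n a : W)) := by
      intro l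
      rw [core_av_add, hβl, htl]
      simp only
      rw [← core_av_smul]
      congr 1
      congr 1
      funext a
      rw [← map_smul]
      congr 1
      apply Subtype.ext
      exact (Fr.heig i n a hn).symm
    have e2 : Tendsto (fun l => ((n : 𝕜) / (Fr.N i : 𝕜)) * βl n l + tl n l) atTop (𝓝 1) := by
      have h1 : av (Fr.Ξ i) (fun a => (x n a : W)) = 1 :=
        core_av_one _ _ fun a => Fr.hone i n a hn
      rw [← h1]
      simp only [e1]
      exact core_av_tendsto _ _ _ fun a => hE1 (x n a)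
    have e3 := ((hβ n).const_mul ((n : 𝕜) / (Fr.N i : 𝕜))).add (ht n)
    exact tendsto_nhds_unique e3 (e2.mono_left hhyp)
  · -- `t N` is small
    refine le_of_tendsto (ht (Fr.N i)).norm (Eventually.of_forall fun l => ?_)
    calc ‖tl (Fr.N i) l‖ ≤ Fr.ε i * ‖τ l‖ := Fr.hfr i (τ l) (hτF l)
      _ ≤ Fr.ε i * C := mul_le_mul_of_nonneg_left (hτ l) (Fr.hε0 i)
      _ ≤ 1 / 4 := hε1
  · -- the product
    intro n hn
    have key : ∀ l, ‖tl n l * β n‖ ≤ 1 / 16 := by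
      intro l
      choose y hy hy' using fun a => hE2 l (x n a)
      have k1 : ∀ l', ‖av (Fr.Ξ i) (fun a => τ l (b l' (x n a))) - tl n l * βl n l'‖ ≤
          Fr.ε i * C ^ 2 := by
        intro l'
        set B : Fr.F i →L[𝕜] W :=
          ((b l').toLinearMap.comp (Submodule.inclusion (Fr.hF i))).mkContinuous C (fun u => by
            calc ‖b l' (Submodule.inclusion (Fr.hF i) u)‖
                ≤ ‖b l'‖ * ‖Submodule.inclusion (Fr.hF i) u‖ := (b l').le_opNorm _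
              _ ≤ C * ‖u‖ := mul_le_mul_of_nonneg_right (hb l') (norm_nonneg _)) with hB
        have hBn : ‖B‖ ≤ C := LinearMap.mkContinuous_norm_le _ hC _
        have hBv : ∀ a, B (Fr.v i n a) = b l' (x n a) := fun a => rfl
        have hm := Fr.hmul i n (τ l) B hn
        simp only [hBv] at hm
        refine hm.trans ?_
        have : Fr.ε i * ‖τ l‖ * ‖B‖ ≤ Fr.ε i * C * C :=
          mul_le_mul (mul_le_mul_of_nonneg_left (hτ l) (Fr.hε0 i)) hBn (norm_nonneg _)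
            (mul_nonneg (Fr.hε0 i) hC)
        linarith [this, sq C, mul_assoc (Fr.ε i) C C]
      have k2 : Tendsto (fun l' => av (Fr.Ξ i) (fun a => τ l (b l' (x n a))) - tl n l * βl n l')
          (hyperfilter ℕ : Filter ℕ) (𝓝 (av (Fr.Ξ i) y - tl n l * β n)) :=
        (core_av_tendsto _ _ _ fun a => hy' a).sub ((hβ n).const_mul _)
      have k3 : ‖av (Fr.Ξ i) y - tl n l * β n‖ ≤ Fr.ε i * C ^ 2 :=
        le_of_tendsto k2.norm (Eventually.of_forall k1)
      have k4 : ‖av (Fr.Ξ i) y‖ ≤ C * δ := by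
        refine core_av_norm_le _ (Fr.hΞ i) _ _ fun a => (hy a).trans ?_
        exact mul_le_mul_of_nonneg_left (hδ n a hn) hC
      have k5 : tl n l * β n = av (Fr.Ξ i) y - (av (Fr.Ξ i) y - tl n l * β n) := by ring
      rw [k5]
      refine (norm_sub_le _ _).trans ?_
      linarith
    exact le_of_tendsto ((ht n).mul_const (β n)).norm (Eventually.of_forall key)
  · -- closeness
    intro n hn
    have key : ∀ l, ‖βl n l - βl (n + 1) l‖ ≤ 1 / 4 := by
      intro l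
      have e : βl n l - βl (n + 1) l = av (Fr.Ξ i) (fun a => b l (x n a) - b l (x (n + 1) a)) := by
        rw [core_av_sub]
      rw [e]
      refine (core_av_norm_le _ (Fr.hΞ i) _ (C * Fr.ν i) fun a => ?_).trans hν
      rw [← map_sub]
      calc ‖b l (x n a - x (n + 1) a)‖ ≤ ‖b l‖ * ‖x n a - x (n + 1) a‖ := (b l).le_opNorm _
        _ ≤ C * Fr.ν i := mul_le_mul (hb l) (Fr.hclose i n a hn) (norm_nonneg _) hC
    exact le_of_tendsto ((hβ n).sub (hβ (n + 1))).norm (Eventually.of_forall key)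

end Pool.Agent.Lib.MP_355270_an.CB
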