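import Pool.Agent.Lib.MP_355270_an.CB.StmA

open Filter Topology

namespace Pool.Agent.Lib.MP_355270_an.CB

theorem D0_limit {𝕜 : Type} [RCLike 𝕜] {W : Type} [NormedAddCommGroup W] [NormedSpace 𝕜 W]
    (E : Submodule 𝕜 W) [FiniteDimensional 𝕜 E] (u : ℕ → W) (K : ℝ) (hu : ∀ l, u l ∈ E)
    (hb : ∀ l, ‖u l‖ ≤ K) :
    ∃ p : W, p ∈ E ∧ Tendsto u (hyperfilter ℕ : Filter ℕ) (𝓝 p) := by
  have hproper : ProperSpace E := FiniteDimensional.proper_rclike 𝕜 E
  let u' : ℕ → E := fun l => ⟨u l, hu l⟩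
  have hc : IsCompact (Metric.closedBall (0 : E) K) := isCompact_closedBall _ _
  obtain ⟨p, _, hp⟩ := hc.ultrafilter_le_nhds ((hyperfilter ℕ).map u') (by
    rw [Filter.le_principal_iff]
    refine Filter.mem_map.mpr (Filter.univ_mem' fun l => ?_)
    change u' l ∈ Metric.closedBall (0 : E) K
    rw [mem_closedBall_zero_iff]
    exact hb l)
  refine ⟨(p : W), p.2, ?_⟩
  have h1 : Tendsto u' (hyperfilter ℕ : Filter ℕ) (𝓝 p) := hp
  exact (continuous_subtype_val.tendsto p).comp h1

theorem D0_pv {W : Type} [NormedAddCommGroup W] (F : Filter ℕ) (ζ : ℕ → ℕ → W) (z : ℕ → W)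
    (h : ∀ j, Tendsto (fun l => ζ l j) F (𝓝 (z j))) (r : ℕ) (k : ℕ → ℕ) :
    Tendsto (fun l => pv (ζ l) r k) F (𝓝 (pv z r k)) := by
  unfold pv
  refine tendsto_finsetSum _ fun i _ => ?_
  have h1 : Tendsto (fun l => inc (ζ l) k i) F (𝓝 (inc z k i)) := by
    cases i with
    | zero => exact h _
    | succ i => exact (h _).sub (h _)
  exact (h1.norm).pow 2

theorem p_D0 : S_D0 := by
  intro 𝕜 _ W _ _ _ V D hA T Tinf C hC hT hP1
  have hC0 : 0 ≤ C := le_trans (norm_nonneg (Tinf 0)) (hC 0)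
  have hn1 : ∀ x : XS V D, ‖x.1.1‖ ≤ ‖x‖ := fun x => norm_fst_le x.1
  have hζ : ∀ l (z : JS V), ‖(Tinf l z).1.1‖ ≤ C * ‖z‖ := fun l z =>
    (hn1 _).trans (((Tinf l).le_opNorm z).trans
      (mul_le_mul_of_nonneg_right (hC l) (norm_nonneg _)))
  have hex : ∀ (z : JS V) (j : ℕ), ∃ p : W, p ∈ V j ∧
      Tendsto (fun l => (Tinf l z).1.1.val j) (hyperfilter ℕ : Filter ℕ) (𝓝 p) := by
    intro z j
    have := hA.fin j
    exact D0_limit (V j) _ (C * ‖z‖) (fun l => (Tinf l z).1.1.mem j)
      (fun l => ((Tinf l z).1.1.norm_val_le j).trans (hζ l z))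
  choose L hLm hLt using hex
  have hJ : ∀ z : JS V, JBd (L z) (C * ‖z‖) := by
    intro z
    have h0 : 0 ≤ C * ‖z‖ := mul_nonneg hC0 (norm_nonneg _)
    refine ⟨h0, fun r k hk => ?_⟩
    have h1 := D0_pv (hyperfilter ℕ : Filter ℕ) (fun l => (Tinf l z).1.1.val) (L z) (hLt z) r k
    refine le_of_tendsto h1 (Filter.Eventually.of_forall fun l => ?_)
    exact ((Tinf l z).1.1.pv_le r k hk).trans (pow_le_pow_left₀ (norm_nonneg _) (hζ l z) 2)
  let Zl : JS V →ₗ[𝕜] JS V :=
    { toFun := fun z => JS.mk (L z) (hLm z) ⟨_, hJ z⟩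
      map_add' := fun z z' => JS.ext fun j => by
        change L (z + z') j = L z j + L z' j
        have h1 := hLt (z + z') j
        have h2 := (hLt z j).add (hLt z' j)
        have h3 : (fun l => (Tinf l (z + z')).1.1.val j) =
            fun l => (Tinf l z).1.1.val j + (Tinf l z').1.1.val j := by
          funext l
          rw [map_add]
          rfl
        rw [h3] at h1
        exact tendsto_nhds_unique h1 h2
      map_smul' := fun c z => JS.ext fun j => by
        change L (c • z) j = c • L z j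
        have h1 := hLt (c • z) j
        have h2 := (hLt z j).const_smul c
        have h3 : (fun l => (Tinf l (c • z)).1.1.val j) =
            fun l => c • (Tinf l z).1.1.val j := by
          funext l
          rw [map_smul]
          rfl
        rw [h3] at h1
        exact tendsto_nhds_unique h1 h2 }
  let Z : JS V →L[𝕜] JS V := Zl.mkContinuous C fun z => JS.norm_le_of_jbd (hJ z)
  have hZ : ∀ z j, (Z z).val j = L z j := fun z j => rfl
  refine ⟨ContinuousLinearMap.id 𝕜 (JS V) - Z, ?_, ?_⟩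
  · intro z hz
    refine JS.ext fun j => ?_
    have hx : Tendsto z.val atTop (𝓝 (D (0 : W))) := by
      rw [map_zero]
      exact hz
    let x : XS V D := XS.mk z 0 hx
    have h1 : Tendsto (fun l => T l x) (hyperfilter ℕ : Filter ℕ) (𝓝 x) :=
      (hT x).mono_left Nat.hyperfilter_le_atTop
    have h2 : Tendsto (fun l => (T l x).1.1.val j) (hyperfilter ℕ : Filter ℕ) (𝓝 (z.val j)) := by
      have hcont : Continuous fun y : XS V D => y.1.1.val j :=
        (JS.coord V j).continuous.comp (continuous_fst.comp continuous_subtype_val)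
      exact (hcont.tendsto x).comp h1
    have h3 : (fun l => (Tinf l z).1.1.val j) = fun l => (T l x).1.1.val j := by
      funext l
      have h4 : Tinf l x.1.1 = T l x := hP1 l x rfl
      rw [← h4]
      rfl
    have h5 := hLt z j
    rw [h3] at h5
    have h6 : L z j = z.val j := tendsto_nhds_unique h5 h2
    change z.val j - (Z z).val j = 0
    rw [hZ, h6, sub_self]
  · intro z j
    have h1 : (z - (ContinuousLinearMap.id 𝕜 (JS V) - Z) z).val j = L z j := by
      have h2 : z - (ContinuousLinearMap.id 𝕜 (JS V) - Z) z = Z z := by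
        rw [sub_apply, ContinuousLinearMap.id_apply, sub_sub_cancel]
      rw [h2, hZ]
    rw [h1]
    exact hLt z j

end Pool.Agent.Lib.MP_355270_an.CB
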