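import Pool.Agent.Lib.MP_355270_an.CB.StmA

open Filter Topology

namespace Pool.Agent.Lib.MP_355270_an.CB

/-- Convergence in operator norm implies pointwise convergence. -/
theorem E2_ptw {𝕜 : Type} [RCLike 𝕜] {W : Type*} [NormedAddCommGroup W] [NormedSpace 𝕜 W]
    {V : ℕ → Submodule 𝕜 W} {D : W →L[𝕜] W} {Y : Type*} [NormedAddCommGroup Y] [NormedSpace 𝕜 Y]
    {T : XS V D →L[𝕜] Y} {Tinf : JS V →L[𝕜] Y} (h : IsInf T Tinf) (z : JS V) :
    Tendsto (fun m => T (incX V D m z)) atTop (𝓝 (Tinf z)) := by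
  have h1 : Tendsto (fun m => (T.comp (incX V D m)) z) atTop (𝓝 (Tinf z)) := by
    have h2 : Continuous fun A : JS V →L[𝕜] Y => A z := by fun_prop
    exact (h2.tendsto _).comp h
  exact h1

theorem p_E2 : S_E2 := by
  intro 𝕜 _ W _ _ V D T T' Tinf Tinf' h h' hTT z
  have h1 := E2_ptw h z
  have h2 := (T.continuous.tendsto _).comp (E2_ptw h' z)
  have h3 : (T ∘ fun m => T' (incX V D m z)) = fun m => T (incX V D m z) := by
    funext m
    exact congrFun (congrArg DFunLike.coe hTT) (incX V D m z)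
  rw [h3] at h2
  exact tendsto_nhds_unique h1 h2

end Pool.Agent.Lib.MP_355270_an.CB
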