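import Pool.Agent.Lib.MP_355270_an.CB.StmA

open Filter Topology

namespace Pool.Agent.Lib.MP_355270_an.CB

theorem tailf_step {𝕜 : Type} [RCLike 𝕜] {W : Type} [NormedAddCommGroup W] [NormedSpace 𝕜 W]
    {V : ℕ → Submodule 𝕜 W} {D : W →L[𝕜] W} (f : XS V D →L[𝕜] 𝕜) {δ : ℝ} (hδ : 0 < δ)
    {m n : ℕ} (hmn : m ≤ n) {z : JS V}
    (hz : δ * ‖z‖ < ‖f (incX V D n z - incX V D m z)‖) :
    m < n ∧ ∃ x : XS V D, x.1.2 = 0 ∧ (∀ j, (j ≤ m ∨ n < j) → x.1.1.val j = 0) ∧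
      ‖x.1.1‖ ≤ 1 ∧ δ / 4 ≤ RCLike.re (f x) := by
  have hz0 : z ≠ 0 := by
    rintro rfl
    simp at hz
  have hzp : 0 < ‖z‖ := norm_pos_iff.2 hz0
  have hlt : m < n := by
    rcases hmn.lt_or_eq with h | h
    · exact h
    · subst h
      rw [sub_self, map_zero, norm_zero] at hz
      exact absurd hz (not_lt.2 (by positivity))
  refine ⟨hlt, ?_⟩
  set w : XS V D := incX V D n z - incX V D m z with hw
  have hfw : 0 < ‖f w‖ := lt_of_le_of_lt (by positivity) hz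
  have hfw0 : f w ≠ 0 := norm_pos_iff.1 hfw
  have hw1 : w.1.1 = trunc V n z - trunc V m z := by
    rw [hw]
    simp
  have hw2 : w.1.2 = 0 := by
    rw [hw]
    simp
  have hwn : ‖w.1.1‖ ≤ 4 * ‖z‖ := by
    rw [hw1]
    refine (norm_sub_le _ _).trans ?_
    have h1 := norm_trunc_le V n z
    have h2 := norm_trunc_le V m z
    linarith
  let t : ℝ := (‖f w‖ * (4 * ‖z‖))⁻¹
  have ht : 0 ≤ t := by positivity
  refine ⟨((t : 𝕜) * (starRingEnd 𝕜) (f w)) • w, ?_, ?_, ?_, ?_⟩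
  · show ((t : 𝕜) * (starRingEnd 𝕜) (f w)) • w.1.2 = 0
    rw [hw2, smul_zero]
  · intro j hj
    show ((t : 𝕜) * (starRingEnd 𝕜) (f w)) • w.1.1.val j = 0
    rw [hw1, JS.val_sub, Pi.sub_apply, trunc_val, trunc_val]
    rcases hj with hj | hj
    · rw [if_pos (by omega), if_pos hj, sub_self, smul_zero]
    · rw [if_neg (by omega), if_neg (by omega), sub_self, smul_zero]
  · show ‖((t : 𝕜) * (starRingEnd 𝕜) (f w)) • w.1.1‖ ≤ 1
    rw [norm_smul, norm_mul, RCLike.norm_conj, RCLike.norm_ofReal, abs_of_nonneg ht]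
    calc t * ‖f w‖ * ‖w.1.1‖ ≤ t * ‖f w‖ * (4 * ‖z‖) :=
          mul_le_mul_of_nonneg_left hwn (by positivity)
      _ = t * (‖f w‖ * (4 * ‖z‖)) := by ring
      _ = 1 := inv_mul_cancel₀ (by positivity)
  · rw [map_smul, smul_eq_mul, mul_assoc, RCLike.conj_mul, ← RCLike.ofReal_pow,
      ← RCLike.ofReal_mul, RCLike.ofReal_re]
    have h1 : t * ‖f w‖ ^ 2 = ‖f w‖ / (4 * ‖z‖) := by
      show (‖f w‖ * (4 * ‖z‖))⁻¹ * ‖f w‖ ^ 2 = _
      field_simp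
    rw [h1, div_le_div_iff₀ (by norm_num) (by positivity)]
    nlinarith

theorem p_tailf : S_tailf := by
  intro hB 𝕜 _ W _ _ V D f δ hδ
  by_contra hcon
  push Not at hcon
  have step : ∀ m : ℕ, ∃ n, m < n ∧ ∃ x : XS V D, x.1.2 = 0 ∧
      (∀ j, (j ≤ m ∨ n < j) → x.1.1.val j = 0) ∧ ‖x.1.1‖ ≤ 1 ∧ δ / 4 ≤ RCLike.re (f x) := by
    intro m
    obtain ⟨n, hmn, z, hz⟩ := hcon m
    exact ⟨n, tailf_step f hδ hmn hz⟩
  choose g hg X hX2 hXs hXn hXf using step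
  let M : ℕ → ℕ := fun i => Nat.rec 0 (fun _ p => g p) i
  have hMs : ∀ i, M (i + 1) = g (M i) := fun i => rfl
  have key : ∀ r : ℕ, (r : ℝ) * (δ / 4) ≤ ‖f‖ * ‖∑ i ∈ Finset.range r, (X (M i)).1.1‖ := by
    intro r
    have h1 : (r : ℝ) * (δ / 4) ≤ RCLike.re (f (∑ i ∈ Finset.range r, X (M i))) := by
      rw [map_sum, map_sum]
      have : ∑ i ∈ Finset.range r, (δ / 4) ≤
          ∑ i ∈ Finset.range r, RCLike.re (f (X (M i))) :=
        Finset.sum_le_sum fun i _ => hXf (M i)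
      rwa [Finset.sum_const, Finset.card_range, nsmul_eq_mul] at this
    have h2 : ‖(∑ i ∈ Finset.range r, X (M i) : XS V D)‖ =
        ‖∑ i ∈ Finset.range r, (X (M i)).1.1‖ := by
      have e1 : (∑ i ∈ Finset.range r, X (M i) : XS V D).1.1 =
          ∑ i ∈ Finset.range r, (X (M i)).1.1 := by
        rw [Submodule.coe_sum, Prod.fst_sum]
      have e2 : (∑ i ∈ Finset.range r, X (M i) : XS V D).1.2 = 0 := by
        rw [Submodule.coe_sum, Prod.snd_sum]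
        exact Finset.sum_eq_zero fun i _ => hX2 (M i)
      rw [Submodule.coe_norm, Prod.norm_def, e1, e2, norm_zero]
      exact max_eq_left (norm_nonneg _)
    rw [← h2]
    exact h1.trans ((RCLike.re_le_norm _).trans (f.le_opNorm _))
  have hbl : ∀ r : ℕ, ‖∑ i ∈ Finset.range r, (X (M i)).1.1‖ ^ 2 ≤ 2 * r := by
    intro r
    refine hB 𝕜 W V r (fun i => (X (M i)).1.1) (fun i => M i + 1) (fun i => M (i + 1)) ?_ ?_ ?_ ?_
    · intro i
      exact hg (M i)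
    · intro i
      exact Nat.lt_succ_self _
    · intro i j hj
      refine hXs (M i) j ?_
      rcases hj with hj | hj
      · exact Or.inl (Nat.lt_succ_iff.1 hj)
      · exact Or.inr hj
    · intro i
      exact hXn (M i)
  obtain ⟨r, hr⟩ := exists_nat_gt (32 * ‖f‖ ^ 2 / δ ^ 2)
  have hr0 : (0 : ℝ) < r := lt_of_le_of_lt (by positivity) hr
  rw [div_lt_iff₀ (by positivity)] at hr
  have h1 := key r
  have h2 := hbl r
  have h3 : ((r : ℝ) * (δ / 4)) ^ 2 ≤ (‖f‖ * ‖∑ i ∈ Finset.range r, (X (M i)).1.1‖) ^ 2 :=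
    pow_le_pow_left₀ (by positivity) h1 2
  rw [mul_pow ‖f‖] at h3
  have h4 : ‖f‖ ^ 2 * ‖∑ i ∈ Finset.range r, (X (M i)).1.1‖ ^ 2 ≤ ‖f‖ ^ 2 * (2 * r) :=
    mul_le_mul_of_nonneg_left h2 (by positivity)
  have h5 : (r : ℝ) * (r * δ ^ 2) ≤ r * (32 * ‖f‖ ^ 2) := by nlinarith
  have h6 := le_of_mul_le_mul_left h5 hr0
  linarith

end Pool.Agent.Lib.MP_355270_an.CB
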