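import Pool.Agent.Lib.MP_355270_an.CB.StmA
import Pool.Agent.Lib.MP_355270_an.CB.P.Tailf

open Filter Topology

namespace Pool.Agent.Lib.MP_355270_an.CB

theorem exInf_norm_incX {𝕜 : Type} [RCLike 𝕜] {W : Type} [NormedAddCommGroup W] [NormedSpace 𝕜 W]
    (V : ℕ → Submodule 𝕜 W) (D : W →L[𝕜] W) (m : ℕ) : ‖incX V D m‖ ≤ 2 := by
  refine ContinuousLinearMap.opNorm_le_bound _ (by norm_num) fun z => ?_
  have h1 : ‖incX V D m z‖ = max ‖trunc V m z‖ ‖(0 : W)‖ := rfl
  rw [h1, norm_zero]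
  exact max_le (norm_trunc_le V m z) (by positivity)

theorem p_exInf : S_exInf := by
  intro htail 𝕜 _ W _ _ V D Y _ _ T hT
  have hfd : FiniteDimensional 𝕜 T.toLinearMap.range := hT
  let R : Submodule 𝕜 Y := T.toLinearMap.range
  have : FiniteDimensional 𝕜 R := hfd
  have : CompleteSpace R := FiniteDimensional.complete 𝕜 R
  have hmem : ∀ x, T x ∈ R := fun x => ⟨x, rfl⟩
  let T' : XS V D →L[𝕜] R := T.codRestrict R hmem
  have hT' : FR T' := by
    show FiniteDimensional 𝕜 T'.toLinearMap.range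
    infer_instance
  have hC : CauchySeq fun m => T'.comp (incX V D m) := htail p_tailf 𝕜 W V D R T' hT'
  obtain ⟨L, hL⟩ := cauchySeq_tendsto_of_complete hC
  have hcomp : ∀ m, R.subtypeL.comp (T'.comp (incX V D m)) = T.comp (incX V D m) := by
    intro m
    ext z
    rfl
  have hlim : Tendsto (fun m => T.comp (incX V D m)) atTop (𝓝 (R.subtypeL.comp L)) := by
    have hcont : Continuous fun S : JS V →L[𝕜] R => R.subtypeL.comp S := by
      fun_prop
    have h2 := (hcont.tendsto L).comp hL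
    refine h2.congr fun m => ?_
    exact hcomp m
  refine ⟨R.subtypeL.comp L, hlim, ?_, ?_⟩
  · intro z
    obtain ⟨x, hx⟩ := (L z).2
    exact ⟨x, hx.symm⟩
  · refine le_of_tendsto hlim.norm (Eventually.of_forall fun m => ?_)
    calc ‖T.comp (incX V D m)‖ ≤ ‖T‖ * ‖incX V D m‖ := ContinuousLinearMap.opNorm_comp_le _ _
      _ ≤ ‖T‖ * 2 := mul_le_mul_of_nonneg_left (exInf_norm_incX V D m) (ContinuousLinearMap.opNorm_nonneg T)
      _ = 2 * ‖T‖ := mul_comm _ _

end Pool.Agent.Lib.MP_355270_an.CB
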