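import Pool.Agent.Lib.MP_355270_an.CB.StmA

open Filter Topology

namespace Pool.Agent.Lib.MP_355270_an.CB

section ext

variable {𝕜 : Type} [RCLike 𝕜] {W : Type} [NormedAddCommGroup W] [NormedSpace 𝕜 W]
variable {V : ℕ → Submodule 𝕜 W} {D : W →L[𝕜] W}

/-- The first coordinate `X → JS V`. -/
noncomputable def ext_prJ (V : ℕ → Submodule 𝕜 W) (D : W →L[𝕜] W) : XS V D →L[𝕜] JS V :=
  (ContinuousLinearMap.fst 𝕜 (JS V) W).comp (XS V D).subtypeL

theorem ext_prJ_apply (x : XS V D) : ext_prJ V D x = x.1.1 := rfl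

theorem ext_norm_fst (x : XS V D) : ‖x.1.1‖ ≤ ‖x‖ := norm_fst_le x.1

theorem ext_norm_snd (x : XS V D) : ‖x.1.2‖ ≤ ‖x‖ := norm_snd_le x.1

theorem ext_norm_prJ : ‖ext_prJ V D‖ ≤ 1 :=
  ContinuousLinearMap.opNorm_le_bound _ zero_le_one fun x => by
    rw [one_mul]; exact ext_norm_fst x

theorem ext_norm_prW : ‖prW V D‖ ≤ 1 :=
  ContinuousLinearMap.opNorm_le_bound _ zero_le_one fun x => by
    rw [one_mul]; exact ext_norm_snd x

theorem ext_norm_cst (hV : Monotone V) (j : ℕ) : ‖cst hV j‖ ≤ 1 :=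
  ContinuousLinearMap.opNorm_le_bound _ zero_le_one fun x => by
    rw [one_mul]; exact norm_cst_le hV j x

/-- The element `(cst j (D x), x)`. -/
noncomputable def ext_elt (h : ASys V D) (j : ℕ) (x : V j) : XS V D :=
  XS.mk (cst h.mono j ⟨D (x : W), h.inv j _ x.2⟩) (x : W) (by
    refine tendsto_const_nhds.congr' ?_
    filter_upwards [eventually_ge_atTop j] with i hi
    rw [cst_val, if_pos hi])

theorem ext_elt_fst (h : ASys V D) (j : ℕ) (x : V j) :
    (ext_elt h j x).1.1 = cst h.mono j ⟨D (x : W), h.inv j _ x.2⟩ := rfl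

theorem ext_elt_snd (h : ASys V D) (j : ℕ) (x : V j) : (ext_elt h j x).1.2 = (x : W) := rfl

theorem ext_FR_of_le {X Y : Type} [NormedAddCommGroup X] [NormedSpace 𝕜 X]
    [NormedAddCommGroup Y] [NormedSpace 𝕜 Y] {T R : X →L[𝕜] Y} (hT : FR T)
    (h : ∀ x, ∃ x', R x = T x') : FR R := by
  have : FiniteDimensional 𝕜 T.toLinearMap.range := hT
  have hle : R.toLinearMap.range ≤ T.toLinearMap.range := by
    rintro _ ⟨x, rfl⟩
    obtain ⟨x', hx'⟩ := h x
    exact ⟨x', hx'.symm⟩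
  exact Submodule.finiteDimensional_of_le hle

theorem ext_FR_comp {X Y Z : Type} [NormedAddCommGroup X] [NormedSpace 𝕜 X]
    [NormedAddCommGroup Y] [NormedSpace 𝕜 Y] [NormedAddCommGroup Z] [NormedSpace 𝕜 Z]
    {T : X →L[𝕜] Y} (hT : FR T) (P : Y →L[𝕜] Z) : FR (P.comp T) := by
  have : FiniteDimensional 𝕜 T.toLinearMap.range := hT
  have e : (P.comp T).toLinearMap.range = T.toLinearMap.range.map P.toLinearMap := by
    rw [← LinearMap.range_comp]
    rfl
  show FiniteDimensional 𝕜 (P.comp T).toLinearMap.range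
  rw [e]
  infer_instance

theorem ext_bounded {X : Type} [NormedAddCommGroup X] [NormedSpace 𝕜 X] [CompleteSpace X]
    (T : ℕ → X →L[𝕜] X) (hT : ∀ x, Tendsto (fun n => T n x) atTop (𝓝 x)) :
    ∃ C : ℝ, 0 ≤ C ∧ ∀ n, ‖T n‖ ≤ C := by
  obtain ⟨C, hC⟩ := banach_steinhaus (g := T) (fun x => by
    have h1 := Metric.isBounded_range_of_tendsto _ (hT x)
    obtain ⟨C, hC⟩ := isBounded_iff_forall_norm_le.1 h1
    exact ⟨C, fun i => hC _ ⟨i, rfl⟩⟩)
  exact ⟨C, (norm_nonneg _).trans (hC 0), hC⟩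

end ext

theorem p_ext : S_ext := by
  intro hTV _ hcX hexInf hP1 hP2 htC htT hTb hdX hE2 hD0 hcompl hclosed htailT _
    𝕜 _ W _ _ _ V D h hCAB
  obtain ⟨T, hTF, hT, hTT⟩ := hCAB
  have hXc : CompleteSpace (XS V D) := hcX hcompl hclosed 𝕜 W V D h.fin
  obtain ⟨C0, hC0, hTC⟩ := ext_bounded T hT
  choose Tinf hInf hran hTn using fun l => hexInf htailT 𝕜 W V D (XS V D) (T l) (hTF l)
  have hTin : ∀ l, ‖Tinf l‖ ≤ 2 * C0 := fun l => (hTn l).trans (by linarith [hTC l])
  have hTi1 : ∀ l, ∀ x : XS V D, x.1.2 = 0 → Tinf l x.1.1 = T l x := fun l x hx =>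
    hP1 htT 𝕜 W V D (XS V D) (T l) (Tinf l) (hInf l) x hx
  -- the operators `R l`
  set R : ℕ → XS V D →L[𝕜] XS V D := fun l => T l - (Tinf l).comp (ext_prJ V D) with hR
  have hRapp : ∀ l x, R l x = T l x - Tinf l x.1.1 := fun l x => rfl
  have hRF : ∀ l, FR (R l) := by
    intro l
    refine ext_FR_of_le (hTF l) fun x => ?_
    obtain ⟨x', hx'⟩ := hran l x.1.1
    exact ⟨x - x', by rw [hRapp, hx', map_sub]⟩
  have hR0 : ∀ l, ∀ x : XS V D, x.1.2 = 0 → R l x = 0 := fun l x hx => by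
    rw [hRapp, hTi1 l x hx, sub_self]
  have hRn : ∀ l, ‖R l‖ ≤ 3 * C0 := by
    intro l
    calc ‖R l‖ ≤ ‖T l‖ + ‖(Tinf l).comp (ext_prJ V D)‖ :=
          norm_sub_le (T l) ((Tinf l).comp (ext_prJ V D))
      _ ≤ C0 + 2 * C0 * 1 := by
          refine add_le_add (hTC l) ?_
          refine (ContinuousLinearMap.opNorm_comp_le _ _).trans ?_
          exact mul_le_mul (hTin l) ext_norm_prJ (norm_nonneg _) (by positivity)
      _ = 3 * C0 := by ring
  choose Tb hTbF hTbR hTbn using fun l =>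
    hTb 𝕜 W V D h (hdX hTV 𝕜 W V D h) (XS V D) (R l) (hRF l) (hR0 l)
  have hTdec : ∀ l (u : XS V D), T l u = Tb l u.1.2 + Tinf l u.1.1 := by
    intro l u
    have h1 := hTbR l u
    rw [hRapp] at h1
    rw [← h1]
    abel
  set C : ℝ := 3 * (‖D‖ + 1) * C0 with hC
  have hDn := norm_nonneg D
  have hCC0 : 2 * C0 ≤ C := by rw [hC]; nlinarith
  have hCpos : 0 ≤ C := by positivity
  obtain ⟨D0, hD00, hD0lim⟩ := hD0 𝕜 W V D h T Tinf (2 * C0) hTin hT hTi1
  set τ : ℕ → W →L[𝕜] W := fun l => (prW V D).comp (Tb l) with hτ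
  set b : ℕ → ∀ j, V j →L[𝕜] W := fun l j => (prW V D).comp ((Tinf l).comp (cst h.mono j))
    with hb
  refine ⟨C, D0, τ, b, hCpos, hD00, fun l => ext_FR_comp (hTbF l) _, fun l => ?_, fun l j => ?_,
    fun j x => ?_, fun l j x => ?_⟩
  · calc ‖τ l‖ ≤ ‖prW V D‖ * ‖Tb l‖ := ContinuousLinearMap.opNorm_comp_le _ _
      _ ≤ 1 * ((‖D‖ + 1) * (3 * C0)) := by
          refine mul_le_mul ext_norm_prW ((hTbn l).trans ?_) (norm_nonneg _) zero_le_one
          exact mul_le_mul_of_nonneg_left (hRn l) (by positivity)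
      _ = C := by rw [hC]; ring
  · refine le_trans ?_ hCC0
    calc ‖b l j‖ ≤ ‖prW V D‖ * ‖(Tinf l).comp (cst h.mono j)‖ :=
          ContinuousLinearMap.opNorm_comp_le _ _
      _ ≤ 1 * (2 * C0 * 1) := by
          refine mul_le_mul ext_norm_prW ?_ (norm_nonneg _) zero_le_one
          refine (ContinuousLinearMap.opNorm_comp_le _ _).trans ?_
          exact mul_le_mul (hTin l) (ext_norm_cst h.mono j) (norm_nonneg _) (by positivity)
      _ = 2 * C0 := by ring
  · -- (E1)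
    have h1 := ((prW V D).continuous.tendsto _).comp (hT (ext_elt h j x))
    have h2 : prW V D (ext_elt h j x) = (x : W) := rfl
    rw [h2] at h1
    refine h1.congr fun l => ?_
    simp only [Function.comp_apply]
    rw [hTdec, map_add, ext_elt_fst, ext_elt_snd, add_comm]
    rfl
  · -- (E2)
    set z : JS V := cst h.mono j x with hz
    refine ⟨prW V D (Tinf l (D0 z)), ?_, ?_⟩
    · calc ‖prW V D (Tinf l (D0 z))‖ ≤ ‖Tinf l (D0 z)‖ := ext_norm_snd _
        _ ≤ ‖Tinf l‖ * ‖D0 z‖ := (Tinf l).le_opNorm _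
        _ ≤ C * ‖D0 z‖ :=
            mul_le_mul_of_nonneg_right ((hTin l).trans hCC0) (norm_nonneg _)
    · have hlim : Tendsto (fun l' => Tinf l (z - (Tinf l' z).1.1)) (hyperfilter ℕ : Filter ℕ)
          (𝓝 (Tinf l (D0 z))) := by
        refine hP2 htC 𝕜 W V D (XS V D) (T l) (Tinf l) (hInf l) ℕ _ _ _ (‖z‖ + 2 * C0 * ‖z‖)
          (fun l' => ?_) fun i => ?_
        · refine (norm_sub_le _ _).trans (add_le_add_right ?_ _)
          calc ‖(Tinf l' z).1.1‖ ≤ ‖Tinf l' z‖ := ext_norm_fst _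
            _ ≤ ‖Tinf l'‖ * ‖z‖ := (Tinf l').le_opNorm _
            _ ≤ 2 * C0 * ‖z‖ := mul_le_mul_of_nonneg_right (hTin l') (norm_nonneg _)
        · have h1 := (hD0lim z i).const_sub (z.val i)
          have h2 : z.val i - (z - D0 z).val i = (D0 z).val i := by
            rw [JS.val_sub, Pi.sub_apply]
            abel
          rw [h2] at h1
          exact h1
      have hlim2 := ((prW V D).continuous.tendsto _).comp hlim
      refine hlim2.congr' ?_
      have hev : ∀ᶠ l' in (hyperfilter ℕ : Filter ℕ), l < l' :=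
        (eventually_gt_atTop l).filter_mono Nat.hyperfilter_le_atTop
      filter_upwards [hev] with l' hl'
      have hcomp : (T l).comp (T l') = T l := by
        rw [hTT l l' (by omega), min_eq_left hl'.le]
      have h1 := hE2 𝕜 W V D (T l) (T l') (Tinf l) (Tinf l') (hInf l) (hInf l') hcomp z
      rw [hTdec] at h1
      have h2 : Tinf l (z - (Tinf l' z).1.1) = Tb l (Tinf l' z).1.2 := by
        rw [map_sub, h1]
        abel
      simp only [Function.comp_apply]
      rw [h2]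
      rfl

end Pool.Agent.Lib.MP_355270_an.CB
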