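import Pool.Agent.Lib.MP_355270_an.CB.StmA

open Filter Topology

namespace Pool.Agent.Lib.MP_355270_an.CB

/-- the sequence `m, max (k 0) m, max (k 1) m, ...` -/
def frz_K (m : ℕ) (k : ℕ → ℕ) : ℕ → ℕ
  | 0 => m
  | i + 1 => max (k i) m

theorem frz_K_mono (m : ℕ) (k : ℕ → ℕ) (hk : Monotone k) : Monotone (frz_K m k) := by
  refine monotone_nat_of_le_succ fun n => ?_
  cases n with
  | zero => exact le_max_right _ _
  | succ n => exact max_le_max (hk (Nat.le_succ n)) le_rfl

theorem frz_pv {W : Type} [NormedAddCommGroup W] (z : ℕ → W) (m r : ℕ) (k : ℕ → ℕ) :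
    pv (fun j => z (min j m) - z j) r k =
      ∑ i ∈ Finset.range (r + 1), ‖z (frz_K m k (i + 1)) - z (frz_K m k i)‖ ^ 2 := by
  unfold pv
  have hd : ∀ j, z (min j m) - z j = z m - z (max j m) := by
    intro j
    rcases le_total j m with h | h
    · rw [min_eq_left h, max_eq_right h, sub_self, sub_self]
    · rw [min_eq_right h, max_eq_left h]
  refine Finset.sum_congr rfl fun i _ => ?_
  congr 1
  cases i with
  | zero =>
    rw [inc_zero, hd, norm_sub_rev]
    rfl
  | succ i =>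
    rw [inc_succ, hd, hd]
    show _ = ‖z (max (k (i + 1)) m) - z (max (k i) m)‖
    rw [norm_sub_rev]
    congr 1
    abel

theorem p_frz : S_frz := by
  intro hTV 𝕜 _ W _ _ V hV z
  rw [Metric.tendsto_atTop]
  intro ε hε
  obtain ⟨M, hM⟩ := hTV W z.val ‖z‖ ((ε / 2) ^ 2) z.jbd (by positivity)
  refine ⟨M, fun m hm => ?_⟩
  rw [dist_eq_norm]
  have h1 : ‖frz hV m z - z‖ ≤ ε / 2 := by
    refine JS.norm_le_of_jbd ⟨by positivity, fun r k hk => ?_⟩
    have h2 : (frz hV m z - z).val = fun j => z.val (min j m) - z.val j := rfl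
    rw [h2, frz_pv]
    exact hM (r + 1) (frz_K m k) (frz_K_mono m k hk) hm
  linarith

end Pool.Agent.Lib.MP_355270_an.CB
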