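import Pool.Agent.Lib.MP_355270_an.CB.StmA

open Filter Topology

namespace Pool.Agent.Lib.MP_355270_an.CB

theorem hump_pv_k {W : Type} [NormedAddCommGroup W] {z : ℕ → W} {r : ℕ} {k k' : ℕ → ℕ}
    (h : ∀ i ≤ r, k i = k' i) : pv z r k = pv z r k' := by
  unfold pv
  refine Finset.sum_congr rfl fun i hi => ?_
  rw [Finset.mem_range] at hi
  cases i with
  | zero => rw [inc_zero, inc_zero, h 0 (by omega)]
  | succ i => rw [inc_succ, inc_succ, h (i + 1) (by omega), h i (by omega)]

/-- The tail of the variation is small (`S_TV`; `S_frz` needs it as a hypothesis). -/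
theorem hump_TV : S_TV := by
  intro W _ z C ε hz hε
  set A : Set ℝ := {s | ∃ (r : ℕ) (k : ℕ → ℕ), Monotone k ∧ s = pv z r k} with hA
  have hne : A.Nonempty := ⟨pv z 0 id, 0, id, monotone_id, rfl⟩
  have hbd : BddAbove A := by
    refine ⟨C ^ 2, ?_⟩
    rintro s ⟨r, k, hk, rfl⟩
    exact hz.2 r k hk
  obtain ⟨s, ⟨r0, k0, hk0, rfl⟩, hs⟩ := exists_lt_of_lt_csSup hne (show sSup A - ε < sSup A by linarith)
  refine ⟨k0 r0, fun r k hk hM => ?_⟩
  set K : ℕ → ℕ := fun i => if i ≤ r0 then k0 i else k (i - r0 - 1) with hK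
  have hKm : Monotone K := by
    refine monotone_nat_of_le_succ fun i => ?_
    simp only [hK]
    rcases lt_trichotomy i r0 with h | h | h
    · rw [if_pos (by omega), if_pos (by omega)]
      exact hk0 (by omega)
    · rw [if_pos (by omega), if_neg (by omega)]
      have : i + 1 - r0 - 1 = 0 := by omega
      rw [this, h]
      exact hM
    · rw [if_neg (by omega), if_neg (by omega)]
      exact hk (by omega)
  have hK0 : ∀ i ≤ r0, K i = k0 i := fun i hi => by simp only [hK]; rw [if_pos hi]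
  have hK1 : ∀ i, K (r0 + 1 + i) = k i := fun i => by
    simp only [hK]
    rw [if_neg (by omega)]
    congr 1
    omega
  have key : ∀ r, pv z (r0 + 1 + r) K = pv z r0 k0 + ‖z (k 0) - z (k0 r0)‖ ^ 2 +
      ∑ i ∈ Finset.range r, ‖z (k (i + 1)) - z (k i)‖ ^ 2 := by
    intro r
    induction r with
    | zero =>
      rw [Finset.sum_range_zero, add_zero, add_zero, pv_succ]
      have h1 := hK1 0
      rw [add_zero] at h1
      rw [h1, hK0 r0 le_rfl]
      congr 1
      exact hump_pv_k fun i hi => hK0 i hi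
    | succ r ih =>
      rw [← add_assoc, pv_succ, ih, Finset.sum_range_succ]
      have h1 := hK1 (r + 1)
      rw [← add_assoc] at h1
      rw [h1, hK1 r]
      ring
  have h1 : pv z (r0 + 1 + r) K ≤ sSup A := le_csSup hbd ⟨_, K, hKm, rfl⟩
  rw [key r] at h1
  have h2 : (0 : ℝ) ≤ ‖z (k 0) - z (k0 r0)‖ ^ 2 := by positivity
  linarith

theorem p_hump : S_hump := by
  intro htc hfrz hlow 𝕜 _ W _ _ V hV y hy hnot
  -- infinitely many large elements
  obtain ⟨δ, hδ, hbig⟩ : ∃ δ : ℝ, 0 < δ ∧ ∀ M : ℕ, ∃ i, M ≤ i ∧ δ ≤ ‖y i‖ := by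
    by_contra hcon
    push Not at hcon
    apply hnot
    rw [Metric.tendsto_atTop]
    intro ε hε
    obtain ⟨M, hM⟩ := hcon ε hε
    refine ⟨M, fun n hn => ?_⟩
    rw [Real.dist_eq, sub_zero, abs_of_nonneg (norm_nonneg _)]
    exact hM n hn
  -- induction
  have hind : ∀ q : ℕ, ∃ (S : Finset ℕ) (a : ℕ) (u : JS V), S.card = q ∧
      (∀ j, a ≤ j → u.val j = u.val a) ∧ (q : ℝ) * (δ / 2) ^ 2 ≤ ‖u‖ ^ 2 ∧
      ‖∑ i ∈ S, y i - u‖ ≤ δ / 8 * (1 - (1 / 2) ^ q) := by
    intro q
    induction q with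
    | zero =>
      refine ⟨∅, 0, 0, Finset.card_empty, fun j _ => rfl, ?_, ?_⟩
      · simp
      · simp
    | succ q ih =>
      obtain ⟨S, a, u, hS, hu, hun, hdist⟩ := ih
      set η : ℝ := δ / 8 * (1 / 2) ^ (q + 2) with hη
      have hη0 : 0 < η := by positivity
      have hη1 : 2 * η ≤ δ / 2 := by
        have : ((1 : ℝ) / 2) ^ (q + 2) ≤ 1 := pow_le_one₀ (by norm_num) (by norm_num)
        rw [hη]
        nlinarith
      have ht1 : ∀ᶠ i in atTop, ‖trunc V a (y i)‖ < η := by
        have h1 := htc 𝕜 W V ℕ atTop y 0 (fun j => by simpa using hy j) a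
        rw [map_zero] at h1
        have h2 := h1.norm
        rw [norm_zero] at h2
        exact h2.eventually_lt_const hη0
      obtain ⟨M, hM⟩ := eventually_atTop.1 ht1
      obtain ⟨i, hi, hiδ⟩ := hbig (max M (S.sup id + 1))
      have hiM : M ≤ i := (le_max_left _ _).trans hi
      have hiS : i ∉ S := by
        intro h
        have h1 : i ≤ S.sup id := Finset.le_sup (f := id) h
        have h2 := (le_max_right M (S.sup id + 1)).trans hi
        omega
      have hit : ‖trunc V a (y i)‖ < η := hM i hiM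
      have ht2 : ∀ᶠ m in atTop, ‖frz hV m (y i) - y i‖ < η := by
        have h1 := (hfrz hump_TV 𝕜 W V hV (y i)).sub_const (y i)
        rw [sub_self] at h1
        have h2 := h1.norm
        rw [norm_zero] at h2
        exact h2.eventually_lt_const hη0
      obtain ⟨a', ha'a, ha'⟩ := ((eventually_ge_atTop a).and ht2).exists
      set w : JS V := frz hV a' (y i - trunc V a (y i)) with hw
      have hwv : ∀ j, w.val j = (y i).val (min j a') -
          (if min j a' ≤ a then (y i).val (min j a') else 0) := by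
        intro j
        rw [hw, frz_val, JS.val_sub, Pi.sub_apply, trunc_val]
      have hw0 : ∀ j, j ≤ a → w.val j = 0 := by
        intro j hj
        rw [hwv, if_pos ((min_le_left _ _).trans hj), sub_self]
      have hwc : ∀ j, a' ≤ j → w.val j = w.val a' := by
        intro j hj
        rw [hwv, hwv, min_eq_right hj, min_self]
      have hwy : ‖w - y i‖ ≤ 2 * η := by
        have e : w - y i = (frz hV a' (y i) - y i) - frz hV a' (trunc V a (y i)) := by
          rw [hw, map_sub]
          abel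
        rw [e]
        refine (norm_sub_le _ _).trans ?_
        have := norm_frz_le hV a' (trunc V a (y i))
        linarith
      have hwn : δ / 2 ≤ ‖w‖ := by
        have h1 := norm_sub_norm_le (y i) w
        rw [norm_sub_rev] at h1
        linarith
      have hlw := hlow 𝕜 W V u w a hu hw0
      refine ⟨insert i S, a', u + w, ?_, ?_, ?_, ?_⟩
      · rw [Finset.card_insert_of_notMem hiS, hS]
      · intro j hj
        rw [JS.val_add, Pi.add_apply, Pi.add_apply, hwc j hj, hu j (ha'a.trans hj), hu a' ha'a]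
      · push_cast
        have h1 : (δ / 2) ^ 2 ≤ ‖w‖ ^ 2 := pow_le_pow_left₀ (by positivity) hwn 2
        linarith
      · rw [Finset.sum_insert hiS]
        have e : y i + ∑ i ∈ S, y i - (u + w) = (∑ i ∈ S, y i - u) - (w - y i) := by abel
        rw [e]
        refine (norm_sub_le _ _).trans ?_
        have e2 : δ / 8 * (1 - (1 / 2) ^ q) + 2 * η = δ / 8 * (1 - (1 / 2) ^ (q + 1)) := by
          rw [hη]
          ring
        linarith
  refine ⟨(δ / 4) ^ 2, by positivity, fun q => ?_⟩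
  obtain ⟨S, a, u, hS, -, hun, hdist⟩ := hind q
  refine ⟨S, hS, ?_⟩
  rcases Nat.eq_zero_or_pos q with hq | hq
  · subst hq
    simp only [Nat.cast_zero, mul_zero]
    positivity
  · have hq1 : (1 : ℝ) ≤ √(q : ℝ) := by
      rw [Real.one_le_sqrt]
      exact_mod_cast hq
    have hsq : √(q : ℝ) ^ 2 = q := Real.sq_sqrt (Nat.cast_nonneg q)
    have h1 : √(q : ℝ) * (δ / 2) ≤ ‖u‖ := by
      refine le_of_sq_le_sq ?_ (norm_nonneg _)
      rw [mul_pow, hsq]
      exact hun
    have h2 : δ / 8 * (1 - (1 / 2) ^ q) ≤ δ / 8 := by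
      have : (0 : ℝ) ≤ (1 / 2) ^ q := by positivity
      nlinarith
    have h3 : ‖u‖ - ‖∑ i ∈ S, y i‖ ≤ ‖∑ i ∈ S, y i - u‖ := by
      have := norm_sub_norm_le u (∑ i ∈ S, y i)
      rwa [norm_sub_rev] at this
    have h4 : √(q : ℝ) * (δ / 4) ≤ ‖∑ i ∈ S, y i‖ := by nlinarith
    calc (δ / 4) ^ 2 * (q : ℝ) = (√(q : ℝ) * (δ / 4)) ^ 2 := by rw [mul_pow, hsq]; ring
      _ ≤ ‖∑ i ∈ S, y i‖ ^ 2 := pow_le_pow_left₀ (by positivity) h4 2

end Pool.Agent.Lib.MP_355270_an.CB
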