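import Pool.Agent.Lib.MP_355270_an.CB.StmA

open Filter Topology

namespace Pool.Agent.Lib.MP_355270_an.CB

theorem p_L3 : S_L3 := by
  intro hhump hcoord hsum htc hfrz hlow _ 𝕜 _ W _ _ _ V D h D0 hD0 j x hx
  by_contra hcon
  obtain ⟨c, hc, hq⟩ := hhump htc hfrz hlow 𝕜 W V h.mono
    (fun i => D0 (cst h.mono (j i) (x i))) (hcoord 𝕜 W V D h D0 hD0 j x hx) hcon
  -- choose q large
  obtain ⟨n, hn⟩ := exists_nat_gt (64 * ‖D0‖ ^ 6 / c ^ 3)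
  have hq1 : 64 * ‖D0‖ ^ 6 < c ^ 3 * (n + 1 : ℝ) := by
    rw [div_lt_iff₀ (by positivity)] at hn
    nlinarith [pow_pos hc 3]
  obtain ⟨S, hS, hb⟩ := hq (n + 1)
  have h3 := hsum 𝕜 W V D h D0 hD0 j x hx S
  rw [hS] at h3
  set s := ‖∑ i ∈ S, D0 (cst h.mono (j i) (x i))‖ with hs
  have hs0 : 0 ≤ s := norm_nonneg _
  push_cast at hb h3
  have hq0 : (0 : ℝ) < n + 1 := by positivity
  have h1 : (c * (n + 1)) ^ 3 ≤ (s ^ 2) ^ 3 := pow_le_pow_left₀ (by positivity) hb 3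
  have h2 : (s ^ 3) ^ 2 ≤ (8 * ‖D0‖ ^ 3 * (n + 1)) ^ 2 := pow_le_pow_left₀ (by positivity) h3 2
  have h4 : (c * ((n : ℝ) + 1)) ^ 3 ≤ (8 * ‖D0‖ ^ 3 * (n + 1)) ^ 2 := by
    calc (c * ((n : ℝ) + 1)) ^ 3 ≤ (s ^ 2) ^ 3 := h1
      _ = (s ^ 3) ^ 2 := by ring
      _ ≤ _ := h2
  have h5 : (c ^ 3 * (n + 1 : ℝ)) * ((n : ℝ) + 1) ^ 2 ≤ (64 * ‖D0‖ ^ 6) * ((n : ℝ) + 1) ^ 2 := by
    calc (c ^ 3 * (n + 1 : ℝ)) * ((n : ℝ) + 1) ^ 2 = (c * ((n : ℝ) + 1)) ^ 3 := by ring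
      _ ≤ (8 * ‖D0‖ ^ 3 * (n + 1)) ^ 2 := h4
      _ = _ := by ring
  have h6 := le_of_mul_le_mul_right h5 (by positivity)
  linarith

end Pool.Agent.Lib.MP_355270_an.CB
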