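import Pool.Agent.Lib.MP_355270_an.CB.StmA

open Filter Topology

namespace Pool.Agent.Lib.MP_355270_an.CB

private theorem L3coord_real (a : ℕ → ℝ) (ha : ∀ i, 0 ≤ a i) (M : ℝ)
    (h : ∀ S : Finset ℕ, (∑ i ∈ S, a i) ^ 3 ≤ M * (S.card : ℝ)) : Tendsto a atTop (𝓝 0) := by
  by_contra hcon
  rw [Metric.tendsto_atTop] at hcon
  push Not at hcon
  obtain ⟨ε, hε, hinf⟩ := hcon
  have hinf2 : {i | ε ≤ a i}.Infinite := by
    rw [Set.infinite_iff_exists_gt]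
    intro n
    obtain ⟨i, hi, hai⟩ := hinf (n + 1)
    refine ⟨i, ?_, by omega⟩
    rw [Real.dist_eq, sub_zero, abs_of_nonneg (ha i)] at hai
    exact hai
  obtain ⟨q, hq⟩ := exists_nat_gt (M / ε ^ 3)
  obtain ⟨S, hS, hcard⟩ := hinf2.exists_subset_card_eq (q + 1)
  have h1 := h S
  rw [hcard] at h1
  have h2 : ((q + 1 : ℕ) : ℝ) * ε ≤ ∑ i ∈ S, a i := by
    rw [← hcard, ← nsmul_eq_mul]
    exact Finset.card_nsmul_le_sum _ _ _ fun i hi => hS hi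
  have hq1 : (1 : ℝ) ≤ ((q + 1 : ℕ) : ℝ) := by
    push_cast
    have : (0 : ℝ) ≤ (q : ℝ) := Nat.cast_nonneg q
    linarith
  have hqM : M < ((q + 1 : ℕ) : ℝ) * ε ^ 3 := by
    rw [div_lt_iff₀ (by positivity)] at hq
    push_cast
    nlinarith [pow_pos hε 3]
  generalize ((q + 1 : ℕ) : ℝ) = Q at h1 h2 hq1 hqM
  have h3 : (Q * ε) ^ 3 ≤ M * Q :=
    (pow_le_pow_left₀ (by positivity) h2 3).trans h1
  have h4 : M * Q < Q * ε ^ 3 * Q := mul_lt_mul_of_pos_right hqM (by linarith)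
  have h5 : Q * ε ^ 3 * Q ≤ (Q * ε) ^ 3 := by
    have h6 : 0 ≤ Q ^ 2 * ε ^ 3 := by positivity
    have h7 : (Q * ε) ^ 3 = Q ^ 2 * ε ^ 3 * Q := by ring
    have h8 : Q * ε ^ 3 * Q = Q ^ 2 * ε ^ 3 * 1 := by ring
    rw [h7, h8]
    exact mul_le_mul_of_nonneg_left hq1 h6
  linarith

section

variable {𝕜 : Type} [RCLike 𝕜] {W : Type} [NormedAddCommGroup W] [NormedSpace 𝕜 W]
  {V : ℕ → Submodule 𝕜 W}

private theorem L3coord_sum (hV : Monotone V) (D0 : JS V →L[𝕜] JS V)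
    (h0 : ∀ z : JS V, Tendsto z.val atTop (𝓝 0) → D0 z = 0) (j : ℕ → ℕ) (x : ∀ i, V (j i))
    (S : Finset ℕ) (c : ℕ → 𝕜) :
    ∃ (J : ℕ) (y : V J), (y : W) = ∑ i ∈ S, c i • (x i : W) ∧
      ∑ i ∈ S, c i • D0 (cst hV (j i) (x i)) = D0 (cst hV J y) := by
  have hmem : ∀ i ∈ S, (x i : W) ∈ V (S.sup j) := fun i hi => hV (Finset.le_sup hi) (x i).2
  have hy : ∑ i ∈ S, c i • (x i : W) ∈ V (S.sup j) :=
    (V (S.sup j)).sum_mem fun i hi => (V (S.sup j)).smul_mem _ (hmem i hi)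
  refine ⟨S.sup j, ⟨_, hy⟩, rfl, ?_⟩
  have h1 : ∑ i ∈ S, c i • D0 (cst hV (j i) (x i)) =
      D0 (∑ i ∈ S, c i • cst hV (j i) (x i)) := by
    rw [map_sum]
    simp only [map_smul]
  rw [h1, ← sub_eq_zero, ← map_sub]
  apply h0
  have h2 : ∀ idx, (∑ i ∈ S, c i • cst hV (j i) (x i)).val idx =
      ∑ i ∈ S, c i • (if j i ≤ idx then (x i : W) else 0) := by
    intro idx
    rw [← JS.coord_apply, map_sum]
    refine Finset.sum_congr rfl fun i _ => ?_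
    rw [map_smul, JS.coord_apply, cst_val]
  refine tendsto_const_nhds.congr' ?_
  filter_upwards [eventually_ge_atTop (S.sup j)] with idx hidx
  rw [JS.val_sub, Pi.sub_apply, h2, cst_val, if_pos hidx]
  have h3 : ∑ i ∈ S, c i • (if j i ≤ idx then (x i : W) else 0) = ∑ i ∈ S, c i • (x i : W) :=
    Finset.sum_congr rfl fun i hi => by rw [if_pos ((Finset.le_sup hi).trans hidx)]
  rw [h3, sub_self]

end

theorem p_L3coord : S_L3coord := by
  intro 𝕜 _ W _ _ _ V D h D0 h0 j x hup m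
  have hfin : FiniteDimensional 𝕜 (V m) := h.fin m
  set s : ℕ → V m := fun i => ⟨(D0 (cst h.mono (j i) (x i))).val m, JS.mem _ m⟩ with hs
  suffices hsuff : Tendsto s atTop (𝓝 0) by
    have h1 := (continuous_subtype_val.tendsto (0 : V m)).comp hsuff
    exact h1
  set E := (Module.finBasis 𝕜 (V m)).equivFunL with hE
  have key : Tendsto (fun i => E (s i)) atTop (𝓝 0) := by
    rw [tendsto_pi_nhds]
    intro k
    rw [Pi.zero_apply, tendsto_zero_iff_norm_tendsto_zero]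
    set φ : V m →L[𝕜] 𝕜 := (ContinuousLinearMap.proj (R := 𝕜) (φ := fun _ => 𝕜) k).comp
      (E : V m →L[𝕜] (Fin (Module.finrank 𝕜 (V m)) → 𝕜)) with hφ
    have hφE : ∀ v : V m, E v k = φ v := fun v => rfl
    simp only [hφE]
    refine L3coord_real _ (fun i => norm_nonneg _) ((‖φ‖ * ‖D0‖) ^ 3 * 8) fun S => ?_
    choose c hc1 hc2 using fun i => RCLike.exists_norm_eq_mul_self (φ (s i))
    obtain ⟨J, y, hy, hsum⟩ := L3coord_sum h.mono D0 h0 j x S c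
    have h3 := hup S c fun i => (hc1 i).le
    rw [← hy] at h3
    have h4 : ((∑ i ∈ S, c i • s i : V m) : W) = (D0 (cst h.mono J y)).val m := by
      rw [← hsum, ← JS.coord_apply, map_sum, Submodule.coe_sum]
      refine Finset.sum_congr rfl fun i _ => ?_
      rw [map_smul, JS.coord_apply]
      rfl
    have h5 : ‖(∑ i ∈ S, c i • s i : V m)‖ ≤ ‖D0‖ * ‖(y : W)‖ := by
      have h5' : ‖(∑ i ∈ S, c i • s i : V m)‖ = ‖((∑ i ∈ S, c i • s i : V m) : W)‖ := rfl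
      rw [h5', h4]
      exact (JS.norm_val_le _ m).trans ((D0.le_opNorm _).trans
        (mul_le_mul_of_nonneg_left (norm_cst_le h.mono J y) (norm_nonneg _)))
    have h6 : ((∑ i ∈ S, ‖φ (s i)‖ : ℝ) : 𝕜) = φ (∑ i ∈ S, c i • s i) := by
      rw [map_sum]
      push_cast
      refine Finset.sum_congr rfl fun i _ => ?_
      rw [map_smul, smul_eq_mul]
      exact hc2 i
    have h7 : ∑ i ∈ S, ‖φ (s i)‖ ≤ ‖φ‖ * (‖D0‖ * ‖(y : W)‖) := by
      have h8 : ∑ i ∈ S, ‖φ (s i)‖ = ‖φ (∑ i ∈ S, c i • s i)‖ := by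
        rw [← h6, RCLike.norm_ofReal, abs_of_nonneg (Finset.sum_nonneg fun i _ => norm_nonneg _)]
      rw [h8]
      exact (φ.le_opNorm _).trans (mul_le_mul_of_nonneg_left h5 (norm_nonneg _))
    calc (∑ i ∈ S, ‖φ (s i)‖) ^ 3 ≤ (‖φ‖ * (‖D0‖ * ‖(y : W)‖)) ^ 3 :=
          pow_le_pow_left₀ (Finset.sum_nonneg fun i _ => norm_nonneg _) h7 3
      _ = (‖φ‖ * ‖D0‖) ^ 3 * ‖(y : W)‖ ^ 3 := by ring
      _ ≤ (‖φ‖ * ‖D0‖) ^ 3 * (8 * (S.card : ℝ)) :=
          mul_le_mul_of_nonneg_left h3 (by positivity)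
      _ = (‖φ‖ * ‖D0‖) ^ 3 * 8 * (S.card : ℝ) := by ring
  have h9 := (E.symm.continuous.tendsto 0).comp key
  simpa [Function.comp_def] using h9

end Pool.Agent.Lib.MP_355270_an.CB
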