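import Pool.Agent.Lib.MP_355270_an.CB.StmA

open Filter Topology

namespace Pool.Agent.Lib.MP_355270_an.CB

theorem p_L3sum : S_L3sum := by
  intro 𝕜 _ W _ _ V D h D0 hD0 j x hup S
  -- a common index
  obtain ⟨J, hJ⟩ : ∃ J, ∀ i ∈ S, j i ≤ J :=
    ⟨S.sup j, fun i hi => Finset.le_sup (f := j) hi⟩
  -- moving the index
  have hmove : ∀ (a : ℕ) (u : V a) (v : V J), a ≤ J → (u : W) = (v : W) →
      D0 (cst h.mono a u) = D0 (cst h.mono J v) := by
    intro a u v ha huv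
    rw [← sub_eq_zero, ← map_sub]
    refine hD0 _ ?_
    refine tendsto_const_nhds.congr' ?_
    filter_upwards [eventually_ge_atTop J] with i hi
    rw [JS.val_sub, Pi.sub_apply, cst_val, cst_val, if_pos (ha.trans hi), if_pos hi, huv, sub_self]
  let v : ℕ → V J := fun i => if hi : i ∈ S then ⟨(x i : W), h.mono (hJ i hi) (x i).2⟩ else 0
  have hv : ∀ i (hi : i ∈ S), ((v i : V J) : W) = (x i : W) := by
    intro i hi
    simp only [v, dif_pos hi]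
  have hsum : ∑ i ∈ S, D0 (cst h.mono (j i) (x i)) = D0 (cst h.mono J (∑ i ∈ S, v i)) := by
    rw [map_sum, map_sum]
    refine Finset.sum_congr rfl fun i hi => ?_
    exact hmove (j i) (x i) (v i) (hJ i hi) (hv i hi).symm
  have hnorm : ‖(∑ i ∈ S, v i : V J)‖ = ‖∑ i ∈ S, (x i : W)‖ := by
    have e : ((∑ i ∈ S, v i : V J) : W) = ∑ i ∈ S, (x i : W) := by
      rw [AddSubmonoidClass.coe_finsetSum]
      exact Finset.sum_congr rfl fun i hi => hv i hi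
    rw [← e]
    rfl
  have h1 : ‖∑ i ∈ S, (x i : W)‖ ^ 3 ≤ 8 * (S.card : ℝ) := by
    have := hup S (fun _ => 1) (fun _ => by simp)
    simpa using this
  rw [hsum]
  have h2 : ‖D0 (cst h.mono J (∑ i ∈ S, v i))‖ ≤ ‖D0‖ * ‖∑ i ∈ S, (x i : W)‖ := by
    refine (D0.le_opNorm _).trans ?_
    refine mul_le_mul_of_nonneg_left ?_ (norm_nonneg _)
    rw [← hnorm]
    exact norm_cst_le h.mono J _
  calc ‖D0 (cst h.mono J (∑ i ∈ S, v i))‖ ^ 3 ≤ (‖D0‖ * ‖∑ i ∈ S, (x i : W)‖) ^ 3 :=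
        pow_le_pow_left₀ (norm_nonneg _) h2 3
    _ = ‖D0‖ ^ 3 * ‖∑ i ∈ S, (x i : W)‖ ^ 3 := by ring
    _ ≤ ‖D0‖ ^ 3 * (8 * (S.card : ℝ)) := mul_le_mul_of_nonneg_left h1 (by positivity)
    _ = 8 * ‖D0‖ ^ 3 * (S.card : ℝ) := by ring

end Pool.Agent.Lib.MP_355270_an.CB
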