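import Pool.Agent.Lib.MP_355270_an.CB.StmA

open Filter Topology

namespace Pool.Agent.Lib.MP_355270_an.CB

theorem TV_concat {W : Type} [NormedAddCommGroup W] (z : ℕ → W) (r0 : ℕ) (k0 k : ℕ → ℕ) (r : ℕ) :
    pv z (r0 + 1 + r) (fun i => if i ≤ r0 then k0 i else k (i - (r0 + 1))) =
      pv z r0 k0 + ‖z (k 0) - z (k0 r0)‖ ^ 2 +
        ∑ i ∈ Finset.range r, ‖z (k (i + 1)) - z (k i)‖ ^ 2 := by
  induction r with
  | zero =>
    rw [add_zero, pv_succ, Finset.sum_range_zero, add_zero]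
    have h1 : pv z r0 (fun i => if i ≤ r0 then k0 i else k (i - (r0 + 1))) = pv z r0 k0 := by
      unfold pv
      refine Finset.sum_congr rfl fun i hi => ?_
      rw [Finset.mem_range] at hi
      cases i with
      | zero => simp
      | succ i =>
        have e1 : i + 1 ≤ r0 := by omega
        have e2 : i ≤ r0 := by omega
        simp only [inc_succ, if_pos e1, if_pos e2]
    rw [h1]
    simp
  | succ r ih =>
    rw [← add_assoc, pv_succ, ih, Finset.sum_range_succ, ← add_assoc]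
    congr 1
    have h1 : ¬ (r0 + 1 + r + 1 ≤ r0) := by omega
    have h2 : ¬ (r0 + 1 + r ≤ r0) := by omega
    have h3 : r0 + 1 + r + 1 - (r0 + 1) = r + 1 := by omega
    have h4 : r0 + 1 + r - (r0 + 1) = r := by omega
    simp only [if_neg h1, if_neg h2, h3, h4]

theorem p_TV : S_TV := by
  intro W _ z C ε hz hε
  set S : Set ℝ := {a | ∃ (r : ℕ) (k : ℕ → ℕ), Monotone k ∧ pv z r k = a} with hS
  have hne : S.Nonempty := ⟨pv z 0 (fun _ => 0), 0, _, monotone_const, rfl⟩
  have hbd : BddAbove S := by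
    refine ⟨C ^ 2, ?_⟩
    rintro a ⟨r, k, hk, rfl⟩
    exact hz.2 r k hk
  obtain ⟨a, ⟨r0, k0, hk0, rfl⟩, ha⟩ := exists_lt_of_lt_csSup hne (sub_lt_self (sSup S) hε)
  refine ⟨k0 r0, fun r k hk hM => ?_⟩
  have hK : Monotone (fun i => if i ≤ r0 then k0 i else k (i - (r0 + 1))) := by
    refine monotone_nat_of_le_succ fun i => ?_
    by_cases h1 : i + 1 ≤ r0
    · simp only [if_pos h1, if_pos ((Nat.le_succ i).trans h1)]
      exact hk0 (Nat.le_succ i)
    · by_cases h2 : i ≤ r0
      · simp only [if_neg h1, if_pos h2]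
        have : i + 1 - (r0 + 1) = 0 := by omega
        rw [this]
        exact (hk0 h2).trans hM
      · simp only [if_neg h1, if_neg h2]
        exact hk (by omega)
  have h := le_csSup hbd ⟨r0 + 1 + r, _, hK, rfl⟩
  rw [TV_concat] at h
  have h0 : 0 ≤ ‖z (k 0) - z (k0 r0)‖ ^ 2 := by positivity
  linarith

end Pool.Agent.Lib.MP_355270_an.CB
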