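import Pool.Agent.Lib.MP_355270_an.CB.StmA
import Pool.Agent.Lib.MP_355270_an.CB.P.TV

open Filter Topology

namespace Pool.Agent.Lib.MP_355270_an.CB

theorem p_P1 : S_P1 := by
  intro hTT 𝕜 _ W _ _ V D Y _ _ T Tinf hT x hx
  have hz : Tendsto x.1.1.val atTop (𝓝 0) := by
    have h := XS.tends x
    rwa [hx, map_zero] at h
  have h1 : Tendsto (fun m => trunc V m x.1.1) atTop (𝓝 x.1.1) := hTT p_TV 𝕜 W V x.1.1 hz
  have h2 : Tendsto (fun m => incX V D m x.1.1) atTop (𝓝 x) := by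
    rw [tendsto_subtype_rng]
    have h3 : Tendsto (fun m => (trunc V m x.1.1, (0 : W))) atTop (𝓝 (x.1.1, (0 : W))) :=
      h1.prodMk_nhds tendsto_const_nhds
    have h4 : (x.1.1, (0 : W)) = (x : JS V × W) := by
      rw [← hx]
    rw [h4] at h3
    exact h3
  have h5 : Tendsto (fun m => T (incX V D m x.1.1)) atTop (𝓝 (T x)) :=
    (T.continuous.tendsto x).comp h2
  have h6 : Tendsto (fun m => (T.comp (incX V D m)) x.1.1) atTop (𝓝 (Tinf x.1.1)) :=
    ((ContinuousLinearMap.apply 𝕜 Y x.1.1).continuous.tendsto Tinf).comp hT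
  exact tendsto_nhds_unique h6 h5

end Pool.Agent.Lib.MP_355270_an.CB
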