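import Pool.Agent.Lib.MP_355270_an.CB.StmA

open Filter Topology

namespace Pool.Agent.Lib.MP_355270_an.CB

theorem P2_incX {𝕜 : Type} [RCLike 𝕜] {W : Type*} [NormedAddCommGroup W] [NormedSpace 𝕜 W]
    {V : ℕ → Submodule 𝕜 W} {D : W →L[𝕜] W} {α : Type} {l : Filter α} {zν : α → JS V} {z : JS V}
    {m : ℕ} (h : Tendsto (fun a => trunc V m (zν a)) l (𝓝 (trunc V m z))) :
    Tendsto (fun a => incX V D m (zν a)) l (𝓝 (incX V D m z)) := by
  rw [tendsto_subtype_rng]
  have : (fun a => ((incX V D m (zν a) : XS V D) : JS V × W)) =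
      fun a => (trunc V m (zν a), (0 : W)) := rfl
  rw [this]
  exact h.prodMk_nhds tendsto_const_nhds

theorem p_P2 : S_P2 := by
  intro htc 𝕜 _ W _ _ V D Y _ _ T Tinf hT α l zν z C hC hz
  rw [Metric.tendsto_nhds]
  intro ε hε
  rcases l.eq_or_neBot with rfl | hl
  · exact eventually_bot
  obtain ⟨a0⟩ : Nonempty α := l.nonempty_of_neBot
  have hC0 : 0 ≤ C := (norm_nonneg _).trans (hC a0)
  set K := C + ‖z‖ + 1 with hK
  have hK0 : 0 < K := by positivity
  -- choose m
  have h1 : ∀ᶠ m in atTop, ‖T.comp (incX V D m) - Tinf‖ < ε / (2 * K) := by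
    have := (Metric.tendsto_nhds.1 hT) (ε / (2 * K)) (by positivity)
    filter_upwards [this] with m hm
    rwa [dist_eq_norm] at hm
  obtain ⟨m, hm⟩ := h1.exists
  have h2 : Tendsto (fun a => T (incX V D m (zν a))) l (𝓝 (T (incX V D m z))) :=
    (T.continuous.tendsto _).comp (P2_incX (htc 𝕜 W V α l zν z hz m))
  filter_upwards [(Metric.tendsto_nhds.1 h2) (ε / 2) (by positivity)] with a ha
  rw [dist_eq_norm] at ha ⊢
  have e : Tinf (zν a) - Tinf z = -((T.comp (incX V D m) - Tinf) (zν a - z)) +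
      (T (incX V D m (zν a)) - T (incX V D m z)) := by
    simp only [map_sub, ContinuousLinearMap.sub_apply, ContinuousLinearMap.comp_apply]
    abel
  rw [e]
  refine (norm_add_le _ _).trans_lt ?_
  rw [norm_neg]
  have h3 : ‖(T.comp (incX V D m) - Tinf) (zν a - z)‖ ≤ ε / (2 * K) * K := by
    refine (ContinuousLinearMap.le_opNorm _ _).trans ?_
    refine mul_le_mul hm.le ?_ (norm_nonneg _) (by positivity)
    refine (norm_sub_le _ _).trans ?_
    have := hC a
    rw [hK]
    linarith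
  have h4 : ε / (2 * K) * K = ε / 2 := by
    field_simp
  rw [h4] at h3
  linarith

end Pool.Agent.Lib.MP_355270_an.CB
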