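import Pool.Agent.Lib.MP_355270_an.CB.StmA

open Filter Topology

namespace Pool.Agent.Lib.MP_355270_an.CB

theorem p_T1 : S_T1 := by
  intro 𝕜 _ W _ _ V D h m
  have hmap : ∀ x : XS V D, Tendsto (mapJ D h.inv (frz h.mono m x.1.1)).val atTop
      (𝓝 (D (x.1.1.val m))) := by
    intro x
    refine tendsto_const_nhds.congr' ?_
    filter_upwards [eventually_ge_atTop m] with j hj
    rw [mapJ_val, frz_val, min_eq_right hj]
  let A : XS V D →L[𝕜] JS V × W :=
    ((mapJ D h.inv).comp ((frz h.mono m).comp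
      ((ContinuousLinearMap.fst 𝕜 (JS V) W).comp (XS V D).subtypeL))).prod
      ((JS.coord V m).comp ((ContinuousLinearMap.fst 𝕜 (JS V) W).comp (XS V D).subtypeL))
  let T1 : XS V D →L[𝕜] XS V D := A.codRestrict (XS V D) (fun x => hmap x)
  refine ⟨T1, ?_, ?_, fun x j => rfl, fun x => rfl⟩
  · -- finite rank
    haveI := h.fin
    let B : XS V D →ₗ[𝕜] (∀ j : Fin (m + 1), V j) :=
      { toFun := fun x j => ⟨x.1.1.val j, x.1.1.mem j⟩
        map_add' := fun _ _ => rfl
        map_smul' := fun _ _ => rfl }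
    have hker : LinearMap.ker B ≤ LinearMap.ker T1.toLinearMap := by
      intro x hx
      rw [LinearMap.mem_ker] at hx ⊢
      have hz : ∀ j, j ≤ m → x.1.1.val j = 0 := by
        intro j hj
        have := congrFun hx ⟨j, by omega⟩
        exact congrArg Subtype.val this
      refine Subtype.ext (Prod.ext (JS.ext fun j => ?_) ?_)
      · show D (x.1.1.val (min j m)) = 0
        rw [hz _ (min_le_right j m), map_zero]
      · show x.1.1.val m = 0
        exact hz m le_rfl
    unfold FR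
    have e1 := T1.toLinearMap.quotKerEquivRange
    haveI : FiniteDimensional 𝕜 (XS V D ⧸ LinearMap.ker T1.toLinearMap) := by
      haveI : FiniteDimensional 𝕜 (XS V D ⧸ LinearMap.ker B) :=
        Module.Finite.equiv (B.quotKerEquivRange).symm
      exact Module.Finite.of_surjective (Submodule.factor hker) (Submodule.factor_surjective hker)
    exact Module.Finite.equiv e1
  · refine ContinuousLinearMap.opNorm_le_bound _ (by positivity) fun x => ?_
    have h1 : ‖mapJ D h.inv (frz h.mono m x.1.1)‖ ≤ ‖D‖ * ‖x.1.1‖ :=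
      (norm_mapJ_le _ _ _).trans (mul_le_mul_of_nonneg_left (norm_frz_le _ _ _) (norm_nonneg _))
    have h2 : ‖x.1.1.val m‖ ≤ ‖x.1.1‖ := x.1.1.norm_val_le m
    have h3 : ‖x.1.1‖ ≤ ‖x‖ := norm_fst_le x.1
    have h4 : ‖T1 x‖ = max ‖mapJ D h.inv (frz h.mono m x.1.1)‖ ‖x.1.1.val m‖ := rfl
    rw [h4]
    have h5 : 0 ≤ ‖D‖ := norm_nonneg _
    have h6 : 0 ≤ ‖x.1.1‖ := norm_nonneg _
    refine max_le ?_ ?_
    · nlinarith
    · nlinarith

end Pool.Agent.Lib.MP_355270_an.CB
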