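import Pool.Agent.Lib.MP_355270_an.CB.StmA

open Filter Topology

namespace Pool.Agent.Lib.MP_355270_an.CB

theorem T2_comp {W : Type*} [NormedAddCommGroup W] {z : ℕ → W} {C : ℝ} (h : JBd z C) (κ : ℕ → ℕ)
    (hκ : Monotone κ) : JBd (fun j => z (κ j)) C := by
  refine ⟨h.1, fun r k hk => ?_⟩
  have : pv (fun j => z (κ j)) r k = pv z r (fun i => κ (k i)) := by
    unfold pv
    refine Finset.sum_congr rfl fun i _ => ?_
    cases i <;> rfl
  rw [this]
  exact h.2 r _ fun a b hab => hκ (hk hab)

theorem T2_lim {W : Type*} [NormedAddCommGroup W] {zn : ℕ → ℕ → W} {z : ℕ → W} {C : ℝ}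
    (h : ∀ n, JBd (zn n) C) (hz : ∀ j, Tendsto (fun n => zn n j) atTop (𝓝 (z j))) : JBd z C := by
  refine ⟨(h 0).1, fun r k hk => ?_⟩
  have h1 : Tendsto (fun n => pv (zn n) r k) atTop (𝓝 (pv z r k)) := by
    unfold pv
    refine tendsto_finsetSum _ fun i _ => ?_
    refine Tendsto.pow (Tendsto.norm ?_) 2
    cases i with
    | zero => exact hz _
    | succ i => exact (hz _).sub (hz _)
  exact le_of_tendsto h1 (Eventually.of_forall fun n => (h n).2 r k hk)

theorem T2_jbd {W : Type*} [NormedAddCommGroup W] {z : ℕ → W} {C : ℝ} (h : JBd z C) (m : ℕ) {w : W}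
    (hz : Tendsto z atTop (𝓝 w)) : JBd (fun j => if j ≤ m then z j else w) C := by
  refine T2_lim (zn := fun n j => z (if j ≤ m then j else max n m)) (fun n => ?_) (fun j => ?_)
  · refine T2_comp h _ ?_
    intro a b hab
    by_cases hb : b ≤ m
    · simp only [if_pos hb, if_pos (hab.trans hb)]
      exact hab
    · simp only [if_neg hb]
      split_ifs with ha
      · exact ha.trans (le_max_right _ _)
      · exact le_rfl
  · by_cases hj : j ≤ m
    · simp only [if_pos hj]
      exact tendsto_const_nhds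
    · simp only [if_neg hj]
      refine hz.comp (tendsto_atTop_mono (fun n => le_max_left n m) tendsto_id)

theorem T2_fr {𝕜 X Y E : Type*} [Field 𝕜] [AddCommGroup X] [Module 𝕜 X] [AddCommGroup Y]
    [Module 𝕜 Y] [AddCommGroup E] [Module 𝕜 E] [FiniteDimensional 𝕜 E] (T : X →ₗ[𝕜] Y)
    (P : X →ₗ[𝕜] E) (h : LinearMap.ker P ≤ LinearMap.ker T) :
    FiniteDimensional 𝕜 (LinearMap.range T) := by
  have h1 : FiniteDimensional 𝕜 (X ⧸ LinearMap.ker P) :=
    Module.Finite.equiv P.quotKerEquivRange.symm
  rw [← Submodule.range_liftQ (LinearMap.ker P) T h]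
  infer_instance

theorem p_T2 : S_T2 := by
  intro 𝕜 _ W _ _ V D h m G hG hGm hDG
  have hseq : ∀ x : XS V D, JBd (fun j => G (if j ≤ m then x.1.1.val j else D x.1.2)) (‖G‖ * ‖x.1.1‖) :=
    fun x => (T2_jbd x.1.1.jbd m (XS.tends x)).mapJ G
  have hmemS : ∀ (x : XS V D) (j : ℕ), G (if j ≤ m then x.1.1.val j else D x.1.2) ∈ V j := by
    intro x j
    split_ifs with hj
    · exact hG j _ (x.1.1.mem j)
    · exact h.mono (by omega : m ≤ j) (hGm _)
  have htend : ∀ x : XS V D, Tendsto (fun j => G (if j ≤ m then x.1.1.val j else D x.1.2)) atTop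
      (𝓝 (D (G x.1.2))) := by
    intro x
    rw [hDG]
    refine tendsto_const_nhds.congr' ?_
    filter_upwards [eventually_gt_atTop m] with j hj
    rw [if_neg (by omega)]
  let L : XS V D →ₗ[𝕜] XS V D :=
    { toFun := fun x => XS.mk (JS.mk _ (hmemS x) ⟨_, hseq x⟩) (G x.1.2) (htend x)
      map_add' := by
        intro x y
        refine Subtype.ext (Prod.ext (JS.ext fun j => ?_) ?_)
        · show G (if j ≤ m then x.1.1.val j + y.1.1.val j else D (x.1.2 + y.1.2)) =
            G (if j ≤ m then x.1.1.val j else D x.1.2) + G (if j ≤ m then y.1.1.val j else D y.1.2)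
          split_ifs
          · rw [map_add]
          · rw [map_add, map_add]
        · show G (x.1.2 + y.1.2) = G x.1.2 + G y.1.2
          rw [map_add]
      map_smul' := by
        intro c x
        refine Subtype.ext (Prod.ext (JS.ext fun j => ?_) ?_)
        · show G (if j ≤ m then c • x.1.1.val j else D (c • x.1.2)) =
            c • G (if j ≤ m then x.1.1.val j else D x.1.2)
          split_ifs
          · rw [map_smul]
          · rw [map_smul, map_smul]
        · show G (c • x.1.2) = c • G x.1.2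
          rw [map_smul] }
  have hL : ∀ x, ‖L x‖ ≤ ‖G‖ * ‖x‖ := by
    intro x
    have n1 : ‖x.1.1‖ ≤ ‖x‖ := norm_fst_le x.1
    have n2 : ‖x.1.2‖ ≤ ‖x‖ := norm_snd_le x.1
    have n3 : ‖(L x).1.1‖ ≤ ‖G‖ * ‖x‖ := by
      refine (JS.norm_le_of_jbd (x := (L x).1.1) (hseq x)).trans ?_
      exact mul_le_mul_of_nonneg_left n1 (norm_nonneg _)
    have n4 : ‖(L x).1.2‖ ≤ ‖G‖ * ‖x‖ := by
      refine (G.le_opNorm _).trans ?_
      exact mul_le_mul_of_nonneg_left n2 (norm_nonneg _)
    exact max_le n3 n4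
  refine ⟨L.mkContinuous ‖G‖ hL, ?_, L.mkContinuous_norm_le (norm_nonneg _) hL, ?_, fun x => rfl⟩
  · have hf : ∀ j, FiniteDimensional 𝕜 (V j) := h.fin
    let P : XS V D →ₗ[𝕜] ((j : Fin (m + 1)) → V j) × (V m × V m) :=
      { toFun := fun x => (fun j => ⟨x.1.1.val j, x.1.1.mem j⟩, ⟨G (D x.1.2), hGm _⟩, ⟨G x.1.2, hGm _⟩)
        map_add' := by
          intro x y
          refine Prod.ext (funext fun j => Subtype.ext ?_) (Prod.ext (Subtype.ext ?_) (Subtype.ext ?_))
          · rfl
          · show G (D (x.1.2 + y.1.2)) = G (D x.1.2) + G (D y.1.2)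
            rw [map_add, map_add]
          · show G (x.1.2 + y.1.2) = G x.1.2 + G y.1.2
            rw [map_add]
        map_smul' := by
          intro c x
          refine Prod.ext (funext fun j => Subtype.ext ?_) (Prod.ext (Subtype.ext ?_) (Subtype.ext ?_))
          · rfl
          · show G (D (c • x.1.2)) = c • G (D x.1.2)
            rw [map_smul, map_smul]
          · show G (c • x.1.2) = c • G x.1.2
            rw [map_smul] }
    refine T2_fr (L.mkContinuous ‖G‖ hL).toLinearMap P ?_
    intro x hx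
    rw [LinearMap.mem_ker] at hx ⊢
    have p1 : ∀ j : Fin (m + 1), x.1.1.val j = 0 := by
      intro j
      have := congrArg (fun q => ((q.1 j : V j) : W)) hx
      exact this
    have p2 : G (D x.1.2) = 0 := congrArg (fun q => ((q.2.1 : V m) : W)) hx
    have p3 : G x.1.2 = 0 := congrArg (fun q => ((q.2.2 : V m) : W)) hx
    refine Subtype.ext (Prod.ext (JS.ext fun j => ?_) ?_)
    · show G (if j ≤ m then x.1.1.val j else D x.1.2) = 0
      split_ifs with hj
      · have := p1 ⟨j, by omega⟩
        simp only at this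
        rw [this, map_zero]
      · exact p2
    · exact p3
  · intro x j
    show G (if j ≤ m then x.1.1.val j else D x.1.2) = _
    split_ifs <;> rfl

end Pool.Agent.Lib.MP_355270_an.CB
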