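import Pool.Agent.Lib.MP_355270_an.CB.StmA
import Pool.Agent.Lib.MP_355270_an.CB.P.Blocks

open Filter Topology

namespace Pool.Agent.Lib.MP_355270_an.CB

/-- The sequence `G ∘ incX m` is Cauchy for operators `G` into `𝕜 ^ d`. -/
theorem tailT_pi (hf : S_tailf) (hb : S_blocks) (𝕜 : Type) [RCLike 𝕜] (W : Type)
    [NormedAddCommGroup W] [NormedSpace 𝕜 W] (V : ℕ → Submodule 𝕜 W) (D : W →L[𝕜] W) (d : ℕ)
    (G : XS V D →L[𝕜] (Fin d → 𝕜)) : CauchySeq fun m => G.comp (incX V D m) := by
  rw [Metric.cauchySeq_iff]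
  intro ε hε
  have hδ : 0 < ε / 4 := by linarith
  have h1 : ∀ i : Fin d, ∃ m : ℕ, ∀ n, m ≤ n → ∀ z : JS V,
      ‖((ContinuousLinearMap.proj (R := 𝕜) (φ := fun _ : Fin d => 𝕜) i).comp G)
        (incX V D n z - incX V D m z)‖ ≤ ε / 4 * ‖z‖ :=
    fun i => hf hb 𝕜 W V D _ (ε / 4) hδ
  choose M hM using h1
  refine ⟨Finset.univ.sup M, fun m hm n hn => ?_⟩
  have h2 : ∀ i, M i ≤ Finset.univ.sup M := fun i => Finset.le_sup (Finset.mem_univ i)
  rw [dist_eq_norm]
  have h3 : ‖G.comp (incX V D m) - G.comp (incX V D n)‖ ≤ ε / 2 := by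
    refine ContinuousLinearMap.opNorm_le_bound _ (by linarith) fun z => ?_
    refine (pi_norm_le_iff_of_nonneg (by positivity)).2 fun i => ?_
    have e1 := hM i m ((h2 i).trans hm) z
    have e2 := hM i n ((h2 i).trans hn) z
    have e3 : (G.comp (incX V D m) - G.comp (incX V D n)) z i =
        ((ContinuousLinearMap.proj (R := 𝕜) (φ := fun _ : Fin d => 𝕜) i).comp G)
          (incX V D m z - incX V D (M i) z) -
        ((ContinuousLinearMap.proj (R := 𝕜) (φ := fun _ : Fin d => 𝕜) i).comp G)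
          (incX V D n z - incX V D (M i) z) := by
      rw [← map_sub, sub_sub_sub_cancel_right]
      simp only [sub_apply, ContinuousLinearMap.comp_apply,
        ContinuousLinearMap.proj_apply, map_sub, Pi.sub_apply]
    rw [e3]
    refine (norm_sub_le _ _).trans ?_
    linarith
  linarith

theorem p_tailT : S_tailT := by
  intro hf 𝕜 _ W _ _ V D Y _ _ T hT
  have hb : S_blocks := p_blocks
  have : FiniteDimensional 𝕜 T.toLinearMap.range := hT
  set R := T.toLinearMap.range with hR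
  let T' : XS V D →L[𝕜] R := T.codRestrict R fun x => ⟨x, rfl⟩
  let e : R ≃L[𝕜] (Fin (Module.finrank 𝕜 R) → 𝕜) := (Module.finBasis 𝕜 R).equivFunL
  have h1 := tailT_pi hf hb 𝕜 W V D _ (e.toContinuousLinearMap.comp T')
  let P : (Fin (Module.finrank 𝕜 R) → 𝕜) →L[𝕜] Y := R.subtypeL.comp e.symm.toContinuousLinearMap
  have h2 := h1.map ((ContinuousLinearMap.compL 𝕜 (JS V) _ Y P).uniformContinuous)
  have h3 : (fun m => T.comp (incX V D m)) = (fun S => ContinuousLinearMap.compL 𝕜 (JS V) _ Y P S) ∘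
      fun m => (e.toContinuousLinearMap.comp T').comp (incX V D m) := by
    funext m
    ext z
    simp only [P, T', Function.comp_apply, ContinuousLinearMap.compL_apply,
      ContinuousLinearMap.comp_apply, ContinuousLinearEquiv.coe_coe,
      ContinuousLinearEquiv.symm_apply_apply, Submodule.subtypeL_apply]
    rfl
  rw [h3]
  exact h2

end Pool.Agent.Lib.MP_355270_an.CB
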