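import Pool.Agent.Lib.MP_355270_an.CB.StmA

open Filter Topology

namespace Pool.Agent.Lib.MP_355270_an.CB

theorem Tb_lift {𝕜 : Type} [RCLike 𝕜] {W : Type} [NormedAddCommGroup W] [NormedSpace 𝕜 W]
    {V : ℕ → Submodule 𝕜 W} {D : W →L[𝕜] W} (h : ASys V D) (j : ℕ) (w : W) (hw : w ∈ V j) :
    ∃ x : XS V D, x.1.2 = w ∧ ‖x‖ ≤ (‖D‖ + 1) * ‖w‖ := by
  have ht : Tendsto (cst h.mono j ⟨D w, h.inv j w hw⟩).val atTop (𝓝 (D w)) := by
    refine tendsto_const_nhds.congr' ?_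
    filter_upwards [eventually_ge_atTop j] with i hi
    rw [cst_val, if_pos hi]
  refine ⟨XS.mk (cst h.mono j ⟨D w, h.inv j w hw⟩) w ht, rfl, ?_⟩
  have h1 : ‖cst h.mono j ⟨D w, h.inv j w hw⟩‖ ≤ ‖D‖ * ‖w‖ :=
    (norm_cst_le h.mono j _).trans (D.le_opNorm w)
  have h2 : ‖XS.mk (cst h.mono j ⟨D w, h.inv j w hw⟩) w ht‖ =
      max ‖cst h.mono j ⟨D w, h.inv j w hw⟩‖ ‖w‖ := rfl
  rw [h2]
  have h3 := norm_nonneg w
  have h4 := norm_nonneg D
  refine max_le ?_ ?_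
  · nlinarith
  · nlinarith

theorem p_Tb : S_Tb := by
  intro 𝕜 _ W _ _ V D h hd Y _ _ R hFR hR0
  have hR : ∀ x y : XS V D, x.1.2 = y.1.2 → R x = R y := by
    intro x y hxy
    have h1 := hR0 (x - y) (by
      show x.1.2 - y.1.2 = 0
      rw [hxy, sub_self])
    rw [map_sub] at h1
    exact sub_eq_zero.1 h1
  have hE : ∀ w, w ∈ (⨆ j, V j : Submodule 𝕜 W) ↔ ∃ j, w ∈ V j := fun w =>
    Submodule.mem_iSup_of_directed V h.mono.directed_le
  have hx : ∀ w : (⨆ j, V j : Submodule 𝕜 W), ∃ x : XS V D, x.1.2 = w ∧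
      ‖x‖ ≤ (‖D‖ + 1) * ‖(w : W)‖ := by
    rintro ⟨w, hw⟩
    obtain ⟨j, hj⟩ := (hE w).1 hw
    exact Tb_lift h j w hj
  choose X hX1 hX2 using hx
  have hfin : FiniteDimensional 𝕜 R.toLinearMap.range := hFR
  have hcomp : CompleteSpace R.toLinearMap.range := FiniteDimensional.complete 𝕜 _
  let L0 : (⨆ j, V j : Submodule 𝕜 W) →ₗ[𝕜] R.toLinearMap.range :=
    { toFun := fun w => ⟨R (X w), LinearMap.mem_range_self R.toLinearMap (X w)⟩
      map_add' := by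
        intro a b
        apply Subtype.ext
        show R (X (a + b)) = R (X a) + R (X b)
        rw [← map_add]
        refine hR _ _ ?_
        show (X (a + b)).1.2 = (X a).1.2 + (X b).1.2
        rw [hX1, hX1, hX1]
        rfl
      map_smul' := by
        intro c a
        apply Subtype.ext
        show R (X (c • a)) = c • R (X a)
        rw [← map_smul]
        refine hR _ _ ?_
        show (X (c • a)).1.2 = c • (X a).1.2
        rw [hX1, hX1]
        rfl }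
  have hL0 : ∀ w, ‖L0 w‖ ≤ ((‖D‖ + 1) * ‖R‖) * ‖(⨆ j, V j : Submodule 𝕜 W).subtype w‖ := by
    intro w
    have h1 : ‖L0 w‖ = ‖R (X w)‖ := rfl
    rw [h1]
    calc ‖R (X w)‖ ≤ ‖R‖ * ‖X w‖ := R.le_opNorm _
      _ ≤ ‖R‖ * ((‖D‖ + 1) * ‖(w : W)‖) := mul_le_mul_of_nonneg_left (hX2 w) R.opNorm_nonneg
      _ = ((‖D‖ + 1) * ‖R‖) * ‖(w : W)‖ := by ring
  have hdense : DenseRange (⨆ j, V j : Submodule 𝕜 W).subtype := by
    refine h.dense.mono ?_
    intro w hw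
    rw [Set.mem_iUnion] at hw
    obtain ⟨j, hj⟩ := hw
    exact ⟨⟨w, (hE w).2 ⟨j, hj⟩⟩, rfl⟩
  have hC : 0 ≤ (‖D‖ + 1) * ‖R‖ := by positivity
  let T0 : W →L[𝕜] R.toLinearMap.range := L0.extendOfNorm (⨆ j, V j : Submodule 𝕜 W).subtype
  have hT0 : ∀ w, T0 ((⨆ j, V j : Submodule 𝕜 W).subtype w) = L0 w :=
    LinearMap.extendOfNorm_eq hdense ⟨_, hL0⟩
  have hT0n : ‖T0‖ ≤ (‖D‖ + 1) * ‖R‖ := LinearMap.opNorm_extendOfNorm_le hdense hC hL0
  refine ⟨R.toLinearMap.range.subtypeL.comp T0, ?_, ?_, ?_⟩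
  · have hle : (R.toLinearMap.range.subtypeL.comp T0).toLinearMap.range ≤
        R.toLinearMap.range := by
      rintro _ ⟨w, rfl⟩
      exact (T0 w).2
    exact Submodule.finiteDimensional_of_le hle
  · have hc1 : Continuous fun x : XS V D => R x := R.continuous
    have hc2 : Continuous fun x : XS V D =>
        (R.toLinearMap.range.subtypeL.comp T0) (prW V D x) :=
      (R.toLinearMap.range.subtypeL.comp T0).continuous.comp (prW V D).continuous
    have := Continuous.ext_on hd hc1 hc2 (by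
      rintro x ⟨M, hM, -⟩
      have h1 : T0 x.1.2 = L0 ⟨x.1.2, (hE _).2 ⟨M, hM⟩⟩ := hT0 ⟨x.1.2, (hE _).2 ⟨M, hM⟩⟩
      show R x = (T0 x.1.2 : Y)
      rw [h1]
      show R x = R (X _)
      refine hR _ _ ?_
      rw [hX1])
    intro x
    exact congrFun this x
  · refine ContinuousLinearMap.opNorm_le_bound _ hC fun w => ?_
    have h1 : ‖(R.toLinearMap.range.subtypeL.comp T0) w‖ = ‖T0 w‖ := rfl
    rw [h1]
    exact (T0.le_opNorm w).trans (mul_le_mul_of_nonneg_right hT0n (norm_nonneg _))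

end Pool.Agent.Lib.MP_355270_an.CB
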