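import Pool.Agent.Lib.MP_355270_an.CB.StmA

open Filter Topology

namespace Pool.Agent.Lib.MP_355270_an.CB

theorem truncCoord_jbd {W : Type*} [NormedAddCommGroup W] (z : ℕ → W) (m : ℕ) :
    JBd (trc m z) (∑ j ∈ Finset.range (m + 1), 2 * ‖z j‖) := by
  induction m with
  | zero =>
    have e : trc 0 z = trc 0 (cs 0 (z 0)) := by
      funext j
      unfold trc cs
      by_cases h : j ≤ 0
      · have h0 : j = 0 := by omega
        subst h0
        simp
      · rw [if_neg h, if_neg h]
    rw [e, Finset.sum_range_one]
    exact (JBd.cs 0 (z 0)).trc 0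
  | succ m ih =>
    have e : trc (m + 1) z = trc m z + trc (m + 1) (cs (m + 1) (z (m + 1))) := by
      funext j
      simp only [Pi.add_apply, trc, cs]
      rcases lt_trichotomy j (m + 1) with h | h | h
      · rw [if_pos (by omega), if_pos (by omega), if_pos (by omega), if_neg (by omega), add_zero]
      · subst h
        simp
      · rw [if_neg (by omega), if_neg (by omega), if_neg (by omega), add_zero]
    rw [e, Finset.sum_range_succ]
    exact ih.add ((JBd.cs (m + 1) (z (m + 1))).trc (m + 1))

theorem p_truncCoord : S_truncCoord := by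
  intro 𝕜 _ W _ _ V α l zν z hz m
  rw [tendsto_iff_norm_sub_tendsto_zero]
  have hlim : Tendsto (fun a => ∑ j ∈ Finset.range (m + 1), 2 * ‖(zν a).val j - z.val j‖) l
      (𝓝 0) := by
    have h0 : (∑ j ∈ Finset.range (m + 1), 2 * (0 : ℝ)) = 0 := by simp
    rw [← h0]
    refine tendsto_finsetSum _ fun j _ => ?_
    exact (tendsto_iff_norm_sub_tendsto_zero.mp (hz j)).const_mul 2
  refine squeeze_zero (fun a => norm_nonneg _) (fun a => ?_) hlim
  rw [← map_sub]
  have h := truncCoord_jbd (zν a - z).val m
  exact JS.norm_le_of_jbd (x := trunc V m (zν a - z)) h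

end Pool.Agent.Lib.MP_355270_an.CB
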