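import Pool.Agent.Lib.MP_355270_an.CB.StmA

open Filter Topology

namespace Pool.Agent.Lib.MP_355270_an.CB

/-- the variation of the tail of a sequence after the index `m` -/
theorem truncTend_pv {W : Type} [NormedAddCommGroup W] (z z' : ℕ → W) (m : ℕ)
    (h1 : ∀ j, j ≤ m → z' j = 0) (h2 : ∀ j, m < j → z' j = -z j) (k : ℕ → ℕ) (hk : Monotone k)
    (r : ℕ) :
    (k r ≤ m ∧ pv z' r k = 0) ∨ ∃ l, l ≤ r ∧ m < k l ∧
      pv z' r k = ‖z (k l)‖ ^ 2 +
        ∑ i ∈ Finset.range (r - l), ‖z (k (l + (i + 1))) - z (k (l + i))‖ ^ 2 := by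
  induction r with
  | zero =>
    by_cases h : k 0 ≤ m
    · left
      refine ⟨h, ?_⟩
      rw [pv_zero', h1 _ h, norm_zero]
      norm_num
    · right
      refine ⟨0, le_rfl, by omega, ?_⟩
      rw [pv_zero', h2 _ (by omega), norm_neg]
      simp
  | succ r ih =>
    by_cases h : k (r + 1) ≤ m
    · left
      refine ⟨h, ?_⟩
      have h' : k r ≤ m := (hk (Nat.le_succ r)).trans h
      rcases ih with ⟨_, ih⟩ | ⟨l, hl, hl', _⟩
      · rw [pv_succ, ih, h1 _ h, h1 _ h', sub_zero, norm_zero]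
        norm_num
      · exact absurd ((hk hl).trans h') (by omega)
    · right
      rcases ih with ⟨h', ih⟩ | ⟨l, hl, hl', ih⟩
      · refine ⟨r + 1, le_rfl, by omega, ?_⟩
        rw [pv_succ, ih, h1 _ h', h2 _ (by omega), sub_zero, norm_neg]
        simp
      · refine ⟨l, by omega, hl', ?_⟩
        have h3 : m < k r := hl'.trans_le (hk hl)
        have h4 : l + (r - l) = r := by omega
        have h5 : l + (r - l + 1) = r + 1 := by omega
        rw [pv_succ, ih, h2 _ (by omega), h2 _ h3, show r + 1 - l = (r - l) + 1 by omega,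
          Finset.sum_range_succ, h4, h5, ← add_assoc]
        congr 2
        rw [neg_sub_neg, norm_sub_rev]

theorem p_truncTend : S_truncTend := by
  intro hTV 𝕜 _ W _ _ V z hz
  rw [Metric.tendsto_atTop]
  intro ε hε
  obtain ⟨M, hM⟩ := hTV W z.val ‖z‖ (ε ^ 2 / 8) z.jbd (by positivity)
  obtain ⟨M', hM'⟩ := Metric.tendsto_atTop.1 hz (ε / 3) (by positivity)
  refine ⟨max M M', fun m hm => ?_⟩
  rw [dist_eq_norm]
  have hm1 : M ≤ m := (le_max_left _ _).trans hm
  have hm2 : M' ≤ m := (le_max_right _ _).trans hm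
  refine lt_of_le_of_lt (b := ε / 2) ?_ (by linarith)
  refine JS.norm_le_of_jbd ⟨by positivity, fun r k hk => ?_⟩
  have h1 : ∀ j, j ≤ m → (trunc V m z - z).val j = 0 := by
    intro j hj
    rw [JS.val_sub, Pi.sub_apply, trunc_val, if_pos hj, sub_self]
  have h2 : ∀ j, m < j → (trunc V m z - z).val j = -z.val j := by
    intro j hj
    rw [JS.val_sub, Pi.sub_apply, trunc_val, if_neg (by omega), zero_sub]
  rcases truncTend_pv z.val _ m h1 h2 k hk r with ⟨_, h⟩ | ⟨l, _, hl, h⟩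
  · rw [h]
    positivity
  · rw [h]
    have h3 := hM (r - l) (fun i => k (l + i)) (fun a b hab => hk (by omega))
      (by simp only [add_zero]; omega)
    have h4 := hM' (k l) (by omega)
    rw [dist_zero_right] at h4
    have h5 : ‖z.val (k l)‖ ^ 2 ≤ (ε / 3) ^ 2 :=
      pow_le_pow_left₀ (norm_nonneg _) h4.le 2
    have h6 : ‖z.val (k l)‖ ^ 2 + ∑ i ∈ Finset.range (r - l),
        ‖z.val (k (l + (i + 1))) - z.val (k (l + i))‖ ^ 2 ≤ (ε / 3) ^ 2 + ε ^ 2 / 8 :=
      add_le_add h5 h3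
    refine h6.trans ?_
    nlinarith [sq_nonneg ε]

end Pool.Agent.Lib.MP_355270_an.CB
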