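import Pool.Agent.Lib.MP_355270_an.CB.StmC
import Pool.Agent.Lib.MP_355270_an.CB.P.Core
import Pool.Agent.Lib.MP_355270_an.CB.P.Ext
import Pool.Agent.Lib.MP_355270_an.CB.P.L3
import Pool.Agent.Lib.MP_355270_an.CB.P.Arith
import Pool.Agent.Lib.MP_355270_an.CB.P.Hump
import Pool.Agent.Lib.MP_355270_an.CB.P.L3coord
import Pool.Agent.Lib.MP_355270_an.CB.P.L3sum
import Pool.Agent.Lib.MP_355270_an.CB.P.Frz
import Pool.Agent.Lib.MP_355270_an.CB.P.Lower2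
import Pool.Agent.Lib.MP_355270_an.CB.P.TV
import Pool.Agent.Lib.MP_355270_an.CB.P.Blocks
import Pool.Agent.Lib.MP_355270_an.CB.P.CompleteX
import Pool.Agent.Lib.MP_355270_an.CB.P.ExInf
import Pool.Agent.Lib.MP_355270_an.CB.P.P1
import Pool.Agent.Lib.MP_355270_an.CB.P.P2
import Pool.Agent.Lib.MP_355270_an.CB.P.TruncCoord
import Pool.Agent.Lib.MP_355270_an.CB.P.TruncTend
import Pool.Agent.Lib.MP_355270_an.CB.P.Tb
import Pool.Agent.Lib.MP_355270_an.CB.P.DenseX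
import Pool.Agent.Lib.MP_355270_an.CB.P.E2
import Pool.Agent.Lib.MP_355270_an.CB.P.D0
import Pool.Agent.Lib.MP_355270_an.CB.P.Complete
import Pool.Agent.Lib.MP_355270_an.CB.P.Closed
import Pool.Agent.Lib.MP_355270_an.CB.P.TailT
import Pool.Agent.Lib.MP_355270_an.CB.P.Tailf
import Pool.Agent.Lib.MP_355270_an.CB.P.T1
import Pool.Agent.Lib.MP_355270_an.CB.P.T2
import Pool.Agent.Lib.MP_355270_an.CB.P.AB
import Pool.Agent.Lib.MP_355270_an.CB.P.NoCAB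

open Filter Topology
open scoped ENNReal

namespace Pool.Agent.Lib.MP_355270_an.CB

theorem p_finalK (h1 : S_seq) (h2 : S_lpdiag) (h3 : S_Wasys) (h4 : S_WG) (h5 : S_Wframes) (h6 : S_CxOp) (h7 : S_CxAsys) (h8 : S_CxFrames) (h9 : S_CxG) : S_finalK := by
  intro 𝕜 _
  obtain ⟨B, hB⟩ := h1
  obtain ⟨D, hD, -⟩ := h2 (fun i => (B i).U) (fun i => (B i).D) 3 (fun i => (B i).hD)
  have hA : ASys (VW B) D := h3 B D hD
  obtain ⟨Dc, hDc, -⟩ := h6 𝕜 (WS B) D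
  have hAc : ASys (fun j => Cx.sub 𝕜 (VW B j)) Dc := h7 𝕜 (WS B) (VW B) D Dc hA hDc
  obtain ⟨G, hG1, hG2, hG3, hG4, hG5⟩ := h4 B D hD
  obtain ⟨Gc, hGc1, hGc2, hGc3, hGc4, hGc5⟩ :=
    h9 𝕜 (WS B) (VW B) D Dc hDc G 4 hG1 hG2 hG3 hG4 hG5
  obtain ⟨Fr⟩ := h8 𝕜 (WS B) (VW B) D Dc hDc (h5 B D hD hB)
  refine ⟨XS (fun j => Cx.sub 𝕜 (VW B j)) Dc, inferInstance, inferInstance, ?_, ?_, ?_⟩
  · exact p_completeX p_complete p_closed 𝕜 (Cx 𝕜 (WS B)) _ Dc hAc.fin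
  · exact p_AB p_T1 p_T2 p_denseX p_TV 𝕜 (Cx 𝕜 (WS B)) _ Dc hAc Gc 4 hGc1 hGc2 hGc3 hGc4 hGc5
  · exact p_noCAB p_core p_ext p_L3 p_arith p_hump p_L3coord p_L3sum p_frz p_lower2 p_TV p_blocks
      p_completeX p_exInf p_P1 p_P2 p_truncCoord p_truncTend p_Tb p_denseX p_E2 p_D0 p_complete
      p_closed p_tailT p_tailf 𝕜 (Cx 𝕜 (WS B)) _ Dc hAc Fr

end Pool.Agent.Lib.MP_355270_an.CB
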