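import Pool.Agent.Lib.MP_355270_an.CB.StmB

open Filter Topology
open scoped ENNReal

namespace Pool.Agent.Lib.MP_355270_an.CB

theorem p_glnorm : S_glnorm := by
  intro κ n φ
  have h3 : (3 : ℝ≥0∞).toReal = 3 := by norm_num
  have hp : 0 < (3 : ℝ≥0∞).toReal := by rw [h3]; norm_num
  let f : ∀ _ : Om κ, ℝ := fun ω => nu κ ω.1 ^ (-(1 / 3 : ℝ)) * φ ω.1 ω.2
  have key := lp.norm_sum_single (E := fun _ : Om κ => ℝ) (p := 3) hp f
    ((Finset.range n).sigma fun _ => Finset.univ)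
  rw [Finset.sum_sigma, Finset.sum_sigma] at key
  have e1 : (∑ t ∈ Finset.range n, gl κ t (φ t)) =
      ∑ a ∈ Finset.range n, ∑ s : Fin (κ + a + 2) → Bool,
        lp.single (E := fun _ : Om κ => ℝ) 3 (⟨a, s⟩ : Om κ) (f ⟨a, s⟩) := rfl
  rw [e1]
  rw [h3] at key
  rw [← Real.rpow_natCast, Nat.cast_ofNat, key]
  refine Finset.sum_congr rfl fun t _ => ?_
  rw [Finset.sum_div]
  refine Finset.sum_congr rfl fun g _ => ?_
  have hnu : 0 < nu κ t := by unfold nu; positivity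
  show ‖nu κ t ^ (-(1 / 3 : ℝ)) * φ t g‖ ^ (3 : ℝ) = |φ t g| ^ 3 / nu κ t
  rw [norm_mul, Real.norm_eq_abs, Real.norm_eq_abs, abs_of_pos (Real.rpow_pos_of_pos hnu _),
    Real.mul_rpow (Real.rpow_nonneg hnu.le _) (abs_nonneg _), ← Real.rpow_mul hnu.le]
  have e2 : (-(1 / 3 : ℝ)) * 3 = -1 := by norm_num
  rw [e2, Real.rpow_neg_one]
  have e3 : |φ t g| ^ (3 : ℝ) = |φ t g| ^ 3 := by
    rw [← Real.rpow_natCast, Nat.cast_ofNat]
  rw [e3, div_eq_mul_inv, mul_comm]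

end Pool.Agent.Lib.MP_355270_an.CB
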