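import Pool.Agent.Lib.MP_355270_an.CB.StmB
import Pool.Agent.Lib.MP_355270_an.CB.StmR

open Filter Topology
open scoped ENNReal

namespace Pool.Agent.Lib.MP_355270_an.CB

theorem p_greedy : S_greedy := by
  intro I H _ _ m d η hη
  induction d with
  | zero => exact Or.inl ⟨fun j => j.elim0, fun j => j.elim0⟩
  | succ d ih =>
    rcases ih with ⟨f, hf⟩ | ⟨D, hD, hd, hDi⟩
    · by_cases h : ∀ i, ∃ y ∈ Submodule.span ℝ (Set.range fun l : Fin d => m (f l)),
          ‖m i - y‖ ^ 2 < η
      · right
        refine ⟨Submodule.span ℝ (Set.range fun l : Fin d => m (f l)),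
          FiniteDimensional.span_of_finite ℝ (Set.finite_range _), ?_, h⟩
        have h1 := finrank_range_le_card (R := ℝ) (fun l : Fin d => m (f l))
        rw [Fintype.card_fin] at h1
        unfold Set.finrank at h1
        omega
      · left
        push Not at h
        obtain ⟨i, hi⟩ := h
        refine ⟨Fin.snoc f i, fun j => ?_⟩
        refine Fin.lastCases ?_ (fun j' => ?_) j
        · intro y hy
          rw [Fin.snoc_last]
          apply hi
          refine Submodule.span_mono ?_ hy
          rintro x ⟨l, hl, rfl⟩
          refine ⟨l.castPred hl.ne, ?_⟩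
          have e : l = (l.castPred hl.ne).castSucc := (Fin.castSucc_castPred l hl.ne).symm
          conv_rhs => rw [e]
          rw [Fin.snoc_castSucc]
        · intro y hy
          rw [Fin.snoc_castSucc]
          apply hf j'
          refine Submodule.span_mono ?_ hy
          rintro x ⟨l, hl, rfl⟩
          have hl' : l ≠ Fin.last d := (hl.trans (Fin.castSucc_lt_last j')).ne
          refine ⟨l.castPred hl', ?_, ?_⟩
          · rw [← Fin.castSucc_lt_castSucc_iff, Fin.castSucc_castPred]
            exact hl
          · have e : l = (l.castPred hl').castSucc := (Fin.castSucc_castPred l hl').symm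
            conv_lhs => rw [e]
            rw [Fin.snoc_castSucc]
    · exact Or.inr ⟨D, hD, by omega, hDi⟩

end Pool.Agent.Lib.MP_355270_an.CB
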