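import Pool.Agent.Lib.MP_355270_an.CB.StmB

open Filter Topology
open scoped ENNReal

namespace Pool.Agent.Lib.MP_355270_an.CB

theorem hS_gl_lin (κ t : ℕ) {A : Type} [Fintype A] (c : A → ℝ)
    (f : A → (Fin (κ + t + 2) → Bool) → ℝ) :
    ∑ a, c a • gl κ t (f a) = gl κ t (fun g => ∑ a, c a * f a g) := by
  unfold gl
  simp_rw [Finset.smul_sum]
  rw [Finset.sum_comm]
  refine Finset.sum_congr rfl fun g _ => ?_
  rw [Finset.mul_sum]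
  have h1 : ∀ x : ℝ, lp.single 3 (⟨t, g⟩ : Om κ) x =
      lp.lsingle (𝕜 := ℝ) (E := fun _ : Om κ => ℝ) 3 (⟨t, g⟩ : Om κ) x := fun x => rfl
  simp_rw [h1]
  rw [map_sum]
  refine Finset.sum_congr rfl fun a _ => ?_
  rw [← map_smul]
  congr 1
  rw [smul_eq_mul]
  ring

theorem hS_norm (h1 : S_glnorm) (κ : ℕ) (φ0 : (Fin (κ + 0 + 2) → Bool) → ℝ) :
    ‖gl κ 0 φ0‖ ^ 3 = (∑ g, |φ0 g| ^ 3) / nu κ 0 := by
  have h := h1 κ 1 (fun t => match t with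
    | 0 => φ0
    | _ + 1 => fun _ => 0)
  simpa using h

theorem hS_ineq1 (x : ℝ) (hx : 0 ≤ x) : x ≤ (x ^ 3 + 2) / 3 := by
  nlinarith [mul_nonneg (sq_nonneg (x - 1)) (by linarith : (0 : ℝ) ≤ x + 2)]

theorem hS_ineq2 (x : ℝ) : |x| ^ 3 ≤ (3 * x ^ 4 + 1) / 4 := by
  have h0 := abs_nonneg x
  have h4 : x ^ 4 = |x| ^ 4 := by
    rw [show x ^ 4 = (x ^ 2) ^ 2 by ring, ← sq_abs x]; ring
  rw [h4]
  nlinarith [mul_nonneg (sq_nonneg (|x| - 1)) (by positivity : (0 : ℝ) ≤ 3 * |x| ^ 2 + 2 * |x| + 1)]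

theorem p_hS (h1 : S_glnorm) : S_hS := by
  intro κ d
  -- the functions `φ_j`
  obtain ⟨φ, hφ⟩ : ∃ φ : (Fin κ → Bool) → (Fin (κ + 0 + 2) → Bool) → ℝ, ∀ j g,
      φ j g = ∑ a : Fin κ → Bool, Sw κ j a * (sg (d.σ 0 a) * walsh (d.a 0 a) g) :=
    ⟨fun j g => ∑ a : Fin κ → Bool, Sw κ j a * (sg (d.σ 0 a) * walsh (d.a 0 a) g), fun _ _ => rfl⟩
  have hnorm : ∀ j, ‖∑ a : Fin κ → Bool, Sw κ j a • d.eV 0 a‖ ^ 3 = (∑ g, |φ j g| ^ 3) / nu κ 0 := by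
    intro j
    rw [← hS_norm h1]
    congr 1
    have e1 : φ j = fun g => ∑ a : Fin κ → Bool, Sw κ j a * (sg (d.σ 0 a) * walsh (d.a 0 a) g) :=
      funext (hφ j)
    rw [e1, ← hS_gl_lin κ 0 (fun a : Fin κ → Bool => Sw κ j a)
      (fun a g => sg (d.σ 0 a) * walsh (d.a 0 a) g)]
    have e2 : (((∑ a : Fin κ → Bool, Sw κ j a • d.eV 0 a : d.V)) : L3 κ) =
        ∑ a : Fin κ → Bool, Sw κ j a • gl κ 0 fun g => sg (d.σ 0 a) * walsh (d.a 0 a) g := by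
      have e3 := map_sum d.V.subtype (fun a : Fin κ → Bool => (Sw κ j a : ℝ) • d.eV 0 a)
        Finset.univ
      exact e3
    rw [← e2]
    rfl
  have hF3 : ∑ j : Fin κ → Bool, ∑ g, φ j g ^ 4 ≤ 3 * (2 ^ κ * 2 ^ (κ + 2)) := by
    refine le_trans (le_of_eq ?_) d.F3
    refine Finset.sum_congr rfl fun j _ => Finset.sum_congr rfl fun g _ => ?_
    rw [hφ]
    congr 1
    refine Finset.sum_congr rfl fun a _ => ?_
    ring
  have hν : nu κ 0 = 2 ^ (κ + 2) := by unfold nu; rfl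
  have hνp : (0 : ℝ) < 2 ^ (κ + 2) := by positivity
  have hkp : (0 : ℝ) < 2 ^ κ := by positivity
  have hcell : ∀ j ∈ (Finset.univ : Finset (Fin κ → Bool)),
      ‖∑ a : Fin κ → Bool, Sw κ j a • d.eV 0 a‖ ≤
        (1 / (4 * 2 ^ (κ + 2))) * (∑ g, φ j g ^ 4) + 3 / 4 := by
    intro j _
    have h2 := hS_ineq1 _ (norm_nonneg (∑ a : Fin κ → Bool, Sw κ j a • d.eV 0 a))
    rw [hnorm j, hν] at h2
    have h3 : ∑ g, |φ j g| ^ 3 ≤ ∑ g, (3 * φ j g ^ 4 + 1) / 4 :=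
      Finset.sum_le_sum fun g _ => hS_ineq2 (φ j g)
    have h4 : ∑ g : Fin (κ + 0 + 2) → Bool, (3 * φ j g ^ 4 + 1) / 4 =
        3 / 4 * (∑ g, φ j g ^ 4) + 2 ^ (κ + 2) / 4 := by
      rw [← Finset.sum_div, Finset.sum_add_distrib, ← Finset.mul_sum]
      simp only [Finset.sum_const, Finset.card_univ, Fintype.card_fun, Fintype.card_bool,
        Fintype.card_fin, nsmul_eq_mul]
      push_cast
      ring
    rw [h4] at h3
    have h5 : (∑ g, |φ j g| ^ 3) / 2 ^ (κ + 2) ≤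
        (3 / 4 * (∑ g, φ j g ^ 4) + 2 ^ (κ + 2) / 4) / 2 ^ (κ + 2) :=
      div_le_div_of_nonneg_right h3 hνp.le
    have h6 : (3 / 4 * (∑ g, φ j g ^ 4) + 2 ^ (κ + 2) / 4) / 2 ^ (κ + 2) =
        3 * ((1 / (4 * 2 ^ (κ + 2))) * (∑ g, φ j g ^ 4)) + 1 / 4 := by
      field_simp
    rw [h6] at h5
    linarith
  have hsum := Finset.sum_le_sum hcell
  rw [Finset.sum_add_distrib, ← Finset.mul_sum] at hsum
  simp only [Finset.sum_const, Finset.card_univ, Fintype.card_fun, Fintype.card_bool,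
        Fintype.card_fin, nsmul_eq_mul] at hsum
  push_cast at hsum
  have h7 : (1 / (4 * 2 ^ (κ + 2))) * (∑ j : Fin κ → Bool, ∑ g, φ j g ^ 4) ≤
      (1 / (4 * 2 ^ (κ + 2))) * (3 * (2 ^ κ * 2 ^ (κ + 2))) :=
    mul_le_mul_of_nonneg_left hF3 (by positivity)
  have h8 : (1 / (4 * 2 ^ (κ + 2))) * (3 * (2 ^ κ * 2 ^ (κ + 2))) = (3 / 4 : ℝ) * 2 ^ κ := by
    field_simp
  rw [h8] at h7
  rw [one_div, inv_mul_le_iff₀ hkp]
  linarith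

end Pool.Agent.Lib.MP_355270_an.CB
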