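import Pool.Agent.Lib.MP_355270_an.CB.StmB
import Pool.Agent.Lib.MP_355270_an.CB.StmR

open Filter Topology
open scoped ENNReal

namespace Pool.Agent.Lib.MP_355270_an.CB

theorem indep_exists {I : Type} [DecidableEq I] (R : I → Finset I) (K : ℕ)
    (hR : ∀ a, (R a).card ≤ K) (A : Finset I) (hA : A.Nonempty) :
    ∃ a ∈ A, (A.filter fun c => c ∈ R a).card + (A.filter fun c => a ∈ R c).card ≤ 2 * K := by
  by_contra hcon
  push Not at hcon
  have h1 : A.card * (2 * K + 1) ≤
      ∑ a ∈ A, ((A.filter fun c => c ∈ R a).card + (A.filter fun c => a ∈ R c).card) := by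
    rw [← smul_eq_mul]
    exact Finset.card_nsmul_le_sum _ _ _ fun a ha => hcon a ha
  have h2 : ∑ a ∈ A, (A.filter fun c => c ∈ R a).card ≤ A.card * K := by
    rw [← smul_eq_mul]
    refine Finset.sum_le_card_nsmul _ _ _ fun a _ => le_trans (Finset.card_le_card ?_) (hR a)
    intro c hc
    exact (Finset.mem_filter.1 hc).2
  have h3 : ∑ a ∈ A, (A.filter fun c => a ∈ R c).card =
      ∑ a ∈ A, (A.filter fun c => c ∈ R a).card := by
    simp only [Finset.card_filter]
    exact Finset.sum_comm
  rw [Finset.sum_add_distrib, h3] at h1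
  have h4 := hA.card_pos
  nlinarith

theorem p_indep : S_indep := by
  intro I _ R K hR A
  induction A using Finset.strongInduction with
  | H A ih =>
    rcases A.eq_empty_or_nonempty with rfl | hne
    · exact ⟨∅, Finset.empty_subset _, by simp, by simp⟩
    · obtain ⟨a, ha, hcard⟩ := indep_exists R K hR A hne
      have hB : (A.filter fun c => c ≠ a ∧ c ∉ R a ∧ a ∉ R c) ⊂ A := by
        refine Finset.filter_ssubset.2 ⟨a, ha, ?_⟩
        intro h
        exact h.1 rfl
      obtain ⟨J, hJ, hc, hi⟩ := ih _ hB
      have haJ : a ∉ J := by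
        intro h
        exact (Finset.mem_filter.1 (hJ h)).2.1 rfl
      refine ⟨insert a J, ?_, ?_, ?_⟩
      · intro x hx
        rcases Finset.mem_insert.1 hx with rfl | hx
        · exact ha
        · exact (Finset.mem_filter.1 (hJ hx)).1
      · have hsub : A ⊆ (A.filter fun c => c ≠ a ∧ c ∉ R a ∧ a ∉ R c) ∪
            ({a} ∪ ((A.filter fun c => c ∈ R a) ∪ (A.filter fun c => a ∈ R c))) := by
          intro x hx
          simp only [Finset.mem_union, Finset.mem_filter, Finset.mem_singleton]
          by_cases h1 : x = a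
          · exact Or.inr (Or.inl h1)
          · by_cases h2 : x ∈ R a
            · exact Or.inr (Or.inr (Or.inl ⟨hx, h2⟩))
            · by_cases h3 : a ∈ R x
              · exact Or.inr (Or.inr (Or.inr ⟨hx, h3⟩))
              · exact Or.inl ⟨hx, h1, h2, h3⟩
        have h1 := Finset.card_le_card hsub
        have h2 := Finset.card_union_le (A.filter fun c => c ≠ a ∧ c ∉ R a ∧ a ∉ R c)
          ({a} ∪ ((A.filter fun c => c ∈ R a) ∪ (A.filter fun c => a ∈ R c)))
        have h3 := Finset.card_union_le {a}
          ((A.filter fun c => c ∈ R a) ∪ (A.filter fun c => a ∈ R c))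
        have h4 := Finset.card_union_le (A.filter fun c => c ∈ R a) (A.filter fun c => a ∈ R c)
        rw [Finset.card_singleton] at h3
        rw [Finset.card_insert_of_notMem haJ, Nat.mul_add, Nat.mul_one]
        omega
      · intro x hx c hc' hxc
        rw [Finset.mem_insert] at hx hc'
        rcases hx with hx | hx
        · rcases hc' with hc' | hc'
          · exact absurd (hx.trans hc'.symm) hxc
          · rw [hx]
            exact (Finset.mem_filter.1 (hJ hc')).2.2.1
        · rcases hc' with hc' | hc'
          · rw [hc']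
            exact (Finset.mem_filter.1 (hJ hx)).2.2.2
          · exact hi x hx c hc' hxc

end Pool.Agent.Lib.MP_355270_an.CB
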