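import Pool.Agent.Lib.MP_355270_an.CB.StmB

open Filter Topology
open scoped ENNReal

namespace Pool.Agent.Lib.MP_355270_an.CB

theorem p_jensen : S_jensen := by
  intro ι _ _ f p q hf hp hpq
  have hq : 0 < q := lt_of_lt_of_le hp hpq
  have hr : 1 ≤ q / p := by rwa [le_div_iff₀ hp, one_mul]
  have hc : (0 : ℝ) < 2 ^ Fintype.card ι := by positivity
  have hw : ∑ _θ : ι → Bool, (1 : ℝ) / 2 ^ Fintype.card ι = 1 := by
    rw [Finset.sum_const, Finset.card_univ, Fintype.card_fun, Fintype.card_bool, nsmul_eq_mul]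
    push_cast
    field_simp
  have hrad : ∀ g : (ι → Bool) → ℝ, rad g = ∑ θ, 1 / 2 ^ Fintype.card ι * g θ := by
    intro g
    unfold rad
    rw [Finset.sum_div]
    exact Finset.sum_congr rfl fun θ _ => by ring
  have h := Real.rpow_arith_mean_le_arith_mean_rpow Finset.univ
    (fun _ : ι → Bool => (1 : ℝ) / 2 ^ Fintype.card ι) (fun θ => f θ ^ p)
    (fun _ _ => by positivity) hw (fun θ _ => Real.rpow_nonneg (hf θ) p) hr
  have e1 : ∀ θ, (f θ ^ p) ^ (q / p) = f θ ^ q := by
    intro θ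
    rw [← Real.rpow_mul (hf θ), mul_div_cancel₀ _ hp.ne']
  simp only [e1] at h
  rw [← hrad, ← hrad] at h
  have h0 : 0 ≤ rad fun θ => f θ ^ p := by
    unfold rad
    exact div_nonneg (Finset.sum_nonneg fun θ _ => Real.rpow_nonneg (hf θ) p) hc.le
  calc rad (fun θ => f θ ^ p) = ((rad fun θ => f θ ^ p) ^ (q / p)) ^ (p / q) := by
        rw [← Real.rpow_mul h0]
        have : q / p * (p / q) = 1 := by field_simp
        rw [this, Real.rpow_one]
    _ ≤ (rad fun θ => f θ ^ q) ^ (p / q) :=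
        Real.rpow_le_rpow (Real.rpow_nonneg h0 _) h (by positivity)

end Pool.Agent.Lib.MP_355270_an.CB
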