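import Pool.Agent.Lib.MP_355270_an.CB.StmU

open Filter Topology
open scoped ENNReal

namespace Pool.Agent.Lib.MP_355270_an.CB

theorem p_lpdiag : S_lpdiag := by
  intro U _ _ T C hT
  have hC : 0 ≤ C := (norm_nonneg _).trans (hT 0)
  have h3 : 0 < (3 : ℝ≥0∞).toReal := by norm_num
  have hle : ∀ (w : lp U 3) i, ‖T i (w i)‖ ^ (3 : ℝ≥0∞).toReal ≤
      C ^ (3 : ℝ≥0∞).toReal * ‖w i‖ ^ (3 : ℝ≥0∞).toReal := by
    intro w i
    rw [← Real.mul_rpow hC (norm_nonneg _)]
    refine Real.rpow_le_rpow (norm_nonneg _) ?_ h3.le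
    exact ((T i).le_opNorm _).trans (mul_le_mul_of_nonneg_right (hT i) (norm_nonneg _))
  have hsum : ∀ w : lp U 3, Summable fun i => ‖w i‖ ^ (3 : ℝ≥0∞).toReal :=
    fun w => (lp.memℓp w).summable h3
  have hsumT : ∀ w : lp U 3, Summable fun i => ‖T i (w i)‖ ^ (3 : ℝ≥0∞).toReal :=
    fun w => Summable.of_nonneg_of_le (fun i => Real.rpow_nonneg (norm_nonneg _) _) (hle w)
      ((hsum w).mul_left _)
  have hmem : ∀ w : lp U 3, Memℓp (fun i => T i (w i)) 3 := fun w => memℓp_gen (hsumT w)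
  let L : lp U 3 →ₗ[ℝ] lp U 3 :=
    { toFun := fun w => ⟨fun i => T i (w i), hmem w⟩
      map_add' := by
        intro a b
        ext i
        show T i ((a + b : lp U 3) i) = T i (a i) + T i (b i)
        rw [lp.coeFn_add, Pi.add_apply, map_add]
      map_smul' := by
        intro c a
        ext i
        show T i ((c • a : lp U 3) i) = c • T i (a i)
        rw [lp.coeFn_smul, Pi.smul_apply, map_smul] }
  have hL : ∀ w, ‖L w‖ ≤ C * ‖w‖ := by
    intro w
    refine lp.norm_le_of_tsum_le h3 (mul_nonneg hC (norm_nonneg _)) ?_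
    rw [Real.mul_rpow hC (norm_nonneg _), lp.norm_rpow_eq_tsum h3, ← tsum_mul_left]
    exact (hsumT w).tsum_le_tsum (hle w) ((hsum w).mul_left _)
  exact ⟨L.mkContinuous C hL, fun w i => rfl, L.mkContinuous_norm_le hC hL⟩

end Pool.Agent.Lib.MP_355270_an.CB
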