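import Pool.Agent.Lib.MP_355270_an.CB.StmB
import Pool.Agent.Lib.MP_355270_an.CB.StmR

open Filter Topology
open scoped ENNReal

namespace Pool.Agent.Lib.MP_355270_an.CB

section mass

variable {I : Type} [Fintype I] [DecidableEq I]

omit [DecidableEq I] in
theorem mass_bessel {d : ℕ} (f : Fin d → I → ℝ)
    (hf : ∀ j l, ∑ a, f j a * f l a = if j = l then 1 else 0) (r : I → ℝ) :
    ∑ j, (∑ b, r b * f j b) ^ 2 ≤ ∑ b, r b ^ 2 := by
  obtain ⟨c, hc⟩ : ∃ c : Fin d → ℝ, ∀ j, c j = ∑ b, r b * f j b := ⟨_, fun _ => rfl⟩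
  have h0 : 0 ≤ ∑ b, (r b - ∑ j, c j * f j b) ^ 2 := Finset.sum_nonneg fun _ _ => sq_nonneg _
  have e1 : ∑ b, r b * (∑ j, c j * f j b) = ∑ j, c j ^ 2 := by
    simp_rw [Finset.mul_sum]
    rw [Finset.sum_comm]
    refine Finset.sum_congr rfl fun j _ => ?_
    calc ∑ b, r b * (c j * f j b) = c j * ∑ b, r b * f j b := by
          rw [Finset.mul_sum]
          exact Finset.sum_congr rfl fun b _ => by ring
      _ = c j ^ 2 := by rw [← hc, sq]
  have e2 : ∑ b, (∑ j, c j * f j b) ^ 2 = ∑ j, c j ^ 2 := by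
    have e3 : ∀ b, (∑ j, c j * f j b) ^ 2 = ∑ j, ∑ l, (c j * c l) * (f j b * f l b) := by
      intro b
      rw [sq, Finset.sum_mul_sum]
      exact Finset.sum_congr rfl fun j _ => Finset.sum_congr rfl fun l _ => by ring
    simp_rw [e3]
    rw [Finset.sum_comm]
    refine Finset.sum_congr rfl fun j _ => ?_
    rw [Finset.sum_comm]
    have e4 : ∀ l, ∑ b, (c j * c l) * (f j b * f l b) = if j = l then c j * c l else 0 := by
      intro l
      rw [← Finset.mul_sum, hf j l]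
      split_ifs <;> ring
    simp_rw [e4]
    rw [Finset.sum_ite_eq, if_pos (Finset.mem_univ _), sq]
  have e5 : ∑ b, (r b - ∑ j, c j * f j b) ^ 2 =
      ∑ b, r b ^ 2 - 2 * ∑ b, r b * (∑ j, c j * f j b) + ∑ b, (∑ j, c j * f j b) ^ 2 := by
    rw [Finset.mul_sum, ← Finset.sum_sub_distrib, ← Finset.sum_add_distrib]
    exact Finset.sum_congr rfl fun b _ => by ring
  have e6 : ∑ j, (∑ b, r b * f j b) ^ 2 = ∑ j, c j ^ 2 :=
    Finset.sum_congr rfl fun j _ => by rw [hc]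
  rw [e6]
  rw [e5, e1, e2] at h0
  linarith

omit [DecidableEq I] in
theorem mass_lin {d : ℕ} (f : Fin d → I → ℝ) (A : Matrix I I ℝ) (θ : Fin d → Bool) (a : I) :
    (A.mulVec (fun b => ∑ j, sg (θ j) * f j b)) a = ∑ j, sg (θ j) * (A.mulVec (f j)) a := by
  simp only [Matrix.mulVec, dotProduct]
  simp_rw [Finset.mul_sum]
  rw [Finset.sum_comm]
  exact Finset.sum_congr rfl fun j _ => Finset.sum_congr rfl fun b _ => by ring

omit [DecidableEq I] in
theorem mass_one (h1 : S_radK) {s K : ℝ} (hs : 2 < s) (hs4 : s ≤ 4) {d : ℕ} (f : Fin d → I → ℝ)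
    (hf : ∀ j l, ∑ a, f j a * f l a = if j = l then 1 else 0) (A : Matrix I I ℝ)
    (hrow : ∀ a, ∑ b, A a b ^ 2 ≤ 1) (hA : OPle K A) :
    rad (fun θ => ∑ a, |(A.mulVec (fun b => ∑ j, sg (θ j) * f j b)) a| ^ s) ≤ 3 * K ^ 2 * d := by
  have e1 : rad (fun θ => ∑ a, |(A.mulVec (fun b => ∑ j, sg (θ j) * f j b)) a| ^ s) =
      ∑ a, rad (fun θ => |∑ j, sg (θ j) * (A.mulVec (f j)) a| ^ s) := by
    unfold rad
    rw [← Finset.sum_div, Finset.sum_comm]
    simp_rw [mass_lin]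
  rw [e1]
  have e2 : ∀ a, rad (fun θ => |∑ j, sg (θ j) * (A.mulVec (f j)) a| ^ s) ≤
      3 * ∑ j, (A.mulVec (f j) a) ^ 2 := by
    intro a
    refine (h1 (Fin d) (fun j => (A.mulVec (f j)) a) s (by linarith) hs4).trans ?_
    have hp : ∑ j, (A.mulVec (f j) a) ^ 2 ≤ 1 := by
      have := mass_bessel f hf (A a)
      exact this.trans (hrow a)
    have hp0 : 0 ≤ ∑ j, (A.mulVec (f j) a) ^ 2 := Finset.sum_nonneg fun _ _ => sq_nonneg _
    have h3 : (∑ j, (A.mulVec (f j) a) ^ 2) ^ (s / 2) ≤ ∑ j, (A.mulVec (f j) a) ^ 2 := by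
      have := Real.rpow_le_rpow_of_exponent_ge' hp0 hp zero_le_one (show 1 ≤ s / 2 by linarith)
      rwa [Real.rpow_one] at this
    linarith
  refine (Finset.sum_le_sum fun a _ => e2 a).trans ?_
  rw [← Finset.mul_sum, Finset.sum_comm]
  have e3 : ∑ j, ∑ a, (A.mulVec (f j) a) ^ 2 ≤ ∑ _j : Fin d, K ^ 2 := by
    refine Finset.sum_le_sum fun j _ => ?_
    have h4 := hA (f j)
    have h5 : ∑ a, f j a ^ 2 = 1 := by
      have h6 := hf j j
      rw [if_pos rfl] at h6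
      rw [← h6]
      exact Finset.sum_congr rfl fun a _ => sq _
    rw [h5, mul_one] at h4
    exact h4
  rw [Finset.sum_const, Finset.card_univ, Fintype.card_fin, nsmul_eq_mul] at e3
  nlinarith

omit [DecidableEq I] in
theorem mass_rowS (S : Matrix I I ℝ) (hS : OPle 1 S) (a : I) : ∑ b, S a b ^ 2 ≤ 1 := by
  have h1 := hS (S a)
  have h2 : (S.mulVec (S a)) a = ∑ b, S a b ^ 2 := by
    simp only [Matrix.mulVec, dotProduct]
    exact Finset.sum_congr rfl fun b _ => (sq _).symm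
  have h3 : (S.mulVec (S a) a) ^ 2 ≤ ∑ c, (S.mulVec (S a) c) ^ 2 :=
    Finset.single_le_sum (f := fun c => (S.mulVec (S a) c) ^ 2) (fun _ _ => sq_nonneg _)
      (Finset.mem_univ a)
  rw [h2] at h3
  have h4 := h3.trans h1
  have h5 : 0 ≤ ∑ b, S a b ^ 2 := Finset.sum_nonneg fun _ _ => sq_nonneg _
  by_contra hcon
  push Not at hcon
  nlinarith

omit [DecidableEq I] in
theorem mass_rowG [Nonempty I] (g : I → I → Bool) (a : I) : ∑ b, Gm g a b ^ 2 ≤ 1 := by
  have hk : (0 : ℝ) < Fintype.card I := by exact_mod_cast Fintype.card_pos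
  have h1 : ∀ b, Gm g a b ^ 2 = 1 / (Fintype.card I : ℝ) := by
    intro b
    unfold Gm
    rw [div_pow, sg_sq, Real.sq_sqrt hk.le]
  simp_rw [h1]
  rw [Finset.sum_const, Finset.card_univ, nsmul_eq_mul, mul_one_div, div_self hk.ne']

theorem mass_row1 (a : I) : ∑ b, (1 : Matrix I I ℝ) a b ^ 2 ≤ 1 := by
  have h1 : ∀ b, (1 : Matrix I I ℝ) a b ^ 2 = if a = b then 1 else 0 := by
    intro b
    rw [Matrix.one_apply]
    split_ifs <;> norm_num
  simp_rw [h1]
  rw [Finset.sum_ite_eq, if_pos (Finset.mem_univ _)]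

theorem mass_op1 : OPle 1 (1 : Matrix I I ℝ) := by
  intro x
  rw [Matrix.one_mulVec, one_pow, one_mul]

theorem mass_radadd {ι : Type} [Fintype ι] [DecidableEq ι] (u v : (ι → Bool) → ℝ) :
    rad (fun θ => u θ + v θ) = rad u + rad v := by
  unfold rad
  rw [Finset.sum_add_distrib, add_div]

theorem mass_radmono {ι : Type} [Fintype ι] [DecidableEq ι] (u v : (ι → Bool) → ℝ)
    (h : ∀ θ, u θ ≤ v θ) : rad u ≤ rad v := by
  unfold rad
  exact div_le_div_of_nonneg_right (Finset.sum_le_sum fun θ _ => h θ) (by positivity)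

theorem mass_radmul {ι : Type} [Fintype ι] [DecidableEq ι] (c : ℝ) (u : (ι → Bool) → ℝ) :
    rad (fun θ => c * u θ) = c * rad u := by
  unfold rad
  rw [← Finset.mul_sum, mul_div_assoc]

end mass

theorem p_mass (h1 : S_radK) (h2 : S_rad2) : S_mass := by
  intro s C K1 hs hs4 hC hK1 I _ _ _ S g M hS hG hM d f hf
  have hk : (0 : ℝ) < Fintype.card I := by exact_mod_cast Fintype.card_pos
  have hs0 : 0 < s := by linarith
  -- the sign sums
  obtain ⟨x, hx⟩ : ∃ x : (Fin d → Bool) → I → ℝ, ∀ θ, x θ = fun b => ∑ j, sg (θ j) * f j b :=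
    ⟨_, fun _ => rfl⟩
  -- moment of order s
  have hmom : rad (fun θ => ∑ a, |(M.mulVec (x θ)) a| ^ s) ≤ C ^ s * (3 * (2 + K1 ^ 2) * d) := by
    have e1 : rad (fun θ => ∑ a, |(M.mulVec (x θ)) a| ^ s) ≤
        rad (fun θ => C ^ s * Qs s (Gm g) S (x θ)) := mass_radmono _ _ fun θ => hM (x θ)
    rw [mass_radmul] at e1
    have e2 : rad (fun θ => Qs s (Gm g) S (x θ)) ≤ 3 * (2 + K1 ^ 2) * d := by
      have e3 : (fun θ => Qs s (Gm g) S (x θ)) = fun θ =>
          ((∑ a, |((1 : Matrix I I ℝ).mulVec (fun b => ∑ j, sg (θ j) * f j b)) a| ^ s +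
            ∑ a, |((Gm g).mulVec (fun b => ∑ j, sg (θ j) * f j b)) a| ^ s) +
            ∑ a, |(S.mulVec (fun b => ∑ j, sg (θ j) * f j b)) a| ^ s) := by
        funext θ
        rw [Qs, hx θ, Matrix.one_mulVec]
      rw [e3, mass_radadd, mass_radadd]
      have f1 := mass_one h1 hs hs4 f hf (1 : Matrix I I ℝ) mass_row1 mass_op1
      have f2 := mass_one h1 hs hs4 f hf (Gm g) (mass_rowG g) hG
      have f3 := mass_one h1 hs hs4 f hf S (mass_rowS S hS) hS
      nlinarith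
    exact e1.trans (mul_le_mul_of_nonneg_left e2 (Real.rpow_nonneg hC _))
  -- second moment
  have hsq : rad (fun θ => ∑ a, ((M.mulVec (x θ)) a) ^ 2) = ∑ j, ∑ a, (M.mulVec (f j) a) ^ 2 := by
    have e1 : rad (fun θ => ∑ a, ((M.mulVec (x θ)) a) ^ 2) =
        ∑ a, rad (fun θ => ‖∑ j, sg (θ j) • (M.mulVec (f j)) a‖ ^ 2) := by
      unfold rad
      rw [← Finset.sum_div, Finset.sum_comm]
      congr 1
      refine Finset.sum_congr rfl fun a _ => Finset.sum_congr rfl fun θ _ => ?_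
      show ((M.mulVec (x θ)) a) ^ 2 = ‖∑ j, sg (θ j) • (M.mulVec (f j)) a‖ ^ 2
      rw [hx θ, mass_lin, Real.norm_eq_abs, sq_abs]
      rfl
    rw [e1, Finset.sum_comm]
    refine Finset.sum_congr rfl fun a _ => ?_
    rw [h2 ℝ (Fin d) (fun j => (M.mulVec (f j)) a)]
    exact Finset.sum_congr rfl fun j _ => by rw [Real.norm_eq_abs, sq_abs]
  rw [← hsq]
  -- power mean over the pairs
  have hT : (0 : ℝ) < 2 ^ d := by positivity
  have hpm := Real.rpow_arith_mean_le_arith_mean_rpow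
    (Finset.univ : Finset ((Fin d → Bool) × I)) (fun _ => 1 / (2 ^ d * (Fintype.card I : ℝ)))
    (fun q => ((M.mulVec (x q.1)) q.2) ^ 2) (fun _ _ => by positivity)
    (by
      rw [Finset.sum_const, Finset.card_univ, Fintype.card_prod, Fintype.card_fun,
        Fintype.card_bool, Fintype.card_fin, nsmul_eq_mul]
      push_cast
      field_simp)
    (fun _ _ => sq_nonneg _) (show 1 ≤ s / 2 by linarith)
  have hcard : ((2 : ℝ) ^ Fintype.card (Fin d)) = 2 ^ d := by rw [Fintype.card_fin]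
  have hL : ∑ q : (Fin d → Bool) × I, 1 / (2 ^ d * (Fintype.card I : ℝ)) *
      ((M.mulVec (x q.1)) q.2) ^ 2 =
      (rad (fun θ => ∑ a, ((M.mulVec (x θ)) a) ^ 2)) / Fintype.card I := by
    unfold rad
    rw [hcard, ← Finset.mul_sum, Fintype.sum_prod_type]
    field_simp
  have hR : ∑ q : (Fin d → Bool) × I, 1 / (2 ^ d * (Fintype.card I : ℝ)) *
      (((M.mulVec (x q.1)) q.2) ^ 2) ^ (s / 2) =
      (rad (fun θ => ∑ a, |(M.mulVec (x θ)) a| ^ s)) / Fintype.card I := by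
    unfold rad
    rw [hcard, ← Finset.mul_sum, Fintype.sum_prod_type]
    have e1 : ∀ y : ℝ, (y ^ 2) ^ (s / 2) = |y| ^ s := by
      intro y
      rw [← sq_abs, ← Real.rpow_natCast, ← Real.rpow_mul (abs_nonneg y)]
      congr 1
      push_cast
      ring
    simp_rw [e1]
    field_simp
  rw [hL, hR] at hpm
  set T := rad (fun θ => ∑ a, ((M.mulVec (x θ)) a) ^ 2) with hTdef
  have hT0 : 0 ≤ T := by
    rw [hTdef]
    unfold rad
    positivity
  have hb : (T / Fintype.card I) ^ (s / 2) ≤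
      (C ^ s * (3 * (2 + K1 ^ 2) * d)) / Fintype.card I :=
    hpm.trans (div_le_div_of_nonneg_right hmom hk.le)
  have hb2 : T / Fintype.card I ≤
      ((C ^ s * (3 * (2 + K1 ^ 2) * d)) / Fintype.card I) ^ (2 / s) := by
    have e1 := Real.rpow_le_rpow (Real.rpow_nonneg (by positivity) _) hb
      (show 0 ≤ 2 / s by positivity)
    rw [← Real.rpow_mul (by positivity)] at e1
    have e2 : s / 2 * (2 / s) = 1 := by field_simp
    rwa [e2, Real.rpow_one] at e1
  have hb3 : ((C ^ s * (3 * (2 + K1 ^ 2) * d)) / Fintype.card I) ^ (2 / s) ≤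
      3 * (2 + K1 ^ 2) * C ^ 2 * ((d : ℝ) / Fintype.card I) ^ (2 / s) := by
    have e1 : (C ^ s * (3 * (2 + K1 ^ 2) * d)) / Fintype.card I =
        (3 * (2 + K1 ^ 2)) * (C ^ s * ((d : ℝ) / Fintype.card I)) := by ring
    rw [e1, Real.mul_rpow (by positivity) (by positivity),
      Real.mul_rpow (Real.rpow_nonneg hC _) (by positivity), ← Real.rpow_mul hC]
    have e2 : s * (2 / s) = 2 := by field_simp
    rw [e2]
    have e3 : (3 * (2 + K1 ^ 2)) ^ (2 / s) ≤ 3 * (2 + K1 ^ 2) := by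
      have h3 : (1 : ℝ) ≤ 3 * (2 + K1 ^ 2) := by nlinarith [sq_nonneg K1]
      have h4 := Real.rpow_le_rpow_of_exponent_le h3 (show 2 / s ≤ 1 by
        rw [div_le_one hs0]
        exact hs.le)
      rwa [Real.rpow_one] at h4
    have e4 : C ^ (2 : ℝ) = C ^ 2 := by
      rw [← Real.rpow_natCast]
      norm_num
    rw [e4, mul_assoc (3 * (2 + K1 ^ 2))]
    exact mul_le_mul_of_nonneg_right e3 (by positivity)
  have hb4 := hb2.trans hb3
  rw [div_le_iff₀ hk] at hb4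
  calc T ≤ 3 * (2 + K1 ^ 2) * C ^ 2 * ((d : ℝ) / Fintype.card I) ^ (2 / s) * Fintype.card I := hb4
    _ = 3 * (2 + K1 ^ 2) * C ^ 2 * Fintype.card I * ((d : ℝ) / Fintype.card I) ^ (2 / s) := by ring

end Pool.Agent.Lib.MP_355270_an.CB
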