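import Pool.Agent.Lib.MP_355270_an.CB.StmU

open Filter Topology
open scoped ENNReal

namespace Pool.Agent.Lib.MP_355270_an.CB

private theorem matest_q {P : BP} {M : Matrix P.I P.I ℝ} {e : ℝ} (he : 0 ≤ e)
    (h : HS2 M ≤ e ^ 2 * P.k) : (HS2 M / P.k) ^ (1 / 2 : ℝ) ≤ e := by
  have hk : (0 : ℝ) < P.k := by unfold BP.k; positivity
  have h0 : 0 ≤ HS2 M / P.k := by
    refine div_nonneg ?_ hk.le
    unfold HS2
    exact Finset.sum_nonneg fun _ _ => Finset.sum_nonneg fun _ _ => sq_nonneg _
  have h1 : HS2 M / P.k ≤ e ^ 2 := by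
    rw [div_le_iff₀ hk]
    exact h
  have h2 := Real.rpow_le_rpow h0 h1 (by norm_num : (0 : ℝ) ≤ 1 / 2)
  have h3 : (e ^ 2) ^ (1 / 2 : ℝ) = e := by
    rw [← Real.sqrt_eq_rpow, Real.sqrt_sq he]
  rwa [h3] at h2

private theorem matest_q0 {P : BP} (M : Matrix P.I P.I ℝ) :
    0 ≤ (HS2 M / P.k) ^ (1 / 2 : ℝ) := by
  refine Real.rpow_nonneg (div_nonneg ?_ ?_) _
  · unfold HS2
    exact Finset.sum_nonneg fun _ _ => Finset.sum_nonneg fun _ _ => sq_nonneg _
  · unfold BP.k
    positivity

private theorem matest_sub {P : BP} (M M' : Matrix P.I P.I ℝ) :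
    P.tr (M - M') = P.tr M - P.tr M' := by
  simp [BP.tr, Finset.sum_sub_distrib, mul_sub]

private theorem matest_add {P : BP} (M M' : Matrix P.I P.I ℝ) :
    P.tr (M + M') = P.tr M + P.tr M' := by
  simp [BP.tr, Finset.sum_add_distrib, mul_add]

private theorem matest_smul {P : BP} (c : ℝ) (M : Matrix P.I P.I ℝ) :
    P.tr (c • M) = c * P.tr M := by
  unfold BP.tr
  simp only [Matrix.smul_apply, smul_eq_mul]
  rw [← Finset.mul_sum]
  ring

private theorem matest_one {P : BP} : P.tr (1 : Matrix P.I P.I ℝ) = 1 := by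
  unfold BP.tr
  simp only [Matrix.one_apply_eq, Finset.sum_const, Finset.card_univ, nsmul_eq_mul, mul_one]
  have : (Fintype.card P.I : ℝ) = P.k := by
    simp [BP.I, BP.k]
  rw [this]
  have hk : (0 : ℝ) < P.k := by unfold BP.k; positivity
  field_simp

/-- One product. -/
private theorem matest_prod (h1 : S_Utr) {P : BP} (A B : Matrix P.I P.I ℝ) (a b e : ℝ)
    (he : 0 ≤ e) (hA : HS2 (A - a • (1 : Matrix P.I P.I ℝ)) ≤ e ^ 2 * P.k)
    (hB : HS2 (B - b • (1 : Matrix P.I P.I ℝ)) ≤ e ^ 2 * P.k) :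
    |P.tr (A * B) - a * b| ≤ (|a| + |b| + e) * e := by
  set A' := A - a • (1 : Matrix P.I P.I ℝ) with hA'
  set B' := B - b • (1 : Matrix P.I P.I ℝ) with hB'
  have e1 : A' * B' = A * B - b • A - a • B + (a * b) • (1 : Matrix P.I P.I ℝ) := by
    rw [hA', hB', sub_mul, mul_sub, mul_sub]
    simp only [Matrix.mul_smul, Matrix.smul_mul, Matrix.mul_one, Matrix.one_mul, smul_smul]
    rw [mul_comm b a]
    abel
  have e2 : P.tr (A * B) - a * b = P.tr (A' * B') + b * P.tr A' + a * P.tr B' := by
    rw [e1, hA', hB', matest_add, matest_sub, matest_sub, matest_sub, matest_sub, matest_smul,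
      matest_smul, matest_smul, matest_smul, matest_smul, matest_one]
    ring
  have b1 : |P.tr A'| ≤ e := ((h1 P A' B').1).trans (matest_q he hA)
  have b2 : |P.tr B'| ≤ e := ((h1 P B' A').1).trans (matest_q he hB)
  have b3 : |P.tr (A' * B')| ≤ e * e :=
    ((h1 P A' B').2).trans (mul_le_mul (matest_q he hA) (matest_q he hB) (matest_q0 _) he)
  rw [e2]
  calc |P.tr (A' * B') + b * P.tr A' + a * P.tr B'|
      ≤ |P.tr (A' * B')| + |b * P.tr A'| + |a * P.tr B'| := abs_add_three _ _ _
    _ ≤ e * e + |b| * e + |a| * e := by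
        rw [abs_mul, abs_mul]
        gcongr
    _ = (|a| + |b| + e) * e := by ring

/-- A sum of traces of one column. -/
private theorem matest_col (h1 : S_Utr) {P : BP} (X : Fin (P.N + 1) → Matrix P.I P.I ℝ)
    (c : Fin (P.N + 1) → ℝ) (e : ℝ) (he : 0 ≤ e)
    (hX : ∀ i, HS2 (X i - c i • (1 : Matrix P.I P.I ℝ)) ≤ e ^ 2 * P.k) :
    |∑ i, P.tr (X i) - ∑ i, c i| ≤ (P.N + 1) * e := by
  rw [← Finset.sum_sub_distrib]
  refine (Finset.abs_sum_le_sum_abs _ _).trans ?_
  have h2 : ∀ i ∈ (Finset.univ : Finset (Fin (P.N + 1))), |P.tr (X i) - c i| ≤ e := by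
    intro i _
    have h3 : P.tr (X i) - c i = P.tr (X i - c i • (1 : Matrix P.I P.I ℝ)) := by
      rw [matest_sub, matest_smul, matest_one, mul_one]
    rw [h3]
    exact ((h1 P _ 1).1).trans (matest_q he (hX i))
  refine (Finset.sum_le_sum h2).trans (le_of_eq ?_)
  simp

theorem p_matest (h1 : S_Utr) : S_matest := by
  intro P X Y n e H he he1 hH hXo hYo hXd hYd
  choose cx hcx hcx' using hXd
  choose cy hcy hcy' using hYd
  -- scalars for all entries
  have hX : ∀ i j, HS2 (X i j - (if i = j then cx i else 0) • (1 : Matrix P.I P.I ℝ)) ≤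
      e ^ 2 * P.k := by
    intro i j
    by_cases h : i = j
    · subst h
      rw [if_pos rfl]
      exact hcx' i
    · rw [if_neg h, zero_smul, sub_zero]
      exact hXo i j h
  have hY : ∀ i j, HS2 (Y i j - (if i = j then cy i else 0) • (1 : Matrix P.I P.I ℝ)) ≤
      e ^ 2 * P.k := by
    intro i j
    by_cases h : i = j
    · subst h
      rw [if_pos rfl]
      exact hcy' i
    · rw [if_neg h, zero_smul, sub_zero]
      exact hYo i j h
  have hL : (2 : ℝ) ≤ (P.N : ℝ) + 1 := by
    have := P.hN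
    have h2 : (1 : ℝ) ≤ (P.N : ℝ) := by exact_mod_cast this
    linarith
  set L : ℝ := (P.N : ℝ) + 1 with hLdef
  -- the columns
  have hcolX : |∑ i, P.tr (X i n) - cx n| ≤ L * e := by
    have := matest_col h1 (fun i => X i n) (fun i => if i = n then cx i else 0) e he
      (fun i => hX i n)
    simpa using this
  have hcolY : |∑ i, P.tr (Y i n) - cy n| ≤ L * e := by
    have := matest_col h1 (fun i => Y i n) (fun i => if i = n then cy i else 0) e he
      (fun i => hY i n)
    simpa using this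
  -- the double sum
  have hsum : ∑ i, ∑ j, (if i = j then cx i else 0) * (if j = n then cy j else 0) =
      cx n * cy n := by
    simp
  have hdouble : |∑ i, ∑ j, P.tr (X i j * Y j n) - cx n * cy n| ≤
      (2 * L * (H - 1) + L ^ 2 * e) * e := by
    rw [← hsum, ← Finset.sum_sub_distrib]
    have h2 : ∀ i : Fin (P.N + 1), |∑ j, P.tr (X i j * Y j n) -
        ∑ j, (if i = j then cx i else 0) * (if j = n then cy j else 0)| ≤
        ((H - 1) + (H - 1) + L * e) * e := by
      intro i
      rw [← Finset.sum_sub_distrib]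
      refine (Finset.abs_sum_le_sum_abs _ _).trans ?_
      have h3 : ∀ j ∈ (Finset.univ : Finset (Fin (P.N + 1))),
          |P.tr (X i j * Y j n) - (if i = j then cx i else 0) * (if j = n then cy j else 0)| ≤
          ((if i = j then (H - 1) else 0) + (if j = n then (H - 1) else 0) + e) * e := by
        intro j _
        refine (matest_prod h1 _ _ _ _ e he (hX i j) (hY j n)).trans ?_
        refine mul_le_mul_of_nonneg_right ?_ he
        refine add_le_add (add_le_add ?_ ?_) le_rfl
        · split_ifs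
          · exact hcx i
          · simp
        · split_ifs
          · exact hcy j
          · simp
      refine (Finset.sum_le_sum h3).trans (le_of_eq ?_)
      rw [← Finset.sum_mul, Finset.sum_add_distrib, Finset.sum_add_distrib]
      simp [hLdef]
    refine (Finset.abs_sum_le_sum_abs _ _).trans ?_
    refine (Finset.sum_le_sum fun i _ => h2 i).trans (le_of_eq ?_)
    simp only [Finset.sum_const, Finset.card_univ, Fintype.card_fin, nsmul_eq_mul]
    push_cast
    rw [← hLdef]
    ring
  -- the product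
  set A := ∑ i, P.tr (X i n) with hA
  set B := ∑ j, P.tr (Y j n) with hB
  set T := ∑ i, ∑ j, P.tr (X i j * Y j n) with hT
  have hB1 : |B| ≤ (H - 1) + L * e := by
    have : B = cy n + (B - cy n) := by ring
    rw [this]
    refine (abs_add_le _ _).trans ?_
    exact add_le_add (hcy n) hcolY
  have hAB : |A * B - cx n * cy n| ≤ (2 * L * (H - 1) + L ^ 2 * e) * e := by
    have e1 : A * B - cx n * cy n = (A - cx n) * B + cx n * (B - cy n) := by ring
    rw [e1]
    refine (abs_add_le _ _).trans ?_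
    rw [abs_mul, abs_mul]
    have h3 : |A - cx n| * |B| ≤ (L * e) * ((H - 1) + L * e) :=
      mul_le_mul hcolX hB1 (abs_nonneg _) (by positivity)
    have h4 : |cx n| * |B - cy n| ≤ (H - 1) * (L * e) :=
      mul_le_mul (hcx n) hcolY (abs_nonneg _) (by linarith)
    refine (add_le_add h3 h4).trans (le_of_eq ?_)
    ring
  have hfin : |T - A * B| ≤ 2 * ((2 * L * (H - 1) + L ^ 2 * e) * e) := by
    have e1 : T - A * B = (T - cx n * cy n) - (A * B - cx n * cy n) := by ring
    rw [e1]
    refine (abs_sub _ _).trans ?_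
    linarith
  refine hfin.trans ?_
  have h5 : 2 * (2 * L * (H - 1) + L ^ 2 * e) ≤ 3 * L ^ 2 * (H + 1) := by
    have h6 : L ^ 2 * e ≤ L ^ 2 := by
      have := mul_le_mul_of_nonneg_left he1 (sq_nonneg L)
      simpa using this
    have h7 : 2 * L * (H - 1) ≤ L ^ 2 * (H - 1) := by
      refine mul_le_mul_of_nonneg_right ?_ (by linarith)
      nlinarith
    nlinarith [sq_nonneg L, mul_nonneg (sq_nonneg L) (by linarith : (0 : ℝ) ≤ H - 1)]
  calc 2 * ((2 * L * (H - 1) + L ^ 2 * e) * e) = 2 * (2 * L * (H - 1) + L ^ 2 * e) * e := by ring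
    _ ≤ 3 * L ^ 2 * (H + 1) * e := mul_le_mul_of_nonneg_right h5 he

end Pool.Agent.Lib.MP_355270_an.CB
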