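import Pool.Agent.Lib.MP_355270_an.CB.StmB

open Filter Topology
open scoped ENNReal

namespace Pool.Agent.Lib.MP_355270_an.CB

theorem mom4_cons {Ω : Type} [Fintype Ω] {n : ℕ} (F : (Fin (n + 1) → Ω) → ℝ) :
    ∑ ρ : Fin (n + 1) → Ω, F ρ = ∑ ω : Ω, ∑ ρ : Fin n → Ω, F (Fin.cons ω ρ) := by
  rw [← Fintype.sum_prod_type' (f := fun (ω : Ω) (ρ : Fin n → Ω) => F (Fin.cons ω ρ))]
  exact (Equiv.sum_comp (Fin.consEquiv (fun _ : Fin (n + 1) => Ω)) F).symm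

theorem mom4_two {A B : Type} [Fintype A] [Fintype B] (Y : A → ℝ) (X : B → ℝ) :
    ∑ a, ∑ b, (Y a + X b) = (Fintype.card B : ℝ) * ∑ a, Y a + (Fintype.card A : ℝ) * ∑ b, X b := by
  simp only [Finset.sum_add_distrib, Finset.sum_const, Finset.card_univ, nsmul_eq_mul,
    ← Finset.mul_sum]

theorem mom4_sq {A B : Type} [Fintype A] [Fintype B] (Y : A → ℝ) (X : B → ℝ) :
    ∑ a, ∑ b, (Y a + X b) ^ 2 = (Fintype.card B : ℝ) * ∑ a, Y a ^ 2 +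
      2 * (∑ a, Y a) * (∑ b, X b) + (Fintype.card A : ℝ) * ∑ b, X b ^ 2 := by
  have h : ∀ a b, (Y a + X b) ^ 2 = (Y a ^ 2 + X b ^ 2) + 2 * (Y a * X b) := fun a b => by ring
  simp only [h, Finset.sum_add_distrib, ← Finset.mul_sum]
  rw [← Finset.sum_mul]
  simp only [Finset.sum_const, Finset.card_univ, nsmul_eq_mul, ← Finset.mul_sum]
  ring

theorem mom4_four {A B : Type} [Fintype A] [Fintype B] (Y : A → ℝ) (X : B → ℝ) :
    ∑ a, ∑ b, (Y a + X b) ^ 4 = (Fintype.card B : ℝ) * ∑ a, Y a ^ 4 +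
      4 * (∑ a, Y a ^ 3) * (∑ b, X b) + 6 * (∑ a, Y a ^ 2) * (∑ b, X b ^ 2) +
      4 * (∑ a, Y a) * (∑ b, X b ^ 3) + (Fintype.card A : ℝ) * ∑ b, X b ^ 4 := by
  have h : ∀ a b, (Y a + X b) ^ 4 = (Y a ^ 4 + X b ^ 4) + 4 * (Y a ^ 3 * X b) +
    6 * (Y a ^ 2 * X b ^ 2) + 4 * (Y a * X b ^ 3) := fun a b => by ring
  simp only [h, Finset.sum_add_distrib, ← Finset.mul_sum]
  rw [← Finset.sum_mul, ← Finset.sum_mul, ← Finset.sum_mul]
  simp only [Finset.sum_const, Finset.card_univ, nsmul_eq_mul, ← Finset.mul_sum]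
  ring

theorem mom4_fin {Ω : Type} [Fintype Ω] (M : ℝ) : ∀ (n : ℕ) (f : Fin n → Ω → ℝ),
    (∀ i ω, |f i ω| ≤ M) → (∀ i, ∑ ω, f i ω = 0) →
    ∑ ρ : Fin n → Ω, (∑ i, f i (ρ i)) = 0 ∧
    ∑ ρ : Fin n → Ω, (∑ i, f i (ρ i)) ^ 2 ≤ (Fintype.card Ω : ℝ) ^ n * (n * M ^ 2) ∧
    ∑ ρ : Fin n → Ω, (∑ i, f i (ρ i)) ^ 4 ≤ (Fintype.card Ω : ℝ) ^ n * (3 * n ^ 2 * M ^ 4) := by
  intro n
  induction n with
  | zero =>
    intro f _ _
    simp
  | succ n ih =>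
    intro f hf h0
    obtain ⟨i1, i2, i3⟩ := ih (fun i => f i.succ) (fun i ω => hf _ ω) (fun i => h0 _)
    have hcard : (Fintype.card (Fin n → Ω) : ℝ) = (Fintype.card Ω : ℝ) ^ n := by
      simp
    have hq : (0 : ℝ) ≤ Fintype.card Ω := Nat.cast_nonneg _
    have hY2 : ∑ ω, f 0 ω ^ 2 ≤ (Fintype.card Ω : ℝ) * M ^ 2 := by
      refine (Finset.sum_le_card_nsmul _ _ (M ^ 2) fun ω _ => ?_).trans_eq ?_
      · exact sq_le_sq' (by linarith [(abs_le.1 (hf 0 ω)).1]) (abs_le.1 (hf 0 ω)).2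
      · simp
    have hY4 : ∑ ω, f 0 ω ^ 4 ≤ (Fintype.card Ω : ℝ) * M ^ 4 := by
      refine (Finset.sum_le_card_nsmul _ _ (M ^ 4) fun ω _ => ?_).trans_eq ?_
      · have := sq_le_sq' (by linarith [(abs_le.1 (hf 0 ω)).1]) (abs_le.1 (hf 0 ω)).2
        calc f 0 ω ^ 4 = (f 0 ω ^ 2) ^ 2 := by ring
          _ ≤ (M ^ 2) ^ 2 := pow_le_pow_left₀ (sq_nonneg _) this 2
          _ = M ^ 4 := by ring
      · simp
    have hX : ∀ (ω : Ω) (ρ : Fin n → Ω), (∑ i, f i ((Fin.cons ω ρ : Fin (n + 1) → Ω) i)) =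
        f 0 ω + ∑ i : Fin n, f i.succ (ρ i) := by
      intro ω ρ
      rw [Fin.sum_univ_succ]
      simp
    refine ⟨?_, ?_, ?_⟩
    · rw [mom4_cons]
      simp only [hX]
      rw [mom4_two, h0, i1]
      simp
    · rw [mom4_cons]
      simp only [hX]
      rw [mom4_sq, h0, i1, hcard]
      have hp : (0 : ℝ) ≤ (Fintype.card Ω : ℝ) ^ n := pow_nonneg hq n
      have e1 := mul_le_mul_of_nonneg_left hY2 hp
      have e2 := mul_le_mul_of_nonneg_left i2 hq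
      rw [pow_succ]
      push_cast
      nlinarith [e1, e2]
    · rw [mom4_cons]
      simp only [hX]
      rw [mom4_four, h0, i1, hcard]
      have hp : (0 : ℝ) ≤ (Fintype.card Ω : ℝ) ^ n := pow_nonneg hq n
      have e1 := mul_le_mul_of_nonneg_left hY4 hp
      have e2 := mul_le_mul_of_nonneg_left i3 hq
      have e3 : (∑ ω, f 0 ω ^ 2) * ∑ ρ : Fin n → Ω, (∑ i, f i.succ (ρ i)) ^ 2 ≤
          ((Fintype.card Ω : ℝ) * M ^ 2) * ((Fintype.card Ω : ℝ) ^ n * (n * M ^ 2)) :=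
        mul_le_mul hY2 i2 (Finset.sum_nonneg fun _ _ => sq_nonneg _) (by positivity)
      have e4 : 0 ≤ (Fintype.card Ω : ℝ) ^ n * (Fintype.card Ω : ℝ) * M ^ 4 := by positivity
      rw [pow_succ]
      push_cast
      nlinarith [e1, e2, e3, e4]

theorem p_mom4 : S_mom4 := by
  intro I Ω _ _ _ _ f M hf h0
  set n := Fintype.card I with hn
  let e : I ≃ Fin n := Fintype.equivFin I
  obtain ⟨-, -, h4⟩ := mom4_fin M n (fun k => f (e.symm k)) (fun k ω => hf _ ω) (fun k => h0 _)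
  have h1 : ∑ ρ : I → Ω, (∑ i, f i (ρ i)) ^ 4 =
      ∑ ρ : Fin n → Ω, (∑ k, f (e.symm k) (ρ k)) ^ 4 := by
    refine Fintype.sum_equiv (Equiv.arrowCongr e (Equiv.refl Ω)) _ _ fun ρ => ?_
    congr 1
    refine Fintype.sum_equiv e _ _ fun i => ?_
    simp
  rw [h1]
  refine h4.trans ?_
  have hc : (Fintype.card (I → Ω) : ℝ) = (Fintype.card Ω : ℝ) ^ n := by
    simp [hn]
  rw [hc]
  have hp : (0 : ℝ) ≤ (Fintype.card Ω : ℝ) ^ n := by positivity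
  refine mul_le_mul_of_nonneg_left ?_ hp
  have : 0 ≤ (n : ℝ) ^ 2 * M ^ 4 := by positivity
  nlinarith

end Pool.Agent.Lib.MP_355270_an.CB
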