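import Pool.Agent.Lib.MP_355270_an.CB.StmB
import Pool.Agent.Lib.MP_355270_an.CB.StmR

open Filter Topology
open scoped ENNReal

namespace Pool.Agent.Lib.MP_355270_an.CB

theorem net_exp1 : Real.exp (-1) ≤ 0.37 := by
  rw [Real.exp_neg]
  have h := Real.exp_one_gt_d9
  rw [inv_le_comm₀ (Real.exp_pos 1) (by norm_num)]
  norm_num at h ⊢
  linarith

theorem net_exp3 : Real.exp (-3) ≤ 0.05 := by
  have h : Real.exp (-3) = Real.exp (-1) ^ 3 := by
    rw [← Real.exp_nat_mul]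
    norm_num
  rw [h]
  have h1 : Real.exp (-1) ≤ 0.368 := by
    rw [Real.exp_neg]
    have h := Real.exp_one_gt_d9
    rw [inv_le_comm₀ (Real.exp_pos 1) (by norm_num)]
    norm_num at h ⊢
    linarith
  calc Real.exp (-1) ^ 3 ≤ (0.368 : ℝ) ^ 3 := pow_le_pow_left₀ (Real.exp_pos _).le h1 3
    _ ≤ 0.05 := by norm_num

theorem net_exp254 : Real.exp (25 / 4) ≤ 520 := by
  by_contra hcon
  push Not at hcon
  have h1 : (520 : ℝ) ^ 4 < Real.exp (25 / 4) ^ 4 :=
    pow_lt_pow_left₀ hcon (by norm_num) (by norm_num)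
  have h2 : Real.exp (25 / 4) ^ 4 = Real.exp 1 ^ 25 := by
    rw [← Real.exp_nat_mul, ← Real.exp_nat_mul]
    norm_num
  have h3 : Real.exp 1 ^ 25 ≤ (2.7182818286 : ℝ) ^ 25 :=
    pow_le_pow_left₀ (Real.exp_pos _).le Real.exp_one_lt_d9.le 25
  rw [h2] at h1
  have h4 := h1.trans_le h3
  norm_num at h4

theorem net_term (M : ℕ) : Real.exp (-(((M : ℝ) + 1) ^ 2)) ≤ 0.37 * 0.05 ^ M := by
  have h1 : -(((M : ℝ) + 1) ^ 2) ≤ -1 + (M : ℝ) * (-3) := by
    have h : (M : ℝ) ≤ (M : ℝ) ^ 2 := by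
      rcases Nat.eq_zero_or_pos M with rfl | hM
      · norm_num
      · have : (1 : ℝ) ≤ M := by exact_mod_cast hM
        nlinarith
    nlinarith
  calc Real.exp (-(((M : ℝ) + 1) ^ 2)) ≤ Real.exp (-1 + (M : ℝ) * (-3)) := Real.exp_le_exp.2 h1
    _ = Real.exp (-1) * Real.exp (-3) ^ M := by rw [Real.exp_add, Real.exp_nat_mul]
    _ ≤ 0.37 * 0.05 ^ M :=
      mul_le_mul net_exp1 (pow_le_pow_left₀ (Real.exp_pos _).le net_exp3 M)
        (pow_nonneg (Real.exp_pos _).le _) (by norm_num)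

theorem net_sum (M : ℕ) : ∑ m ∈ Finset.Icc (-(M : ℤ)) M, Real.exp (-((m : ℝ) ^ 2)) ≤
    1 + 0.78 * (1 - 0.05 ^ M) := by
  induction M with
  | zero => simp
  | succ M ih =>
    have hI : Finset.Icc (-((M + 1 : ℕ) : ℤ)) ((M + 1 : ℕ) : ℤ) =
        insert (-((M : ℤ) + 1)) (insert ((M : ℤ) + 1) (Finset.Icc (-(M : ℤ)) M)) := by
      ext x
      simp only [Finset.mem_Icc, Finset.mem_insert]
      push_cast
      omega
    have h1 : -((M : ℤ) + 1) ∉ insert ((M : ℤ) + 1) (Finset.Icc (-(M : ℤ)) M) := by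
      simp only [Finset.mem_Icc, Finset.mem_insert]
      omega
    have h2 : ((M : ℤ) + 1) ∉ Finset.Icc (-(M : ℤ)) M := by
      simp only [Finset.mem_Icc]
      omega
    rw [hI, Finset.sum_insert h1, Finset.sum_insert h2]
    have h3 := net_term M
    have e1 : ((-((M : ℤ) + 1) : ℤ) : ℝ) ^ 2 = ((M : ℝ) + 1) ^ 2 := by
      push_cast
      ring
    have e2 : (((M : ℤ) + 1 : ℤ) : ℝ) ^ 2 = ((M : ℝ) + 1) ^ 2 := by
      push_cast
      ring
    rw [e1, e2, pow_succ (0.05 : ℝ)]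
    have h4 : (0 : ℝ) < 0.05 ^ M := by positivity
    linarith

theorem net_sum' (M : ℕ) : ∑ m ∈ Finset.Icc (-(M : ℤ)) M, Real.exp (-((m : ℝ) ^ 2)) ≤ 1.8 := by
  have h := net_sum M
  have h4 : (0 : ℝ) < 0.05 ^ M := by positivity
  nlinarith

/-- The lattice points. -/
noncomputable def net_L (I : Type) [Fintype I] [DecidableEq I] (M : ℕ) (B : ℝ) :
    Finset (I → ℤ) :=
  (Fintype.piFinset fun _ : I => Finset.Icc (-(M : ℤ)) M).filter
    fun n => ∑ i, ((n i : ℤ) : ℝ) ^ 2 ≤ B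

theorem net_card (I : Type) [Fintype I] [DecidableEq I] (M : ℕ) :
    ((net_L I M (25 * Fintype.card I / 4)).card : ℝ) ≤ 1000 ^ Fintype.card I := by
  have h1 : ((net_L I M (25 * Fintype.card I / 4)).card : ℝ) ≤
      ∑ n ∈ Fintype.piFinset fun _ : I => Finset.Icc (-(M : ℤ)) M,
        Real.exp (25 / 4) ^ Fintype.card I * ∏ i, Real.exp (-(((n i : ℤ) : ℝ) ^ 2)) := by
    calc ((net_L I M (25 * Fintype.card I / 4)).card : ℝ)
        = ∑ n ∈ net_L I M (25 * Fintype.card I / 4), (1 : ℝ) := by simp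
      _ ≤ ∑ n ∈ net_L I M (25 * Fintype.card I / 4),
          Real.exp (25 / 4) ^ Fintype.card I * ∏ i, Real.exp (-(((n i : ℤ) : ℝ) ^ 2)) := by
        refine Finset.sum_le_sum fun n hn => ?_
        have hn' := (Finset.mem_filter.1 hn).2
        rw [← Real.exp_nat_mul, ← Real.exp_sum, ← Real.exp_add, Finset.sum_neg_distrib]
        refine Real.one_le_exp ?_
        linarith
      _ ≤ _ := by
        refine Finset.sum_le_sum_of_subset_of_nonneg (Finset.filter_subset _ _) ?_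
        intro n _ _
        positivity
  refine h1.trans ?_
  rw [← Finset.mul_sum]
  have h2 := Finset.prod_univ_sum (fun _ : I => Finset.Icc (-(M : ℤ)) (M : ℤ))
    (fun _ m => Real.exp (-((m : ℤ) : ℝ) ^ 2))
  have h3 : ∑ n ∈ Fintype.piFinset fun _ : I => Finset.Icc (-(M : ℤ)) (M : ℤ),
      ∏ i, Real.exp (-(((n i : ℤ) : ℝ) ^ 2)) ≤ 1.8 ^ Fintype.card I := by
    rw [← Finset.prod_univ_sum (fun _ : I => Finset.Icc (-(M : ℤ)) (M : ℤ))
      (fun _ m => Real.exp (-(((m : ℤ) : ℝ) ^ 2))), Finset.prod_const, Finset.card_univ]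
    exact pow_le_pow_left₀ (Finset.sum_nonneg fun _ _ => (Real.exp_pos _).le) (net_sum' M) _
  calc Real.exp (25 / 4) ^ Fintype.card I *
        ∑ n ∈ Fintype.piFinset fun _ : I => Finset.Icc (-(M : ℤ)) (M : ℤ),
          ∏ i, Real.exp (-(((n i : ℤ) : ℝ) ^ 2))
      ≤ 520 ^ Fintype.card I * 1.8 ^ Fintype.card I :=
        mul_le_mul (pow_le_pow_left₀ (Real.exp_pos _).le net_exp254 _) h3
          (Finset.sum_nonneg fun _ _ => Finset.prod_nonneg fun _ _ => (Real.exp_pos _).le)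
          (by positivity)
    _ = (936 : ℝ) ^ Fintype.card I := by
        rw [← mul_pow]
        norm_num
    _ ≤ 1000 ^ Fintype.card I := pow_le_pow_left₀ (by norm_num) (by norm_num) _

theorem p_net : S_net := by
  intro I _ _ _
  classical
  have hk : (1 : ℝ) ≤ Fintype.card I := by exact_mod_cast Fintype.card_pos
  have hk0 : (0 : ℝ) < Fintype.card I := by linarith
  have hr : 0 < Real.sqrt (Fintype.card I) := Real.sqrt_pos.2 hk0
  have hrr : Real.sqrt (Fintype.card I) ^ 2 = Fintype.card I := Real.sq_sqrt hk0.le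
  set r : ℝ := Real.sqrt (Fintype.card I) with hrdef
  set k : ℝ := (Fintype.card I : ℝ) with hkdef
  refine ⟨(net_L I (7 * Fintype.card I) (25 * Fintype.card I / 4)).image
    fun n i => ((n i : ℤ) : ℝ) / (2 * r), ?_, ?_, ?_⟩
  · refine le_trans ?_ (net_card I (7 * Fintype.card I))
    exact_mod_cast Finset.card_image_le
  · intro y hy
    obtain ⟨n, hn, rfl⟩ := Finset.mem_image.1 hy
    have hn' := (Finset.mem_filter.1 hn).2
    have e : ∑ i, (((n i : ℤ) : ℝ) / (2 * r)) ^ 2 = (∑ i, ((n i : ℤ) : ℝ) ^ 2) / (4 * k) := by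
      rw [Finset.sum_div]
      refine Finset.sum_congr rfl fun i _ => ?_
      rw [div_pow, mul_pow, hrr]
      norm_num
    show ∑ i, (((n i : ℤ) : ℝ) / (2 * r)) ^ 2 ≤ 25 / 16
    rw [e, div_le_iff₀ (by linarith)]
    calc _ ≤ 25 * k / 4 := hn'
      _ = 25 / 16 * (4 * k) := by ring
  · intro x hx
    have hi : ∀ i, (x i - ((round (2 * r * x i) : ℤ) : ℝ) / (2 * r)) ^ 2 ≤ 1 / (16 * k) := by
      intro i
      have h1 := abs_sub_round (2 * r * x i)
      have e : x i - ((round (2 * r * x i) : ℤ) : ℝ) / (2 * r) =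
          (2 * r * x i - ((round (2 * r * x i) : ℤ) : ℝ)) / (2 * r) := by
        field_simp
      rw [e, div_pow, mul_pow, hrr, div_le_div_iff₀ (by linarith) (by linarith), ← sq_abs]
      have h2 : |2 * r * x i - ((round (2 * r * x i) : ℤ) : ℝ)| ^ 2 ≤ (1 / 2) ^ 2 :=
        pow_le_pow_left₀ (abs_nonneg _) h1 2
      nlinarith
    have hs : ∑ i, (x i - ((round (2 * r * x i) : ℤ) : ℝ) / (2 * r)) ^ 2 ≤ 1 / 16 := by
      calc ∑ i, (x i - ((round (2 * r * x i) : ℤ) : ℝ) / (2 * r)) ^ 2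
          ≤ ∑ _i : I, 1 / (16 * k) := Finset.sum_le_sum fun i _ => hi i
        _ = k * (1 / (16 * k)) := by
          rw [Finset.sum_const, Finset.card_univ, nsmul_eq_mul]
        _ = 1 / 16 := by field_simp
    have hy : ∑ i, (((round (2 * r * x i) : ℤ) : ℝ) / (2 * r)) ^ 2 ≤ 25 / 16 := by
      have h1 : ∀ i, (((round (2 * r * x i) : ℤ) : ℝ) / (2 * r)) ^ 2 ≤
          5 / 4 * x i ^ 2 + 5 * (x i - ((round (2 * r * x i) : ℤ) : ℝ) / (2 * r)) ^ 2 := by
        intro i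
        nlinarith [sq_nonneg (x i / 2 +
          2 * (x i - ((round (2 * r * x i) : ℤ) : ℝ) / (2 * r)))]
      calc _ ≤ ∑ i, (5 / 4 * x i ^ 2 +
            5 * (x i - ((round (2 * r * x i) : ℤ) : ℝ) / (2 * r)) ^ 2) :=
          Finset.sum_le_sum fun i _ => h1 i
        _ = 5 / 4 * ∑ i, x i ^ 2 +
            5 * ∑ i, (x i - ((round (2 * r * x i) : ℤ) : ℝ) / (2 * r)) ^ 2 := by
          rw [Finset.sum_add_distrib, Finset.mul_sum, Finset.mul_sum]
        _ ≤ 25 / 16 := by linarith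
    have hn : ∑ i, ((round (2 * r * x i) : ℤ) : ℝ) ^ 2 ≤ 25 * k / 4 := by
      have e : ∑ i, ((round (2 * r * x i) : ℤ) : ℝ) ^ 2 =
          4 * k * ∑ i, (((round (2 * r * x i) : ℤ) : ℝ) / (2 * r)) ^ 2 := by
        rw [Finset.mul_sum]
        refine Finset.sum_congr rfl fun i _ => ?_
        rw [div_pow, mul_pow, hrr]
        field_simp
        ring
      rw [e]
      nlinarith
    refine ⟨fun i => ((round (2 * r * x i) : ℤ) : ℝ) / (2 * r), ?_, hs⟩
    refine Finset.mem_image.2 ⟨fun i => round (2 * r * x i), ?_, rfl⟩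
    refine Finset.mem_filter.2 ⟨?_, hn⟩
    rw [Fintype.mem_piFinset]
    intro i
    rw [Finset.mem_Icc, ← abs_le]
    have h1 : ((round (2 * r * x i) : ℤ) : ℝ) ^ 2 ≤ 25 * k / 4 :=
      le_trans (Finset.single_le_sum (f := fun i => ((round (2 * r * x i) : ℤ) : ℝ) ^ 2)
        (fun j _ => sq_nonneg _) (Finset.mem_univ i)) hn
    have h2 : |round (2 * r * x i)| ≤ round (2 * r * x i) ^ 2 := by
      rw [← sq_abs]
      exact Int.le_self_sq _
    have h3 : ((round (2 * r * x i) ^ 2 : ℤ) : ℝ) ≤ ((7 * Fintype.card I : ℕ) : ℝ) := by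
      push_cast
      linarith
    have h4 : round (2 * r * x i) ^ 2 ≤ ((7 * Fintype.card I : ℕ) : ℤ) := by
      exact_mod_cast h3
    exact h2.trans h4

end Pool.Agent.Lib.MP_355270_an.CB
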