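import Pool.Agent.Lib.MP_355270_an.CB.StmB
import Pool.Agent.Lib.MP_355270_an.CB.StmR

open Filter Topology
open scoped ENNReal

namespace Pool.Agent.Lib.MP_355270_an.CB

theorem p_numeric : S_numeric := by
  intro K L c hc
  have hl2 : 0 < Real.log 2 := Real.log_pos one_lt_two
  obtain ⟨ε, hε⟩ : ∃ ε : ℝ, ε = c * Real.log 2 / (2 * (6 * K + 1)) := ⟨_, rfl⟩
  have hε0 : 0 < ε := by rw [hε]; positivity
  have hε1 : (6 * K + 1) * ε = c * Real.log 2 / 2 := by rw [hε]; field_simp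
  have h1 : ∀ᶠ x : ℝ in atTop, Real.log x ≤ ε * x := by
    have h := Real.isLittleO_log_id_atTop.def hε0
    filter_upwards [h, eventually_ge_atTop 1] with x hx hx1
    rw [Real.norm_eq_abs, Real.norm_eq_abs, id, abs_of_nonneg (by linarith : (0 : ℝ) ≤ x)] at hx
    exact (le_abs_self _).trans hx
  obtain ⟨A, hA⟩ : ∃ A : ℝ, A = 6 * K * Real.log (L + 1) + 4 * Real.log 2 := ⟨_, rfl⟩
  have h2 : ∀ᶠ x : ℝ in atTop, A ≤ c * Real.log 2 / 2 * x :=
    (tendsto_id.const_mul_atTop (by positivity)).eventually_ge_atTop A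
  obtain ⟨x0, hx0⟩ := (h1.and h2).exists_forall_of_atTop
  refine ⟨max 1 ⌈x0⌉₊, fun k hk => ?_⟩
  have hk1 : 1 ≤ k := (le_max_left _ _).trans hk
  have hk1' : (0 : ℝ) < k := by exact_mod_cast hk1
  have hkx : x0 ≤ k := (Nat.le_ceil x0).trans (by exact_mod_cast (le_max_right _ _).trans hk)
  obtain ⟨h3, h4⟩ := hx0 k hkx
  have hL : (0 : ℝ) < (L : ℝ) + 1 := by positivity
  have hb : ((k * L : ℕ) : ℝ) ≤ k * (L + 1) := by push_cast; nlinarith
  refine (mul_le_mul_of_nonneg_right (pow_le_pow_left₀ (by positivity) hb _) (by positivity)).trans ?_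
  rw [← Real.log_le_log_iff (by positivity) (by positivity), Real.log_mul (by positivity)
    (by positivity), Real.log_pow, Real.log_pow, Real.log_rpow two_pos,
    Real.log_mul hk1'.ne' hL.ne']
  push_cast
  have h5 : 6 * K * Real.log k ≤ c * Real.log 2 / 2 * k := by
    have h6 : 6 * (K : ℝ) * Real.log k ≤ 6 * K * (ε * k) :=
      mul_le_mul_of_nonneg_left h3 (by positivity)
    have h7 : 6 * (K : ℝ) * (ε * k) ≤ (6 * K + 1) * ε * k := by nlinarith
    rw [hε1] at h7
    exact h6.trans h7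
  rw [hA] at h4
  have h8 := add_le_add h5 h4
  have h9 := mul_le_mul_of_nonneg_left h8 hk1'.le
  linarith [h9]

end Pool.Agent.Lib.MP_355270_an.CB
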