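import Pool.Agent.Lib.MP_355270_an.CB.StmB
import Pool.Agent.Lib.MP_355270_an.CB.StmR

open Filter Topology
open scoped ENNReal

namespace Pool.Agent.Lib.MP_355270_an.CB

section off

variable {I : Type} [Fintype I] [DecidableEq I]

private theorem off_mul (K : ℝ) (G X : Matrix I I ℝ) (h : OPle K G) :
    HS2 (G * X) ≤ K ^ 2 * HS2 X := by
  unfold HS2
  rw [Finset.sum_comm, Finset.sum_comm (f := fun a b => X a b ^ 2), Finset.mul_sum]
  refine Finset.sum_le_sum fun b _ => ?_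
  have := h (fun i => X i b)
  simpa [Matrix.mul_apply, Matrix.mulVec, dotProduct] using this

private theorem off_add (t : ℝ) (ht : 0 < t) (A B : Matrix I I ℝ) :
    HS2 (A + B) ≤ (1 + 1 / t) * HS2 A + (1 + t) * HS2 B := by
  unfold HS2
  rw [Finset.mul_sum, Finset.mul_sum, ← Finset.sum_add_distrib]
  refine Finset.sum_le_sum fun a _ => ?_
  rw [Finset.mul_sum, Finset.mul_sum, ← Finset.sum_add_distrib]
  refine Finset.sum_le_sum fun b _ => ?_
  rw [Matrix.add_apply]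
  have h2 : (A a b + B a b) ^ 2 = (1 + 1 / t) * A a b ^ 2 + (1 + t) * B a b ^ 2 -
      (A a b - t * B a b) ^ 2 / t := by
    field_simp
    ring
  have h3 : 0 ≤ (A a b - t * B a b) ^ 2 / t := by positivity
  linarith

private theorem off_neg (A B : Matrix I I ℝ) : HS2 (A - B) = HS2 (B - A) := by
  unfold HS2
  refine Finset.sum_congr rfl fun a _ => Finset.sum_congr rfl fun b _ => ?_
  rw [Matrix.sub_apply, Matrix.sub_apply]
  ring

/-- The error of the approximation. -/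
private theorem off_err (K1 h : ℝ) (hK1 : 1 ≤ K1) (G M M' R : Matrix I I ℝ) (hG : OPle K1 G)
    (h1 : HS2 (M - M') ≤ h) (h2 : HS2 (G * M - R) ≤ h) :
    HS2 (G * M' - R) ≤ (1 + K1) ^ 2 * h := by
  have hK0 : 0 < K1 := by linarith
  have e : G * M' - R = G * (M' - M) + (G * M - R) := by
    rw [Matrix.mul_sub]
    abel
  rw [e]
  refine (off_add K1 hK0 _ _).trans ?_
  have h3 : HS2 (G * (M' - M)) ≤ K1 ^ 2 * h := by
    refine (off_mul K1 G _ hG).trans ?_
    rw [off_neg]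
    exact mul_le_mul_of_nonneg_left h1 (by positivity)
  have h4 : (1 + 1 / K1) * HS2 (G * (M' - M)) ≤ (1 + 1 / K1) * (K1 ^ 2 * h) :=
    mul_le_mul_of_nonneg_left h3 (by positivity)
  have h5 : (1 + K1) * HS2 (G * M - R) ≤ (1 + K1) * h :=
    mul_le_mul_of_nonneg_left h2 (by positivity)
  have h6 : (1 + 1 / K1) * (K1 ^ 2 * h) = (K1 ^ 2 + K1) * h := by
    field_simp
  rw [h6] at h4
  linarith

private theorem off_row [Nonempty I] (g' : I → I → Bool) (M R : Matrix I I ℝ) (a : I) :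
    ‖∑ i, sg (g' a i) • rowE M i - Real.sqrt (Fintype.card I) • rowE R a‖ ^ 2 =
      Fintype.card I * ∑ b, ((Gm g' * M - R) a b) ^ 2 := by
  have hk : (0 : ℝ) < Fintype.card I := by exact_mod_cast Fintype.card_pos
  have hs : 0 < Real.sqrt (Fintype.card I) := Real.sqrt_pos.2 hk
  rw [EuclideanSpace.norm_sq_eq, Finset.mul_sum]
  refine Finset.sum_congr rfl fun b _ => ?_
  have e : (∑ i, sg (g' a i) • rowE M i - Real.sqrt (Fintype.card I) • rowE R a) b =
      Real.sqrt (Fintype.card I) * ((Gm g' * M - R) a b) := by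
    have e1 : (∑ i, sg (g' a i) • rowE M i : EuclideanSpace ℝ I) b = ∑ i, sg (g' a i) * M i b := by
      rw [WithLp.ofLp_sum, Finset.sum_apply]
      rfl
    have e2 : (Gm g' * M - R) a b = (∑ i, sg (g' a i) / Real.sqrt (Fintype.card I) * M i b) -
        R a b := by
      rw [Matrix.sub_apply, Matrix.mul_apply]
      rfl
    rw [PiLp.sub_apply, e1, e2, mul_sub, Finset.mul_sum]
    congr 1
    refine Finset.sum_congr rfl fun i _ => ?_
    field_simp
  rw [e, Real.norm_eq_abs, sq_abs, mul_pow, Real.sq_sqrt hk.le]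

/-- At least half of the rows are good. -/
private theorem off_half (k : ℕ) (hk : Fintype.card I = k) (f : I → ℝ) (hf : ∀ a, 0 ≤ f a)
    (η1 : ℝ) (hη : 0 < η1) (h : ∑ a, f a ≤ η1 * k) (A : Finset I)
    (hA : ∀ a, a ∉ A → 2 * η1 < f a) : k ≤ 2 * A.card := by
  have h1 : (Aᶜ.card : ℝ) * (2 * η1) ≤ η1 * k := by
    calc (Aᶜ.card : ℝ) * (2 * η1) = ∑ a ∈ Aᶜ, 2 * η1 := by rw [Finset.sum_const, nsmul_eq_mul]
      _ ≤ ∑ a ∈ Aᶜ, f a := Finset.sum_le_sum fun a ha => (hA a (Finset.mem_compl.1 ha)).le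
      _ ≤ ∑ a, f a := Finset.sum_le_univ_sum_of_nonneg hf
      _ ≤ η1 * k := h
  have h2 : (Aᶜ.card : ℝ) * 2 ≤ k := by
    have : η1 * ((Aᶜ.card : ℝ) * 2) ≤ η1 * k := by linarith
    exact le_of_mul_le_mul_left this hη
  have h3 : Aᶜ.card * 2 ≤ k := by exact_mod_cast h2
  have h4 : A.card + Aᶜ.card = k := by rw [Finset.card_add_card_compl, hk]
  omega

end off

open Classical in
private theorem off_count (h3 : S_smallball) (h4 : S_rowcount) (I : Type) [Fintype I]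
    [DecidableEq I] [Nonempty I] (M R : Matrix I I ℝ) (d : ℕ) (η η1 : ℝ) (hη : 0 < η)
    (hη1 : 0 < η1) (hd : 12 * (2 * η1 * Fintype.card I) ≤ η * d) (hG : Greedy (rowE M) d η) :
    (((Finset.univ : Finset (I → I → Bool)).filter fun g' =>
      HS2 (Gm g' * M - R) ≤ η1 * Fintype.card I).card : ℝ) ≤
      2 ^ Fintype.card I * (((2 : ℝ) ^ Fintype.card I) ^ Fintype.card I *
        (2 : ℝ) ^ (-((d : ℝ) / 2 * (Fintype.card I : ℝ) / 2))) := by
  set k : ℕ := Fintype.card I with hk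
  have hcX : (Fintype.card (I → Bool) : ℝ) = (2 : ℝ) ^ k := by
    rw [Fintype.card_fun, Fintype.card_bool, ← hk]
    push_cast
    rfl
  set Sm : I → Finset (I → Bool) := fun a => Finset.univ.filter fun r : I → Bool =>
    ‖∑ i, sg (r i) • rowE M i - Real.sqrt k • rowE R a‖ ^ 2 ≤ 2 * η1 * k with hSm
  have hS : ∀ a, ((Sm a).card : ℝ) ≤ (Fintype.card (I → Bool) : ℝ) * (2 : ℝ) ^ (-((d : ℝ) / 2)) := by
    intro a
    have h5 := h3 I (EuclideanSpace ℝ I) (rowE M) d η (2 * η1 * k) (Real.sqrt k • rowE R a) hη hG hd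
    rw [hcX]
    have e : ((Sm a).card : ℝ) = (Nat.card {θ : I → Bool //
        ‖∑ i, sg (θ i) • rowE M i - Real.sqrt k • rowE R a‖ ^ 2 ≤ 2 * η1 * k} : ℝ) := by
      rw [hSm, Nat.card_eq_fintype_card, Fintype.card_subtype]
    rw [e]
    refine h5.trans (le_of_eq ?_)
    rw [← hk, sub_eq_add_neg, Real.rpow_add (by norm_num), Real.rpow_natCast]
  have h6 := h4 I (I → Bool) ((d : ℝ) / 2) Sm (by positivity) hS
  rw [hcX, ← hk] at h6
  refine le_trans ?_ h6
  rw [Nat.card_eq_fintype_card, Fintype.card_subtype]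
  norm_cast
  refine Finset.card_le_card fun g' hg' => ?_
  rw [Finset.mem_filter] at hg' ⊢
  refine ⟨Finset.mem_univ _, ?_⟩
  refine off_half k hk.symm (fun a => ∑ b, ((Gm g' * M - R) a b) ^ 2) (fun a => by positivity) η1
    hη1 hg'.2 _ ?_
  intro a ha
  rw [Finset.mem_filter, not_and] at ha
  have ha' := ha (Finset.mem_univ _)
  rw [hSm] at ha'
  simp only [Finset.mem_filter, Finset.mem_univ, true_and, not_le] at ha'
  have hk0 : (0 : ℝ) < k := by
    rw [hk]
    exact_mod_cast Fintype.card_pos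
  have hr := off_row g' M R a
  rw [← hk] at hr
  rw [hr] at ha'
  have : (k : ℝ) * (2 * η1) < k * ∑ b, ((Gm g' * M - R) a b) ^ 2 := by linarith
  exact lt_of_mul_lt_mul_left this hk0.le

open Classical in
theorem p_off (h1 : S_far) (h2 : S_approx) (h3 : S_smallball) (h4 : S_rowcount) (h5 : S_numeric) : S_off := by
  intro s C K1 ε hs hs4 hC hK1 hε
  obtain ⟨c0, hc0, hc1, hfar⟩ := h1 s C K1 ε hs hs4 hC hK1 hε
  have hK0 : 0 < K1 := by linarith
  set η1 : ℝ := ε * c0 / 192 with hη1d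
  have hη1 : 0 < η1 := by positivity
  set η : ℝ := min (η1 / ((1 + K1) ^ 2 * (2 + K1) ^ 2)) (ε / 64 / (2 + K1) ^ 2) with hηd
  have hη : 0 < η := by
    rw [hηd]
    refine lt_min (by positivity) (by positivity)
  have hηa : (1 + K1) ^ 2 * ((2 + K1) ^ 2 * η) ≤ η1 := by
    have : η ≤ η1 / ((1 + K1) ^ 2 * (2 + K1) ^ 2) := min_le_left _ _
    rw [le_div_iff₀ (by positivity)] at this
    linarith
  have hηb : (2 + K1) ^ 2 * η ≤ ε / 64 := by
    have : η ≤ ε / 64 / (2 + K1) ^ 2 := min_le_right _ _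
    rw [le_div_iff₀ (by positivity)] at this
    linarith
  obtain ⟨K, L, β, hL, hap⟩ := h2 s C η hs hs4 hC hη
  obtain ⟨k0, hk0⟩ := h5 K L (c0 / 4) (by positivity)
  refine ⟨k0, ?_⟩
  intro I _ _ _ hkI S hS
  set k : ℕ := Fintype.card I with hk
  have hkpos : (0 : ℝ) < k := by
    rw [hk]
    exact_mod_cast Fintype.card_pos
  set d : ℕ := ⌈c0 * k⌉₊ with hd
  have hd1 : c0 * k ≤ d := Nat.le_ceil _
  have hd2 : (d : ℝ) ≤ c0 * k + 1 := (Nat.ceil_lt_add_one (by positivity)).le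
  have hnum := hk0 k hkI
  set N : ℝ := ((k * L : ℕ) : ℝ) ^ (6 * K * k) with hN
  set W : ℝ := (2 : ℝ) ^ (c0 / 4 * (k : ℝ) ^ 2) with hW
  have hWpos : 0 < W := Real.rpow_pos_of_pos (by norm_num) _
  have hNnn : 0 ≤ N := by positivity
  set bd : ℝ := 2 ^ k * (((2 : ℝ) ^ k) ^ k * (2 : ℝ) ^ (-((d : ℝ) / 2 * (k : ℝ) / 2))) with hbd
  have hbdnn : 0 ≤ bd := by positivity
  -- the fibres
  set Q : Codes I K L × (I → I → Bool) → Finset ((I → I → Bool) × (I → I → Bool)) := fun cg =>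
    ((Finset.univ : Finset (I → I → Bool)).filter fun g' =>
      Greedy (rowE (Mo β cg.1 (Gm cg.2) S)) d (ε / 8) ∧
      HS2 (Gm g' * Mo β cg.1 (Gm cg.2) S - Ro β cg.1 (Gm cg.2) S) ≤ η1 * k).image
        (fun g' => (cg.2, g')) with hQ
  have hQc : ∀ cg, ((Q cg).card : ℝ) ≤ bd := by
    intro cg
    by_cases hG : Greedy (rowE (Mo β cg.1 (Gm cg.2) S)) d (ε / 8)
    · have h6 := off_count h3 h4 I (Mo β cg.1 (Gm cg.2) S) (Ro β cg.1 (Gm cg.2) S) d (ε / 8) η1
        (by positivity) hη1 (by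
          rw [← hk]
          have : 12 * (2 * η1 * k) = ε / 8 * (c0 * k) := by
            rw [hη1d]
            ring
          rw [this]
          exact mul_le_mul_of_nonneg_left hd1 (by positivity)) hG
      refine le_trans ?_ h6
      norm_cast
      rw [hQ]
      refine Finset.card_image_le.trans (Finset.card_le_card ?_)
      intro g' hg'
      rw [Finset.mem_filter] at hg' ⊢
      exact ⟨hg'.1, hg'.2.2⟩
    · have : Q cg = ∅ := by
        rw [hQ]
        simp only [Finset.image_eq_empty]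
        refine Finset.filter_eq_empty_iff.2 fun g' _ h => hG h.1
      rw [this]
      simpa using hbdnn
  have hcodes : (Fintype.card (Codes I K L × (I → I → Bool)) : ℝ) = N * 2 ^ (k ^ 2) := by
    rw [Fintype.card_prod, hN]
    simp only [Fintype.card_fun, Fintype.card_prod, Fintype.card_fin, Fintype.card_bool, ← hk]
    push_cast
    rw [← pow_mul, ← pow_mul, ← pow_mul, sq]
    congr 2
    ring
  have hsub : ((Finset.univ : Finset ((I → I → Bool) × (I → I → Bool))).filter fun p =>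
      OPle K1 (Gm p.1) ∧ OPle K1 (Gm p.2) ∧
      ∃ M, Bdd s C S p.1 p.2 M ∧ ε * k < HS2 M) ⊆ Finset.univ.biUnion Q := by
    intro p hp
    rw [Finset.mem_filter] at hp
    obtain ⟨-, hp1, hp2, M, hM, hMf⟩ := hp
    obtain ⟨c, -, hc1, hc2⟩ := hap K1 hK1 I S p.1 p.2 M hS hp1 hM
    rw [← hk] at hc1 hc2
    rw [Finset.mem_biUnion]
    refine ⟨(c, p.1), Finset.mem_univ _, ?_⟩
    rw [hQ]
    simp only [Finset.mem_image, Finset.mem_filter, Finset.mem_univ, true_and]
    refine ⟨p.2, ⟨?_, ?_⟩, rfl⟩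
    · have h6 := hfar I S p.1 M (Mo β c (Gm p.1) S) 0 hS hp1 hM.1 (by
        rw [abs_zero]
        linarith) (by
          rw [← hk]
          refine hc1.trans ?_
          exact mul_le_mul_of_nonneg_right hηb hkpos.le) (by
          rw [← hk, zero_smul, sub_zero]
          exact hMf) d (by rw [← hk]; exact hd2)
      rw [zero_smul, sub_zero] at h6
      exact h6
    · refine (off_err K1 _ hK1 (Gm p.2) M _ _ hp2 hc1 hc2).trans ?_
      have : (1 + K1) ^ 2 * ((2 + K1) ^ 2 * η * k) = (1 + K1) ^ 2 * ((2 + K1) ^ 2 * η) * k := by ring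
      rw [this]
      exact mul_le_mul_of_nonneg_right hηa hkpos.le
  have hcard : (Nat.card {p : (I → I → Bool) × (I → I → Bool) // OPle K1 (Gm p.1) ∧
      OPle K1 (Gm p.2) ∧ ∃ M, Bdd s C S p.1 p.2 M ∧ ε * k < HS2 M} : ℝ) ≤ N * 2 ^ (k ^ 2) * bd := by
    rw [Nat.card_eq_fintype_card, Fintype.card_subtype]
    calc (((Finset.univ : Finset ((I → I → Bool) × (I → I → Bool))).filter fun p =>
          OPle K1 (Gm p.1) ∧ OPle K1 (Gm p.2) ∧
          ∃ M, Bdd s C S p.1 p.2 M ∧ ε * k < HS2 M).card : ℝ)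
        ≤ ((Finset.univ.biUnion Q).card : ℝ) := by exact_mod_cast Finset.card_le_card hsub
      _ ≤ ((∑ cg, (Q cg).card : ℕ) : ℝ) := by exact_mod_cast Finset.card_biUnion_le
      _ = ∑ cg, ((Q cg).card : ℝ) := by push_cast; rfl
      _ ≤ ∑ _cg : Codes I K L × (I → I → Bool), bd := Finset.sum_le_sum fun cg _ => hQc cg
      _ = N * 2 ^ (k ^ 2) * bd := by
        rw [Finset.sum_const, nsmul_eq_mul, Finset.card_univ, hcodes]
  have hWinv : (2 : ℝ) ^ (-((d : ℝ) / 2 * (k : ℝ) / 2)) ≤ W⁻¹ := by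
    rw [hW, ← Real.rpow_neg (by norm_num)]
    refine Real.rpow_le_rpow_of_exponent_le (by norm_num) ?_
    have : c0 * k * k ≤ d * k := mul_le_mul_of_nonneg_right hd1 hkpos.le
    nlinarith
  have hbd2 : bd ≤ 2 ^ k * (2 ^ (k ^ 2) * W⁻¹) := by
    rw [hbd, ← pow_mul, ← sq]
    gcongr
  have hNW : N * 2 ^ (2 * k) * W⁻¹ ≤ 1 := by
    rw [← div_eq_mul_inv, div_le_one hWpos]
    refine le_trans ?_ hnum
    refine mul_le_mul_of_nonneg_left ?_ hNnn
    exact pow_le_pow_right₀ (by norm_num) (by omega)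
  calc _ ≤ N * 2 ^ (k ^ 2) * bd * 2 ^ k := mul_le_mul_of_nonneg_right hcard (by positivity)
    _ ≤ N * 2 ^ (k ^ 2) * (2 ^ k * (2 ^ (k ^ 2) * W⁻¹)) * 2 ^ k := by gcongr
    _ = N * 2 ^ (2 * k) * W⁻¹ * (2 ^ (k ^ 2) * 2 ^ (k ^ 2)) := by
      rw [two_mul k, pow_add]
      ring
    _ ≤ 1 * (2 ^ (k ^ 2) * 2 ^ (k ^ 2)) := mul_le_mul_of_nonneg_right hNW (by positivity)
    _ = 2 ^ (k ^ 2) * 2 ^ (k ^ 2) := one_mul _

end Pool.Agent.Lib.MP_355270_an.CB
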