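import Pool.Agent.Lib.MP_355270_an.CB.StmB
import Pool.Agent.Lib.MP_355270_an.CB.StmR

open Filter Topology
open scoped ENNReal

namespace Pool.Agent.Lib.MP_355270_an.CB

section op

variable {I : Type} [Fintype I]

/-- the bilinear form of a sign matrix -/
private def op_B (g : I → I → Bool) (y x : I → ℝ) : ℝ := ∑ a, ∑ b, sg (g a b) * y a * x b

private theorem op_add_left (g : I → I → Bool) (y y' x : I → ℝ) :
    op_B g (fun i => y i + y' i) x = op_B g y x + op_B g y' x := by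
  unfold op_B
  rw [← Finset.sum_add_distrib]
  refine Finset.sum_congr rfl fun a _ => ?_
  rw [← Finset.sum_add_distrib]
  refine Finset.sum_congr rfl fun b _ => ?_
  ring

private theorem op_add_right (g : I → I → Bool) (y x x' : I → ℝ) :
    op_B g y (fun i => x i + x' i) = op_B g y x + op_B g y x' := by
  unfold op_B
  rw [← Finset.sum_add_distrib]
  refine Finset.sum_congr rfl fun a _ => ?_
  rw [← Finset.sum_add_distrib]
  refine Finset.sum_congr rfl fun b _ => ?_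
  ring

private theorem op_smul (g : I → I → Bool) (y x : I → ℝ) (c d : ℝ) :
    op_B g (fun i => c * y i) (fun i => d * x i) = c * d * op_B g y x := by
  unfold op_B
  rw [Finset.mul_sum]
  refine Finset.sum_congr rfl fun a _ => ?_
  rw [Finset.mul_sum]
  refine Finset.sum_congr rfl fun b _ => ?_
  ring

private theorem op_zero {x : I → ℝ} (h : ∑ i, x i ^ 2 = 0) : ∀ i, x i = 0 := by
  intro i
  have h2 := (Finset.sum_eq_zero_iff_of_nonneg (fun i _ => sq_nonneg (x i))).1 h i (Finset.mem_univ i)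
  exact pow_eq_zero_iff (two_ne_zero) |>.1 h2

private theorem op_hom (g : I → I → Bool) (N0 : ℝ)
    (hN : ∀ y x : I → ℝ, ∑ i, y i ^ 2 ≤ 1 → ∑ i, x i ^ 2 ≤ 1 → op_B g y x ≤ N0) (y x : I → ℝ) :
    op_B g y x ≤ N0 * Real.sqrt (∑ i, y i ^ 2) * Real.sqrt (∑ i, x i ^ 2) := by
  by_cases hy : ∑ i, y i ^ 2 = 0
  · have h1 := op_zero hy
    have h2 : op_B g y x = 0 := by
      unfold op_B
      refine Finset.sum_eq_zero fun a _ => Finset.sum_eq_zero fun b _ => ?_
      rw [h1 a]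
      ring
    rw [h2, hy, Real.sqrt_zero, mul_zero, zero_mul]
  by_cases hx : ∑ i, x i ^ 2 = 0
  · have h1 := op_zero hx
    have h2 : op_B g y x = 0 := by
      unfold op_B
      refine Finset.sum_eq_zero fun a _ => Finset.sum_eq_zero fun b _ => ?_
      rw [h1 b]
      ring
    rw [h2, hx, Real.sqrt_zero, mul_zero]
  have hy0 : 0 < ∑ i, y i ^ 2 := lt_of_le_of_ne (Finset.sum_nonneg fun i _ => sq_nonneg _) (Ne.symm hy)
  have hx0 : 0 < ∑ i, x i ^ 2 := lt_of_le_of_ne (Finset.sum_nonneg fun i _ => sq_nonneg _) (Ne.symm hx)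
  set ry := Real.sqrt (∑ i, y i ^ 2) with hry
  set rx := Real.sqrt (∑ i, x i ^ 2) with hrx
  have hry0 : 0 < ry := Real.sqrt_pos.2 hy0
  have hrx0 : 0 < rx := Real.sqrt_pos.2 hx0
  have hry2 : ry ^ 2 = ∑ i, y i ^ 2 := Real.sq_sqrt hy0.le
  have hrx2 : rx ^ 2 = ∑ i, x i ^ 2 := Real.sq_sqrt hx0.le
  have h1 := hN (fun i => ry⁻¹ * y i) (fun i => rx⁻¹ * x i) (by
    simp only [mul_pow]
    rw [← Finset.mul_sum, ← hry2, ← mul_pow, inv_mul_cancel₀ hry0.ne', one_pow]) (by
    simp only [mul_pow]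
    rw [← Finset.mul_sum, ← hrx2, ← mul_pow, inv_mul_cancel₀ hrx0.ne', one_pow])
  rw [op_smul] at h1
  have h2 : op_B g y x = ry * rx * (ry⁻¹ * rx⁻¹ * op_B g y x) := by
    field_simp
  rw [h2]
  calc ry * rx * (ry⁻¹ * rx⁻¹ * op_B g y x) ≤ ry * rx * N0 :=
        mul_le_mul_of_nonneg_left h1 (by positivity)
    _ = N0 * ry * rx := by ring

private theorem op_bdd (g : I → I → Bool) (y x : I → ℝ) (hy : ∑ i, y i ^ 2 ≤ 1) (hx : ∑ i, x i ^ 2 ≤ 1) :
    op_B g y x ≤ Fintype.card I * Fintype.card I := by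
  have h1 : ∀ (z : I → ℝ), ∑ i, z i ^ 2 ≤ 1 → ∀ i, |z i| ≤ 1 := by
    intro z hz i
    have h2 : z i ^ 2 ≤ 1 :=
      (Finset.single_le_sum (f := fun i => z i ^ 2) (fun i _ => sq_nonneg _) (Finset.mem_univ i)).trans hz
    exact (sq_le_one_iff_abs_le_one _).1 h2
  unfold op_B
  have h3 : ∀ a : I, ∑ b, sg (g a b) * y a * x b ≤ Fintype.card I := by
    intro a
    have h4 : ∀ b ∈ Finset.univ, sg (g a b) * y a * x b ≤ 1 := by
      intro b _
      refine (le_abs_self _).trans ?_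
      rw [abs_mul, abs_mul, abs_sg, one_mul]
      have := mul_le_mul (h1 y hy a) (h1 x hx b) (abs_nonneg _) zero_le_one
      linarith
    have := Finset.sum_le_card_nsmul Finset.univ _ 1 h4
    simpa using this
  have := Finset.sum_le_card_nsmul Finset.univ _ (Fintype.card I : ℝ) (fun a _ => h3 a)
  simpa using this

/-- the deterministic part -/
private theorem op_det (g : I → I → Bool) (T : Finset (I → ℝ)) (t : ℝ) (ht0 : 0 ≤ t)
    (hT1 : ∀ y ∈ T, ∑ i, y i ^ 2 ≤ 25 / 16)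
    (hT2 : ∀ x : I → ℝ, ∑ i, x i ^ 2 ≤ 1 → ∃ y ∈ T, ∑ i, (x i - y i) ^ 2 ≤ 1 / 16)
    (ht : ∀ x ∈ T, ∀ y ∈ T, op_B g y x < t) (y x : I → ℝ) :
    op_B g y x ≤ 16 / 7 * t * Real.sqrt (∑ i, y i ^ 2) * Real.sqrt (∑ i, x i ^ 2) := by
  set S : Set ℝ := {s | ∃ y x : I → ℝ, ∑ i, y i ^ 2 ≤ 1 ∧ ∑ i, x i ^ 2 ≤ 1 ∧ s = op_B g y x} with hS
  have hbd : BddAbove S := by
    refine ⟨Fintype.card I * Fintype.card I, ?_⟩
    rintro s ⟨y, x, hy, hx, rfl⟩
    exact op_bdd g y x hy hx
  have hne : S.Nonempty := ⟨_, fun _ => 0, fun _ => 0, by simp, by simp, rfl⟩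
  set N0 := sSup S with hN0
  have hN : ∀ y x : I → ℝ, ∑ i, y i ^ 2 ≤ 1 → ∑ i, x i ^ 2 ≤ 1 → op_B g y x ≤ N0 :=
    fun y x hy hx => le_csSup hbd ⟨y, x, hy, hx, rfl⟩
  have hN00 : 0 ≤ N0 := by
    have := hN (fun _ => 0) (fun _ => 0) (by simp) (by simp)
    simpa [op_B] using this
  have hhom := op_hom g N0 hN
  have hle : N0 ≤ t + 9 / 16 * N0 := by
    refine csSup_le hne ?_
    rintro s ⟨y, x, hy, hx, rfl⟩
    obtain ⟨y', hy'T, hy'⟩ := hT2 y hy
    obtain ⟨x', hx'T, hx'⟩ := hT2 x hx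
    have e1 : op_B g y x = op_B g y' x' + op_B g (fun i => y i - y' i) x' +
        op_B g y (fun i => x i - x' i) := by
      have h1 : y = fun i => y' i + (y i - y' i) := by
        funext i
        ring
      have h2 : x = fun i => x' i + (x i - x' i) := by
        funext i
        ring
      have h3 : op_B g y x = op_B g y x' + op_B g y (fun i => x i - x' i) := by
        conv_lhs => rw [h2]
        exact op_add_right g y x' _
      have h4 : op_B g y x' = op_B g y' x' + op_B g (fun i => y i - y' i) x' := by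
        conv_lhs => rw [h1]
        exact op_add_left g y' _ x'
      rw [h3, h4]
    have s1 : Real.sqrt (∑ i, (y i - y' i) ^ 2) ≤ 1 / 4 := by
      rw [show (1 / 4 : ℝ) = Real.sqrt (1 / 16) by
        rw [show (1 / 16 : ℝ) = (1 / 4) ^ 2 by norm_num, Real.sqrt_sq (by norm_num)]]
      exact Real.sqrt_le_sqrt hy'
    have s2 : Real.sqrt (∑ i, (x i - x' i) ^ 2) ≤ 1 / 4 := by
      rw [show (1 / 4 : ℝ) = Real.sqrt (1 / 16) by
        rw [show (1 / 16 : ℝ) = (1 / 4) ^ 2 by norm_num, Real.sqrt_sq (by norm_num)]]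
      exact Real.sqrt_le_sqrt hx'
    have s3 : Real.sqrt (∑ i, x' i ^ 2) ≤ 5 / 4 := by
      rw [show (5 / 4 : ℝ) = Real.sqrt (25 / 16) by
        rw [show (25 / 16 : ℝ) = (5 / 4) ^ 2 by norm_num, Real.sqrt_sq (by norm_num)]]
      exact Real.sqrt_le_sqrt (hT1 x' hx'T)
    have s4 : Real.sqrt (∑ i, y i ^ 2) ≤ 1 := by
      rw [show (1 : ℝ) = Real.sqrt 1 by rw [Real.sqrt_one]]
      exact Real.sqrt_le_sqrt hy
    have b1 := hhom (fun i => y i - y' i) x'
    have b2 := hhom y (fun i => x i - x' i)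
    have b3 := ht x' hx'T y' hy'T
    have c1 : N0 * Real.sqrt (∑ i, (y i - y' i) ^ 2) * Real.sqrt (∑ i, x' i ^ 2) ≤ N0 * (1 / 4) * (5 / 4) :=
      mul_le_mul (mul_le_mul_of_nonneg_left s1 hN00) s3 (Real.sqrt_nonneg _) (by positivity)
    have c2 : N0 * Real.sqrt (∑ i, y i ^ 2) * Real.sqrt (∑ i, (x i - x' i) ^ 2) ≤ N0 * 1 * (1 / 4) :=
      mul_le_mul (mul_le_mul_of_nonneg_left s4 hN00) s2 (Real.sqrt_nonneg _) (by positivity)
    rw [e1]
    linarith
  have hN1 : N0 ≤ 16 / 7 * t := by linarith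
  refine (hhom y x).trans ?_
  have := Real.sqrt_nonneg (∑ i, y i ^ 2)
  have := Real.sqrt_nonneg (∑ i, x i ^ 2)
  gcongr

private theorem op_OPle [Nonempty I] (g : I → I → Bool)
    (h : ∀ y x : I → ℝ, op_B g y x ≤ 20 * Real.sqrt (Fintype.card I) * Real.sqrt (∑ i, y i ^ 2) * Real.sqrt (∑ i, x i ^ 2)) :
    OPle 20 (Gm g) := by
  intro x
  have hk : (0 : ℝ) < Fintype.card I := by exact_mod_cast Fintype.card_pos
  set w : I → ℝ := fun a => ∑ b, sg (g a b) * x b with hw
  have h1 : ∀ a, (Gm g).mulVec x a = w a / Real.sqrt (Fintype.card I) := by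
    intro a
    simp only [Matrix.mulVec, dotProduct, Gm, hw]
    rw [Finset.sum_div]
    refine Finset.sum_congr rfl fun b _ => ?_
    ring
  have h2 : ∑ a, (Gm g).mulVec x a ^ 2 = (∑ a, w a ^ 2) / Fintype.card I := by
    rw [Finset.sum_div]
    refine Finset.sum_congr rfl fun a _ => ?_
    rw [h1, div_pow, Real.sq_sqrt hk.le]
  have h3 : op_B g w x = ∑ a, w a ^ 2 := by
    unfold op_B
    refine Finset.sum_congr rfl fun a _ => ?_
    rw [pow_two]
    conv_rhs => rw [hw]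
    simp only
    rw [Finset.mul_sum]
    refine Finset.sum_congr rfl fun b _ => ?_
    ring
  have h4 := h w x
  rw [h3] at h4
  set W := ∑ a, w a ^ 2 with hWd
  set X := ∑ a, x a ^ 2 with hXd
  have hW0 : 0 ≤ W := Finset.sum_nonneg fun a _ => sq_nonneg _
  have hX0 : 0 ≤ X := Finset.sum_nonneg fun a _ => sq_nonneg _
  have h5 : W ≤ 400 * Fintype.card I * X := by
    rcases hW0.eq_or_lt with h0 | h0
    · rw [← h0]
      positivity
    · have hs : 0 < Real.sqrt W := Real.sqrt_pos.2 h0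
      have h6 : Real.sqrt W ≤ 20 * Real.sqrt (Fintype.card I) * Real.sqrt X := by
        have h7 : Real.sqrt W * Real.sqrt W ≤ Real.sqrt W * (20 * Real.sqrt (Fintype.card I) * Real.sqrt X) := by
          rw [Real.mul_self_sqrt hW0]
          calc W ≤ 20 * Real.sqrt (Fintype.card I) * Real.sqrt W * Real.sqrt X := h4
            _ = _ := by ring
        exact le_of_mul_le_mul_left h7 hs
      calc W = Real.sqrt W ^ 2 := (Real.sq_sqrt hW0).symm
        _ ≤ (20 * Real.sqrt (Fintype.card I) * Real.sqrt X) ^ 2 := by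
          exact pow_le_pow_left₀ hs.le h6 2
        _ = 400 * Fintype.card I * X := by
          rw [mul_pow, mul_pow, Real.sq_sqrt hk.le, Real.sq_sqrt hX0]
          norm_num
  rw [h2, div_le_iff₀ hk]
  calc W ≤ 400 * Fintype.card I * X := h5
    _ = 20 ^ 2 * X * Fintype.card I := by ring

end op

theorem p_op (h1 : S_net) (h2 : S_hoeff) : S_op := by
  classical
  refine ⟨20, by norm_num, ?_⟩
  intro I _ _ _
  obtain ⟨T, hTc, hT1, hT2⟩ := h1 I
  set k := Fintype.card I with hk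
  have hk0 : (0 : ℝ) ≤ k := Nat.cast_nonneg k
  set t : ℝ := 35 / 4 * Real.sqrt k with ht
  have ht0 : 0 ≤ t := by positivity
  have hsub : (Finset.univ.filter fun g : I → I → Bool => ¬ OPle 20 (Gm g)) ⊆
      (T ×ˢ T).biUnion fun p => Finset.univ.filter fun g : I → I → Bool =>
        t ≤ ∑ a, ∑ b, sg (g a b) * p.2 a * p.1 b := by
    intro g hg
    rw [Finset.mem_filter] at hg
    by_contra hcon
    apply hg.2
    apply op_OPle
    intro y x
    have := op_det g T t ht0 hT1 hT2 (fun x hx y hy => by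
      by_contra hlt
      apply hcon
      rw [Finset.mem_biUnion]
      refine ⟨(x, y), Finset.mk_mem_product hx hy, ?_⟩
      rw [Finset.mem_filter]
      exact ⟨Finset.mem_univ _, not_lt.1 hlt⟩) y x
    rw [ht] at this
    calc _ ≤ _ := this
      _ = _ := by ring
  have hcard : ∀ p ∈ T ×ˢ T, ((Finset.univ.filter fun g : I → I → Bool =>
      t ≤ ∑ a, ∑ b, sg (g a b) * p.2 a * p.1 b).card : ℝ) ≤ 2 ^ (k ^ 2) * Real.exp (-(15 * k)) := by
    intro p hp
    rw [Finset.mem_product] at hp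
    have h3 := h2 I p.1 p.2 (25 / 16) (25 / 16) t (by norm_num) (by norm_num) ht0 (hT1 _ hp.1) (hT1 _ hp.2)
    rw [Nat.card_eq_fintype_card, Fintype.card_subtype] at h3
    refine h3.trans ?_
    refine mul_le_mul_of_nonneg_left ?_ (by positivity)
    rw [Real.exp_le_exp, neg_le_neg_iff, ht, mul_pow, Real.sq_sqrt hk0]
    rw [le_div_iff₀ (by norm_num)]
    nlinarith
  have h5 : (Nat.card {g : I → I → Bool // ¬ OPle 20 (Gm g)} : ℝ) ≤
      (1000 ^ k * 1000 ^ k) * (2 ^ (k ^ 2) * Real.exp (-(15 * k))) := by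
    rw [Nat.card_eq_fintype_card, Fintype.card_subtype]
    have h6 : ((Finset.univ.filter fun g : I → I → Bool => ¬ OPle 20 (Gm g)).card : ℝ) ≤
        ∑ p ∈ T ×ˢ T, ((Finset.univ.filter fun g : I → I → Bool =>
          t ≤ ∑ a, ∑ b, sg (g a b) * p.2 a * p.1 b).card : ℝ) := by
      exact_mod_cast (Finset.card_le_card hsub).trans Finset.card_biUnion_le
    refine h6.trans ?_
    refine (Finset.sum_le_card_nsmul _ _ _ hcard).trans ?_
    rw [nsmul_eq_mul, Finset.card_product]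
    push_cast
    refine mul_le_mul_of_nonneg_right ?_ (by positivity)
    exact mul_le_mul hTc hTc (Nat.cast_nonneg _) (by positivity)
  have h7 : (1000 ^ k * 1000 ^ k) * Real.exp (-(15 * k)) * 2 ^ k ≤ 1 := by
    have h8 : Real.exp (-(15 * (k : ℝ))) = (Real.exp (-15)) ^ k := by
      rw [← Real.exp_nat_mul]
      congr 1
      ring
    rw [h8, ← mul_pow, ← mul_pow, ← mul_pow]
    refine pow_le_one₀ (by positivity) ?_
    have h9 : (2.7 : ℝ) ^ 15 ≤ Real.exp 15 := by
      have h10 : Real.exp 15 = Real.exp 1 ^ 15 := by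
        rw [← Real.exp_nat_mul]
        norm_num
      rw [h10]
      exact pow_le_pow_left₀ (by norm_num) (by linarith [Real.exp_one_gt_d9]) 15
    rw [Real.exp_neg]
    have h11 : 0 < Real.exp 15 := Real.exp_pos _
    rw [show (1000 : ℝ) * 1000 * (Real.exp 15)⁻¹ * 2 = 2000000 / Real.exp 15 by
      rw [div_eq_mul_inv]
      ring]
    rw [div_le_one h11]
    refine le_trans ?_ h9
    norm_num
  calc (Nat.card {g : I → I → Bool // ¬ OPle 20 (Gm g)} : ℝ) * 2 ^ k
      ≤ ((1000 ^ k * 1000 ^ k) * (2 ^ (k ^ 2) * Real.exp (-(15 * k)))) * 2 ^ k :=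
        mul_le_mul_of_nonneg_right h5 (by positivity)
    _ = 2 ^ (k ^ 2) * ((1000 ^ k * 1000 ^ k) * Real.exp (-(15 * k)) * 2 ^ k) := by ring
    _ ≤ 2 ^ (k ^ 2) * 1 := mul_le_mul_of_nonneg_left h7 (by positivity)
    _ = 2 ^ (k ^ 2) := mul_one _

end Pool.Agent.Lib.MP_355270_an.CB
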