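import Pool.Agent.Lib.MP_355270_an.CB.StmC

open Filter Topology
open scoped ENNReal

namespace Pool.Agent.Lib.MP_355270_an.CB

section tau

variable (𝕜 : Type) [RCLike 𝕜] {F : ℕ → Type} [∀ n, NormedAddCommGroup (F n)]
  [∀ n, NormedSpace 𝕜 (F n)]

/-- Truncation to the coordinates `< n`. -/
noncomputable def piBasis_tau (n : ℕ) : lp F 2 →L[𝕜] lp F 2 :=
  ∑ i ∈ Finset.range n, (lp.singleContinuousLinearMap 𝕜 F 2 i).comp (lp.evalCLM 𝕜 F 2 i)

variable {𝕜}

theorem piBasis_tau_apply (n : ℕ) (y : lp F 2) :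
    piBasis_tau 𝕜 n y = ∑ i ∈ Finset.range n, lp.single 2 i (y i) := by
  unfold piBasis_tau
  rw [sum_apply]
  rfl

theorem piBasis_tau_coord (n : ℕ) (y : lp F 2) (j : ℕ) :
    (piBasis_tau 𝕜 n y : ∀ i, F i) j = if j < n then y j else 0 := by
  rw [piBasis_tau_apply, lp.coeFn_sum, Finset.sum_apply]
  simp only [lp.coeFn_single, Finset.sum_pi_single, Finset.mem_range]

theorem piBasis_tau_single (n : ℕ) (v : F n) : piBasis_tau 𝕜 n (lp.single 2 n v : lp F 2) = 0 := by
  ext j
  rw [piBasis_tau_coord, lp.coeFn_zero, Pi.zero_apply]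
  split_ifs with h
  · rw [lp.coeFn_single, Pi.single_eq_of_ne h.ne]
  · rfl

theorem piBasis_tau_single' {m n : ℕ} (h : n < m) (v : F n) :
    piBasis_tau 𝕜 m (lp.single 2 n v : lp F 2) = lp.single 2 n v := by
  ext j
  rw [piBasis_tau_coord]
  split_ifs with hj
  · rfl
  · rw [lp.coeFn_single, Pi.single_eq_of_ne (by omega)]

theorem piBasis_tau_tau {m n : ℕ} (h : n ≤ m) (y : lp F 2) :
    piBasis_tau 𝕜 m (piBasis_tau 𝕜 n y) = piBasis_tau 𝕜 n y := by
  ext j
  rw [piBasis_tau_coord]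
  split_ifs with hj
  · rfl
  · rw [piBasis_tau_coord, if_neg (by omega)]

theorem piBasis_tau_tendsto (y : lp F 2) :
    Tendsto (fun n => piBasis_tau 𝕜 n y) atTop (𝓝 y) := by
  have h := (lp.hasSum_single (p := 2) (by norm_num) y).tendsto_sum_nat
  refine h.congr fun n => ?_
  rw [piBasis_tau_apply]

theorem piBasis_coord_tendsto (y : lp F 2) : Tendsto (fun n => ‖y n‖) atTop (𝓝 0) := by
  have h := (lp.hasSum_single (p := 2) (by norm_num) y).summable.tendsto_atTop_zero.norm
  rw [norm_zero] at h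
  refine h.congr fun n => ?_
  rw [lp.norm_single (by norm_num)]

end tau

section fr

variable {𝕜 : Type} [RCLike 𝕜] {X Y Z : Type*} [NormedAddCommGroup X] [NormedSpace 𝕜 X]
  [NormedAddCommGroup Y] [NormedSpace 𝕜 Y] [NormedAddCommGroup Z] [NormedSpace 𝕜 Z]

theorem piBasis_FR_comp [FiniteDimensional 𝕜 Y] (f : X →L[𝕜] Y) (g : Y →L[𝕜] Z) :
    FR (g.comp f) := by
  unfold FR
  have h : (g.comp f).toLinearMap.range ≤ g.toLinearMap.range := by
    rintro _ ⟨x, rfl⟩
    exact ⟨f x, rfl⟩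
  have : FiniteDimensional 𝕜 g.toLinearMap.range := inferInstance
  exact Submodule.finiteDimensional_of_le h

theorem piBasis_FR_add {S T : X →L[𝕜] Z} (hS : FR S) (hT : FR T) : FR (S + T) := by
  unfold FR at *
  have h : (S + T).toLinearMap.range ≤ S.toLinearMap.range ⊔ T.toLinearMap.range := by
    rintro _ ⟨x, rfl⟩
    exact Submodule.add_mem_sup ⟨x, rfl⟩ ⟨x, rfl⟩
  exact Submodule.finiteDimensional_of_le h

theorem piBasis_FR_zero : FR (0 : X →L[𝕜] Z) := by
  unfold FR
  have h : (0 : X →L[𝕜] Z).toLinearMap.range ≤ ⊥ := by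
    rintro _ ⟨x, rfl⟩
    exact Submodule.zero_mem _
  exact Submodule.finiteDimensional_of_le h

theorem piBasis_FR_sum (s : Finset ℕ) (S : ℕ → X →L[𝕜] Z) (hS : ∀ i, FR (S i)) :
    FR (∑ i ∈ s, S i) := by
  classical
  induction s using Finset.induction_on with
  | empty => rw [Finset.sum_empty]; exact piBasis_FR_zero
  | insert a s ha ih => rw [Finset.sum_insert ha]; exact piBasis_FR_add (hS a) ih

end fr

section P

variable {𝕜 : Type} [RCLike 𝕜] {E : Type} [NormedAddCommGroup E] [NormedSpace 𝕜 E]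
  {V : ℕ → Submodule 𝕜 E} (W : ∀ n, E →L[𝕜] V (n + 1))

/-- the vector `v = W n x + y n` -/
noncomputable def piBasis_v (n : ℕ) : (E × lp (fun n => ↥(V (n + 1))) 2) →L[𝕜] V (n + 1) :=
  (W n).comp (ContinuousLinearMap.fst 𝕜 E (lp (fun n => ↥(V (n + 1))) 2)) +
    (lp.evalCLM 𝕜 (fun n => ↥(V (n + 1))) 2 n).comp
      (ContinuousLinearMap.snd 𝕜 E (lp (fun n => ↥(V (n + 1))) 2))

/-- the vector `v - W n v` -/
noncomputable def piBasis_r (n : ℕ) : (E × lp (fun n => ↥(V (n + 1))) 2) →L[𝕜] V (n + 1) :=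
  piBasis_v W n - ((W n).comp (V (n + 1)).subtypeL).comp (piBasis_v W n)

/-- the projections -/
noncomputable def piBasis_P (n : ℕ) :
    (E × lp (fun n => ↥(V (n + 1))) 2) →L[𝕜] (E × lp (fun n => ↥(V (n + 1))) 2) :=
  ((V (n + 1)).subtypeL.comp (piBasis_v W n)).prod
    ((piBasis_tau 𝕜 n).comp (ContinuousLinearMap.snd 𝕜 E (lp (fun n => ↥(V (n + 1))) 2)) +
      (lp.singleContinuousLinearMap 𝕜 (fun n => ↥(V (n + 1))) 2 n).comp (piBasis_r W n))

theorem piBasis_v_apply (n : ℕ) (z : E × lp (fun n => ↥(V (n + 1))) 2) :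
    piBasis_v W n z = W n z.1 + z.2 n := rfl

theorem piBasis_r_apply (n : ℕ) (z : E × lp (fun n => ↥(V (n + 1))) 2) :
    piBasis_r W n z = piBasis_v W n z - W n (piBasis_v W n z : E) := rfl

theorem piBasis_P_fst (n : ℕ) (z : E × lp (fun n => ↥(V (n + 1))) 2) :
    (piBasis_P W n z).1 = (piBasis_v W n z : E) := rfl

theorem piBasis_P_snd (n : ℕ) (z : E × lp (fun n => ↥(V (n + 1))) 2) :
    (piBasis_P W n z).2 = piBasis_tau 𝕜 n z.2 + lp.single 2 n (piBasis_r W n z) := rfl

/-- `v` of `P n z` is `v` of `z` -/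
theorem piBasis_v_P (n : ℕ) (z : E × lp (fun n => ↥(V (n + 1))) 2) :
    piBasis_v W n (piBasis_P W n z) = piBasis_v W n z := by
  rw [piBasis_v_apply, piBasis_P_fst, piBasis_P_snd, lp.coeFn_add, Pi.add_apply,
    piBasis_tau_coord, if_neg (lt_irrefl n), zero_add, lp.coeFn_single, Pi.single_eq_same,
    piBasis_r_apply]
  abel

theorem piBasis_P_P (n : ℕ) (z : E × lp (fun n => ↥(V (n + 1))) 2) :
    piBasis_P W n (piBasis_P W n z) = piBasis_P W n z := by
  refine Prod.ext ?_ ?_
  · rw [piBasis_P_fst, piBasis_v_P, piBasis_P_fst]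
  · rw [piBasis_P_snd, piBasis_r_apply, piBasis_v_P, ← piBasis_r_apply, piBasis_P_snd, map_add,
      piBasis_tau_single, add_zero, piBasis_tau_tau le_rfl]

theorem piBasis_P_nested {m n : ℕ} (h : n < m) (hW : ∀ x ∈ V m, (W m x : E) = x) (hV : Monotone V)
    (z : E × lp (fun n => ↥(V (n + 1))) 2) :
    piBasis_P W m (piBasis_P W n z) = piBasis_P W n z := by
  have h1 : (piBasis_v W n z : E) ∈ V m := hV (by omega) (piBasis_v W n z).2
  have h2 : (piBasis_v W m (piBasis_P W n z) : E) = piBasis_v W n z := by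
    rw [piBasis_v_apply, piBasis_P_fst, piBasis_P_snd, lp.coeFn_add, Pi.add_apply,
      piBasis_tau_coord, if_neg (by omega), zero_add, lp.coeFn_single,
      Pi.single_eq_of_ne (by omega), add_zero, hW _ h1]
  have h3 : piBasis_r W m (piBasis_P W n z) = 0 := by
    rw [piBasis_r_apply, sub_eq_zero]
    refine Subtype.ext ?_
    rw [h2, hW _ h1]
  refine Prod.ext ?_ ?_
  · rw [piBasis_P_fst, h2, piBasis_P_fst]
  · rw [piBasis_P_snd, h3, lp.single_zero, add_zero, piBasis_P_snd, map_add,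
      piBasis_tau_tau h.le, piBasis_tau_single' h]

theorem piBasis_P_FR (hfin : ∀ n, FiniteDimensional 𝕜 (V n)) (n : ℕ) : FR (piBasis_P W n) := by
  have := hfin (n + 1)
  have e : piBasis_P W n =
      ((ContinuousLinearMap.inl 𝕜 E (lp (fun n => ↥(V (n + 1))) 2)).comp
        (V (n + 1)).subtypeL).comp (piBasis_v W n) +
      ((∑ i ∈ Finset.range n,
        ((ContinuousLinearMap.inr 𝕜 E (lp (fun n => ↥(V (n + 1))) 2)).comp
          (lp.singleContinuousLinearMap 𝕜 (fun n => ↥(V (n + 1))) 2 i)).comp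
          ((lp.evalCLM 𝕜 (fun n => ↥(V (n + 1))) 2 i).comp
            (ContinuousLinearMap.snd 𝕜 E (lp (fun n => ↥(V (n + 1))) 2)))) +
      ((ContinuousLinearMap.inr 𝕜 E (lp (fun n => ↥(V (n + 1))) 2)).comp
        (lp.singleContinuousLinearMap 𝕜 (fun n => ↥(V (n + 1))) 2 n)).comp (piBasis_r W n)) := by
    refine ContinuousLinearMap.ext fun z => ?_
    have e1 : (∑ i ∈ Finset.range n,
        ((ContinuousLinearMap.inr 𝕜 E (lp (fun n => ↥(V (n + 1))) 2)).comp
          (lp.singleContinuousLinearMap 𝕜 (fun n => ↥(V (n + 1))) 2 i)).comp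
          ((lp.evalCLM 𝕜 (fun n => ↥(V (n + 1))) 2 i).comp
            (ContinuousLinearMap.snd 𝕜 E (lp (fun n => ↥(V (n + 1))) 2)))) z =
        ContinuousLinearMap.inr 𝕜 E (lp (fun n => ↥(V (n + 1))) 2) (piBasis_tau 𝕜 n z.2) := by
      rw [piBasis_tau_apply, map_sum, sum_apply]
      rfl
    rw [add_apply, add_apply, e1]
    refine Prod.ext ?_ ?_
    · show (piBasis_v W n z : E) = (piBasis_v W n z : E) + (0 + 0)
      rw [add_zero, add_zero]
    · show piBasis_tau 𝕜 n z.2 + lp.single 2 n (piBasis_r W n z) =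
        0 + (piBasis_tau 𝕜 n z.2 + lp.single 2 n (piBasis_r W n z))
      rw [zero_add]
  rw [e]
  refine piBasis_FR_add (piBasis_FR_comp _ _) (piBasis_FR_add ?_ (piBasis_FR_comp _ _))
  refine piBasis_FR_sum _ _ fun i => ?_
  have := hfin (i + 1)
  exact piBasis_FR_comp _ _

end P

theorem p_piBasis : S_piBasis := by
  intro 𝕜 _ E _ _ V w K hfin hV hw hid hK hlim
  let W : ∀ n, E →L[𝕜] V (n + 1) := fun n => (w (n + 1)).codRestrict (V (n + 1)) (hw (n + 1))
  have hWa : ∀ n x, (W n x : E) = w (n + 1) x := fun n x => rfl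
  have hWn : ∀ n x, ‖W n x‖ ≤ K * ‖x‖ := by
    intro n x
    have h1 : ‖W n x‖ = ‖w (n + 1) x‖ := rfl
    rw [h1]
    exact ((w (n + 1)).le_opNorm x).trans (mul_le_mul_of_nonneg_right (hK _) (norm_nonneg _))
  refine ⟨piBasis_P W, fun n x => piBasis_P_P W n x, fun n => piBasis_P_FR W hfin n, ?_, ?_⟩
  · intro m n hmn
    rcases hmn.eq_or_lt with rfl | h
    · exact le_rfl
    · rintro _ ⟨x, rfl⟩
      refine ⟨piBasis_P W m x, ?_⟩
      exact piBasis_P_nested W h (fun y hy => hid n y hy) hV x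
  · rintro ⟨x, y⟩
    have hy := piBasis_coord_tendsto y
    have hx : Tendsto (fun n => (W n x : E)) atTop (𝓝 x) := by
      have := (hlim x).comp (tendsto_add_atTop_nat 1)
      exact this
    have hyE : Tendsto (fun n => ((y n : V (n + 1)) : E)) atTop (𝓝 0) := by
      rw [tendsto_zero_iff_norm_tendsto_zero]
      exact hy
    have h1 : Tendsto (fun n => (piBasis_P W n (x, y)).1) atTop (𝓝 x) := by
      have := hx.add hyE
      rw [add_zero] at this
      exact this
    have h2 : Tendsto (fun n => ‖piBasis_r W n (x, y)‖) atTop (𝓝 0) := by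
      have hb : ∀ n, ‖piBasis_r W n (x, y)‖ ≤ K * ‖x - (W n x : E)‖ + (‖y n‖ + K * ‖y n‖) := by
        intro n
        have e : piBasis_r W n (x, y) =
            W n (x - (W n x : E)) + (y n - W n ((y n : V (n + 1)) : E)) := by
          rw [piBasis_r_apply, piBasis_v_apply, map_sub, Submodule.coe_add, map_add]
          abel
        rw [e]
        refine (norm_add_le _ _).trans (add_le_add (hWn _ _) ?_)
        refine (norm_sub_le _ _).trans (add_le_add_right ?_ _)
        exact hWn _ _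
      have hl : Tendsto (fun n => K * ‖x - (W n x : E)‖ + (‖y n‖ + K * ‖y n‖)) atTop (𝓝 0) := by
        have l1 : Tendsto (fun n => ‖x - (W n x : E)‖) atTop (𝓝 0) := by
          have := (tendsto_const_nhds (x := x)).sub hx
          rw [sub_self] at this
          simpa using this.norm
        have := (l1.const_mul K).add (hy.add (hy.const_mul K))
        simpa using this
      exact squeeze_zero (fun n => norm_nonneg _) hb hl
    have h3 : Tendsto (fun n => (piBasis_P W n (x, y)).2) atTop (𝓝 y) := by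
      have l2 : Tendsto (fun n => (lp.single 2 n (piBasis_r W n (x, y)) :
          lp (fun n => ↥(V (n + 1))) 2)) atTop (𝓝 0) := by
        rw [tendsto_zero_iff_norm_tendsto_zero]
        refine h2.congr fun n => ?_
        rw [lp.norm_single (by norm_num)]
      have := (piBasis_tau_tendsto (𝕜 := 𝕜) y).add l2
      rw [add_zero] at this
      exact this
    exact h1.prodMk_nhds h3

end Pool.Agent.Lib.MP_355270_an.CB
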