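import Pool.Agent.Lib.MP_355270_an.CB.StmC

open Filter Topology
open scoped ENNReal

namespace Pool.Agent.Lib.MP_355270_an.CB

section

variable {𝕜 : Type} [RCLike 𝕜] {E : Type} [NormedAddCommGroup E] [NormedSpace 𝕜 E]

/-- The limit of a bounded sequence of operators with values in a finite-dimensional subspace. -/
theorem piOne_lim (T : ℕ → E →L[𝕜] E) (R : Submodule 𝕜 E) [FiniteDimensional 𝕜 R] (K : ℝ)
    (hT : ∀ l x, T l x ∈ R) (hK : ∀ l x, ‖T l x‖ ≤ K * ‖x‖) :
    ∃ Q : E →L[𝕜] E, (∀ x, Tendsto (fun l => T l x) (hyperfilter ℕ : Filter ℕ) (𝓝 (Q x))) ∧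
      (∀ x, Q x ∈ R) ∧ ∀ x, ‖Q x‖ ≤ K * ‖x‖ := by
  have hex : ∀ x, ∃ q : E, Tendsto (fun l => T l x) (hyperfilter ℕ : Filter ℕ) (𝓝 q) ∧
      q ∈ R ∧ ‖q‖ ≤ K * ‖x‖ := by
    intro x
    have : ProperSpace R := FiniteDimensional.proper 𝕜 R
    have hc : IsCompact ((fun y : R => (y : E)) '' Metric.closedBall 0 (K * ‖x‖)) :=
      (isCompact_closedBall _ _).image continuous_subtype_val
    have hle : ((hyperfilter ℕ).map (fun l => T l x) : Filter E) ≤
        𝓟 ((fun y : R => (y : E)) '' Metric.closedBall 0 (K * ‖x‖)) := by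
      rw [le_principal_iff]
      refine Filter.mem_map.2 (Filter.univ_mem' fun l => ?_)
      refine ⟨⟨T l x, hT l x⟩, ?_, rfl⟩
      rw [mem_closedBall_zero_iff]
      exact hK l x
    obtain ⟨q, hq, hq2⟩ := hc.ultrafilter_le_nhds ((hyperfilter ℕ).map (fun l => T l x)) hle
    refine ⟨q, hq2, ?_⟩
    obtain ⟨y, hy, rfl⟩ := hq
    refine ⟨y.2, ?_⟩
    rw [mem_closedBall_zero_iff] at hy
    exact hy
  choose q hq1 hq2 hq3 using hex
  refine ⟨LinearMap.mkContinuous
    { toFun := q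
      map_add' := fun x y => ?_
      map_smul' := fun a x => ?_ } K hq3, hq1, hq2, hq3⟩
  · refine tendsto_nhds_unique (hq1 (x + y)) ?_
    have h := (hq1 x).add (hq1 y)
    refine h.congr fun l => ?_
    rw [map_add]
  · refine tendsto_nhds_unique (hq1 (a • x)) ?_
    have h := (hq1 x).const_smul a
    refine h.congr fun l => ?_
    rw [map_smul]

/-- The products `u n ∘ u (n + 1) ∘ ... ∘ u (n + l)`. -/
noncomputable def piOne_P (u : ℕ → E →L[𝕜] E) (n : ℕ) : ℕ → E →L[𝕜] E
  | 0 => u n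
  | l + 1 => (piOne_P u n l).comp (u (n + l + 1))

theorem piOne_P_zero (u : ℕ → E →L[𝕜] E) (n : ℕ) (x : E) : piOne_P u n 0 x = u n x := rfl

theorem piOne_P_succ (u : ℕ → E →L[𝕜] E) (n l : ℕ) (x : E) :
    piOne_P u n (l + 1) x = piOne_P u n l (u (n + l + 1) x) := rfl

theorem piOne_P_mem (u : ℕ → E →L[𝕜] E) (n l : ℕ) (x : E) :
    piOne_P u n l x ∈ (u n).toLinearMap.range := by
  induction l generalizing x with
  | zero => exact ⟨x, rfl⟩
  | succ l ih => rw [piOne_P_succ]; exact ih _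

theorem piOne_P_N (N : Seminorm 𝕜 E) (u : ℕ → E →L[𝕜] E) (hN : ∀ n x, N (u n x) ≤ N x)
    (n l : ℕ) (x : E) : N (piOne_P u n l x) ≤ N x := by
  induction l generalizing x with
  | zero => exact hN n x
  | succ l ih => rw [piOne_P_succ]; exact (ih _).trans (hN _ _)

/-- Composition of the products. -/
theorem piOne_P_comp (u : ℕ → E →L[𝕜] E) (n d l : ℕ) (x : E) :
    piOne_P u n d (piOne_P u (n + d + 1) l x) = piOne_P u n (d + 1 + l) x := by
  induction l generalizing x with
  | zero => rfl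
  | succ l ih =>
    rw [piOne_P_succ, ih, show d + 1 + (l + 1) = (d + 1 + l) + 1 by omega, piOne_P_succ,
      show n + (d + 1 + l) + 1 = n + d + 1 + l + 1 by omega]

end

theorem p_piOne : S_piOne := by
  intro 𝕜 _ E _ _ N c C hc hN1 hN2 u hu huN
  obtain ⟨hpr, hfr, hmono, htend⟩ := hu
  -- elements of the ranges are fixed
  have hfix : ∀ n m, n ≤ m → ∀ x ∈ (u n).toLinearMap.range, u m x = x := by
    intro n m hnm x hx
    obtain ⟨y, hy⟩ := hmono n m hnm hx
    have hy' : u m y = x := hy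
    rw [← hy', hpr]
  have hfixP : ∀ n m l, n ≤ m → ∀ x ∈ (u n).toLinearMap.range, piOne_P u m l x = x := by
    intro n m l hnm x hx
    induction l with
    | zero => exact hfix n m hnm x hx
    | succ l ih => rw [piOne_P_succ, hfix n (m + l + 1) (by omega) x hx, ih]
  have hKb : ∀ n l x, ‖piOne_P u n l x‖ ≤ C / c * ‖x‖ := by
    intro n l x
    have h1 := hN1 (piOne_P u n l x)
    have h2 := piOne_P_N N u huN n l x
    have h3 := hN2 x
    rw [div_mul_eq_mul_div, le_div_iff₀ hc]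
    linarith
  have hQ : ∀ n, ∃ Q : E →L[𝕜] E,
      (∀ x, Tendsto (fun l => piOne_P u n (l - n) x) (hyperfilter ℕ : Filter ℕ) (𝓝 (Q x))) ∧
      (∀ x, Q x ∈ (u n).toLinearMap.range) ∧ ∀ x, ‖Q x‖ ≤ C / c * ‖x‖ := by
    intro n
    have : FiniteDimensional 𝕜 (u n).toLinearMap.range := hfr n
    exact piOne_lim (fun l => piOne_P u n (l - n)) (u n).toLinearMap.range (C / c)
      (fun l => piOne_P_mem u n (l - n)) (fun l => hKb n (l - n))
  choose Q hQ1 hQ2 hQ3 using hQ
  have hyp : (hyperfilter ℕ : Filter ℕ) ≤ atTop := by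
    rw [← Nat.cofinite_eq_atTop]
    exact hyperfilter_le_cofinite
  -- `Q m x = x` for `x` in the range of `u n`, `n ≤ m`
  have hQfix : ∀ n m, n ≤ m → ∀ x ∈ (u n).toLinearMap.range, Q m x = x := by
    intro n m hnm x hx
    refine tendsto_nhds_unique (hQ1 m x) ?_
    refine tendsto_const_nhds.congr fun l => ?_
    exact (hfixP n m (l - m) hnm x hx).symm
  -- `Q n (Q m x) = Q n x` for `n < m`
  have hQcomp : ∀ n m, n < m → ∀ x, Q n (Q m x) = Q n x := by
    intro n m hnm x
    obtain ⟨d, rfl⟩ : ∃ d, m = n + d + 1 := ⟨m - n - 1, by omega⟩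
    -- on the range of `u (n + d + 1)`, `Q n` is `P n d`
    have h1 : ∀ y ∈ (u (n + d + 1)).toLinearMap.range, Q n y = piOne_P u n d y := by
      intro y hy
      refine tendsto_nhds_unique (hQ1 n y) ?_
      refine tendsto_const_nhds.congr' ?_
      refine hyp ?_
      filter_upwards [eventually_ge_atTop (n + d + 1)] with l hl
      obtain ⟨e, rfl⟩ : ∃ e, l = n + d + 1 + e := ⟨l - (n + d + 1), by omega⟩
      rw [show n + d + 1 + e - n = d + 1 + e by omega, ← piOne_P_comp,
        hfixP (n + d + 1) (n + d + 1) e le_rfl y hy]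
    rw [h1 _ (hQ2 (n + d + 1) x)]
    -- the sequence `P n (l - n) x` tends to `P n d (Q m x)` along `l`
    have h3 := ((piOne_P u n d).continuous.tendsto _).comp (hQ1 (n + d + 1) x)
    refine tendsto_nhds_unique h3 ((hQ1 n x).congr' ?_)
    refine hyp ?_
    filter_upwards [eventually_ge_atTop (n + d + 1)] with l hl
    obtain ⟨e, rfl⟩ : ∃ e, l = n + d + 1 + e := ⟨l - (n + d + 1), by omega⟩
    rw [Function.comp_apply, show n + d + 1 + e - (n + d + 1) = e by omega,
      show n + d + 1 + e - n = d + 1 + e by omega, piOne_P_comp]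
  refine ⟨Q, fun n => ?_, fun x => ?_, fun n m hnm => ?_⟩
  · have : FiniteDimensional 𝕜 (u n).toLinearMap.range := hfr n
    refine Submodule.finiteDimensional_of_le (S₂ := (u n).toLinearMap.range) ?_
    rintro _ ⟨x, rfl⟩
    exact hQ2 n x
  · rw [Metric.tendsto_atTop]
    intro ε hε
    have hK0 : 0 ≤ C / c ∨ ∀ y : E, ‖y‖ = 0 := by
      by_cases h : ∀ y : E, ‖y‖ = 0
      · exact Or.inr h
      · left
        push Not at h
        obtain ⟨y, hy⟩ := h
        have hy' : 0 < ‖y‖ := lt_of_le_of_ne (norm_nonneg _) (Ne.symm hy)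
        have h2 := (norm_nonneg _).trans (hQ3 0 y)
        exact nonneg_of_mul_nonneg_left h2 hy'
    rcases hK0 with hK0 | hK0
    · have hk := Metric.tendsto_atTop.1 (htend x) (ε / (C / c + 2)) (by positivity)
      obtain ⟨k, hk⟩ := hk
      refine ⟨k, fun n hn => ?_⟩
      have h1 : dist (u k x) x < ε / (C / c + 2) := hk k le_rfl
      have h2 : Q n (u k x) = u k x := hQfix k n hn (u k x) ⟨x, rfl⟩
      have h3 : Q n x - x = (u k x - x) - Q n (u k x - x) := by
        rw [map_sub, h2]; abel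
      rw [dist_eq_norm, h3]
      rw [dist_eq_norm] at h1
      have h4 := hQ3 n (u k x - x)
      have h5 : ‖(u k x - x) - Q n (u k x - x)‖ ≤ ‖u k x - x‖ + ‖Q n (u k x - x)‖ :=
        norm_sub_le _ _
      have h6 : (1 + C / c) * ‖u k x - x‖ ≤ (1 + C / c) * (ε / (C / c + 2)) :=
        mul_le_mul_of_nonneg_left h1.le (by positivity)
      have h7 : (1 + C / c) * (ε / (C / c + 2)) < ε := by
        rw [mul_div_assoc', div_lt_iff₀ (by positivity)]
        nlinarith
      linarith
    · refine ⟨0, fun n _ => ?_⟩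
      rw [dist_eq_norm, hK0]
      exact hε
  · rcases lt_or_gt_of_ne hnm with h | h
    · rw [min_eq_left h.le]
      ext x
      exact hQcomp n m h x
    · rw [min_eq_right h.le]
      ext x
      exact hQfix m n h.le (Q m x) (hQ2 m x)

end Pool.Agent.Lib.MP_355270_an.CB
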