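import Pool.Agent.Lib.MP_355270_an.CB.StmB

open Filter Topology
open scoped ENNReal

namespace Pool.Agent.Lib.MP_355270_an.CB

theorem rad2_sg_not (b : Bool) : sg (!b) = -sg b := by cases b <;> norm_num [sg]

theorem rad2_orth {ι : Type} [Fintype ι] [DecidableEq ι] {i j : ι} (hij : i ≠ j) :
    ∑ θ : ι → Bool, sg (θ i) * sg (θ j) = 0 := by
  refine Finset.sum_involution (fun θ _ => Function.update θ i (!θ i)) ?_ ?_ ?_ ?_
  · intro θ _
    simp only [Function.update_self, Function.update_of_ne hij.symm, rad2_sg_not]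
    ring
  · intro θ _ _ h
    have := congrFun h i
    simp at this
  · intro θ _
    exact Finset.mem_univ _
  · intro θ _
    simp

theorem rad2_sum {ι : Type} [Fintype ι] [DecidableEq ι] (i j : ι) :
    ∑ θ : ι → Bool, sg (θ i) * sg (θ j) = if i = j then (2 : ℝ) ^ Fintype.card ι else 0 := by
  split_ifs with h
  · subst h
    simp only [sg_mul_self, Finset.sum_const, Finset.card_univ, Fintype.card_pi, Fintype.card_bool,
      Finset.prod_const, nsmul_eq_mul, mul_one]
    push_cast
    rfl
  · exact rad2_orth h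

theorem p_rad2 : S_rad2 := by
  intro H _ _ ι _ _ c
  unfold rad
  have h1 : ∀ θ : ι → Bool, ‖∑ i, sg (θ i) • c i‖ ^ 2 =
      ∑ i, ∑ j, (sg (θ i) * sg (θ j)) * inner ℝ (c i) (c j) := by
    intro θ
    rw [← real_inner_self_eq_norm_sq, sum_inner]
    refine Finset.sum_congr rfl fun i _ => ?_
    rw [inner_sum]
    refine Finset.sum_congr rfl fun j _ => ?_
    rw [real_inner_smul_left, real_inner_smul_right]
    ring
  simp only [h1]
  rw [Finset.sum_comm]
  have h2 : ∀ i, ∑ θ : ι → Bool, ∑ j, (sg (θ i) * sg (θ j)) * inner ℝ (c i) (c j) =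
      (2 : ℝ) ^ Fintype.card ι * ‖c i‖ ^ 2 := by
    intro i
    rw [Finset.sum_comm]
    simp only [← Finset.sum_mul, rad2_sum]
    rw [Finset.sum_eq_single i]
    · rw [if_pos rfl, real_inner_self_eq_norm_sq]
    · intro j _ hj
      rw [if_neg hj.symm, zero_mul]
    · intro h
      exact absurd (Finset.mem_univ i) h
  simp only [h2]
  rw [← Finset.mul_sum, mul_div_cancel_left₀ _ (by positivity)]

end Pool.Agent.Lib.MP_355270_an.CB
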