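import Pool.Agent.Lib.MP_355270_an.CB.StmB

open Filter Topology
open scoped ENNReal

namespace Pool.Agent.Lib.MP_355270_an.CB

/-- Terms linear in one sign average to zero. -/
theorem rad4_flip {ι : Type} [Fintype ι] [DecidableEq ι] (c : ι → ℝ) (T : Finset ι) (i : ι)
    (hi : i ∉ T) (F : ℝ → ℝ) :
    ∑ θ : ι → Bool, sg (θ i) * F (∑ j ∈ T, sg (θ j) * c j) = 0 := by
  have hinv : Function.Involutive (fun θ : ι → Bool => Function.update θ i (!θ i)) := by
    intro θ
    funext j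
    by_cases h : j = i
    · subst h
      simp
    · simp [Function.update_of_ne h]
  let e : (ι → Bool) ≃ (ι → Bool) := Function.Involutive.toPerm _ hinv
  have h1 := Equiv.sum_comp e
    (fun θ : ι → Bool => sg (θ i) * F (∑ j ∈ T, sg (θ j) * c j))
  have h2 : ∀ θ : ι → Bool, sg (e θ i) * F (∑ j ∈ T, sg (e θ j) * c j) =
      -(sg (θ i) * F (∑ j ∈ T, sg (θ j) * c j)) := by
    intro θ
    have e1 : sg (e θ i) = -sg (θ i) := by
      show sg (Function.update θ i (!θ i) i) = _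
      rw [Function.update_self]
      cases θ i <;> norm_num [sg]
    have e2 : ∑ j ∈ T, sg (e θ j) * c j = ∑ j ∈ T, sg (θ j) * c j := by
      refine Finset.sum_congr rfl fun j hj => ?_
      have hji : j ≠ i := by
        rintro rfl
        exact hi hj
      show sg (Function.update θ i (!θ i) j) * c j = _
      rw [Function.update_of_ne hji]
    rw [e1, e2]
    ring
  simp only [h2, Finset.sum_neg_distrib] at h1
  linarith

theorem rad4_aux {ι : Type} [Fintype ι] [DecidableEq ι] (c : ι → ℝ) (T : Finset ι) :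
    ∑ θ : ι → Bool, (∑ j ∈ T, sg (θ j) * c j) ^ 2 = 2 ^ Fintype.card ι * ∑ j ∈ T, c j ^ 2 ∧
    ∑ θ : ι → Bool, (∑ j ∈ T, sg (θ j) * c j) ^ 4 ≤
      2 ^ Fintype.card ι * (3 * (∑ j ∈ T, c j ^ 2) ^ 2) := by
  induction T using Finset.induction_on with
  | empty => simp
  | insert i T hi ih =>
    obtain ⟨ih2, ih4⟩ := ih
    set A := ∑ j ∈ T, c j ^ 2 with hA
    have hA0 : 0 ≤ A := Finset.sum_nonneg fun _ _ => sq_nonneg _
    have hcard : ∑ _θ : ι → Bool, (1 : ℝ) = 2 ^ Fintype.card ι := by simp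
    have hpow : (0 : ℝ) < 2 ^ Fintype.card ι := by positivity
    constructor
    · have e : ∀ θ : ι → Bool, (∑ j ∈ insert i T, sg (θ j) * c j) ^ 2 =
          (∑ j ∈ T, sg (θ j) * c j) ^ 2 + c i ^ 2 * 1 +
            sg (θ i) * (2 * c i * (∑ j ∈ T, sg (θ j) * c j)) := by
        intro θ
        rw [Finset.sum_insert hi]
        have := sg_sq (θ i)
        calc (sg (θ i) * c i + ∑ j ∈ T, sg (θ j) * c j) ^ 2 =
              (∑ j ∈ T, sg (θ j) * c j) ^ 2 + c i ^ 2 * sg (θ i) ^ 2 +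
                sg (θ i) * (2 * c i * (∑ j ∈ T, sg (θ j) * c j)) := by ring
          _ = _ := by rw [this]
      simp only [e, Finset.sum_add_distrib, ← Finset.mul_sum]
      rw [rad4_flip c T i hi (fun x => 2 * c i * x), ih2, hcard, Finset.sum_insert hi]
      ring
    · have e : ∀ θ : ι → Bool, (∑ j ∈ insert i T, sg (θ j) * c j) ^ 4 =
          (∑ j ∈ T, sg (θ j) * c j) ^ 4 + 6 * c i ^ 2 * (∑ j ∈ T, sg (θ j) * c j) ^ 2 +
            c i ^ 4 * 1 +
            sg (θ i) * (4 * c i * (∑ j ∈ T, sg (θ j) * c j) ^ 3 +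
              4 * c i ^ 3 * (∑ j ∈ T, sg (θ j) * c j)) := by
        intro θ
        rw [Finset.sum_insert hi]
        have := sg_sq (θ i)
        calc (sg (θ i) * c i + ∑ j ∈ T, sg (θ j) * c j) ^ 4 =
              (∑ j ∈ T, sg (θ j) * c j) ^ 4 +
              6 * c i ^ 2 * sg (θ i) ^ 2 * (∑ j ∈ T, sg (θ j) * c j) ^ 2 +
                c i ^ 4 * (sg (θ i) ^ 2) ^ 2 +
                sg (θ i) * (4 * c i * (∑ j ∈ T, sg (θ j) * c j) ^ 3 +
                4 * c i ^ 3 * sg (θ i) ^ 2 * (∑ j ∈ T, sg (θ j) * c j)) := by ring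
          _ = _ := by rw [this]; ring
      simp only [e, Finset.sum_add_distrib, ← Finset.mul_sum]
      rw [rad4_flip c T i hi (fun x => 4 * c i * x ^ 3 + 4 * c i ^ 3 * x), ih2, hcard,
        Finset.sum_insert hi, ← hA]
      nlinarith [mul_nonneg hpow.le (mul_nonneg (sq_nonneg (c i)) (sq_nonneg (c i)))]

theorem p_rad4 : S_rad4 := by
  intro ι _ _ c
  have h := (rad4_aux c Finset.univ).2
  unfold rad
  rw [div_le_iff₀ (by positivity)]
  linarith

end Pool.Agent.Lib.MP_355270_an.CB
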