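import Pool.Agent.Lib.MP_355270_an.CB.StmB

open Filter Topology
open scoped ENNReal

namespace Pool.Agent.Lib.MP_355270_an.CB

theorem p_radK (h1 : S_jensen) (h2 : S_rad4) : S_radK := by
  intro ι _ _ c s hs0 hs4
  have hJ := h1 ι (fun θ => |∑ i, sg (θ i) * c i|) s 4 (fun θ => abs_nonneg _) hs0 hs4
  refine hJ.trans ?_
  have e : (fun θ : ι → Bool => |∑ i, sg (θ i) * c i| ^ (4 : ℝ)) =
      fun θ => (∑ i, sg (θ i) * c i) ^ 4 := by
    funext θ
    have : |∑ i, sg (θ i) * c i| ^ (4 : ℝ) = |∑ i, sg (θ i) * c i| ^ 4 := by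
      rw [← Real.rpow_natCast]
      norm_num
    rw [this]
    exact Even.pow_abs (by decide) _
  rw [e]
  have hS : 0 ≤ ∑ i, c i ^ 2 := Finset.sum_nonneg fun i _ => sq_nonneg _
  have hr : 0 ≤ rad (fun θ : ι → Bool => (∑ i, sg (θ i) * c i) ^ 4) := by
    unfold rad
    have : 0 ≤ ∑ θ : ι → Bool, (∑ i, sg (θ i) * c i) ^ 4 :=
      Finset.sum_nonneg fun θ _ => by positivity
    positivity
  have h3 := Real.rpow_le_rpow hr (h2 ι c) (by positivity : 0 ≤ s / 4)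
  refine h3.trans ?_
  rw [Real.mul_rpow (by norm_num) (by positivity)]
  have h4 : ((∑ i, c i ^ 2) ^ 2) ^ (s / 4) = (∑ i, c i ^ 2) ^ (s / 2) := by
    rw [← Real.rpow_natCast, ← Real.rpow_mul hS]
    congr 1
    push_cast
    ring
  rw [h4]
  refine mul_le_mul_of_nonneg_right ?_ (Real.rpow_nonneg hS _)
  calc (3 : ℝ) ^ (s / 4) ≤ 3 ^ (1 : ℝ) :=
        Real.rpow_le_rpow_of_exponent_le (by norm_num) (by linarith)
    _ = 3 := Real.rpow_one 3

end Pool.Agent.Lib.MP_355270_an.CB
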