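import Pool.Agent.Lib.MP_355270_an.CB.StmB
import Pool.Agent.Lib.MP_355270_an.CB.StmR

open Filter Topology
open scoped ENNReal

namespace Pool.Agent.Lib.MP_355270_an.CB

/-- Union bound: fewer than `T` events, each of relative frequency at most `1 / T`. -/
theorem rigid_union {F J : Type} [Fintype F] [Nonempty F] [Fintype J] (P : J → F → Prop) (T : ℕ)
    (hT : Fintype.card J < T) (h : ∀ j, Nat.card {f : F // P j f} * T ≤ Nat.card F) :
    ∃ f, ∀ j, ¬ P j f := by
  classical
  by_contra hcon
  push Not at hcon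
  have h1 : (Finset.univ : Finset F) ⊆
      Finset.univ.biUnion fun j : J => Finset.univ.filter fun f => P j f := by
    intro f _
    obtain ⟨j, hj⟩ := hcon f
    rw [Finset.mem_biUnion]
    exact ⟨j, Finset.mem_univ _, by simpa using hj⟩
  have h2 := (Finset.card_le_card h1).trans Finset.card_biUnion_le
  rw [Finset.card_univ] at h2
  have h3 : Fintype.card F * T ≤ Fintype.card J * Fintype.card F := by
    calc Fintype.card F * T
        ≤ (∑ j : J, (Finset.univ.filter fun f => P j f).card) * T := Nat.mul_le_mul_right _ h2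
      _ = ∑ j : J, (Finset.univ.filter fun f => P j f).card * T := Finset.sum_mul _ _ _
      _ ≤ ∑ _j : J, Fintype.card F := by
          refine Finset.sum_le_sum fun j _ => ?_
          have := h j
          rw [Nat.card_eq_fintype_card, Nat.card_eq_fintype_card, Fintype.card_subtype] at this
          exact this
      _ = Fintype.card J * Fintype.card F := by
          rw [Finset.sum_const, Finset.card_univ, smul_eq_mul]
  have h4 : 0 < Fintype.card F := Fintype.card_pos
  have h5 : Fintype.card J * Fintype.card F < Fintype.card F * T := by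
    rw [mul_comm]
    exact Nat.mul_lt_mul_of_pos_left hT h4
  omega

/-- Cardinality of the set of sign matrices. -/
theorem rigid_card (I : Type) [Fintype I] [DecidableEq I] :
    Nat.card (I → I → Bool) = 2 ^ (Fintype.card I ^ 2) := by
  rw [Nat.card_eq_fintype_card]
  simp only [Fintype.card_pi, Fintype.card_bool, Finset.prod_const, Finset.card_univ]
  rw [← pow_mul, sq]

/-- From single matrices to tuples. -/
theorem rigid_single (h4 : S_tuples) (I : Type) [Fintype I] [DecidableEq I] (N : ℕ)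
    (n : Fin (N + 1)) (P : (I → I → Bool) → Prop)
    (h : (Nat.card {g : I → I → Bool // P g} : ℝ) * 2 ^ Fintype.card I ≤
      2 ^ (Fintype.card I ^ 2)) :
    Nat.card {f : Fin (N + 1) → I → I → Bool // P (f n)} * 2 ^ Fintype.card I ≤
      Nat.card (Fin (N + 1) → I → I → Bool) := by
  have h' : Nat.card {g : I → I → Bool // P g} * 2 ^ Fintype.card I ≤ Nat.card (I → I → Bool) := by
    rw [rigid_card]
    exact_mod_cast h
  have ht := (h4 (I → I → Bool) N n n P (fun _ => True)).1
  have hpos : 0 < Nat.card (I → I → Bool) := by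
    rw [rigid_card]
    positivity
  have hF : Nat.card (Fin (N + 1) → I → I → Bool) = Nat.card (I → I → Bool) ^ (N + 1) := by
    rw [Nat.card_eq_fintype_card, Nat.card_eq_fintype_card, Fintype.card_fun, Fintype.card_fin]
  rw [hF]
  refine Nat.le_of_mul_le_mul_right ?_ hpos
  calc Nat.card {f : Fin (N + 1) → I → I → Bool // P (f n)} * 2 ^ Fintype.card I *
        Nat.card (I → I → Bool)
      = (Nat.card {f : Fin (N + 1) → I → I → Bool // P (f n)} * Nat.card (I → I → Bool)) *
        2 ^ Fintype.card I := by ring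
    _ = (Nat.card {g : I → I → Bool // P g} * 2 ^ Fintype.card I) *
        Nat.card (I → I → Bool) ^ (N + 1) := by rw [ht]; ring
    _ ≤ Nat.card (I → I → Bool) * Nat.card (I → I → Bool) ^ (N + 1) :=
        Nat.mul_le_mul_right _ h'
    _ = _ := mul_comm _ _

/-- From pairs of matrices to tuples. -/
theorem rigid_pair (h4 : S_tuples) (I : Type) [Fintype I] [DecidableEq I] (N : ℕ)
    (n n' : Fin (N + 1)) (hn : n ≠ n') (Q : (I → I → Bool) × (I → I → Bool) → Prop)
    (h : (Nat.card {p : (I → I → Bool) × (I → I → Bool) // Q p} : ℝ) * 2 ^ Fintype.card I ≤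
      2 ^ (Fintype.card I ^ 2) * 2 ^ (Fintype.card I ^ 2)) :
    Nat.card {f : Fin (N + 1) → I → I → Bool // Q (f n, f n')} * 2 ^ Fintype.card I ≤
      Nat.card (Fin (N + 1) → I → I → Bool) := by
  have h' : Nat.card {p : (I → I → Bool) × (I → I → Bool) // Q p} * 2 ^ Fintype.card I ≤
      Nat.card (I → I → Bool) ^ 2 := by
    rw [rigid_card, sq (2 ^ (Fintype.card I ^ 2))]
    exact_mod_cast h
  have ht := (h4 (I → I → Bool) N n n' (fun _ => True) Q).2 hn
  have hpos : 0 < Nat.card (I → I → Bool) ^ 2 := by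
    rw [rigid_card]
    positivity
  have hF : Nat.card (Fin (N + 1) → I → I → Bool) = Nat.card (I → I → Bool) ^ (N + 1) := by
    rw [Nat.card_eq_fintype_card, Nat.card_eq_fintype_card, Fintype.card_fun, Fintype.card_fin]
  rw [hF]
  refine Nat.le_of_mul_le_mul_right ?_ hpos
  calc Nat.card {f : Fin (N + 1) → I → I → Bool // Q (f n, f n')} * 2 ^ Fintype.card I *
        Nat.card (I → I → Bool) ^ 2
      = (Nat.card {f : Fin (N + 1) → I → I → Bool // Q (f n, f n')} *
        Nat.card (I → I → Bool) ^ 2) * 2 ^ Fintype.card I := by ring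
    _ = (Nat.card {p : (I → I → Bool) × (I → I → Bool) // Q p} * 2 ^ Fintype.card I) *
        Nat.card (I → I → Bool) ^ (N + 1) := by rw [ht]; ring
    _ ≤ Nat.card (I → I → Bool) ^ 2 * Nat.card (I → I → Bool) ^ (N + 1) :=
        Nat.mul_le_mul_right _ h'
    _ = _ := mul_comm _ _

theorem p_rigid (h1 : S_op) (h2 : S_off) (h3 : S_diag) (h4 : S_tuples) : S_rigid := by
  intro s C ε N hs hs4 hC hε
  obtain ⟨K1, hK1, hop⟩ := h1
  obtain ⟨k1, hoff⟩ := h2 s C K1 ε hs hs4 hC hK1 hε
  obtain ⟨k2, hdiag⟩ := h3 s C K1 ε hs hs4 hC hK1 hε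
  refine ⟨k1 + k2 + (3 * (N + 1) ^ 2 + 1), ?_⟩
  intro I _ _ hk S hS
  have hcard : 0 < Fintype.card I := by omega
  haveI : Nonempty I := Fintype.card_pos_iff.1 hcard
  have hop' := hop I
  have hoff' := hoff I (by omega) S hS
  have hdiag' := hdiag I (by omega) S hS
  -- the events
  let P : (Fin (N + 1) ⊕ (Fin (N + 1) × Fin (N + 1)) ⊕ Fin (N + 1)) →
      (Fin (N + 1) → I → I → Bool) → Prop := fun j f =>
    match j with
    | Sum.inl n => ¬ OPle K1 (Gm (f n))
    | Sum.inr (Sum.inl (n, n')) => n ≠ n' ∧ (OPle K1 (Gm (f n)) ∧ OPle K1 (Gm (f n')) ∧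
        ∃ M, Bdd s C S (f n) (f n') M ∧ ε * Fintype.card I < HS2 M)
    | Sum.inr (Sum.inr n) => OPle K1 (Gm (f n)) ∧ ∃ M, Bdd s C S (f n) (f n) M ∧
        ∀ c : ℝ, ε * Fintype.card I < HS2 (M - c • (1 : Matrix I I ℝ))
  have hT : Fintype.card (Fin (N + 1) ⊕ (Fin (N + 1) × Fin (N + 1)) ⊕ Fin (N + 1)) <
      2 ^ Fintype.card I := by
    simp only [Fintype.card_sum, Fintype.card_prod, Fintype.card_fin]
    calc (N + 1) + ((N + 1) * (N + 1) + (N + 1)) ≤ 3 * (N + 1) ^ 2 := by nlinarith
      _ < Fintype.card I := by omega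
      _ < 2 ^ Fintype.card I := Nat.lt_two_pow_self
  obtain ⟨g, hg⟩ := rigid_union P (2 ^ Fintype.card I) hT (by
    rintro (n | ⟨n, n'⟩ | n)
    · exact rigid_single h4 I N n (fun g => ¬ OPle K1 (Gm g)) hop'
    · by_cases hn : n = n'
      · have : IsEmpty {f : Fin (N + 1) → I → I → Bool // P (Sum.inr (Sum.inl (n, n'))) f} :=
          ⟨fun x => x.2.1 hn⟩
        rw [Nat.card_of_isEmpty, zero_mul]
        exact Nat.zero_le _
      · have h5 := rigid_pair h4 I N n n' hn (fun p => OPle K1 (Gm p.1) ∧ OPle K1 (Gm p.2) ∧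
          ∃ M, Bdd s C S p.1 p.2 M ∧ ε * Fintype.card I < HS2 M) hoff'
        refine le_trans (Nat.mul_le_mul_right _ ?_) h5
        refine Nat.card_le_card_of_injective
          (fun x : {f : Fin (N + 1) → I → I → Bool // P (Sum.inr (Sum.inl (n, n'))) f} =>
            (⟨x.1, x.2.2⟩ : {f : Fin (N + 1) → I → I → Bool // OPle K1 (Gm (f n)) ∧
              OPle K1 (Gm (f n')) ∧ ∃ M, Bdd s C S (f n) (f n') M ∧
                ε * Fintype.card I < HS2 M})) ?_
        intro x y hxy
        have := congrArg Subtype.val hxy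
        exact Subtype.ext this
    · exact rigid_single h4 I N n (fun g => OPle K1 (Gm g) ∧ ∃ M, Bdd s C S g g M ∧
        ∀ c : ℝ, ε * Fintype.card I < HS2 (M - c • (1 : Matrix I I ℝ))) hdiag')
  have hO : ∀ n, OPle K1 (Gm (g n)) := fun n => by
    have := hg (Sum.inl n)
    exact not_not.1 this
  refine ⟨g, fun n n' M hM => ⟨fun hn => ?_, fun hn => ?_⟩⟩
  · by_contra hlt
    push Not at hlt
    exact hg (Sum.inr (Sum.inl (n, n'))) ⟨hn, hO n, hO n', M, hM, hlt⟩
  · subst hn
    by_contra hlt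
    push Not at hlt
    exact hg (Sum.inr (Sum.inr n)) ⟨hO n, M, hM, hlt⟩

end Pool.Agent.Lib.MP_355270_an.CB
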