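import Pool.Agent.Lib.MP_355270_an.CB.StmB
import Pool.Agent.Lib.MP_355270_an.CB.StmR

open Filter Topology
open scoped ENNReal

namespace Pool.Agent.Lib.MP_355270_an.CB

theorem rowcount_fib {I X : Type} [Fintype I] [DecidableEq I] [Fintype X] [DecidableEq X] (θ : ℝ)
    (Sm : I → Finset X) (hθ : 0 ≤ θ)
    (h : ∀ a, ((Sm a).card : ℝ) ≤ (Fintype.card X : ℝ) * (2 : ℝ) ^ (-θ)) (A : Finset I)
    (hA : Fintype.card I ≤ 2 * A.card) :
    ((Fintype.piFinset (fun a => if a ∈ A then Sm a else Finset.univ)).card : ℝ) ≤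
      (Fintype.card X : ℝ) ^ Fintype.card I * (2 : ℝ) ^ (-(θ * (Fintype.card I : ℝ) / 2)) := by
  rw [Fintype.card_piFinset, Nat.cast_prod]
  have h1 : ∏ a, (((if a ∈ A then Sm a else Finset.univ : Finset X).card : ℕ) : ℝ) ≤
      ∏ a : I, ((Fintype.card X : ℝ) * (if a ∈ A then (2 : ℝ) ^ (-θ) else 1)) := by
    refine Finset.prod_le_prod (fun a _ => Nat.cast_nonneg _) fun a _ => ?_
    by_cases ha : a ∈ A
    · rw [if_pos ha, if_pos ha]; exact h a
    · rw [if_neg ha, if_neg ha, mul_one, Finset.card_univ]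
  refine h1.trans ?_
  rw [Finset.prod_mul_distrib, Finset.prod_const, Finset.card_univ, Finset.prod_ite_mem,
    Finset.univ_inter, Finset.prod_const]
  refine mul_le_mul_of_nonneg_left ?_ (by positivity)
  rw [← Real.rpow_natCast, ← Real.rpow_mul (by norm_num)]
  refine Real.rpow_le_rpow_of_exponent_le (by norm_num) ?_
  have hA' : (Fintype.card I : ℝ) ≤ 2 * A.card := by exact_mod_cast hA
  nlinarith [mul_le_mul_of_nonneg_left hA' hθ]

theorem p_rowcount : S_rowcount := by
  intro I X _ _ _ _ θ Sm hθ h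
  classical
  have h1 : Nat.card {g : I → X // Fintype.card I ≤ 2 * (Finset.univ.filter fun a => g a ∈ Sm a).card} =
      (Finset.univ.filter fun g : I → X =>
        Fintype.card I ≤ 2 * (Finset.univ.filter fun a => g a ∈ Sm a).card).card := by
    rw [Nat.card_eq_fintype_card, Fintype.card_subtype]
  rw [h1]
  have h2 : (Finset.univ.filter fun g : I → X =>
        Fintype.card I ≤ 2 * (Finset.univ.filter fun a => g a ∈ Sm a).card) ⊆
      (Finset.univ.filter fun A : Finset I => Fintype.card I ≤ 2 * A.card).biUnion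
        fun A => Fintype.piFinset (fun a => if a ∈ A then Sm a else Finset.univ) := by
    intro g hg
    rw [Finset.mem_filter] at hg
    rw [Finset.mem_biUnion]
    refine ⟨Finset.univ.filter fun a => g a ∈ Sm a, ?_, ?_⟩
    · rw [Finset.mem_filter]; exact ⟨Finset.mem_univ _, hg.2⟩
    · rw [Fintype.mem_piFinset]
      intro a
      by_cases ha : g a ∈ Sm a
      · rw [if_pos (by rw [Finset.mem_filter]; exact ⟨Finset.mem_univ _, ha⟩)]; exact ha
      · rw [if_neg (by rw [Finset.mem_filter]; exact fun h => ha h.2)]; exact Finset.mem_univ _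
  have h3 := (Finset.card_le_card h2).trans Finset.card_biUnion_le
  have h4 : ((Finset.univ.filter fun g : I → X =>
        Fintype.card I ≤ 2 * (Finset.univ.filter fun a => g a ∈ Sm a).card).card : ℝ) ≤
      ∑ A ∈ Finset.univ.filter fun A : Finset I => Fintype.card I ≤ 2 * A.card,
        ((Fintype.piFinset (fun a => if a ∈ A then Sm a else Finset.univ)).card : ℝ) := by
    exact_mod_cast h3
  refine h4.trans ?_
  have h5 : ∑ A ∈ Finset.univ.filter fun A : Finset I => Fintype.card I ≤ 2 * A.card,
        ((Fintype.piFinset (fun a => if a ∈ A then Sm a else Finset.univ)).card : ℝ) ≤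
      ∑ A ∈ Finset.univ.filter fun A : Finset I => Fintype.card I ≤ 2 * A.card,
        ((Fintype.card X : ℝ) ^ Fintype.card I * (2 : ℝ) ^ (-(θ * (Fintype.card I : ℝ) / 2))) := by
    refine Finset.sum_le_sum fun A hA => ?_
    rw [Finset.mem_filter] at hA
    exact rowcount_fib θ Sm hθ h A hA.2
  refine h5.trans ?_
  rw [Finset.sum_const, nsmul_eq_mul]
  refine mul_le_mul_of_nonneg_right ?_ (by positivity)
  have h6 : (Finset.univ.filter fun A : Finset I => Fintype.card I ≤ 2 * A.card).card ≤
      2 ^ Fintype.card I := by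
    refine (Finset.card_le_univ _).trans ?_
    rw [Fintype.card_finset]
  exact_mod_cast h6

end Pool.Agent.Lib.MP_355270_an.CB
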