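import Pool.Agent.Lib.MP_355270_an.CB.StmB
import Pool.Agent.Lib.MP_355270_an.CB.StmR

open Filter Topology
open scoped ENNReal

namespace Pool.Agent.Lib.MP_355270_an.CB

theorem rowcount2_fib {I X : Type} [Fintype I] [DecidableEq I] [Fintype X] [DecidableEq X]
    (J : Finset I) (Sm : (I → X) → I → Finset X) (M : ℕ)
    (h1 : ∀ g g' : I → X, (∀ a, a ∉ J → g a = g' a) → Sm g = Sm g')
    (h2 : ∀ g a, (Sm g a).card ≤ M) (s : Finset (I → X)) (hs : ∀ g ∈ s, ∀ a ∈ J, g a ∈ Sm g a)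
    (g0 : I → X) :
    (s.filter fun g => (fun a : {a // a ∉ J} => g a) = fun a : {a // a ∉ J} => g0 a).card ≤
      M ^ J.card := by
  have h3 : (s.filter fun g => (fun a : {a // a ∉ J} => g a) = fun a : {a // a ∉ J} => g0 a).card ≤
      (Fintype.piFinset fun a : J => Sm g0 a).card := by
    refine Finset.card_le_card_of_injOn (fun g => fun a : J => g a) ?_ ?_
    · intro g hg
      rw [Finset.mem_coe, Finset.mem_filter] at hg
      rw [Finset.mem_coe, Fintype.mem_piFinset]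
      intro a
      have h4 : Sm g0 = Sm g := (h1 g g0 fun b hb => congrFun hg.2 ⟨b, hb⟩).symm
      rw [h4]
      exact hs g hg.1 a a.2
    · intro g hg g' hg' hgg
      rw [Finset.mem_coe, Finset.mem_filter] at hg hg'
      funext a
      by_cases ha : a ∈ J
      · exact congrFun hgg ⟨a, ha⟩
      · exact (congrFun hg.2 ⟨a, ha⟩).trans (congrFun hg'.2 ⟨a, ha⟩).symm
  refine h3.trans ?_
  rw [Fintype.card_piFinset]
  have h5 := Finset.prod_le_pow_card (Finset.univ : Finset J) (fun a => (Sm g0 (a : I)).card) M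
    fun a _ => h2 g0 a
  rwa [Finset.card_univ, Fintype.card_coe] at h5

theorem p_rowcount2 : S_rowcount2 := by
  intro I X _ _ _ _ θ J Sm hθ h1 h2
  obtain ⟨M, hM⟩ : ∃ M : ℕ, M = ⌊(Fintype.card X : ℝ) * (2 : ℝ) ^ (-θ)⌋₊ := ⟨_, rfl⟩
  have hx0 : (0 : ℝ) ≤ (Fintype.card X : ℝ) * (2 : ℝ) ^ (-θ) := by positivity
  have h3 : ∀ g a, (Sm g a).card ≤ M := fun g a => by
    rw [hM]
    exact Nat.le_floor (h2 g a)
  have hM1 : (M : ℝ) ≤ (Fintype.card X : ℝ) * (2 : ℝ) ^ (-θ) := by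
    rw [hM]
    exact Nat.floor_le hx0
  obtain ⟨s, hs⟩ : ∃ s : Finset (I → X), s = Finset.univ.filter fun g => ∀ a ∈ J, g a ∈ Sm g a :=
    ⟨_, rfl⟩
  have hcard : Nat.card {g : I → X // ∀ a ∈ J, g a ∈ Sm g a} = s.card := by
    rw [hs, Nat.card_eq_fintype_card, Fintype.card_subtype]
  have hs' : ∀ g ∈ s, ∀ a ∈ J, g a ∈ Sm g a := by
    intro g hg
    rw [hs, Finset.mem_filter] at hg
    exact hg.2
  have h4 : s.card ≤ M ^ J.card *
      (s.image fun g => (fun a : {a // a ∉ J} => g a)).card := by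
    refine Finset.card_le_mul_card_image s _ fun b hb => ?_
    obtain ⟨g0, -, rfl⟩ := Finset.mem_image.1 hb
    exact rowcount2_fib J Sm M h1 h3 s hs' g0
  have h5 : (s.image fun g => (fun a : {a // a ∉ J} => g a)).card ≤
      Fintype.card X ^ (Fintype.card I - J.card) := by
    refine (Finset.card_le_univ _).trans ?_
    rw [Fintype.card_fun, Fintype.card_subtype_compl, Fintype.card_coe]
  have hJ : J.card ≤ Fintype.card I := Finset.card_le_univ _
  rw [hcard]
  calc (s.card : ℝ) ≤ ((M ^ J.card * Fintype.card X ^ (Fintype.card I - J.card) : ℕ) : ℝ) := by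
        exact_mod_cast h4.trans (Nat.mul_le_mul_left _ h5)
    _ = (M : ℝ) ^ J.card * (Fintype.card X : ℝ) ^ (Fintype.card I - J.card) := by push_cast; ring
    _ ≤ ((Fintype.card X : ℝ) * (2 : ℝ) ^ (-θ)) ^ J.card *
        (Fintype.card X : ℝ) ^ (Fintype.card I - J.card) := by gcongr
    _ = ((Fintype.card X : ℝ) ^ J.card * (Fintype.card X : ℝ) ^ (Fintype.card I - J.card)) *
        ((2 : ℝ) ^ (-θ)) ^ J.card := by rw [mul_pow]; ring
    _ = (Fintype.card X : ℝ) ^ Fintype.card I * (2 : ℝ) ^ (-(θ * (J.card : ℝ))) := by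
        rw [← pow_add, Nat.add_sub_cancel' hJ, ← Real.rpow_natCast ((2 : ℝ) ^ (-θ)),
          ← Real.rpow_mul two_pos.le, neg_mul]

end Pool.Agent.Lib.MP_355270_an.CB
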