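import Pool.Agent.Lib.MP_355270_an.CB.StmU

open Filter Topology
open scoped ENNReal

namespace Pool.Agent.Lib.MP_355270_an.CB

/-- Choice by course-of-values recursion. -/
noncomputable def seq_rec {β : ℕ → Type 1} (step : ∀ i, (∀ j, j < i → β j) → β i) (i : ℕ) : β i :=
  step i (fun j _h => seq_rec step j)
termination_by i

theorem seq_exists {β : ℕ → Type 1} (Q : ∀ i, (∀ j, j < i → β j) → β i → Prop)
    (h : ∀ i p, ∃ b, Q i p b) : ∃ f : ∀ i, β i, ∀ i, Q i (fun j _ => f j) (f i) := by
  classical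
  refine ⟨seq_rec (fun i p => Classical.choose (h i p)), fun i => ?_⟩
  have h1 : seq_rec (fun i p => Classical.choose (h i p)) i =
      Classical.choose (h i (fun j _ => seq_rec (fun i p => Classical.choose (h i p)) j)) := by
    rw [seq_rec]
  rw [h1]
  exact Classical.choose_spec (h i (fun j _ => seq_rec (fun i p => Classical.choose (h i p)) j))

theorem p_seq (h1 : S_block) (h2 : S_CTmono) : S_seq := by
  classical
  have key : ∀ (i : ℕ) (p : ∀ j, j < i → Block (si j) (Ni j) (ei j)),
      ∃ b : Block (si i) (Ni i) (ei i), ∃ K : ℝ, 2 ≤ K ∧ (∀ j (hj : j < i), CT (p j hj).U 3 K) ∧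
      K * (10 * (Fintype.card b.ι : ℝ)) ^ (1 / si i) *
        (Fintype.card b.ι : ℝ) ^ (-(1 / si (i + 1))) ≤ ei i := by
    intro i p
    have hK1 : ∀ j (hj : j < i), 1 ≤ Classical.choose (p j hj).hC3 :=
      fun j hj => (Classical.choose_spec (p j hj).hC3).1
    have hK2 : ∀ j (hj : j < i), CT (p j hj).U 3 (Classical.choose (p j hj).hC3) :=
      fun j hj => (Classical.choose_spec (p j hj).hC3).2
    let K : ℝ := 2 + ∑ j : Fin i, Classical.choose (p j j.2).hC3
    have hsum : 0 ≤ ∑ j : Fin i, Classical.choose (p j j.2).hC3 :=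
      Finset.sum_nonneg fun j _ => by linarith [hK1 j j.2]
    have hK : 2 ≤ K := by show 2 ≤ 2 + _; linarith
    have hi0 : (0 : ℝ) < (i : ℝ) + 1 := by positivity
    have hi1 : (0 : ℝ) < ((i + 1 : ℕ) : ℝ) + 1 := by positivity
    have hsi1 : 3 < si i := by
      unfold si
      have : (0 : ℝ) < 1 / ((i : ℝ) + 1) := by positivity
      linarith
    have hsi2 : si i ≤ 4 := by
      unfold si
      have : 1 / ((i : ℝ) + 1) ≤ 1 := by
        rw [div_le_one hi0]
        have : (0 : ℝ) ≤ i := Nat.cast_nonneg i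
        linarith
      linarith
    have hsi3 : 3 ≤ si (i + 1) := by
      unfold si
      have : (0 : ℝ) < 1 / (((i + 1 : ℕ) : ℝ) + 1) := by positivity
      linarith
    have hsi4 : si (i + 1) < si i := by
      unfold si
      have : 1 / (((i + 1 : ℕ) : ℝ) + 1) < 1 / ((i : ℝ) + 1) := by
        apply one_div_lt_one_div_of_lt hi0
        push_cast
        linarith
      linarith
    have hNi : 2 ≤ Ni i := by unfold Ni; omega
    have hei : 0 < ei i := by unfold ei; positivity
    obtain ⟨b, hb⟩ := h1 (si i) (Ni i) (ei i) K (si (i + 1)) hsi1 hsi2 hNi hei (by linarith)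
      hsi3 hsi4
    refine ⟨b, K, hK, ?_, hb⟩
    intro j hj
    refine h2 (p j hj).U 3 3 (Classical.choose (p j hj).hC3) K (by norm_num) le_rfl
      (by linarith [hK1 j hj]) ?_ (hK2 j hj)
    have h3 : Classical.choose (p j hj).hC3 ≤ ∑ j : Fin i, Classical.choose (p j j.2).hC3 :=
      Finset.single_le_sum (f := fun j : Fin i => Classical.choose (p j j.2).hC3)
        (fun j _ => by have := hK1 j j.2; show 0 ≤ Classical.choose _; linarith)
        (Finset.mem_univ (⟨j, hj⟩ : Fin i))
    show Classical.choose (p j hj).hC3 ≤ 2 + _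
    linarith
  obtain ⟨B, hB⟩ := seq_exists (β := fun i => Block (si i) (Ni i) (ei i))
    (fun i p b => ∃ K : ℝ, 2 ≤ K ∧ (∀ j (hj : j < i), CT (p j hj).U 3 K) ∧
      K * (10 * (Fintype.card b.ι : ℝ)) ^ (1 / si i) *
        (Fintype.card b.ι : ℝ) ^ (-(1 / si (i + 1))) ≤ ei i) key
  exact ⟨B, hB⟩

end Pool.Agent.Lib.MP_355270_an.CB
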