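import Pool.Agent.Lib.MP_355270_an.CB.StmB

open Filter Topology
open scoped ENNReal

namespace Pool.Agent.Lib.MP_355270_an.CB

theorem p_signs (h1 : S_rad4) : S_signs := by
  intro J X _ _ _ c
  by_contra hcon
  push Not at hcon
  have h2 : ∀ x : X, ∑ σ : J → Bool, (∑ j, sg (σ j) * c j x) ^ 4 ≤
      3 * (∑ j, c j x ^ 2) ^ 2 * 2 ^ Fintype.card J := by
    intro x
    have := h1 J (fun j => c j x)
    unfold rad at this
    rwa [div_le_iff₀ (by positivity)] at this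
  have h3 : ∑ σ : J → Bool, ∑ x : X, (∑ j, sg (σ j) * c j x) ^ 4 ≤
      ∑ σ : J → Bool, ∑ x : X, 3 * (∑ j, c j x ^ 2) ^ 2 := by
    rw [Finset.sum_comm]
    refine (Finset.sum_le_sum fun x _ => h2 x).trans (le_of_eq ?_)
    rw [Finset.sum_const, Finset.card_univ, ← Finset.sum_mul, nsmul_eq_mul, mul_comm]
    congr 1
    simp
  have h4 : ∑ σ : J → Bool, ∑ x : X, 3 * (∑ j, c j x ^ 2) ^ 2 <
      ∑ σ : J → Bool, ∑ x : X, (∑ j, sg (σ j) * c j x) ^ 4 := by
    refine Finset.sum_lt_sum_of_nonempty Finset.univ_nonempty fun σ _ => hcon σ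
  linarith

end Pool.Agent.Lib.MP_355270_an.CB
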