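import Pool.Agent.Lib.MP_355270_an.CB.StmB
import Pool.Agent.Lib.MP_355270_an.CB.StmR

open Filter Topology
open scoped ENNReal

namespace Pool.Agent.Lib.MP_355270_an.CB

/-- The grid. -/
noncomputable def sparse_grid (h : ℝ) (M : ℕ) : Fin (2 * M + 1) → ℝ :=
  fun l => (((l : ℕ) : ℝ) - (M : ℝ)) * h

theorem sparse_round (C h : ℝ) (hh : 0 < h) (t : ℝ) (ht : |t| ≤ C) :
    ∃ l : Fin (2 * ⌊C / h⌋₊ + 1), |t - sparse_grid h ⌊C / h⌋₊ l| ≤ h ∧
      |sparse_grid h ⌊C / h⌋₊ l| ≤ |t| := by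
  obtain ⟨M, hM⟩ : ∃ M, M = ⌊C / h⌋₊ := ⟨_, rfl⟩
  obtain ⟨m, hm⟩ : ∃ m, m = ⌊|t| / h⌋₊ := ⟨_, rfl⟩
  have hmM : m ≤ M := by
    rw [hm, hM]
    exact Nat.floor_le_floor (div_le_div_of_nonneg_right ht hh.le)
  have h1 : (m : ℝ) * h ≤ |t| := by
    rw [← le_div_iff₀ hh, hm]
    exact Nat.floor_le (div_nonneg (abs_nonneg _) hh.le)
  have h2 : |t| < (m + 1) * h := by
    rw [← div_lt_iff₀ hh, hm]
    exact Nat.lt_floor_add_one _
  have h3 : 0 ≤ (m : ℝ) * h := by positivity
  rw [← hM]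
  rcases le_total 0 t with h0 | h0
  · rw [abs_of_nonneg h0] at h1 h2
    have e : sparse_grid h M ⟨M + m, by omega⟩ = m * h := by
      unfold sparse_grid
      push_cast
      ring
    refine ⟨⟨M + m, by omega⟩, ?_, ?_⟩
    · rw [e, abs_le]
      constructor <;> linarith
    · rw [e, abs_of_nonneg h0, abs_of_nonneg h3]
      exact h1
  · rw [abs_of_nonpos h0] at h1 h2
    have e : sparse_grid h M ⟨M - m, by omega⟩ = -(m * h) := by
      unfold sparse_grid
      simp only
      rw [Nat.cast_sub hmM]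
      ring
    refine ⟨⟨M - m, by omega⟩, ?_, ?_⟩
    · rw [e, abs_le]
      constructor <;> linarith
    · rw [e, abs_of_nonpos h0, abs_neg, abs_of_nonneg h3]
      exact h1

theorem sparse_code {I : Type} [Fintype I] [DecidableEq I] [Nonempty I] {K L : ℕ}
    (β : Fin L → ℝ) (l0 : Fin L) (h0 : β l0 = 0) (A : Finset I) (hA : A.card ≤ K)
    (r : I → Fin L) : ∃ c : Fin K → I × Fin L,
      ∀ i, cv β c i = if i ∈ A then β (r i) else 0 := by
  classical
  let e : A → Fin K := fun a => Fin.castLE hA (A.equivFin a)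
  have he : Function.Injective e := fun a b hab =>
    A.equivFin.injective (Fin.castLE_injective hA hab)
  let c : Fin K → I × Fin L := fun q =>
    if h : ∃ a : A, e a = q then ((h.choose : I), r h.choose) else (Classical.arbitrary I, l0)
  have hc1 : ∀ a : A, c (e a) = ((a : I), r a) := by
    intro a
    have h : ∃ a' : A, e a' = e a := ⟨a, rfl⟩
    have h2 : h.choose = a := he h.choose_spec
    simp only [c]
    rw [dif_pos h, h2]
  have hc2 : ∀ q, (¬ ∃ a : A, e a = q) → β (c q).2 = 0 := by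
    intro q hq
    simp only [c]
    rw [dif_neg hq, h0]
  refine ⟨c, fun i => ?_⟩
  unfold cv
  by_cases hi : i ∈ A
  · rw [if_pos hi, Finset.sum_eq_single (e ⟨i, hi⟩)]
    · rw [hc1, if_pos rfl]
    · intro q _ hq
      by_cases h : ∃ a : A, e a = q
      · obtain ⟨a, rfl⟩ := h
        rw [hc1, if_neg]
        intro h3
        apply hq
        congr 1
        exact Subtype.ext h3
      · rw [hc2 q h, ite_self]
    · intro h
      exact absurd (Finset.mem_univ _) h
  · rw [if_neg hi]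
    refine Finset.sum_eq_zero fun q _ => ?_
    by_cases h : ∃ a : A, e a = q
    · obtain ⟨a, rfl⟩ := h
      rw [hc1, if_neg]
      intro h3
      exact hi (h3 ▸ a.2)
    · rw [hc2 q h, ite_self]

theorem p_sparse : S_sparse := by
  intro p C η hp1 hp2 hC hη
  have hC0 : 0 < C := by linarith
  have hCp : 0 < C ^ p := Real.rpow_pos_of_pos hC0 p
  obtain ⟨τ, hτ0, hτ⟩ : ∃ τ : ℝ, 0 < τ ∧ τ ^ (2 - p) * C ^ p = η / 2 := by
    refine ⟨(η / (2 * C ^ p)) ^ (1 / (2 - p)), Real.rpow_pos_of_pos (by positivity) _, ?_⟩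
    rw [← Real.rpow_mul (by positivity), one_div_mul_cancel (by linarith), Real.rpow_one]
    field_simp
  have hτp : 0 < τ ^ p := Real.rpow_pos_of_pos hτ0 p
  obtain ⟨K, hK⟩ : ∃ K, K = ⌊C ^ p / τ ^ p⌋₊ + 1 := ⟨_, rfl⟩
  have hKpos : (0 : ℝ) < K := by
    rw [hK]
    positivity
  obtain ⟨h, hh0, hh⟩ : ∃ h : ℝ, 0 < h ∧ K * h ^ 2 = η / 2 := by
    refine ⟨Real.sqrt (η / (2 * K)), Real.sqrt_pos.2 (by positivity), ?_⟩
    rw [Real.sq_sqrt (by positivity)]
    field_simp
  refine ⟨K, 2 * ⌊C / h⌋₊ + 1, sparse_grid h ⌊C / h⌋₊, by omega, ?_⟩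
  intro I _ _ _ x hx
  have hxC : ∀ i, |x i| ≤ C := by
    intro i
    have h1 : |x i| ^ p ≤ C ^ p := by
      refine le_trans ?_ hx
      exact Finset.single_le_sum (f := fun i => |x i| ^ p)
        (fun i _ => Real.rpow_nonneg (abs_nonneg _) _) (Finset.mem_univ i)
    exact (Real.rpow_le_rpow_iff (abs_nonneg _) hC0.le (by linarith)).1 h1
  choose r hr1 hr2 using fun i => sparse_round C h hh0 (x i) (hxC i)
  let A : Finset I := Finset.univ.filter fun i => τ < |x i|
  have hAc : (A.card : ℝ) * τ ^ p ≤ C ^ p := by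
    rw [← nsmul_eq_mul, ← Finset.sum_const]
    refine le_trans ?_ hx
    refine le_trans (Finset.sum_le_sum (g := fun i => |x i| ^ p) ?_)
      (Finset.sum_le_univ_sum_of_nonneg fun i => Real.rpow_nonneg (abs_nonneg _) _)
    intro i hi
    exact Real.rpow_le_rpow hτ0.le (Finset.mem_filter.1 hi).2.le (by linarith)
  have hAK : A.card ≤ K := by
    rw [hK]
    refine le_trans (Nat.le_floor ?_) (Nat.le_succ _)
    rw [le_div_iff₀ hτp]
    exact hAc
  have hAK' : (A.card : ℝ) ≤ K := by exact_mod_cast hAK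
  have hl0 : sparse_grid h ⌊C / h⌋₊ ⟨⌊C / h⌋₊, by omega⟩ = 0 := by
    unfold sparse_grid
    simp
  obtain ⟨c, hc⟩ := sparse_code (K := K) (sparse_grid h ⌊C / h⌋₊) _ hl0 A hAK r
  have habs : ∀ i, |cv (sparse_grid h ⌊C / h⌋₊) c i| ≤ if i ∈ A then C else 0 := by
    intro i
    rw [hc]
    split_ifs
    · exact (hr2 i).trans (hxC i)
    · rw [abs_zero]
  refine ⟨c, ?_, ?_, ?_, ?_⟩
  · have h1 : ∀ i, (x i - cv (sparse_grid h ⌊C / h⌋₊) c i) ^ 2 ≤
        (if i ∈ A then h ^ 2 else 0) + τ ^ (2 - p) * |x i| ^ p := by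
      intro i
      have h2 : 0 ≤ τ ^ (2 - p) * |x i| ^ p :=
        mul_nonneg (Real.rpow_nonneg hτ0.le _) (Real.rpow_nonneg (abs_nonneg _) _)
      rw [hc]
      split_ifs with hi
      · have h3 : (x i - sparse_grid h ⌊C / h⌋₊ (r i)) ^ 2 ≤ h ^ 2 := by
          rw [← sq_abs]
          exact pow_le_pow_left₀ (abs_nonneg _) (hr1 i) 2
        linarith
      · rw [sub_zero, zero_add, ← sq_abs]
        have h3 : |x i| ≤ τ := by
          by_contra h4
          exact hi (Finset.mem_filter.2 ⟨Finset.mem_univ _, not_le.1 h4⟩)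
        rcases eq_or_lt_of_le (abs_nonneg (x i)) with h4 | h4
        · rw [← h4]
          have : (0 : ℝ) ^ 2 = 0 := by norm_num
          rw [this]
          rw [← h4] at h2
          exact h2
        · have h5 : |x i| ^ 2 = |x i| ^ (2 - p) * |x i| ^ p := by
            rw [← Real.rpow_add h4, sub_add_cancel]
            norm_num
          rw [h5]
          exact mul_le_mul_of_nonneg_right
            (Real.rpow_le_rpow h4.le h3 (by linarith)) (Real.rpow_nonneg h4.le _)
    refine (Finset.sum_le_sum fun i _ => h1 i).trans ?_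
    rw [Finset.sum_add_distrib, ← Finset.mul_sum, Finset.sum_ite_mem, Finset.univ_inter,
      Finset.sum_const, nsmul_eq_mul]
    have h2 : (A.card : ℝ) * h ^ 2 ≤ η / 2 := by
      rw [← hh]
      exact mul_le_mul_of_nonneg_right hAK' (sq_nonneg _)
    have h3 : τ ^ (2 - p) * ∑ i, |x i| ^ p ≤ η / 2 := by
      rw [← hτ]
      exact mul_le_mul_of_nonneg_left hx (Real.rpow_nonneg hτ0.le _)
    linarith
  · intro i
    refine (habs i).trans ?_
    split_ifs
    · exact le_rfl
    · exact hC0.le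
  · refine (Finset.sum_le_sum fun i _ => habs i).trans ?_
    rw [Finset.sum_ite_mem, Finset.univ_inter, Finset.sum_const, nsmul_eq_mul]
    exact mul_le_mul_of_nonneg_right hAK' hC0.le
  · refine le_trans (Finset.card_le_card ?_) hAK
    intro i hi
    have h1 := (Finset.mem_filter.1 hi).2
    by_contra h2
    apply h1
    rw [hc, if_neg h2]

end Pool.Agent.Lib.MP_355270_an.CB
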