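import Pool.Agent.Lib.MP_355270_an.CB.StmB
import Pool.Agent.Lib.MP_355270_an.CB.StmR

open Filter Topology
open scoped ENNReal

namespace Pool.Agent.Lib.MP_355270_an.CB

theorem tuples_aux {A B C : Type} (e : A ≃ B × C) (P : A → Prop) (P' : B → Prop)
    (h : ∀ a, P a ↔ P' (e a).1) :
    Nat.card {a // P a} = Nat.card {b // P' b} * Nat.card C := by
  have e1 : {a // P a} ≃ {x : B × C // P' x.1} := e.subtypeEquiv h
  have e2 : {x : B × C // P' x.1} ≃ {b // P' b} × C := Equiv.prodSubtypeFstEquivSubtypeProd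
  rw [Nat.card_congr (e1.trans e2), Nat.card_prod]

theorem tuples_card {α : Type} [Fintype α] [DecidableEq α] (a : α) :
    Nat.card {j // j ≠ a} + 1 = Nat.card α := by
  rw [Nat.card_eq_fintype_card, Nat.card_eq_fintype_card, Fintype.card_subtype_compl,
    Fintype.card_subtype_eq]
  have : 0 < Fintype.card α := Fintype.card_pos_iff.2 ⟨a⟩
  omega

theorem p_tuples : S_tuples := by
  classical
  intro X _ N n n' P Q
  have hN : Nat.card {j : Fin (N + 1) // j ≠ n} = N := by
    have := tuples_card n
    rw [Nat.card_eq_fintype_card (α := Fin (N + 1)), Fintype.card_fin] at this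
    omega
  constructor
  · rw [tuples_aux (Equiv.funSplitAt n X) (fun f => P (f n)) P (fun f => Iff.rfl), Nat.card_fun,
      hN, mul_assoc, ← pow_succ]
  · intro hne
    let m : {j : Fin (N + 1) // j ≠ n} := ⟨n', fun h => hne h.symm⟩
    have hM := tuples_card m
    rw [hN] at hM
    let e : (Fin (N + 1) → X) ≃ (X × X) × ({j : {j : Fin (N + 1) // j ≠ n} // j ≠ m} → X) :=
      ((Equiv.funSplitAt n X).trans
        (Equiv.prodCongr (Equiv.refl X) (Equiv.funSplitAt m X))).trans
        (Equiv.prodAssoc _ _ _).symm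
    rw [tuples_aux e (fun f => Q (f n, f n')) Q (fun f => Iff.rfl), Nat.card_fun,
      mul_assoc, ← pow_add]
    congr 2
    omega

end Pool.Agent.Lib.MP_355270_an.CB
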