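import Pool.Agent.Lib.MP_355270_an.CB.StmU

open Filter Topology
open scoped ENNReal

namespace Pool.Agent.Lib.MP_355270_an.CB

open BP

theorem UAs_pow (P : BP) : ((1 / (P.N : ℝ)) ^ (1 / P.s)) ^ P.s = 1 / (P.N : ℝ) := by
  have hs : P.s ≠ 0 := by
    have := P.hs3
    intro h
    rw [h] at this
    norm_num at this
  rw [← Real.rpow_mul (by positivity), one_div_mul_cancel hs, Real.rpow_one]

theorem UAs_mul (P : BP) (x : ℝ) :
    |(1 / (P.N : ℝ)) ^ (1 / P.s) * x| ^ P.s = 1 / (P.N : ℝ) * |x| ^ P.s := by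
  rw [abs_mul, abs_of_nonneg (Real.rpow_nonneg (by positivity) _),
    Real.mul_rpow (Real.rpow_nonneg (by positivity) _) (abs_nonneg _), UAs_pow]

theorem UAs_co0 (P : BP) (u : P.UT) (n : Fin (P.N + 1)) (a : P.I) :
    co u ((0 : Fin 3), n, a) = if n = Fin.last P.N then sig (hd u) n a + P.Dv.F a (vp u)
      else (1 / (P.N : ℝ)) ^ (1 / P.s) * sig (hd u) n a := by
  simp [co]

theorem UAs_co1 (P : BP) (u : P.UT) (n : Fin (P.N + 1)) (a : P.I) :
    co u ((1 : Fin 3), n, a) = (Gm (P.g n)).mulVec (hd u n) a := by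
  simp [co]

theorem UAs_co2 (P : BP) (u : P.UT) (n : Fin (P.N + 1)) (a : P.I) :
    co u ((2 : Fin 3), n, a) = (Sw P.κ).mulVec (hd u n) a := by
  simp [co]

theorem UAs_ne (P : BP) (n : Fin P.N) : (n.castSucc : Fin (P.N + 1)) ≠ Fin.last P.N :=
  (Fin.castSucc_lt_last n).ne

theorem p_UAs : S_UAs := by
  intro P u
  unfold As
  rw [Fintype.sum_prod_type, Fin.sum_univ_three]
  simp only [Fintype.sum_prod_type (α₁ := Fin (P.N + 1))]
  simp only [UAs_co0, UAs_co1, UAs_co2]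
  rw [Fin.sum_univ_castSucc (f := fun n => ∑ a, |if n = Fin.last P.N then
    sig (hd u) n a + P.Dv.F a (vp u) else (1 / (P.N : ℝ)) ^ (1 / P.s) * sig (hd u) n a| ^ P.s)]
  simp only [if_neg (UAs_ne P _), if_true, UAs_mul]
  rw [Finset.mul_sum]
  simp only [Finset.mul_sum]
  ring

end Pool.Agent.Lib.MP_355270_an.CB
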