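import Pool.Agent.Lib.MP_355270_an.CB.StmU

open Filter Topology
open scoped ENNReal

namespace Pool.Agent.Lib.MP_355270_an.CB

open BP

/-- The head as a linear map. -/
noncomputable def UBdd_hd (P : BP) : P.UT →ₗ[ℝ] (Fin (P.N + 1) → P.I → ℝ) where
  toFun u := hd u
  map_add' _ _ := rfl
  map_smul' _ _ := rfl

/-- The element of `Hd` with the head `x` at level `n`. -/
noncomputable def UBdd_u (P : BP) (n : Fin (P.N + 1)) (x : P.I → ℝ) : P.Hd :=
  ⟨el (Pi.single n x) 0, rfl⟩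

theorem UBdd_vv (P : BP) (n : Fin (P.N + 1)) (a : P.I) :
    P.vv n a = UBdd_u P n (Pi.single a 1) := by
  apply Subtype.ext
  have h : (⟨min (n : ℕ) P.N, by omega⟩ : Fin (P.N + 1)) = n := Fin.ext (min_eq_left (by omega))
  show el (Pi.single (⟨min (n : ℕ) P.N, by omega⟩ : Fin (P.N + 1)) (Pi.single a 1)) 0 =
    el (Pi.single n (Pi.single a 1)) 0
  rw [h]

theorem UBdd_sum (P : BP) (n : Fin (P.N + 1)) (x : P.I → ℝ) :
    UBdd_u P n x = ∑ a, x a • P.vv n a := by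
  let L : (P.I → ℝ) →ₗ[ℝ] P.Hd :=
    { toFun := fun x => UBdd_u P n x
      map_add' := fun x y => by
        apply Subtype.ext
        show el (Pi.single n (x + y)) 0 = el (Pi.single n x) 0 + el (Pi.single n y) 0
        refine ext ?_ ?_
        · rw [hd_el, hd_add, hd_el, hd_el, Pi.single_add]
        · rw [vp_el, vp_add, vp_el, vp_el, add_zero]
      map_smul' := fun c x => by
        apply Subtype.ext
        show el (Pi.single n (c • x)) 0 = c • el (Pi.single n x) 0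
        refine ext ?_ ?_
        · rw [hd_el, hd_smul, hd_el, Pi.single_smul]
        · rw [vp_el, vp_smul, vp_el, smul_zero] }
  have h1 : x = ∑ a, x a • (Pi.single a (1 : ℝ) : P.I → ℝ) := by
    rw [← pi_eq_sum_univ' x]
  have h2 : L x = ∑ a, x a • L (Pi.single a (1 : ℝ)) := by
    conv_lhs => rw [h1]
    rw [map_sum]
    refine Finset.sum_congr rfl fun a _ => ?_
    rw [map_smul]
  rw [show UBdd_u P n x = L x from rfl, h2]
  refine Finset.sum_congr rfl fun a _ => ?_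
  rw [UBdd_vv]
  rfl

theorem UBdd_MB (P : BP) (B : P.Hd →L[ℝ] P.UT) (n n' : Fin (P.N + 1)) (x : P.I → ℝ) :
    (P.MB B n' n).mulVec x = hd (B (UBdd_u P n x)) n' := by
  have h1 : B (UBdd_u P n x) = ∑ a, x a • B (P.vv n a) := by
    rw [UBdd_sum, map_sum]
    refine Finset.sum_congr rfl fun a _ => ?_
    rw [map_smul]
  have h2 : hd (B (UBdd_u P n x)) = ∑ a, x a • hd (B (P.vv n a)) := by
    show UBdd_hd P (B (UBdd_u P n x)) = _
    rw [h1, map_sum]
    refine Finset.sum_congr rfl fun a _ => ?_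
    rw [map_smul]
    rfl
  funext b
  rw [h2, Finset.sum_apply, Finset.sum_apply]
  show ∑ a, P.MB B n' n b a * x a = _
  refine Finset.sum_congr rfl fun a _ => ?_
  rw [Pi.smul_apply, Pi.smul_apply, smul_eq_mul, mul_comm]
  rfl

theorem UBdd_sig (P : BP) (n m : Fin (P.N + 1)) (x : P.I → ℝ) (a : P.I) :
    |sig (Pi.single n x) m a| ^ P.s ≤ |x a| ^ P.s := by
  refine Real.rpow_le_rpow (abs_nonneg _) ?_ s_pos.le
  have h : sig (Pi.single n x) m a = if n ≤ m then x a else 0 := by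
    unfold sig
    split_ifs with h
    · rw [Finset.sum_eq_single n]
      · rw [Pi.single_eq_same]
      · intro l _ hl
        rw [Pi.single_eq_of_ne hl]
        rfl
      · intro hn
        exact (hn (Finset.mem_filter.2 ⟨Finset.mem_univ n, h⟩)).elim
    · refine Finset.sum_eq_zero fun l hl => ?_
      have hl' := (Finset.mem_filter.1 hl).2
      have : l ≠ n := fun e => h (e ▸ hl')
      rw [Pi.single_eq_of_ne this]
      rfl
  rw [h]
  split_ifs
  · exact le_rfl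
  · rw [abs_zero]
    exact abs_nonneg _

theorem UBdd_lev (P : BP) (n : Fin (P.N + 1)) (x : P.I → ℝ)
    (M : Fin (P.N + 1) → Matrix P.I P.I ℝ) :
    ∑ m, ∑ a, |(M m).mulVec ((Pi.single n x : Fin (P.N + 1) → P.I → ℝ) m) a| ^ P.s =
      ∑ a, |(M n).mulVec x a| ^ P.s := by
  rw [Finset.sum_eq_single n]
  · rw [Pi.single_eq_same]
  · intro m _ hm
    rw [Pi.single_eq_of_ne hm]
    refine Finset.sum_eq_zero fun a _ => ?_
    rw [Matrix.mulVec_zero, Pi.zero_apply, abs_zero, Real.zero_rpow s_pos.ne']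
  · intro h
    exact absurd (Finset.mem_univ n) h

theorem UBdd_Qs_nonneg (P : BP) (n : Fin (P.N + 1)) (x : P.I → ℝ) :
    0 ≤ Qs P.s (Gm (P.g n)) (Sw P.κ) x := by
  unfold Qs
  have h : ∀ y : P.I → ℝ, 0 ≤ ∑ a, |y a| ^ P.s := fun y =>
    Finset.sum_nonneg fun _ _ => Real.rpow_nonneg (abs_nonneg _) _
  have h1 := h x
  have h2 := h ((Gm (P.g n)).mulVec x)
  have h3 := h ((Sw P.κ).mulVec x)
  linarith

theorem UBdd_As (h2 : S_UAs) (P : BP) (n : Fin (P.N + 1)) (x : P.I → ℝ) :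
    As (UBdd_u P n x : P.UT) ≤ 2 * Qs P.s (Gm (P.g n)) (Sw P.κ) x := by
  have hN : (0 : ℝ) < P.N := by exact_mod_cast P.hN
  have hh : hd (UBdd_u P n x : P.UT) = Pi.single n x := rfl
  have hv : vp (UBdd_u P n x : P.UT) = 0 := rfl
  rw [h2, hh, hv]
  have e1 : ∑ a, |sig (Pi.single n x) (Fin.last P.N) a + P.Dv.F a 0| ^ P.s ≤ ∑ a, |x a| ^ P.s := by
    refine Finset.sum_le_sum fun a _ => ?_
    rw [map_zero, add_zero]
    exact UBdd_sig P n _ x a
  have e2 : (1 / (P.N : ℝ)) * ∑ m : Fin P.N, ∑ a, |sig (Pi.single n x) m.castSucc a| ^ P.s ≤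
      ∑ a, |x a| ^ P.s := by
    have : ∑ m : Fin P.N, ∑ a, |sig (Pi.single n x) m.castSucc a| ^ P.s ≤
        ∑ _m : Fin P.N, ∑ a, |x a| ^ P.s :=
      Finset.sum_le_sum fun m _ => Finset.sum_le_sum fun a _ => UBdd_sig P n _ x a
    rw [Finset.sum_const, Finset.card_univ, Fintype.card_fin, nsmul_eq_mul] at this
    calc (1 / (P.N : ℝ)) * ∑ m : Fin P.N, ∑ a, |sig (Pi.single n x) m.castSucc a| ^ P.s
        ≤ (1 / (P.N : ℝ)) * (P.N * ∑ a, |x a| ^ P.s) :=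
          mul_le_mul_of_nonneg_left this (by positivity)
      _ = ∑ a, |x a| ^ P.s := by
          rw [← mul_assoc, one_div_mul_cancel hN.ne', one_mul]
  have e3 := UBdd_lev P n x fun m => Gm (P.g m)
  have e4 := UBdd_lev P n x fun _ => Sw P.κ
  have h : ∀ y : P.I → ℝ, 0 ≤ ∑ a, |y a| ^ P.s := fun y =>
    Finset.sum_nonneg fun _ _ => Real.rpow_nonneg (abs_nonneg _) _
  have k2 := h ((Gm (P.g n)).mulVec x)
  have k3 := h ((Sw P.κ).mulVec x)
  rw [e3, e4]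
  unfold Qs
  linarith

theorem UBdd_w (h1 : S_UpH) (h2 : S_UAs) (P : BP) (B : P.Hd →L[ℝ] P.UT) (hB : ‖B‖ ≤ 1)
    (n : Fin (P.N + 1)) (x : P.I → ℝ) :
    As (el (hd (B (UBdd_u P n x))) 0 : P.UT) ≤
      (1 + 1 / P.ρ) ^ P.s * (2 * Qs P.s (Gm (P.g n)) (Sw P.κ) x) := by
  obtain ⟨⟨pH, hp, hpn⟩, -⟩ := h1 P
  have hρ : 0 < 1 + 1 / P.ρ := by
    have := P.hρ
    positivity
  have hn : ‖(el (hd (B (UBdd_u P n x))) 0 : P.UT)‖ ≤ (1 + 1 / P.ρ) * ‖(UBdd_u P n x : P.UT)‖ := by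
    rw [← hp]
    calc ‖(pH (B (UBdd_u P n x)) : P.UT)‖ = ‖pH (B (UBdd_u P n x))‖ := rfl
      _ ≤ ‖pH‖ * ‖B (UBdd_u P n x)‖ := pH.le_opNorm _
      _ ≤ (1 + 1 / P.ρ) * (1 * ‖UBdd_u P n x‖) := by
          refine mul_le_mul hpn ?_ (norm_nonneg _) hρ.le
          exact (B.le_opNorm _).trans (mul_le_mul_of_nonneg_right hB (norm_nonneg _))
      _ = _ := by rw [one_mul]; rfl
  have hu : ‖(UBdd_u P n x : P.UT)‖ ^ P.s = As (UBdd_u P n x : P.UT) := by
    rw [norm_eq, show vp (UBdd_u P n x : P.UT) = 0 from rfl, norm_zero, mul_zero,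
      max_eq_left (Real.rpow_nonneg (As_nonneg _) _), ← Real.rpow_mul (As_nonneg _),
      one_div_mul_cancel s_pos.ne', Real.rpow_one]
  calc As (el (hd (B (UBdd_u P n x))) 0 : P.UT)
      ≤ ‖(el (hd (B (UBdd_u P n x))) 0 : P.UT)‖ ^ P.s := As_rpow_le _
    _ ≤ ((1 + 1 / P.ρ) * ‖(UBdd_u P n x : P.UT)‖) ^ P.s :=
        Real.rpow_le_rpow (norm_nonneg _) hn s_pos.le
    _ = (1 + 1 / P.ρ) ^ P.s * As (UBdd_u P n x : P.UT) := by
        rw [Real.mul_rpow hρ.le (norm_nonneg _), hu]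
    _ ≤ _ := mul_le_mul_of_nonneg_left (UBdd_As h2 P n x) (Real.rpow_nonneg hρ.le _)

/-- The partial sums are bounded by `As`. -/
theorem UBdd_sigAs (h2 : S_UAs) (P : BP) (w : P.UT) (hw : vp w = 0) (m : Fin (P.N + 1)) :
    ∑ b, |sig (hd w) m b| ^ P.s ≤ P.N * As w := by
  have hN : (0 : ℝ) < P.N := by exact_mod_cast P.hN
  have hN1 : (1 : ℝ) ≤ P.N := by exact_mod_cast P.hN
  have hA := h2 P w
  have k : ∀ y : P.I → ℝ, 0 ≤ ∑ a, |y a| ^ P.s := fun y =>
    Finset.sum_nonneg fun _ _ => Real.rpow_nonneg (abs_nonneg _) _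
  have k1 := k fun a => sig (hd w) (Fin.last P.N) a + P.Dv.F a (vp w)
  have k2 : 0 ≤ ∑ n : Fin P.N, ∑ a, |sig (hd w) n.castSucc a| ^ P.s :=
    Finset.sum_nonneg fun n _ => k _
  have k3 : 0 ≤ ∑ n, ∑ a, |(Gm (P.g n)).mulVec (hd w n) a| ^ P.s :=
    Finset.sum_nonneg fun n _ => k _
  have k4 : 0 ≤ ∑ n, ∑ a, |(Sw P.κ).mulVec (hd w n) a| ^ P.s :=
    Finset.sum_nonneg fun n _ => k _
  have k5 : 0 ≤ (1 / (P.N : ℝ)) * ∑ n : Fin P.N, ∑ a, |sig (hd w) n.castSucc a| ^ P.s := by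
    positivity
  induction m using Fin.lastCases with
  | last =>
    have e : ∑ a, |sig (hd w) (Fin.last P.N) a + P.Dv.F a (vp w)| ^ P.s =
        ∑ a, |sig (hd w) (Fin.last P.N) a| ^ P.s := by
      refine Finset.sum_congr rfl fun a _ => ?_
      rw [hw, map_zero, add_zero]
    rw [e] at hA k1
    have h3 : ∑ a, |sig (hd w) (Fin.last P.N) a| ^ P.s ≤ As w := by linarith
    refine h3.trans ?_
    have := mul_le_mul_of_nonneg_right hN1 (As_nonneg w)
    linarith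
  | cast m =>
    have h3 : ∑ a, |sig (hd w) m.castSucc a| ^ P.s ≤
        ∑ n : Fin P.N, ∑ a, |sig (hd w) n.castSucc a| ^ P.s :=
      Finset.single_le_sum (f := fun n : Fin P.N => ∑ a, |sig (hd w) n.castSucc a| ^ P.s)
        (fun n _ => k _) (Finset.mem_univ m)
    have h4 : (1 / (P.N : ℝ)) * ∑ n : Fin P.N, ∑ a, |sig (hd w) n.castSucc a| ^ P.s ≤ As w := by
      linarith
    have h5 := mul_le_mul_of_nonneg_left h4 hN.le
    rw [← mul_assoc, mul_one_div_cancel hN.ne', one_mul] at h5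
    exact h3.trans h5

theorem UBdd_abs (s a b : ℝ) (hs : 1 ≤ s) :
    |a - b| ^ s ≤ 2 ^ (s - 1) * (|a| ^ s + |b| ^ s) := by
  have h1 : |a - b| ^ s ≤ (|a| + |b|) ^ s :=
    Real.rpow_le_rpow (abs_nonneg _) (abs_sub a b) (by linarith)
  refine h1.trans ?_
  have h2 := NNReal.rpow_add_le_mul_rpow_add_rpow ⟨|a|, abs_nonneg a⟩ ⟨|b|, abs_nonneg b⟩ hs
  exact_mod_cast h2

/-- The heads are bounded by `As`. -/
theorem UBdd_hdAs (h2 : S_UAs) (P : BP) (w : P.UT) (hw : vp w = 0) (m : Fin (P.N + 1)) :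
    ∑ b, |hd w m b| ^ P.s ≤ 2 ^ P.s * (P.N * As w) := by
  have hs1 : 1 ≤ P.s := by linarith [P.hs3]
  have hN : (0 : ℝ) < P.N := by exact_mod_cast P.hN
  have hA := As_nonneg w
  have hdiff : ∃ t : P.I → ℝ, (∀ b, hd w m b = sig (hd w) m b - t b) ∧
      ∑ b, |t b| ^ P.s ≤ P.N * As w := by
    by_cases hm : (m : ℕ) = 0
    · refine ⟨fun _ => 0, fun b => ?_, ?_⟩
      · have hf : Finset.univ.filter (fun l : Fin (P.N + 1) => l ≤ m) = {m} := by
          ext l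
          simp only [Finset.mem_filter, Finset.mem_univ, true_and, Finset.mem_singleton]
          constructor
          · intro h
            apply Fin.ext
            have : (l : ℕ) ≤ m := h
            omega
          · intro h
            exact h.le
        unfold sig
        rw [hf, Finset.sum_singleton, sub_zero]
      · simp only [abs_zero, Real.zero_rpow (s_pos (P := P)).ne', Finset.sum_const_zero]
        positivity
    · let m' : Fin (P.N + 1) := ⟨(m : ℕ) - 1, by omega⟩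
      refine ⟨fun b => sig (hd w) m' b, fun b => ?_, UBdd_sigAs h2 P w hw m'⟩
      have hf : Finset.univ.filter (fun l : Fin (P.N + 1) => l ≤ m) =
          insert m (Finset.univ.filter (fun l : Fin (P.N + 1) => l ≤ m')) := by
        ext l
        simp only [Finset.mem_filter, Finset.mem_univ, true_and, Finset.mem_insert]
        constructor
        · intro h
          have h' : (l : ℕ) ≤ m := h
          by_cases hl : (l : ℕ) = m
          · exact Or.inl (Fin.ext hl)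
          · refine Or.inr ?_
            show (l : ℕ) ≤ (m : ℕ) - 1
            omega
        · rintro (h | h)
          · exact h.le
          · have h' : (l : ℕ) ≤ (m : ℕ) - 1 := h
            show (l : ℕ) ≤ m
            omega
      have hnot : m ∉ Finset.univ.filter (fun l : Fin (P.N + 1) => l ≤ m') := by
        simp only [Finset.mem_filter, Finset.mem_univ, true_and]
        intro h
        have h' : (m : ℕ) ≤ (m : ℕ) - 1 := h
        omega
      unfold sig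
      rw [hf, Finset.sum_insert hnot]
      ring
  obtain ⟨t, ht, htb⟩ := hdiff
  calc ∑ b, |hd w m b| ^ P.s ≤ ∑ b, 2 ^ (P.s - 1) * (|sig (hd w) m b| ^ P.s + |t b| ^ P.s) := by
        refine Finset.sum_le_sum fun b _ => ?_
        rw [ht b]
        exact UBdd_abs P.s _ _ hs1
    _ = 2 ^ (P.s - 1) * (∑ b, |sig (hd w) m b| ^ P.s + ∑ b, |t b| ^ P.s) := by
        rw [← Finset.mul_sum, Finset.sum_add_distrib]
    _ ≤ 2 ^ (P.s - 1) * (P.N * As w + P.N * As w) := by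
        refine mul_le_mul_of_nonneg_left ?_ (Real.rpow_nonneg (by norm_num) _)
        exact add_le_add (UBdd_sigAs h2 P w hw m) htb
    _ = 2 ^ P.s * (P.N * As w) := by
        have : (2 : ℝ) ^ P.s = 2 ^ (P.s - 1) * 2 := by
          rw [← Real.rpow_add_one (by norm_num)]
          congr 1
          ring
        rw [this]
        ring

theorem UBdd_GAs (h2 : S_UAs) (P : BP) (w : P.UT) (m : Fin (P.N + 1)) :
    ∑ a, |(Gm (P.g m)).mulVec (hd w m) a| ^ P.s ≤ As w := by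
  have hN : (0 : ℝ) < P.N := by exact_mod_cast P.hN
  have hA := h2 P w
  have k : ∀ y : P.I → ℝ, 0 ≤ ∑ a, |y a| ^ P.s := fun y =>
    Finset.sum_nonneg fun _ _ => Real.rpow_nonneg (abs_nonneg _) _
  have k1 := k fun a => sig (hd w) (Fin.last P.N) a + P.Dv.F a (vp w)
  have k2 : 0 ≤ ∑ n : Fin P.N, ∑ a, |sig (hd w) n.castSucc a| ^ P.s :=
    Finset.sum_nonneg fun n _ => k _
  have k4 : 0 ≤ ∑ n, ∑ a, |(Sw P.κ).mulVec (hd w n) a| ^ P.s :=
    Finset.sum_nonneg fun n _ => k _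
  have k5 : 0 ≤ (1 / (P.N : ℝ)) * ∑ n : Fin P.N, ∑ a, |sig (hd w) n.castSucc a| ^ P.s := by
    positivity
  have h3 : ∑ a, |(Gm (P.g m)).mulVec (hd w m) a| ^ P.s ≤
      ∑ n, ∑ a, |(Gm (P.g n)).mulVec (hd w n) a| ^ P.s :=
    Finset.single_le_sum (f := fun n => ∑ a, |(Gm (P.g n)).mulVec (hd w n) a| ^ P.s)
      (fun n _ => k _) (Finset.mem_univ m)
  linarith

theorem UBdd_const (P : BP) :
    2 ^ P.s * (P.N * ((1 + 1 / P.ρ) ^ P.s * 2)) ≤ P.C1 ^ P.s := by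
  have hs1 : 1 ≤ P.s := by linarith [P.hs3]
  have hN1 : (1 : ℝ) ≤ P.N := by exact_mod_cast P.hN
  have hρ : 0 < 1 + 1 / P.ρ := by
    have := P.hρ
    positivity
  have e : P.C1 = 2 * (2 * P.N) * (1 + 1 / P.ρ) := by
    unfold C1
    ring
  rw [e, Real.mul_rpow (by positivity) hρ.le, Real.mul_rpow (by norm_num) (by positivity)]
  have h1 : (2 * (P.N : ℝ)) ≤ (2 * (P.N : ℝ)) ^ P.s := by
    have := Real.rpow_le_rpow_of_exponent_le (x := 2 * (P.N : ℝ)) (by linarith) hs1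
    rwa [Real.rpow_one] at this
  have h3 : (0 : ℝ) < 2 ^ P.s := Real.rpow_pos_of_pos (by norm_num) _
  have h4 : (0 : ℝ) < (1 + 1 / P.ρ) ^ P.s := Real.rpow_pos_of_pos hρ _
  calc 2 ^ P.s * (P.N * ((1 + 1 / P.ρ) ^ P.s * 2)) =
      2 ^ P.s * (2 * P.N) * (1 + 1 / P.ρ) ^ P.s := by ring
    _ ≤ 2 ^ P.s * (2 * P.N) ^ P.s * (1 + 1 / P.ρ) ^ P.s :=
        mul_le_mul_of_nonneg_right (mul_le_mul_of_nonneg_left h1 h3.le) h4.le

theorem UBdd_const2 (P : BP) :
    (1 + 1 / P.ρ) ^ P.s * 2 ≤ P.C1 ^ P.s := by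
  refine le_trans ?_ (UBdd_const P)
  have hN1 : (1 : ℝ) ≤ P.N := by exact_mod_cast P.hN
  have hρ : 0 < 1 + 1 / P.ρ := by
    have := P.hρ
    positivity
  have h3 : (1 : ℝ) ≤ 2 ^ P.s := Real.one_le_rpow (by norm_num) s_pos.le
  have h4 : (0 : ℝ) < (1 + 1 / P.ρ) ^ P.s := Real.rpow_pos_of_pos hρ _
  have h5 : (1 : ℝ) ≤ 2 ^ P.s * P.N := by nlinarith
  calc (1 + 1 / P.ρ) ^ P.s * 2 = 1 * ((1 + 1 / P.ρ) ^ P.s * 2) := by ring
    _ ≤ (2 ^ P.s * P.N) * ((1 + 1 / P.ρ) ^ P.s * 2) :=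
        mul_le_mul_of_nonneg_right h5 (by positivity)
    _ = _ := by ring

theorem p_UBdd (h1 : S_UpH) (h2 : S_UAs) : S_UBdd := by
  intro P B n n' hB
  have hN : (0 : ℝ) < P.N := by exact_mod_cast P.hN
  constructor
  · intro x
    rw [UBdd_MB]
    have hw := UBdd_w h1 h2 P B hB n x
    have hq := UBdd_Qs_nonneg P n x
    have h3 := UBdd_hdAs h2 P (el (hd (B (UBdd_u P n x))) 0 : P.UT) rfl n'
    rw [hd_el] at h3
    have h2s : (0 : ℝ) ≤ 2 ^ P.s := Real.rpow_nonneg (by norm_num) _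
    calc ∑ a, |hd (B (UBdd_u P n x)) n' a| ^ P.s
        ≤ 2 ^ P.s * (P.N * As (el (hd (B (UBdd_u P n x))) 0 : P.UT)) := h3
      _ ≤ 2 ^ P.s * (P.N * ((1 + 1 / P.ρ) ^ P.s * (2 * Qs P.s (Gm (P.g n)) (Sw P.κ) x))) :=
          mul_le_mul_of_nonneg_left (mul_le_mul_of_nonneg_left hw hN.le) h2s
      _ = 2 ^ P.s * (P.N * ((1 + 1 / P.ρ) ^ P.s * 2)) * Qs P.s (Gm (P.g n)) (Sw P.κ) x := by ring
      _ ≤ P.C1 ^ P.s * Qs P.s (Gm (P.g n)) (Sw P.κ) x :=
          mul_le_mul_of_nonneg_right (UBdd_const P) hq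
  · intro x
    rw [← Matrix.mulVec_mulVec, UBdd_MB]
    have hw := UBdd_w h1 h2 P B hB n x
    have hq := UBdd_Qs_nonneg P n x
    have h3 := UBdd_GAs h2 P (el (hd (B (UBdd_u P n x))) 0 : P.UT) n'
    rw [hd_el] at h3
    calc ∑ a, |(Gm (P.g n')).mulVec (hd (B (UBdd_u P n x)) n') a| ^ P.s
        ≤ As (el (hd (B (UBdd_u P n x))) 0 : P.UT) := h3
      _ ≤ (1 + 1 / P.ρ) ^ P.s * (2 * Qs P.s (Gm (P.g n)) (Sw P.κ) x) := hw
      _ = (1 + 1 / P.ρ) ^ P.s * 2 * Qs P.s (Gm (P.g n)) (Sw P.κ) x := by ring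
      _ ≤ P.C1 ^ P.s * Qs P.s (Gm (P.g n)) (Sw P.κ) x :=
          mul_le_mul_of_nonneg_right (UBdd_const2 P) hq

end Pool.Agent.Lib.MP_355270_an.CB
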