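import Pool.Agent.Lib.MP_355270_an.CB.StmU

open Filter Topology
open scoped ENNReal

namespace Pool.Agent.Lib.MP_355270_an.CB

open BP

section

variable {ι : Type} [Fintype ι] [DecidableEq ι]

theorem UC1_rad_mono (f g : (ι → Bool) → ℝ) (h : ∀ θ, f θ ≤ g θ) : rad f ≤ rad g := by
  unfold rad
  gcongr with θ
  exact h θ

theorem UC1_rad_nonneg (f : (ι → Bool) → ℝ) (h : ∀ θ, 0 ≤ f θ) : 0 ≤ rad f := by
  unfold rad
  have : 0 ≤ ∑ θ, f θ := Finset.sum_nonneg fun θ _ => h θ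
  positivity

theorem UC1_rad_add (f g : (ι → Bool) → ℝ) : rad (fun θ => f θ + g θ) = rad f + rad g := by
  unfold rad
  rw [Finset.sum_add_distrib, add_div]

theorem UC1_rad_const (c : ℝ) : rad (fun _ : ι → Bool => c) = c := by
  unfold rad
  rw [Finset.sum_const, Finset.card_univ, Fintype.card_fun, Fintype.card_bool, nsmul_eq_mul]
  push_cast
  field_simp

theorem UC1_rad_sum {J : Type} [Fintype J] (f : J → (ι → Bool) → ℝ) :
    rad (fun θ => ∑ a, f a θ) = ∑ a, rad (f a) := by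
  unfold rad
  rw [Finset.sum_comm, Finset.sum_div]

end

/-- The head of a signed sum of frame vectors. -/
theorem UC1_hd (P : BP) (n : ℕ) (θ : P.I → Bool) (l : Fin (P.N + 1)) (b : P.I) :
    hd ((∑ a, sg (θ a) • P.vv n a : P.Hd) : P.UT) l b =
      if l = (⟨min n P.N, by omega⟩ : Fin (P.N + 1)) then sg (θ b) else 0 := by
  let H : P.UT →ₗ[ℝ] (Fin (P.N + 1) → P.I → ℝ) :=
    { toFun := hd, map_add' := hd_add, map_smul' := hd_smul }
  have h1 : hd ((∑ a, sg (θ a) • P.vv n a : P.Hd) : P.UT) =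
      ∑ a, sg (θ a) • hd ((P.vv n a : P.Hd) : P.UT) := by
    have : H ((∑ a, sg (θ a) • P.vv n a : P.Hd) : P.UT) =
        ∑ a, sg (θ a) • H ((P.vv n a : P.Hd) : P.UT) := by
      rw [AddSubmonoidClass.coe_finsetSum, map_sum]
      refine Finset.sum_congr rfl fun a _ => ?_
      rw [SetLike.val_smul, map_smul]
    exact this
  have h2 : ∀ a, hd ((P.vv n a : P.Hd) : P.UT) =
      Pi.single (⟨min n P.N, by omega⟩ : Fin (P.N + 1)) (Pi.single a 1) := fun a => rfl
  rw [h1, Finset.sum_apply, Finset.sum_apply]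
  simp only [Pi.smul_apply, h2, smul_eq_mul]
  by_cases hl : l = (⟨min n P.N, by omega⟩ : Fin (P.N + 1))
  · rw [if_pos hl, hl]
    simp only [Pi.single_eq_same]
    rw [Finset.sum_eq_single b]
    · simp
    · intro a _ hab
      rw [Pi.single_eq_of_ne (Ne.symm hab), mul_zero]
    · intro h
      exact absurd (Finset.mem_univ b) h
  · rw [if_neg hl]
    refine Finset.sum_eq_zero fun a _ => ?_
    rw [Pi.single_eq_of_ne hl]
    simp

theorem UC1_card (P : BP) : (Fintype.card P.I : ℝ) = P.k := by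
  rw [Fintype.card_fun, Fintype.card_bool, Fintype.card_fin]
  push_cast
  rfl

theorem UC1_G (P : BP) (l : Fin (P.N + 1)) (a : P.I) : ∑ b, Gm (P.g l) a b ^ 2 = 1 := by
  have h : ∀ b, Gm (P.g l) a b ^ 2 = 1 / P.k := by
    intro b
    unfold Gm
    rw [div_pow, sg_sq, Real.sq_sqrt (Nat.cast_nonneg _), UC1_card]
  rw [Finset.sum_congr rfl fun b _ => h b, Finset.sum_const, Finset.card_univ, nsmul_eq_mul,
    UC1_card, mul_one_div_cancel (by positivity)]

theorem UC1_S (P : BP) (a : P.I) : ∑ b, Sw P.κ a b ^ 2 = 1 := by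
  have h : ∀ b, Sw P.κ a b ^ 2 = 1 / P.k := by
    intro b
    rw [← sq_abs, abs_Sw, div_pow, one_pow, Real.sq_sqrt (by positivity)]
  rw [Finset.sum_congr rfl fun b _ => h b, Finset.sum_const, Finset.card_univ, nsmul_eq_mul,
    UC1_card, mul_one_div_cancel (by positivity)]

/-- Pointwise bound of `As`. -/
theorem UC1_As (h1 : S_UAs) (P : BP) (n : ℕ) (θ : P.I → Bool) :
    As ((∑ a, sg (θ a) • P.vv n a : P.Hd) : P.UT) ≤
      2 * P.k + ∑ a, |∑ b, sg (θ b) * Gm (P.g ⟨min n P.N, by omega⟩) a b| ^ P.s +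
        ∑ a, |∑ b, sg (θ b) * Sw P.κ a b| ^ P.s := by
  obtain ⟨m, hm⟩ : ∃ m : Fin (P.N + 1), m = ⟨min n P.N, by omega⟩ := ⟨_, rfl⟩
  have hs := s_pos (P := P)
  have hd1 : ∀ l b, hd ((∑ a, sg (θ a) • P.vv n a : P.Hd) : P.UT) l b =
      if l = m then sg (θ b) else 0 := by
    intro l b
    rw [UC1_hd, hm]
  have hvp : vp ((∑ a, sg (θ a) • P.vv n a : P.Hd) : P.UT) = 0 :=
    (∑ a, sg (θ a) • P.vv n a : P.Hd).2
  have hsig : ∀ l a, |sig (hd ((∑ a, sg (θ a) • P.vv n a : P.Hd) : P.UT)) l a| ^ P.s ≤ 1 := by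
    intro l a
    refine Real.rpow_le_one (abs_nonneg _) ?_ hs.le
    unfold sig
    rw [Finset.sum_congr rfl fun l' _ => hd1 l' a, Finset.sum_ite_eq']
    split_ifs
    · rw [abs_sg]
    · rw [abs_zero]
      exact zero_le_one
  have hcard : ∑ _a : P.I, (1 : ℝ) = P.k := by
    rw [Finset.sum_const, Finset.card_univ, nsmul_eq_mul, mul_one, UC1_card]
  rw [h1, hvp, ← hm]
  have b1 : ∑ a, |sig (hd ((∑ a, sg (θ a) • P.vv n a : P.Hd) : P.UT)) (Fin.last P.N) a +
      P.Dv.F a 0| ^ P.s ≤ P.k := by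
    rw [← hcard]
    refine Finset.sum_le_sum fun a _ => ?_
    rw [map_zero, add_zero]
    exact hsig _ a
  have b2 : (1 / (P.N : ℝ)) * ∑ l : Fin P.N, ∑ a,
      |sig (hd ((∑ a, sg (θ a) • P.vv n a : P.Hd) : P.UT)) l.castSucc a| ^ P.s ≤ P.k := by
    have hN : (0 : ℝ) < P.N := by
      have := P.hN
      exact_mod_cast this
    have : ∑ l : Fin P.N, ∑ a,
        |sig (hd ((∑ a, sg (θ a) • P.vv n a : P.Hd) : P.UT)) l.castSucc a| ^ P.s ≤
        ∑ _l : Fin P.N, P.k := by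
      refine Finset.sum_le_sum fun l _ => ?_
      rw [← hcard]
      exact Finset.sum_le_sum fun a _ => hsig _ a
    rw [Finset.sum_const, Finset.card_univ, Fintype.card_fin, nsmul_eq_mul] at this
    calc (1 / (P.N : ℝ)) * _ ≤ (1 / (P.N : ℝ)) * (P.N * P.k) :=
          mul_le_mul_of_nonneg_left this (by positivity)
      _ = P.k := by field_simp
  have b3 : ∀ (A : Fin (P.N + 1) → Matrix P.I P.I ℝ), ∑ l, ∑ a,
      |(A l).mulVec (hd ((∑ a, sg (θ a) • P.vv n a : P.Hd) : P.UT) l) a| ^ P.s =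
      ∑ a, |∑ b, sg (θ b) * A m a b| ^ P.s := by
    intro A
    rw [Finset.sum_eq_single m]
    · refine Finset.sum_congr rfl fun a _ => ?_
      congr 2
      unfold Matrix.mulVec dotProduct
      refine Finset.sum_congr rfl fun b _ => ?_
      rw [hd1, if_pos rfl, mul_comm]
    · intro l _ hl
      refine Finset.sum_eq_zero fun a _ => ?_
      have : (A l).mulVec (hd ((∑ a, sg (θ a) • P.vv n a : P.Hd) : P.UT) l) a = 0 := by
        unfold Matrix.mulVec dotProduct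
        refine Finset.sum_eq_zero fun b _ => ?_
        rw [hd1, if_neg hl, mul_zero]
      rw [this, abs_zero, Real.zero_rpow hs.ne']
    · intro h
      exact absurd (Finset.mem_univ m) h
  rw [b3 fun l => Gm (P.g l), b3 fun _ => Sw P.κ]
  linarith

theorem p_UC1 (h1 : S_UAs) (h2 : S_radK) (h3 : S_jensen) : S_UC1 := by
  intro P n _
  have hs := s_pos (P := P)
  have hs3 := P.hs3
  -- the norms
  have hnorm : ∀ θ : P.I → Bool, ‖∑ a, sg (θ a) • P.vv n a‖ ^ 3 =
      As ((∑ a, sg (θ a) • P.vv n a : P.Hd) : P.UT) ^ (3 / P.s) := by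
    intro θ
    have hvp : vp ((∑ a, sg (θ a) • P.vv n a : P.Hd) : P.UT) = 0 :=
      (∑ a, sg (θ a) • P.vv n a : P.Hd).2
    have h4 : ‖∑ a, sg (θ a) • P.vv n a‖ =
        As ((∑ a, sg (θ a) • P.vv n a : P.Hd) : P.UT) ^ (1 / P.s) := by
      rw [Submodule.coe_norm, norm_eq, hvp, norm_zero, mul_zero]
      exact max_eq_left (Real.rpow_nonneg (As_nonneg _) _)
    rw [h4, ← Real.rpow_natCast, ← Real.rpow_mul (As_nonneg _)]
    congr 1
    push_cast
    ring
  simp_rw [hnorm]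
  have h5 := h3 P.I (fun θ => As ((∑ a, sg (θ a) • P.vv n a : P.Hd) : P.UT)) (3 / P.s) 1
    (fun θ => As_nonneg _) (by positivity) (by rw [div_le_one hs]; exact hs3.le)
  refine h5.trans ?_
  simp only [Real.rpow_one, div_one]
  refine Real.rpow_le_rpow (UC1_rad_nonneg _ fun θ => As_nonneg _) ?_ (by positivity)
  refine (UC1_rad_mono _ _ fun θ => UC1_As h1 P n θ).trans ?_
  have hk : (0 : ℝ) < P.k := by positivity
  have b : ∀ A : Matrix P.I P.I ℝ, (∀ a, ∑ b, A a b ^ 2 = 1) →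
      rad (fun θ : P.I → Bool => ∑ a, |∑ b, sg (θ b) * A a b| ^ P.s) ≤ 3 * P.k := by
    intro A hA
    rw [UC1_rad_sum fun a (θ : P.I → Bool) => |∑ b, sg (θ b) * A a b| ^ P.s]
    have : ∀ a : P.I, rad (fun θ : P.I → Bool => |∑ b, sg (θ b) * A a b| ^ P.s) ≤ 3 := by
      intro a
      have := h2 P.I (fun b => A a b) P.s hs P.hs4
      rw [hA a, Real.one_rpow, mul_one] at this
      exact this
    refine (Finset.sum_le_sum fun a _ => this a).trans ?_
    rw [Finset.sum_const, Finset.card_univ, nsmul_eq_mul, UC1_card, mul_comm]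
  rw [UC1_rad_add, UC1_rad_add, UC1_rad_const]
  have g1 := b _ (UC1_G P ⟨min n P.N, by omega⟩)
  have g2 := b _ (UC1_S P)
  linarith

end Pool.Agent.Lib.MP_355270_an.CB
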