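import Pool.Agent.Lib.MP_355270_an.CB.StmU

open Filter Topology
open scoped ENNReal

namespace Pool.Agent.Lib.MP_355270_an.CB

theorem p_UC2 (h1 : S_CTls) (h2 : S_CTmono) (h3 : S_CTprod) (h4 : S_CTemb) : S_UC2 := by
  intro P
  have hs : 3 ≤ P.s := P.hs3.le
  have a1 : CT P.Co P.s 1 := h1 P.Ix P.s hs
  have a2 : CT P.Dv.V P.s 1 :=
    h2 P.Dv.V 3 P.s 1 1 (by norm_num) hs zero_le_one le_rfl P.Dv.hCT
  have a3 : CT (P.Co × P.Dv.V) P.s (2 * 1) := h3 P.Co P.Dv.V P.s 1 hs zero_le_one a1 a2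
  have a4 : CT P.UT P.s (2 * 1 * 1 / 1) :=
    h4 P.UT (P.Co × P.Dv.V) P.Phi 1 1 P.s (2 * 1) one_pos zero_le_one (by linarith) (by norm_num)
      (fun y => by rw [one_mul, BP.norm_def]) (fun y => by rw [one_mul, BP.norm_def]) a3
  have e : (2 * 1 * 1 / 1 : ℝ) = 2 := by norm_num
  rw [e] at a4
  exact a4

end Pool.Agent.Lib.MP_355270_an.CB
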