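import Pool.Agent.Lib.MP_355270_an.CB.StmU

open Filter Topology
open scoped ENNReal

namespace Pool.Agent.Lib.MP_355270_an.CB

open BP in
theorem p_UC3 (h1 : S_Uequiv) (h2 : S_CTfin) (h3 : S_CTmono) (h4 : S_CTprod) (h5 : S_CTemb) : S_UC3 := by
  intro P
  obtain ⟨c, C, hc, hC, hl, hu⟩ := h1 P
  obtain ⟨K0, hK0, hCT0⟩ := h2 (Fin (P.N + 1) → P.I → ℝ)
  have hV : CT P.Dv.V 3 K0 :=
    h3 P.Dv.V 3 3 1 K0 (by norm_num) le_rfl zero_le_one hK0 P.Dv.hCT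
  have hprod : CT ((Fin (P.N + 1) → P.I → ℝ) × P.Dv.V) 3 (2 * K0) :=
    h4 (Fin (P.N + 1) → P.I → ℝ) P.Dv.V 3 K0 le_rfl (by linarith) hCT0 hV
  let L : P.UT →ₗ[ℝ] (Fin (P.N + 1) → P.I → ℝ) × P.Dv.V :=
    { toFun := fun u => (hd u, vp u)
      map_add' := fun u v => rfl
      map_smul' := fun c u => rfl }
  have hL1 : ∀ u : P.UT, C⁻¹ * ‖u‖ ≤ ‖L u‖ := by
    intro u
    rw [inv_mul_le_iff₀ hC]
    exact hu u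
  have hL2 : ∀ u : P.UT, ‖L u‖ ≤ c⁻¹ * ‖u‖ := by
    intro u
    rw [le_inv_mul_iff₀ hc]
    exact hl u
  have hemb := h5 P.UT ((Fin (P.N + 1) → P.I → ℝ) × P.Dv.V) L C⁻¹ c⁻¹ 3 (2 * K0) (inv_pos.2 hC)
    (inv_pos.2 hc).le (by norm_num) (by linarith) hL1 hL2 hprod
  have hpos : 0 ≤ 2 * K0 * c⁻¹ / C⁻¹ := by positivity
  refine ⟨max 1 (2 * K0 * c⁻¹ / C⁻¹), le_max_left _ _, ?_⟩
  exact h3 P.UT 3 3 _ _ (by norm_num) le_rfl hpos (le_max_right _ _) hemb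

end Pool.Agent.Lib.MP_355270_an.CB
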