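import Pool.Agent.Lib.MP_355270_an.CB.StmU

open Filter Topology
open scoped ENNReal

namespace Pool.Agent.Lib.MP_355270_an.CB

open BP

/-- Abel summation. -/
theorem UD_abel (P : BP) (x : Fin (P.N + 1) → P.I → ℝ) (m : Fin (P.N + 1)) (a : P.I) :
    sig (P := P) (fun n => (((n : ℕ) : ℝ) / (P.N : ℝ)) • x n) m a =
      (((m : ℕ) : ℝ) / (P.N : ℝ)) * sig (P := P) x m a -
        (1 / (P.N : ℝ)) * ∑ l ∈ Finset.univ.filter (fun l : Fin (P.N + 1) => l < m),
          sig (P := P) x l a := by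
  have h1 : ∑ l ∈ Finset.univ.filter (fun l : Fin (P.N + 1) => l < m), sig (P := P) x l a =
      ∑ j : Fin (P.N + 1), (((m : ℕ) - (j : ℕ) : ℕ) : ℝ) * x j a := by
    simp only [sig, Finset.sum_filter]
    have e1 : ∀ l : Fin (P.N + 1), (if l < m then ∑ j, (if j ≤ l then x j a else 0) else 0) =
        ∑ j, (if j ≤ l ∧ l < m then x j a else 0) := by
      intro l
      by_cases h : l < m
      · simp only [h, if_true, and_true]
      · simp [h]
    rw [Finset.sum_congr rfl fun l _ => e1 l, Finset.sum_comm]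
    refine Finset.sum_congr rfl fun j _ => ?_
    rw [← Finset.sum_filter, Finset.sum_const, nsmul_eq_mul]
    congr 2
    rw [← Fin.card_Ico]
    congr 1
    ext l
    simp
  rw [h1]
  simp only [sig, Finset.sum_filter, Finset.mul_sum, ← Finset.sum_sub_distrib]
  refine Finset.sum_congr rfl fun j _ => ?_
  have hN : (P.N : ℝ) ≠ 0 := by
    have := P.hN
    positivity
  by_cases h : j ≤ m
  · have h2 : (j : ℕ) ≤ (m : ℕ) := h
    simp only [h, if_true, Pi.smul_apply, smul_eq_mul]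
    rw [Nat.cast_sub h2]
    field_simp
    ring
  · have h2 : (m : ℕ) - (j : ℕ) = 0 := by
      have : ¬ (j : ℕ) ≤ (m : ℕ) := h
      omega
    simp only [h, if_false, h2]
    simp

/-- The linear map. -/
noncomputable def UD_lin (P : BP) : P.UT →ₗ[ℝ] P.UT where
  toFun u := el (fun n => (((n : ℕ) : ℝ) / (P.N : ℝ)) • hd u n) (vp u)
  map_add' u v := by
    refine ext ?_ ?_
    · simp only [hd_el, hd_add]
      funext n
      simp only [Pi.add_apply, smul_add]
    · simp
  map_smul' c u := by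
    refine ext ?_ ?_
    · simp only [hd_el, hd_smul, RingHom.id_apply]
      funext n
      simp only [Pi.smul_apply]
      rw [smul_comm]
    · simp

/-- The correction. -/
noncomputable def UD_c (P : BP) (u : P.UT) (q : P.Ix) : ℝ :=
  if q.1 = 0 then
    (if q.2.1 = Fin.last P.N then 1 else (1 / (P.N : ℝ)) ^ (1 / P.s)) *
      (-((1 / (P.N : ℝ)) * ∑ l ∈ Finset.univ.filter (fun l : Fin (P.N + 1) => l < q.2.1),
          sig (P := P) (hd u) l q.2.2))
  else 0

/-- The multiplier. -/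
noncomputable def UD_t (P : BP) (q : P.Ix) : ℝ :=
  if q.1 = 0 ∧ q.2.1 = Fin.last P.N then 1 else ((q.2.1 : ℕ) : ℝ) / (P.N : ℝ)

theorem UD_dec (P : BP) (u : P.UT) (q : P.Ix) :
    co (UD_lin P u) q = UD_t P q * co u q + UD_c P u q := by
  have hN : (P.N : ℝ) ≠ 0 := by
    have := P.hN
    positivity
  have hh : hd (UD_lin P u) = fun n : Fin (P.N + 1) => (((n : ℕ) : ℝ) / (P.N : ℝ)) • hd u n := rfl
  have hv : vp (UD_lin P u) = vp u := rfl
  obtain ⟨i, n, a⟩ := q
  simp only [co, UD_t, UD_c, hh, hv]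
  by_cases h0 : i = 0
  · subst h0
    by_cases hl : n = Fin.last P.N
    · subst hl
      simp only [if_true, true_and]
      rw [UD_abel, Fin.val_last, div_self hN]
      ring
    · simp only [hl, if_true, if_false, and_false]
      rw [UD_abel]
      ring
  · by_cases h1 : i = 1
    · subst h1
      simp only [show ¬ (1 : Fin 3) = 0 by decide, if_false, if_true, false_and]
      rw [Matrix.mulVec_smul, Pi.smul_apply, smul_eq_mul, add_zero]
    · simp only [h0, h1, if_false, false_and]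
      rw [Matrix.mulVec_smul, Pi.smul_apply, smul_eq_mul, add_zero]

theorem UD_t_bd (P : BP) (q : P.Ix) : 0 ≤ UD_t P q ∧ UD_t P q ≤ 1 := by
  have hN : (0 : ℝ) < (P.N : ℝ) := by
    have := P.hN
    positivity
  unfold UD_t
  split_ifs
  · exact ⟨zero_le_one, le_rfl⟩
  · refine ⟨by positivity, ?_⟩
    rw [div_le_one hN]
    exact_mod_cast Nat.lt_succ_iff.1 q.2.1.2

/-- The mean of the partial sums. -/
noncomputable def UD_m (P : BP) (u : P.UT) (a : P.I) : ℝ :=
  ∑ n : Fin P.N, (1 / (P.N : ℝ)) * |sig (P := P) (hd u) n.castSucc a|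

theorem UD_m_nonneg (P : BP) (u : P.UT) (a : P.I) : 0 ≤ UD_m P u a :=
  Finset.sum_nonneg fun _ _ => by positivity

theorem UD_m_pow (P : BP) (u : P.UT) (a : P.I) :
    UD_m P u a ^ P.s ≤ ∑ n : Fin P.N, (1 / (P.N : ℝ)) * |sig (P := P) (hd u) n.castSucc a| ^ P.s := by
  have hN : (P.N : ℝ) ≠ 0 := by
    have := P.hN
    positivity
  refine Real.rpow_arith_mean_le_arith_mean_rpow Finset.univ (fun _ : Fin P.N => 1 / (P.N : ℝ))
    (fun n => |sig (P := P) (hd u) n.castSucc a|) (fun _ _ => by positivity) ?_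
    (fun _ _ => abs_nonneg _) (by linarith [P.hs3])
  rw [Finset.sum_const, Finset.card_univ, Fintype.card_fin, nsmul_eq_mul]
  field_simp

theorem UD_part (P : BP) (u : P.UT) (m : Fin (P.N + 1)) (a : P.I) :
    |-((1 / (P.N : ℝ)) * ∑ l ∈ Finset.univ.filter (fun l : Fin (P.N + 1) => l < m),
          sig (P := P) (hd u) l a)| ≤ UD_m P u a := by
  rw [abs_neg, abs_mul, abs_of_nonneg (by positivity), UD_m, ← Finset.mul_sum]
  refine mul_le_mul_of_nonneg_left ?_ (by positivity)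
  refine (Finset.abs_sum_le_sum_abs _ _).trans ?_
  rw [Finset.sum_filter, Fin.sum_univ_castSucc]
  have h1 : ¬ Fin.last P.N < m := not_lt.2 (Fin.le_last m)
  rw [if_neg h1, add_zero]
  refine Finset.sum_le_sum fun n _ => ?_
  split_ifs
  · exact le_rfl
  · exact abs_nonneg _

theorem UD_csum (P : BP) (u : P.UT) (h1 : S_UAs) : ∑ q, |UD_c P u q| ^ P.s ≤ 2 * As u := by
  have hN : (0 : ℝ) < (P.N : ℝ) := by
    have := P.hN
    positivity
  have hs := s_pos (P := P)
  have e1 : ∑ q, |UD_c P u q| ^ P.s = ∑ n : Fin (P.N + 1), ∑ a : P.I, |UD_c P u (0, n, a)| ^ P.s := by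
    rw [Fintype.sum_prod_type, Fin.sum_univ_three]
    have z1 : ∀ i : Fin 3, i ≠ 0 →
        ∑ y : Fin (P.N + 1) × P.I, |UD_c P u (i, y)| ^ P.s = 0 := by
      intro i hi
      refine Finset.sum_eq_zero fun y _ => ?_
      simp only [UD_c, hi, if_false, abs_zero]
      exact Real.zero_rpow hs.ne'
    rw [z1 1 (by decide), z1 2 (by decide), add_zero, add_zero, Fintype.sum_prod_type]
  have e2 : ∀ a : P.I, |UD_c P u (0, Fin.last P.N, a)| ^ P.s ≤ UD_m P u a ^ P.s := by
    intro a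
    refine Real.rpow_le_rpow (abs_nonneg _) ?_ hs.le
    simp only [UD_c, if_true, one_mul]
    exact UD_part P u _ a
  have e3 : ∀ (n : Fin P.N) (a : P.I), |UD_c P u (0, n.castSucc, a)| ^ P.s ≤
      (1 / (P.N : ℝ)) * UD_m P u a ^ P.s := by
    intro n a
    have hne : n.castSucc ≠ Fin.last P.N := Fin.castSucc_ne_last n
    simp only [UD_c, hne, if_true, if_false]
    rw [abs_mul, abs_of_nonneg (by positivity), Real.mul_rpow (by positivity) (abs_nonneg _),
      ← Real.rpow_mul (by positivity), one_div_mul_cancel hs.ne', Real.rpow_one]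
    exact mul_le_mul_of_nonneg_left
      (Real.rpow_le_rpow (abs_nonneg _) (UD_part P u _ a) hs.le) (by positivity)
  have e4 : ∑ q, |UD_c P u q| ^ P.s ≤ 2 * ∑ a : P.I, UD_m P u a ^ P.s := by
    rw [e1, Fin.sum_univ_castSucc]
    have h3 : ∑ n : Fin P.N, ∑ a : P.I, |UD_c P u (0, n.castSucc, a)| ^ P.s ≤
        ∑ n : Fin P.N, ∑ a : P.I, (1 / (P.N : ℝ)) * UD_m P u a ^ P.s :=
      Finset.sum_le_sum fun n _ => Finset.sum_le_sum fun a _ => e3 n a
    have h4 : ∑ n : Fin P.N, ∑ a : P.I, (1 / (P.N : ℝ)) * UD_m P u a ^ P.s =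
        ∑ a : P.I, UD_m P u a ^ P.s := by
      rw [Finset.sum_const, Finset.card_univ, Fintype.card_fin, nsmul_eq_mul, ← Finset.mul_sum,
        ← mul_assoc, mul_one_div_cancel hN.ne', one_mul]
    have h5 : ∑ a : P.I, |UD_c P u (0, Fin.last P.N, a)| ^ P.s ≤ ∑ a : P.I, UD_m P u a ^ P.s :=
      Finset.sum_le_sum fun a _ => e2 a
    linarith
  have e5 : ∑ a : P.I, UD_m P u a ^ P.s ≤
      (1 / (P.N : ℝ)) * ∑ n : Fin P.N, ∑ a, |sig (P := P) (hd u) n.castSucc a| ^ P.s := by
    rw [Finset.sum_comm, Finset.mul_sum]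
    refine Finset.sum_le_sum fun a _ => ?_
    rw [Finset.mul_sum]
    exact UD_m_pow P u a
  have e6 := h1 P u
  have p1 : 0 ≤ ∑ a, |sig (P := P) (hd u) (Fin.last P.N) a + P.Dv.F a (vp u)| ^ P.s :=
    Finset.sum_nonneg fun _ _ => Real.rpow_nonneg (abs_nonneg _) _
  have p2 : 0 ≤ ∑ n, ∑ a, |(Gm (P.g n)).mulVec (hd u n) a| ^ P.s :=
    Finset.sum_nonneg fun _ _ => Finset.sum_nonneg fun _ _ => Real.rpow_nonneg (abs_nonneg _) _
  have p3 : 0 ≤ ∑ n, ∑ a, |(Sw P.κ).mulVec (hd u n) a| ^ P.s :=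
    Finset.sum_nonneg fun _ _ => Finset.sum_nonneg fun _ _ => Real.rpow_nonneg (abs_nonneg _) _
  linarith

theorem UD_As (P : BP) (u : P.UT) (h1 : S_UAs) :
    As (UD_lin P u) ^ (1 / P.s) ≤ 3 * As u ^ (1 / P.s) := by
  have hs := s_pos (P := P)
  have hA := As_nonneg u
  have e1 : As (UD_lin P u) = ∑ q, |UD_t P q * co u q + UD_c P u q| ^ P.s := by
    unfold As
    refine Finset.sum_congr rfl fun q _ => ?_
    rw [UD_dec]
  have e2 := Real.Lp_add_le Finset.univ (fun q => UD_t P q * co u q) (UD_c P u)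
    (p := P.s) (by linarith [P.hs3])
  rw [← e1] at e2
  have e3 : (∑ q, |UD_t P q * co u q| ^ P.s) ^ (1 / P.s) ≤ As u ^ (1 / P.s) := by
    refine Real.rpow_le_rpow
      (Finset.sum_nonneg fun _ _ => Real.rpow_nonneg (abs_nonneg _) _) ?_ (by positivity)
    refine Finset.sum_le_sum fun q _ => Real.rpow_le_rpow (abs_nonneg _) ?_ hs.le
    obtain ⟨t0, t1⟩ := UD_t_bd P q
    rw [abs_mul, abs_of_nonneg t0]
    exact mul_le_of_le_one_left (abs_nonneg _) t1
  have e4 : (∑ q, |UD_c P u q| ^ P.s) ^ (1 / P.s) ≤ 2 * As u ^ (1 / P.s) := by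
    have h2 : (∑ q, |UD_c P u q| ^ P.s) ^ (1 / P.s) ≤ (2 * As u) ^ (1 / P.s) :=
      Real.rpow_le_rpow
        (Finset.sum_nonneg fun _ _ => Real.rpow_nonneg (abs_nonneg _) _)
        (UD_csum P u h1) (by positivity)
    rw [Real.mul_rpow (by norm_num) hA] at h2
    refine h2.trans (mul_le_mul_of_nonneg_right ?_ (Real.rpow_nonneg hA _))
    have h3 : (2 : ℝ) ^ (1 / P.s) ≤ (2 : ℝ) ^ (1 : ℝ) := by
      refine Real.rpow_le_rpow_of_exponent_le (by norm_num) ?_
      rw [div_le_one hs]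
      linarith [P.hs3]
    rwa [Real.rpow_one] at h3
  linarith

theorem p_UD (h1 : S_UAs) : S_UD := by
  intro P
  have hb : ∀ u, ‖UD_lin P u‖ ≤ 3 * ‖u‖ := by
    intro u
    rw [norm_eq (UD_lin P u)]
    refine max_le ?_ ?_
    · refine (UD_As P u h1).trans (mul_le_mul_of_nonneg_left ?_ (by norm_num))
      rw [norm_eq]
      exact le_max_left _ _
    · have h2 : vp (UD_lin P u) = vp u := rfl
      rw [h2]
      have h3 := norm_vp_le u
      have h4 := norm_nonneg u
      linarith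
  refine ⟨(UD_lin P).mkContinuous 3 hb, fun u n => rfl, fun u => rfl, ?_⟩
  exact LinearMap.mkContinuous_norm_le _ (by norm_num) hb

end Pool.Agent.Lib.MP_355270_an.CB
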