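import Pool.Agent.Lib.MP_355270_an.CB.StmU

open Filter Topology
open scoped ENNReal

namespace Pool.Agent.Lib.MP_355270_an.CB

open BP

/-- The coordinates of the elements of the chain. -/
noncomputable def UE_map (P : BP) (j : ℕ) :
    P.Es j →ₗ[ℝ] (Fin (P.N + 1) → P.I → ℝ) × P.Dv.Vs j where
  toFun u := (hd (u : P.UT), ⟨vp (u : P.UT), u.2⟩)
  map_add' _ _ := rfl
  map_smul' _ _ := rfl

theorem UE_map_injective (P : BP) (j : ℕ) : Function.Injective (UE_map P j) := by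
  intro u v h
  have h1 : hd (u : P.UT) = hd (v : P.UT) :=
    congrArg (fun x : (Fin (P.N + 1) → P.I → ℝ) × P.Dv.Vs j => x.1) h
  have h2 : vp (u : P.UT) = vp (v : P.UT) :=
    congrArg (fun x : (Fin (P.N + 1) → P.I → ℝ) × P.Dv.Vs j => (x.2 : P.Dv.V)) h
  exact Subtype.ext (BP.ext h1 h2)

theorem p_UE (h1 : S_UiV) : S_UE := by
  intro P
  refine ⟨?_, ?_, ?_, ?_⟩
  · intro i j hij u hu
    exact P.Dv.mono hij hu
  · intro j
    have := P.Dv.fin j
    exact Module.Finite.of_injective (UE_map P j) (UE_map_injective P j)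
  · obtain ⟨iV, h2, h3⟩ := h1 P
    rw [Metric.dense_iff]
    intro u r hr
    obtain ⟨y, hy1, hy2⟩ := Metric.dense_iff.1 P.Dv.dense (vp u) r hr
    rw [Set.mem_iUnion] at hy2
    obtain ⟨j, hj⟩ := hy2
    refine ⟨el (hd u) y, ?_, ?_⟩
    · rw [Metric.mem_ball, dist_eq_norm] at hy1 ⊢
      have e : el (hd u) y - u = iV (y - vp u) := by
        rw [h2]
        refine BP.ext ?_ ?_
        · rw [hd_sub, hd_el, hd_el, sub_self]
        · rw [vp_sub, vp_el, vp_el]
      rw [e]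
      calc ‖iV (y - vp u)‖ ≤ ‖iV‖ * ‖y - vp u‖ := iV.le_opNorm _
        _ ≤ 1 * ‖y - vp u‖ := mul_le_mul_of_nonneg_right h3 (norm_nonneg _)
        _ < r := by rw [one_mul]; exact hy1
    · exact Set.mem_iUnion.2 ⟨j, hj⟩
  · intro u hu
    show vp u ∈ P.Dv.Vs 0
    rw [show vp u = 0 from hu]
    exact zero_mem _

end Pool.Agent.Lib.MP_355270_an.CB
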