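import Pool.Agent.Lib.MP_355270_an.CB.StmU

open Filter Topology
open scoped ENNReal

namespace Pool.Agent.Lib.MP_355270_an.CB

open BP

theorem UR4_card (P : BP) : (Fintype.card P.I : ℝ) = P.k := by
  simp [BP.k]

theorem UR4_kpos (P : BP) : 0 < P.k := by
  unfold BP.k
  positivity

theorem UR4_rpow (P : BP) : P.k * (1 / Real.sqrt P.k) ^ P.s = P.k ^ (1 - P.s / 2) := by
  have hk := UR4_kpos P
  have h1 : (1 / Real.sqrt P.k : ℝ) = P.k ^ (-(1 / 2) : ℝ) := by
    rw [Real.sqrt_eq_rpow, Real.rpow_neg hk.le, one_div]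
  rw [h1, ← Real.rpow_mul hk.le]
  nth_rewrite 1 [← Real.rpow_one P.k]
  rw [← Real.rpow_add hk]
  congr 1
  ring

theorem UR4_zero_rpow (P : BP) : |(0 : ℝ)| ^ P.s = 0 := by
  rw [abs_zero, Real.zero_rpow (s_pos (P := P)).ne']

/-- a family of matrices applied to the frame vector -/
theorem UR4_cols (P : BP) (M : Fin (P.N + 1) → Matrix P.I P.I ℝ) (a : P.I)
    (hM : ∀ n b, |M n b a| = 1 / Real.sqrt P.k) :
    ∑ n, ∑ b, |(M n).mulVec ((Pi.single (Fin.last P.N) (Pi.single a 1) :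
      Fin (P.N + 1) → P.I → ℝ) n) b| ^ P.s = P.k ^ (1 - P.s / 2) := by
  rw [Finset.sum_eq_single (Fin.last P.N)]
  · have h1 : ∀ b, (M (Fin.last P.N)).mulVec ((Pi.single (Fin.last P.N) (Pi.single a 1) :
      Fin (P.N + 1) → P.I → ℝ) (Fin.last P.N)) b = M (Fin.last P.N) b a := by
      intro b
      rw [Pi.single_eq_same, Matrix.mulVec_single_one]
      rfl
    simp only [h1, hM, Finset.sum_const, Finset.card_univ, nsmul_eq_mul]
    rw [UR4_card, UR4_rpow]
  · intro n _ hn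
    refine Finset.sum_eq_zero fun b _ => ?_
    rw [Pi.single_eq_of_ne hn, Matrix.mulVec_zero, Pi.zero_apply, UR4_zero_rpow]
  · intro h
    exact absurd (Finset.mem_univ _) h

theorem UR4_absG (P : BP) (g : P.I → P.I → Bool) (b a : P.I) : |Gm g b a| = 1 / Real.sqrt P.k := by
  unfold Gm
  rw [abs_div, abs_sg, abs_of_nonneg (Real.sqrt_nonneg _), UR4_card]

/-- the difference of the frame vector and the Davie vector -/
theorem UR4_diff (h3 : S_UAs) (P : BP) (a : P.I) :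
    ‖(P.vv P.N a : P.UT) - el 0 (P.Dv.e a)‖ ≤ (2 * P.k ^ (1 - P.s / 2)) ^ (1 / P.s) + P.ρ := by
  set u : P.UT := (P.vv P.N a : P.UT) - el 0 (P.Dv.e a) with hu
  have hhd : hd u = (Pi.single (Fin.last P.N) (Pi.single a 1) : Fin (P.N + 1) → P.I → ℝ) := by
    rw [hu, hd_sub, hd_el, sub_zero]
    have e : (⟨min P.N P.N, by omega⟩ : Fin (P.N + 1)) = Fin.last P.N := Fin.ext (min_self P.N)
    show hd (el (Pi.single (⟨min P.N P.N, by omega⟩ : Fin (P.N + 1)) (Pi.single a 1)) 0) = _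
    rw [hd_el, e]
  have hvp : vp u = -P.Dv.e a := by
    rw [hu, vp_sub, vp_el]
    show (0 : P.Dv.V) - P.Dv.e a = _
    rw [zero_sub]
  have hAs : As u = 2 * P.k ^ (1 - P.s / 2) := by
    rw [h3 P u, hhd, hvp]
    have s1 : ∑ b, |sig (Pi.single (Fin.last P.N) (Pi.single a 1) : Fin (P.N + 1) → P.I → ℝ) (Fin.last P.N) b +
        P.Dv.F b (-P.Dv.e a)| ^ P.s = 0 := by
      refine Finset.sum_eq_zero fun b _ => ?_
      have e1 : sig (Pi.single (Fin.last P.N) (Pi.single a 1) : Fin (P.N + 1) → P.I → ℝ) (Fin.last P.N) b =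
          (Pi.single a 1 : P.I → ℝ) b := by
        unfold sig
        rw [Finset.sum_eq_single (Fin.last P.N)]
        · rw [Pi.single_eq_same]
        · intro l _ hl
          rw [Pi.single_eq_of_ne hl, Pi.zero_apply]
        · intro h
          exact (h (by simp)).elim
      rw [e1, map_neg, P.Dv.hF, Pi.single_apply, add_neg_cancel, UR4_zero_rpow]
    have s2 : ∑ n : Fin P.N, ∑ b, |sig (Pi.single (Fin.last P.N) (Pi.single a 1) : Fin (P.N + 1) → P.I → ℝ) n.castSucc b| ^ P.s = 0 := by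
      refine Finset.sum_eq_zero fun n _ => Finset.sum_eq_zero fun b _ => ?_
      have e1 : sig (Pi.single (Fin.last P.N) (Pi.single a 1) : Fin (P.N + 1) → P.I → ℝ) n.castSucc b = 0 := by
        unfold sig
        refine Finset.sum_eq_zero fun l hl => ?_
        have hl2 : l ≤ n.castSucc := (Finset.mem_filter.mp hl).2
        have hne : l ≠ Fin.last P.N := by
          rintro rfl
          exact absurd hl2 (not_le.mpr (Fin.castSucc_lt_last n))
        rw [Pi.single_eq_of_ne hne, Pi.zero_apply]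
      rw [e1, UR4_zero_rpow]
    rw [s1, s2, UR4_cols P (fun n => Gm (P.g n)) a (fun n b => UR4_absG P _ b a),
      UR4_cols P (fun _ => Sw P.κ) a (fun _ b => abs_Sw P.κ b a)]
    ring
  rw [norm_eq, hAs, hvp, norm_neg]
  refine max_le ?_ ?_
  · linarith [P.hρ]
  · have h1 : 0 ≤ (2 * P.k ^ (1 - P.s / 2)) ^ (1 / P.s) := by
      have := UR4_kpos P
      positivity
    have h2 := mul_le_mul_of_nonneg_left (P.Dv.he a) P.hρ.le
    linarith

/-- the norm of the image of a Davie vector -/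
theorem UR4_el (h3 : S_UAs) (P : BP) (j : P.I) :
    ‖(el 0 (∑ a, Sw P.κ j a • P.Dv.e a) : P.UT)‖ ≤
      P.k ^ (1 / P.s - 1 / 2) + P.ρ * ‖∑ a, Sw P.κ j a • P.Dv.e a‖ := by
  set y := ∑ a, Sw P.κ j a • P.Dv.e a with hy
  have hF : ∀ b, P.Dv.F b y = Sw P.κ j b := by
    intro b
    rw [hy, map_sum, Finset.sum_eq_single b]
    · rw [map_smul, P.Dv.hF, if_pos rfl, smul_eq_mul, mul_one]
    · intro c _ hc
      rw [map_smul, P.Dv.hF, if_neg hc.symm, smul_zero]
    · intro h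
      exact absurd (Finset.mem_univ _) h
  have hsig : ∀ n b, sig (0 : Fin (P.N + 1) → P.I → ℝ) n b = 0 := by
    intro n b
    unfold sig
    simp
  have hAs : As (el 0 y : P.UT) = P.k ^ (1 - P.s / 2) := by
    rw [h3 P (el 0 y)]
    simp only [hd_el, vp_el, hsig, hF, Pi.zero_apply, Matrix.mulVec_zero, UR4_zero_rpow, zero_add,
      Finset.sum_const_zero, mul_zero, add_zero, abs_Sw]
    rw [Finset.sum_const, Finset.card_univ, nsmul_eq_mul, UR4_card, UR4_rpow]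
  rw [norm_eq, hAs, vp_el]
  have hk := UR4_kpos P
  have e1 : (P.k ^ (1 - P.s / 2)) ^ (1 / P.s) = P.k ^ (1 / P.s - 1 / 2) := by
    rw [← Real.rpow_mul hk.le]
    congr 1
    have := (s_pos (P := P)).ne'
    field_simp
  rw [e1]
  refine max_le ?_ ?_
  · have := mul_nonneg P.hρ.le (norm_nonneg y)
    linarith
  · have : 0 ≤ P.k ^ (1 / P.s - 1 / 2) := Real.rpow_nonneg hk.le _
    linarith

/-- the functional `u ↦ hd u n b` -/
noncomputable def UR4_phi (P : BP) (n : Fin (P.N + 1)) (b : P.I) : P.UT →ₗ[ℝ] ℝ where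
  toFun u := hd u n b
  map_add' u v := by rw [hd_add]; rfl
  map_smul' c u := by rw [hd_smul]; rfl

/-- the trace of a level -/
theorem UR4_trace (P : BP) (T : P.UT →L[ℝ] P.UT) (iV : P.Dv.V →L[ℝ] P.UT) (n : Fin (P.N + 1)) :
    ∑ a, hd (T (iV (P.Dv.e a))) n a =
      ∑ j, co (T (iV (∑ a, Sw P.κ j a • P.Dv.e a))) ((2 : Fin 3), n, j) := by
  have h1 : ∀ j, co (T (iV (∑ a, Sw P.κ j a • P.Dv.e a))) ((2 : Fin 3), n, j) =
      ∑ b, ∑ a, (Sw P.κ j b * Sw P.κ j a) * hd (T (iV (P.Dv.e a))) n b := by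
    intro j
    have e0 : co (T (iV (∑ a, Sw P.κ j a • P.Dv.e a))) ((2 : Fin 3), n, j) =
        (Sw P.κ).mulVec (hd (T (iV (∑ a, Sw P.κ j a • P.Dv.e a))) n) j := by
      unfold co
      have h20 : ((2 : Fin 3) = 0) = False := by simp
      have h21 : ((2 : Fin 3) = 1) = False := by simp
      simp only [h20, h21, if_false]
    rw [e0]
    unfold Matrix.mulVec dotProduct
    refine Finset.sum_congr rfl fun b _ => ?_
    have e1 : hd (T (iV (∑ a, Sw P.κ j a • P.Dv.e a))) n b =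
        ∑ a, Sw P.κ j a * hd (T (iV (P.Dv.e a))) n b := by
      show UR4_phi P n b (T (iV (∑ a, Sw P.κ j a • P.Dv.e a))) = _
      simp only [map_sum, map_smul, smul_eq_mul]
      rfl
    rw [e1, Finset.mul_sum]
    refine Finset.sum_congr rfl fun a _ => ?_
    ring
  simp only [h1]
  rw [Finset.sum_comm]
  refine Finset.sum_congr rfl fun b _ => ?_
  rw [Finset.sum_comm]
  have h2 : ∀ a, ∑ j, (Sw P.κ j b * Sw P.κ j a) * hd (T (iV (P.Dv.e a))) n b =
      (if b = a then 1 else 0) * hd (T (iV (P.Dv.e a))) n b := by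
    intro a
    rw [← Finset.sum_mul]
    congr 1
    have h3 : (Sw P.κ * Sw P.κ) b a = (1 : Matrix P.I P.I ℝ) b a := by rw [Sw_mul_self]
    rw [Matrix.mul_apply, Matrix.one_apply] at h3
    rw [← h3]
    refine Finset.sum_congr rfl fun j _ => ?_
    rw [Sw_symm P.κ j b]
  simp only [h2]
  rw [Finset.sum_eq_single b]
  · rw [if_pos rfl, one_mul]
  · intro c _ hc
    rw [if_neg hc.symm, zero_mul]
  · intro h
    exact absurd (Finset.mem_univ _) h

theorem UR4_FR {X Y Z : Type*} [NormedAddCommGroup X] [NormedSpace ℝ X] [NormedAddCommGroup Y]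
    [NormedSpace ℝ Y] [NormedAddCommGroup Z] [NormedSpace ℝ Z] {T : Y →L[ℝ] Y} (hT : FR T)
    (A : X →L[ℝ] Y) (B : Y →L[ℝ] Z) : FR (B.comp (T.comp A)) := by
  unfold FR at hT ⊢
  have h1 : (B.comp (T.comp A)).toLinearMap.range ≤ (T.toLinearMap.range).map B.toLinearMap := by
    rintro _ ⟨x, rfl⟩
    exact ⟨T (A x), ⟨A x, rfl⟩, rfl⟩
  exact Submodule.finiteDimensional_of_le h1

theorem p_UR4 (h1 : S_UiV) (h2 : S_UpH) (h3 : S_UAs) : S_UR4 := by
  intro P T hT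
  obtain ⟨iV, hiV, hiVn⟩ := h1 P
  obtain ⟨-, qV, hqV, hqVn⟩ := h2 P
  have hk := UR4_kpos P
  have hρ := P.hρ
  set q0 : ℝ := (2 * P.k ^ (1 - P.s / 2)) ^ (1 / P.s) + P.ρ with hq0
  -- replacing the frame vectors
  have hT0 : 0 ≤ ‖T‖ := norm_nonneg T
  have hdiff : |∑ a, P.Xi a (T ((P.vv P.N a : P.UT) - iV (P.Dv.e a)))| ≤ P.k * (q0 * ‖T‖) := by
    refine (Finset.abs_sum_le_sum_abs _ _).trans ?_
    have h : ∀ a ∈ (Finset.univ : Finset P.I), |P.Xi a (T ((P.vv P.N a : P.UT) - iV (P.Dv.e a)))| ≤ q0 * ‖T‖ := by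
      intro a _
      have e1 : |P.Xi a (T ((P.vv P.N a : P.UT) - iV (P.Dv.e a)))| ≤ ‖T ((P.vv P.N a : P.UT) - iV (P.Dv.e a))‖ :=
        abs_co_le (T ((P.vv P.N a : P.UT) - iV (P.Dv.e a))) ((0 : Fin 3), Fin.last P.N, a)
      have e2 := T.le_opNorm ((P.vv P.N a : P.UT) - iV (P.Dv.e a))
      have e3 := UR4_diff h3 P a
      rw [← hiV] at e3
      have e4 := mul_le_mul_of_nonneg_left e3 hT0
      rw [mul_comm q0]
      exact e1.trans (e2.trans e4)
    refine (Finset.sum_le_card_nsmul _ _ _ h).trans (le_of_eq ?_)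
    rw [Finset.card_univ, nsmul_eq_mul, UR4_card]
  -- the Davie part
  have hdav : |∑ a, P.Dv.F a (vp (T (iV (P.Dv.e a))))| ≤
      P.k * (50 * (2 : ℝ) ^ (-(P.κ : ℝ) / 6) / P.ρ * ‖T‖) := by
    have e1 := P.Dv.htr (qV.comp (T.comp iV)) (UR4_FR hT iV qV)
    have e2 : ‖qV.comp (T.comp iV)‖ ≤ 1 / P.ρ * ‖T‖ := by
      refine (ContinuousLinearMap.opNorm_comp_le _ _).trans ?_
      have e3 : ‖T.comp iV‖ ≤ ‖T‖ := by
        refine (ContinuousLinearMap.opNorm_comp_le _ _).trans ?_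
        calc ‖T‖ * ‖iV‖ ≤ ‖T‖ * 1 := mul_le_mul_of_nonneg_left hiVn hT0
          _ = ‖T‖ := mul_one _
      exact mul_le_mul hqVn e3 (norm_nonneg _) (by positivity)
    have e4 : ∀ a, (qV.comp (T.comp iV)) (P.Dv.e a) = vp (T (iV (P.Dv.e a))) := fun a => hqV _
    simp only [e4] at e1
    rw [abs_mul, abs_of_pos (show (0 : ℝ) < 1 / 2 ^ P.κ by positivity)] at e1
    have e5 : 50 * (2 : ℝ) ^ (-(P.κ : ℝ) / 6) * ‖qV.comp (T.comp iV)‖ ≤
        50 * (2 : ℝ) ^ (-(P.κ : ℝ) / 6) / P.ρ * ‖T‖ := by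
      have e6 : (0 : ℝ) ≤ 50 * (2 : ℝ) ^ (-(P.κ : ℝ) / 6) := by positivity
      refine (mul_le_mul_of_nonneg_left e2 e6).trans (le_of_eq ?_)
      ring
    have e7 := e1.trans e5
    have e8 := mul_le_mul_of_nonneg_left e7 hk.le
    refine le_trans (le_of_eq ?_) e8
    show _ = (2 : ℝ) ^ P.κ * (1 / 2 ^ P.κ * _)
    rw [← mul_assoc, mul_one_div_cancel (by positivity), one_mul]
  -- the levels
  have hlev : ∀ n : Fin (P.N + 1), |∑ a, hd (T (iV (P.Dv.e a))) n a| ≤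
      P.k * ((P.k ^ (1 / P.s - 1 / 2) + 2 * P.ρ) * ‖T‖) := by
    intro n
    rw [UR4_trace P T iV n]
    refine (Finset.abs_sum_le_sum_abs _ _).trans ?_
    have h : ∀ j ∈ (Finset.univ : Finset P.I), |co (T (iV (∑ a, Sw P.κ j a • P.Dv.e a))) ((2 : Fin 3), n, j)| ≤
        ‖T‖ * (P.k ^ (1 / P.s - 1 / 2) + P.ρ * ‖∑ a, Sw P.κ j a • P.Dv.e a‖) := by
      intro j _
      refine (abs_co_le _ _).trans ((T.le_opNorm _).trans ?_)
      refine mul_le_mul_of_nonneg_left ?_ hT0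
      rw [hiV]
      exact UR4_el h3 P j
    refine (Finset.sum_le_sum h).trans ?_
    rw [← Finset.mul_sum, Finset.sum_add_distrib, ← Finset.mul_sum, Finset.sum_const, Finset.card_univ,
      nsmul_eq_mul, UR4_card]
    have hS : ∑ j, ‖∑ a, Sw P.κ j a • P.Dv.e a‖ ≤ 2 * P.k := by
      have e := P.Dv.hS
      have e2 := mul_le_mul_of_nonneg_left e hk.le
      have e3 : P.k * ((1 / (2 : ℝ) ^ P.κ) * ∑ j, ‖∑ a, Sw P.κ j a • P.Dv.e a‖) = ∑ j, ‖∑ a, Sw P.κ j a • P.Dv.e a‖ := by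
        show (2 : ℝ) ^ P.κ * _ = _
        rw [← mul_assoc, mul_one_div_cancel (by positivity), one_mul]
      rw [e3] at e2
      linarith
    have e := mul_le_mul_of_nonneg_left hS hρ.le
    have e2 := mul_le_mul_of_nonneg_left (add_le_add_right e (P.k * P.k ^ (1 / P.s - 1 / 2))) hT0
    refine e2.trans (le_of_eq ?_)
    ring
  -- the sum
  have hXi : ∀ a, P.Xi a (T (P.vv P.N a : P.UT)) = P.Xi a (T ((P.vv P.N a : P.UT) - iV (P.Dv.e a))) +
      (∑ n, hd (T (iV (P.Dv.e a))) n a + P.Dv.F a (vp (T (iV (P.Dv.e a))))) := by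
    intro a
    have e1 : P.Xi a (T (P.vv P.N a : P.UT)) = P.Xi a (T ((P.vv P.N a : P.UT) - iV (P.Dv.e a))) +
        P.Xi a (T (iV (P.Dv.e a))) := by
      rw [← map_add, ← map_add, sub_add_cancel]
    rw [e1, Xi_apply P a (T (iV (P.Dv.e a)))]
    congr 2
    unfold sig
    refine Finset.sum_congr ?_ fun _ _ => rfl
    refine Finset.filter_true_of_mem fun l _ => Fin.le_last l
  have hsum : |∑ a, P.Xi a (T (P.vv P.N a : P.UT))| ≤ P.k * ((q0 + 50 * (2 : ℝ) ^ (-(P.κ : ℝ) / 6) / P.ρ +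
        (P.N + 1) * (P.k ^ (1 / P.s - 1 / 2) + 2 * P.ρ)) * ‖T‖) := by
    simp only [hXi]
    rw [Finset.sum_add_distrib, Finset.sum_add_distrib, Finset.sum_comm]
    have e1 : |∑ n, ∑ a, hd (T (iV (P.Dv.e a))) n a| ≤
        (P.N + 1) * (P.k * ((P.k ^ (1 / P.s - 1 / 2) + 2 * P.ρ) * ‖T‖)) := by
      refine (Finset.abs_sum_le_sum_abs _ _).trans ?_
      refine (Finset.sum_le_card_nsmul _ _ _ fun n _ => hlev n).trans (le_of_eq ?_)
      rw [Finset.card_univ, Fintype.card_fin, nsmul_eq_mul]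
      push_cast
      ring
    refine (abs_add_le _ _).trans ?_
    refine (add_le_add hdiff ((abs_add_le _ _).trans (add_le_add e1 hdav))).trans (le_of_eq ?_)
    ring
  unfold av
  rw [Real.norm_eq_abs, abs_mul, UR4_card, abs_of_pos (inv_pos.mpr hk)]
  have e := mul_le_mul_of_nonneg_left hsum (inv_pos.mpr hk).le
  rw [← mul_assoc, inv_mul_cancel₀ hk.ne', one_mul] at e
  exact e

end Pool.Agent.Lib.MP_355270_an.CB
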