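import Pool.Agent.Lib.MP_355270_an.CB.StmU

open Filter Topology
open scoped ENNReal

namespace Pool.Agent.Lib.MP_355270_an.CB

open BP in
theorem p_Uav : S_Uav := by
  intro P B n
  have hcard : ((Fintype.card P.I : ℕ) : ℝ) = P.k := by simp
  unfold av
  rw [hcard]
  have e1 : ∀ a : P.I, P.Xi a (B (P.vv n a)) = ∑ n', hd (B (P.vv n a)) n' a + P.Dv.F a (vp (B (P.vv n a))) := by
    intro a
    rw [Xi_apply]
    congr 1
    unfold sig
    apply Finset.sum_congr _ fun _ _ => rfl
    ext l
    simp [Fin.le_last]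
  rw [Finset.sum_congr rfl fun a _ => e1 a, Finset.sum_add_distrib, mul_add, Finset.sum_comm, Finset.mul_sum, one_div]
  congr 1
  apply Finset.sum_congr rfl
  intro n' _
  unfold BP.tr BP.MB
  rw [one_div]

end Pool.Agent.Lib.MP_355270_an.CB
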