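import Pool.Agent.Lib.MP_355270_an.CB.StmU

open Filter Topology
open scoped ENNReal

namespace Pool.Agent.Lib.MP_355270_an.CB

open BP in
theorem p_Ucomp (h1 : S_Uequiv) : S_Ucomp := by
  intro P
  obtain ⟨c, C, hc, hC, hlo, hhi⟩ := h1 P
  let f : (Fin (P.N + 1) → P.I → ℝ) × P.Dv.V → P.UT := fun p => el p.1 p.2
  have hd1 : ∀ p q, f p - f q = el (p - q).1 (p - q).2 := fun p q => rfl
  have hL : LipschitzWith C.toNNReal f := by
    apply LipschitzWith.of_dist_le_mul
    intro p q
    rw [dist_eq_norm, dist_eq_norm, Real.coe_toNNReal C hC.le, hd1]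
    exact hhi (el (p - q).1 (p - q).2)
  have hA : AntilipschitzWith (1 / c).toNNReal f := by
    apply AntilipschitzWith.of_le_mul_dist
    intro p q
    rw [dist_eq_norm, dist_eq_norm, Real.coe_toNNReal (1 / c) (by positivity), hd1]
    have := hlo (el (p - q).1 (p - q).2)
    rw [one_div, ← div_eq_inv_mul, le_div_iff₀ hc, mul_comm]
    exact this
  have hr : Set.range f = Set.univ := by
    ext u
    simp only [Set.mem_range, Set.mem_univ, iff_true]
    exact ⟨(hd u, vp u), rfl⟩
  rw [completeSpace_iff_isComplete_univ, ← hr]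
  exact hA.isComplete_range hL.uniformContinuous

end Pool.Agent.Lib.MP_355270_an.CB
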