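import Pool.Agent.Lib.MP_355270_an.CB.StmU

open Filter Topology
open scoped ENNReal

namespace Pool.Agent.Lib.MP_355270_an.CB

open BP

theorem Uequiv_Sw (κ : ℕ) (x : (Fin κ → Bool) → ℝ) (M : ℝ)
    (h : ∀ b, |(Sw κ).mulVec x b| ≤ M) (a : Fin κ → Bool) :
    |x a| ≤ (Fintype.card (Fin κ → Bool) : ℝ) * M := by
  have hM : 0 ≤ M := (abs_nonneg _).trans (h a)
  have h1 : x a = ∑ b, Sw κ a b * (Sw κ).mulVec x b := by
    have := congrFun (Sw_mulVec_mulVec κ x) a
    rw [← this]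
    rfl
  rw [h1]
  refine (Finset.abs_sum_le_sum_abs _ _).trans ?_
  have h2 : ∀ b, |Sw κ a b * (Sw κ).mulVec x b| ≤ M := by
    intro b
    rw [abs_mul, abs_Sw]
    have h3 : 1 / Real.sqrt (2 ^ κ) ≤ 1 := by
      rw [div_le_one (by positivity)]
      rw [Real.one_le_sqrt]
      exact one_le_pow₀ (by norm_num)
    calc 1 / Real.sqrt (2 ^ κ) * |(Sw κ).mulVec x b| ≤ 1 * M :=
          mul_le_mul h3 (h b) (abs_nonneg _) zero_le_one
      _ = M := one_mul M
  refine (Finset.sum_le_sum fun b _ => h2 b).trans (le_of_eq ?_)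
  rw [Finset.sum_const, Finset.card_univ, nsmul_eq_mul]

theorem p_Uequiv (h1 : S_UiV) : S_Uequiv := by
  intro P
  obtain ⟨iV, hiV, hiV1⟩ := h1 P
  let L : (Fin (P.N + 1) → P.I → ℝ) →ₗ[ℝ] P.UT :=
    { toFun := fun x => el x 0
      map_add' := fun y z => BP.ext (by simp) (by simp)
      map_smul' := fun c y => BP.ext (by simp) (by simp) }
  let L' := LinearMap.toContinuousLinearMap L
  have hρ := P.hρ
  set K : ℝ := (Fintype.card P.I : ℝ) with hK
  have hK0 : 0 ≤ K := by positivity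
  have hpos : 0 < K + 1 / P.ρ := by positivity
  refine ⟨(K + 1 / P.ρ)⁻¹, ‖L'‖ + 1, inv_pos.2 hpos, by positivity, ?_, ?_⟩
  · intro u
    rw [inv_mul_le_iff₀ hpos, Prod.norm_def]
    refine max_le ?_ ?_
    · have hle : K * ‖u‖ ≤ (K + 1 / P.ρ) * ‖u‖ :=
        mul_le_mul_of_nonneg_right (by have : 0 ≤ 1 / P.ρ := by positivity
                                       linarith) (norm_nonneg _)
      refine le_trans ?_ hle
      have h0 : 0 ≤ K * ‖u‖ := by positivity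
      rw [pi_norm_le_iff_of_nonneg h0]
      intro n
      rw [pi_norm_le_iff_of_nonneg h0]
      intro a
      rw [Real.norm_eq_abs]
      refine Uequiv_Sw P.κ (hd u n) ‖u‖ ?_ a
      intro b
      have h2 := abs_co_le u ((2 : Fin 3), n, b)
      simpa [co] using h2
    · have h2 := norm_vp_le u
      have h3 : ‖vp u‖ ≤ 1 / P.ρ * ‖u‖ := by
        rw [one_div, ← div_eq_inv_mul, le_div_iff₀ hρ, mul_comm]
        exact h2
      refine h3.trans ?_
      exact mul_le_mul_of_nonneg_right (by linarith) (norm_nonneg _)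
  · intro u
    have e : u = L' (hd u) + iV (vp u) := by
      rw [hiV]
      show u = el (hd u) 0 + el 0 (vp u)
      exact BP.ext (by simp) (by simp)
    have h2 : ‖L' (hd u)‖ ≤ ‖L'‖ * ‖(hd u, vp u)‖ :=
      (L'.le_opNorm _).trans (mul_le_mul_of_nonneg_left (norm_fst_le (hd u, vp u)) (norm_nonneg _))
    have h3 : ‖iV (vp u)‖ ≤ 1 * ‖(hd u, vp u)‖ :=
      (iV.le_opNorm _).trans (mul_le_mul hiV1 (norm_snd_le (hd u, vp u)) (norm_nonneg _) zero_le_one)
    calc ‖u‖ = ‖L' (hd u) + iV (vp u)‖ := by rw [← e]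
      _ ≤ ‖L' (hd u)‖ + ‖iV (vp u)‖ := norm_add_le _ _
      _ ≤ ‖L'‖ * ‖(hd u, vp u)‖ + 1 * ‖(hd u, vp u)‖ := add_le_add h2 h3
      _ = (‖L'‖ + 1) * ‖(hd u, vp u)‖ := by ring

end Pool.Agent.Lib.MP_355270_an.CB
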