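import Pool.Agent.Lib.MP_355270_an.CB.StmU

open Filter Topology
open scoped ENNReal

namespace Pool.Agent.Lib.MP_355270_an.CB

open BP

theorem UiV_sum {ι : Type} [Fintype ι] (x : ι → ℝ) (M s : ℝ) (hM : 0 ≤ M) (hs : 2 < s)
    (h : ∑ a, x a ^ 2 ≤ M ^ 2) : ∑ a, |x a| ^ s ≤ M ^ s := by
  have h1 : ∀ a, |x a| ≤ M := by
    intro a
    have h2 : x a ^ 2 ≤ ∑ a, x a ^ 2 :=
      Finset.single_le_sum (f := fun a => x a ^ 2) (fun _ _ => sq_nonneg _) (Finset.mem_univ a)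
    exact abs_le_of_sq_le_sq (h2.trans h) hM
  have key : ∀ t : ℝ, 0 ≤ t → t ^ s = t ^ (s - 2) * t ^ 2 := by
    intro t ht
    have e : s = (s - 2) + 2 := by ring
    nth_rewrite 1 [e]
    rw [Real.rpow_add' ht (by rw [← e]; linarith)]
    congr 1
    exact Real.rpow_natCast t 2
  have h3 : ∀ a, |x a| ^ s ≤ M ^ (s - 2) * x a ^ 2 := by
    intro a
    rw [key _ (abs_nonneg _), sq_abs]
    exact mul_le_mul_of_nonneg_right
      (Real.rpow_le_rpow (abs_nonneg _) (h1 a) (by linarith)) (sq_nonneg _)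
  calc ∑ a, |x a| ^ s ≤ ∑ a, M ^ (s - 2) * x a ^ 2 := Finset.sum_le_sum fun a _ => h3 a
    _ = M ^ (s - 2) * ∑ a, x a ^ 2 := by rw [Finset.mul_sum]
    _ ≤ M ^ (s - 2) * M ^ 2 := mul_le_mul_of_nonneg_left h (Real.rpow_nonneg hM _)
    _ = M ^ s := (key M hM).symm

theorem UiV_norm (h1 : S_UAs) (P : BP) (y : P.Dv.V) : ‖(el 0 y : P.UT)‖ ≤ ‖y‖ := by
  have hs := P.hs3
  have hs0 : 0 < P.s := s_pos
  have hAs : As (el 0 y : P.UT) ≤ ‖y‖ ^ P.s := by
    rw [h1 P (el 0 y)]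
    have e0 : ∀ n a, sig (hd (el 0 y : P.UT)) n a = 0 := by
      intro n a
      simp [sig]
    have e1 : ∀ n, hd (el 0 y : P.UT) n = 0 := fun n => rfl
    simp only [e0, e1, Matrix.mulVec_zero, Pi.zero_apply, abs_zero, zero_add, vp_el]
    rw [Real.zero_rpow hs0.ne']
    simp only [Finset.sum_const_zero, mul_zero, add_zero]
    exact UiV_sum _ _ _ (norm_nonneg _) (by linarith) (P.Dv.hF2 y)
  rw [norm_eq, vp_el]
  refine max_le ?_ ?_
  · have h2 := Real.rpow_le_rpow (As_nonneg _) hAs (by positivity : 0 ≤ 1 / P.s)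
    rwa [← Real.rpow_mul (norm_nonneg _), mul_one_div_cancel hs0.ne', Real.rpow_one] at h2
  · exact mul_le_of_le_one_left (norm_nonneg _) P.hρ1

theorem p_UiV (h1 : S_UAs) : S_UiV := by
  intro P
  refine ⟨LinearMap.mkContinuous
    { toFun := fun y => (el 0 y : P.UT)
      map_add' := fun y z => BP.ext (by simp) (by simp)
      map_smul' := fun c y => BP.ext (by simp) (by simp) } 1
    (fun y => by rw [one_mul]; exact UiV_norm h1 P y), fun y => rfl, ?_⟩
  exact LinearMap.mkContinuous_norm_le _ zero_le_one _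

end Pool.Agent.Lib.MP_355270_an.CB
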