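import Pool.Agent.Lib.MP_355270_an.CB.StmU

open Filter Topology
open scoped ENNReal

namespace Pool.Agent.Lib.MP_355270_an.CB

open BP

private theorem Ulam_sig (P : BP) (w : P.UT) (hw : vp w = 0) (m : Fin (P.N + 1)) (b : P.I) :
    |sig (hd w) m b| ≤ P.N * ‖w‖ := by
  have hN : (1 : ℝ) ≤ P.N := by exact_mod_cast P.hN
  have hw0 : 0 ≤ ‖w‖ := norm_nonneg w
  have h := abs_co_le w ((0 : Fin 3), m, b)
  by_cases hm : m = Fin.last P.N
  · have e : co w ((0 : Fin 3), m, b) = sig (hd w) m b := by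
      simp only [co, if_true, hm, hw, map_zero, add_zero]
    rw [e] at h
    nlinarith
  · have e : co w ((0 : Fin 3), m, b) = (1 / (P.N : ℝ)) ^ (1 / P.s) * sig (hd w) m b := by
      simp only [co, if_true, hm, if_false]
    rw [e, abs_mul] at h
    have hs : 1 / P.s ≤ 1 := by
      rw [div_le_one s_pos]
      linarith [P.hs3]
    have hpow : 1 / (P.N : ℝ) ≤ (1 / (P.N : ℝ)) ^ (1 / P.s) := by
      have h1 : (1 / (P.N : ℝ)) ^ (1 : ℝ) ≤ (1 / (P.N : ℝ)) ^ (1 / P.s) :=
        Real.rpow_le_rpow_of_exponent_ge (by positivity)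
          (by rw [div_le_one (by linarith)]; exact hN) hs
      rwa [Real.rpow_one] at h1
    have hpos : 0 ≤ (1 / (P.N : ℝ)) ^ (1 / P.s) := Real.rpow_nonneg (by positivity) _
    rw [abs_of_nonneg hpos] at h
    have h2 : 1 / (P.N : ℝ) * |sig (hd w) m b| ≤ ‖w‖ :=
      (mul_le_mul_of_nonneg_right hpow (abs_nonneg _)).trans h
    have hN0 : (0 : ℝ) < P.N := by linarith
    calc |sig (hd w) m b| = P.N * (1 / (P.N : ℝ) * |sig (hd w) m b|) := by
          field_simp
      _ ≤ P.N * ‖w‖ := mul_le_mul_of_nonneg_left h2 hN0.le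

private theorem Ulam_diff (P : BP) (x : Fin (P.N + 1) → P.I → ℝ) (b : P.I) (C : ℝ)
    (hC : ∀ m, |sig x m b| ≤ C) (n : Fin (P.N + 1)) : |x n b| ≤ 2 * C := by
  have hC0 : 0 ≤ C := (abs_nonneg _).trans (hC 0)
  induction n using Fin.cases with
  | zero =>
    have e : sig x 0 b = x 0 b := by
      unfold sig
      have : Finset.univ.filter (fun l : Fin (P.N + 1) => l ≤ 0) = {0} := by
        ext l
        simp
      rw [this, Finset.sum_singleton]
    have := hC 0
    rw [e] at this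
    linarith
  | succ m =>
    have e : sig x m.succ b = x m.succ b + sig x m.castSucc b := by
      unfold sig
      have : Finset.univ.filter (fun l : Fin (P.N + 1) => l ≤ m.succ) =
          insert m.succ (Finset.univ.filter (fun l : Fin (P.N + 1) => l ≤ m.castSucc)) := by
        ext l
        simp only [Finset.mem_filter, Finset.mem_univ, true_and, Finset.mem_insert,
          Fin.le_iff_val_le_val, Fin.ext_iff, Fin.val_succ, Fin.val_castSucc]
        omega
      rw [this, Finset.sum_insert]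
      simp only [Finset.mem_filter, Finset.mem_univ, true_and, Fin.le_iff_val_le_val,
        Fin.val_succ, Fin.val_castSucc]
      omega
    have h1 := hC m.succ
    have h2 := hC m.castSucc
    rw [e] at h1
    rw [abs_le] at h1 h2 ⊢
    constructor <;> linarith

theorem p_Ulam (h1 : S_UpH) (h2 : S_Uv) : S_Ulam := by
  intro P B n n' hB
  have hN : (1 : ℝ) ≤ P.N := by exact_mod_cast P.hN
  have hρ := P.hρ
  have hρ2 : 0 < 1 / P.ρ := by positivity
  obtain ⟨⟨pH, hpH, hpHn⟩, -⟩ := h1 P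
  have hent : ∀ a, |P.MB B n' n a a| ≤ P.C1 := by
    intro a
    have hv := (h2 P).1 n a
    have hBv : ‖B (P.vv n a)‖ ≤ 2 := by
      calc ‖B (P.vv n a)‖ ≤ ‖B‖ * ‖P.vv n a‖ := B.le_opNorm _
        _ ≤ 1 * 2 := mul_le_mul hB hv (norm_nonneg _) zero_le_one
        _ = 2 := one_mul _
    set w : P.UT := el (hd (B (P.vv n a))) 0 with hw
    have hwn : ‖w‖ ≤ (1 + 1 / P.ρ) * 2 := by
      have e : (pH (B (P.vv n a)) : P.UT) = w := hpH _
      rw [← e]
      calc ‖(pH (B (P.vv n a)) : P.UT)‖ = ‖pH (B (P.vv n a))‖ := rfl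
        _ ≤ ‖pH‖ * ‖B (P.vv n a)‖ := pH.le_opNorm _
        _ ≤ (1 + 1 / P.ρ) * 2 := mul_le_mul hpHn hBv (norm_nonneg _) (by linarith)
    have hs : ∀ m, |sig (hd w) m a| ≤ P.N * ((1 + 1 / P.ρ) * 2) := fun m =>
      (Ulam_sig P w (vp_el _ _) m a).trans (mul_le_mul_of_nonneg_left hwn (by linarith))
    have h3 := Ulam_diff P (hd w) a _ hs n'
    have e : hd w n' a = P.MB B n' n a a := rfl
    rw [e] at h3
    refine h3.trans (le_of_eq ?_)
    unfold C1
    ring
  unfold tr
  have hk : (0 : ℝ) < P.k := by positivity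
  rw [abs_mul, abs_of_pos (by positivity : (0 : ℝ) < 1 / P.k)]
  have hcard : (Fintype.card P.I : ℝ) = P.k := by
    simp
  have hsum : |∑ a, P.MB B n' n a a| ≤ P.k * P.C1 := by
    refine (Finset.abs_sum_le_sum_abs _ _).trans ?_
    have := Finset.sum_le_card_nsmul Finset.univ (fun a => |P.MB B n' n a a|) P.C1
      (fun a _ => hent a)
    rw [Finset.card_univ, nsmul_eq_mul, hcard] at this
    exact this
  calc 1 / P.k * |∑ a, P.MB B n' n a a| ≤ 1 / P.k * (P.k * P.C1) :=
        mul_le_mul_of_nonneg_left hsum (by positivity)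
    _ = P.C1 := by field_simp

end Pool.Agent.Lib.MP_355270_an.CB
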