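import Pool.Agent.Lib.MP_355270_an.CB.StmU

open Filter Topology
open scoped ENNReal

namespace Pool.Agent.Lib.MP_355270_an.CB

theorem p_UpH (h1 : S_UiV) : S_UpH := by
  intro P
  obtain ⟨iV, hiV, hn⟩ := h1 P
  have hρ := P.hρ
  have hvp : ∀ u : P.UT, ‖BP.vp u‖ ≤ 1 / P.ρ * ‖u‖ := by
    intro u
    have h := BP.norm_vp_le u
    rw [one_div, ← div_eq_inv_mul, le_div_iff₀ hρ]
    linarith [mul_comm P.ρ ‖BP.vp u‖]
  have hel : ∀ u : P.UT, ‖(BP.el (BP.hd u) 0 : P.UT)‖ ≤ (1 + 1 / P.ρ) * ‖u‖ := by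
    intro u
    have e : (BP.el (BP.hd u) 0 : P.UT) = u - iV (BP.vp u) := by
      rw [hiV]
      exact BP.ext (by simp) (by simp)
    have h2 : ‖iV (BP.vp u)‖ ≤ 1 * ‖BP.vp u‖ := iV.le_of_opNorm_le hn _
    have h3 := norm_sub_le u (iV (BP.vp u))
    have h4 := hvp u
    rw [e, add_mul, one_mul]
    linarith
  refine ⟨⟨LinearMap.mkContinuous
    { toFun := fun u => (⟨BP.el (BP.hd u) 0, rfl⟩ : P.Hd)
      map_add' := fun u v => Subtype.ext (BP.ext rfl (by
        show (0 : P.Dv.V) = 0 + 0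
        rw [add_zero]))
      map_smul' := fun c u => Subtype.ext (BP.ext rfl (by
        show (0 : P.Dv.V) = c • 0
        rw [smul_zero])) } (1 + 1 / P.ρ) fun u => hel u, fun _ => rfl,
    LinearMap.mkContinuous_norm_le _ (by positivity) _⟩,
    ⟨LinearMap.mkContinuous
      { toFun := fun u => BP.vp u
        map_add' := fun _ _ => rfl
        map_smul' := fun _ _ => rfl } (1 / P.ρ) hvp, fun _ => rfl,
    LinearMap.mkContinuous_norm_le _ (by positivity) _⟩⟩

end Pool.Agent.Lib.MP_355270_an.CB
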