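import Pool.Agent.Lib.MP_355270_an.CB.StmU

open Filter Topology
open scoped ENNReal

namespace Pool.Agent.Lib.MP_355270_an.CB

open BP

theorem Uprod_hd_sum {P : BP} {J : Type} (s : Finset J) (f : J → P.UT) :
    hd (∑ j ∈ s, f j) = ∑ j ∈ s, hd (f j) := by
  classical
  induction s using Finset.induction_on with
  | empty => simp
  | insert j s hj ih => rw [Finset.sum_insert hj, Finset.sum_insert hj, hd_add, ih]

theorem Uprod_hd_vv {P : BP} (n' : Fin (P.N + 1)) (b : P.I) :
    hd (P.vv n' b : P.UT) = Pi.single n' (Pi.single b 1) := by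
  have h : (⟨min (n' : ℕ) P.N, by omega⟩ : Fin (P.N + 1)) = n' := by
    apply Fin.ext
    show min (n' : ℕ) P.N = n'
    have := n'.2
    omega
  have h2 : hd (P.vv n' b : P.UT) =
      Pi.single (⟨min (n' : ℕ) P.N, by omega⟩ : Fin (P.N + 1)) (Pi.single b (1 : ℝ)) := rfl
  rw [h2, h]

theorem Uprod_decomp {P : BP} (u : P.Hd) :
    u = ∑ n' : Fin (P.N + 1), ∑ b : P.I, hd (u : P.UT) n' b • P.vv n' b := by
  apply Subtype.ext
  refine BP.ext ?_ ?_
  · rw [Submodule.coe_sum, Uprod_hd_sum]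
    funext m c
    rw [Finset.sum_apply, Finset.sum_apply]
    rw [Finset.sum_eq_single m]
    · rw [Submodule.coe_sum, Uprod_hd_sum, Finset.sum_apply, Finset.sum_apply,
        Finset.sum_eq_single c]
      · rw [Submodule.coe_smul, hd_smul, Uprod_hd_vv]
        simp
      · intro b _ hb
        rw [Submodule.coe_smul, hd_smul, Uprod_hd_vv]
        simp [hb.symm]
      · intro h
        exact absurd (Finset.mem_univ c) h
    · intro n' _ hn'
      rw [Submodule.coe_sum, Uprod_hd_sum, Finset.sum_apply, Finset.sum_apply]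
      refine Finset.sum_eq_zero fun b _ => ?_
      rw [Submodule.coe_smul, hd_smul, Uprod_hd_vv]
      simp [hn'.symm]
    · intro h
      exact absurd (Finset.mem_univ m) h
  · have h1 : vp (u : P.UT) = 0 := u.2
    rw [h1]
    exact (∑ n' : Fin (P.N + 1), ∑ b : P.I, hd (u : P.UT) n' b • P.vv n' b).2.symm

theorem Uprod_MB (P : BP) (A : P.Hd →L[ℝ] P.UT) (B0 : P.Hd →L[ℝ] P.Hd) (n n'' : Fin (P.N + 1)) :
    P.MB (A.comp B0) n'' n = ∑ n', P.MB A n'' n' * P.MB (P.Hd.subtypeL.comp B0) n' n := by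
  ext c a
  rw [Matrix.sum_apply]
  have h := Uprod_decomp (B0 (P.vv n a))
  show hd (A (B0 (P.vv n a))) n'' c = _
  rw [h]
  simp only [map_sum, map_smul, Uprod_hd_sum, Finset.sum_apply, hd_smul, Pi.smul_apply, smul_eq_mul]
  refine Finset.sum_congr rfl fun n' _ => ?_
  rw [Matrix.mul_apply]
  refine Finset.sum_congr rfl fun b _ => ?_
  rw [mul_comm]
  rfl

theorem p_Uprod (h1 : S_Uav) : S_Uprod := by
  intro P A B0 n
  have h := h1 P (A.comp B0) n
  have e : ∀ n'', P.tr (P.MB (A.comp B0) n'' n) =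
      ∑ n', P.tr (P.MB A n'' n' * P.MB (P.Hd.subtypeL.comp B0) n' n) := by
    intro n''
    rw [Uprod_MB]
    unfold BP.tr
    rw [← Finset.mul_sum]
    congr 1
    rw [Finset.sum_comm]
    refine Finset.sum_congr rfl fun a _ => ?_
    rw [Matrix.sum_apply]
  rw [Finset.sum_congr rfl fun n'' _ => e n''] at h
  exact h

end Pool.Agent.Lib.MP_355270_an.CB
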