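import Pool.Agent.Lib.MP_355270_an.CB.StmU

open Filter Topology
open scoped ENNReal

namespace Pool.Agent.Lib.MP_355270_an.CB

private lemma p_Utr_nonneg {I : Type} [Fintype I] [DecidableEq I] (M : Matrix I I ℝ) : 0 ≤ HS2 M :=
  Finset.sum_nonneg fun _ _ => Finset.sum_nonneg fun _ _ => sq_nonneg _

private lemma p_Utr_sq {x A B : ℝ} (hA : 0 ≤ A) (hB : 0 ≤ B) (h : x ^ 2 ≤ A * B) :
    |x| ≤ A ^ (1 / 2 : ℝ) * B ^ (1 / 2 : ℝ) := by
  rw [← Real.sqrt_eq_rpow, ← Real.sqrt_eq_rpow, ← Real.sqrt_mul hA]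
  exact Real.abs_le_sqrt h

theorem p_Utr : S_Utr := by
  intro P M M'
  have hk : (0 : ℝ) < P.k := by positivity
  have hcard : ((Fintype.card P.I : ℕ) : ℝ) = P.k := by simp
  constructor
  · have h1 : (P.tr M) ^ 2 ≤ (HS2 M / P.k) * 1 := by
      unfold BP.tr
      have h2 : (∑ a, M a a) ^ 2 ≤ P.k * HS2 M := by
        have h3 := Finset.sum_mul_sq_le_sq_mul_sq Finset.univ (fun _ : P.I => (1 : ℝ)) (fun a => M a a)
        simp only [one_mul, one_pow, Finset.sum_const, Finset.card_univ, nsmul_eq_mul, mul_one] at h3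
        rw [hcard] at h3
        refine h3.trans (mul_le_mul_of_nonneg_left ?_ hk.le)
        unfold HS2
        apply Finset.sum_le_sum
        intro a _
        exact Finset.single_le_sum (f := fun b => M a b ^ 2) (fun _ _ => sq_nonneg _) (Finset.mem_univ a)
      calc (1 / P.k * ∑ a, M a a) ^ 2 = (∑ a, M a a) ^ 2 / P.k ^ 2 := by ring
        _ ≤ (P.k * HS2 M) / P.k ^ 2 := by gcongr
        _ = HS2 M / P.k * 1 := by field_simp
    have := p_Utr_sq (div_nonneg (p_Utr_nonneg M) hk.le) zero_le_one h1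
    simpa using this
  · have h1 : (P.tr (M * M')) ^ 2 ≤ (HS2 M / P.k) * (HS2 M' / P.k) := by
      unfold BP.tr
      have e1 : ∑ a, (M * M') a a = ∑ p : P.I × P.I, M p.1 p.2 * M' p.2 p.1 := by
        rw [Fintype.sum_prod_type]
        rfl
      have e2 : ∑ p : P.I × P.I, M p.1 p.2 ^ 2 = HS2 M := by
        rw [Fintype.sum_prod_type]; rfl
      have e3 : ∑ p : P.I × P.I, M' p.2 p.1 ^ 2 = HS2 M' := by
        rw [Fintype.sum_prod_type_right]; rfl
      have h2 : (∑ a, (M * M') a a) ^ 2 ≤ HS2 M * HS2 M' := by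
        rw [e1, ← e2, ← e3]
        exact Finset.sum_mul_sq_le_sq_mul_sq Finset.univ _ _
      calc (1 / P.k * ∑ a, (M * M') a a) ^ 2 = (∑ a, (M * M') a a) ^ 2 / P.k ^ 2 := by ring
        _ ≤ (HS2 M * HS2 M') / P.k ^ 2 := by gcongr
        _ = HS2 M / P.k * (HS2 M' / P.k) := by field_simp
    exact p_Utr_sq (div_nonneg (p_Utr_nonneg M) hk.le) (div_nonneg (p_Utr_nonneg M') hk.le) h1

end Pool.Agent.Lib.MP_355270_an.CB
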