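import Pool.Agent.Lib.MP_355270_an.CB.StmU

open Filter Topology
open scoped ENNReal

namespace Pool.Agent.Lib.MP_355270_an.CB

open BP

theorem Uv_col (P : BP) (M : Matrix P.I P.I ℝ)
    (hM : ∀ b a, |M b a| = 1 / Real.sqrt ((2 : ℝ) ^ P.κ)) (a : P.I) :
    ∑ b, |M.mulVec (Pi.single a 1) b| ^ P.s = P.k ^ (1 - P.s / 2) := by
  have hk : (0 : ℝ) < P.k := by positivity
  have h : ∀ b, |M.mulVec (Pi.single a 1) b| ^ P.s = P.k ^ (-(P.s / 2)) := by
    intro b
    rw [Matrix.mulVec_single_one]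
    show |M b a| ^ P.s = _
    rw [hM, Real.sqrt_eq_rpow, one_div, ← Real.rpow_neg hk.le, ← Real.rpow_mul hk.le]
    congr 1
    ring
  rw [Finset.sum_congr rfl fun b _ => h b, Finset.sum_const, Finset.card_univ, nsmul_eq_mul]
  have h2 : (Fintype.card P.I : ℝ) = P.k := by simp
  rw [h2, sub_eq_add_neg, Real.rpow_add hk, Real.rpow_one]

theorem Uv_Gm (P : BP) (n : Fin (P.N + 1)) (b a : P.I) :
    |Gm (P.g n) b a| = 1 / Real.sqrt ((2 : ℝ) ^ P.κ) := by
  unfold Gm
  rw [abs_div, abs_sg, abs_of_nonneg (Real.sqrt_nonneg _)]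
  simp

theorem Uv_zero (P : BP) : |(0 : ℝ)| ^ P.s = 0 := by
  rw [abs_zero, Real.zero_rpow (s_pos (P := P)).ne']

theorem Uv_sig (P : BP) (l m : Fin (P.N + 1)) (w : P.I → ℝ) (b : P.I) :
    sig (P := P) (Pi.single l w) m b = if l ≤ m then w b else 0 := by
  unfold sig
  split_ifs with h
  · rw [Finset.sum_eq_single l]
    · rw [Pi.single_eq_same]
    · intro l' _ hl'
      rw [Pi.single_eq_of_ne hl']
      rfl
    · intro h'
      exact absurd (by simpa using h) h'
  · refine Finset.sum_eq_zero fun l' hl' => ?_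
    rw [Finset.mem_filter] at hl'
    have hne : l' ≠ l := by
      rintro rfl
      exact h hl'.2
    rw [Pi.single_eq_of_ne hne]
    rfl

theorem Uv_delta (P : BP) (a : P.I) : ∑ b, |(Pi.single a 1 : P.I → ℝ) b| ^ P.s = 1 := by
  rw [Finset.sum_eq_single a]
  · rw [Pi.single_eq_same, abs_one, Real.one_rpow]
  · intro b _ hb
    rw [Pi.single_eq_of_ne hb, Uv_zero]
  · intro h
    exact absurd (Finset.mem_univ a) h

theorem Uv_lvl (P : BP) (M : Fin (P.N + 1) → Matrix P.I P.I ℝ)
    (hM : ∀ n b a, |M n b a| = 1 / Real.sqrt ((2 : ℝ) ^ P.κ)) (l : Fin (P.N + 1)) (a : P.I) :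
    ∑ n, ∑ b, |(M n).mulVec ((Pi.single l (Pi.single a 1) : Fin (P.N + 1) → P.I → ℝ) n) b| ^ P.s
      = P.k ^ (1 - P.s / 2) := by
  rw [Finset.sum_eq_single l]
  · rw [Pi.single_eq_same]
    exact Uv_col P (M l) (hM l) a
  · intro n _ hn
    rw [Pi.single_eq_of_ne hn, Matrix.mulVec_zero]
    exact Finset.sum_eq_zero fun b _ => Uv_zero P
  · intro h
    exact absurd (Finset.mem_univ l) h

theorem Uv_lvl2 (P : BP) (M : Fin (P.N + 1) → Matrix P.I P.I ℝ)
    (hM : ∀ n b a, |M n b a| = 1 / Real.sqrt ((2 : ℝ) ^ P.κ)) (l l' : Fin (P.N + 1))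
    (hl : l ≠ l') (a : P.I) :
    ∑ n, ∑ b, |(M n).mulVec ((Pi.single l (Pi.single a 1) - Pi.single l' (Pi.single a 1) :
      Fin (P.N + 1) → P.I → ℝ) n) b| ^ P.s = 2 * P.k ^ (1 - P.s / 2) := by
  have h : ∀ n, ∑ b, |(M n).mulVec ((Pi.single l (Pi.single a 1) - Pi.single l' (Pi.single a 1) :
      Fin (P.N + 1) → P.I → ℝ) n) b| ^ P.s =
      ∑ b, |(M n).mulVec ((Pi.single l (Pi.single a 1) : Fin (P.N + 1) → P.I → ℝ) n) b| ^ P.s +
      ∑ b, |(M n).mulVec ((Pi.single l' (Pi.single a 1) : Fin (P.N + 1) → P.I → ℝ) n) b| ^ P.s := by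
    intro n
    by_cases h1 : n = l
    · subst h1
      rw [Pi.sub_apply, Pi.single_eq_of_ne hl, sub_zero, Matrix.mulVec_zero]
      have : ∑ b : P.I, |(0 : P.I → ℝ) b| ^ P.s = 0 := Finset.sum_eq_zero fun b _ => Uv_zero P
      rw [this, add_zero]
    · rw [Pi.sub_apply, Pi.single_eq_of_ne h1, zero_sub, Matrix.mulVec_zero]
      have : ∑ b : P.I, |(0 : P.I → ℝ) b| ^ P.s = 0 := Finset.sum_eq_zero fun b _ => Uv_zero P
      rw [this, zero_add]
      refine Finset.sum_congr rfl fun b _ => ?_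
      rw [Matrix.mulVec_neg, Pi.neg_apply, abs_neg]
  rw [Finset.sum_congr rfl fun n _ => h n, Finset.sum_add_distrib, Uv_lvl P M hM, Uv_lvl P M hM]
  ring

theorem Uv_k (P : BP) : P.k ^ (1 - P.s / 2) ≤ 1 := by
  have h1 : (1 : ℝ) ≤ P.k := one_le_pow₀ (by norm_num)
  exact Real.rpow_le_one_of_one_le_of_nonpos h1 (by linarith [P.hs3])

theorem Uv_norm (P : BP) (u : P.UT) (hu : vp u = 0) (c : ℝ) (hc : 0 ≤ c) (h : As u ≤ c) :
    ‖u‖ ≤ c ^ (1 / P.s) := by
  rw [norm_eq, hu, norm_zero, mul_zero]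
  refine max_le ?_ (Real.rpow_nonneg hc _)
  exact Real.rpow_le_rpow (As_nonneg u) h (by have := s_pos (P := P); positivity)

theorem Uv_hd (P : BP) (n : ℕ) (a : P.I) : hd (P.vv n a : P.UT) =
    Pi.single (⟨min n P.N, by omega⟩ : Fin (P.N + 1)) (Pi.single a 1) := rfl

theorem Uv_vp (P : BP) (n : ℕ) (a : P.I) : vp (P.vv n a : P.UT) = 0 := rfl

theorem p_Uv (h1 : S_UAs) : S_Uv := by
  intro P
  have hs := s_pos (P := P)
  have hN : (0 : ℝ) < P.N := by
    have := P.hN
    exact_mod_cast this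
  have hK : 0 ≤ P.k ^ (1 - P.s / 2) := Real.rpow_nonneg (by positivity) _
  refine ⟨?_, ?_, ?_⟩
  · intro n a
    have h2 : As (P.vv n a : P.UT) ≤ 4 := by
      rw [h1 P, Uv_hd, Uv_vp]
      rw [Uv_lvl P (fun n => Gm (P.g n)) (Uv_Gm P), Uv_lvl P (fun _ => Sw P.κ)
        (fun _ b a => abs_Sw P.κ b a)]
      have e1 : ∑ b, |sig (P := P) (Pi.single (⟨min n P.N, by omega⟩ : Fin (P.N + 1))
          (Pi.single a 1)) (Fin.last P.N) b + P.Dv.F b 0| ^ P.s = 1 := by
        refine Eq.trans ?_ (Uv_delta P a)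
        refine Finset.sum_congr rfl fun b _ => ?_
        rw [Uv_sig, if_pos (Fin.le_last _), map_zero, add_zero]
      have e2 : (1 / (P.N : ℝ)) * ∑ m : Fin P.N, ∑ b, |sig (P := P)
          (Pi.single (⟨min n P.N, by omega⟩ : Fin (P.N + 1)) (Pi.single a 1)) m.castSucc b| ^ P.s
          ≤ 1 := by
        have e3 : ∀ m : Fin P.N, ∑ b, |sig (P := P)
            (Pi.single (⟨min n P.N, by omega⟩ : Fin (P.N + 1)) (Pi.single a 1)) m.castSucc b| ^ P.s
            ≤ 1 := by
          intro m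
          refine le_trans ?_ (Uv_delta P a).le
          refine Finset.sum_le_sum fun b _ => ?_
          rw [Uv_sig]
          split_ifs
          · exact le_rfl
          · rw [Uv_zero]
            exact Real.rpow_nonneg (abs_nonneg _) _
        have e4 := Finset.sum_le_sum fun (m : Fin P.N) (_ : m ∈ Finset.univ) => e3 m
        rw [Finset.sum_const, Finset.card_univ, Fintype.card_fin, nsmul_eq_mul, mul_one] at e4
        rw [one_div, inv_mul_le_iff₀ hN, mul_one]
        exact e4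
      rw [e1]
      have := Uv_k P
      linarith
    have h3 := Uv_norm P (P.vv n a : P.UT) (Uv_vp P n a) 4 (by norm_num) h2
    refine h3.trans ?_
    have h4 : (4 : ℝ) ≤ 2 ^ P.s := by
      have h5 : (2 : ℝ) ^ (2 : ℝ) ≤ 2 ^ P.s :=
        Real.rpow_le_rpow_of_exponent_le (by norm_num) (by linarith [P.hs3])
      rw [Real.rpow_two] at h5
      linarith
    calc (4 : ℝ) ^ (1 / P.s) ≤ (2 ^ P.s) ^ (1 / P.s) :=
          Real.rpow_le_rpow (by norm_num) h4 (by positivity)
      _ = 2 := by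
          rw [← Real.rpow_mul (by norm_num), mul_one_div_cancel hs.ne', Real.rpow_one]
  · intro n a hn
    have hv : vp ((P.vv n a : P.UT) - (P.vv (n + 1) a : P.UT)) = 0 := by
      rw [vp_sub, Uv_vp, Uv_vp, sub_zero]
    refine Uv_norm P _ hv _ (by positivity) ?_
    rw [h1 P, hv, hd_sub, Uv_hd, Uv_hd]
    have hne : (⟨min n P.N, by omega⟩ : Fin (P.N + 1)) ≠ ⟨min (n + 1) P.N, by omega⟩ := by
      intro h
      have h2 := congrArg Fin.val h
      simp only at h2
      omega
    rw [Uv_lvl2 P (fun n => Gm (P.g n)) (Uv_Gm P) _ _ hne, Uv_lvl2 P (fun _ => Sw P.κ)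
      (fun _ b a => abs_Sw P.κ b a) _ _ hne]
    have hsg : ∀ (m : Fin (P.N + 1)) (b : P.I), sig (P := P)
        (Pi.single (⟨min n P.N, by omega⟩ : Fin (P.N + 1)) (Pi.single a 1) -
          Pi.single (⟨min (n + 1) P.N, by omega⟩ : Fin (P.N + 1)) (Pi.single a 1)) m b =
        if (m : ℕ) = n then (Pi.single a 1 : P.I → ℝ) b else 0 := by
      intro m b
      have e0 : (Pi.single (⟨min n P.N, by omega⟩ : Fin (P.N + 1)) (Pi.single a 1) -
          Pi.single (⟨min (n + 1) P.N, by omega⟩ : Fin (P.N + 1)) (Pi.single a 1) :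
          Fin (P.N + 1) → P.I → ℝ) = Pi.single (⟨min n P.N, by omega⟩ : Fin (P.N + 1))
          (Pi.single a 1) + (-1 : ℝ) • (Pi.single (⟨min (n + 1) P.N, by omega⟩ : Fin (P.N + 1))
            (Pi.single a 1) : Fin (P.N + 1) → P.I → ℝ) := by
        rw [neg_one_smul, sub_eq_add_neg]
      rw [e0, sig_add, sig_smul, Uv_sig, Uv_sig]
      by_cases h2 : (m : ℕ) = n
      · rw [if_pos h2, if_pos, if_neg]
        · ring
        · rw [Fin.le_def]
          simp only
          omega
        · rw [Fin.le_def]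
          simp only
          omega
      · rw [if_neg h2]
        by_cases h3 : n < (m : ℕ)
        · rw [if_pos, if_pos]
          · ring
          · rw [Fin.le_def]
            simp only
            omega
          · rw [Fin.le_def]
            simp only
            omega
        · rw [if_neg, if_neg]
          · ring
          · rw [Fin.le_def]
            simp only
            omega
          · rw [Fin.le_def]
            simp only
            omega
    have e1 : ∑ b, |sig (P := P)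
        (Pi.single (⟨min n P.N, by omega⟩ : Fin (P.N + 1)) (Pi.single a 1) -
          Pi.single (⟨min (n + 1) P.N, by omega⟩ : Fin (P.N + 1)) (Pi.single a 1))
          (Fin.last P.N) b + P.Dv.F b 0| ^ P.s = 0 := by
      refine Finset.sum_eq_zero fun b _ => ?_
      rw [hsg, if_neg (by rw [Fin.val_last]; omega), map_zero, add_zero, Uv_zero]
    have e2 : ∑ m : Fin P.N, ∑ b, |sig (P := P)
        (Pi.single (⟨min n P.N, by omega⟩ : Fin (P.N + 1)) (Pi.single a 1) -
          Pi.single (⟨min (n + 1) P.N, by omega⟩ : Fin (P.N + 1)) (Pi.single a 1))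
          m.castSucc b| ^ P.s = 1 := by
      rw [Finset.sum_eq_single (⟨n, hn⟩ : Fin P.N)]
      · refine Eq.trans ?_ (Uv_delta P a)
        refine Finset.sum_congr rfl fun b _ => ?_
        rw [hsg, if_pos]
        rfl
      · intro m _ hm
        refine Finset.sum_eq_zero fun b _ => ?_
        rw [hsg, if_neg, Uv_zero]
        intro h
        exact hm (Fin.ext h)
      · intro h
        exact absurd (Finset.mem_univ _) h
    rw [e1, e2]
    linarith
  · intro n a hn
    rw [Xi_apply, Uv_hd, Uv_vp, Uv_sig, if_pos (Fin.le_last _), map_zero, add_zero,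
      Pi.single_eq_same]

end Pool.Agent.Lib.MP_355270_an.CB
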