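import Pool.Agent.Lib.MP_355270_an.CB.StmU

open Filter Topology
open scoped ENNReal

namespace Pool.Agent.Lib.MP_355270_an.CB

theorem p_WG (h1 : S_lpdiag) : S_WG := by
  intro B D hD
  have hT : ∀ m : ℕ, ∀ i, ‖(if i < m then ContinuousLinearMap.id ℝ (B i).U - (B i).D else 0 :
      (B i).U →L[ℝ] (B i).U)‖ ≤ 4 := by
    intro m i
    split_ifs
    · refine (norm_sub_le _ _).trans ?_
      have h1 : ‖ContinuousLinearMap.id ℝ (B i).U‖ ≤ 1 := ContinuousLinearMap.norm_id_le
      have h2 := (B i).hD
      linarith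
    · rw [norm_zero]; norm_num
  choose G hG1 hG2 using fun m : ℕ => h1 (fun i => (B i).U) _ 4 (hT m)
  have hv : ∀ (m : ℕ) (w : WS B) (i : ℕ), G m w i = if i < m then w i - (B i).D (w i) else 0 := by
    intro m w i
    rw [hG1]
    split_ifs
    · rfl
    · rfl
  refine ⟨G, hG2, ?_, ?_, ?_, ?_⟩
  · rintro m j x ⟨hx, hx'⟩
    refine ⟨fun i => ?_, fun i hi => ?_⟩
    · rw [hv]
      split_ifs
      · exact ((B i).E j).sub_mem (hx i) ((B i).hDE j _ (hx i))
      · exact ((B i).E j).zero_mem
    · rw [hv]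
      split_ifs
      · rw [hx' i hi, map_zero, sub_zero]
      · rfl
  · intro m
    refine ⟨m, fun x => ⟨fun i => ?_, fun i hi => ?_⟩⟩
    · rw [hv]
      split_ifs
      · exact (B i).mono (Nat.zero_le m) ((B i).hFE ((B i).hDF _))
      · exact ((B i).E m).zero_mem
    · rw [hv, if_neg (by omega)]
  · intro m x
    apply lp.ext
    funext i
    rw [hD, hv, hv, hD]
    split_ifs
    · rw [map_sub]
    · rw [map_zero]
  · intro w
    have hs := (lp.hasSum_single (E := fun i => (B i).U) (p := 3) (by norm_num) (w - D w)).tendsto_sum_nat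
    refine hs.congr fun m => ?_
    apply lp.ext
    funext k
    rw [hv, lp.coeFn_sum, Finset.sum_apply]
    have e : ∀ i, (lp.single 3 i ((w - D w) i) : WS B) k = if i = k then w k - (B k).D (w k) else 0 := by
      intro i
      by_cases h : i = k
      · subst h
        rw [if_pos rfl, lp.single_apply_self, lp.coeFn_sub, Pi.sub_apply, hD]
      · rw [if_neg h, lp.single_apply_ne _ _ _ (Ne.symm h)]
    rw [Finset.sum_congr rfl fun i _ => e i, Finset.sum_ite_eq']
    simp only [Finset.mem_range]

end Pool.Agent.Lib.MP_355270_an.CB
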