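import Pool.Agent.Lib.MP_355270_an.CB.StmU

open Filter Topology
open scoped ENNReal

namespace Pool.Agent.Lib.MP_355270_an.CB

section Wframes

variable (B : BSeq)

theorem Wframes_pr_in (i : ℕ) (x : (B i).U) : prB B i (inB B i x) = x := by
  show lp.single (E := fun i => (B i).U) 3 i x i = x
  exact lp.single_apply_self (E := fun i => (B i).U) 3 i x

theorem Wframes_in_ne (i : ℕ) (x : (B i).U) {j : ℕ} (h : j ≠ i) :
    (inB B i x : ∀ i, (B i).U) j = 0 := by
  show lp.single (E := fun i => (B i).U) 3 i x j = 0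
  exact lp.single_apply_ne (E := fun i => (B i).U) 3 i x h

theorem Wframes_in_self (i : ℕ) (x : (B i).U) : (inB B i x : ∀ i, (B i).U) i = x :=
  Wframes_pr_in B i x

theorem Wframes_norm_in (i : ℕ) (x : (B i).U) : ‖inB B i x‖ = ‖x‖ := by
  show ‖lp.single (E := fun i => (B i).U) 3 i x‖ = ‖x‖
  exact lp.norm_single (E := fun i => (B i).U) (p := 3) (by norm_num) i x

theorem Wframes_norm_pr_apply (i : ℕ) (w : WS B) : ‖prB B i w‖ ≤ ‖w‖ :=
  lp.norm_apply_le_norm (by norm_num) w i

theorem Wframes_norm_pr (i : ℕ) : ‖prB B i‖ ≤ 1 :=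
  ContinuousLinearMap.opNorm_le_bound _ zero_le_one fun w => by
    rw [one_mul]
    exact Wframes_norm_pr_apply B i w

theorem Wframes_norm_inB (i : ℕ) : ‖inB B i‖ ≤ 1 :=
  ContinuousLinearMap.opNorm_le_bound _ zero_le_one fun w => by
    rw [one_mul, Wframes_norm_in]

/-- the subspace F in the sum -/
noncomputable def WframesF (i : ℕ) : Submodule ℝ (WS B) :=
  (B i).F.map (inB B i).toLinearMap

theorem Wframes_mem (i : ℕ) (x : (B i).F) : inB B i (x : (B i).U) ∈ WframesF B i :=
  ⟨x, x.2, rfl⟩

/-- the embedding of F -/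
noncomputable def WframesJ (i : ℕ) : (B i).F →L[ℝ] WframesF B i :=
  ((inB B i).comp (B i).F.subtypeL).codRestrict (WframesF B i) fun x => Wframes_mem B i x

theorem Wframes_normJ (i : ℕ) : ‖WframesJ B i‖ ≤ 1 :=
  ContinuousLinearMap.opNorm_le_bound _ zero_le_one fun x => by
    rw [one_mul]
    show ‖inB B i (x : (B i).U)‖ ≤ ‖(x : (B i).U)‖
    rw [Wframes_norm_in]

theorem Wframes_ei_nonneg (i : ℕ) : 0 ≤ ei i := by
  unfold ei
  positivity

end Wframes

theorem p_Wframes (h1 : S_Wmul) : S_Wframes := by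
  intro B D hD hG
  refine ⟨{
    N := Ni
    ι := fun i => (B i).ι
    fin := fun i => (B i).j1
    F := WframesF B
    jj := fun i => i + 1
    v := fun i n a => WframesJ B i ((B i).v n a)
    Ξ := fun i a => ((B i).Ξ a).comp (prB B i)
    ν := fun i => (2 / (Ni i : ℝ)) ^ (1 / 4 : ℝ)
    ε := fun i => 2 * ei i
    hN := fun i => by unfold Ni; omega
    ne := fun i => (B i).j3
    hF := ?_
    hv := ?_
    hΞ := ?_
    hone := ?_
    heig := ?_
    hclose := ?_
    hε0 := fun i => by have := Wframes_ei_nonneg i; positivity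
    hν := ?_
    hε := ?_
    hfr := ?_
    hmul := ?_
    hup := ?_ }⟩
  · rintro i _ ⟨x, hx, rfl⟩
    refine ⟨fun j => ?_, fun j hj => ?_⟩
    · by_cases h : j = i
      · subst h
        show (inB B j x : ∀ i, (B i).U) j ∈ _
        rw [Wframes_in_self]
        exact (B j).mono (Nat.zero_le _) ((B j).hFE hx)
      · show (inB B i x : ∀ i, (B i).U) j ∈ _
        rw [Wframes_in_ne B i x h]
        exact Submodule.zero_mem _
    · exact Wframes_in_ne B i x (by omega)
  · intro i n a
    show ‖inB B i ((B i).v n a : (B i).U)‖ ≤ 2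
    rw [Wframes_norm_in]
    exact (B i).hv n a
  · intro i a
    refine (ContinuousLinearMap.opNorm_comp_le _ _).trans ?_
    have h2 := (B i).hΞ a
    have h3 := Wframes_norm_pr B i
    nlinarith [norm_nonneg ((B i).Ξ a), norm_nonneg (prB B i)]
  · intro i n a hn
    show (B i).Ξ a (prB B i (inB B i ((B i).v n a : (B i).U))) = 1
    rw [Wframes_pr_in]
    exact (B i).hone n a hn
  · intro i n a hn
    show D (inB B i ((B i).v n a : (B i).U)) =
      ((n : ℝ) / (Ni i : ℝ)) • inB B i ((B i).v n a : (B i).U)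
    apply lp.ext
    funext j
    rw [hD, lp.coeFn_smul, Pi.smul_apply]
    by_cases h : j = i
    · subst h
      rw [Wframes_in_self]
      exact (B j).heig n a hn
    · rw [Wframes_in_ne B i _ h, map_zero, smul_zero]
  · intro i n a hn
    show ‖inB B i ((B i).v n a : (B i).U) - inB B i ((B i).v (n + 1) a : (B i).U)‖ ≤ _
    rw [← map_sub, Wframes_norm_in]
    exact (B i).hclose n a hn
  · have h : Tendsto (fun i : ℕ => 2 / ((Ni i : ℕ) : ℝ)) atTop (𝓝 0) := by
      refine Tendsto.div_atTop tendsto_const_nhds ?_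
      refine tendsto_natCast_atTop_atTop.comp ?_
      unfold Ni
      exact tendsto_add_atTop_nat 2
    have h2 := h.rpow_const (p := (1 / 4 : ℝ)) (Or.inr (by norm_num))
    rw [Real.zero_rpow (by norm_num)] at h2
    exact h2
  · have h : Tendsto ei atTop (𝓝 0) := tendsto_one_div_add_atTop_nhds_zero_nat
    have h2 := h.const_mul 2
    rw [mul_zero] at h2
    exact h2
  · intro i T hT
    have hfr := (B i).hfr (((prB B i).comp T).comp (inB B i)) ?_
    · have e : av (fun a => ((B i).Ξ a).comp (prB B i))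
          (fun a => T (WframesJ B i ((B i).v (Ni i) a) : WS B)) =
          av (B i).Ξ (fun a => (((prB B i).comp T).comp (inB B i)) ((B i).v (Ni i) a : (B i).U)) :=
        rfl
      rw [e]
      refine hfr.trans ?_
      have h2 : ‖((prB B i).comp T).comp (inB B i)‖ ≤ ‖T‖ := by
        refine (ContinuousLinearMap.opNorm_comp_le _ _).trans ?_
        have h3 := ContinuousLinearMap.opNorm_comp_le (prB B i) T
        have h4 := Wframes_norm_pr B i
        have h5 := Wframes_norm_inB B i
        have h6 : ‖(prB B i).comp T‖ ≤ ‖T‖ := h3.trans (by nlinarith [norm_nonneg T])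
        nlinarith [norm_nonneg ((prB B i).comp T), norm_nonneg T, norm_nonneg (inB B i)]
      have h7 := mul_le_mul_of_nonneg_left h2 (Wframes_ei_nonneg i)
      have h8 : 0 ≤ ei i * ‖T‖ := mul_nonneg (Wframes_ei_nonneg i) (norm_nonneg _)
      linarith
    · have hT' : FiniteDimensional ℝ T.toLinearMap.range := hT
      show FiniteDimensional ℝ
        (((prB B i).comp T).comp (inB B i)).toLinearMap.range
      have hsub : (((prB B i).comp T).comp (inB B i)).toLinearMap.range ≤
          T.toLinearMap.range.map (prB B i).toLinearMap := by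
        rintro _ ⟨x, rfl⟩
        exact ⟨T (inB B i x), ⟨_, rfl⟩, rfl⟩
      exact Submodule.finiteDimensional_of_le hsub
  · intro i n A C hn
    have h := h1 B hG i n A (C.comp (WframesJ B i)) hn
    have h2 : ‖C.comp (WframesJ B i)‖ ≤ ‖C‖ := by
      refine (ContinuousLinearMap.opNorm_comp_le _ _).trans ?_
      have h3 := Wframes_normJ B i
      nlinarith [norm_nonneg C]
    refine le_trans ?_ (mul_le_mul_of_nonneg_left h2
      (mul_nonneg (mul_nonneg (by norm_num) (Wframes_ei_nonneg i)) (norm_nonneg A)))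
    exact h
  · intro x hx S c hc
    choose nn aa hnn hxx using hx
    let y : ∀ i, (B i).U := fun i => c i • ((B i).v (nn i) (aa i) : (B i).U)
    have hy : ∀ i, ‖y i‖ ≤ 2 := by
      intro i
      show ‖c i • ((B i).v (nn i) (aa i) : (B i).U)‖ ≤ 2
      rw [norm_smul]
      have h2 := (B i).hv (nn i) (aa i)
      have h3 := hc i
      have h4 : ‖((B i).v (nn i) (aa i) : (B i).U)‖ ≤ 2 := h2
      nlinarith [norm_nonneg (c i), norm_nonneg ((B i).v (nn i) (aa i) : (B i).U)]
    have e : ∑ i ∈ S, c i • x i = ∑ i ∈ S, lp.single (E := fun i => (B i).U) 3 i (y i) := by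
      refine Finset.sum_congr rfl fun i _ => ?_
      rw [hxx i]
      show c i • inB B i ((B i).v (nn i) (aa i) : (B i).U) = inB B i (y i)
      rw [← map_smul]
    have h3 := lp.norm_sum_single (E := fun i => (B i).U) (p := 3) (by norm_num) y S
    rw [← e] at h3
    have e3 : (3 : ℝ≥0∞).toReal = ((3 : ℕ) : ℝ) := by norm_num
    rw [e3] at h3
    simp only [Real.rpow_natCast] at h3
    rw [h3]
    calc ∑ i ∈ S, ‖y i‖ ^ 3 ≤ ∑ _i ∈ S, (8 : ℝ) := by
          refine Finset.sum_le_sum fun i _ => ?_
          have := pow_le_pow_left₀ (norm_nonneg _) (hy i) 3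
          linarith
      _ = 8 * (S.card : ℝ) := by
          rw [Finset.sum_const, nsmul_eq_mul]
          ring

end Pool.Agent.Lib.MP_355270_an.CB
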