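import Pool.Agent.Lib.MP_355270_an.CB.StmU

open Filter Topology
open scoped ENNReal

namespace Pool.Agent.Lib.MP_355270_an.CB

theorem Wmul_compl (B : BSeq) (i : ℕ) (w : WS B) : ‖w - inB B i (prB B i w)‖ ≤ ‖w‖ := by
  have hp : 0 < (3 : ℝ≥0∞).toReal := by norm_num
  have h := lp.norm_compl_sum_single hp w {i}
  rw [Finset.sum_singleton, Finset.sum_singleton] at h
  have h2 : ‖w - inB B i (prB B i w)‖ ^ (3 : ℝ≥0∞).toReal ≤ ‖w‖ ^ (3 : ℝ≥0∞).toReal := by
    have h3 : 0 ≤ ‖w i‖ ^ (3 : ℝ≥0∞).toReal := by positivity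
    have h4 : w - inB B i (prB B i w) = w - lp.single 3 i (w i) := rfl
    rw [h4, h]
    linarith
  exact (Real.rpow_le_rpow_iff (norm_nonneg _) (norm_nonneg _) hp).mp h2

theorem Wmul_prB_norm (B : BSeq) (i : ℕ) (w : WS B) : ‖prB B i w‖ ≤ ‖w‖ :=
  lp.norm_apply_le_norm (by norm_num) w i

theorem Wmul_inB_norm (B : BSeq) (i : ℕ) (x : (B i).U) : ‖inB B i x‖ = ‖x‖ := by
  show ‖lp.single (E := fun i => (B i).U) 3 i x‖ = ‖x‖
  exact lp.norm_single (E := fun i => (B i).U) (by norm_num) i x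

theorem Wmul_pr_in (B : BSeq) (i : ℕ) (x : (B i).U) : prB B i (inB B i x) = x := by
  show (lp.single (E := fun i => (B i).U) 3 i x) i = x
  rw [lp.single_apply_self]

theorem Wmul_si_pos (i : ℕ) : 3 < si i := by
  unfold si
  have : (0 : ℝ) < 1 / ((i : ℝ) + 1) := by positivity
  linarith

theorem Wmul_si_anti {i j : ℕ} (h : i ≤ j) : si j ≤ si i := by
  unfold si
  have h2 : (i : ℝ) ≤ j := by exact_mod_cast h
  have : 1 / ((j : ℝ) + 1) ≤ 1 / ((i : ℝ) + 1) :=
    one_div_le_one_div_of_le (by positivity) (by linarith)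
  linarith

theorem p_Wmul (h1 : S_CTlp) (h2 : S_avg) (h3 : S_CTmono) (h4 : S_CTre) : S_Wmul := by
  intro B hB i n A C hn
  obtain ⟨K, hK2, hKj, hKe⟩ := hB i
  have hCn : 0 ≤ ‖C‖ := norm_nonneg C
  have hAn : 0 ≤ ‖A‖ := norm_nonneg A
  have hr3 : 3 < si (i + 1) := Wmul_si_pos _
  have hs3 : 3 < si i := Wmul_si_pos _
  have hCT : ∀ j, j ≠ i → CT (B j).U (si (i + 1)) K := by
    intro j hj
    rcases lt_or_gt_of_ne hj with h | h
    · exact h3 _ 3 _ K K (by norm_num) hr3.le (by linarith) le_rfl (hKj j h)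
    · exact h3 _ (si j) _ 2 K (by linarith [Wmul_si_pos j]) (Wmul_si_anti h) (by norm_num) hK2
        (B j).hC2
  -- the subspace of vectors with zero `i`-th coordinate
  let Y0 : Submodule ℝ (WS B) := LinearMap.ker (prB B i : WS B →ₗ[ℝ] (B i).U)
  have hY0 : CT Y0 (si (i + 1)) K := by
    intro m y
    have h := h1 (fun i => (B i).U) (si (i + 1)) K i hr3.le (by linarith) hCT m
      (fun b => (y b : WS B)) (fun b => (y b).2)
    refine h.trans (le_of_eq ?_)
    congr 2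
    funext θ
    have e : ((∑ b, sg (θ b) • y b : Y0) : WS B) = ∑ b, sg (θ b) • (y b : WS B) := by
      rw [Submodule.coe_sum]
      rfl
    rw [← e]
    rfl
  -- the remainder
  let R : (B i).F →L[ℝ] WS B := C - (inB B i).comp ((prB B i).comp C)
  have hR : ∀ x, R x = C x - inB B i (prB B i (C x)) := fun x => rfl
  have hRn : ∀ x, ‖R x‖ ≤ ‖C‖ * ‖x‖ := fun x => by
    rw [hR]
    exact (Wmul_compl B i (C x)).trans (C.le_opNorm x)
  have hRk : ∀ x, R x ∈ Y0 := fun x => by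
    show prB B i (R x) = 0
    rw [hR, map_sub, Wmul_pr_in, sub_self]
  let y : (B i).ι → Y0 := fun a => ⟨R ((B i).v n a), hRk _⟩
  have hy := h4 Y0 (si (i + 1)) K hY0 (B i).ι y
  have hrad : rad (fun θ : (B i).ι → Bool => ‖∑ b, sg (θ b) • y b‖ ^ 3) ≤
      ‖C‖ ^ 3 * (10 * (Fintype.card (B i).ι : ℝ)) ^ (3 / si i) := by
    have h5 : rad (fun θ : (B i).ι → Bool => ‖∑ b, sg (θ b) • y b‖ ^ 3) ≤
        ‖C‖ ^ 3 * rad (fun θ : (B i).ι → Bool => ‖∑ a, sg (θ a) • (B i).v n a‖ ^ 3) := by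
      unfold rad
      rw [← mul_div_assoc]
      apply div_le_div_of_nonneg_right _ (by positivity)
      rw [Finset.mul_sum]
      refine Finset.sum_le_sum fun θ _ => ?_
      rw [← mul_pow]
      refine pow_le_pow_left₀ (norm_nonneg _) ?_ 3
      refine le_trans (le_of_eq ?_) (hRn _)
      have e : ((∑ b, sg (θ b) • y b : Y0) : WS B) = R (∑ a, sg (θ a) • (B i).v n a) := by
        rw [Submodule.coe_sum, map_sum]
        refine Finset.sum_congr rfl fun a _ => ?_
        rw [map_smul]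
        rfl
      rw [← e]
      rfl
    exact h5.trans (mul_le_mul_of_nonneg_left ((B i).hC1 n hn) (by positivity))
  have havg := h2 (B i).ι (fun a => ‖y a‖) (si (i + 1)) (si i) K ‖C‖ _ (fun b => norm_nonneg _)
    (by linarith) (by linarith) (by linarith) hCn hy hrad
  have havg2 : (1 / (Fintype.card (B i).ι : ℝ)) * ∑ b, ‖y b‖ ≤ ei i * ‖C‖ := by
    refine havg.trans ?_
    calc K * ‖C‖ * (10 * (Fintype.card (B i).ι : ℝ)) ^ (1 / si i) *
          (Fintype.card (B i).ι : ℝ) ^ (-(1 / si (i + 1)))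
        = (K * (10 * (Fintype.card (B i).ι : ℝ)) ^ (1 / si i) *
          (Fintype.card (B i).ι : ℝ) ^ (-(1 / si (i + 1)))) * ‖C‖ := by ring
      _ ≤ ei i * ‖C‖ := mul_le_mul_of_nonneg_right hKe hCn
  -- splitting of the average
  have hsplit : av (B i).Ξ (fun a => prB B i (A (C ((B i).v n a)))) =
      av (B i).Ξ (fun a => prB B i (A (inB B i (prB B i (C ((B i).v n a)))))) +
        av (B i).Ξ (fun a => prB B i (A (R ((B i).v n a)))) := by
    unfold av
    rw [← mul_add, ← Finset.sum_add_distrib]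
    congr 1
    refine Finset.sum_congr rfl fun a _ => ?_
    rw [← map_add, ← map_add, ← map_add, hR]
    congr 3
    abel_nf
  have hrem : ‖av (B i).Ξ (fun a => prB B i (A (R ((B i).v n a))))‖ ≤ ei i * ‖A‖ * ‖C‖ := by
    unfold av
    rw [norm_mul, norm_inv, Real.norm_natCast, ← one_div]
    have h6 : ‖∑ a, (B i).Ξ a (prB B i (A (R ((B i).v n a))))‖ ≤ ‖A‖ * ∑ b, ‖y b‖ := by
      rw [Finset.mul_sum]
      refine norm_sum_le_of_le _ fun a _ => ?_
      have h7 : ‖(B i).Ξ a (prB B i (A (R ((B i).v n a))))‖ ≤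
          ‖prB B i (A (R ((B i).v n a)))‖ := by
        refine ((B i).Ξ a).le_of_opNorm_le ((B i).hΞ a) _ |>.trans ?_
        rw [one_mul]
      refine h7.trans ((Wmul_prB_norm B i _).trans ?_)
      exact A.le_opNorm _
    calc 1 / (Fintype.card (B i).ι : ℝ) * ‖∑ a, (B i).Ξ a (prB B i (A (R ((B i).v n a))))‖
        ≤ 1 / (Fintype.card (B i).ι : ℝ) * (‖A‖ * ∑ b, ‖y b‖) :=
          mul_le_mul_of_nonneg_left h6 (by positivity)
      _ = ‖A‖ * (1 / (Fintype.card (B i).ι : ℝ) * ∑ b, ‖y b‖) := by ring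
      _ ≤ ‖A‖ * (ei i * ‖C‖) := mul_le_mul_of_nonneg_left havg2 hAn
      _ = ei i * ‖A‖ * ‖C‖ := by ring
  -- the block
  let A' : (B i).U →L[ℝ] (B i).U := (prB B i).comp (A.comp (inB B i))
  let C' : (B i).F →L[ℝ] (B i).U := (prB B i).comp C
  have hA' : ‖A'‖ ≤ ‖A‖ := by
    refine ContinuousLinearMap.opNorm_le_bound _ hAn fun x => ?_
    exact (Wmul_prB_norm B i _).trans ((A.le_opNorm _).trans
      (mul_le_mul_of_nonneg_left (Wmul_inB_norm B i x).le hAn))
  have hC' : ‖C'‖ ≤ ‖C‖ := by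
    refine ContinuousLinearMap.opNorm_le_bound _ hCn fun x => ?_
    exact (Wmul_prB_norm B i _).trans (C.le_opNorm _)
  have hmul := (B i).hmul n A' C' hn
  have hei : 0 ≤ ei i := by unfold ei; positivity
  have hmul2 : ‖av (B i).Ξ (fun a => prB B i (A (inB B i (prB B i (C ((B i).v n a)))))) -
      av (B i).Ξ (fun a => prB B i (A (inB B i ((B i).v n a : (B i).U)))) *
        av (B i).Ξ (fun a => prB B i (C ((B i).v n a)))‖ ≤ ei i * ‖A‖ * ‖C‖ := by
    refine hmul.trans ?_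
    exact mul_le_mul (mul_le_mul_of_nonneg_left hA' hei) hC' (norm_nonneg C') (mul_nonneg hei hAn)
  rw [hsplit]
  calc ‖av (B i).Ξ (fun a => prB B i (A (inB B i (prB B i (C ((B i).v n a)))))) +
        av (B i).Ξ (fun a => prB B i (A (R ((B i).v n a)))) -
      av (B i).Ξ (fun a => prB B i (A (inB B i ((B i).v n a : (B i).U)))) *
        av (B i).Ξ (fun a => prB B i (C ((B i).v n a)))‖
      = ‖(av (B i).Ξ (fun a => prB B i (A (inB B i (prB B i (C ((B i).v n a)))))) -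
      av (B i).Ξ (fun a => prB B i (A (inB B i ((B i).v n a : (B i).U)))) *
        av (B i).Ξ (fun a => prB B i (C ((B i).v n a)))) +
        av (B i).Ξ (fun a => prB B i (A (R ((B i).v n a))))‖ := by
        congr 1
        ring
    _ ≤ ei i * ‖A‖ * ‖C‖ + ei i * ‖A‖ * ‖C‖ := (norm_add_le _ _).trans (add_le_add hmul2 hrem)
    _ = 2 * ei i * ‖A‖ * ‖C‖ := by ring

end Pool.Agent.Lib.MP_355270_an.CB
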