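import Pool.Agent.Lib.MP_355270_an.CB.StmU

open Filter Topology
open scoped ENNReal

namespace Pool.Agent.Lib.MP_355270_an.CB

theorem p_AVG (h1 : S_CTre) (h2 : S_avg) : S_AVG := by
  intro F Y ι _ _ _ _ _ _ _ x s r K hs hr hK hrad hCT C
  have h3 := h1 Y r K hCT ι (fun a => C (x a))
  have h5 : (rad fun θ : ι → Bool => ‖∑ b, sg (θ b) • C (x b)‖ ^ 3) ≤
      ‖C‖ ^ 3 * rad (fun θ : ι → Bool => ‖∑ a, sg (θ a) • x a‖ ^ 3) := by
    unfold rad
    rw [← mul_div_assoc, Finset.mul_sum]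
    apply div_le_div_of_nonneg_right _ (by positivity)
    apply Finset.sum_le_sum
    intro θ _
    rw [← mul_pow]
    apply pow_le_pow_left₀ (norm_nonneg _)
    have e : ∑ b, sg (θ b) • C (x b) = C (∑ a, sg (θ a) • x a) := by
      rw [map_sum]
      refine Finset.sum_congr rfl fun b _ => ?_
      rw [map_smul]
    rw [e]
    exact C.le_opNorm _
  have h6 : (rad fun θ : ι → Bool => ‖∑ b, sg (θ b) • C (x b)‖ ^ 3) ≤
      ‖C‖ ^ 3 * (10 * (Fintype.card ι : ℝ)) ^ (3 / s) :=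
    h5.trans (mul_le_mul_of_nonneg_left hrad (by positivity))
  exact h2 ι (fun a => ‖C (x a)‖) r s K ‖C‖ _ (fun b => norm_nonneg _) hr hs hK (norm_nonneg _)
    h3 h6

end Pool.Agent.Lib.MP_355270_an.CB
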