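import Pool.Agent.Lib.MP_355270_an.CB.StmB

open Filter Topology
open scoped ENNReal

namespace Pool.Agent.Lib.MP_355270_an.CB

theorem CTemb_sum {Y Z : Type} [NormedAddCommGroup Y] [NormedSpace ℝ Y] [NormedAddCommGroup Z]
    [NormedSpace ℝ Z] (L : Y →ₗ[ℝ] Z) {m : ℕ} (θ : Fin m → Bool) (y : Fin m → Y) :
    (∑ b, sg (θ b) • L (y b)) = L (∑ b, sg (θ b) • y b) := by
  simp [map_sum]

theorem p_CTemb : S_CTemb := by
  intro Y Z _ _ _ _ L c C r K hc hC hr hK hlow hup hZ m y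
  have hZ' := hZ m (fun b => L (y b))
  have hS0 : 0 ≤ ∑ b, ‖y b‖ ^ r := Finset.sum_nonneg fun b _ => Real.rpow_nonneg (norm_nonneg _) _
  have h1 : c ^ r * ∑ b, ‖y b‖ ^ r ≤ ∑ b, ‖L (y b)‖ ^ r := by
    rw [Finset.mul_sum]
    refine Finset.sum_le_sum fun b _ => ?_
    rw [← Real.mul_rpow hc.le (norm_nonneg _)]
    exact Real.rpow_le_rpow (mul_nonneg hc.le (norm_nonneg _)) (hlow _) hr.le
  have h2 : c ^ 3 * (∑ b, ‖y b‖ ^ r) ^ (3 / r) ≤ (∑ b, ‖L (y b)‖ ^ r) ^ (3 / r) := by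
    have h3 : (c ^ r * ∑ b, ‖y b‖ ^ r) ^ (3 / r) = c ^ 3 * (∑ b, ‖y b‖ ^ r) ^ (3 / r) := by
      rw [Real.mul_rpow (Real.rpow_nonneg hc.le _) hS0, ← Real.rpow_mul hc.le]
      have : r * (3 / r) = (3 : ℕ) := by field_simp; norm_num
      rw [this, Real.rpow_natCast]
    rw [← h3]
    exact Real.rpow_le_rpow (mul_nonneg (Real.rpow_nonneg hc.le _) hS0) h1 (by positivity)
  have h4 : (rad fun θ : Fin m → Bool => ‖∑ b, sg (θ b) • L (y b)‖ ^ 3) ≤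
      C ^ 3 * rad fun θ : Fin m → Bool => ‖∑ b, sg (θ b) • y b‖ ^ 3 := by
    unfold rad
    rw [← mul_div_assoc, Finset.mul_sum]
    refine div_le_div_of_nonneg_right (Finset.sum_le_sum fun θ _ => ?_) (by positivity)
    rw [CTemb_sum, ← mul_pow]
    exact pow_le_pow_left₀ (norm_nonneg _) (hup _) 3
  have h5 : c ^ 3 * (∑ b, ‖y b‖ ^ r) ^ (3 / r) ≤
      K ^ 3 * (C ^ 3 * rad fun θ : Fin m → Bool => ‖∑ b, sg (θ b) • y b‖ ^ 3) :=
    h2.trans (hZ'.trans (mul_le_mul_of_nonneg_left h4 (pow_nonneg hK 3)))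
  have hc3 : 0 < c ^ 3 := by positivity
  rw [div_pow, mul_pow, div_mul_eq_mul_div, le_div_iff₀ hc3]
  calc _ = c ^ 3 * (∑ b, ‖y b‖ ^ r) ^ (3 / r) := by ring
    _ ≤ _ := h5
    _ = _ := by ring

end Pool.Agent.Lib.MP_355270_an.CB
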