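import Pool.Agent.Lib.MP_355270_an.CB.StmA

open Filter Topology

namespace Pool.Agent.Lib.MP_355270_an.CB

theorem p_conv : S_conv := by
  intro hTV W _ _ z C hz
  refine cauchySeq_tendsto_of_complete ?_
  rw [Metric.cauchySeq_iff']
  intro ε hε
  obtain ⟨M, hM⟩ := hTV W z C (ε ^ 2 / 4) hz (by positivity)
  refine ⟨M, fun n hn => ?_⟩
  have h1 := hM 1 (fun i => if i = 0 then M else n) (by
    intro a b hab
    dsimp only
    split_ifs with ha hb hb
    · exact le_rfl
    · exact hn
    · omega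
    · exact le_rfl) (by simp)
  rw [Finset.sum_range_one] at h1
  simp only [Nat.zero_add, if_true, if_neg one_ne_zero] at h1
  rw [dist_eq_norm]
  have h2 : ‖z n - z M‖ ^ 2 < ε ^ 2 := by nlinarith
  exact lt_of_pow_lt_pow_left₀ 2 hε.le h2

end Pool.Agent.Lib.MP_355270_an.CB
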