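import Pool.Agent.Lib.MP_355270_an.CB.StmC

open Filter Topology
open scoped ENNReal

namespace Pool.Agent.Lib.MP_355270_an.CB

open Cx

section

variable {𝕜 : Type} [RCLike 𝕜] {W : Type} [NormedAddCommGroup W] [NormedSpace ℝ W]

theorem CxDecW_real (f : Cx 𝕜 W) (r : ℝ) (z : 𝕜) : ap f ((r : 𝕜) * z) = r • ap f z := by
  rw [← RCLike.real_smul_eq_coe_mul, map_smul]

theorem CxDecW_dec (f : Cx 𝕜 W) (z : 𝕜) :
    ap f z = RCLike.re z • ap f 1 + RCLike.im z • ap f RCLike.I := by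
  have h : z = ((RCLike.re z : ℝ) : 𝕜) * 1 + ((RCLike.im z : ℝ) : 𝕜) * RCLike.I := by
    rw [mul_one, RCLike.re_add_im]
  conv_lhs => rw [h]
  rw [map_add, CxDecW_real, CxDecW_real]

/-- The real-linear operator `x ↦ ap (T (J x)) z`. -/
theorem CxDecW_aux (h1 : S_CxJ) (T : Cx 𝕜 W →L[𝕜] Cx 𝕜 W) (z : 𝕜) (hz : ‖z‖ ≤ 1) :
    ∃ T1 : W →L[ℝ] W, ‖T1‖ ≤ ‖T‖ ∧ (FR T → FR T1) ∧ ∀ x : W, T1 x = ap (T (J x)) z := by
  obtain ⟨j1, j2, j3, _, j5⟩ := h1 𝕜 W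
  let L : W →ₗ[ℝ] W :=
    { toFun := fun x => ap (T (J x)) z
      map_add' := fun x y => by rw [j2, map_add, ap_add, add_apply]
      map_smul' := fun r x => by
        rw [j3, map_smul, ap_smul, CxDecW_real, RingHom.id_apply] }
  have hL : ∀ x, ‖L x‖ ≤ ‖T‖ * ‖x‖ := by
    intro x
    show ‖ap (T (J x)) z‖ ≤ ‖T‖ * ‖x‖
    calc ‖ap (T (J x)) z‖ ≤ ‖T (J x)‖ * ‖z‖ := j5 _ _
      _ ≤ ‖T (J x)‖ * 1 := mul_le_mul_of_nonneg_left hz (norm_nonneg _)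
      _ ≤ ‖T‖ * ‖(J x : Cx 𝕜 W)‖ := by
          rw [mul_one]
          exact T.le_opNorm _
      _ = ‖T‖ * ‖x‖ := by rw [j1]
  refine ⟨L.mkContinuous ‖T‖ hL, L.mkContinuous_norm_le (norm_nonneg _) hL, ?_, fun x => rfl⟩
  intro hT
  have hT' : FiniteDimensional 𝕜 T.toLinearMap.range := hT
  obtain ⟨s, hs⟩ := (Submodule.fg_iff_finiteDimensional _).2 hT'
  let S : Submodule ℝ W := Submodule.span ℝ
    ((fun f : Cx 𝕜 W => ap f 1) '' (s : Set (Cx 𝕜 W)) ∪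
      (fun f : Cx 𝕜 W => ap f RCLike.I) '' (s : Set (Cx 𝕜 W)))
  have hS : FiniteDimensional ℝ S := FiniteDimensional.span_of_finite ℝ
    ((s.finite_toSet.image _).union (s.finite_toSet.image _))
  have hmem : ∀ g ∈ Submodule.span 𝕜 (s : Set (Cx 𝕜 W)), ∀ w : 𝕜, ap g w ∈ S := by
    intro g hg
    induction hg using Submodule.span_induction with
    | mem f hf =>
      intro w
      rw [CxDecW_dec f w]
      exact S.add_mem
        (S.smul_mem _ (Submodule.subset_span (Or.inl ⟨f, hf, rfl⟩)))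
        (S.smul_mem _ (Submodule.subset_span (Or.inr ⟨f, hf, rfl⟩)))
    | zero => exact fun w => S.zero_mem
    | add f g _ _ hf hg => exact fun w => S.add_mem (hf w) (hg w)
    | smul c f _ hf => exact fun w => hf _
  have hle : (L.mkContinuous ‖T‖ hL).toLinearMap.range ≤ S := by
    rintro _ ⟨x, rfl⟩
    refine hmem (T (J x)) ?_ z
    rw [hs]
    exact ⟨J x, rfl⟩
  exact Submodule.finiteDimensional_of_le hle

end

theorem p_CxDecW (h1 : S_CxJ) : S_CxDecW := by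
  intro 𝕜 _ W _ _ T
  have hI : ‖(RCLike.I : 𝕜)‖ ≤ 1 := by
    by_cases h : (RCLike.I : 𝕜) = 0
    · rw [h, norm_zero]
      exact zero_le_one
    · exact le_of_eq (RCLike.norm_I_of_ne_zero h)
  obtain ⟨T1, a1, a2, a3⟩ := CxDecW_aux h1 T 1 (by rw [norm_one])
  obtain ⟨T2, b1, b2, b3⟩ := CxDecW_aux h1 T RCLike.I hI
  refine ⟨T1, T2, a1, b1, fun h => ⟨a2 h, b2 h⟩, fun x => ?_⟩
  rw [a3, b3]
  exact (h1 𝕜 W).2.2.2.1 (T (J x))

end Pool.Agent.Lib.MP_355270_an.CB
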