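import Pool.Agent.Lib.MP_355270_an.CB.StmA

open Filter Topology

namespace Pool.Agent.Lib.MP_355270_an.CB

theorem denseX_key {W : Type*} [NormedAddCommGroup W] (y z : ℕ → W) (a : W) (m : ℕ)
    (hy0 : ∀ j, j ≤ m → y j = 0) (hy : ∀ j, m < j → y j = z j - a) (r : ℕ) (k : ℕ → ℕ)
    (hk : Monotone k) :
    pv y r k = 0 ∨ ∃ l s, m < k l ∧
      pv y r k = ‖z (k l) - a‖ ^ 2 +
        ∑ i ∈ Finset.range s, ‖z (k (l + (i + 1))) - z (k (l + i))‖ ^ 2 := by
  by_cases hr : k r ≤ m
  · left
    have : pv y r k = pv (0 : ℕ → W) r k := pv_congr fun i hi => by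
      rw [hy0 _ ((hk hi).trans hr)]; rfl
    rw [this]
    refine Finset.sum_eq_zero fun i _ => ?_
    cases i <;> simp
  · right
    push Not at hr
    classical
    have hex : ∃ l, m < k l := ⟨r, hr⟩
    set l := Nat.find hex with hl
    have hl1 : m < k l := Nat.find_spec hex
    have hl2 : ∀ i, i < l → k i ≤ m := fun i hi => not_lt.1 (Nat.find_min hex hi)
    have hlr : l ≤ r := Nat.find_min' hex hr
    obtain ⟨s, rfl⟩ := Nat.exists_eq_add_of_le hlr
    refine ⟨l, s, hl1, ?_⟩
    have base : pv y l k = ‖z (k l) - a‖ ^ 2 := by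
      rcases Nat.eq_zero_or_pos l with h0 | h0
      · rw [h0] at hl1 ⊢
        rw [pv_zero', hy _ hl1]
      · obtain ⟨l', hl'⟩ := Nat.exists_eq_succ_of_ne_zero h0.ne'
        rw [hl'] at hl1 hl2 ⊢
        rw [Nat.succ_eq_add_one] at *
        rw [pv_succ, hy _ hl1, hy0 _ (hl2 l' (by omega)), sub_zero]
        have : pv y l' k = pv (0 : ℕ → W) l' k := pv_congr fun i hi => by
          rw [hy0 _ (hl2 i (by omega))]; rfl
        rw [this]
        have h0 : pv (0 : ℕ → W) l' k = 0 := by
          refine Finset.sum_eq_zero fun i _ => ?_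
          cases i <;> simp
        rw [h0, zero_add]
    clear hr hlr
    induction s with
    | zero => simpa using base
    | succ s ih =>
      rw [← add_assoc, pv_succ, ih, Finset.sum_range_succ, add_assoc, add_assoc]
      congr 3
      have h1 : m < k (l + s) := lt_of_lt_of_le hl1 (hk (Nat.le_add_right _ _))
      have h2 : m < k (l + (s + 1)) := lt_of_lt_of_le h1 (hk (Nat.le_succ _))
      rw [hy _ h1, hy _ h2]
      congr 1
      abel

theorem p_denseX : S_denseX := by
  intro hTV 𝕜 _ W _ _ V D h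
  rw [Metric.dense_iff]
  intro x r hr
  have hD : 0 < 1 + ‖D‖ := by positivity
  set η : ℝ := r / (4 * (1 + ‖D‖)) with hη
  have hηpos : 0 < η := by positivity
  have hηr : η ≤ r / 4 := by
    rw [hη, div_le_div_iff₀ (by positivity) (by norm_num)]
    nlinarith [norm_nonneg D]
  have hDη : ‖D‖ * η ≤ r / 4 := by
    rw [hη, mul_div_assoc', div_le_div_iff₀ (by positivity) (by norm_num)]
    nlinarith [norm_nonneg D]
  obtain ⟨w', hw', hw⟩ := Metric.mem_closure_iff.1 (h.dense x.1.2) η hηpos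
  rw [Set.mem_iUnion] at hw'
  obtain ⟨M0, hM0⟩ := hw'
  rw [dist_eq_norm] at hw
  obtain ⟨M, hM⟩ := hTV W x.1.1.val ‖x.1.1‖ ((r / 4) ^ 2) x.1.1.jbd (by positivity)
  have hxt : Tendsto x.1.1.val atTop (𝓝 (D x.1.2)) := x.2
  obtain ⟨m1, hm1⟩ : ∃ m1, ∀ n ≥ m1, dist (x.1.1.val n) (D x.1.2) < r / 4 :=
    (Metric.tendsto_atTop.1 hxt) (r / 4) (by positivity)
  set m := max (max M0 M) m1 with hm
  have hmM0 : M0 ≤ m := (le_max_left _ _).trans (le_max_left _ _)
  have hmM : M ≤ m := (le_max_right _ _).trans (le_max_left _ _)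
  have hmm1 : m1 ≤ m := le_max_right _ _
  have hw'm : w' ∈ V (m + 1) := h.mono (hmM0.trans (Nat.le_succ m)) hM0
  set z' : JS V := trunc V m x.1.1 + cst h.mono (m + 1) ⟨D w', h.inv _ _ hw'm⟩ with hz'
  have hz'val : ∀ j, z'.val j = (if j ≤ m then x.1.1.val j else 0) +
      (if m + 1 ≤ j then D w' else 0) := by
    intro j
    rw [hz', JS.val_add, Pi.add_apply, trunc_val, cst_val]
  have hz'1 : ∀ j, j ≤ m → z'.val j = x.1.1.val j := by
    intro j hj
    rw [hz'val, if_pos hj, if_neg (by omega), add_zero]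
  have hz'2 : ∀ j, m < j → z'.val j = D w' := by
    intro j hj
    rw [hz'val, if_neg (by omega), if_pos (by omega), zero_add]
  have hz't : Tendsto z'.val atTop (𝓝 (D w')) := by
    refine tendsto_const_nhds.congr' ?_
    filter_upwards [eventually_gt_atTop m] with j hj
    rw [hz'2 j hj]
  refine ⟨XS.mk z' w' hz't, ?_, m + 1, hw'm, fun j hj => hz'2 j hj⟩
  rw [Metric.mem_ball, dist_comm, dist_eq_norm]
  show ‖((x.1 - (z', w') : JS V × W))‖ < r
  rw [Prod.norm_def, max_lt_iff]
  constructor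
  · show ‖x.1.1 - z'‖ < r
    refine lt_of_le_of_lt ((JS.norm_le_iff _ (C := 3 * r / 4) (by positivity)).2 ?_)
      (by linarith)
    intro R k hk
    have hkey := denseX_key (x.1.1 - z').val x.1.1.val (D w') m
      (fun j hj => by
        rw [JS.val_sub, Pi.sub_apply, hz'1 j hj, sub_self])
      (fun j hj => by
        rw [JS.val_sub, Pi.sub_apply, hz'2 j hj]) R k hk
    rcases hkey with h0 | ⟨l, s, hl, hkey⟩
    · rw [h0]; positivity
    · rw [hkey]
      have hsum := hM s (fun i => k (l + i)) (fun a b hab => hk (by omega))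
        (by
          simp only [add_zero]
          omega)
      have hfirst : ‖x.1.1.val (k l) - D w'‖ ≤ r / 2 := by
        have h1 := hm1 (k l) (by omega)
        rw [dist_eq_norm] at h1
        have h2 : ‖D (x.1.2 - w')‖ ≤ r / 4 :=
          (D.le_opNorm _).trans ((mul_le_mul_of_nonneg_left hw.le (norm_nonneg _)).trans hDη)
        have h3 : x.1.1.val (k l) - D w' = (x.1.1.val (k l) - D x.1.2) + D (x.1.2 - w') := by
          rw [map_sub]; abel
        rw [h3]
        refine (norm_add_le _ _).trans ?_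
        linarith
      have h4 := pow_le_pow_left₀ (norm_nonneg _) hfirst 2
      nlinarith [sq_nonneg r]
  · show ‖x.1.2 - w'‖ < r
    linarith

end Pool.Agent.Lib.MP_355270_an.CB
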