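import Pool.Agent.Lib.MP_355270_an.CB.StmB

open Filter Topology
open scoped ENNReal

namespace Pool.Agent.Lib.MP_355270_an.CB

theorem enorm_gl_zero (κ t : ℕ) : gl κ t (0 : (Fin (κ + t + 2) → Bool) → ℝ) = 0 := by
  unfold gl
  refine Finset.sum_eq_zero fun g _ => ?_
  simp

theorem enorm_gl (h1 : S_glnorm) (κ t : ℕ) (φ : (Fin (κ + t + 2) → Bool) → ℝ)
    (hφ : ∀ g, |φ g| = 1) : ‖gl κ t φ‖ = 1 := by
  have h := h1 κ (t + 1)
    (Function.update (fun t' => (0 : (Fin (κ + t' + 2) → Bool) → ℝ)) t φ)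
  rw [Finset.sum_range_succ, Finset.sum_range_succ] at h
  have e1 : ∑ t' ∈ Finset.range t, gl κ t'
      (Function.update (fun t' => (0 : (Fin (κ + t' + 2) → Bool) → ℝ)) t φ t') = 0 := by
    refine Finset.sum_eq_zero fun t' ht' => ?_
    have hne : t' ≠ t := (Finset.mem_range.mp ht').ne
    rw [Function.update_of_ne hne, enorm_gl_zero]
  have e2 : ∑ t' ∈ Finset.range t, (∑ g, |Function.update
      (fun t' => (0 : (Fin (κ + t' + 2) → Bool) → ℝ)) t φ t' g| ^ 3) / nu κ t' = 0 := by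
    refine Finset.sum_eq_zero fun t' ht' => ?_
    have hne : t' ≠ t := (Finset.mem_range.mp ht').ne
    rw [Function.update_of_ne hne]
    simp
  rw [e1, e2, zero_add, zero_add, Function.update_self] at h
  have e3 : ∑ g, |φ g| ^ 3 = nu κ t := by
    have : ∀ g, |φ g| ^ 3 = 1 := fun g => by rw [hφ g, one_pow]
    simp only [this, Finset.sum_const, Finset.card_univ, Fintype.card_fun, Fintype.card_bool,
      Fintype.card_fin, nsmul_eq_mul, mul_one]
    unfold nu
    push_cast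
    rfl
  have e4 : nu κ t ≠ 0 := by unfold nu; positivity
  rw [e3, div_self e4] at h
  exact (pow_eq_one_iff_of_nonneg (norm_nonneg _) (by norm_num)).mp h

theorem p_enorm (h1 : S_glnorm) : S_enorm := by
  intro κ d
  have ha : ∀ t (j : Fin (κ + t) → Bool) (g : Fin (κ + t + 2) → Bool),
      |sg (d.σ t j) * walsh (d.a t j) g| = 1 := fun t j g => by
    rw [abs_mul, abs_sg, abs_walsh, one_mul]
  have h0 : ∀ j, ‖d.e 0 j‖ ≤ 1 := fun j => by
    show ‖gl κ 0 fun g => sg (d.σ 0 j) * walsh (d.a 0 j) g‖ ≤ 1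
    exact (enorm_gl h1 κ 0 _ (ha 0 j)).le
  refine ⟨h0, ?_⟩
  intro t
  cases t with
  | zero => intro j; exact (h0 j).trans (by norm_num)
  | succ t =>
    intro j
    show ‖gl κ (t + 1) (fun g => sg (d.σ (t + 1) j) * walsh (d.a (t + 1) j) g) +
      gl κ t fun h => walsh (d.b t j) h‖ ≤ 2
    refine (norm_add_le _ _).trans ?_
    rw [enorm_gl h1 κ (t + 1) _ (ha (t + 1) j), enorm_gl h1 κ t _ (fun g => abs_walsh _ _)]
    norm_num

end Pool.Agent.Lib.MP_355270_an.CB
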