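import Pool.Agent.Lib.MP_355270_an.CB.StmA

open Filter Topology

namespace Pool.Agent.Lib.MP_355270_an.CB

section

variable {W : Type} [NormedAddCommGroup W]

/-- The concatenated path `k 0, ..., k r, a, k' 0, k' 1, ...`. -/
def lower2_path (k k' : ℕ → ℕ) (a r : ℕ) : ℕ → ℕ := fun i =>
  if i ≤ r then k i else if i = r + 1 then a else k' (i - (r + 2))

theorem lower2_path_mono {k k' : ℕ → ℕ} (hk : Monotone k) (hk' : Monotone k') {a : ℕ}
    (ha : ∀ i, k i ≤ a) (ha' : ∀ i, a ≤ k' i) (r : ℕ) : Monotone (lower2_path k k' a r) := by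
  refine monotone_nat_of_le_succ fun i => ?_
  unfold lower2_path
  by_cases h1 : i + 1 ≤ r
  · rw [if_pos (by omega : i ≤ r), if_pos h1]
    exact hk (Nat.le_succ i)
  · by_cases h2 : i ≤ r
    · rw [if_pos h2, if_neg h1, if_pos (by omega)]
      exact ha i
    · rw [if_neg h2, if_neg h1]
      by_cases h3 : i = r + 1
      · rw [if_pos h3, if_neg (by omega)]
        exact ha' _
      · rw [if_neg h3, if_neg (by omega)]
        exact hk' (by omega)

theorem lower2_pv_path (x y : ℕ → W) (a : ℕ) (hx : ∀ j, a ≤ j → x j = x a)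
    (hy : ∀ j, j ≤ a → y j = 0) {k k' : ℕ → ℕ} (ha : ∀ i, k i ≤ a) (ha' : ∀ i, a ≤ k' i)
    (r m : ℕ) :
    pv (x + y) (r + 2 + m) (lower2_path k k' a r) =
      pv x r k + ‖x a - x (k r)‖ ^ 2 + pv y m k' := by
  have hK1 : ∀ i, i ≤ r → lower2_path k k' a r i = k i := fun i hi => by
    unfold lower2_path
    rw [if_pos hi]
  have hK2 : lower2_path k k' a r (r + 1) = a := by
    unfold lower2_path
    rw [if_neg (by omega), if_pos rfl]
  have hK3 : ∀ i, lower2_path k k' a r (r + 2 + i) = k' i := fun i => by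
    unfold lower2_path
    rw [if_neg (by omega), if_neg (by omega)]
    congr 1
    omega
  have hpath : ∀ n, n ≤ r → pv (x + y) n (lower2_path k k' a r) = pv x n k := by
    intro n
    induction n with
    | zero =>
      intro _
      rw [pv_zero', pv_zero', hK1 0 (by omega), Pi.add_apply, hy _ (ha 0), add_zero]
    | succ n ih =>
      intro hn
      rw [pv_succ, pv_succ, ih (by omega), hK1 (n + 1) hn, hK1 n (by omega), Pi.add_apply,
        Pi.add_apply, hy _ (ha _), hy _ (ha _), add_zero, add_zero]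
  have h1 : pv (x + y) (r + 1) (lower2_path k k' a r) = pv x r k + ‖x a - x (k r)‖ ^ 2 := by
    rw [pv_succ, hpath r le_rfl, hK2, hK1 r le_rfl, Pi.add_apply, Pi.add_apply, hy _ (ha _),
      hy _ le_rfl, add_zero, add_zero]
  induction m with
  | zero =>
    have e : r + 2 + 0 = r + 1 + 1 := by omega
    have h3 := hK3 0
    rw [e] at h3 ⊢
    rw [pv_succ, h1, hK2, h3, pv_zero', Pi.add_apply, Pi.add_apply, hx _ (ha' 0), hy a le_rfl,
      add_zero, add_sub_cancel_left]
  | succ m ih =>
    have e : r + 2 + (m + 1) = r + 2 + m + 1 := by omega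
    have h3 := hK3 (m + 1)
    rw [e] at h3 ⊢
    rw [pv_succ, ih, h3, hK3 m, pv_succ, Pi.add_apply, Pi.add_apply, hx _ (ha' (m + 1)),
      hx _ (ha' m), add_sub_add_left_eq_sub]
    ring

theorem lower2_pv_congr {z : ℕ → W} {k k' : ℕ → ℕ} (h : ∀ i, z (k i) = z (k' i)) (r : ℕ) :
    pv z r k = pv z r k' := by
  induction r with
  | zero => rw [pv_zero', pv_zero', h]
  | succ r ih => rw [pv_succ, pv_succ, ih, h, h]

end

theorem p_lower2 : S_lower2 := by
  intro 𝕜 _ W _ _ V x y a hx hy
  have key : ∀ (r r' : ℕ) (k k' : ℕ → ℕ), Monotone k → Monotone k' →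
      pv x.val r k + pv y.val r' k' ≤ ‖x + y‖ ^ 2 := by
    intro r r' k k' hk hk'
    have e1 : pv x.val r k = pv x.val r (fun i => min (k i) a) := by
      refine lower2_pv_congr (fun i => ?_) r
      rcases le_total (k i) a with h | h
      · rw [min_eq_left h]
      · rw [min_eq_right h, hx _ h]
    have e2 : pv y.val r' k' = pv y.val r' (fun i => max (k' i) a) := by
      refine lower2_pv_congr (fun i => ?_) r'
      rcases le_total (k' i) a with h | h
      · rw [max_eq_right h, hy _ h, hy _ le_rfl]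
      · rw [max_eq_left h]
    have hk1 : Monotone (fun i => min (k i) a) := fun i j hij => min_le_min_right a (hk hij)
    have hk2 : Monotone (fun i => max (k' i) a) := fun i j hij => max_le_max_right a (hk' hij)
    have h := JS.pv_le (x + y) (r + 2 + r')
      (lower2_path (fun i => min (k i) a) (fun i => max (k' i) a) a r)
      (lower2_path_mono hk1 hk2 (fun i => min_le_right _ _) (fun i => le_max_right _ _) r)
    rw [JS.val_add, lower2_pv_path x.val y.val a hx hy (fun i => min_le_right _ _)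
      (fun i => le_max_right _ _) r r', ← e1, ← e2] at h
    have h0 : 0 ≤ ‖x.val a - x.val (min (k r) a)‖ ^ 2 := by positivity
    linarith
  have key2 : ∀ (r' : ℕ) (k' : ℕ → ℕ), Monotone k' →
      ‖x‖ ^ 2 + pv y.val r' k' ≤ ‖x + y‖ ^ 2 := by
    intro r' k' hk'
    have h0 : 0 ≤ ‖x + y‖ ^ 2 - pv y.val r' k' := by
      have h1 := key 0 r' id k' monotone_id hk'
      have h2 := pv_nonneg x.val 0 id
      linarith
    have h3 : ‖x‖ ≤ Real.sqrt (‖x + y‖ ^ 2 - pv y.val r' k') := by
      rw [JS.norm_le_iff x (Real.sqrt_nonneg _)]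
      intro r k hk
      rw [Real.sq_sqrt h0]
      have := key r r' k k' hk hk'
      linarith
    have h4 := pow_le_pow_left₀ (norm_nonneg x) h3 2
    rw [Real.sq_sqrt h0] at h4
    linarith
  have h0 : 0 ≤ ‖x + y‖ ^ 2 - ‖x‖ ^ 2 := by
    have h1 := key2 0 id monotone_id
    have h2 := pv_nonneg y.val 0 id
    linarith
  have h3 : ‖y‖ ≤ Real.sqrt (‖x + y‖ ^ 2 - ‖x‖ ^ 2) := by
    rw [JS.norm_le_iff y (Real.sqrt_nonneg _)]
    intro r k hk
    rw [Real.sq_sqrt h0]
    have := key2 r k hk
    linarith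
  have h4 := pow_le_pow_left₀ (norm_nonneg y) h3 2
  rw [Real.sq_sqrt h0] at h4
  linarith

end Pool.Agent.Lib.MP_355270_an.CB
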