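import Pool.Agent.Lib.MP_355270_an.CB.StmA

open Filter Topology

namespace Pool.Agent.Lib.MP_355270_an.CB

theorem p_noCAB : S_noCAB := by
  intro hcore hext hL3 harith hhump hL3c hL3s hfrz hlow hTV hbl hcX hexI hP1 hP2 htc htt hTb hdX hE2 hD0
    hcompl hclosed htT htf 𝕜 _ W _ _ _ V D h Fr hCAB
  obtain ⟨C, D0, τ, b, hC, h1, h2, h3, h4, h5, h6⟩ :=
    hext hTV hbl hcX hexI hP1 hP2 htc htt hTb hdX hE2 hD0 hcompl hclosed htT htf 𝕜 W V D h hCAB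
  have hmax : ∀ i, ∃ (n : ℕ) (a : Fr.ι i), n ≤ Fr.N i ∧ ∀ (n' : ℕ) (a' : Fr.ι i), n' ≤ Fr.N i →
      ‖D0 (cst h.mono (Fr.jj i) ⟨(Fr.v i n' a' : W), Fr.hF i (Fr.v i n' a').2⟩)‖ ≤
        ‖D0 (cst h.mono (Fr.jj i) ⟨(Fr.v i n a : W), Fr.hF i (Fr.v i n a).2⟩)‖ := by
    intro i
    obtain ⟨p, hp, hp'⟩ := Finset.exists_max_image (Finset.range (Fr.N i + 1) ×ˢ (Finset.univ : Finset (Fr.ι i)))
      (fun p => ‖D0 (cst h.mono (Fr.jj i) ⟨(Fr.v i p.1 p.2 : W), Fr.hF i (Fr.v i p.1 p.2).2⟩)‖)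
      ⟨(0, (Fr.ne i).some), by simp⟩
    refine ⟨p.1, p.2, ?_, fun n' a' hn' => ?_⟩
    · have := (Finset.mem_product.1 hp).1
      rw [Finset.mem_range] at this
      omega
    · exact hp' (n', a') (by simp; omega)
  choose nn aa hnn hm using hmax
  have hlim := hL3 hhump hL3c hL3s htc hfrz hlow hTV 𝕜 W V D h D0 h1 Fr.jj
    (fun i => ⟨(Fr.v i (nn i) (aa i) : W), Fr.hF i (Fr.v i (nn i) (aa i)).2⟩)
    (fun S c hc => Fr.hup (fun i => (Fr.v i (nn i) (aa i) : W)) (fun i => ⟨nn i, aa i, hnn i, rfl⟩) S c hc)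
  have e1 : ∀ᶠ i in atTop, Fr.ε i * C < 1 / 4 := by
    have : Tendsto (fun i => Fr.ε i * C) atTop (𝓝 (0 * C)) := Fr.hε.mul_const C
    rw [zero_mul] at this
    exact this.eventually_lt_const (by norm_num)
  have e2 : ∀ᶠ i in atTop, Fr.ε i * C ^ 2 + C * ‖D0 (cst h.mono (Fr.jj i)
      ⟨(Fr.v i (nn i) (aa i) : W), Fr.hF i (Fr.v i (nn i) (aa i)).2⟩)‖ < 1 / 16 := by
    have : Tendsto (fun i => Fr.ε i * C ^ 2 + C * ‖D0 (cst h.mono (Fr.jj i)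
      ⟨(Fr.v i (nn i) (aa i) : W), Fr.hF i (Fr.v i (nn i) (aa i)).2⟩)‖) atTop (𝓝 (0 * C ^ 2 + C * 0)) :=
      (Fr.hε.mul_const _).add (hlim.const_mul C)
    rw [zero_mul, mul_zero, add_zero] at this
    exact this.eventually_lt_const (by norm_num)
  have e3 : ∀ᶠ i in atTop, C * Fr.ν i < 1 / 4 := by
    have : Tendsto (fun i => C * Fr.ν i) atTop (𝓝 (C * 0)) := Fr.hν.const_mul C
    rw [mul_zero] at this
    exact this.eventually_lt_const (by norm_num)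
  obtain ⟨i, f1, f2, f3⟩ := (e1.and (e2.and e3)).exists
  exact hcore harith 𝕜 W V D h Fr i C _ D0 τ (fun l => b l (Fr.jj i)) hC h2 h3 (fun l => h4 l _)
    (fun x => h5 _ x) (fun l x => h6 l _ x) (fun n a hn => hm i n a hn) f1.le f2.le f3.le

end Pool.Agent.Lib.MP_355270_an.CB
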