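import Pool.Agent.Lib.MP_355270_an.CB.StmB
import Pool.Agent.Lib.MP_355270_an.CB.StmR

open Filter Topology
open scoped ENNReal

namespace Pool.Agent.Lib.MP_355270_an.CB

theorem hoeff_row {I : Type} [Fintype I] [DecidableEq I] (u : I → ℝ) :
    ∑ r : I → Bool, ∏ b, Real.exp (sg (r b) * u b) =
      ∏ b, (2 * Real.cosh (u b)) := by
  have h := Finset.prod_univ_sum (fun _ : I => (Finset.univ : Finset Bool))
    (fun b c => Real.exp (sg c * u b))
  rw [Fintype.piFinset_univ] at h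
  rw [← h]
  refine Finset.prod_congr rfl fun b _ => ?_
  rw [Fintype.sum_bool, sg_true, sg_false, Real.cosh_eq, one_mul, neg_one_mul]
  ring

theorem hoeff_mgf {I : Type} [Fintype I] [DecidableEq I] (u : I → I → ℝ) :
    ∑ g : I → I → Bool, Real.exp (∑ a, ∑ b, sg (g a b) * u a b) =
      ∏ a, ∏ b, (2 * Real.cosh (u a b)) := by
  have h := Finset.prod_univ_sum (fun _ : I => (Finset.univ : Finset (I → Bool)))
    (fun a r => ∏ b, Real.exp (sg (r b) * u a b))
  rw [Fintype.piFinset_univ] at h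
  simp only [hoeff_row] at h
  rw [h]
  refine Finset.sum_congr rfl fun g _ => ?_
  rw [Real.exp_sum]
  refine Finset.prod_congr rfl fun a _ => ?_
  rw [Real.exp_sum]

theorem hoeff_bound {I : Type} [Fintype I] [DecidableEq I] (u : I → I → ℝ) :
    ∑ g : I → I → Bool, Real.exp (∑ a, ∑ b, sg (g a b) * u a b) ≤
      2 ^ (Fintype.card I ^ 2) * Real.exp (∑ a, ∑ b, u a b ^ 2 / 2) := by
  rw [hoeff_mgf, Real.exp_sum]
  have h1 : (2 : ℝ) ^ (Fintype.card I ^ 2) = ∏ _a : I, ∏ _b : I, (2 : ℝ) := by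
    simp only [Finset.prod_const, Finset.card_univ]
    rw [← pow_mul, sq]
  rw [h1, ← Finset.prod_mul_distrib]
  refine Finset.prod_le_prod (fun a _ => Finset.prod_nonneg fun b _ => ?_) fun a _ => ?_
  · have := Real.cosh_pos (u a b)
    positivity
  · rw [Real.exp_sum, ← Finset.prod_mul_distrib]
    refine Finset.prod_le_prod (fun b _ => ?_) fun b _ => ?_
    · have := Real.cosh_pos (u a b)
      positivity
    · exact mul_le_mul_of_nonneg_left (Real.cosh_le_exp_half_sq _) two_pos.le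

theorem p_hoeff : S_hoeff := by
  intro I _ _ x y X Y t hX hY ht hx hy
  obtain ⟨l, hl⟩ : ∃ l : ℝ, l = t / (X * Y) := ⟨_, rfl⟩
  have hXY : 0 < X * Y := mul_pos hX hY
  have hl0 : 0 ≤ l := by rw [hl]; positivity
  have h1 := hoeff_bound (fun a b : I => l * (y a * x b))
  have h2 : ∑ a, ∑ b, (l * (y a * x b)) ^ 2 / 2 = l ^ 2 / 2 * ((∑ a, y a ^ 2) * ∑ b, x b ^ 2) := by
    rw [Finset.sum_mul_sum, Finset.mul_sum]
    refine Finset.sum_congr rfl fun a _ => ?_
    rw [Finset.mul_sum]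
    refine Finset.sum_congr rfl fun b _ => ?_
    ring
  have h3 : ∑ a, ∑ b, (l * (y a * x b)) ^ 2 / 2 ≤ l ^ 2 / 2 * (Y * X) := by
    rw [h2]
    refine mul_le_mul_of_nonneg_left ?_ (by positivity)
    exact mul_le_mul hy hx (Finset.sum_nonneg fun _ _ => sq_nonneg _) hY.le
  have h4 : ∀ g : I → I → Bool, ∑ a, ∑ b, sg (g a b) * (l * (y a * x b)) =
      l * ∑ a, ∑ b, sg (g a b) * y a * x b := by
    intro g
    rw [Finset.mul_sum]
    refine Finset.sum_congr rfl fun a _ => ?_
    rw [Finset.mul_sum]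
    refine Finset.sum_congr rfl fun b _ => ?_
    ring
  simp only [h4] at h1
  have h5 := h1.trans (mul_le_mul_of_nonneg_left (Real.exp_le_exp.2 h3) (by positivity))
  classical
  have hcard : Nat.card {g : I → I → Bool // t ≤ ∑ a, ∑ b, sg (g a b) * y a * x b} =
      (Finset.univ.filter fun g : I → I → Bool => t ≤ ∑ a, ∑ b, sg (g a b) * y a * x b).card := by
    rw [Nat.card_eq_fintype_card, Fintype.card_subtype]
  rw [hcard]
  have h6 : ((Finset.univ.filter fun g : I → I → Bool =>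
      t ≤ ∑ a, ∑ b, sg (g a b) * y a * x b).card : ℝ) * Real.exp (l * t) ≤
      ∑ g : I → I → Bool, Real.exp (l * ∑ a, ∑ b, sg (g a b) * y a * x b) := by
    rw [← nsmul_eq_mul, ← Finset.sum_const]
    refine (Finset.sum_le_sum fun g hg => ?_).trans
      (Finset.sum_le_sum_of_subset_of_nonneg (Finset.filter_subset _ _)
        fun g _ _ => (Real.exp_pos _).le)
    exact Real.exp_le_exp.2 (mul_le_mul_of_nonneg_left (Finset.mem_filter.1 hg).2 hl0)
  have h7 := h6.trans h5
  rw [← le_div_iff₀ (Real.exp_pos _), mul_div_assoc, ← Real.exp_sub] at h7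
  have h8 : l ^ 2 / 2 * (Y * X) - l * t = -(t ^ 2 / (2 * X * Y)) := by
    rw [hl]
    field_simp
    ring
  rwa [h8] at h7

end Pool.Agent.Lib.MP_355270_an.CB
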