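import Pool.Agent.Lib.MP_355270_an.CB.StmB

open Filter Topology
open scoped ENNReal

namespace Pool.Agent.Lib.MP_355270_an.CB

theorem Phnorm_gl_add (κ t : ℕ) (φ ψ : (Fin (κ + t + 2) → Bool) → ℝ) :
    gl κ t (φ + ψ) = gl κ t φ + gl κ t ψ := by
  unfold gl
  rw [← Finset.sum_add_distrib]
  refine Finset.sum_congr rfl fun g _ => ?_
  rw [← lp.single_add, Pi.add_apply, mul_add]

theorem Phnorm_gl_smul (κ t : ℕ) (c : ℝ) (φ : (Fin (κ + t + 2) → Bool) → ℝ) :
    gl κ t (c • φ) = c • gl κ t φ := by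
  unfold gl
  rw [Finset.smul_sum]
  refine Finset.sum_congr rfl fun g _ => ?_
  rw [← lp.single_smul, Pi.smul_apply, smul_eq_mul, smul_eq_mul]
  congr 1
  ring

theorem Phnorm_gl_zero (κ t : ℕ) : gl κ t (0 : (Fin (κ + t + 2) → Bool) → ℝ) = 0 := by
  have := Phnorm_gl_smul κ t 0 0
  rw [zero_smul, zero_smul] at this
  exact this

theorem Phnorm_gl_sum (κ t : ℕ) {J : Type} (s : Finset J)
    (φ : J → (Fin (κ + t + 2) → Bool) → ℝ) :
    gl κ t (∑ j ∈ s, φ j) = ∑ j ∈ s, gl κ t (φ j) := by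
  classical
  induction s using Finset.induction_on with
  | empty => rw [Finset.sum_empty, Finset.sum_empty, Phnorm_gl_zero]
  | insert a s ha ih => rw [Finset.sum_insert ha, Finset.sum_insert ha, Phnorm_gl_add, ih]

theorem Phnorm_gl_lin (κ t : ℕ) {J : Type} (s : Finset J) (c : J → ℝ)
    (φ : J → (Fin (κ + t + 2) → Bool) → ℝ) :
    gl κ t (fun h => ∑ j ∈ s, c j * φ j h) = ∑ j ∈ s, c j • gl κ t (φ j) := by
  have : (fun h => ∑ j ∈ s, c j * φ j h) = ∑ j ∈ s, c j • φ j := by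
    funext h
    rw [Finset.sum_apply]
    rfl
  rw [this, Phnorm_gl_sum]
  refine Finset.sum_congr rfl fun j _ => ?_
  rw [Phnorm_gl_smul]

theorem Phnorm_norm2 (h1 : S_glnorm) (κ : ℕ) (φ1 : (Fin (κ + 1 + 2) → Bool) → ℝ)
    (φ0 : (Fin (κ + 0 + 2) → Bool) → ℝ) :
    ‖gl κ 1 φ1 + gl κ 0 φ0‖ ^ 3 = (∑ g, |φ1 g| ^ 3) / nu κ 1 + (∑ g, |φ0 g| ^ 3) / nu κ 0 := by
  let φ : ∀ t : ℕ, (Fin (κ + t + 2) → Bool) → ℝ := fun t => match t with
    | 0 => φ0
    | 1 => φ1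
    | _ + 2 => 0
  have h := h1 κ 2 φ
  rw [Finset.sum_range_succ, Finset.sum_range_one, Finset.sum_range_succ, Finset.sum_range_one] at h
  have e0 : φ 0 = φ0 := rfl
  have e1 : φ 1 = φ1 := rfl
  rw [e0, e1] at h
  rw [add_comm, h, add_comm]

theorem Phnorm_norm3 (h1 : S_glnorm) (κ t : ℕ) (φ2 : (Fin (κ + (t + 1 + 1) + 2) → Bool) → ℝ)
    (φ1 : (Fin (κ + (t + 1) + 2) → Bool) → ℝ) (φ0 : (Fin (κ + t + 2) → Bool) → ℝ) :
    ‖gl κ (t + 1 + 1) φ2 + gl κ (t + 1) φ1 + gl κ t φ0‖ ^ 3 =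
      (∑ g, |φ2 g| ^ 3) / nu κ (t + 1 + 1) + (∑ g, |φ1 g| ^ 3) / nu κ (t + 1) +
        (∑ g, |φ0 g| ^ 3) / nu κ t := by
  let φ : ∀ s : ℕ, (Fin (κ + s + 2) → Bool) → ℝ :=
    Function.update (Function.update (Function.update 0 t φ0) (t + 1) φ1) (t + 1 + 1) φ2
  have e2 : φ (t + 1 + 1) = φ2 := Function.update_self _ _ _
  have e1 : φ (t + 1) = φ1 := by
    show Function.update _ _ _ _ = _
    rw [Function.update_of_ne (by omega), Function.update_self]
  have e0 : φ t = φ0 := by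
    show Function.update _ _ _ _ = _
    rw [Function.update_of_ne (by omega), Function.update_of_ne (by omega), Function.update_self]
  have ez : ∀ s, s < t → φ s = 0 := by
    intro s hs
    show Function.update _ _ _ _ = _
    rw [Function.update_of_ne (by omega), Function.update_of_ne (by omega),
      Function.update_of_ne (by omega)]
    rfl
  have h := h1 κ (t + 1 + 1 + 1) φ
  rw [Finset.sum_range_succ, Finset.sum_range_succ, Finset.sum_range_succ,
    Finset.sum_range_succ, Finset.sum_range_succ, Finset.sum_range_succ, e0, e1, e2] at h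
  rw [Finset.sum_eq_zero fun s hs => by
    rw [ez s (Finset.mem_range.1 hs), Phnorm_gl_zero]] at h
  rw [Finset.sum_eq_zero (s := Finset.range t) fun s hs => by
    rw [ez s (Finset.mem_range.1 hs)]; simp] at h
  rw [zero_add, zero_add] at h
  have : gl κ (t + 1 + 1) φ2 + gl κ (t + 1) φ1 + gl κ t φ0 =
      gl κ t φ0 + gl κ (t + 1) φ1 + gl κ (t + 1 + 1) φ2 := by abel
  rw [this, h]
  ring

/-- Power means in the form used here. -/
theorem Phnorm_avg {G H : Type} [Fintype G] [Fintype H] (X : G → H → ℝ) (C s μ nG nH : ℝ)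
    (hG : (Fintype.card G : ℝ) = nG) (hH : (Fintype.card H : ℝ) = nH) (hG0 : 0 < nG) (hH0 : 0 < nH)
    (hs : 0 < s) (hμ : 0 < μ) (h : ∑ g, ∑ h, X g h ^ 4 ≤ C * s ^ 4 * (nG * nH)) :
    (1 / nG) * ∑ g, (∑ h, |X g h| ^ 3) / nH ≤ (3 * C / (4 * μ) + μ ^ 3 / 4) * s ^ 3 := by
  have hpt : ∀ g h, |X g h| ^ 3 ≤ (3 / (4 * (μ * s))) * X g h ^ 4 + (μ * s) ^ 3 / 4 := by
    intro g h
    have h4 : X g h ^ 4 = |X g h| ^ 4 := by
      rw [show (4 : ℕ) = 2 * 2 by norm_num, pow_mul, pow_mul, sq_abs]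
    rw [h4]
    set x := |X g h| with hx
    have hx0 : 0 ≤ x := abs_nonneg _
    set l := μ * s with hl
    have hl0 : 0 < l := mul_pos hμ hs
    have key : 4 * l * x ^ 3 ≤ 3 * x ^ 4 + l ^ 4 := by
      nlinarith [mul_nonneg (sq_nonneg (x - l)) (show (0 : ℝ) ≤ 3 * x ^ 2 + 2 * l * x + l ^ 2 by positivity)]
    have e : (3 / (4 * l)) * x ^ 4 + l ^ 3 / 4 = (3 * x ^ 4 + l ^ 4) / (4 * l) := by
      field_simp
    rw [e, le_div_iff₀ (by positivity)]
    linarith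
  have hsum : ∑ g, ∑ h, |X g h| ^ 3 ≤
      (3 / (4 * (μ * s))) * (C * s ^ 4 * (nG * nH)) + (nG * nH) * ((μ * s) ^ 3 / 4) := by
    calc ∑ g, ∑ h, |X g h| ^ 3 ≤ ∑ g, ∑ h, ((3 / (4 * (μ * s))) * X g h ^ 4 + (μ * s) ^ 3 / 4) :=
          Finset.sum_le_sum fun g _ => Finset.sum_le_sum fun h _ => hpt g h
      _ = (3 / (4 * (μ * s))) * (∑ g, ∑ h, X g h ^ 4) + (nG * nH) * ((μ * s) ^ 3 / 4) := by
          simp only [Finset.sum_add_distrib, Finset.sum_const, Finset.card_univ, nsmul_eq_mul, hG, hH,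
            Finset.mul_sum]
          ring
      _ ≤ _ := by
          have : 0 ≤ 3 / (4 * (μ * s)) := by positivity
          linarith [mul_le_mul_of_nonneg_left h this]
  rw [← Finset.sum_div, one_div, ← div_eq_inv_mul, div_div, div_le_iff₀ (by positivity)]
  refine hsum.trans (le_of_eq ?_)
  field_simp

theorem Phnorm_card (κ t : ℕ) : (Fintype.card (Fin (κ + t + 2) → Bool) : ℝ) = nu κ t := by
  unfold nu
  simp

theorem Phnorm_nu_pos (κ t : ℕ) : 0 < nu κ t := by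
  unfold nu
  positivity

theorem p_Phnorm (h1 : S_glnorm) : S_Phnorm := by
  intro κ d t
  set s : ℝ := Real.sqrt ((2 : ℝ) ^ (κ + t)) with hs
  have hs0 : 0 < s := Real.sqrt_pos.2 (by positivity)
  have hs2 : s ^ 2 = 2 ^ (κ + t) := Real.sq_sqrt (by positivity)
  have hs4 : s ^ 4 = 4 ^ (κ + t) := by
    rw [show (4 : ℕ) = 2 * 2 by norm_num, pow_mul, hs2, ← pow_mul, mul_comm (κ + t) 2, pow_mul]
    norm_num
  have hs3 : ((2 : ℝ) ^ (κ + t)) ^ (3 / 2 : ℝ) = s ^ 3 := by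
    rw [← hs2, ← Real.rpow_natCast s 2, ← Real.rpow_mul hs0.le, ← Real.rpow_natCast s 3]
    norm_num
  rw [hs3]
  -- the functions on the levels
  let X2 : (Fin (κ + t + 2) → Bool) → (Fin (κ + (t + 1) + 2) → Bool) → ℝ := fun g h =>
    ∑ j : Fin (κ + t + 1) → Bool, walsh (d.b t j) g * (sg (d.σ (t + 1) j) * walsh (d.a (t + 1) j) h)
  let X1 : (Fin (κ + t + 2) → Bool) → (Fin (κ + t + 2) → Bool) → ℝ := fun g h =>
    ∑ j : Fin (κ + t + 1) → Bool, walsh (d.b t j) g * walsh (d.b t j) h -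
      2 * ∑ j : Fin (κ + t) → Bool, (sg (d.σ t j) * walsh (d.a t j) g) * (sg (d.σ t j) * walsh (d.a t j) h)
  have hX1 : ∀ g h, X1 g h = ∑ j : Fin (κ + t + 1) → Bool, walsh (d.b t j) g * walsh (d.b t j) h -
      2 * ∑ j : Fin (κ + t) → Bool, walsh (d.a t j) g * walsh (d.a t j) h := by
    intro g h
    show _ - 2 * _ = _ - 2 * _
    congr 2
    refine Finset.sum_congr rfl fun j _ => ?_
    calc (sg (d.σ t j) * walsh (d.a t j) g) * (sg (d.σ t j) * walsh (d.a t j) h) =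
          (sg (d.σ t j) * sg (d.σ t j)) * (walsh (d.a t j) g * walsh (d.a t j) h) := by ring
      _ = _ := by rw [sg_mul_self, one_mul]
  have A2 : (1 / nu κ t) * ∑ g, (∑ h, |X2 g h| ^ 3) / nu κ (t + 1) ≤
      (3 * 12 / (4 * 2) + 2 ^ 3 / 4) * s ^ 3 := by
    refine Phnorm_avg X2 12 s 2 _ _ (Phnorm_card κ t) (Phnorm_card κ (t + 1)) (Phnorm_nu_pos κ t)
      (Phnorm_nu_pos κ (t + 1)) hs0 (by norm_num) ?_
    rw [Finset.sum_comm]
    have h := d.F2 t
    have e : ∀ g h, X2 h g = ∑ j : Fin (κ + t + 1) → Bool,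
        sg (d.σ (t + 1) j) * walsh (d.a (t + 1) j) g * walsh (d.b t j) h := by
      intro g h
      refine Finset.sum_congr rfl fun j _ => ?_
      ring
    simp only [e]
    refine h.trans (le_of_eq ?_)
    rw [hs4]
    unfold nu
    ring
  have A1 : (1 / nu κ t) * ∑ g, (∑ h, |X1 g h| ^ 3) / nu κ t ≤
      (3 * 1024 / (4 * 5.5) + 5.5 ^ 3 / 4) * s ^ 3 := by
    refine Phnorm_avg X1 1024 s 5.5 _ _ (Phnorm_card κ t) (Phnorm_card κ t) (Phnorm_nu_pos κ t)
      (Phnorm_nu_pos κ t) hs0 (by norm_num) ?_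
    simp only [hX1]
    refine (d.F1 t).trans (le_of_eq ?_)
    rw [hs4]
    unfold nu
    ring
  have e2 : ∀ g, gl κ (t + 1) (X2 g) = ∑ j : Fin (κ + t + 1) → Bool, walsh (d.b t j) g •
      gl κ (t + 1) (fun h => sg (d.σ (t + 1) j) * walsh (d.a (t + 1) j) h) := fun g =>
    Phnorm_gl_lin κ (t + 1) Finset.univ (fun j : Fin (κ + t + 1) → Bool => walsh (d.b t j) g)
      (fun j h => sg (d.σ (t + 1) j) * walsh (d.a (t + 1) j) h)
  have e1 : ∀ g, gl κ t (X1 g) = ∑ j : Fin (κ + t + 1) → Bool, walsh (d.b t j) g •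
      gl κ t (fun h => walsh (d.b t j) h) - (2 : ℝ) • ∑ j : Fin (κ + t) → Bool,
      (sg (d.σ t j) * walsh (d.a t j) g) •
      gl κ t (fun h => sg (d.σ t j) * walsh (d.a t j) h) := by
    intro g
    rw [← Phnorm_gl_lin κ t Finset.univ (fun j => walsh (d.b t j) g)
      (fun j h => walsh (d.b t j) h), ← Phnorm_gl_lin κ t Finset.univ
      (fun j => sg (d.σ t j) * walsh (d.a t j) g)
      (fun j h => sg (d.σ t j) * walsh (d.a t j) h), ← Phnorm_gl_smul, sub_eq_add_neg,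
      ← neg_one_smul ℝ (gl κ t _), ← Phnorm_gl_smul, ← Phnorm_gl_add]
    congr 1
    funext h
    simp only [X1, Pi.add_apply, Pi.smul_apply, smul_eq_mul]
    ring
  have hS : 0 < s ^ 3 := by positivity
  cases t with
  | zero =>
    have hPh : ∀ g, ‖d.Ph 0 g‖ ^ 3 =
        (∑ h, |X2 g h| ^ 3) / nu κ (0 + 1) + (∑ h, |X1 g h| ^ 3) / nu κ 0 := by
      intro g
      have e : ((d.Ph 0 g : d.V) : L3 κ) = gl κ 1 (X2 g) + gl κ 0 (X1 g) := by
        rw [e2, e1]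
        unfold DD.Ph
        simp only [Submodule.coe_sub, Submodule.coe_smul, Submodule.coe_sum, DD.eV, DD.e,
          smul_add, Finset.sum_add_distrib]
        abel
      have e' : ‖d.Ph 0 g‖ = ‖((d.Ph 0 g : d.V) : L3 κ)‖ := rfl
      rw [e', e]
      exact Phnorm_norm2 h1 κ (X2 g) (X1 g)
    simp only [hPh]
    rw [Finset.sum_add_distrib, mul_add]
    norm_num at A1 A2 ⊢
    linarith
  | succ t =>
    let X0 : (Fin (κ + (t + 1) + 2) → Bool) → (Fin (κ + t + 2) → Bool) → ℝ := fun g h =>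
      ∑ j : Fin (κ + t + 1) → Bool, (-2 * (sg (d.σ (t + 1) j) * walsh (d.a (t + 1) j) g)) *
        walsh (d.b t j) h
    have A0 : (1 / nu κ (t + 1)) * ∑ g, (∑ h, |X0 g h| ^ 3) / nu κ t ≤
        (3 * 48 / (4 * 2.5) + 2.5 ^ 3 / 4) * s ^ 3 := by
      refine Phnorm_avg X0 48 s 2.5 _ _ (Phnorm_card κ (t + 1)) (Phnorm_card κ t)
        (Phnorm_nu_pos κ (t + 1)) (Phnorm_nu_pos κ t) hs0 (by norm_num) ?_
      have h := d.F2 t
      have e : ∀ g h, X0 g h ^ 4 = 16 * (∑ j : Fin (κ + t + 1) → Bool,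
          sg (d.σ (t + 1) j) * walsh (d.a (t + 1) j) g * walsh (d.b t j) h) ^ 4 := by
        intro g h
        have : X0 g h = -2 * ∑ j : Fin (κ + t + 1) → Bool,
            sg (d.σ (t + 1) j) * walsh (d.a (t + 1) j) g * walsh (d.b t j) h := by
          rw [Finset.mul_sum]
          refine Finset.sum_congr rfl fun j _ => ?_
          ring
        rw [this]
        ring
      simp only [e, ← Finset.mul_sum]
      refine (mul_le_mul_of_nonneg_left h (by norm_num)).trans (le_of_eq ?_)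
      rw [hs4]
      unfold nu
      rw [show κ + (t + 1) = κ + t + 1 by omega]
      ring
    have e0 : ∀ g, gl κ t (X0 g) = ∑ j : Fin (κ + t + 1) → Bool,
        (-2 * (sg (d.σ (t + 1) j) * walsh (d.a (t + 1) j) g)) •
        gl κ t (fun h => walsh (d.b t j) h) := fun g =>
      Phnorm_gl_lin κ t Finset.univ (fun j : Fin (κ + t + 1) → Bool =>
        (-2 * (sg (d.σ (t + 1) j) * walsh (d.a (t + 1) j) g))) (fun j h => walsh (d.b t j) h)
    have hPh : ∀ g, ‖d.Ph (t + 1) g‖ ^ 3 =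
        (∑ h, |X2 g h| ^ 3) / nu κ (t + 1 + 1) + (∑ h, |X1 g h| ^ 3) / nu κ (t + 1) +
          (∑ h, |X0 g h| ^ 3) / nu κ t := by
      intro g
      have e : ((d.Ph (t + 1) g : d.V) : L3 κ) =
          gl κ (t + 1 + 1) (X2 g) + gl κ (t + 1) (X1 g) + gl κ t (X0 g) := by
        rw [e2, e1, e0]
        unfold DD.Ph
        simp only [Submodule.coe_sub, Submodule.coe_smul, Submodule.coe_sum, DD.eV, DD.e,
          smul_add, Finset.sum_add_distrib, mul_smul, neg_smul, ← Finset.smul_sum,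
          Finset.sum_neg_distrib]
        abel
      have e' : ‖d.Ph (t + 1) g‖ = ‖((d.Ph (t + 1) g : d.V) : L3 κ)‖ := rfl
      rw [e', e]
      exact Phnorm_norm3 h1 κ t (X2 g) (X1 g) (X0 g)
    simp only [hPh]
    rw [Finset.sum_add_distrib, Finset.sum_add_distrib, mul_add, mul_add]
    norm_num at A0 A1 A2 ⊢
    linarith

end Pool.Agent.Lib.MP_355270_an.CB
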