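import Pool.Agent.Lib.MP_355270_an.CB.StmB
import Pool.Agent.Lib.MP_355270_an.CB.StmR

open Filter Topology
open scoped ENNReal

namespace Pool.Agent.Lib.MP_355270_an.CB

theorem smallball_num : Real.exp (1 / 6) * (1 + Real.exp (-2)) ≤ (2 : ℝ) ^ (1 / 2 : ℝ) := by
  have h1 : Real.exp (1 / 6) ≤ 119 / 100 := by
    have h : Real.exp (1 / 6) ^ 6 ≤ (119 / 100 : ℝ) ^ 6 := by
      rw [← Real.exp_nat_mul]
      have : Real.exp ((6 : ℕ) * (1 / 6 : ℝ)) = Real.exp 1 := by congr 1; norm_num
      rw [this]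
      have := Real.exp_one_lt_d9
      norm_num at this ⊢
      linarith
    exact le_of_pow_le_pow_left₀ (by norm_num) (by norm_num) h
  have h2 : Real.exp (-2) ≤ 14 / 100 := by
    rw [Real.exp_neg]
    have h3 : (100 / 14 : ℝ) ≤ Real.exp 2 := by
      have h4 : Real.exp 2 = Real.exp 1 ^ 2 := by rw [← Real.exp_nat_mul]; norm_num
      rw [h4]
      have := Real.exp_one_gt_d9
      nlinarith
    rw [inv_le_comm₀ (Real.exp_pos _) (by norm_num)]
    norm_num at h3 ⊢
    exact h3
  have h3 : (141 / 100 : ℝ) ≤ (2 : ℝ) ^ (1 / 2 : ℝ) := by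
    rw [← Real.sqrt_eq_rpow]
    exact Real.le_sqrt_of_sq_le (by norm_num)
  have h4 : 0 ≤ Real.exp (-2) := (Real.exp_pos _).le
  have h5 : 0 ≤ Real.exp (1 / 6) := (Real.exp_pos _).le
  nlinarith

theorem smallball_sum {I H : Type} [Fintype I] [DecidableEq I] [NormedAddCommGroup H]
    [InnerProductSpace ℝ H] (m : I → H) (d : ℕ) (η : ℝ) (t : H) (C : ℝ) (f : Fin d → I)
    (hinj : Function.Injective f)
    (h : ∀ t' : H, ∑ θ : Fin d → Bool,
      Real.exp (-(2 / η) * ‖∑ j, sg (θ j) • m (f j) - t'‖ ^ 2) ≤ C) :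
    ∑ θ : I → Bool, Real.exp (-(2 / η) * ‖∑ i, sg (θ i) • m i - t‖ ^ 2) ≤
      2 ^ (Fintype.card I - d) * C := by
  classical
  obtain ⟨p, hp⟩ : ∃ p : I → Prop, ∀ i, p i ↔ i ∈ Set.range f := ⟨_, fun _ => Iff.rfl⟩
  let e := Equiv.piEquivPiSubtypeProd p (fun _ => Bool)
  obtain ⟨g, hg⟩ : ∃ g : Fin d ≃ {i // p i}, ∀ j, (g j : I) = f j :=
    ⟨(Equiv.ofInjective f hinj).trans (Equiv.subtypeEquivRight fun i => (hp i).symm),
      fun j => rfl⟩
  have hcard : Fintype.card {i // ¬ p i} = Fintype.card I - d := by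
    rw [Fintype.card_subtype_compl]
    congr 1
    have := Fintype.card_congr g
    rw [Fintype.card_fin] at this
    exact this.symm
  rw [← Equiv.sum_comp e.symm, Fintype.sum_prod_type_right]
  have key : ∀ b : ({i // ¬ p i} → Bool), ∑ a : ({i // p i} → Bool),
      Real.exp (-(2 / η) * ‖∑ i, sg (e.symm (a, b) i) • m i - t‖ ^ 2) ≤ C := by
    intro b
    refine le_trans (le_of_eq ?_) (h (t - ∑ i : {i // ¬ p i}, sg (b i) • m i))
    rw [← Equiv.sum_comp (Equiv.arrowCongr g (Equiv.refl Bool))]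
    refine Finset.sum_congr rfl fun θ _ => ?_
    congr 3
    have hs : ∑ i, sg (e.symm ((Equiv.arrowCongr g (Equiv.refl Bool)) θ, b) i) • m i =
        ∑ j, sg (θ j) • m (f j) + ∑ i : {i // ¬ p i}, sg (b i) • m i := by
      rw [← Fintype.sum_subtype_add_sum_subtype p]
      congr 1
      · symm
        refine Finset.sum_bij (fun j _ => g j) (fun _ _ => @Finset.mem_univ _ _ _)
          (fun _ _ _ _ h => g.injective h) (fun x _ => ⟨g.symm x, Finset.mem_univ _, by simp⟩)
          (fun j _ => ?_)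
        have hp : p (g j : I) := (g j).2
        have h1 : e.symm ((Equiv.arrowCongr g (Equiv.refl Bool)) θ, b) (g j : I) = θ j := by
          show (if hx : p (g j : I) then _ else _) = _
          rw [dif_pos hp]
          simp [Equiv.arrowCongr]
        rw [h1, hg]
      · refine Finset.sum_congr rfl fun i _ => ?_
        have h1 : e.symm ((Equiv.arrowCongr g (Equiv.refl Bool)) θ, b) (i : I) = b i := by
          show (if hx : p (i : I) then _ else _) = _
          rw [dif_neg i.2]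
        rw [h1]
    rw [hs]
    abel_nf
  refine (Finset.sum_le_sum fun b _ => key b).trans (le_of_eq ?_)
  rw [Finset.sum_const, nsmul_eq_mul, Finset.card_univ, Fintype.card_fun, Fintype.card_bool, hcard]
  push_cast
  rfl

theorem p_smallball (h1 : S_expmom) : S_smallball := by
  classical
  intro I H _ _ _ _ m d η B t hη hG hB
  obtain ⟨f, hf⟩ := hG
  have hlt : ∀ j l : Fin d, l < j → f j ≠ f l := by
    intro j l hlj he
    have := hf j (m (f l)) (Submodule.subset_span ⟨l, hlj, rfl⟩)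
    rw [he, sub_self, norm_zero] at this
    norm_num at this
    linarith
  have hinj : Function.Injective f := by
    intro j l he
    rcases lt_trichotomy j l with h | h | h
    · exact (hlt l j h he.symm).elim
    · exact h
    · exact (hlt j l h he).elim
  have hdk : d ≤ Fintype.card I := by
    have := Fintype.card_le_of_injective f hinj
    rwa [Fintype.card_fin] at this
  have hsum := smallball_sum m d η t ((1 + Real.exp (-2)) ^ d) f hinj
    (fun t' => h1 H d (fun j => m (f j)) η hη hf t')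
  -- Markov
  have hmark : (Nat.card {θ : I → Bool // ‖∑ i, sg (θ i) • m i - t‖ ^ 2 ≤ B} : ℝ) *
      Real.exp (-(2 / η) * B) ≤
      ∑ θ : I → Bool, Real.exp (-(2 / η) * ‖∑ i, sg (θ i) • m i - t‖ ^ 2) := by
    rw [Nat.card_eq_fintype_card, Fintype.card_subtype]
    rw [← nsmul_eq_mul, ← Finset.sum_const]
    refine (Finset.sum_le_sum fun θ hθ => ?_).trans
      (Finset.sum_le_sum_of_subset_of_nonneg (Finset.filter_subset _ _)
        fun _ _ _ => (Real.exp_pos _).le)
    rw [Finset.mem_filter] at hθ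
    apply Real.exp_le_exp.mpr
    have : 0 ≤ 2 / η := by positivity
    nlinarith [hθ.2]
  set N : ℝ := (Nat.card {θ : I → Bool // ‖∑ i, sg (θ i) • m i - t‖ ^ 2 ≤ B} : ℝ) with hN
  have h2 : N ≤ Real.exp ((2 / η) * B) * (2 ^ (Fintype.card I - d) * (1 + Real.exp (-2)) ^ d) := by
    have h3 : N * Real.exp (-(2 / η) * B) ≤ 2 ^ (Fintype.card I - d) * (1 + Real.exp (-2)) ^ d :=
      hmark.trans hsum
    have h4 : N = Real.exp ((2 / η) * B) * (N * Real.exp (-(2 / η) * B)) := by
      rw [mul_comm N, ← mul_assoc, ← Real.exp_add]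
      ring_nf
      simp
    rw [h4]
    exact mul_le_mul_of_nonneg_left h3 (Real.exp_pos _).le
  have h5 : Real.exp ((2 / η) * B) ≤ Real.exp (1 / 6) ^ d := by
    rw [← Real.exp_nat_mul]
    apply Real.exp_le_exp.mpr
    rw [div_mul_eq_mul_div, div_le_iff₀ hη]
    nlinarith
  have h6 : (2 : ℝ) ^ ((Fintype.card I : ℝ) - d / 2) =
      2 ^ (Fintype.card I - d) * ((2 : ℝ) ^ (1 / 2 : ℝ)) ^ d := by
    rw [← Real.rpow_natCast, ← Real.rpow_natCast, ← Real.rpow_mul (by norm_num),
      ← Real.rpow_add (by norm_num)]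
    congr 1
    rw [Nat.cast_sub hdk]
    ring
  rw [h6]
  refine h2.trans ?_
  have h7 : Real.exp (1 / 6) ^ d * (1 + Real.exp (-2)) ^ d ≤ ((2 : ℝ) ^ (1 / 2 : ℝ)) ^ d := by
    rw [← mul_pow]
    exact pow_le_pow_left₀ (by positivity) smallball_num d
  calc Real.exp ((2 / η) * B) * (2 ^ (Fintype.card I - d) * (1 + Real.exp (-2)) ^ d)
      ≤ Real.exp (1 / 6) ^ d * (2 ^ (Fintype.card I - d) * (1 + Real.exp (-2)) ^ d) :=
        mul_le_mul_of_nonneg_right h5 (by positivity)
    _ = 2 ^ (Fintype.card I - d) * (Real.exp (1 / 6) ^ d * (1 + Real.exp (-2)) ^ d) := by ring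
    _ ≤ _ := mul_le_mul_of_nonneg_left h7 (by positivity)

end Pool.Agent.Lib.MP_355270_an.CB
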