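import Pool.Agent.Lib.MP_355270_an.CB.StmU

open Filter Topology
open scoped ENNReal

namespace Pool.Agent.Lib.MP_355270_an.CB

open BP

theorem UR5_card (P : BP) : (Fintype.card P.I : ℝ) = P.k := by
  simp [BP.I, BP.k]

theorem UR5_F (P : BP) (a : P.I) (y : P.Dv.V) : |P.Dv.F a y| ≤ ‖y‖ := by
  have h := P.Dv.hF2 y
  have h1 : (P.Dv.F a y) ^ 2 ≤ ∑ a, (P.Dv.F a y) ^ 2 :=
    Finset.single_le_sum (f := fun a => (P.Dv.F a y) ^ 2) (fun _ _ => sq_nonneg _)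
      (Finset.mem_univ a)
  exact abs_le_of_sq_le_sq (h1.trans h) (norm_nonneg _)

theorem UR5_kpos (P : BP) : 0 < P.k := by
  unfold BP.k
  positivity

theorem UR5_av_eq (P : BP) (x : P.I → P.UT) :
    av P.Xi x = (1 / P.k) * ∑ a, P.Xi a (x a) := by
  unfold av
  rw [one_div]
  congr 2
  exact_mod_cast UR5_card P

theorem UR5_av_le (P : BP) (x : P.I → P.UT) :
    |av P.Xi x| ≤ (1 / P.k) * ∑ a, ‖x a‖ := by
  rw [UR5_av_eq, abs_mul, abs_of_pos (one_div_pos.2 (UR5_kpos P))]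
  refine mul_le_mul_of_nonneg_left ?_ (one_div_pos.2 (UR5_kpos P)).le
  refine (Finset.abs_sum_le_sum_abs _ _).trans (Finset.sum_le_sum fun a _ => ?_)
  have e : P.Xi a (x a) = co (x a) (0, Fin.last P.N, a) := rfl
  rw [e]
  exact BP.abs_co_le (x a) (0, Fin.last P.N, a)

theorem UR5_tr_smul_one (P : BP) (M : Matrix P.I P.I ℝ) (c : ℝ) :
    P.tr (M - c • (1 : Matrix P.I P.I ℝ)) = P.tr M - c := by
  unfold BP.tr
  have h : ∀ a : P.I, (M - c • (1 : Matrix P.I P.I ℝ)) a a = M a a - c := by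
    intro a
    rw [Matrix.sub_apply, Matrix.smul_apply, Matrix.one_apply_eq, smul_eq_mul, mul_one]
  simp_rw [h]
  rw [Finset.sum_sub_distrib, Finset.sum_const, Finset.card_univ, nsmul_eq_mul, mul_sub,
    UR5_card]
  congr 1
  rw [← mul_assoc, one_div_mul_cancel (UR5_kpos P).ne', one_mul]

/-- the average of the Davie part -/
theorem UR5_avg (h7 : S_AVG) (h8 : S_UC1) (P : BP) (n : ℕ) (hn : n ≤ P.N)
    (C : P.Hd →L[ℝ] P.Dv.V) : (1 / P.k) * ∑ a, ‖C (P.vv n a)‖ ≤ ‖C‖ * P.qk := by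
  have h := h7 P.Hd P.Dv.V P.I (P.vv n) P.s 3 1 (by linarith [P.hs3]) (by norm_num) (by norm_num)
    (by rw [UR5_card]; exact h8 P n hn) P.Dv.hCT C
  rw [UR5_card] at h
  unfold BP.qk
  calc _ ≤ _ := h
    _ = _ := by ring

/-- the matrices of a contraction are nearly scalar -/
theorem UR5_mat (h1 : S_UBdd) (h2 : S_Ulam) (h3 : S_Utr) (P : BP) (ε' : ℝ) (hε : 0 < ε')
    (hε1 : ε' ≤ 1) (hR : P.RigP ε') (B : P.Hd →L[ℝ] P.UT) (hB : ‖B‖ ≤ 1) :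
    (∀ i j, i ≠ j → HS2 (P.MB B i j) ≤ (Real.sqrt ε') ^ 2 * P.k) ∧
    (∀ i, ∃ c : ℝ, |c| ≤ P.C1 + 2 - 1 ∧
      HS2 (P.MB B i i - c • (1 : Matrix P.I P.I ℝ)) ≤ (Real.sqrt ε') ^ 2 * P.k) := by
  have hk := UR5_kpos P
  rw [Real.sq_sqrt hε.le]
  constructor
  · intro i j hij
    exact (hR j i (P.MB B i j) (h1 P B j i hB)).1 (Ne.symm hij)
  · intro i
    obtain ⟨c, hc⟩ := (hR i i (P.MB B i i) (h1 P B i i hB)).2 rfl
    refine ⟨c, ?_, hc⟩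
    have e1 := (h3 P (P.MB B i i - c • (1 : Matrix P.I P.I ℝ)) 0).1
    rw [UR5_tr_smul_one] at e1
    have e2 := h2 P B i i hB
    have e3 : (HS2 (P.MB B i i - c • (1 : Matrix P.I P.I ℝ)) / P.k) ^ (1 / 2 : ℝ) ≤ 1 := by
      have h0 : 0 ≤ HS2 (P.MB B i i - c • (1 : Matrix P.I P.I ℝ)) / P.k :=
        div_nonneg (Finset.sum_nonneg fun _ _ => Finset.sum_nonneg fun _ _ => sq_nonneg _) hk.le
      refine Real.rpow_le_one h0 ?_ (by norm_num)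
      rw [div_le_one hk]
      refine hc.trans ?_
      calc ε' * P.k ≤ 1 * P.k := mul_le_mul_of_nonneg_right hε1 hk.le
        _ = P.k := one_mul _
    have e4 : |c| ≤ |P.tr (P.MB B i i)| + |P.tr (P.MB B i i) - c| := by
      have : c = P.tr (P.MB B i i) - (P.tr (P.MB B i i) - c) := by ring
      calc |c| = |P.tr (P.MB B i i) - (P.tr (P.MB B i i) - c)| := by rw [← this]
        _ ≤ _ := abs_sub _ _
    linarith

theorem UR5_MB (P : BP) (B : P.Hd →L[ℝ] P.UT) (pH : P.UT →L[ℝ] P.Hd)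
    (hpH : ∀ u, (pH u : P.UT) = el (hd u) 0) (i j : Fin (P.N + 1)) :
    P.MB (P.Hd.subtypeL.comp (pH.comp B)) i j = P.MB B i j := by
  funext b a
  show hd ((pH (B (P.vv j a)) : P.Hd) : P.UT) i b = hd (B (P.vv j a)) i b
  rw [hpH]
  rfl

/-- the normalised case -/
theorem UR5_unit (h1 : S_UBdd) (h2 : S_Ulam) (h3 : S_Utr) (h4 : S_matest) (h5 : S_Uav)
    (h6 : S_Uprod) (h7 : S_AVG) (h8 : S_UC1) (h9 : S_UiV) (h10 : S_UpH) (h11 : S_Uv)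
    (P : BP) (ε' : ℝ) (hε : 0 < ε') (hε1 : ε' ≤ 1) (hR : P.RigP ε') (n : ℕ)
    (A : P.UT →L[ℝ] P.UT) (B : P.Hd →L[ℝ] P.UT) (hn : n ≤ P.N) (hA : ‖A‖ ≤ 1) (hB : ‖B‖ ≤ 1) :
    |av P.Xi (fun a => A (B (P.vv n a))) -
      av P.Xi (fun a => A (P.vv n a : P.UT)) * av P.Xi (fun a => B (P.vv n a))| ≤
      (3 * (P.N + 1) ^ 2 * (P.C1 + 7) / P.ρ ^ 2) * (Real.sqrt ε' + P.qk) := by
  have hk := UR5_kpos P
  have hρ := P.hρ
  have hρ1 := P.hρ1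
  have hq : 0 ≤ P.qk := by
    unfold BP.qk
    positivity
  have hC1 : 0 ≤ P.C1 := by
    unfold BP.C1
    positivity
  have he0 : 0 ≤ Real.sqrt ε' := Real.sqrt_nonneg _
  have he1 : Real.sqrt ε' ≤ 1 := Real.sqrt_le_one.2 hε1
  obtain ⟨⟨pH, hpH, hpHn⟩, qV, hqV, hqVn⟩ := h10 P
  obtain ⟨iV, hiV, hiVn⟩ := h9 P
  set nF : Fin (P.N + 1) := ⟨n, by omega⟩ with hnF
  set A1 : P.Hd →L[ℝ] P.UT := A.comp P.Hd.subtypeL with hA1
  set B0 : P.Hd →L[ℝ] P.Hd := pH.comp B with hB0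
  have hsub : ‖P.Hd.subtypeL‖ ≤ 1 := Submodule.norm_subtypeL_le _
  have hA1n : ‖A1‖ ≤ 1 := by
    calc ‖A1‖ ≤ ‖A‖ * ‖P.Hd.subtypeL‖ := ContinuousLinearMap.opNorm_comp_le _ _
      _ ≤ 1 * 1 := mul_le_mul hA hsub (ContinuousLinearMap.opNorm_nonneg _) zero_le_one
      _ = 1 := one_mul _
  have hρi : (0 : ℝ) ≤ 1 / P.ρ := by positivity
  have hB0n : ‖B0‖ ≤ 1 + 1 / P.ρ := by
    calc ‖B0‖ ≤ ‖pH‖ * ‖B‖ := ContinuousLinearMap.opNorm_comp_le _ _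
      _ ≤ (1 + 1 / P.ρ) * 1 := mul_le_mul hpHn hB (ContinuousLinearMap.opNorm_nonneg _) (by positivity)
      _ = _ := mul_one _
  -- the matrices
  obtain ⟨mA1, mA2⟩ := UR5_mat h1 h2 h3 P ε' hε hε1 hR A1 hA1n
  obtain ⟨mB1, mB2⟩ := UR5_mat h1 h2 h3 P ε' hε hε1 hR B hB
  have hmat := h4 P (fun i j => P.MB A1 i j) (fun i j => P.MB B i j) nF (Real.sqrt ε') (P.C1 + 2)
    he0 he1 (by linarith) mA1 mB1 mA2 mB2
  -- averages of the Davie parts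
  have hvpB : (1 / P.k) * ∑ a, ‖vp (B (P.vv n a))‖ ≤ P.qk / P.ρ := by
    have h := UR5_avg h7 h8 P n hn (qV.comp B)
    have e : ∀ a, ‖(qV.comp B) (P.vv n a)‖ = ‖vp (B (P.vv n a))‖ := fun a => by
      rw [ContinuousLinearMap.comp_apply, hqV]
    simp_rw [e] at h
    refine h.trans ?_
    have : ‖qV.comp B‖ ≤ 1 / P.ρ := by
      calc ‖qV.comp B‖ ≤ ‖qV‖ * ‖B‖ := ContinuousLinearMap.opNorm_comp_le _ _
        _ ≤ 1 / P.ρ * 1 := mul_le_mul hqVn hB (ContinuousLinearMap.opNorm_nonneg _) hρi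
        _ = _ := mul_one _
    calc ‖qV.comp B‖ * P.qk ≤ 1 / P.ρ * P.qk := mul_le_mul_of_nonneg_right this hq
      _ = _ := by ring
  have hvpA : (1 / P.k) * ∑ a, ‖vp (A1 (P.vv n a))‖ ≤ P.qk / P.ρ := by
    have h := UR5_avg h7 h8 P n hn (qV.comp A1)
    have e : ∀ a, ‖(qV.comp A1) (P.vv n a)‖ = ‖vp (A1 (P.vv n a))‖ := fun a => by
      rw [ContinuousLinearMap.comp_apply, hqV]
    simp_rw [e] at h
    refine h.trans ?_
    have : ‖qV.comp A1‖ ≤ 1 / P.ρ := by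
      calc ‖qV.comp A1‖ ≤ ‖qV‖ * ‖A1‖ := ContinuousLinearMap.opNorm_comp_le _ _
        _ ≤ 1 / P.ρ * 1 := mul_le_mul hqVn hA1n (ContinuousLinearMap.opNorm_nonneg _) hρi
        _ = _ := mul_one _
    calc ‖qV.comp A1‖ * P.qk ≤ 1 / P.ρ * P.qk := mul_le_mul_of_nonneg_right this hq
      _ = _ := by ring
  have hvpP : (1 / P.k) * ∑ a, ‖vp (A1 (B0 (P.vv n a)))‖ ≤ (1 + 1 / P.ρ) * (P.qk / P.ρ) := by
    have h := UR5_avg h7 h8 P n hn (qV.comp (A1.comp B0))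
    have e : ∀ a, ‖(qV.comp (A1.comp B0)) (P.vv n a)‖ = ‖vp (A1 (B0 (P.vv n a)))‖ := fun a => by
      rw [ContinuousLinearMap.comp_apply, hqV]
      rfl
    simp_rw [e] at h
    refine h.trans ?_
    have h12 : ‖A1.comp B0‖ ≤ 1 + 1 / P.ρ := by
      calc ‖A1.comp B0‖ ≤ ‖A1‖ * ‖B0‖ := ContinuousLinearMap.opNorm_comp_le _ _
        _ ≤ 1 * (1 + 1 / P.ρ) := mul_le_mul hA1n hB0n (ContinuousLinearMap.opNorm_nonneg _) zero_le_one
        _ = _ := one_mul _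
    have : ‖qV.comp (A1.comp B0)‖ ≤ 1 / P.ρ * (1 + 1 / P.ρ) := by
      calc ‖qV.comp (A1.comp B0)‖ ≤ ‖qV‖ * ‖A1.comp B0‖ := ContinuousLinearMap.opNorm_comp_le _ _
        _ ≤ 1 / P.ρ * (1 + 1 / P.ρ) := mul_le_mul hqVn h12 (ContinuousLinearMap.opNorm_nonneg _) hρi
    calc ‖qV.comp (A1.comp B0)‖ * P.qk ≤ 1 / P.ρ * (1 + 1 / P.ρ) * P.qk :=
          mul_le_mul_of_nonneg_right this hq
      _ = _ := by ring
  have hFsum : ∀ y : P.I → P.Dv.V, |(1 / P.k) * ∑ a, P.Dv.F a (y a)| ≤ (1 / P.k) * ∑ a, ‖y a‖ := by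
    intro y
    rw [abs_mul, abs_of_pos (one_div_pos.2 hk)]
    refine mul_le_mul_of_nonneg_left ?_ (one_div_pos.2 hk).le
    exact (Finset.abs_sum_le_sum_abs _ _).trans (Finset.sum_le_sum fun a _ => UR5_F P a (y a))
  -- the averages
  have aA := h5 P A1 nF
  have aB := h5 P B nF
  have aP := h6 P A1 B0 nF
  have eMB : ∀ i j, P.MB (P.Hd.subtypeL.comp B0) i j = P.MB B i j := fun i j =>
    UR5_MB P B pH hpH i j
  simp_rw [eMB] at aP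
  have eA : av P.Xi (fun a => A (P.vv n a : P.UT)) = av P.Xi (fun a => A1 (P.vv nF a)) := rfl
  have eB : av P.Xi (fun a => B (P.vv n a)) = av P.Xi (fun a => B (P.vv nF a)) := rfl
  -- the splitting of A B
  have hsplit : av P.Xi (fun a => A (B (P.vv n a))) = av P.Xi (fun a => A1 (B0 (P.vv nF a))) +
      av P.Xi (fun a => A (iV (vp (B (P.vv n a))))) := by
    rw [UR5_av_eq, UR5_av_eq, UR5_av_eq, ← mul_add, ← Finset.sum_add_distrib]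
    congr 1
    refine Finset.sum_congr rfl fun a _ => ?_
    rw [← map_add]
    congr 1
    show A (B (P.vv n a)) = A ((B0 (P.vv n a) : P.Hd) : P.UT) + A (iV (vp (B (P.vv n a))))
    rw [← map_add]
    congr 1
    rw [hB0, ContinuousLinearMap.comp_apply, hpH, hiV]
    refine BP.ext ?_ ?_
    · rw [hd_add, hd_el, hd_el, add_zero]
    · rw [vp_add, vp_el, vp_el, zero_add]
  have hlast : |av P.Xi (fun a => A (iV (vp (B (P.vv n a)))))| ≤ P.qk / P.ρ := by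
    refine (UR5_av_le P _).trans (le_trans ?_ hvpB)
    refine mul_le_mul_of_nonneg_left (Finset.sum_le_sum fun a _ => ?_) (one_div_pos.2 hk).le
    calc ‖A (iV (vp (B (P.vv n a))))‖ ≤ ‖A‖ * ‖iV (vp (B (P.vv n a)))‖ := A.le_opNorm _
      _ ≤ 1 * ‖iV (vp (B (P.vv n a)))‖ := mul_le_mul_of_nonneg_right hA (norm_nonneg _)
      _ = ‖iV (vp (B (P.vv n a)))‖ := one_mul _
      _ ≤ ‖iV‖ * ‖vp (B (P.vv n a))‖ := iV.le_opNorm _
      _ ≤ 1 * ‖vp (B (P.vv n a))‖ := mul_le_mul_of_nonneg_right hiVn (norm_nonneg _)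
      _ = ‖vp (B (P.vv n a))‖ := one_mul _
  have hrA : |(1 / P.k) * ∑ a, P.Dv.F a (vp (A1 (P.vv nF a)))| ≤ P.qk / P.ρ :=
    (hFsum fun a => vp (A1 (P.vv nF a))).trans hvpA
  have hrB : |(1 / P.k) * ∑ a, P.Dv.F a (vp (B (P.vv nF a)))| ≤ P.qk / P.ρ :=
    (hFsum fun a => vp (B (P.vv nF a))).trans hvpB
  have hrP : |(1 / P.k) * ∑ a, P.Dv.F a (vp (A1 (B0 (P.vv nF a))))| ≤
      (1 + 1 / P.ρ) * (P.qk / P.ρ) :=
    (hFsum fun a => vp (A1 (B0 (P.vv nF a)))).trans hvpP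
  have havB : |av P.Xi (fun a => B (P.vv nF a))| ≤ 2 := by
    refine (UR5_av_le P _).trans ?_
    have e1 : ∑ a : P.I, ‖B (P.vv nF a)‖ ≤ ∑ _a : P.I, (2 : ℝ) := by
      refine Finset.sum_le_sum fun a _ => ?_
      calc ‖B (P.vv nF a)‖ ≤ ‖B‖ * ‖P.vv nF a‖ := B.le_opNorm _
        _ ≤ 1 * 2 := mul_le_mul hB ((h11 P).1 _ _) (norm_nonneg _) zero_le_one
        _ = 2 := by norm_num
    rw [Finset.sum_const, Finset.card_univ, nsmul_eq_mul, UR5_card] at e1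
    calc (1 / P.k) * ∑ a : P.I, ‖B (P.vv nF a)‖ ≤ (1 / P.k) * (P.k * 2) :=
          mul_le_mul_of_nonneg_left e1 (one_div_pos.2 hk).le
      _ = 2 := by field_simp
  have hSX : |∑ i, P.tr (P.MB A1 i nF)| ≤ (P.N + 1) * P.C1 := by
    refine (Finset.abs_sum_le_sum_abs _ _).trans ?_
    refine (Finset.sum_le_sum fun i _ => h2 P A1 nF i hA1n).trans ?_
    rw [Finset.sum_const, Finset.card_univ, Fintype.card_fin, nsmul_eq_mul]
    push_cast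
    exact le_rfl
  rw [hsplit, eA, eB]
  rw [aB] at havB
  rw [aP, aA, aB]
  set SXY := ∑ i, ∑ j, P.tr (P.MB A1 i j * P.MB B j nF) with hSXY
  set SX := ∑ i, P.tr (P.MB A1 i nF) with hSXd
  set SY := ∑ i, P.tr (P.MB B i nF) with hSYd
  set rA := (1 / P.k) * ∑ a, P.Dv.F a (vp (A1 (P.vv nF a))) with hrAd
  set rB := (1 / P.k) * ∑ a, P.Dv.F a (vp (B (P.vv nF a))) with hrBd
  set rP := (1 / P.k) * ∑ a, P.Dv.F a (vp (A1 (B0 (P.vv nF a)))) with hrPd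
  set rL := av P.Xi (fun a => A (iV (vp (B (P.vv n a))))) with hrLd
  set Q := P.qk / P.ρ with hQ
  have hQ0 : 0 ≤ Q := by positivity
  have key : |SXY + rP + rL - (SX + rA) * (SY + rB)| ≤
      3 * (P.N + 1) ^ 2 * (P.C1 + 2 + 1) * Real.sqrt ε' +
        ((1 + 1 / P.ρ) * Q + Q + (P.N + 1) * P.C1 * Q + Q * 2) := by
    have e1 : SXY + rP + rL - (SX + rA) * (SY + rB) =
        (SXY - SX * SY) + rP + rL - SX * rB - rA * (SY + rB) := by ring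
    rw [e1]
    have e2 : |SX * rB| ≤ (P.N + 1) * P.C1 * Q := by
      rw [abs_mul]
      exact mul_le_mul hSX hrB (abs_nonneg _) (by positivity)
    have e3 : |rA * (SY + rB)| ≤ Q * 2 := by
      rw [abs_mul]
      exact mul_le_mul hrA havB (abs_nonneg _) hQ0
    have f0 := abs_le.1 hmat
    have f1 := abs_le.1 hrP
    have f2 := abs_le.1 hlast
    have f3 := abs_le.1 e2
    have f4 := abs_le.1 e3
    rw [abs_le]
    constructor <;> linarith [f0.1, f0.2, f1.1, f1.2, f2.1, f2.2, f3.1, f3.2, f4.1, f4.2]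
  refine key.trans ?_
  -- the final estimate
  have hL : (1 : ℝ) ≤ (P.N : ℝ) + 1 := by
    have : (0 : ℝ) ≤ P.N := Nat.cast_nonneg _
    linarith
  set L : ℝ := (P.N : ℝ) + 1 with hLd
  have hρ2 : 0 < P.ρ ^ 2 := by positivity
  have hρ2' : P.ρ ^ 2 ≤ 1 := pow_le_one₀ hρ.le hρ1
  have c1 : 3 * L ^ 2 * (P.C1 + 2 + 1) * Real.sqrt ε' ≤
      (3 * L ^ 2 * (P.C1 + 7) / P.ρ ^ 2) * Real.sqrt ε' := by
    refine mul_le_mul_of_nonneg_right ?_ he0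
    rw [le_div_iff₀ hρ2]
    calc 3 * L ^ 2 * (P.C1 + 2 + 1) * P.ρ ^ 2 ≤ 3 * L ^ 2 * (P.C1 + 7) * 1 :=
          mul_le_mul (mul_le_mul_of_nonneg_left (by linarith) (by positivity)) hρ2' hρ2.le
            (by positivity)
      _ = _ := mul_one _
  have c2 : (1 + 1 / P.ρ) * Q + Q + L * P.C1 * Q + Q * 2 ≤
      (3 * L ^ 2 * (P.C1 + 7) / P.ρ ^ 2) * P.qk := by
    have e1 : Q = P.ρ * (P.qk / P.ρ ^ 2) := by rw [hQ]; field_simp
    have e2 : (1 / P.ρ) * Q = P.qk / P.ρ ^ 2 := by rw [hQ]; field_simp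
    set W := P.qk / P.ρ ^ 2 with hW
    have hW0 : 0 ≤ W := by positivity
    have e3 : Q ≤ W := by
      rw [e1]
      calc P.ρ * W ≤ 1 * W := mul_le_mul_of_nonneg_right hρ1 hW0
        _ = W := one_mul _
    have e4 : (3 * L ^ 2 * (P.C1 + 7) / P.ρ ^ 2) * P.qk = 3 * L ^ 2 * (P.C1 + 7) * W := by
      rw [hW]; ring
    rw [e4]
    have e5 : (1 + 1 / P.ρ) * Q + Q + L * P.C1 * Q + Q * 2 = 1 / P.ρ * Q + (4 + L * P.C1) * Q := by
      ring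
    rw [e5, e2]
    have e6 : (4 + L * P.C1) * Q ≤ (4 + L * P.C1) * W :=
      mul_le_mul_of_nonneg_left e3 (by positivity)
    have e7 : W + (4 + L * P.C1) * W ≤ 3 * L ^ 2 * (P.C1 + 7) * W := by
      have : W + (4 + L * P.C1) * W = (5 + L * P.C1) * W := by ring
      rw [this]
      refine mul_le_mul_of_nonneg_right ?_ hW0
      have g1 : L ≤ L ^ 2 := le_self_pow₀ hL (by norm_num)
      have g2 : L * P.C1 ≤ L ^ 2 * P.C1 := mul_le_mul_of_nonneg_right g1 hC1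
      have g3 : 0 ≤ L ^ 2 * P.C1 := by positivity
      have g4 : 1 ≤ L ^ 2 := one_le_pow₀ hL
      have g5 : 3 * L ^ 2 * (P.C1 + 7) = 3 * (L ^ 2 * P.C1) + 21 * L ^ 2 := by ring
      rw [g5]
      linarith only [g2, g3, g4]
    linarith
  calc _ ≤ (3 * L ^ 2 * (P.C1 + 7) / P.ρ ^ 2) * Real.sqrt ε' +
        (3 * L ^ 2 * (P.C1 + 7) / P.ρ ^ 2) * P.qk := add_le_add c1 c2
    _ = _ := by ring

theorem p_UR5 (h1 : S_UBdd) (h2 : S_Ulam) (h3 : S_Utr) (h4 : S_matest) (h5 : S_Uav)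
    (h6 : S_Uprod) (h7 : S_AVG) (h8 : S_UC1) (h9 : S_UiV) (h10 : S_UpH) (h11 : S_Uv) : S_UR5 := by
  intro P ε' hε hε1 hR n A B hn
  rw [Real.norm_eq_abs]
  by_cases hA0 : A = 0
  · subst hA0
    have : av P.Xi (fun a => (0 : P.UT →L[ℝ] P.UT) (B (P.vv n a))) -
      av P.Xi (fun a => (0 : P.UT →L[ℝ] P.UT) (P.vv n a : P.UT)) *
        av P.Xi (fun a => B (P.vv n a)) = 0 := by
      simp [av]
    rw [this, abs_zero, ContinuousLinearMap.opNorm_zero, mul_zero, zero_mul]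
  by_cases hB0 : B = 0
  · subst hB0
    have : av P.Xi (fun a => A ((0 : P.Hd →L[ℝ] P.UT) (P.vv n a))) -
      av P.Xi (fun a => A (P.vv n a : P.UT)) *
        av P.Xi (fun a => (0 : P.Hd →L[ℝ] P.UT) (P.vv n a)) = 0 := by
      simp [av]
    rw [this, abs_zero, ContinuousLinearMap.opNorm_zero, mul_zero]
  have hA : 0 < ‖A‖ := lt_of_le_of_ne (ContinuousLinearMap.opNorm_nonneg _)
    (fun h => hA0 ((ContinuousLinearMap.opNorm_zero_iff (f := A)).1 h.symm))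
  have hB : 0 < ‖B‖ := lt_of_le_of_ne (ContinuousLinearMap.opNorm_nonneg _)
    (fun h => hB0 ((ContinuousLinearMap.opNorm_zero_iff (f := B)).1 h.symm))
  have hu := UR5_unit h1 h2 h3 h4 h5 h6 h7 h8 h9 h10 h11 P ε' hε hε1 hR n (‖A‖⁻¹ • A) (‖B‖⁻¹ • B) hn
    (by
      refine (ContinuousLinearMap.opNorm_smul_le _ _).trans ?_
      rw [norm_inv, Real.norm_of_nonneg hA.le, inv_mul_cancel₀ hA.ne'])
    (by
      refine (ContinuousLinearMap.opNorm_smul_le _ _).trans ?_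
      rw [norm_inv, Real.norm_of_nonneg hB.le, inv_mul_cancel₀ hB.ne'])
  have e1 : av P.Xi (fun a => (‖A‖⁻¹ • A) ((‖B‖⁻¹ • B) (P.vv n a))) =
      ‖A‖⁻¹ * ‖B‖⁻¹ * av P.Xi (fun a => A (B (P.vv n a))) := by
    rw [UR5_av_eq, UR5_av_eq]
    have : ∀ a, P.Xi a ((‖A‖⁻¹ • A) ((‖B‖⁻¹ • B) (P.vv n a))) =
        ‖A‖⁻¹ * ‖B‖⁻¹ * P.Xi a (A (B (P.vv n a))) := by
      intro a
      rw [ContinuousLinearMap.smul_apply, ContinuousLinearMap.smul_apply, map_smul, map_smul,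
        map_smul, smul_eq_mul, smul_eq_mul, mul_assoc]
    simp_rw [this]
    rw [← Finset.mul_sum]
    ring
  have e2 : av P.Xi (fun a => (‖A‖⁻¹ • A) (P.vv n a : P.UT)) =
      ‖A‖⁻¹ * av P.Xi (fun a => A (P.vv n a : P.UT)) := by
    rw [UR5_av_eq, UR5_av_eq]
    have : ∀ a, P.Xi a ((‖A‖⁻¹ • A) (P.vv n a : P.UT)) = ‖A‖⁻¹ * P.Xi a (A (P.vv n a : P.UT)) := by
      intro a
      rw [ContinuousLinearMap.smul_apply, map_smul, smul_eq_mul]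
    simp_rw [this]
    rw [← Finset.mul_sum]
    ring
  have e3 : av P.Xi (fun a => (‖B‖⁻¹ • B) (P.vv n a)) =
      ‖B‖⁻¹ * av P.Xi (fun a => B (P.vv n a)) := by
    rw [UR5_av_eq, UR5_av_eq]
    have : ∀ a, P.Xi a ((‖B‖⁻¹ • B) (P.vv n a)) = ‖B‖⁻¹ * P.Xi a (B (P.vv n a)) := by
      intro a
      rw [ContinuousLinearMap.smul_apply, map_smul, smul_eq_mul]
    simp_rw [this]
    rw [← Finset.mul_sum]
    ring
  rw [e1, e2, e3] at hu
  set a1 := av P.Xi (fun a => A (B (P.vv n a))) with ha1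
  set a2 := av P.Xi (fun a => A (P.vv n a : P.UT)) with ha2
  set a3 := av P.Xi (fun a => B (P.vv n a)) with ha3
  have e4 : ‖A‖⁻¹ * ‖B‖⁻¹ * a1 - ‖A‖⁻¹ * a2 * (‖B‖⁻¹ * a3) = (a1 - a2 * a3) / (‖A‖ * ‖B‖) := by
    field_simp
  have hAB : 0 < ‖A‖ * ‖B‖ := mul_pos hA hB
  rw [e4, abs_div, abs_of_pos hAB, div_le_iff₀ hAB] at hu
  calc _ ≤ _ := hu
    _ = _ := by ring

end Pool.Agent.Lib.MP_355270_an.CB
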