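import Pool.Agent.Lib.MP_355270_an.CB.StmU

open Filter Topology
open scoped ENNReal

namespace Pool.Agent.Lib.MP_355270_an.CB

private theorem Wasys_mono (B : BSeq) : Monotone (VW B) := by
  rintro j j' hj w ⟨h1, h2⟩
  exact ⟨fun i => (B i).mono hj (h1 i), fun i hi => h2 i (hj.trans hi)⟩

private theorem Wasys_inB_mem (B : BSeq) (i j : ℕ) (hij : i < j) (x : (B i).U)
    (hx : x ∈ (B i).E j) : inB B i x ∈ VW B j := by
  refine ⟨fun l => ?_, fun l hl => ?_⟩
  · by_cases h : l = i
    · subst h
      have e : (inB B l x : WS B) l = x :=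
        lp.single_apply_self (E := fun i => (B i).U) 3 l x
      rw [e]
      exact hx
    · have e : (inB B i x : WS B) l = 0 :=
        lp.single_apply_ne (E := fun i => (B i).U) 3 i x h
      rw [e]
      exact ((B l).E j).zero_mem
  · exact lp.single_apply_ne (E := fun i => (B i).U) 3 i x (by omega)

private theorem Wasys_fin (B : BSeq) (j : ℕ) : FiniteDimensional ℝ (VW B j) := by
  have : ∀ i : Fin j, FiniteDimensional ℝ ((B i).E j) := fun i => (B i).fin j
  let f : VW B j →ₗ[ℝ] (∀ i : Fin j, (B i).E j) :=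
    { toFun := fun w i => ⟨(w : WS B) i, w.2.1 i⟩
      map_add' := fun w w' => by
        funext i
        apply Subtype.ext
        rfl
      map_smul' := fun c w => by
        funext i
        apply Subtype.ext
        rfl }
  refine FiniteDimensional.of_injective f ?_
  intro w w' hww
  apply Subtype.ext
  apply lp.ext
  funext i
  by_cases hi : i < j
  · have h := congrFun hww ⟨i, hi⟩
    exact congrArg Subtype.val h
  · rw [w.2.2 i (not_lt.1 hi), w'.2.2 i (not_lt.1 hi)]

private theorem Wasys_dense (B : BSeq) : Dense (⋃ j, (VW B j : Set (WS B))) := by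
  set T : Submodule ℝ (WS B) := ⨆ j, VW B j with hT
  have hTc : (T : Set (WS B)) = ⋃ j, (VW B j : Set (WS B)) :=
    Submodule.coe_iSup_of_directed _ (Wasys_mono B).directed_le
  rw [← hTc]
  intro w
  have hsingle : ∀ (i : ℕ) (x : (B i).U), inB B i x ∈ T.topologicalClosure := by
    intro i x
    have hx : x ∈ closure (⋃ j, ((B i).E j : Set (B i).U)) := (B i).dense x
    have h1 : inB B i x ∈ closure ((inB B i) '' (⋃ j, ((B i).E j : Set (B i).U))) :=
      image_closure_subset_closure_image (inB B i).continuous ⟨x, hx, rfl⟩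
    refine closure_mono ?_ h1
    rintro _ ⟨y, hy, rfl⟩
    obtain ⟨j, hj⟩ := Set.mem_iUnion.1 hy
    show inB B i y ∈ (T : Set (WS B))
    rw [hTc]
    refine Set.mem_iUnion.2 ⟨max j (i + 1), ?_⟩
    exact Wasys_inB_mem B i _ (by omega) y ((B i).mono (le_max_left _ _) hj)
  have hsum := lp.hasSum_single (by norm_num : (3 : ℝ≥0∞) ≠ ⊤) w
  have hcl : IsClosed (T.topologicalClosure : Set (WS B)) := T.isClosed_topologicalClosure
  have hmem : w ∈ (T.topologicalClosure : Set (WS B)) := by
    refine hcl.mem_of_tendsto hsum (Eventually.of_forall fun s => ?_)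
    exact T.topologicalClosure.sum_mem fun i _ => hsingle i (w i)
  exact hmem

theorem p_Wasys : S_Wasys := by
  intro B D hD
  refine ⟨Wasys_mono B, Wasys_fin B, Wasys_dense B, ?_⟩
  rintro j w ⟨h1, h2⟩
  refine ⟨fun i => ?_, fun i hi => ?_⟩
  · rw [hD]
    exact (B i).hDE j _ (h1 i)
  · rw [hD, h2 i hi, map_zero]

end Pool.Agent.Lib.MP_355270_an.CB
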